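import Pool.Agent.H31.F4.Orb4

/-!
# FF-39: Case B, matching components (compare EL/CBe.lean)

`conj_hd_pv`: `Fil_pv` for `±b'`: `g` maps `Fil (cv b') i` onto `Fil (cv b) i` and `Fil (cv (ng b')) i` onto
`Fil (cv (ng b)) i`.  `Grd d i = Fil d i ⊓ Fil (-d) (-i)` and `cv (ng b) = -cv b`: so `g` maps `Grd (cv b') i` into
`Grd (cv b) i`.  `hd (cv b) z` acts on `Grd (cv b) i` as the scalar `z^i` (`Fil_hd_grd`).  So
`g hd (cv b') z = hd (cv b) z g` on all `Grd (cv b') i`, which span.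
`caseB1_4`: `¬ NM F g`: there is `b' ∈ SF4 (cj g F)` long with `g (e b') ∈ OrbL F`, or `b' ∈ SsF (cj g F)` with
`g (wf b') ∈ OrbS F`: in both cases `g (pv b') = κ f (pv b)`, `f ∈ Fo4 F`, `b` good of the same length.
`g1 = f⁻¹ g`, `g1 (pv b') = κ pv b`.  `v = g1 (pv (ng b'))`: `PtF F g1 (ng b')` (`sym4` for `cj g F`), `fm (pv b) v ≠ 0`
(`fm_pv_ng`, `g1` preserves `fm`), so `v.2 (ng b) ≠ 0` (`fm_pv`).  `Pl` / `Ps`: `v = κ' r (pv (ng b))`,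
`r ∈ Fo4 F ⊓ Gn {0 < dg b y}`.  `g2 = r⁻¹ g1`: `g2 (pv b') = κ r⁻¹ (pv b) = κ pv b` (`Gn_pv`), `g2 (pv (ng b')) = κ' pv (ng b)`.
So `g2 (hd (cv b') z) g2⁻¹ = hd (cv b) z` for all `z` (`conj_hd_pv`).
Let `z` be a unit with `z² ≠ 1`, `F1 = F ⊓ centralizer {hd (cv b) z}`.  `T4 ≤ F1` (`T4_comm`);
`xf b 1 ∈ F` is not in `F1` (`T4_conj_xf`, `wt_hd_cv`, `dg_self`, `xf_inj`), so `|F1| < |F|`; `g2 T4 g2⁻¹ ≤ F1`:
`g2 t g2⁻¹ = (f r)⁻¹ (g t g⁻¹) (f r) ∈ F` commutes with `g2 (hd (cv b') z) g2⁻¹`.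
`Dst4 F1`: `c1 ∈ Fo4 F1 ≤ Fo4 F` with `c1⁻¹ g2 ∈ NN`.  `f r c1 ∈ Fo4 F`, `(f r c1)⁻¹ g = c1⁻¹ g2`.
-/

namespace Pool.Agent.H31.F4

open Pool.Agent.H33.EL (ip cc eps Rt ng zk ek fk LL hh e brf fmf br fm IsExt exl ex xr hd L0 GG T1 TT NN SF cj wt)

variable {K : Type} [Field K]

variable {p : ℕ} {F : Subgroup (LL C6 K ≃ₗ[K] LL C6 K)}

theorem B14_inv (r : LL C6 K ≃ₗ[K] LL C6 K) (x : LL C6 K) : r⁻¹ (r x) = x :=
  r.symm_apply_apply x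

theorem B14_ip_neg (d x : Fin 6 → ℤ) : ip C6 (-d) x = -ip C6 d x := by
  unfold ip
  rw [← Finset.sum_neg_distrib]
  refine Finset.sum_congr rfl fun i _ => ?_
  rw [← Finset.sum_neg_distrib]
  refine Finset.sum_congr rfl fun j _ => ?_
  rw [Pi.neg_apply]
  ring

theorem B14_grd {d : Fin 6 → ℤ} {i : ℤ} {x : LL C6 K} (h1 : x ∈ Fil C6 K d i)
    (h2 : x ∈ Fil C6 K (-d) (-i)) : x ∈ Grd C6 K d i := by
  refine ⟨fun b hb => ?_, fun hi => ?_⟩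
  · rcases lt_or_gt_of_ne hb with h | h
    · exact h1.1 b h
    · apply h2.1 b
      rw [B14_ip_neg]
      omega
  · rcases lt_or_gt_of_ne hi with h | h
    · exact h2.2 (by omega)
    · exact h1.2 h

theorem B14_fil {d : Fin 6 → ℤ} {i : ℤ} {x : LL C6 K} (h : x ∈ Grd C6 K d i) :
    x ∈ Fil C6 K (-d) (-i) := by
  refine ⟨fun b hb => ?_, fun hi => h.2 (by omega)⟩
  apply h.1 b
  rw [B14_ip_neg] at hb
  omega

theorem conj_hd_pv (H : HypW C6 K) {g : LL C6 K ≃ₗ[K] LL C6 K} (hg : g ∈ GF K) {b b' : Rt C6}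
    {k k' : K} (hk : k ≠ 0) (hk' : k' ≠ 0) (h : g (pv K b') = k • pv K b)
    (h' : g (pv K (ng b')) = k' • pv K (ng b)) (z : Kˣ) :
    g * hd C6 (cv b') z * g⁻¹ = hd C6 (cv b) z := by
  have hgr : ∀ (i : ℤ) (x : LL C6 K), x ∈ Grd C6 K (cv b') i → g x ∈ Grd C6 K (cv b) i := by
    intro i x hx
    apply B14_grd
    · exact (Fil_pv H hg hk h i x).2 (FilA_grd_le _ _ hx)
    · have h1 := (Fil_pv H hg hk' h' (-i) x).2
      rw [cv_ng, cv_ng] at h1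
      exact h1 (B14_fil hx)
  have hx : ∀ (i : ℤ) (x : LL C6 K), x ∈ Grd C6 K (cv b') i →
      g (hd C6 (cv b') z x) = hd C6 (cv b) z (g x) := by
    intro i x hx
    rw [Fil_hd_grd hx z, Fil_hd_grd (hgr i x hx) z, map_smul]
  have key : g * hd C6 (cv b') z = hd C6 (cv b) z * g := by
    refine LinearEquiv.ext fun x => ?_
    rw [LinearEquiv.mul_apply, LinearEquiv.mul_apply]
    rw [decomp x]
    simp only [map_add, map_sum, map_smul]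
    rw [hx 0 _ (FilA_hh_grd _ _)]
    congr 1
    refine Finset.sum_congr rfl fun a _ => ?_
    rw [hx _ _ (FilA_e_grd _ a)]
  rw [key, mul_inv_cancel_right]

theorem B14_main (H : HypW C6 K) [Fact p.Prime] [CharP K p] (X : HB p F)
    {g : LL C6 K ≃ₗ[K] LL C6 K} (hg : g ∈ GF K) (hgT : T4 K ≤ cj g F)
    (IH : ∀ F' : Subgroup (LL C6 K ≃ₗ[K] LL C6 K), F' ≤ GF K → T4 K ≤ F' →
      Nat.card F' < Nat.card F → Dst4 F') {b b' : Rt C6} (hb : b ∈ SF4 F)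
    (hb' : b' ∈ SF4 (cj g F)) (hty : (sg b = b ∧ sg b' = b') ∨ (b ∈ SsF F ∧ sg b' ≠ b'))
    {f : LL C6 K ≃ₗ[K] LL C6 K} (hf : f ∈ Fo4 F) {κ : K} (hκ : κ ≠ 0)
    (hgf : g (pv K b') = κ • f (pv K b)) : ∃ c ∈ Fo4 F, c⁻¹ * g ∈ NN C6 K := by
  have hfF : f ∈ F := Fo4_le X.hT hf
  have hg1 : f⁻¹ * g ∈ GF K := mul_mem (inv_mem (X.hF hfF)) hg
  have hgp1 : (f⁻¹ * g) (pv K b') = κ • pv K b := by
    rw [LinearEquiv.mul_apply, hgf, map_smul, B14_inv]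
  have X' := HB_cj X hg hgT
  have hnb' : ng b' ∈ SF4 (cj g F) := sym4 H X' hb'
  have hgF : ∀ s : K, (f⁻¹ * g) * xf (ng b') s * (f⁻¹ * g)⁻¹ ∈ F := by
    intro s
    have h1 : g * xf (ng b') s * g⁻¹ ∈ F := mem_cj4.1 (hnb' s)
    have h2 : (f⁻¹ * g) * xf (ng b') s * (f⁻¹ * g)⁻¹ = f⁻¹ * (g * xf (ng b') s * g⁻¹) * f := by
      group
    rw [h2]
    exact mul_mem (mul_mem (inv_mem hfF) h1) hfF
  have hne : ((f⁻¹ * g) (pv K (ng b'))).2 (ng b) ≠ 0 := by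
    obtain ⟨k, hk, hfm⟩ := fm_pv H b
    have h1 : fm (pv K b') (pv K (ng b')) ≠ 0 := fm_pv_ng H b'
    rw [← (GF_le_GG hg1).2, hgp1, map_smul, LinearMap.smul_apply] at h1
    have hmem : if sg b = b then (f⁻¹ * g) (pv K (ng b')) ∈ LF K
        else (f⁻¹ * g) (pv K (ng b')) ∈ VF K := by
      have h2 := DBrB_pv_mem (K := K) (ng b')
      rcases hty with ⟨h3, h4⟩ | ⟨h3, h4⟩
      · rw [if_pos h3, GF_LF hg1]
        rwa [if_pos ((sg_ng_iff b').2 h4)] at h2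
      · rw [if_neg h3.2.1, GF_VF hg1]
        rwa [if_neg (fun h => h4 ((sg_ng_iff b').1 h))] at h2
    rw [hfm _ hmem] at h1
    intro h0
    apply h1
    rw [h0, mul_zero, smul_zero]
  have hr0 : ∃ r ∈ Fo4 F, r ∈ Gn K {y | 0 < dg b y} ∧ ∃ κ' : K, κ' ≠ 0 ∧
      (f⁻¹ * g) (pv K (ng b')) = κ' • r (pv K (ng b)) := by
    rcases hty with ⟨h3, h4⟩ | ⟨h3, h4⟩
    · have h5 : sg (ng b') = ng b' := (sg_ng_iff b').2 h4
      have h6 : sg (ng b) = ng b := (sg_ng_iff b).2 h3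
      rw [pv_long h5] at hne ⊢
      rw [pv_long h6]
      exact (Pl H X.hF X.hT hb h3 h5 hg1 hgF hne).2
    · have h5 : sg (ng b') ≠ ng b' := fun h => h4 ((sg_ng_iff b').1 h)
      have h6 : sg (ng b) ≠ ng b := fun h => h3.2.1 ((sg_ng_iff b).1 h)
      rw [pv_short h5] at hne ⊢
      rw [pv_short h6]
      obtain ⟨-, r, hr, hr1, hr2, -⟩ := Ps H X.hF X.hT h3 h5 hg1 hgF hne
      exact ⟨r, hr, hr1, hr2⟩
  obtain ⟨r, hr, hrG, κ', hκ', hvr⟩ := hr0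
  have hrF : r ∈ F := Fo4_le X.hT hr
  have hrb : r (pv K b) = pv K b := (Gn_pv H b hrG).1
  have hrb' : r⁻¹ (pv K b) = pv K b := by
    conv_lhs => rw [← hrb]
    exact B14_inv r _
  obtain ⟨g2, hg2def⟩ : ∃ g2, g2 = r⁻¹ * (f⁻¹ * g) := ⟨_, rfl⟩
  have hg2 : g2 ∈ GF K := by
    rw [hg2def]
    exact mul_mem (inv_mem (X.hF hrF)) hg1
  have hgp2 : g2 (pv K b') = κ • pv K b := by
    rw [hg2def, LinearEquiv.mul_apply, hgp1, map_smul, hrb']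
  have hgp3 : g2 (pv K (ng b')) = κ' • pv K (ng b) := by
    rw [hg2def, LinearEquiv.mul_apply, hvr, map_smul, B14_inv]
  have hconj : ∀ z : Kˣ, g2 * hd C6 (cv b') z * g2⁻¹ = hd C6 (cv b) z := fun z =>
    conj_hd_pv H hg2 hκ hκ' hgp2 hgp3 z
  obtain ⟨z, hz⟩ := exists_sq_ne H
  obtain ⟨F1, hF1⟩ : ∃ F1 : Subgroup (LL C6 K ≃ₗ[K] LL C6 K),
      F1 = F ⊓ Subgroup.centralizer {hd C6 (cv b) z} := ⟨_, rfl⟩
  have hzT : (hd C6 (cv b) z : LL C6 K ≃ₗ[K] LL C6 K) ∈ T4 K := hd_mem_T4 (sv_cv b) z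
  have hzT' : (hd C6 (cv b') z : LL C6 K ≃ₗ[K] LL C6 K) ∈ T4 K := hd_mem_T4 (sv_cv b') z
  have hF1F : F1 ≤ F := by
    rw [hF1]
    exact inf_le_left
  have hF1G : F1 ≤ GF K := hF1F.trans X.hF
  have hmem1 : ∀ x, x ∈ F1 ↔ x ∈ F ∧ hd C6 (cv b) z * x = x * hd C6 (cv b) z := by
    intro x
    rw [hF1, Subgroup.mem_inf, Subgroup.mem_centralizer_singleton_iff]
    exact ⟨fun h => ⟨h.1, h.2.symm⟩, fun h => ⟨h.1, h.2.symm⟩⟩
  have hTF1 : T4 K ≤ F1 := by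
    intro t ht
    rw [hmem1]
    exact ⟨X.hT ht, T4_comm H hzT ht⟩
  have := finite4 (K := K) H
  have hcard : Nat.card F1 < Nat.card F := by
    by_contra hcon
    push Not at hcon
    have h1 : F1 = F := Subgroup.eq_of_le_of_card_ge hF1F hcon
    have h2 : xf b (1 : K) ∈ F1 := by
      rw [h1]
      exact hb 1
    have h3 := ((hmem1 _).1 h2).2
    have h4 := T4_conj_xf H hzT b (1 : K)
    rw [h3, mul_inv_cancel_right, wt_hd_cv, dg_self, mul_one] at h4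
    have h5 := xf_inj H b h4
    apply hz
    rw [h5]
    rw [Units.val_zpow_eq_zpow_val]
    norm_cast
  have hT2 : T4 K ≤ cj g2 F1 := by
    intro t ht
    rw [mem_cj4, hmem1]
    refine ⟨?_, ?_⟩
    · have h1 : g * t * g⁻¹ ∈ F := mem_cj4.1 (hgT ht)
      have h2 : g2 * t * g2⁻¹ = r⁻¹ * (f⁻¹ * (g * t * g⁻¹) * f) * r := by
        rw [hg2def]
        group
      rw [h2]
      exact mul_mem (mul_mem (inv_mem hrF) (mul_mem (mul_mem (inv_mem hfF) h1) hfF)) hrF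
    · rw [← hconj z]
      have h1 : hd C6 (cv b') z * t = t * hd C6 (cv b') z := T4_comm H hzT' ht
      have h2 : g2 * hd C6 (cv b') z * g2⁻¹ * (g2 * t * g2⁻¹) =
          g2 * (hd C6 (cv b') z * t) * g2⁻¹ := by group
      have h3 : g2 * t * g2⁻¹ * (g2 * hd C6 (cv b') z * g2⁻¹) =
          g2 * (t * hd C6 (cv b') z) * g2⁻¹ := by group
      rw [h2, h3, h1]
  obtain ⟨c1, hc1, hc1N⟩ := IH F1 hF1G hTF1 hcard g2 hg2 hT2
  refine ⟨f * r * c1, mul_mem (mul_mem hf hr) (Fo4_mono hF1F hc1), ?_⟩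
  have h1 : (f * r * c1)⁻¹ * g = c1⁻¹ * g2 := by
    rw [hg2def]
    group
  rw [h1]
  exact hc1N

theorem caseB1_4 (H : HypW C6 K) [Fact p.Prime] [CharP K p] (X : HB p F)
    {g : LL C6 K ≃ₗ[K] LL C6 K} (hg : g ∈ GF K) (hgT : T4 K ≤ cj g F) (h : ¬ NM F g)
    (IH : ∀ F' : Subgroup (LL C6 K ≃ₗ[K] LL C6 K), F' ≤ GF K → T4 K ≤ F' →
      Nat.card F' < Nat.card F → Dst4 F') : ∃ c ∈ Fo4 F, c⁻¹ * g ∈ NN C6 K := by
  unfold NM at h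
  rw [not_and_or] at h
  rcases h with h | h
  · push Not at h
    obtain ⟨b', hb', hl', f, hf, b, hb, hl, κ, hκ, hgf⟩ := h
    refine B14_main H X hg hgT IH hb hb' (Or.inl ⟨hl, hl'⟩) hf hκ ?_
    rw [pv_long hl', pv_long hl]
    exact hgf
  · push Not at h
    obtain ⟨b', hb', f, hf, b, hb, κ, hκ, hgf⟩ := h
    refine B14_main H X hg hgT IH hb.1 hb'.1 (Or.inr ⟨hb, hb'.2.1⟩) hf hκ ?_
    rw [pv_short hb'.2.1, pv_short hb.2.1]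
    exact hgf

end Pool.Agent.H31.F4
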