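import Pool.Agent.H31.F4.Nor4

/-!
# FF-17: positive elements

`Wl l m`: elements with root coordinates only at `l b > m`, toral part zero unless `0 > m`.
`pos_xr`: for `0 < l b`: `xr b s x = x + s [e_b, x] + s² x.2 (ng b) e_b`: `[e_b, e_d]` is a multiple of
`e_(b+d)`, `l (b+d) > l d`, `[e_b, e_(-b)]` is toral and `0 > l (-b)`, `[e_b, hh h] ∈ K e_b`.
`r x - x ∈ Wl l m` for `x ∈ Wl l (m - 1)`-type statements follow by closure induction.
`pos_xf`: `xf b s` is `xr b s` or `xr b s * xr (sg b) s`, `l (sg b) = l b`.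
`pos_R`: `R` closed under `Sm` and `sg`: `xf y s`, `y ∈ R`, maps
`UR R = {x : x.2 d = 0 for d ∉ R}` to itself: `[Df y, e_d]` for `d ∈ R` has root coordinates only at
roots `c` with `Sm y d c` (the coordinates of `[e_y, e_d]` are at `y + d`, and
`(y+d) + sg (y+d)` is the sum), toral part allowed.
-/

namespace Pool.Agent.H31.F4

open Pool.Agent.H33.EL (ip cc eps Rt ng zk ek fk LL hh e brf fmf br fm IsExt exl ex xr hd L0 GG T1 TT NN SF cj wt)

variable {K : Type} [Field K]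

/-- elements whose weights have `l`-value greater than `m` -/
def Wl (K : Type) [Field K] (l : (Fin 6 → ℤ) →+ ℤ) (m : ℤ) : Submodule K (LL C6 K) where
  carrier := {x | (∀ b : Rt C6, l b.1 ≤ m → x.2 b = 0) ∧ (0 ≤ m → x.1 = 0)}
  add_mem' := by
    rintro x y ⟨h1, h2⟩ ⟨h3, h4⟩
    exact ⟨fun b hb => by simp [h1 b hb, h3 b hb], fun hm => by simp [h2 hm, h4 hm]⟩
  zero_mem' := ⟨fun _ _ => rfl, fun _ => rfl⟩
  smul_mem' := by
    rintro c x ⟨h1, h2⟩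
    exact ⟨fun b hb => by simp [h1 b hb], fun hm => by simp [h2 hm]⟩

/-- elements supported on `R` and zero -/
def UR (K : Type) [Field K] (R : Set (Rt C6)) : Submodule K (LL C6 K) where
  carrier := {x | ∀ d, d ∉ R → x.2 d = 0}
  add_mem' := by
    intro x y h1 h2 d hd
    simp [h1 d hd, h2 d hd]
  zero_mem' := fun _ _ => rfl
  smul_mem' := by
    intro c x h1 d hd
    simp [h1 d hd]

/-- closed sets of roots of F_4 (as `sg`-invariant sets) -/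
def Cl4 (R : Set (Rt C6)) : Prop :=
  (∀ a ∈ R, sg a ∈ R) ∧ ∀ a ∈ R, ∀ b ∈ R, ∀ c, Sm a b c → c ∈ R

/-- the group generated by the root elements `xf y s` with `y ∈ Y` -/
def Gn (K : Type) [Field K] (Y : Set (Rt C6)) : Subgroup (LL C6 K ≃ₗ[K] LL C6 K) :=
  Subgroup.closure {u | ∃ y ∈ Y, ∃ s : K, u = xf y s}

theorem Lpos_mem_Wl {l : (Fin 6 → ℤ) →+ ℤ} {m : ℤ} {x : LL C6 K} :
    x ∈ Wl K l m ↔ (∀ b : Rt C6, l b.1 ≤ m → x.2 b = 0) ∧ (0 ≤ m → x.1 = 0) := Iff.rfl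

theorem Lpos_anti {l : (Fin 6 → ℤ) →+ ℤ} {m m' : ℤ} (h : m ≤ m') {x : LL C6 K}
    (hx : x ∈ Wl K l m') : x ∈ Wl K l m :=
  ⟨fun b hb => hx.1 b (hb.trans h), fun hm => hx.2 (hm.trans h)⟩

theorem Lpos_e {l : (Fin 6 → ℤ) →+ ℤ} {m : ℤ} (a : Rt C6) (h : m < l a.1) :
    e K a ∈ Wl K l m := by
  refine ⟨fun b hb => ?_, fun _ => rfl⟩
  apply e_snd_ne
  rintro rfl
  omega

theorem Lpos_hh {l : (Fin 6 → ℤ) →+ ℤ} {m : ℤ} (h : Fin 6 → K) (hm : m < 0) :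
    hh C6 h ∈ Wl K l m :=
  ⟨fun _ _ => rfl, fun h0 => absurd h0 (not_le.2 hm)⟩

theorem Lpos_xr_e (H : HypW C6 K) {l : (Fin 6 → ℤ) →+ ℤ} {a : Rt C6} (ha : 0 < l a.1) (s : K)
    (b : Rt C6) : xr a s (e K b) - e K b ∈ Wl K l (l b.1) := by
  rcases ip_cases H a b with hb | hb | hb | hb | hb
  · subst hb
    rw [xr_e_ng H]
    have h1 : e K (ng a) - s • hh C6 (zk a.1) + (s ^ 2) • e K a - e K (ng a) =
        -(s • hh C6 (zk a.1)) + (s ^ 2) • e K a := by abel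
    have h2 : l (ng a).1 = -l a.1 := by
      rw [ng_val, map_neg]
    rw [h1, h2]
    refine add_mem (neg_mem (Submodule.smul_mem _ _ (Lpos_hh _ (by omega))))
      (Submodule.smul_mem _ _ (Lpos_e a (by omega)))
  · have hc := root_add H hb
    rw [xr_e_add H a s (c := ⟨a.1 + b.1, hc⟩) rfl, add_sub_cancel_left]
    apply Submodule.smul_mem
    apply Lpos_e
    show _ < l (a.1 + b.1)
    rw [map_add]
    omega
  · rw [xr_e_nonneg H a s (by omega), sub_self]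
    exact zero_mem _
  · rw [xr_e_nonneg H a s (by omega), sub_self]
    exact zero_mem _
  · subst hb
    rw [xr_e_nonneg H b s (by rw [b.2]; norm_num), sub_self]
    exact zero_mem _

theorem Lpos_xr_hh (H : HypW C6 K) {l : (Fin 6 → ℤ) →+ ℤ} {a : Rt C6} (ha : 0 < l a.1) (s : K)
    (h : Fin 6 → K) : xr a s (hh C6 h) - hh C6 h ∈ Wl K l 0 := by
  rw [xr_hh H]
  have h1 : hh C6 h - (s * fk C6 h (zk a.1)) • e K a - hh C6 h =
      -((s * fk C6 h (zk a.1)) • e K a) := by abel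
  rw [h1]
  exact neg_mem (Submodule.smul_mem _ _ (Lpos_e a ha))

/-- `r - 1` raises the filtration -/
def LposQ (l : (Fin 6 → ℤ) →+ ℤ) (r : LL C6 K ≃ₗ[K] LL C6 K) : Prop :=
  ∀ m, ∀ x ∈ Wl K l m, r x - x ∈ Wl K l (m + 1)

theorem Lpos_xr (H : HypW C6 K) {l : (Fin 6 → ℤ) →+ ℤ} {a : Rt C6} (ha : 0 < l a.1) (s : K) :
    LposQ l (xr a s) := by
  intro m x hx
  have h0 : xr a s x - x = (xr a s (hh C6 x.1) - hh C6 x.1) +
      ∑ b : Rt C6, x.2 b • (xr a s (e K b) - e K b) := by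
    conv_lhs => rw [decomp x]
    rw [map_add, map_sum, add_sub_add_comm, ← Finset.sum_sub_distrib]
    congr 1
    refine Finset.sum_congr rfl fun b _ => ?_
    rw [map_smul, smul_sub]
  rw [h0]
  refine add_mem ?_ (Submodule.sum_mem _ fun b _ => ?_)
  · by_cases hm : 0 ≤ m
    · rw [hx.2 hm, hh_zero, map_zero, sub_zero]
      exact zero_mem _
    · exact Lpos_anti (by omega) (Lpos_xr_hh H ha s _)
  · by_cases hb : l b.1 ≤ m
    · rw [hx.1 b hb, zero_smul]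
      exact zero_mem _
    · exact Submodule.smul_mem _ _ (Lpos_anti (by omega) (Lpos_xr_e H ha s b))

theorem Lpos_Q_mem {l : (Fin 6 → ℤ) →+ ℤ} {r : LL C6 K ≃ₗ[K] LL C6 K} (h : LposQ l r) {m : ℤ}
    {x : LL C6 K} (hx : x ∈ Wl K l m) : r x ∈ Wl K l m := by
  have h1 : r x = (r x - x) + x := by abel
  rw [h1]
  exact add_mem (Lpos_anti (by omega) (h m x hx)) hx

theorem Lpos_Q_mul {l : (Fin 6 → ℤ) →+ ℤ} {r s : LL C6 K ≃ₗ[K] LL C6 K} (hr : LposQ l r)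
    (hs : LposQ l s) : LposQ l (r * s) := by
  intro m x hx
  have h1 : (r * s) x - x = (r (s x) - s x) + (s x - x) := by
    rw [LinearEquiv.mul_apply]
    abel
  rw [h1]
  exact add_mem (hr m _ (Lpos_Q_mem hs hx)) (hs m x hx)

theorem Lpos_xf (H : HypW C6 K) {l : (Fin 6 → ℤ) →+ ℤ} (hl : ∀ x, l (sv x) = l x) {a : Rt C6}
    (ha : 0 < l a.1) (s : K) : LposQ l (xf a s) := by
  by_cases h : sg a = a
  · rw [xf_eq_xr h]
    exact Lpos_xr H ha s
  · rw [xf_eq_mul H h]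
    refine Lpos_Q_mul (Lpos_xr H ha s) (Lpos_xr H ?_ s)
    show 0 < l (sv a.1)
    rw [hl]
    exact ha

theorem Gn_le_GF (H : HypW C6 K) (Y : Set (Rt C6)) : Gn K Y ≤ GF K := by
  unfold Gn
  rw [Subgroup.closure_le]
  rintro u ⟨y, -, s, rfl⟩
  exact xf_mem_GF H y s

theorem Lpos_Gn_Q (H : HypW C6 K) (l : (Fin 6 → ℤ) →+ ℤ) (hl : ∀ x, l (sv x) = l x)
    {r : LL C6 K ≃ₗ[K] LL C6 K} (hr : r ∈ Gn K {y | 0 < l y.1}) : LposQ l r ∧ LposQ l r⁻¹ := by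
  unfold Gn at hr
  induction hr using Subgroup.closure_induction with
  | mem u hu =>
    obtain ⟨y, hy, s, rfl⟩ := hu
    refine ⟨Lpos_xf H hl hy s, ?_⟩
    rw [← xf_neg H]
    exact Lpos_xf H hl hy (-s)
  | one =>
    have h1 : LposQ l (1 : LL C6 K ≃ₗ[K] LL C6 K) := by
      intro m x _
      have : (1 : LL C6 K ≃ₗ[K] LL C6 K) x - x = 0 := sub_self x
      rw [this]
      exact zero_mem _
    exact ⟨h1, by rw [inv_one]; exact h1⟩
  | mul u v _ _ hu hv =>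
    exact ⟨Lpos_Q_mul hu.1 hv.1, by rw [mul_inv_rev]; exact Lpos_Q_mul hv.2 hu.2⟩
  | inv u _ hu => exact ⟨hu.2, by rw [inv_inv]; exact hu.1⟩

theorem Gn_pos (H : HypW C6 K) (l : (Fin 6 → ℤ) →+ ℤ) (hl : ∀ x, l (sv x) = l x)
    {r : LL C6 K ≃ₗ[K] LL C6 K} (hr : r ∈ Gn K {y | 0 < l y.1}) :
    (∀ m, ∀ x, r x ∈ Wl K l m ↔ x ∈ Wl K l m) ∧
    (∀ m, ∀ x ∈ Wl K l m, r x - x ∈ Wl K l (m + 1)) ∧
    (∀ d : Rt C6, r (e K d) - e K d ∈ Wl K l (l d.1)) ∧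
    ∀ h : Fin 6 → K, r (hh C6 h) - hh C6 h ∈ Wl K l 0 := by
  obtain ⟨h1, h2⟩ := Lpos_Gn_Q H l hl hr
  refine ⟨fun m x => ⟨fun hx => ?_, fun hx => Lpos_Q_mem h1 hx⟩, h1, fun d => ?_, fun h => ?_⟩
  · have h3 := Lpos_Q_mem h2 hx
    have h4 : r⁻¹ (r x) = x := r.symm_apply_apply x
    rwa [h4] at h3
  · have h3 := h1 (l d.1 - 1) (e K d) (Lpos_e d (by omega))
    rwa [sub_add_cancel] at h3
  · have h3 := h1 (-1) (hh C6 h) (Lpos_hh h (by omega))
    rwa [neg_add_cancel] at h3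

theorem Lpos_UR_e {R : Set (Rt C6)} {a : Rt C6} (h : a ∈ R) : e K a ∈ UR K R := by
  intro b hb
  apply e_snd_ne
  rintro rfl
  exact hb h

theorem Lpos_UR_hh (R : Set (Rt C6)) (h : Fin 6 → K) : hh C6 h ∈ UR K R := fun _ _ => rfl

theorem Lpos_UR_xr (H : HypW C6 K) {R : Set (Rt C6)} (hR : Cl4 R) {a : Rt C6} (ha : a ∈ R)
    (s : K) {x : LL C6 K} (hx : x ∈ UR K R) : xr a s x ∈ UR K R := by
  rw [decomp x, map_add, map_sum]
  refine add_mem ?_ (Submodule.sum_mem _ fun b _ => ?_)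
  · rw [xr_hh H]
    exact sub_mem (Lpos_UR_hh R _) (Submodule.smul_mem _ _ (Lpos_UR_e ha))
  · rw [map_smul]
    by_cases hbR : b ∈ R
    · apply Submodule.smul_mem
      rcases ip_cases H a b with hb | hb | hb | hb | hb
      · subst hb
        rw [xr_e_ng H]
        exact add_mem (sub_mem (Lpos_UR_e hbR) (Submodule.smul_mem _ _ (Lpos_UR_hh R _)))
          (Submodule.smul_mem _ _ (Lpos_UR_e ha))
      · have hc := root_add H hb
        rw [xr_e_add H a s (c := ⟨a.1 + b.1, hc⟩) rfl]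
        refine add_mem (Lpos_UR_e hbR) (Submodule.smul_mem _ _ (Lpos_UR_e ?_))
        refine hR.2 a ha b hbR _ ?_
        show (a.1 + b.1) + sv (a.1 + b.1) = (a.1 + sv a.1) + (b.1 + sv b.1)
        have h1 : sv (a.1 + b.1) = sv a.1 + sv b.1 := rfl
        rw [h1]
        abel
      · rw [xr_e_nonneg H a s (by omega)]
        exact Lpos_UR_e hbR
      · rw [xr_e_nonneg H a s (by omega)]
        exact Lpos_UR_e hbR
      · subst hb
        rw [xr_e_nonneg H b s (by rw [b.2]; norm_num)]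
        exact Lpos_UR_e hbR
    · rw [hx b hbR, zero_smul]
      exact zero_mem _

theorem Lpos_UR_xf (H : HypW C6 K) {R : Set (Rt C6)} (hR : Cl4 R) {a : Rt C6} (ha : a ∈ R)
    (s : K) {x : LL C6 K} (hx : x ∈ UR K R) : xf a s x ∈ UR K R := by
  by_cases h : sg a = a
  · rw [xf_eq_xr h]
    exact Lpos_UR_xr H hR ha s hx
  · rw [xf_eq_mul H h, LinearEquiv.mul_apply]
    exact Lpos_UR_xr H hR ha s (Lpos_UR_xr H hR (hR.1 a ha) s hx)

theorem Gn_UR (H : HypW C6 K) {R : Set (Rt C6)} (hR : Cl4 R) {r : LL C6 K ≃ₗ[K] LL C6 K}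
    (hr : r ∈ Gn K R) (x : LL C6 K) : r x ∈ UR K R ↔ x ∈ UR K R := by
  have key : ∀ x : LL C6 K, (x ∈ UR K R → r x ∈ UR K R) ∧ (x ∈ UR K R → r⁻¹ x ∈ UR K R) := by
    unfold Gn at hr
    induction hr using Subgroup.closure_induction with
    | mem u hu =>
      obtain ⟨y, hy, s, rfl⟩ := hu
      intro x
      rw [← xf_neg H]
      exact ⟨fun hx => Lpos_UR_xf H hR hy s hx, fun hx => Lpos_UR_xf H hR hy (-s) hx⟩
    | one =>
      intro x
      rw [inv_one]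
      exact ⟨fun hx => hx, fun hx => hx⟩
    | mul u v _ _ hu hv =>
      intro x
      rw [mul_inv_rev, LinearEquiv.mul_apply, LinearEquiv.mul_apply]
      exact ⟨fun hx => (hu _).1 ((hv x).1 hx), fun hx => (hv _).2 ((hu x).2 hx)⟩
    | inv u _ hu =>
      intro x
      rw [inv_inv]
      exact ⟨(hu x).2, (hu x).1⟩
  refine ⟨fun hx => ?_, (key x).1⟩
  have h3 := (key (r x)).2 hx
  have h4 : r⁻¹ (r x) = x := r.symm_apply_apply x
  rwa [h4] at h3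

theorem Lpos_ip_sg {d : Fin 6 → ℤ} (hd : sv d = d) (a : Rt C6) :
    ip C6 d (sg a).1 = ip C6 d a.1 := by
  have h1 := ip_sv d a.1
  rw [hd] at h1
  exact h1

theorem xf_mem_Par (H : HypW C6 K) {d : Fin 6 → ℤ} (hd : sv d = d) {a : Rt C6} (s : K)
    (h : 0 ≤ ip C6 d a.1) : xf a s ∈ Par C6 K d := by
  by_cases ha : sg a = a
  · rw [xf_eq_xr ha]
    exact xr_mem_Par H d a s h
  · rw [xf_eq_mul H ha]
    exact mul_mem (xr_mem_Par H d a s h)
      (xr_mem_Par H d (sg a) s (by rw [Lpos_ip_sg hd]; exact h))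

theorem gr_xf_zero (H : HypW C6 K) {d : Fin 6 → ℤ} (hd : sv d = d) {a : Rt C6} (s : K)
    (h : ip C6 d a.1 = 0) (hp : xf a s ∈ Par C6 K d) :
    gr H d ⟨xf a s, hp⟩ = xf a s := by
  by_cases ha : sg a = a
  · have h1 := gr_xr_zero H d a s h
    have h2 : (⟨xf a s, hp⟩ : Par C6 K d) = ⟨xr a s, xr_mem_Par H d a s h.ge⟩ :=
      Subtype.ext (xf_eq_xr ha s)
    rw [h2, h1, xf_eq_xr ha]
  · have h' : ip C6 d (sg a).1 = 0 := by rw [Lpos_ip_sg hd]; exact h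
    have h1 := gr_xr_zero H d a s h
    have h1' := gr_xr_zero H d (sg a) s h'
    have h2 : (⟨xf a s, hp⟩ : Par C6 K d) = ⟨xr a s, xr_mem_Par H d a s h.ge⟩ *
        ⟨xr (sg a) s, xr_mem_Par H d (sg a) s h'.ge⟩ :=
      Subtype.ext (xf_eq_mul H ha s)
    rw [h2, map_mul, h1, h1', xf_eq_mul H ha]

theorem Lpos_xr_Rad (H : HypW C6 K) {d : Fin 6 → ℤ} {a : Rt C6} (s : K)
    (h : 0 < ip C6 d a.1) : xr a s ∈ Rad H d :=
  (mem_Rad H ⟨xr a s, xr_mem_Par H d a s h.le⟩).2 (gr_xr_pos H d a s h)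

/-- `Rad` membership: positive degree root elements -/
theorem xf_mem_Rad (H : HypW C6 K) {d : Fin 6 → ℤ} (hd : sv d = d) {a : Rt C6} (s : K)
    (h : 0 < ip C6 d a.1) : xf a s ∈ Rad H d := by
  by_cases ha : sg a = a
  · rw [xf_eq_xr ha]
    exact Lpos_xr_Rad H s h
  · rw [xf_eq_mul H ha]
    exact mul_mem (Lpos_xr_Rad H s h) (Lpos_xr_Rad H s (by rw [Lpos_ip_sg hd]; exact h))

/-- root groups in `Par` have non negative degree -/
theorem deg_of_Par (H : HypW C6 K) {d : Fin 6 → ℤ} (hd : sv d = d) {a : Rt C6}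
    (h : ∀ s : K, xf a s ∈ Par C6 K d) : 0 ≤ ip C6 d a.1 := by
  by_contra hc
  push Not at hc
  have h1 : sv (zk (cv a) : Fin 6 → K) = zk (cv a) := by
    rw [← zk_sv, sv_cv]
  have h2 := ((h 1).2 0 (hh C6 (zk (cv a)))).2 (Fil_hh_fil d _ le_rfl)
  rw [xf_hh H a 1 _ h1] at h2
  have h3 := h2.1 a hc
  have h4 : (hh C6 (zk (cv a) : Fin 6 → K) -
      ((1 : K) * fk C6 (zk (cv a) : Fin 6 → K) (zk a.1)) • Df K a).2 a =
      0 - ((1 : K) * fk C6 (zk (cv a) : Fin 6 → K) (zk a.1)) * (Df K a).2 a := rfl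
  have hE : Eq4 a a := Or.inl rfl
  rw [h4, Df_snd, if_pos hE, fk_zk_zk, mul_one, one_mul, zero_sub, neg_eq_zero] at h3
  have h5 : ip C6 (cv a) a.1 = 2 := dg_self a
  rw [h5] at h3
  exact two_ne H (by exact_mod_cast h3)

theorem Lpos_Sg_snd (x : LL C6 K) (b : Rt C6) : (Sg K x).2 b = x.2 (sg b) := rfl

theorem Lpos_Sg_Fil {d : Fin 6 → ℤ} (hd : sv d = d) {k : ℤ} {x : LL C6 K}
    (hx : x ∈ Fil C6 K d k) : Sg K x ∈ Fil C6 K d k := by
  refine ⟨fun b hb => ?_, fun hk => ?_⟩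
  · rw [Lpos_Sg_snd]
    exact hx.1 (sg b) (by rw [Lpos_ip_sg hd]; exact hb)
  · show sv x.1 = 0
    rw [hx.2 hk]
    rfl

theorem Lpos_Sg_Grd {d : Fin 6 → ℤ} (hd : sv d = d) {k : ℤ} {x : LL C6 K}
    (hx : x ∈ Grd C6 K d k) : Sg K x ∈ Grd C6 K d k := by
  refine ⟨fun b hb => ?_, fun hk => ?_⟩
  · rw [Lpos_Sg_snd]
    exact hx.1 (sg b) (by rw [Lpos_ip_sg hd]; exact hb)
  · show sv x.1 = 0
    rw [hx.2 hk]
    rfl

/-- the graded element of an element of `GF` is in `GF` -/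
theorem gr_mem_GF (H : HypW C6 K) {d : Fin 6 → ℤ} (hd : sv d = d) (g : Par C6 K d)
    (hg : (g : LL C6 K ≃ₗ[K] LL C6 K) ∈ GF K) : gr H d g ∈ GF K := by
  have hSg : ∀ x : LL C6 K, (Sg K * gr H d g * Sg K) x = Sg K (gr H d g (Sg K x)) := fun _ => rfl
  have hg' : ∀ x, (g : LL C6 K ≃ₗ[K] LL C6 K) x =
      Sg K ((g : LL C6 K ≃ₗ[K] LL C6 K) (Sg K x)) := by
    intro x
    rw [GF_Sg hg, Sg_Sg]
  have key : gr H d g = Sg K * gr H d g * Sg K := by
    apply Fil_gr_unique H g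
    · intro h
      rw [hSg, Sg_hh]
      exact Lpos_Sg_Grd hd (gr_grd H g (Fil_hh_grd d _))
    · intro a
      rw [hSg, Sg_e]
      have h1 := Lpos_Sg_Grd hd (gr_grd H g (Fil_e_grd (K := K) d (sg a)))
      rwa [Lpos_ip_sg hd] at h1
    · intro h
      rw [hSg, hg' (hh C6 h), ← map_sub, Sg_hh]
      exact Lpos_Sg_Fil hd (Fil_gr_spec H g (Fil_hh_grd d _))
    · intro a
      rw [hSg, hg' (e K a), ← map_sub, Sg_e]
      have h1 := Lpos_Sg_Fil hd (Fil_gr_spec H g (Fil_e_grd (K := K) d (sg a)))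
      rwa [Lpos_ip_sg hd] at h1
  refine mem_GF (gr_mem_GG H g) fun x => ?_
  have h1 : gr H d g (Sg K x) = (Sg K * gr H d g * Sg K) (Sg K x) := by rw [← key]
  rw [h1, hSg, Sg_Sg]

end Pool.Agent.H31.F4
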