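import Pool.Agent.H31.F4.Nor4
import Pool.Agent.H31.F4.Lpos

/-!
# FF-47: monomial approximation on `VF` (adapt `mono_rank` in EL/CBf.lean)

`w` the permutation of `y` (`NN4_perm`), `w^p = 1`, `w` commutes with `sg`, `ng`.  Work with the classes `{a, sg a}` (`Eq4`).
Suppose `c` short and `¬ Eq4 c (w c)`.  Then `c, w c, w² c` are pairwise not `Eq4` (`p` odd prime, `w^p c = c`; on classes
use `CBf_per`-like periodicity; `w² c` in the class of `c` gives `w⁴ c = c`, so `w c = c`).  `j = ip d c`.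
`(y-1)² wf c` is a combination of `wf c` (coefficient 1), `wf (w c)`, `wf (w² c)`, non zero, degree `j`
(all these have degree `j`).  `(x-1)² wf c = λ v0` is congruent to it modulo `Fil (j+1)`
(`x`, `y` preserve `Fil`).  So `λ ≠ 0`, `v0 ∈ Fil j`, its part of degree `j` is non zero and
supported in the classes of `{c, wc, w²c}`.  The same for `ng c` (`w (ng c) = ng (w c)`): `v0 ∈ Fil (-j)`, its part of
degree `-j` is non zero with support in the classes of `{-c,-wc,-w²c}`.  If `j ≠ 0` one of `±j` is larger and then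
the part of the other degree is zero, contradiction.  If `j = 0`: the non zero degree 0 part has
support in the intersection, which is empty: `-w^i c` in the class of `w^k c` gives `w^(2(i-k)) c` in the class of `c`, ….
`NN4_short_trivial`: `w` the permutation: `y (wf a) = k wf (w a) ∈ K wf a`, so `Eq4 a (w a)` for short `a`; every long root is
the sum (`Sm`) of two short orthogonal roots, so for `t ∈ T4`: `wt (y t y⁻¹) a = wt t a` for all `a` (`wt_conj4`, `wt_sg`,
`wt_sm`; `NN4_conj`: `y t y⁻¹ ∈ T4`), so `y t y⁻¹ = t`; `NN4_comm_trivial` with `k = 1`.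
-/

namespace Pool.Agent.H31.F4

open Pool.Agent.H33.EL (ip cc eps Rt ng zk ek fk LL hh e brf fmf br fm IsExt exl ex xr hd L0 GG T1 TT NN SF cj wt)

variable {K : Type} [Field K]

private theorem MonoR_per {α : Type} (w : α → α) {p : ℕ} (hp : p.Prime) (h2 : p ≠ 2) {a : α}
    (h : w^[p] a = a) (h4 : w^[4] a = a) : w a = a := by
  have h5 : Function.IsPeriodicPt w (Nat.gcd p 4) a := Function.IsPeriodicPt.gcd h h4
  have h6 : Nat.gcd p 4 = 1 := by
    have h7 : Nat.Coprime p (2 ^ 2) :=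
      Nat.Coprime.pow_right 2 ((Nat.coprime_primes hp Nat.prime_two).2 h2)
    exact h7
  rw [h6] at h5
  exact h5

private theorem MonoR_chk1 : (P6.all fun x => Comb_sh x ||
    P6.any fun y => Comb_sh y && (Comb_dot x y == 1 || Comb_dot x y == -1)) = true := by
  decide +kernel

private theorem MonoR_chk2 : (P6.all fun x => Comb_dot x x == 2) = true := by
  decide +kernel

private theorem MonoR_sh {a : Rt C6} (h : sg a = a) : Comb_sh a.1 = false := by
  have h1 : sv a.1 = a.1 := congrArg Subtype.val h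
  have h2 : a.1 3 = a.1 2 := congrFun h1 2
  have h3 : a.1 5 = a.1 4 := congrFun h1 4
  simp [Comb_sh, h2, h3]

private theorem MonoR_long1 {a : Rt C6} (h : sg a = a) (hm : a.1 ∈ P6) :
    ∃ b : Rt C6, sg b ≠ b ∧ ip C6 a.1 b.1 = 1 := by
  have h1 := List.all_eq_true.1 MonoR_chk1 a.1 hm
  rw [MonoR_sh h, Bool.false_or, List.any_eq_true] at h1
  obtain ⟨y, hy, h2⟩ := h1
  rw [Bool.and_eq_true, Bool.or_eq_true, beq_iff_eq, beq_iff_eq] at h2
  obtain ⟨h3, h4⟩ := h2
  have h5 := List.all_eq_true.1 MonoR_chk2 y hy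
  rw [beq_iff_eq, ← Comb_ip] at h5
  have h6 : sg (⟨y, h5⟩ : Rt C6) ≠ ⟨y, h5⟩ := by
    intro hc
    have h7 := MonoR_sh hc
    change Comb_sh y = false at h7
    rw [h3] at h7
    exact absurd h7 (by decide)
  rcases h4 with h4 | h4
  · exact ⟨⟨y, h5⟩, h6, by rw [Comb_ip]; exact h4⟩
  · refine ⟨ng ⟨y, h5⟩, fun hc => h6 ((sg_ng_iff _).1 hc), ?_⟩
    rw [ng_val, ip_neg_right, Comb_ip]
    change -Comb_dot a.1 y = 1
    rw [h4]
    rfl

private theorem MonoR_long {a : Rt C6} (h : sg a = a) :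
    ∃ b : Rt C6, sg b ≠ b ∧ ip C6 a.1 b.1 = 1 := by
  rcases P6_complete a with h1 | h1
  · exact MonoR_long1 h h1
  · obtain ⟨b, hb1, hb2⟩ := MonoR_long1 (a := ng a) ((sg_ng_iff a).2 h) h1
    refine ⟨ng b, fun hc => hb1 ((sg_ng_iff _).1 hc), ?_⟩
    rw [ng_val, ip_neg_left] at hb2
    rw [ng_val, ip_neg_right]
    exact hb2

/-- a long root is a sum of two short ones -/
private theorem MonoR_split {a : Rt C6} (h : sg a = a) :
    ∃ b c : Rt C6, sg b ≠ b ∧ sg c ≠ c ∧ Sm b c a := by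
  obtain ⟨b, hb1, hb2⟩ := MonoR_long h
  have hc : ip C6 (a.1 - b.1) (a.1 - b.1) = 2 := by
    have ha2 : ip C6 a.1 a.1 = 2 := a.2
    have hb3 : ip C6 b.1 b.1 = 2 := b.2
    rw [sub_eq_add_neg, ip_add_left, ip_add_right, ip_add_right, ip_neg_left, ip_neg_left,
      ip_neg_right, ip_neg_right, Comb_comm b.1 a.1, ha2, hb3, hb2]
    norm_num
  have hsa : sv a.1 = a.1 := congrArg Subtype.val h
  have hsc : sv (a.1 - b.1) = a.1 - sv b.1 := by
    have : sv (a.1 - b.1) = sv a.1 - sv b.1 := rfl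
    rw [this, hsa]
  refine ⟨b, ⟨a.1 - b.1, hc⟩, hb1, fun h1 => hb1 ?_, ?_⟩
  · have h2 : sv (a.1 - b.1) = a.1 - b.1 := congrArg Subtype.val h1
    rw [hsc] at h2
    apply Subtype.ext
    show sv b.1 = b.1
    exact sub_right_injective h2
  · show a.1 + sv a.1 = (b.1 + sv b.1) + ((a.1 - b.1) + sv (a.1 - b.1))
    rw [hsc, hsa]
    abel

private theorem MonoR_wf_grd (K : Type) [Field K] {d : Fin 6 → ℤ} (hd : sv d = d) (b : Rt C6) :
    wf K b ∈ Grd C6 K d (ip C6 d b.1) := by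
  unfold wf
  refine sub_mem (Fil_e_grd d b) ?_
  have h1 := Fil_e_grd (K := K) d (sg b)
  rwa [Lpos_ip_sg hd] at h1

private theorem MonoR_Eq4_ng {a b : Rt C6} : Eq4 (ng a) (ng b) ↔ Eq4 a b := by
  unfold Eq4
  rw [sg_ng]
  constructor
  · rintro (h | h)
    · exact Or.inl (by rw [← ng_ng b, h, ng_ng])
    · exact Or.inr (by rw [← ng_ng b, h, ng_ng])
  · rintro (h | h)
    · exact Or.inl (by rw [h])
    · exact Or.inr (by rw [h])

theorem mono_rank4 (H : HypW C6 K) {p : ℕ} [Fact p.Prime] [CharP K p] {d : Fin 6 → ℤ}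
    (hd : sv d = d) {x y : LL C6 K ≃ₗ[K] LL C6 K} (hy : y ∈ NN C6 K) (hyG : y ∈ GF K)
    (hyp : y ^ p = 1) (hgr : ∀ k : ℤ, ∀ u ∈ Grd C6 K d k, y u ∈ Grd C6 K d k)
    (hx : ∀ k : ℤ, ∀ u ∈ Fil C6 K d k, x u ∈ Fil C6 K d k)
    (hxy : ∀ k : ℤ, ∀ u ∈ Grd C6 K d k, x u - y u ∈ Fil C6 K d (k + 1)) (v0 : LL C6 K)
    (h2 : ∀ u ∈ VF K, ∃ l : K, x (x u) - 2 • x u + u = l • v0) (a : Rt C6) (ha : sg a ≠ a) :
    ∃ k : K, y (wf K a) = k • wf K a := by
  obtain ⟨w, kk, hk, hsg, hng, hw, -, hW, -, -, -, -⟩ := NN4_perm H hy hyG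
  have hp : p.Prime := Fact.out
  have hp2 : p ≠ 2 := by
    rintro rfl
    exact two_ne H (by exact_mod_cast CharP.cast_eq_zero K 2)
  have hpow : ∀ (m : ℕ) (b : Rt C6), ∃ c : K, (y ^ m) (e K b) = c • e K (w^[m] b) := by
    intro m
    induction m with
    | zero => exact fun b => ⟨1, (one_smul K _).symm⟩
    | succ m ih =>
      intro b
      obtain ⟨c, hc⟩ := ih b
      refine ⟨c * kk (w^[m] b), ?_⟩
      rw [pow_succ', Function.iterate_succ_apply']
      show y ((y ^ m) (e K b)) = _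
      rw [hc, map_smul, hw, smul_smul]
  have hper : ∀ b : Rt C6, w^[p] b = b := by
    intro b
    obtain ⟨c, hc⟩ := hpow p b
    rw [hyp] at hc
    have h3 : (e K b).2 b = (c • e K (w^[p] b)).2 b := by
      rw [← hc]
      rfl
    by_contra hne
    have h4 : (c • e K (w^[p] b)).2 b = c * (e K (w^[p] b)).2 b := rfl
    rw [h4, e_snd_self, e_snd_ne (Ne.symm hne), mul_zero] at h3
    exact one_ne_zero h3
  have hdeg : ∀ b : Rt C6, ip C6 d (w b).1 = ip C6 d b.1 := by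
    intro b
    by_contra hne
    have h3 := hgr _ _ (Fil_e_grd (K := K) d b)
    rw [hw] at h3
    have h4 : kk b * (e K (w b)).2 (w b) = 0 := h3.1 (w b) hne
    rw [e_snd_self, mul_one] at h4
    exact hk b h4
  have key : ∀ b : Rt C6, sg b ≠ b → ¬ Eq4 (w b) b → ¬ Eq4 (w (w b)) b → v0.2 b ≠ 0 ∧
      ∀ r : Rt C6, ip C6 d r.1 ≤ ip C6 d b.1 → ¬ Eq4 b r → ¬ Eq4 (w b) r →
        ¬ Eq4 (w (w b)) r → v0.2 r = 0 := by
    intro b hb hb1 hb2
    obtain ⟨l, hl⟩ := h2 (wf K b) (wf_mem b)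
    have g1 := hxy _ _ (MonoR_wf_grd K hd b)
    have g2 := hgr _ _ (MonoR_wf_grd K hd b)
    have g3 := hxy _ _ g2
    have g4 := hx _ _ g1
    have g5 : l • v0 - (y (y (wf K b)) - 2 • y (wf K b) + wf K b) ∈
        Fil C6 K d (ip C6 d b.1 + 1) := by
      have h3 : l • v0 - (y (y (wf K b)) - 2 • y (wf K b) + wf K b) =
          x (x (wf K b) - y (wf K b)) + (x (y (wf K b)) - y (y (wf K b)))
            - 2 • (x (wf K b) - y (wf K b)) := by
        rw [← hl, map_sub, smul_sub]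
        abel
      rw [h3]
      exact sub_mem (add_mem g4 g3) (nsmul_mem g1 2)
    have g6 : ∀ r : Rt C6, ip C6 d r.1 ≤ ip C6 d b.1 → l * v0.2 r =
        kk b * (kk (w b) * (wf K (w (w b))).2 r) - 2 * (kk b * (wf K (w b)).2 r) +
          (wf K b).2 r := by
      intro r hr
      have h3 := g5.1 r (by omega)
      rw [hW, map_smul, hW] at h3
      have h4 : l * v0.2 r - (kk b * (kk (w b) * (wf K (w (w b))).2 r) -
          2 • (kk b * (wf K (w b)).2 r) + (wf K b).2 r) = 0 := h3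
      rw [nsmul_eq_mul] at h4
      push_cast at h4
      exact sub_eq_zero.1 h4
    have g7 := g6 b le_rfl
    rw [wf_snd_ne hb2, wf_snd_ne hb1, (wf_snd_self hb).1] at g7
    have g8 : l * v0.2 b = 1 := by
      rw [g7]
      ring
    refine ⟨fun h3 => ?_, fun r hr h3 h4 h5 => ?_⟩
    · rw [h3, mul_zero] at g8
      exact zero_ne_one g8
    · have g9 := g6 r hr
      rw [wf_snd_ne h5, wf_snd_ne h4, wf_snd_ne h3] at g9
      have g10 : l * v0.2 r = 0 := by
        rw [g9]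
        ring
      rcases mul_eq_zero.1 g10 with h6 | h6
      · rw [h6, zero_mul] at g8
        exact absurd g8 zero_ne_one
      · exact h6
  by_cases hwa : Eq4 a (w a)
  · rcases hwa with h | h
    · exact ⟨kk a, by rw [hW, h]⟩
    · exact ⟨-kk a, by rw [hW, h, wf_sg, smul_neg, neg_smul]⟩
  exfalso
  -- combinatorial facts
  have hB : ∀ b : Rt C6, ¬ Eq4 b (w b) → w (w (w (w b))) ≠ b := by
    intro b hb h
    exact hb (Or.inl (MonoR_per w hp hp2 (hper b) h))
  have hC : ∀ b : Rt C6, ¬ Eq4 b (w b) → w (w b) ≠ b ∧ w (w b) ≠ sg b := by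
    intro b hb
    refine ⟨fun h => hB b hb (by rw [h, h]), fun h => hB b hb ?_⟩
    rw [h, hsg, hsg, h, sg_sg]
  have hE : ∀ b : Rt C6, sg b ≠ b → ¬ Eq4 b (w b) →
      ¬ Eq4 (w b) b ∧ ¬ Eq4 (w (w b)) b ∧ ¬ Eq4 b (ng b) ∧ ¬ Eq4 (w b) (ng b) ∧
        ¬ Eq4 (w (w b)) (ng b) := by
    intro b hb hb1
    obtain ⟨hb2, hb3⟩ := hC b hb1
    have hb4 := hB b hb1
    refine ⟨fun h => hb1 (Eq4_symm h), ?_, ?_, ?_, ?_⟩
    · intro h
      rcases Eq4_symm h with h | h
      · exact hb2 h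
      · exact hb3 h
    · rintro (h | h)
      · exact ng_ne H b h
      · have h1 := cb_self b hb
        rw [← h, ng_val, ip_neg_right] at h1
        have h3 : ip C6 b.1 b.1 = 2 := b.2
        omega
    · rintro (h | h)
      · apply hb2
        rw [← h, hng, ← h, ng_ng]
      · have h1 : w b = sg (ng b) := by rw [h, sg_sg]
        apply hb2
        rw [h1, hsg, hng, h1, sg_ng, sg_sg, ng_ng]
    · rintro (h | h)
      · apply hb4
        rw [← h, hng, hng, ← h, ng_ng]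
      · have h1 : w (w b) = sg (ng b) := by rw [h, sg_sg]
        apply hb4
        rw [h1, hsg, hng, hsg, hng, h1, sg_ng, sg_sg, ng_ng]
  have hna : sg (ng a) ≠ ng a := fun h => ha ((sg_ng_iff a).1 h)
  have hnw : ¬ Eq4 (ng a) (w (ng a)) := by
    rw [hng, MonoR_Eq4_ng]
    exact hwa
  obtain ⟨a1, a2, a3, a4, a5⟩ := hE a ha hwa
  obtain ⟨b1, b2, b3, b4, b5⟩ := hE (ng a) hna hnw
  rw [ng_ng] at b3 b4 b5
  obtain ⟨k1, k2⟩ := key a ha a1 a2
  obtain ⟨k3, k4⟩ := key (ng a) hna b1 b2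
  have hj : ip C6 d (ng a).1 = -ip C6 d a.1 := by
    rw [ng_val, ip_neg_right]
  rcases le_total 0 (ip C6 d a.1) with hj0 | hj0
  · exact k3 (k2 (ng a) (by omega) a3 a4 a5)
  · exact k1 (k4 a (by omega) b3 b4 b5)

theorem NN4_short_trivial (H : HypW C6 K) {p : ℕ} [Fact p.Prime] [CharP K p]
    {y : LL C6 K ≃ₗ[K] LL C6 K} (hy : y ∈ NN C6 K) (hyG : y ∈ GF K) (hyp : y ^ p = 1)
    (h : ∀ a : Rt C6, sg a ≠ a → ∃ k : K, y (wf K a) = k • wf K a) : y = 1 := by
  obtain ⟨w, kk, hk, hsg, hng, hw, hD, hW, -, -, -, -⟩ := NN4_perm H hy hyG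
  have hEq : ∀ a : Rt C6, sg a ≠ a → Eq4 a (w a) := by
    intro a ha
    by_contra hne
    obtain ⟨k, hk1⟩ := h a ha
    rw [hW] at hk1
    have hwa : sg (w a) ≠ w a := by
      rw [← hsg]
      exact fun h1 => ha (w.injective h1)
    have h1 := congrArg (fun x : LL C6 K => x.2 (w a)) hk1
    have h2 : kk a * (wf K (w a)).2 (w a) = k * (wf K a).2 (w a) := h1
    rw [(wf_snd_self hwa).1, wf_snd_ne hne, mul_one, mul_zero] at h2
    exact hk a h2
  refine NN4_comm_trivial H (p := p) hyG (fun t ht => ?_) 1 (by rw [pow_one]; exact hyp)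
  have hct := NN4_conj H hy hyG t ht
  have hsh : ∀ a : Rt C6, sg a ≠ a → wt (y * t * y⁻¹) a = wt t a := by
    intro a ha
    have h1 : y (Df K a) = kk a • Df K a := by
      rw [hD, Df_Eq4 (hEq a ha)]
    exact wt_conj4 H hy hyG ht h1 (hk a)
  have hall : ∀ a : Rt C6, wt (y * t * y⁻¹) a = wt t a := by
    intro a
    by_cases ha : sg a = a
    · obtain ⟨b, c, hb, hc, hS⟩ := MonoR_split ha
      rw [wt_sm H hct hS, wt_sm H ht hS, hsh b hb, hsh c hc]
    · exact hsh a ha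
  have h1 : y * t * y⁻¹ = t := TT_ext H (T4_le_TT H hct) (T4_le_TT H ht) hall
  calc y * t = y * t * y⁻¹ * y := by group
    _ = t * y := by rw [h1]

end Pool.Agent.H31.F4
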