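import Pool.Agent.H31.F4.CommAll
import Pool.Agent.H31.F4.MonoR

/-!
# FF-48: commuting components are impossible (adapt EL/CBg.lean; the header of EL/CBf.lean has the plan)

`G' = cj g F`, `A = g T4 g⁻¹` (the map of `T4`), `E1` = closure of the `xf b s`, `b ∈ SF4 F`,
`D = closure {t e t⁻¹ : t ∈ A, e ∈ E1}`, `F1 = A ⊔ E1 ≤ F`.  `D` is normal in `F1`, `F1 = D A`, `E1 ≤ D`.
(1) For `c ∈ SF4 G'` and `s`: `y = g (xf c s) g⁻¹` commutes with `E1` (`hcomm`, `comm_iff`) and for `t ∈ A`, `t⁻¹ y t` is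
again of this form (`T4_conj_xf`); so `y` commutes with `D`.
(2) `F1 = F` is impossible: take `c ∈ SF4 G'`; `Y = {g (xf c s) g⁻¹ : s ∈ K}` is a non trivial
`p`-subgroup of `F`, normalised by `A` and centralised by `D`, so normal in `F1 = F`, against `X.hO`.
(3) So `|F1| < |F|`.  `G1 = cj g F1` contains `T4`, `|G1| = |F1|`; by `IH`: `Dst4 G1`.  Let
`S' = SF4 G1 ⊆ SF4 G'`, `D' = cj g D` (normal in `G1`, `G1 = D' T4`).  `G1/D'` is a
`p'`-group (`T4_card`) so all `p`-elements of `G1` are in `D'`.  So for `c ∈ S'`: `xf c s ∈ D'` and it commutes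
with `D'` (1).  `K' = closure {xf c s : c ∈ S'}` is an abelian group of exponent `p` (`xf_pow`), central in
`D'`, normalised by `T4`.
(4) Let `b ∈ SF4 F`, `x = xf b 1 ∈ E1 ≤ F1` and `x' = g⁻¹ x g ∈ D' ≤ G1`.  `Dst4 G1` for the element `x'`:
`k ∈ Fo4 G1`, `k⁻¹ x' ∈ NN`.  `k = k' τ`, `k' ∈ K'`, `τ ∈ T4` (`Fo4 G1 = K' T4`).
`y' = k'⁻¹ x' = τ k⁻¹ x' ∈ NN`, in `G1`; `y'^p = 1` (`x'^p = 1`, `k'^p = 1`, they commute).
`y'` permutes the root lines (`NN4_perm`), and `S'` (`y' (xf c s) y'⁻¹ ∈ G1`, `conj_xf`).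
(5) `d = ∑_(c ∈ S') c.1` (`SF4` is `sg`-invariant: `sv d = d`).  For `c, c1 ∈ S'`: `0 ≤ dg c c1`, since `xf c s`, `xf c1 t` commute:
`[Df c, Df c1] = 0` (`comm_iff` with `g = 1`), and if `dg c c1 < 0` then `Eq4 (ng c) c1` (then `[Df c, Df (ng c)] ≠ 0`, `br_D_ng`) or
`Sm c c1 e` (`sm_of_neg`, `br_DD`).  `2 ip d c = ∑_(e ∈ S') ip (e + sg e) c ≥ …`: each term is `≥ 0` (it is `2 dg e c` or `dg e c`) and
the term of `c` is positive: `0 < ip d c`; `K' ≤ Rad d` (`xf_mem_Rad`).  `y'` preserves the grading by `d`: `w` permutes `S'`, so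
`ip d (w a) = ip d a`.  So `gr x' = gr y' = y'` (`x' = k' y'`).
(6) `mono_rank4` applied to `x'`, `y'`, `v0 = g⁻¹ (wf b)`: `(x' - 1)² u = g⁻¹ (x - 1)² g u`, on `VF`: `(xf b 1 - 1)² = ad(Df b)²`
(`ad3`), for short `b` it is `-(fm (wf b) x) wf b` (`ad2_V`), for long `b` it is `-2 (fm (e b) x) e b = 0` on `VF` (`fm_LF_VF`).  So
`y' = 1` (`NN4_short_trivial`), `x' = k' ∈ K'` is central in `D'`, so `x` is central in `D`, but `xf (ng b) 1 ∈ E1` (`sym4`)
does not commute with `x` (`br_D_ng`, `comm_iff`).  Contradiction.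
-/

namespace Pool.Agent.H31.F4

open Pool.Agent.H33.EL (ip cc eps Rt ng zk ek fk LL hh e brf fmf br fm IsExt exl ex xr hd L0 GG T1 TT NN SF cj wt)

variable {K : Type} [Field K]

variable {p : ℕ} {F : Subgroup (LL C6 K ≃ₗ[K] LL C6 K)}

/-! ### group theory -/

private theorem b24_prod {G : Type} [Group G] (D A : Subgroup G)
    (h : ∀ t ∈ A, ∀ d ∈ D, t * d * t⁻¹ ∈ D) {x : G} (hx : x ∈ D ⊔ A) :
    ∃ d ∈ D, ∃ t ∈ A, x = d * t := by
  let M : Subgroup G :=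
    { carrier := {x | ∃ d ∈ D, ∃ t ∈ A, x = d * t}
      one_mem' := ⟨1, D.one_mem, 1, A.one_mem, by simp⟩
      mul_mem' := by
        rintro _ _ ⟨d1, hd1, t1, ht1, rfl⟩ ⟨d2, hd2, t2, ht2, rfl⟩
        refine ⟨d1 * (t1 * d2 * t1⁻¹), D.mul_mem hd1 (h t1 ht1 d2 hd2), t1 * t2,
          A.mul_mem ht1 ht2, by group⟩
      inv_mem' := by
        rintro _ ⟨d1, hd1, t1, ht1, rfl⟩
        have h1 := h t1⁻¹ (A.inv_mem ht1) d1⁻¹ (D.inv_mem hd1)
        refine ⟨t1⁻¹ * d1⁻¹ * t1⁻¹⁻¹, h1, t1⁻¹, A.inv_mem ht1, by group⟩ }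
  have hle : D ⊔ A ≤ M := sup_le (fun d hd => ⟨d, hd, 1, A.one_mem, by simp⟩)
    (fun t ht => ⟨1, D.one_mem, t, ht, by simp⟩)
  exact hle hx

private theorem b24_pow {G : Type} [Group G] (D A : Subgroup G)
    (h : ∀ t ∈ A, ∀ d ∈ D, t * d * t⁻¹ ∈ D) {d t : G} (hd : d ∈ D) (ht : t ∈ A) (m : ℕ) :
    ∃ d' ∈ D, (d * t) ^ m = d' * t ^ m := by
  induction m with
  | zero => exact ⟨1, D.one_mem, by simp⟩
  | succ m ih =>
    obtain ⟨d', hd', he⟩ := ih
    refine ⟨d' * (t ^ m * d * (t ^ m)⁻¹), D.mul_mem hd' (h _ (A.pow_mem ht m) d hd), ?_⟩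
    rw [pow_succ, he, pow_succ t m]
    simp only [mul_assoc, inv_mul_cancel_left]

private theorem b24_pelt {G : Type} [Group G] [Finite G] {p : ℕ} [Fact p.Prime]
    (D A : Subgroup G) (h : ∀ t ∈ A, ∀ d ∈ D, t * d * t⁻¹ ∈ D) (hA : ¬ p ∣ Nat.card A) {x : G}
    (hx : x ∈ D ⊔ A) (hp : x ^ p = 1) : x ∈ D := by
  obtain ⟨d, hd, t, ht, rfl⟩ := b24_prod D A h hx
  obtain ⟨d', hd', he⟩ := b24_pow D A h hd ht p
  rw [hp] at he
  have h1 : t ^ p ∈ D := by
    have h2 : t ^ p = d'⁻¹ := (inv_eq_of_mul_eq_one_right he.symm).symm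
    rw [h2]
    exact D.inv_mem hd'
  have h2 : t ^ Nat.card A = 1 := by
    have h3 : (⟨t, ht⟩ : A) ^ Nat.card A = 1 := pow_card_eq_one'
    exact congrArg Subtype.val h3
  have h3 : IsCoprime (p : ℤ) (Nat.card A : ℤ) :=
    Nat.isCoprime_iff_coprime.2 (((Fact.out : p.Prime).coprime_iff_not_dvd).2 hA)
  obtain ⟨u, v, huv⟩ := h3
  have h4 : t = (t ^ p) ^ u * (t ^ Nat.card A) ^ v := by
    rw [← zpow_natCast, ← zpow_natCast, ← zpow_mul, ← zpow_mul, ← zpow_add]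
    rw [mul_comm (p : ℤ) u, mul_comm (Nat.card A : ℤ) v, huv, zpow_one]
  refine D.mul_mem hd ?_
  rw [h4, h2, one_zpow, mul_one]
  exact D.zpow_mem h1 u

/-! ### brackets of root elements -/

private theorem b24_opp (H : HypW C6 K) (b : Rt C6) : br (Df K b) (Df K (ng b)) ≠ 0 := by
  rw [br_D_ng H]
  intro h
  have h1 : (zk (cv b) : Fin 6 → K) = 0 := by
    have h2 := congrArg Prod.fst h
    rw [Prod.fst_neg, hh_fst] at h2
    exact neg_eq_zero.1 h2
  have h3 : fk C6 (zk (cv b) : Fin 6 → K) (zk b.1) = ((dg b b : ℤ) : K) := fk_zk_zk _ _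
  rw [h1, fk_zero_left, dg_self] at h3
  exact two_ne H (by exact_mod_cast h3.symm)

private theorem b24_nonneg (H : HypW C6 K) {c d : Rt C6} (h : br (Df K c) (Df K d) = 0) :
    0 ≤ dg c d := by
  by_contra hlt
  push Not at hlt
  by_cases h1 : Eq4 (ng c) d
  · rw [Df_Eq4 h1] at h
    exact b24_opp H c h
  · obtain ⟨e, he, -, -⟩ := sm_of_neg c d hlt h1
    obtain ⟨k, hk, hk'⟩ := br_DD H he
    rw [hk'] at h
    exact smul_ne_zero hk (Df_ne_zero e) h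

private theorem b24_sv_sum (S : Finset (Rt C6)) : sv (∑ c ∈ S, c.1) = ∑ c ∈ S, (sg c).1 := by
  funext i
  show (∑ c ∈ S, c.1) (tau i) = _
  rw [Finset.sum_apply, Finset.sum_apply]
  rfl

/-- `(xf b 1 - 1)²` on `VF` -/
private theorem b24_sq (H : HypW C6 K) (b : Rt C6) {z : LL C6 K} (hz : z ∈ VF K) :
    ∃ l : K, xf b (1 : K) (xf b (1 : K) z) - 2 • xf b (1 : K) z + z = l • wf K b := by
  have h1 : xf b (1 : K) (xf b (1 : K) z) - 2 • xf b (1 : K) z + z =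
      br (Df K b) (br (Df K b) z) := by
    rw [xf_apply H b 1 (xf b (1 : K) z), xf_apply H b 1 z]
    simp only [map_add, map_smul, ad3 H, smul_zero, add_zero]
    match_scalars
    all_goals
      have := two_ne H
      field_simp
      ring
  by_cases hb : sg b = b
  · refine ⟨0, ?_⟩
    rw [h1, Df_long hb, isExt_e H b z]
    have h2 : fm (e K b) z = 0 := by
      have h3 := Df_mem (K := K) b
      rw [Df_long hb] at h3
      exact fm_LF_VF H h3 hz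
    rw [h2, mul_zero, zero_smul, zero_smul]
  · exact ⟨_, by rw [h1, ad2_V H b hb hz]⟩

theorem caseB2_4 (H : HypW C6 K) [Fact p.Prime] [CharP K p] (X : HB p F)
    {g : LL C6 K ≃ₗ[K] LL C6 K} (hg : g ∈ GF K) (hgT : T4 K ≤ cj g F)
    (hne : (SF4 F).Nonempty) (hne' : (SF4 (cj g F)).Nonempty)
    (hcomm : ∀ b ∈ SF4 F, ∀ c ∈ SF4 (cj g F), br (g (Df K c)) (Df K b) = 0)
    (IH : ∀ F' : Subgroup (LL C6 K ≃ₗ[K] LL C6 K), F' ≤ GF K → T4 K ≤ F' →
      Nat.card F' < Nat.card F → Dst4 F') : False := by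
  classical
  have hF := X.hF
  have hT := X.hT
  have hO := X.hO
  obtain ⟨b, hb⟩ := hne
  have hfin : Finite (LL C6 K ≃ₗ[K] LL C6 K) := finite4 H
  let A : Subgroup (LL C6 K ≃ₗ[K] LL C6 K) := (T4 K).map (MulAut.conj g).toMonoidHom
  have hA : ∀ t, t ∈ A ↔ ∃ t0 ∈ T4 K, g * t0 * g⁻¹ = t := by
    intro t
    exact Subgroup.mem_map
  let E : Subgroup (LL C6 K ≃ₗ[K] LL C6 K) :=
    Subgroup.closure {u | ∃ d ∈ SF4 F, ∃ s : K, u = xf d s}
  let D : Subgroup (LL C6 K ≃ₗ[K] LL C6 K) :=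
    Subgroup.closure {u | ∃ t ∈ A, ∃ f ∈ E, u = t * f * t⁻¹}
  let F1 : Subgroup (LL C6 K ≃ₗ[K] LL C6 K) := A ⊔ E
  have hAF : A ≤ F := by
    intro t ht
    obtain ⟨t0, ht0, rfl⟩ := (hA t).1 ht
    exact hgT ht0
  have hEF : E ≤ F := by
    rw [Subgroup.closure_le]
    rintro _ ⟨d, hd, s, rfl⟩
    exact hd s
  have hF1F : F1 ≤ F := sup_le hAF hEF
  have hED : E ≤ D := by
    intro f hf
    exact Subgroup.subset_closure ⟨1, A.one_mem, f, hf, by simp⟩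
  have hAD : ∀ t ∈ A, ∀ d ∈ D, t * d * t⁻¹ ∈ D := by
    intro t ht d hd
    have h1 : D ≤ D.comap (MulAut.conj t).toMonoidHom := by
      rw [Subgroup.closure_le]
      rintro _ ⟨t', ht', f, hf, rfl⟩
      change t * (t' * f * t'⁻¹) * t⁻¹ ∈ D
      refine Subgroup.subset_closure ⟨t * t', A.mul_mem ht ht', f, hf, by group⟩
    exact h1 hd
  have hF1DA : F1 ≤ D ⊔ A := sup_le le_sup_right (hED.trans le_sup_left)
  -- (1)
  have hyE : ∀ c ∈ SF4 (cj g F), ∀ s : K, ∀ f ∈ E,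
      (g * xf c s * g⁻¹) * f = f * (g * xf c s * g⁻¹) := by
    intro c hc s f hf
    have hle : E ≤ Subgroup.centralizer ({g * xf c s * g⁻¹} : Set (LL C6 K ≃ₗ[K] LL C6 K)) := by
      rw [Subgroup.closure_le]
      rintro _ ⟨d, hd, s', rfl⟩
      have h1 := hcomm d hd c hc
      rw [SetLike.mem_coe, Subgroup.mem_centralizer_singleton_iff]
      have h2 := (comm_iff H hg (one_mem (GF K)) c d).1 h1 s s'
      rw [one_mul, inv_one, mul_one] at h2
      exact h2.symm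
    have h2 := hle hf
    rw [Subgroup.mem_centralizer_singleton_iff] at h2
    exact h2.symm
  have hconjA : ∀ (c : Rt C6) (s : K), ∀ t ∈ A, ∃ s' : K,
      t * (g * xf c s * g⁻¹) * t⁻¹ = g * xf c s' * g⁻¹ := by
    intro c s t ht
    obtain ⟨t0, ht0, rfl⟩ := (hA t).1 ht
    refine ⟨wt t0 c * s, ?_⟩
    rw [← T4_conj_xf H ht0 c s]
    group
  have hyD : ∀ c ∈ SF4 (cj g F), ∀ s : K, ∀ d ∈ D,
      (g * xf c s * g⁻¹) * d = d * (g * xf c s * g⁻¹) := by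
    intro c hc s d hd
    have hle : D ≤ Subgroup.centralizer ({g * xf c s * g⁻¹} : Set (LL C6 K ≃ₗ[K] LL C6 K)) := by
      rw [Subgroup.closure_le]
      rintro _ ⟨t, ht, f, hf, rfl⟩
      rw [SetLike.mem_coe, Subgroup.mem_centralizer_singleton_iff]
      obtain ⟨s', hs'⟩ := hconjA c s t⁻¹ (A.inv_mem ht)
      rw [inv_inv] at hs'
      have h1 := hyE c hc s' f hf
      rw [← hs'] at h1
      have h2 : t * f * t⁻¹ * (g * xf c s * g⁻¹) =
          t * (f * (t⁻¹ * (g * xf c s * g⁻¹) * t)) * t⁻¹ := by group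
      rw [h2, ← h1]
      group
    have h2 := hle hd
    rw [Subgroup.mem_centralizer_singleton_iff] at h2
    exact h2.symm
  -- (2)
  have hne1 : F1 ≠ F := by
    intro heq
    obtain ⟨c, hc⟩ := hne'
    let Y : Subgroup (LL C6 K ≃ₗ[K] LL C6 K) :=
      { carrier := {u | ∃ s : K, u = g * xf c s * g⁻¹}
        one_mem' := ⟨0, by rw [xf_zero H]; group⟩
        mul_mem' := by
          rintro _ _ ⟨s, rfl⟩ ⟨s', rfl⟩
          refine ⟨s + s', ?_⟩
          rw [xf_add H]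
          group
        inv_mem' := by
          rintro _ ⟨s, rfl⟩
          refine ⟨-s, ?_⟩
          rw [xf_neg H]
          group }
    have hYF : Y ≤ F := by
      rintro _ ⟨s, rfl⟩
      exact hc s
    have hYn : ∀ f ∈ F, ∀ u ∈ Y, f * u * f⁻¹ ∈ Y := by
      intro f hf u hu
      rw [← heq] at hf
      obtain ⟨d, hd, t, ht, rfl⟩ := b24_prod D A hAD (hF1DA hf)
      obtain ⟨s, rfl⟩ := hu
      obtain ⟨s', hs'⟩ := hconjA c s t ht
      refine ⟨s', ?_⟩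
      have h1 := hyD c hc s' d hd
      have h2 : d * t * (g * xf c s * g⁻¹) * (d * t)⁻¹ =
          d * (t * (g * xf c s * g⁻¹) * t⁻¹) * d⁻¹ := by group
      rw [h2, hs', ← h1]
      group
    have hYp : IsPGroup p Y := by
      rintro ⟨_, s, rfl⟩
      refine ⟨1, ?_⟩
      apply Subtype.ext
      change (g * xf c s * g⁻¹) ^ p ^ 1 = 1
      rw [pow_one, conj_pow, xf_pow H, CharP.cast_eq_zero, zero_mul, xf_zero H]
      group
    have hbot := hO Y hYF hYn hYp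
    have h1 : g * xf c (1 : K) * g⁻¹ ∈ Y := ⟨1, rfl⟩
    rw [hbot, Subgroup.mem_bot] at h1
    have h2 : xf c (1 : K) = 1 := by
      have h3 : xf c (1 : K) = g⁻¹ * (g * xf c (1 : K) * g⁻¹) * g := by group
      rw [h3, h1]
      group
    have h3 : xf c (1 : K) = xf c 0 := by rw [h2, xf_zero H]
    exact one_ne_zero (xf_inj H c h3)
  -- (3)
  have hcardF1 : Nat.card F1 < Nat.card F := by
    have h1 : (F1 : Set (LL C6 K ≃ₗ[K] LL C6 K)) ⊂ F :=
      Set.ssubset_iff_subset_ne.2 ⟨hF1F, fun h => hne1 (SetLike.coe_injective h)⟩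
    exact Set.ncard_lt_ncard h1 (Set.toFinite _)
  let G1 : Subgroup (LL C6 K ≃ₗ[K] LL C6 K) := cj g F1
  have hG1card : Nat.card G1 < Nat.card F := by
    have h1 : Nat.card G1 = Nat.card F1 := card_cj4 g F1
    rw [h1]
    exact hcardF1
  have hG1GF : G1 ≤ GF K := cj_le_GF hg (hF1F.trans hF)
  have hG1GG : G1 ≤ GG C6 K := hG1GF.trans GF_le_GG
  have hT1G1 : T4 K ≤ G1 := by
    intro t ht
    exact mem_cj4.2 ((le_sup_left : A ≤ F1) ((hA _).2 ⟨t, ht, rfl⟩))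
  have hDst := IH G1 hG1GF hT1G1 hG1card
  have hG1G : G1 ≤ cj g F := fun x hx => mem_cj4.2 (hF1F (mem_cj4.1 hx))
  have hSS : ∀ c ∈ SF4 G1, c ∈ SF4 (cj g F) := fun c hc s => hG1G (hc s)
  let D' : Subgroup (LL C6 K ≃ₗ[K] LL C6 K) := cj g D
  have hT1D' : ∀ t ∈ T4 K, ∀ d ∈ D', t * d * t⁻¹ ∈ D' := by
    intro t ht d hd
    have h1 := hAD (g * t * g⁻¹) ((hA _).2 ⟨t, ht, rfl⟩) (g * d * g⁻¹) (mem_cj4.1 hd)
    refine mem_cj4.2 ?_
    have h2 : g * (t * d * t⁻¹) * g⁻¹ = g * t * g⁻¹ * (g * d * g⁻¹) * (g * t * g⁻¹)⁻¹ := by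
      group
    rw [h2]
    exact h1
  have hG1D' : G1 ≤ D' ⊔ T4 K := by
    intro x hx
    obtain ⟨d, hd, t, ht, he⟩ := b24_prod D A hAD (hF1DA (mem_cj4.1 hx))
    obtain ⟨t0, ht0, rfl⟩ := (hA t).1 ht
    have h1 : x = (g⁻¹ * d * g) * t0 := by
      have h2 : x = g⁻¹ * (g * x * g⁻¹) * g := by group
      rw [h2, he]
      group
    rw [h1]
    refine Subgroup.mul_mem_sup (mem_cj4.2 ?_) ht0
    have h2 : g * (g⁻¹ * d * g) * g⁻¹ = d := by group
    rw [h2]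
    exact hd
  have hxrD' : ∀ c ∈ SF4 G1, ∀ s : K, xf c s ∈ D' := by
    intro c hc s
    refine b24_pelt (p := p) D' (T4 K) hT1D' (T4_card H) (hG1D' (hc s)) ?_
    rw [xf_pow H, CharP.cast_eq_zero, zero_mul, xf_zero H]
  have hxrC : ∀ c ∈ SF4 G1, ∀ s : K, ∀ d ∈ D', xf c s * d = d * xf c s := by
    intro c hc s d hd
    have h1 := hyD c (hSS c hc) s (g * d * g⁻¹) (mem_cj4.1 hd)
    have h2 : xf c s * d = g⁻¹ * (g * xf c s * g⁻¹ * (g * d * g⁻¹)) * g := by group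
    rw [h2, h1]
    group
  let K' : Subgroup (LL C6 K ≃ₗ[K] LL C6 K) :=
    Subgroup.closure {u | ∃ c ∈ SF4 G1, ∃ s : K, u = xf c s}
  have hK'D' : K' ≤ D' := by
    rw [Subgroup.closure_le]
    rintro _ ⟨c, hc, s, rfl⟩
    exact hxrD' c hc s
  have hK'G1 : K' ≤ G1 := by
    rw [Subgroup.closure_le]
    rintro _ ⟨c, hc, s, rfl⟩
    exact hc s
  have hK'C : ∀ k ∈ K', ∀ d ∈ D', k * d = d * k := by
    intro k hk d hd
    have hle : K' ≤ Subgroup.centralizer ({d} : Set (LL C6 K ≃ₗ[K] LL C6 K)) := by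
      rw [Subgroup.closure_le]
      rintro _ ⟨c, hc, s, rfl⟩
      rw [SetLike.mem_coe, Subgroup.mem_centralizer_singleton_iff]
      exact hxrC c hc s d hd
    have h2 := hle hk
    rw [Subgroup.mem_centralizer_singleton_iff] at h2
    exact h2
  have hK'p : ∀ k ∈ K', k ^ p = 1 := by
    intro k hk
    refine Subgroup.closure_induction (p := fun k _ => k ^ p = 1) ?_ ?_ ?_ ?_ hk
    · rintro _ ⟨c, hc, s, rfl⟩
      rw [xf_pow H, CharP.cast_eq_zero, zero_mul, xf_zero H]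
    · exact one_pow p
    · intro x y hx hy h1 h2
      have h3 : Commute x y := hK'C x hx y (hK'D' hy)
      rw [h3.mul_pow, h1, h2, one_mul]
    · intro x hx h1
      rw [inv_pow, h1, inv_one]
  have hTK' : ∀ t ∈ T4 K, ∀ k ∈ K', t * k * t⁻¹ ∈ K' := by
    intro t ht k hk
    have h1 : K' ≤ K'.comap (MulAut.conj t).toMonoidHom := by
      rw [Subgroup.closure_le]
      rintro _ ⟨c, hc, s, rfl⟩
      change t * xf c s * t⁻¹ ∈ K'
      rw [T4_conj_xf H ht]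
      exact Subgroup.subset_closure ⟨c, hc, _, rfl⟩
    exact h1 hk
  -- (4)
  have hbE : xf b (1 : K) ∈ E := Subgroup.subset_closure ⟨b, hb, 1, rfl⟩
  let x' : LL C6 K ≃ₗ[K] LL C6 K := g⁻¹ * xf b (1 : K) * g
  have hx'g : g * x' * g⁻¹ = xf b (1 : K) := by
    change g * (g⁻¹ * xf b (1 : K) * g) * g⁻¹ = _
    group
  have hx'D' : x' ∈ D' := by
    refine mem_cj4.2 ?_
    rw [hx'g]
    exact hED hbE
  have hx'G1 : x' ∈ G1 := by
    refine mem_cj4.2 ?_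
    rw [hx'g]
    exact (le_sup_right : E ≤ F1) hbE
  have hx'GF : x' ∈ GF K := hG1GF hx'G1
  have hx'p : x' ^ p = 1 := by
    have h1 : x' = g⁻¹ * xf b (1 : K) * g⁻¹⁻¹ := by
      change g⁻¹ * xf b (1 : K) * g = _
      group
    rw [h1, conj_pow, xf_pow H, CharP.cast_eq_zero, zero_mul, xf_zero H]
    group
  obtain ⟨k, hk, hkx⟩ := hDst x' hx'GF (by
    intro t ht
    refine mem_cj4.2 ?_
    exact G1.mul_mem (G1.mul_mem hx'G1 (hT1G1 ht)) (G1.inv_mem hx'G1))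
  have hFo : Fo4 G1 ≤ K' ⊔ T4 K := by
    unfold Fo4
    rw [Subgroup.closure_le]
    rintro u (h1 | ⟨a, ha, s, rfl⟩)
    · exact (le_sup_right : T4 K ≤ K' ⊔ T4 K) h1
    · exact (le_sup_left : K' ≤ K' ⊔ T4 K) (Subgroup.subset_closure ⟨a, ha, s, rfl⟩)
  obtain ⟨k', hk', τ, hτ, hkk⟩ := b24_prod K' (T4 K) hTK' (hFo hk)
  let y' : LL C6 K ≃ₗ[K] LL C6 K := k'⁻¹ * x'
  have hy'e : y' = τ * (k⁻¹ * x') := by
    change k'⁻¹ * x' = _
    rw [hkk]
    group
  have hy'N : y' ∈ NN C6 K := by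
    rw [hy'e]
    exact (NN C6 K).mul_mem (T4_le_NN H hτ) hkx
  have hy'G1 : y' ∈ G1 := G1.mul_mem (G1.inv_mem (hK'G1 hk')) hx'G1
  have hy'GF : y' ∈ GF K := hG1GF hy'G1
  have hy'p : y' ^ p = 1 := by
    have h1 : Commute k'⁻¹ x' := hK'C _ (K'.inv_mem hk') x' hx'D'
    change (k'⁻¹ * x') ^ p = 1
    rw [h1.mul_pow, hx'p, hK'p _ (K'.inv_mem hk'), one_mul]
  have hx'ky : x' = k' * y' := by
    change x' = k' * (k'⁻¹ * x')
    group
  obtain ⟨w, κ, hκ, -, -, hwe, hwD, -, -, hwip, -, -⟩ := NN4_perm H hy'N hy'GF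
  have hwS : ∀ c ∈ SF4 G1, w c ∈ SF4 G1 := by
    intro c hc s
    have h1 := conj_xf (NN_le_GG hy'N) (hwD c) ((κ c)⁻¹ * s)
    rw [← mul_assoc, mul_inv_cancel₀ (hκ c), one_mul] at h1
    rw [← h1]
    exact G1.mul_mem (G1.mul_mem hy'G1 (hc _)) (G1.inv_mem hy'G1)
  -- (5)
  let S : Finset (Rt C6) := Finset.univ.filter (fun c => c ∈ SF4 G1)
  have hS : ∀ c, c ∈ S ↔ c ∈ SF4 G1 := by
    intro c
    simp [S]
  let δ : Fin 6 → ℤ := ∑ c ∈ S, c.1
  have hSsg : ∀ c ∈ SF4 G1, sg c ∈ SF4 G1 := fun c hc => SF4_Eq4 (Or.inr rfl) hc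
  have hδsv : sv δ = δ := by
    change sv (∑ c ∈ S, c.1) = ∑ c ∈ S, c.1
    rw [b24_sv_sum]
    refine Finset.sum_bij (fun c _ => sg c) ?_ ?_ ?_ ?_
    · intro c hc
      exact (hS _).2 (hSsg c ((hS c).1 hc))
    · intro c _ d _ h
      have h1 := congrArg sg h
      rwa [sg_sg, sg_sg] at h1
    · intro d hd
      exact ⟨sg d, (hS _).2 (hSsg d ((hS d).1 hd)), sg_sg d⟩
    · intro c _
      rfl
  have hdgS : ∀ c ∈ SF4 G1, ∀ d ∈ SF4 G1, 0 ≤ dg c d := by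
    intro c hc d hd
    refine b24_nonneg H ?_
    have h1 := (comm_iff H (one_mem (GF K)) (one_mem (GF K)) c d).2 (by
      intro s s'
      rw [one_mul, one_mul, inv_one, mul_one, mul_one]
      exact hxrC c hc s (xf d s') (hxrD' d hd s'))
    exact h1
  have hδ : ∀ y : Fin 6 → ℤ, ip C6 δ y = ∑ c ∈ S, ip C6 c.1 y := fun y => ip_sum_left S _ y
  have hδ2 : ∀ y : Fin 6 → ℤ, ip C6 δ y = ∑ c ∈ S, ip C6 (sg c).1 y := by
    intro y
    rw [← hδsv]
    change ip C6 (sv (∑ c ∈ S, c.1)) y = _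
    rw [b24_sv_sum]
    exact ip_sum_left S _ y
  have hterm : ∀ e c : Rt C6, 0 ≤ dg e c → 0 ≤ ip C6 e.1 c.1 + ip C6 (sg e).1 c.1 := by
    intro e c h
    by_cases he : sg e = e
    · rw [he]
      rw [dg_long _ _ he] at h
      omega
    · rw [← DBrB_cv e c he]
      exact h
  have hδS : ∀ c ∈ SF4 G1, 0 < ip C6 δ c.1 := by
    intro c hc
    have h1 : 0 < ∑ e ∈ S, (ip C6 e.1 c.1 + ip C6 (sg e).1 c.1) := by
      refine Finset.sum_pos' (fun e he => ?_) ⟨c, (hS c).2 hc, ?_⟩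
      · exact hterm e c (hdgS e ((hS e).1 he) c hc)
      · by_cases hcl : sg c = c
        · rw [hcl, c.2]
          norm_num
        · rw [← DBrB_cv c c hcl, dg_self]
          norm_num
    rw [Finset.sum_add_distrib, ← hδ, ← hδ2] at h1
    omega
  have hδw : ∀ a, ip C6 δ (w a).1 = ip C6 δ a.1 := by
    intro a
    rw [hδ, hδ]
    symm
    refine Finset.sum_bij (fun c _ => w c) ?_ ?_ ?_ ?_
    · intro c hc
      exact (hS _).2 (hwS c ((hS c).1 hc))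
    · intro c _ d _ h
      exact w.injective h
    · intro d hd
      have himg : S.image w = S := by
        apply Finset.eq_of_subset_of_card_le
        · intro z hz
          obtain ⟨c, hc, rfl⟩ := Finset.mem_image.1 hz
          exact (hS _).2 (hwS c ((hS c).1 hc))
        · rw [Finset.card_image_of_injective _ w.injective]
      rw [← himg] at hd
      obtain ⟨c, hc, h⟩ := Finset.mem_image.1 hd
      exact ⟨c, hc, h⟩
    · intro c _
      rw [hwip]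
  have hK'R : K' ≤ Rad H δ := by
    rw [Subgroup.closure_le]
    rintro _ ⟨c, hc, s, rfl⟩
    exact xf_mem_Rad H hδsv s (hδS c hc)
  have hy'Par : y' ∈ Par C6 K δ := by
    apply mem_Par_of_root H (NN_le_GG hy'N)
    intro a
    rw [hwe, ← hδw a]
    exact Submodule.smul_mem _ _ (Fil_e_fil δ _ le_rfl)
  have hk'Par : k' ∈ Par C6 K δ := Rad_le H δ (hK'R hk')
  have hx'Par : x' ∈ Par C6 K δ := by
    rw [hx'ky]
    exact (Par C6 K δ).mul_mem hk'Par hy'Par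
  have hgry : gr H δ ⟨y', hy'Par⟩ = y' := gr_NN H ⟨y', hy'Par⟩ hy'N
  have hgrk : gr H δ ⟨k', hk'Par⟩ = 1 := (mem_Rad H ⟨k', hk'Par⟩).1 (hK'R hk')
  have hgrx : gr H δ ⟨x', hx'Par⟩ = y' := by
    have h1 : (⟨x', hx'Par⟩ : Par C6 K δ) = ⟨k', hk'Par⟩ * ⟨y', hy'Par⟩ :=
      Subtype.ext hx'ky
    rw [h1, map_mul, hgrk, hgry, one_mul]
  -- (6)
  have hline : ∀ a : Rt C6, sg a ≠ a → ∃ k : K, y' (wf K a) = k • wf K a := by
    intro a ha
    refine mono_rank4 H (p := p) hδsv (x := x') (y := y') hy'N hy'GF hy'p ?_ ?_ ?_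
      (g⁻¹ (wf K b)) ?_ a ha
    · intro m u hu
      have h1 := gr_grd H ⟨y', hy'Par⟩ hu
      rw [hgry] at h1
      exact h1
    · intro m u hu
      exact (hx'Par.2 m u).2 hu
    · intro m u hu
      have h1 := Fil_gr_spec H ⟨x', hx'Par⟩ hu
      rw [hgrx] at h1
      exact h1
    · intro u huV
      have hx'a : ∀ z, x' z = g⁻¹ (xf b (1 : K) (g z)) := fun z => rfl
      obtain ⟨l, hl⟩ := b24_sq H b ((GF_VF hg u).2 huV)
      refine ⟨l, ?_⟩
      have h5 : x' (x' u) = g⁻¹ (xf b (1 : K) (xf b (1 : K) (g u))) := by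
        rw [hx'a, hx'a, nor_inv_apply]
      have h6 : u = g⁻¹ (g u) := (nor_apply_inv g u).symm
      rw [h5, hx'a]
      conv_lhs => rw [h6]
      rw [nor_inv_apply]
      have h7 := congrArg (fun z => g⁻¹ z) hl
      have h8 : g⁻¹ (l • wf K b) = l • g⁻¹ (wf K b) := LinearEquiv.map_smul _ _ _
      have h9 : g⁻¹ (xf b (1 : K) (xf b (1 : K) (g u)) - 2 • xf b (1 : K) (g u) + g u) =
          g⁻¹ (xf b (1 : K) (xf b (1 : K) (g u))) - 2 • g⁻¹ (xf b (1 : K) (g u)) +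
            g⁻¹ (g u) := by
        rw [map_add, map_sub, map_nsmul]
      rw [← h8, ← h9]
      exact h7
  have hy'1 : y' = 1 := NN4_short_trivial H (p := p) hy'N hy'GF hy'p hline
  have hx'K : x' ∈ K' := by
    rw [hx'ky, hy'1, mul_one]
    exact hk'
  have hnb : ng b ∈ SF4 F := sym4 H X hb
  have hcom : ∀ s : K, xf b (1 : K) * xf (ng b) s = xf (ng b) s * xf b (1 : K) := by
    intro s
    have hnbE : xf (ng b) s ∈ E := Subgroup.subset_closure ⟨ng b, hnb, s, rfl⟩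
    have hz : g⁻¹ * xf (ng b) s * g ∈ D' := by
      refine mem_cj4.2 ?_
      have h1 : g * (g⁻¹ * xf (ng b) s * g) * g⁻¹ = xf (ng b) s := by group
      rw [h1]
      exact hED hnbE
    have h1 := hK'C x' hx'K _ hz
    have h2 : xf b (1 : K) * xf (ng b) s =
        g * (x' * (g⁻¹ * xf (ng b) s * g)) * g⁻¹ := by
      change _ = g * (g⁻¹ * xf b (1 : K) * g * (g⁻¹ * xf (ng b) s * g)) * g⁻¹
      group
    rw [h2, h1]
    change g * (g⁻¹ * xf (ng b) s * g * (g⁻¹ * xf b (1 : K) * g)) * g⁻¹ = _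
    group
  have hfix : xf b (1 : K) (Df K (ng b)) = Df K (ng b) := by
    have h1 := ad_inj_ex H (xf_mem_GF H b 1) (one_mem (GF K)) (a := ng b) (a' := ng b) (by
      intro s
      rw [hcom s, mul_inv_cancel_right, one_mul, inv_one, mul_one])
    exact h1
  rw [xf_apply H, br_D_ng H, map_neg] at hfix
  have hDh : br (Df K b) (hh C6 (zk (cv b))) = -((2 : K) • Df K b) := by
    have h1 : sv (zk (cv b) : Fin 6 → K) = zk (cv b) := by
      rw [← zk_sv, sv_cv]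
    rw [br_skew H, br_h_D _ h1, fk_zk_zk]
    have h2 : ip C6 (cv b) b.1 = 2 := dg_self b
    rw [h2]
    norm_num
  rw [hDh] at hfix
  have h1 := congrArg (fun z : LL C6 K => z.2 b) hfix
  have hE1 : Eq4 b b := Or.inl rfl
  have hE2 : ¬ Eq4 (ng b) b := by
    intro h
    have h2 := dg_neg_two b b
    have h3 := dg_self b
    have h4 : dg b b = -2 := by
      rcases h with h | h
      · conv_lhs => rw [h]
        rw [dg_ng_left, dg_ng_right, neg_neg, dg_self]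
        exfalso
        have h5 : dg b (ng b) = -2 := by rw [dg_ng_right, dg_self]
        rw [← h] at h5
        omega
      · exfalso
        have h5 : dg b (sg (ng b)) = -2 := by rw [dg_sg_right, dg_ng_right, dg_self]
        rw [← h] at h5
        omega
    omega
  have h2 : (Df K (ng b) + (1 : K) • -hh C6 (zk (cv b)) +
      (2⁻¹ * (1 : K) ^ 2) • -(-((2 : K) • Df K b))).2 b =
      (Df K (ng b)).2 b + (1 : K) * -(0 : K) + (2⁻¹ * (1 : K) ^ 2) * -(-((2 : K) * (Df K b).2 b)) :=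
    rfl
  have h3 : (Df K (ng b)).2 b + (1 : K) * -(0 : K) +
      (2⁻¹ * (1 : K) ^ 2) * -(-((2 : K) * (Df K b).2 b)) = (Df K (ng b)).2 b := by
    rw [← h2]
    exact h1
  rw [Df_snd, Df_snd, if_pos hE1, if_neg hE2] at h3
  have h4 : (0 : K) + (1 : K) * -(0 : K) + (2⁻¹ * (1 : K) ^ 2) * -(-((2 : K) * 1)) = 1 := by
    have := two_ne H
    field_simp
    ring
  rw [h4] at h3
  exact one_ne_zero h3

end Pool.Agent.H31.F4
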