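import Pool.Agent.H31.F4.SigB

/-!
# FF-04: brackets of the vectors `Df`, `wf`

Choose representatives: by `Eq4` invariance (`Df_sg`, `wf_sg`, `br` bilinear) replace `b` by `sg b`
so that `c = a + b` up to `sg` (`sm_of_neg`, `sm_of_orth`, `sm_cases`).
* both short, `ip a b = -1`, `ip a (sg b) = 0`: `[e_a ± e_(sa), e_b ± e_(sb)]`
  `= ε(a,b) (e_c ± e_(sc))` (`br_e_e_add`, `br_e_e_zero`, `ek_sv`).
* both short orthogonal, `ip a b = -1`, `ip a (sg b) = 1`, `c = a + b = sg c`: the terms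
  `[e_a,e_b]` and `[e_(sa),e_(sb)]` both give `ε(a,b) e_c`, the mixed ones are zero:
  `[Df a, Df b] = 2 ε e_c = [wf a, wf b]`, `[Df a, wf b] = 0`.
* `a` long, `b` short, `ip a b = ip a (sg b) = -1`: `[e_a, e_b ± e_(sb)] = ε (e_c ± e_(sc))`.
* opposite: `[e_a, e_(-a)] = -h_a`, `[e_a, e_(-sa)] = 0` (`ip a (-sa) = 0`).
* no sum: all the products `ip` are `≥ 0`, or the terms cancel.
-/

namespace Pool.Agent.H31.F4

open Pool.Agent.H33.EL (ip cc eps Rt ng zk ek fk LL hh e brf fmf br fm IsExt exl ex xr hd L0 GG T1 TT NN SF cj wt)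

variable {K : Type} [Field K]

omit K in
private theorem dbr_ip_sg' (a b : Rt C6) : ip C6 (sg a).1 b.1 = ip C6 a.1 (sg b).1 := by
  have h : ip C6 (sv (sg a).1) (sv b.1) = ip C6 (sg a).1 b.1 := ip_sv _ _
  rw [← h]
  show ip C6 (sv (sv a.1)) (sv b.1) = ip C6 a.1 (sv b.1)
  rw [sv_sv]

private theorem dbr_ek (a b : Rt C6) : ek K C6 (sg a).1 (sg b).1 = ek K C6 a.1 b.1 := ek_sv _ _

private theorem dbr_ek' (a b : Rt C6) : ek K C6 (sg a).1 b.1 = ek K C6 a.1 (sg b).1 := by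
  have h : ek K C6 (sv (sg a).1) (sv b.1) = ek K C6 (sg a).1 b.1 := ek_sv _ _
  rw [← h]
  show ek K C6 (sv (sv a.1)) (sv b.1) = ek K C6 a.1 (sv b.1)
  rw [sv_sv]

private theorem dbr_sgd {a b d : Rt C6} (hd : d.1 = a.1 + b.1) :
    (sg d).1 = (sg a).1 + (sg b).1 := by
  show sv d.1 = sv a.1 + sv b.1
  rw [hd]
  rfl

/-- the four brackets -/
private theorem dbr_four (H : HypW C6 K) {a b d : Rt C6} (hd : d.1 = a.1 + b.1)
    (h0 : 0 ≤ ip C6 a.1 (sg b).1) :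
    br (e K a) (e K b) = ek K C6 a.1 b.1 • e K d ∧ br (e K a) (e K (sg b)) = 0 ∧
      br (e K (sg a)) (e K b) = 0 ∧
      br (e K (sg a)) (e K (sg b)) = ek K C6 a.1 b.1 • e K (sg d) := by
  refine ⟨br_e_e_add H hd, br_e_e_zero H h0, br_e_e_zero H ?_, ?_⟩
  · rw [dbr_ip_sg']
    exact h0
  · rw [br_e_e_add H (dbr_sgd hd), dbr_ek]

private theorem dbr_pp (x y z w : LL C6 K) :
    br (x + y) (z + w) = br x z + br x w + (br y z + br y w) := by
  simp only [map_add, LinearMap.add_apply]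
  abel

private theorem dbr_pm (x y z w : LL C6 K) :
    br (x + y) (z - w) = br x z - br x w + (br y z - br y w) := by
  simp only [map_add, map_sub, LinearMap.add_apply]
  abel

private theorem dbr_mp (x y z w : LL C6 K) :
    br (x - y) (z + w) = br x z + br x w - (br y z + br y w) := by
  simp only [map_add, map_sub, LinearMap.sub_apply]
  abel

private theorem dbr_mm (x y z w : LL C6 K) :
    br (x - y) (z - w) = br x z - br x w - (br y z - br y w) := by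
  simp only [map_sub, LinearMap.sub_apply]
  abel

private theorem dbr_ss (H : HypW C6 K) {a b d : Rt C6} (ha : sg a ≠ a) (hb : sg b ≠ b)
    (hd : d.1 = a.1 + b.1) (h0 : 0 ≤ ip C6 a.1 (sg b).1) :
    br (Df K a) (Df K b) = ek K C6 a.1 b.1 • (e K d + e K (sg d)) ∧
      br (Df K a) (wf K b) = ek K C6 a.1 b.1 • wf K d ∧
      br (wf K a) (wf K b) = ek K C6 a.1 b.1 • (e K d + e K (sg d)) := by
  obtain ⟨h1, h2, h3, h4⟩ := dbr_four H hd h0
  have hw : ∀ x : Rt C6, wf K x = e K x - e K (sg x) := fun _ => rfl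
  refine ⟨?_, ?_, ?_⟩
  · rw [Df_short ha, Df_short hb, dbr_pp, h1, h2, h3, h4, smul_add]
    abel
  · rw [Df_short ha, hw, hw, dbr_pm, h1, h2, h3, h4, smul_sub]
    abel
  · rw [hw, hw, dbr_mm, h1, h2, h3, h4, smul_add]
    abel

private theorem dbr_ls (H : HypW C6 K) {a b d : Rt C6} (ha : sg a = a) (hb : sg b ≠ b)
    (hd : d.1 = a.1 + b.1) :
    br (Df K a) (Df K b) = ek K C6 a.1 b.1 • (e K d + e K (sg d)) ∧
      br (Df K a) (wf K b) = ek K C6 a.1 b.1 • wf K d := by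
  have hw : ∀ x : Rt C6, wf K x = e K x - e K (sg x) := fun _ => rfl
  have h1 : br (e K a) (e K b) = ek K C6 a.1 b.1 • e K d := br_e_e_add H hd
  have h2 : br (e K a) (e K (sg b)) = ek K C6 a.1 b.1 • e K (sg d) := by
    have h3 := dbr_sgd hd
    have h4 := dbr_ek (K := K) a b
    rw [ha] at h3 h4
    rw [br_e_e_add H h3, h4]
  refine ⟨?_, ?_⟩
  · rw [Df_long ha, Df_short hb, map_add, h1, h2, smul_add]
  · rw [Df_long ha, hw, hw, map_sub, h1, h2, smul_sub]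

private theorem dbr_sum (H : HypW C6 K) (d : Rt C6) :
    ∃ k : K, k ≠ 0 ∧ e K d + e K (sg d) = k • Df K d := by
  by_cases h : sg d = d
  · refine ⟨2, Jac_two H, ?_⟩
    rw [Df_long h, h, two_smul]
  · exact ⟨1, one_ne_zero, by rw [Df_short h, one_smul]⟩

private theorem dbr_wf_Eq4 {a b : Rt C6} (h : Eq4 a b) : ∃ k : K, k ≠ 0 ∧ wf K b = k • wf K a := by
  rcases h with rfl | rfl
  · exact ⟨1, one_ne_zero, by rw [one_smul]⟩
  · exact ⟨-1, neg_ne_zero.2 one_ne_zero, by rw [wf_sg, neg_smul, one_smul]⟩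

omit K in
private theorem dbr_Eq4_sum {a b c d : Rt C6} (h : Sm a b c) (hd : d.1 = a.1 + b.1) : Eq4 d c := by
  rw [Eq4_iff, dbr_sgd hd, hd]
  have h1 : c.1 + (sg c).1 = (a.1 + (sg a).1) + (b.1 + (sg b).1) := h
  rw [h1]
  abel

/-- representatives of a sum of two short roots -/
private theorem dbr_rep (H : HypW C6 K) {a b c : Rt C6} (h : Sm a b c) (ha : sg a ≠ a)
    (hb : sg b ≠ b) : ∃ b' d : Rt C6, Eq4 b b' ∧ d.1 = a.1 + b'.1 ∧ 0 ≤ ip C6 a.1 (sg b').1 ∧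
      Eq4 d c := by
  have hdg : dg a b = -1 ∨ dg a b = 0 := by
    rcases sm_cases h with h1 | h1 | h1 | h1 | h1
    · exact absurd h1.1 ha
    · exact Or.inl h1.2.2.2
    · exact Or.inr h1.2.2.2
    · exact absurd h1.1 ha
    · exact absurd h1.2.1 hb
  have hs := dg_short a b ha
  have key : (ip C6 a.1 b.1 = -1 ∧ 0 ≤ ip C6 a.1 (sg b).1) ∨
      (ip C6 a.1 (sg b).1 = -1 ∧ 0 ≤ ip C6 a.1 b.1) := by
    rcases cb_SS a b ha hb with h1 | h1 | h1 | h1 | h1 | h1 | h1 | h1 | h1 | h1 <;> omega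
  rcases key with ⟨h1, h2⟩ | ⟨h1, h2⟩
  · exact ⟨b, ⟨a.1 + b.1, root_add H h1⟩, Or.inl rfl, rfl, h2, dbr_Eq4_sum h rfl⟩
  · refine ⟨sg b, ⟨a.1 + (sg b).1, root_add H h1⟩, Or.inr rfl, rfl, by rw [sg_sg]; exact h2, ?_⟩
    exact dbr_Eq4_sum (Sm_sg h (Or.inl rfl) (Or.inr rfl) (Or.inl rfl)) rfl

private theorem dbr_DD_ls (H : HypW C6 K) {a b c : Rt C6} (h : Sm a b c) (ha : sg a = a)
    (hb : sg b ≠ b) (hab : dg a b = -1) : ∃ k : K, k ≠ 0 ∧ br (Df K a) (Df K b) = k • Df K c := by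
  rw [dg_long a b ha] at hab
  have h1 := dbr_Eq4_sum (d := ⟨a.1 + b.1, root_add H hab⟩) h rfl
  obtain ⟨h2, -⟩ := dbr_ls H (d := ⟨a.1 + b.1, root_add H hab⟩) ha hb rfl
  obtain ⟨k, hk, h3⟩ := dbr_sum H (⟨a.1 + b.1, root_add H hab⟩ : Rt C6)
  exact ⟨ek K C6 a.1 b.1 * k, mul_ne_zero (ek_ne_zero _ _) hk, by
    rw [h2, h3, smul_smul, Df_Eq4 h1]⟩

theorem br_DD (H : HypW C6 K) {a b c : Rt C6} (h : Sm a b c) :
    ∃ k : K, k ≠ 0 ∧ br (Df K a) (Df K b) = k • Df K c := by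
  have hss : ∀ ha : sg a ≠ a, ∀ hb : sg b ≠ b,
      ∃ k : K, k ≠ 0 ∧ br (Df K a) (Df K b) = k • Df K c := by
    intro ha hb
    obtain ⟨b', d, h1, h2, h3, h4⟩ := dbr_rep H h ha hb
    have hb' : sg b' ≠ b' := fun h5 => hb ((Eq4_len h1).2 h5)
    obtain ⟨k, hk, h5⟩ := dbr_sum H d
    refine ⟨ek K C6 a.1 b'.1 * k, mul_ne_zero (ek_ne_zero _ _) hk, ?_⟩
    rw [← Df_Eq4 h1, (dbr_ss H ha hb' h2 h3).1, h5, smul_smul, Df_Eq4 h4]
  rcases sm_cases h with ⟨ha, hb, hc, hab⟩ | ⟨ha, hb, hc, hab⟩ | ⟨ha, hb, hc, hab⟩ |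
    ⟨ha, hb, hc, hab, hba⟩ | ⟨ha, hb, hc, hab, hba⟩
  · rw [dg_long a b ha] at hab
    have h1 := dbr_Eq4_sum (d := ⟨a.1 + b.1, root_add H hab⟩) h rfl
    have h2 : c.1 = a.1 + b.1 := by
      have h3 : sg (⟨a.1 + b.1, root_add H hab⟩ : Rt C6) = ⟨a.1 + b.1, root_add H hab⟩ :=
        (Eq4_len h1).2 hc
      rcases h1 with h4 | h4
      · rw [h4]
      · rw [h4, h3]
    exact ⟨ek K C6 a.1 b.1, ek_ne_zero _ _, by
      rw [Df_long ha, Df_long hb, Df_long hc, br_e_e_add H h2]⟩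
  · exact hss ha hb
  · exact hss ha hb
  · exact dbr_DD_ls H h ha hb hab
  · obtain ⟨k, hk, h1⟩ := dbr_DD_ls H (Sm_symm h) hb ha hba
    exact ⟨-k, neg_ne_zero.2 hk, by rw [br_skew H, h1, neg_smul]⟩

theorem br_Dw (H : HypW C6 K) {a b c : Rt C6} (h : Sm a b c) (hb : sg b ≠ b) (hc : sg c ≠ c) :
    ∃ k : K, k ≠ 0 ∧ br (Df K a) (wf K b) = k • wf K c := by
  by_cases ha : sg a = a
  · have hab : dg a b = -1 := by
      rcases sm_cases h with h1 | h1 | h1 | h1 | h1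
      · exact absurd h1.2.1 hb
      · exact absurd ha h1.1
      · exact absurd ha h1.1
      · exact h1.2.2.2.1
      · exact absurd h1.2.1 hb
    rw [dg_long a b ha] at hab
    have h1 := dbr_Eq4_sum (d := ⟨a.1 + b.1, root_add H hab⟩) h rfl
    obtain ⟨-, h2⟩ := dbr_ls H (d := ⟨a.1 + b.1, root_add H hab⟩) ha hb rfl
    obtain ⟨k, hk, h3⟩ := dbr_wf_Eq4 (K := K) (Eq4_symm h1)
    exact ⟨ek K C6 a.1 b.1 * k, mul_ne_zero (ek_ne_zero _ _) hk, by
      rw [h2, h3, smul_smul]⟩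
  · obtain ⟨b', d, h1, h2, h3, h4⟩ := dbr_rep H h ha hb
    have hb' : sg b' ≠ b' := fun h5 => hb ((Eq4_len h1).2 h5)
    obtain ⟨k, hk, h5⟩ := dbr_wf_Eq4 (K := K) (Eq4_symm h4)
    obtain ⟨l, hl, h6⟩ := dbr_wf_Eq4 (K := K) (Eq4_symm h1)
    refine ⟨l * (ek K C6 a.1 b'.1 * k), mul_ne_zero hl (mul_ne_zero (ek_ne_zero _ _) hk), ?_⟩
    rw [h6, map_smul, (dbr_ss H ha hb' h2 h3).2.1, h5, smul_smul, smul_smul, mul_assoc]

theorem br_ww (H : HypW C6 K) {a b c : Rt C6} (h : Sm a b c) (ha : sg a ≠ a) (hb : sg b ≠ b) :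
    ∃ k : K, k ≠ 0 ∧ br (wf K a) (wf K b) = k • Df K c := by
  obtain ⟨b', d, h1, h2, h3, h4⟩ := dbr_rep H h ha hb
  have hb' : sg b' ≠ b' := fun h5 => hb ((Eq4_len h1).2 h5)
  obtain ⟨k, hk, h5⟩ := dbr_sum H d
  obtain ⟨l, hl, h6⟩ := dbr_wf_Eq4 (K := K) (Eq4_symm h1)
  refine ⟨l * (ek K C6 a.1 b'.1 * k), mul_ne_zero hl (mul_ne_zero (ek_ne_zero _ _) hk), ?_⟩
  rw [h6, map_smul, (dbr_ss H ha hb' h2 h3).2.2, h5, smul_smul, smul_smul, Df_Eq4 h4, mul_assoc]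

private theorem dbr_wf_long {a : Rt C6} (h : sg a = a) : wf K a = 0 := by
  show e K a - e K (sg a) = 0
  rw [h, sub_self]

/-- all four brackets are zero -/
private theorem dbr_zero (H : HypW C6 K) {a b : Rt C6} (h1 : 0 ≤ ip C6 a.1 b.1)
    (h2 : 0 ≤ ip C6 a.1 (sg b).1) :
    br (e K a) (e K b) = 0 ∧ br (e K a) (e K (sg b)) = 0 ∧ br (e K (sg a)) (e K b) = 0 ∧
      br (e K (sg a)) (e K (sg b)) = 0 := by
  refine ⟨br_e_e_zero H h1, br_e_e_zero H h2, br_e_e_zero H ?_, br_e_e_zero H ?_⟩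
  · rw [dbr_ip_sg']
    exact h2
  · show 0 ≤ ip C6 (sv a.1) (sv b.1)
    rw [ip_sv]
    exact h1

private theorem dbr_zero_DD (H : HypW C6 K) {a b : Rt C6} (h1 : 0 ≤ ip C6 a.1 b.1)
    (h2 : 0 ≤ ip C6 a.1 (sg b).1) : br (Df K a) (Df K b) = 0 ∧ br (Df K a) (wf K b) = 0 ∧
      br (wf K a) (wf K b) = 0 := by
  obtain ⟨e1, e2, e3, e4⟩ := dbr_zero H h1 h2
  have hw : ∀ x : Rt C6, wf K x = e K x - e K (sg x) := fun _ => rfl
  have hD : ∀ x : Rt C6, ∃ t : K, Df K x = e K x + t • e K (sg x) := by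
    intro x
    by_cases hx : sg x = x
    · exact ⟨0, by rw [Df_long hx, zero_smul, add_zero]⟩
    · exact ⟨1, by rw [Df_short hx, one_smul]⟩
  obtain ⟨t, ht⟩ := hD a
  obtain ⟨s, hs⟩ := hD b
  refine ⟨?_, ?_, ?_⟩
  · rw [ht, hs, dbr_pp]
    simp only [map_smul, LinearMap.smul_apply, e1, e2, e3, e4, smul_zero, add_zero]
  · rw [ht, hw, dbr_pm]
    simp only [map_smul, LinearMap.smul_apply, e1, e2, e3, e4, smul_zero, add_zero, sub_zero]
  · rw [hw, hw, dbr_mm, e1, e2, e3, e4]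
    simp only [sub_zero]

/-- sum of two orthogonal short roots is long -/
private theorem dbr_orth_long (H : HypW C6 K) {a b d : Rt C6} (ha : sg a ≠ a) (hb : sg b ≠ b)
    (hd : d.1 = a.1 + b.1) (h1 : ip C6 a.1 (sg b).1 = 1) : sg d = d := by
  have h2 : ip C6 (sg d).1 d.1 = 2 := by
    rw [dbr_sgd hd, hd, ip_add_left, ip_add_right, ip_add_right]
    have h3 : ip C6 (sg a).1 a.1 = 0 := by rw [dbr_ip_sg']; exact cb_self a ha
    have h4 : ip C6 (sg b).1 b.1 = 0 := by rw [dbr_ip_sg']; exact cb_self b hb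
    have h5 : ip C6 (sg a).1 b.1 = 1 := by rw [dbr_ip_sg']; exact h1
    have h6 : ip C6 (sg b).1 a.1 = 1 := by rw [ip_comm H.symm]; exact h1
    rw [h3, h4, h5, h6]
    norm_num
  exact eq_of_ip_two H h2

theorem br_Dw_long (H : HypW C6 K) {a b : Rt C6} (h : 0 ≤ dg a b) : br (Df K a) (wf K b) = 0 := by
  by_cases hb : sg b = b
  · rw [dbr_wf_long hb, map_zero]
  · by_cases ha : sg a = a
    · rw [dg_long a b ha] at h
      have h2 := (cb_LS a b ha hb).2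
      exact (dbr_zero_DD H h (by rw [h2]; exact h)).2.1
    · rw [dg_short a b ha] at h
      have key : (0 ≤ ip C6 a.1 b.1 ∧ 0 ≤ ip C6 a.1 (sg b).1) ∨
          (ip C6 a.1 b.1 = 1 ∧ ip C6 a.1 (sg b).1 = -1) ∨
          (ip C6 a.1 b.1 = -1 ∧ ip C6 a.1 (sg b).1 = 1) := by
        rcases cb_SS a b ha hb with h1 | h1 | h1 | h1 | h1 | h1 | h1 | h1 | h1 | h1 <;> omega
      have main : ∀ c : Rt C6, sg c ≠ c → ip C6 a.1 c.1 = -1 → ip C6 a.1 (sg c).1 = 1 →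
          br (Df K a) (wf K c) = 0 := by
        intro c hc h1 h2
        have h3 : sg (⟨a.1 + c.1, root_add H h1⟩ : Rt C6) = ⟨a.1 + c.1, root_add H h1⟩ :=
          dbr_orth_long H ha hc rfl h2
        rw [(dbr_ss H (d := ⟨a.1 + c.1, root_add H h1⟩) ha hc rfl (by rw [h2]; norm_num)).2.1,
          dbr_wf_long h3, smul_zero]
      rcases key with h1 | h1 | h1
      · exact (dbr_zero_DD H h1.1 h1.2).2.1
      · have h2 := main (sg b) ((sg_ne_iff b).2 hb) h1.2 (by rw [sg_sg]; exact h1.1)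
        rw [wf_sg, map_neg, neg_eq_zero] at h2
        exact h2
      · exact main b hb h1.1 h1.2

theorem br_DD_zero (H : HypW C6 K) {a b : Rt C6} (h : ∀ c, ¬ Sm a b c) (h' : ¬ Eq4 (ng a) b) :
    br (Df K a) (Df K b) = 0 := by
  have h0 : 0 ≤ dg a b := by
    by_contra h1
    obtain ⟨c, hc, -⟩ := sm_of_neg a b (by omega) h'
    exact h c hc
  by_cases ha : sg a = a
  · rw [dg_long a b ha] at h0
    by_cases hb : sg b = b
    · exact (dbr_zero_DD H h0 (by rw [hb]; exact h0)).1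
    · exact (dbr_zero_DD H h0 (by rw [(cb_LS a b ha hb).2]; exact h0)).1
  · rw [dg_short a b ha] at h0
    by_cases hb : sg b = b
    · rw [hb] at h0
      exact (dbr_zero_DD H (by omega) (by rw [hb]; omega)).1
    · have h1 : dg a b ≠ 0 := by
        intro h1
        obtain ⟨c, hc, -⟩ := sm_of_orth a b ha hb h1
        exact h c hc
      rw [dg_short a b ha] at h1
      have key : 0 ≤ ip C6 a.1 b.1 ∧ 0 ≤ ip C6 a.1 (sg b).1 := by
        rcases cb_SS a b ha hb with h2 | h2 | h2 | h2 | h2 | h2 | h2 | h2 | h2 | h2 <;> omega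
      exact (dbr_zero_DD H key.1 key.2).1

theorem br_ww_zero (H : HypW C6 K) {a b : Rt C6} (h : 0 < dg a b) :
    br (wf K a) (wf K b) = 0 := by
  by_cases ha : sg a = a
  · rw [dbr_wf_long ha, map_zero, LinearMap.zero_apply]
  · by_cases hb : sg b = b
    · rw [dbr_wf_long hb, map_zero]
    · rw [dg_short a b ha] at h
      have key : 0 ≤ ip C6 a.1 b.1 ∧ 0 ≤ ip C6 a.1 (sg b).1 := by
        rcases cb_SS a b ha hb with h2 | h2 | h2 | h2 | h2 | h2 | h2 | h2 | h2 | h2 <;> omega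
      exact (dbr_zero_DD H key.1 key.2).2.2

/-- brackets of opposite root vectors -/
private theorem dbr_opp (H : HypW C6 K) {a : Rt C6} (ha : sg a ≠ a) :
    br (e K a) (e K (ng a)) = -hh C6 (zk a.1) ∧ br (e K a) (e K (ng (sg a))) = 0 ∧
      br (e K (sg a)) (e K (ng a)) = 0 ∧
      br (e K (sg a)) (e K (ng (sg a))) = -hh C6 (zk (sg a).1) := by
  refine ⟨br_e_ng H a, br_e_e_zero H ?_, br_e_e_zero H ?_, br_e_ng H (sg a)⟩
  · rw [ng_val, ip_neg_right, cb_self a ha, neg_zero]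
  · rw [ng_val, ip_neg_right, dbr_ip_sg', cb_self a ha, neg_zero]

private theorem dbr_hh_add (a : Rt C6) (ha : sg a ≠ a) :
    hh C6 (zk (cv a) : Fin 6 → K) = hh C6 (zk a.1) + hh C6 (zk (sg a).1) := by
  have h : cv a = a.1 + (sg a).1 := if_neg ha
  rw [h, zk_add, hh_add]

private theorem dbr_hh_sub (a : Rt C6) :
    hh C6 (zk (a.1 - (sg a).1) : Fin 6 → K) = hh C6 (zk a.1) - hh C6 (zk (sg a).1) := by
  rw [zk_sub, sub_eq_add_neg, hh_add, hh_neg, ← sub_eq_add_neg]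

theorem br_D_ng (H : HypW C6 K) (a : Rt C6) :
    br (Df K a) (Df K (ng a)) = -hh C6 (zk (cv a)) := by
  by_cases ha : sg a = a
  · have h : cv a = a.1 := if_pos ha
    rw [Df_long ha, Df_long ((sg_ng_iff a).2 ha), br_e_ng H, h]
  · obtain ⟨e1, e2, e3, e4⟩ := dbr_opp H ha
    have hn : sg (ng a) ≠ ng a := fun h => ha ((sg_ng_iff a).1 h)
    rw [Df_short ha, Df_short hn, sg_ng, dbr_pp, e1, e2, e3, e4, dbr_hh_add a ha]
    abel

theorem br_D_wng (H : HypW C6 K) (a : Rt C6) (ha : sg a ≠ a) :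
    br (Df K a) (wf K (ng a)) = -hh C6 (zk (a.1 - (sg a).1)) := by
  obtain ⟨e1, e2, e3, e4⟩ := dbr_opp H ha
  have hw : wf K (ng a) = e K (ng a) - e K (ng (sg a)) := by
    rw [← sg_ng]
    rfl
  rw [Df_short ha, hw, dbr_pm, e1, e2, e3, e4, dbr_hh_sub]
  abel

theorem br_w_Dng (H : HypW C6 K) (a : Rt C6) (ha : sg a ≠ a) :
    br (wf K a) (Df K (ng a)) = -hh C6 (zk (a.1 - (sg a).1)) := by
  obtain ⟨e1, e2, e3, e4⟩ := dbr_opp H ha
  have hw : wf K a = e K a - e K (sg a) := rfl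
  have hn : sg (ng a) ≠ ng a := fun h => ha ((sg_ng_iff a).1 h)
  rw [Df_short hn, sg_ng, hw, dbr_mp, e1, e2, e3, e4, dbr_hh_sub]
  abel

theorem br_w_wng (H : HypW C6 K) (a : Rt C6) (ha : sg a ≠ a) :
    br (wf K a) (wf K (ng a)) = -hh C6 (zk (cv a)) := by
  obtain ⟨e1, e2, e3, e4⟩ := dbr_opp H ha
  have hw : wf K a = e K a - e K (sg a) := rfl
  have hw' : wf K (ng a) = e K (ng a) - e K (ng (sg a)) := by
    rw [← sg_ng]
    rfl
  rw [hw, hw', dbr_mm, e1, e2, e3, e4, dbr_hh_add a ha]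
  abel

private theorem dbr_fk (h : Fin 6 → K) (a : Rt C6) :
    fk C6 h (zk (sg a).1) = fk C6 (sv h) (zk a.1) := by
  have h1 : (zk (sg a).1 : Fin 6 → K) = sv (zk a.1) := zk_sv a.1
  rw [h1, ← fk_sv, sv_sv]

theorem br_h_D (h : Fin 6 → K) (hs : sv h = h) (a : Rt C6) :
    br (hh C6 h) (Df K a) = fk C6 h (zk a.1) • Df K a := by
  by_cases ha : sg a = a
  · rw [Df_long ha, br_hh_e]
  · rw [Df_short ha, map_add, br_hh_e, br_hh_e, dbr_fk, hs, smul_add]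

theorem br_h_w (h : Fin 6 → K) (hs : sv h = h) (a : Rt C6) :
    br (hh C6 h) (wf K a) = fk C6 h (zk a.1) • wf K a := by
  have hw : wf K a = e K a - e K (sg a) := rfl
  rw [hw, map_sub, br_hh_e, br_hh_e, dbr_fk, hs, smul_sub]

theorem br_k_D (h : Fin 6 → K) (hs : sv h = -h) (a : Rt C6) (ha : sg a ≠ a) :
    br (hh C6 h) (Df K a) = fk C6 h (zk a.1) • wf K a := by
  have hw : wf K a = e K a - e K (sg a) := rfl
  rw [hw, Df_short ha, map_add, br_hh_e, br_hh_e, dbr_fk, hs, fk_neg_left, neg_smul, smul_sub,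
    ← sub_eq_add_neg]

theorem br_k_w (h : Fin 6 → K) (hs : sv h = -h) (a : Rt C6) (ha : sg a ≠ a) :
    br (hh C6 h) (wf K a) = fk C6 h (zk a.1) • Df K a := by
  have hw : wf K a = e K a - e K (sg a) := rfl
  rw [hw, Df_short ha, map_sub, br_hh_e, br_hh_e, dbr_fk, hs, fk_neg_left, neg_smul, smul_add,
    sub_neg_eq_add]

end Pool.Agent.H31.F4
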