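import Pool.Agent.H31.F4.DBrB

/-!
# FF-05: the root elements `xf a s = ex (s • Df K a)`

`ad3`: long: `[e_a,[e_a,x]] = -2 fm e_a x e_a` and `[e_a,e_a] = 0`.  Short: `u = e_a`, `v = e_(sa)`
commute, `ip a (sa) = 0`; `ad(u)² x = -2 fm u x u`, `ad(u)² ad(v) = 0`
(`fm u [v,x] = -fm [v,u] x = 0`), `ad(u) ad(v)² = 0`, `ad(u)³ = 0`; expand `(ad u + ad v)³`.
`exl`: `(1 + D + D²/2)(1 - D + D²/2) = 1 + D⁴/4 = 1` (terms of degree 3 cancel or vanish) since
`D³ = 0`.  So the condition in the definition of `ex` holds for `v = s • Df a` and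
`xf_apply` follows.
`xf_eq_mul`: `xr a s * xr (sg a) s`: expand with `xr` as `1 + s ad u + (s²/2) ad(u)²`; products
`ad(u)² ad(v)`, `ad(u)² ad(v)²` vanish (see above).
`xf_mem_GF`: `xr_mem_GG` and `Sg` commutes with `ad (Df a)` (`Sg_br`, `Df ∈ LF`).
`xf_add`: exponentials of commuting nilpotents, `D³ = 0`.
`conj_ex4`: for every `g ∈ GG` and every `v`: `g ex(v) g⁻¹ = ex (g v)`: `g ∘ exl v = exl (g v) ∘ g`, so
the condition in the definition holds for `v` iff for `g v`.
`xf_inj`: act on `hh h`, `sv h = h`, `(h,a) ≠ 0` (for instance `h = zk (cv a)`, `dg a a = 2`).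
`ex_GD`: the same formulas for the conjugates `g (Df a)`.
`ad_inj_ex`: if `ex (s • D) = ex (s • D')` for all `s` for `D = g (Df a)`, `D' = g' (Df a')`, then
`D = D'`: `ex(D) - ex(-D) = 2 ad D`, so `ad D = ad D'`, `D - D' ∈ LF` acts trivially on all
`e b` and `hh h`: its root coordinates vanish (`br (hh h)`, `exists_one`), and its toral part
by `nds`.
-/

namespace Pool.Agent.H31.F4

open Pool.Agent.H33.EL (ip cc eps Rt ng zk ek fk LL hh e brf fmf br fm IsExt exl ex xr hd L0 GG T1 TT NN SF cj wt)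

variable {K : Type} [Field K]

/-! auxiliary lemmas -/

theorem XfA_exl_smul (v : LL C6 K) (s : K) (x : LL C6 K) :
    exl (s • v) x = x + s • br v x + (2⁻¹ * s ^ 2) • br v (br v x) := by
  have h : exl (s • v) x = x + br (s • v) x + (2⁻¹ : K) • br (s • v) (br (s • v) x) := rfl
  rw [h]
  simp only [map_smul, LinearMap.smul_apply, smul_smul]
  congr 2
  ring

theorem XfA_comp (H : HypW C6 K) {v : LL C6 K} (hv : ∀ x, br v (br v (br v x)) = 0) (s t : K)
    (x : LL C6 K) : exl (s • v) (exl (t • v) x) = exl ((s + t) • v) x := by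
  have h2 := two_ne H
  rw [XfA_exl_smul, XfA_exl_smul, XfA_exl_smul]
  simp only [map_add, map_smul, hv, smul_zero, add_zero]
  match_scalars
  · ring
  · ring
  · field_simp
    ring

theorem XfA_inv (H : HypW C6 K) {v : LL C6 K} (hv : ∀ x, br v (br v (br v x)) = 0) (s : K) :
    (exl (s • v)).comp (exl (-(s • v))) = LinearMap.id ∧
      (exl (-(s • v))).comp (exl (s • v)) = LinearMap.id := by
  have h0 : ∀ x : LL C6 K, exl ((0 : K) • v) x = x := by
    intro x
    rw [XfA_exl_smul]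
    simp
  rw [← neg_smul]
  constructor
  · apply LinearMap.ext
    intro x
    have h1 := XfA_comp H hv s (-s) x
    rw [add_neg_cancel, h0] at h1
    exact h1
  · apply LinearMap.ext
    intro x
    have h1 := XfA_comp H hv (-s) s x
    rw [neg_add_cancel, h0] at h1
    exact h1

theorem XfA_ex (H : HypW C6 K) {v : LL C6 K} (hv : ∀ x, br v (br v (br v x)) = 0) (s : K)
    (x : LL C6 K) : ex (s • v) x = x + s • br v x + (2⁻¹ * s ^ 2) • br v (br v x) := by
  rw [← XfA_exl_smul]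
  unfold ex
  rw [dif_pos (XfA_inv H hv s)]
  rfl

/-- the facts on the two commuting extremal vectors of a short root -/
theorem XfA_uv (H : HypW C6 K) {a : Rt C6} (ha : sg a ≠ a) (x : LL C6 K) :
    br (e K a) (br (e K (sg a)) x) = br (e K (sg a)) (br (e K a) x) ∧
    br (e K a) (br (e K a) (br (e K (sg a)) x)) = 0 ∧
    br (e K (sg a)) (br (e K a) (br (e K a) x)) = 0 := by
  have h0 : br (e K a) (e K (sg a)) = 0 := br_e_e_zero H (cb_self a ha).ge
  have h0' : br (e K (sg a)) (e K a) = 0 := by rw [br_skew H, h0, neg_zero]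
  refine ⟨?_, ?_, ?_⟩
  · rw [jac H, h0, map_zero, LinearMap.zero_apply, zero_add]
  · rw [isExt_e H a]
    have h1 := fm_inv H (e K (sg a)) (e K a) x
    rw [h0', map_zero, LinearMap.zero_apply] at h1
    rw [neg_eq_zero.1 h1.symm, mul_zero, zero_smul]
  · rw [isExt_e H a, map_smul, h0', smul_zero]

theorem ad3 (H : HypW C6 K) (a : Rt C6) (x : LL C6 K) :
    br (Df K a) (br (Df K a) (br (Df K a) x)) = 0 := by
  by_cases ha : sg a = a
  · rw [Df_long ha, isExt_e H a x, map_smul, br_self H, smul_zero]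
  · have h3 : ∀ (b : Rt C6) (y : LL C6 K), br (e K b) (br (e K b) (br (e K b) y)) = 0 := by
      intro b y
      rw [isExt_e H b y, map_smul, br_self H, smul_zero]
    have hb : sg (sg a) ≠ sg a := (sg_ne_iff a).2 ha
    rw [Df_short ha]
    simp only [map_add, LinearMap.add_apply]
    have h1 := fun y => XfA_uv H ha y
    have h2 := fun y => XfA_uv H hb y
    simp only [sg_sg] at h2
    simp only [h3, (h1 _).2.2, (h2 _).2.1, (h2 _).2.2, add_zero, (h1 _).1]

theorem xf_apply (H : HypW C6 K) (a : Rt C6) (s : K) (x : LL C6 K) :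
    xf a s x = x + s • br (Df K a) x + (2⁻¹ * s ^ 2) • br (Df K a) (br (Df K a) x) :=
  XfA_ex H (ad3 H a) s x
theorem xf_eq_xr {a : Rt C6} (ha : sg a = a) (s : K) : xf a s = xr a s := by
  unfold xf xr
  rw [Df_long ha]
theorem xf_eq_mul (H : HypW C6 K) {a : Rt C6} (ha : sg a ≠ a) (s : K) :
    xf a s = xr a s * xr (sg a) s := by
  have hb : sg (sg a) ≠ sg a := (sg_ne_iff a).2 ha
  have h2 := two_ne H
  have h3 : ∀ (b : Rt C6) (y : LL C6 K), br (e K b) (br (e K b) (br (e K b) y)) = 0 := by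
    intro b y
    rw [isExt_e H b y, map_smul, br_self H, smul_zero]
  apply LinearEquiv.ext
  intro x
  rw [LinearEquiv.mul_apply, xf_apply H]
  unfold xr
  rw [XfA_ex H (h3 a), XfA_ex H (h3 (sg a)), Df_short ha]
  have h1 := fun y => XfA_uv H ha y
  have h2' := fun y => XfA_uv H hb y
  simp only [sg_sg] at h2'
  simp only [map_add, map_smul, LinearMap.add_apply, (h1 _).2.1, (h2' _).2.2, ← (h1 _).1,
    smul_zero, add_zero, smul_add]
  match_scalars <;> field_simp <;> ring
theorem xf_mem_GF (H : HypW C6 K) (a : Rt C6) (s : K) : xf a s ∈ GF K := by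
  have h1 : xf a s ∈ GG C6 K := by
    by_cases ha : sg a = a
    · rw [xf_eq_xr ha]
      exact xr_mem_GG H a s
    · rw [xf_eq_mul H ha]
      exact mul_mem (xr_mem_GG H _ _) (xr_mem_GG H _ _)
  have h2 : Sg K (Df K a) = Df K a := (mem_LF _).1 (Df_mem a)
  refine mem_GF h1 fun x => ?_
  rw [xf_apply H, xf_apply H, map_add, map_add, map_smul, map_smul, Sg_br, Sg_br, Sg_br, h2]
theorem xf_zero (H : HypW C6 K) (a : Rt C6) : xf a (0 : K) = 1 := by
  unfold xf
  rw [zero_smul, ex_zero H]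
theorem xf_add (H : HypW C6 K) (a : Rt C6) (s t : K) : xf a (s + t) = xf a s * xf a t := by
  apply LinearEquiv.ext
  intro x
  rw [LinearEquiv.mul_apply, xf_apply H, xf_apply H, xf_apply H, ← XfA_exl_smul, ← XfA_exl_smul,
    ← XfA_exl_smul, XfA_comp H (ad3 H a)]
theorem xf_neg (H : HypW C6 K) (a : Rt C6) (s : K) : xf a (-s) = (xf a s)⁻¹ := by
  have h1 := xf_add H a (-s) s
  rw [neg_add_cancel, xf_zero H] at h1
  exact eq_inv_of_mul_eq_one_left h1.symm
theorem xf_pow (H : HypW C6 K) (a : Rt C6) (s : K) (k : ℕ) : xf a s ^ k = xf a (k * s) := by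
  induction k with
  | zero => rw [pow_zero, Nat.cast_zero, zero_mul, xf_zero H]
  | succ k ih => rw [pow_succ, ih, Nat.cast_succ, add_mul, one_mul, xf_add H]
theorem xf_sg (a : Rt C6) (s : K) : xf (sg a) s = xf a s := by
  unfold xf
  rw [Df_sg]
theorem xf_Eq4 {a b : Rt C6} (h : Eq4 a b) (s : K) : xf b s = xf a s := by
  unfold xf
  rw [Df_Eq4 h]
theorem XfA_xf_hh (H : HypW C6 K) (a : Rt C6) (s : K) (h : Fin 6 → K) (hs : sv h = h) :
    xf a s (hh C6 h) = hh C6 h - (s * fk C6 h (zk a.1)) • Df K a := by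
  have h1 : br (Df K a) (hh C6 h) = -(fk C6 h (zk a.1) • Df K a) := by
    rw [br_skew H, br_h_D h hs]
  rw [xf_apply H, h1, map_neg, map_smul, br_self H]
  module
theorem xf_inj (H : HypW C6 K) (a : Rt C6) {s t : K} (h : xf a s = xf a t) : s = t := by
  have hs : sv (zk (cv a) : Fin 6 → K) = zk (cv a) := by rw [← zk_sv, sv_cv]
  have h1 : xf a s (hh C6 (zk (cv a))) = xf a t (hh C6 (zk (cv a))) := by rw [h]
  have h2 : fk C6 (zk (cv a) : Fin 6 → K) (zk a.1) = 2 := by
    rw [fk_zk_zk]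
    have h3 : ip C6 (cv a) a.1 = 2 := dg_self a
    rw [h3]
    norm_num
  rw [XfA_xf_hh H a s _ hs, XfA_xf_hh H a t _ hs, h2, sub_right_inj] at h1
  have h4 := smul_left_injective K (Df_ne_zero (K := K) a) h1
  exact mul_right_cancel₀ (two_ne H) h4
theorem conj_ex4 {g : LL C6 K ≃ₗ[K] LL C6 K} (hg : g ∈ GG C6 K) (v : LL C6 K) :
    g * ex v * g⁻¹ = ex (g v) := by
  have h1 : ∀ (w x : LL C6 K), g (exl w x) = exl (g w) (g x) := by
    intro w x
    have h : ∀ w x : LL C6 K, exl w x = x + br w x + (2⁻¹ : K) • br w (br w x) := fun _ _ => rfl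
    rw [h, h, map_add, map_add, map_smul, hg.1, hg.1, hg.1]
  have hgi : ∀ x, g (g⁻¹ x) = x := fun x => g.apply_symm_apply x
  have h2 : ∀ w : LL C6 K, (exl w).comp (exl (-w)) = LinearMap.id ↔
      (exl (g w)).comp (exl (-g w)) = LinearMap.id := by
    intro w
    constructor
    · intro h
      apply LinearMap.ext
      intro x
      have h3 := congrArg g (LinearMap.congr_fun h (g⁻¹ x))
      rw [LinearMap.comp_apply, h1, h1, LinearMap.id_apply, hgi, map_neg] at h3
      exact h3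
    · intro h
      apply LinearMap.ext
      intro x
      apply g.injective
      rw [LinearMap.comp_apply, h1, h1, map_neg]
      exact LinearMap.congr_fun h (g x)
  have h3 : ∀ w : LL C6 K, (exl (-w)).comp (exl w) = LinearMap.id ↔
      (exl (-g w)).comp (exl (g w)) = LinearMap.id := by
    intro w
    have h4 := h2 (-w)
    rw [neg_neg, map_neg, neg_neg] at h4
    exact h4
  apply LinearEquiv.ext
  intro x
  rw [LinearEquiv.mul_apply, LinearEquiv.mul_apply]
  unfold ex
  by_cases h : (exl v).comp (exl (-v)) = LinearMap.id ∧ (exl (-v)).comp (exl v) = LinearMap.id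
  · rw [dif_pos h, dif_pos ⟨(h2 v).1 h.1, (h3 v).1 h.2⟩]
    show g (exl v (g⁻¹ x)) = exl (g v) x
    rw [h1, hgi]
  · rw [dif_neg h, dif_neg fun h' => h ⟨(h2 v).2 h'.1, (h3 v).2 h'.2⟩]
    exact hgi x
theorem conj_xf {g : LL C6 K ≃ₗ[K] LL C6 K} (hg : g ∈ GG C6 K) {a b : Rt C6} {k : K}
    (h : g (Df K a) = k • Df K b) (s : K) : g * xf a s * g⁻¹ = xf b (k * s) := by
  unfold xf
  rw [conj_ex4 hg, map_smul, h, smul_smul, mul_comm s k]
/-- the conjugate root groups -/
theorem ex_GD (H : HypW C6 K) {g : LL C6 K ≃ₗ[K] LL C6 K} (hg : g ∈ GG C6 K) (a : Rt C6) (s : K) :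
    g * xf a s * g⁻¹ = ex (s • g (Df K a)) ∧
    (∀ x, ex (s • g (Df K a)) x = x + s • br (g (Df K a)) x +
      (2⁻¹ * s ^ 2) • br (g (Df K a)) (br (g (Df K a)) x)) ∧
    ∀ x, br (g (Df K a)) (br (g (Df K a)) (br (g (Df K a)) x)) = 0 := by
  have hgi : ∀ x, g (g⁻¹ x) = x := fun x => g.apply_symm_apply x
  have h1 : g * xf a s * g⁻¹ = ex (s • g (Df K a)) := by
    unfold xf
    rw [conj_ex4 hg, map_smul]
  have h3 : ∀ x, br (g (Df K a)) (br (g (Df K a)) (br (g (Df K a)) x)) = 0 := by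
    intro x
    have h4 := congrArg g (ad3 H a (g⁻¹ x))
    rw [hg.1, hg.1, hg.1, hgi, map_zero] at h4
    exact h4
  exact ⟨h1, XfA_ex H h3 s, h3⟩

/-- an invariant vector acting trivially is zero -/
theorem XfA_center (H : HypW C6 K) {z : LL C6 K} (hz : z ∈ LF K) (h : ∀ x, br z x = 0) : z = 0 := by
  have h1 : z.2 = 0 := by
    funext r
    obtain ⟨y, hy⟩ := exists_one H r
    have h2 := br_hh_snd (zk y.1) z r
    rw [br_skew H, h, neg_zero, fk_zk_zk, hy, Int.cast_one, one_mul] at h2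
    exact h2.symm
  have h2 : z = hh C6 z.1 := Prod.ext rfl h1
  have h3 : z.1 = 0 := by
    refine nds H ((mem_LF' z).1 hz).1 fun a => ?_
    have h4 := h (e K a)
    rw [h2, br_hh_e] at h4
    exact (smul_eq_zero.1 h4).resolve_right (e_ne_zero a)
  exact Prod.ext h3 h1

theorem XfA_ad (H : HypW C6 K) {D D' : LL C6 K} (h : ∀ (s : K) (x : LL C6 K),
    x + s • br D x + (2⁻¹ * s ^ 2) • br D (br D x) =
      x + s • br D' x + (2⁻¹ * s ^ 2) • br D' (br D' x)) (x : LL C6 K) : br D x = br D' x := by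
  have h1 := h 1 x
  have h2 := h (-1) x
  have h3 : (2 : K) • br D x = (2 : K) • br D' x := by
    calc (2 : K) • br D x = (x + (1 : K) • br D x + (2⁻¹ * (1 : K) ^ 2) • br D (br D x)) -
          (x + (-1 : K) • br D x + (2⁻¹ * (-1 : K) ^ 2) • br D (br D x)) := by module
      _ = _ := by rw [h1, h2]
      _ = (2 : K) • br D' x := by module
  exact smul_right_injective _ (two_ne H) h3

theorem ad_inj_ex (H : HypW C6 K) {g g' : LL C6 K ≃ₗ[K] LL C6 K} (hg : g ∈ GF K) (hg' : g' ∈ GF K)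
    {a a' : Rt C6} (h : ∀ s : K, g * xf a s * g⁻¹ = g' * xf a' s * g'⁻¹) :
    g (Df K a) = g' (Df K a') := by
  have h1 := XfA_ad H (D := g (Df K a)) (D' := g' (Df K a')) fun s x => by
    obtain ⟨e1, e2, -⟩ := ex_GD H (GF_le_GG hg) a s
    obtain ⟨e1', e2', -⟩ := ex_GD H (GF_le_GG hg') a' s
    rw [← e2 x, ← e2' x, ← e1, ← e1', h s]
  have h2 : g (Df K a) - g' (Df K a') ∈ LF K :=
    sub_mem ((GF_LF hg _).2 (Df_mem a)) ((GF_LF hg' _).2 (Df_mem a'))
  refine sub_eq_zero.1 (XfA_center H h2 fun x => ?_)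
  rw [map_sub, LinearMap.sub_apply, h1 x, sub_self]

theorem XfA_commute (H : HypW C6 K) {D D' : LL C6 K} (h : br D D' = 0) (s t : K) (x : LL C6 K) :
    exl (s • D) (exl (t • D') x) = exl (t • D') (exl (s • D) x) := by
  have h1 : ∀ y, br D (br D' y) = br D' (br D y) := by
    intro y
    rw [jac H, h, map_zero, LinearMap.zero_apply, zero_add]
  rw [XfA_exl_smul, XfA_exl_smul, XfA_exl_smul, XfA_exl_smul]
  simp only [map_add, map_smul, h1, smul_add]
  module

/-- commuting root groups and brackets -/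
theorem comm_iff (H : HypW C6 K) {g g' : LL C6 K ≃ₗ[K] LL C6 K} (hg : g ∈ GF K) (hg' : g' ∈ GF K)
    (a a' : Rt C6) : br (g (Df K a)) (g' (Df K a')) = 0 ↔
    ∀ s s' : K, (g * xf a s * g⁻¹) * (g' * xf a' s' * g'⁻¹) =
      (g' * xf a' s' * g'⁻¹) * (g * xf a s * g⁻¹) := by
  constructor
  · intro h s s'
    obtain ⟨e1, e2, -⟩ := ex_GD H (GF_le_GG hg) a s
    obtain ⟨e1', e2', -⟩ := ex_GD H (GF_le_GG hg') a' s'
    apply LinearEquiv.ext
    intro x
    rw [e1, e1', LinearEquiv.mul_apply, LinearEquiv.mul_apply, e2, e2', e2, e2', ← XfA_exl_smul,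
      ← XfA_exl_smul, ← XfA_exl_smul, ← XfA_exl_smul, XfA_commute H h]
  · intro h
    have h1 : ∀ s : K, (g * xf a s * g⁻¹) (g' (Df K a')) = g' (Df K a') := by
      intro s
      have hs : g * xf a s * g⁻¹ ∈ GF K := mul_mem (mul_mem hg (xf_mem_GF H a s)) (inv_mem hg)
      refine ad_inj_ex H (g := g * xf a s * g⁻¹ * g') (mul_mem hs hg') hg' (a := a') (a' := a')
        fun s' => ?_
      have h2 := h s s'
      calc g * xf a s * g⁻¹ * g' * xf a' s' * (g * xf a s * g⁻¹ * g')⁻¹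
          = (g * xf a s * g⁻¹) * (g' * xf a' s' * g'⁻¹) * (g * xf a s * g⁻¹)⁻¹ := by group
        _ = (g' * xf a' s' * g'⁻¹) * (g * xf a s * g⁻¹) * (g * xf a s * g⁻¹)⁻¹ := by rw [h2]
        _ = g' * xf a' s' * g'⁻¹ := by group
    have h2 : ∀ s : K, g' (Df K a') + s • br (g (Df K a)) (g' (Df K a')) + (2⁻¹ * s ^ 2) •
        br (g (Df K a)) (br (g (Df K a)) (g' (Df K a'))) = g' (Df K a') := by
      intro s
      obtain ⟨e1, e2, -⟩ := ex_GD H (GF_le_GG hg) a s
      rw [← e2, ← e1]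
      exact h1 s
    have h3 : (2 : K) • br (g (Df K a)) (g' (Df K a')) = 0 := by
      calc (2 : K) • br (g (Df K a)) (g' (Df K a')) =
          (g' (Df K a') + (1 : K) • br (g (Df K a)) (g' (Df K a')) + (2⁻¹ * (1 : K) ^ 2) •
          br (g (Df K a)) (br (g (Df K a)) (g' (Df K a')))) -
          (g' (Df K a') + (-1 : K) • br (g (Df K a)) (g' (Df K a')) + (2⁻¹ * (-1 : K) ^ 2) •
          br (g (Df K a)) (br (g (Df K a)) (g' (Df K a')))) := by module
        _ = 0 := by rw [h2, h2, sub_self]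
    exact (smul_eq_zero.1 h3).resolve_left (two_ne H)

/-! action on root vectors -/
theorem xf_hh (H : HypW C6 K) (a : Rt C6) (s : K) (h : Fin 6 → K) (hs : sv h = h) :
    xf a s (hh C6 h) = hh C6 h - (s * fk C6 h (zk a.1)) • Df K a := XfA_xf_hh H a s h hs
theorem xf_wf_fix (H : HypW C6 K) (a b : Rt C6) (h : 0 ≤ dg a b) (s : K) :
    xf a s (wf K b) = wf K b := by
  rw [xf_apply H, br_Dw_long H h]
  simp
/-- `p_b` is fixed by `X_a` if `dg a b ≥ 0` -/
theorem xf_pv_fix (H : HypW C6 K) (a b : Rt C6) (h : 0 ≤ dg a b) (s : K) :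
    xf a s (pv K b) = pv K b := by
  by_cases hb : sg b = b
  · have h0 : br (Df K a) (Df K b) = 0 := by
      refine br_DD_zero H (fun c hc => ?_) fun h' => ?_
      · rcases sm_cases hc with h1 | h1 | h1 | h1 | h1
        · omega
        · exact h1.2.1 hb
        · exact h1.2.1 hb
        · exact h1.2.1 hb
        · omega
      · have h1 : dg a b = -2 := by
          rcases h' with h' | h'
          · rw [h', dg_ng_right, dg_self]
          · rw [h', dg_sg_right, dg_ng_right, dg_self]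
        omega
    rw [pv_long hb, ← Df_long hb, xf_apply H, h0]
    simp
  · rw [pv_short hb]
    exact xf_wf_fix H a b h s
/-- commuting root groups -/
theorem xf_commute (H : HypW C6 K) (a b : Rt C6) (h : ∀ c, ¬ Sm a b c) (h' : ¬ Eq4 (ng a) b)
    (s t : K) : xf a s * xf b t = xf b t * xf a s := by
  have h0 : br (Df K a) (Df K b) = 0 := br_DD_zero H h h'
  apply LinearEquiv.ext
  intro x
  rw [LinearEquiv.mul_apply, LinearEquiv.mul_apply, xf_apply H, xf_apply H, xf_apply H,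
    xf_apply H, ← XfA_exl_smul, ← XfA_exl_smul, ← XfA_exl_smul, ← XfA_exl_smul,
    XfA_commute H h0]

end Pool.Agent.H31.F4
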