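import Pool.Agent.H31.F4.Tor4
import Pool.Agent.H31.F4.DBr
import Pool.Agent.H31.F4.XfA
import Pool.Agent.H31.F4.Lpos

/-!
# FF-71: the matrix model of the short `sl_3` (adapt EL/CCh.lean: `e` becomes `Df`, `hh (zk a)` becomes `hh (zk (cv a))`)

Short roots `a, b, c` with `c = a + b`, `dg a b = -1`.  `J4 a b c : M_3(K) → LL` maps `E01 ↦ Df a`, `E12 ↦ Df b`,
`E02 ↦ ε(a,b) Df c`, `E10 ↦ -Df (-a)`, `E21 ↦ -Df (-b)`, `E20 ↦ ε(b,a) Df (-c)`,
`E00 - E11 ↦ hh (zk (cv a))`, `E11 - E22 ↦ hh (zk (cv b))`; on trace zero matrices it is an injective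
homomorphism of Lie algebras.  (It is the diagonal of the two commuting models of EL/CCh.lean for `a, b, c` and
`sg a, sg b, sg c`: `ip a b = -1`, `ip a (sg b) = 0`, `ip a (sg a) = 0`, so all brackets between the two are zero; `ek_sv`.)
Injective: coordinates at the six roots, and `zk (cv a)`, `zk (cv b)` are independent: pair `x zk (cv a) + y zk (cv b)` with
`zk` of roots: `fk (zk (cv g)) (zk d) = dg g d`; choose roots `d` with `dg a d = 1, dg b d = 0` and reversed (finite check, or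
`T4`-like arguments; in characteristic 3 the roots `± a, ± b, ± c` themselves are not enough).
`Cj4 g f`: `f (J4 M) = J4 (g M g⁻¹)` for trace zero `M`; `Aj4 g f`: `f (J4 M) = -J4 (g Mᵀ g⁻¹)`.
`J4_xf`: for each `d ∈ S6`, `xf d s` is conjugation by an elementary matrix: as `J_xr` in EL/CCh.lean
(`xf d s = 1 + s ad + (s²/2) ad²`, `xf_apply`).
-/

namespace Pool.Agent.H31.F4

open Pool.Agent.H33.EL (ip cc eps Rt ng zk ek fk LL hh e brf fmf br fm IsExt exl ex xr hd L0 GG T1 TT NN SF cj wt)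

variable {K : Type} [Field K]

/-- three short roots forming a root system of type A_2 -/
structure Tri (a b c : Rt C6) : Prop where
  sa : sg a ≠ a
  sb : sg b ≠ b
  sc : sg c ≠ c
  dab : dg a b = -1
  hc : c.1 = a.1 + b.1

/-- the six roots (twelve as roots of E_6) -/
def S6 (a b c : Rt C6) : Set (Rt C6) :=
  {d | Eq4 a d ∨ Eq4 (ng a) d ∨ Eq4 b d ∨ Eq4 (ng b) d ∨ Eq4 c d ∨ Eq4 (ng c) d}

/-- the matrix model -/
def J4 (K : Type) [Field K] (a b c : Rt C6) : Matrix (Fin 3) (Fin 3) K →ₗ[K] LL C6 K where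
  toFun M := M 0 1 • Df K a + M 1 2 • Df K b + M 0 2 • (ek K C6 a.1 b.1 • Df K c) +
    M 1 0 • (-Df K (ng a)) + M 2 1 • (-Df K (ng b)) + M 2 0 • (ek K C6 b.1 a.1 • Df K (ng c)) +
    M 0 0 • hh C6 (zk (cv a)) + (M 0 0 + M 1 1) • hh C6 (zk (cv b))
  map_add' M N := by
    simp only [Matrix.add_apply, add_smul]
    abel
  map_smul' k M := by
    simp only [Matrix.smul_apply, smul_eq_mul, mul_smul, add_smul, smul_add, RingHom.id_apply]

/-- conjugation type -/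
def Cj4 (a b c : Rt C6) (g : (Matrix (Fin 3) (Fin 3) K)ˣ) (f : LL C6 K ≃ₗ[K] LL C6 K) : Prop :=
  ∀ M : Matrix (Fin 3) (Fin 3) K, M.trace = 0 →
    f (J4 K a b c M) = J4 K a b c ((g : Matrix (Fin 3) (Fin 3) K) * M *
      ((g⁻¹ : (Matrix (Fin 3) (Fin 3) K)ˣ) : Matrix (Fin 3) (Fin 3) K))

/-- graph type -/
def Aj4 (a b c : Rt C6) (g : (Matrix (Fin 3) (Fin 3) K)ˣ) (f : LL C6 K ≃ₗ[K] LL C6 K) : Prop :=
  ∀ M : Matrix (Fin 3) (Fin 3) K, M.trace = 0 →
    f (J4 K a b c M) = -J4 K a b c ((g : Matrix (Fin 3) (Fin 3) K) * M.transpose *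
      ((g⁻¹ : (Matrix (Fin 3) (Fin 3) K)ˣ) : Matrix (Fin 3) (Fin 3) K))

variable {a b c : Rt C6}

/-- the span of eight elements with the structure constants of `sl_3` -/
theorem CCh4_abs {L : Type*} [AddCommGroup L] [Module K L] (B : L →ₗ[K] L →ₗ[K] L)
    (sk : ∀ x y, B x y = -B y x) (sf : ∀ x, B x x = 0) {ea eb ec fa fb fc ha hb : L}
    (t1 : B ea eb = ec) (t2 : B ea ec = 0) (t3 : B ea fa = ha) (t4 : B ea fb = 0)
    (t5 : B ea fc = -fb) (t6 : B eb ec = 0) (t7 : B eb fa = 0) (t8 : B eb fb = hb)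
    (t9 : B eb fc = fa) (t10 : B ec fa = -eb) (t11 : B ec fb = ea) (t12 : B ec fc = ha + hb)
    (t13 : B fa fb = -fc) (t14 : B fa fc = 0) (t15 : B fb fc = 0)
    (s1 : B ha ea = (2 : K) • ea) (s2 : B ha eb = -eb) (s3 : B ha ec = ec)
    (s4 : B ha fa = -((2 : K) • fa)) (s5 : B ha fb = fb) (s6 : B ha fc = -fc)
    (s7 : B hb ea = -ea) (s8 : B hb eb = (2 : K) • eb) (s9 : B hb ec = ec)
    (s10 : B hb fa = fa) (s11 : B hb fb = -((2 : K) • fb)) (s12 : B hb fc = -fc)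
    (s13 : B ha hb = 0) (M N : Matrix (Fin 3) (Fin 3) K) (hM : M 2 2 = -(M 0 0 + M 1 1))
    (hN : N 2 2 = -(N 0 0 + N 1 1)) :
    B (M 0 1 • ea + M 1 2 • eb + M 0 2 • ec + M 1 0 • fa + M 2 1 • fb + M 2 0 • fc + M 0 0 • ha +
        (M 0 0 + M 1 1) • hb)
      (N 0 1 • ea + N 1 2 • eb + N 0 2 • ec + N 1 0 • fa + N 2 1 • fb + N 2 0 • fc + N 0 0 • ha +
        (N 0 0 + N 1 1) • hb) =
      (M * N - N * M) 0 1 • ea + (M * N - N * M) 1 2 • eb + (M * N - N * M) 0 2 • ec +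
        (M * N - N * M) 1 0 • fa + (M * N - N * M) 2 1 • fb + (M * N - N * M) 2 0 • fc +
        (M * N - N * M) 0 0 • ha + ((M * N - N * M) 0 0 + (M * N - N * M) 1 1) • hb := by
  have u1 : B eb ea = -ec := by rw [sk, t1]
  have u2 : B ec ea = 0 := by rw [sk, t2, neg_zero]
  have u3 : B fa ea = -ha := by rw [sk, t3]
  have u4 : B fb ea = 0 := by rw [sk, t4, neg_zero]
  have u5 : B fc ea = fb := by rw [sk, t5, neg_neg]
  have u6 : B ec eb = 0 := by rw [sk, t6, neg_zero]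
  have u7 : B fa eb = 0 := by rw [sk, t7, neg_zero]
  have u8 : B fb eb = -hb := by rw [sk, t8]
  have u9 : B fc eb = -fa := by rw [sk, t9]
  have u10 : B fa ec = eb := by rw [sk, t10, neg_neg]
  have u11 : B fb ec = -ea := by rw [sk, t11]
  have u12 : B fc ec = -(ha + hb) := by rw [sk, t12]
  have u13 : B fb fa = fc := by rw [sk, t13, neg_neg]
  have u14 : B fc fa = 0 := by rw [sk, t14, neg_zero]
  have u15 : B fc fb = 0 := by rw [sk, t15, neg_zero]
  have v1 : B ea ha = -((2 : K) • ea) := by rw [sk, s1]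
  have v2 : B eb ha = eb := by rw [sk, s2, neg_neg]
  have v3 : B ec ha = -ec := by rw [sk, s3]
  have v4 : B fa ha = (2 : K) • fa := by rw [sk, s4, neg_neg]
  have v5 : B fb ha = -fb := by rw [sk, s5]
  have v6 : B fc ha = fc := by rw [sk, s6, neg_neg]
  have v7 : B ea hb = ea := by rw [sk, s7, neg_neg]
  have v8 : B eb hb = -((2 : K) • eb) := by rw [sk, s8]
  have v9 : B ec hb = -ec := by rw [sk, s9]
  have v10 : B fa hb = -fa := by rw [sk, s10]
  have v11 : B fb hb = (2 : K) • fb := by rw [sk, s11, neg_neg]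
  have v12 : B fc hb = fc := by rw [sk, s12, neg_neg]
  have v13 : B hb ha = 0 := by rw [sk, s13, neg_zero]
  simp only [map_add, map_smul, LinearMap.add_apply, LinearMap.smul_apply, sf, t1, t2, t3, t4, t5,
    t6, t7, t8, t9, t10, t11, t12, t13, t14, t15, s1, s2, s3, s4, s5, s6, s7, s8, s9, s10, s11,
    s12, s13, u1, u2, u3, u4, u5, u6, u7, u8, u9, u10, u11, u12, u13, u14, u15, v1, v2, v3, v4,
    v5, v6, v7, v8, v9, v10, v11, v12, v13, Matrix.sub_apply, Matrix.mul_apply,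
    Fin.sum_univ_three, hM, hN]
  module

/-- the inner products and Cartan integers -/
structure CCh4_D (a b c : Rt C6) : Prop where
  ab : ip C6 a.1 b.1 = -1
  ba : ip C6 b.1 a.1 = -1
  ac : ip C6 a.1 c.1 = 1
  ca : ip C6 c.1 a.1 = 1
  bc : ip C6 b.1 c.1 = 1
  cb : ip C6 c.1 b.1 = 1
  aa : ip C6 a.1 a.1 = 2
  bb : ip C6 b.1 b.1 = 2
  cc : ip C6 c.1 c.1 = 2
  saa : ip C6 a.1 (sg a).1 = 0
  sbb : ip C6 b.1 (sg b).1 = 0
  scc : ip C6 c.1 (sg c).1 = 0
  sab : ip C6 a.1 (sg b).1 = 0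
  sba : ip C6 b.1 (sg a).1 = 0
  sac : ip C6 a.1 (sg c).1 = 0
  sca : ip C6 c.1 (sg a).1 = 0
  sbc : ip C6 b.1 (sg c).1 = 0
  scb : ip C6 c.1 (sg b).1 = 0
  daa : dg a a = 2
  dab : dg a b = -1
  dac : dg a c = 1
  dba : dg b a = -1
  dbb : dg b b = 2
  dbc : dg b c = 1

theorem CCh4_data (T : Tri a b c) : CCh4_D a b c := by
  have h1 : ip C6 a.1 b.1 = -1 := ip_of_root_add Comb_H (by rw [← T.hc]; exact c.2)
  have h2 : ip C6 b.1 a.1 = -1 := by rw [Comb_comm, h1]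
  have haa : ip C6 a.1 a.1 = 2 := a.2
  have hbb : ip C6 b.1 b.1 = 2 := b.2
  have hcc : ip C6 c.1 c.1 = 2 := c.2
  have h3 : ip C6 a.1 c.1 = 1 := by rw [T.hc, ip_add_right, haa, h1]; norm_num
  have h4 : ip C6 b.1 c.1 = 1 := by rw [T.hc, ip_add_right, hbb, h2]; norm_num
  have saa := cb_self a T.sa
  have sbb := cb_self b T.sb
  have scc := cb_self c T.sc
  have sab : ip C6 a.1 (sg b).1 = 0 := by
    have := dg_short a b T.sa
    rw [T.dab, h1] at this
    omega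
  have sba : ip C6 b.1 (sg a).1 = 0 := by rw [Comb_symm_s, sab]
  have hsc : (sg c).1 = (sg a).1 + (sg b).1 := by
    rw [Comb_sg_val, Comb_sg_val, Comb_sg_val, T.hc, Comb_sv_add]
  have sac : ip C6 a.1 (sg c).1 = 0 := by rw [hsc, ip_add_right, saa, sab]; norm_num
  have sbc : ip C6 b.1 (sg c).1 = 0 := by rw [hsc, ip_add_right, sba, sbb]; norm_num
  have dba : dg b a = -1 := by
    rw [dg_short b a T.sb, h2, sba]
    norm_num
  have dac : dg a c = 1 := by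
    rw [dg_short a c T.sa, h3, sac]
    norm_num
  have dbc : dg b c = 1 := by
    rw [dg_short b c T.sb, h4, sbc]
    norm_num
  exact ⟨h1, h2, h3, by rw [Comb_comm, h3], h4, by rw [Comb_comm, h4], haa, hbb, hcc, saa, sbb,
    scc, sab, sba, sac, by rw [Comb_symm_s, sac], sbc, by rw [Comb_symm_s, sbc], dg_self a,
    T.dab, dac, dba, dg_self b, dbc⟩

theorem CCh4_ngs {x : Rt C6} (h : sg x ≠ x) : sg (ng x) ≠ ng x := fun h' => h ((sg_ng_iff x).1 h')

theorem CCh4_sng (x : Rt C6) : (sg (ng x)).1 = -(sg x).1 := by rw [sg_ng, ng_val]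

theorem CCh4_DD (H : HypW C6 K) {x y : Rt C6} (hx : sg x ≠ x) (hy : sg y ≠ y)
    (h : ip C6 x.1 (sg y).1 = 0) :
    br (Df K x) (Df K y) = br (e K x) (e K y) + Sg K (br (e K x) (e K y)) := by
  have h1 : br (e K x) (e K (sg y)) = 0 := br_e_e_zero H h.ge
  have h2 : br (e K (sg x)) (e K y) = 0 := br_e_e_zero H (by rw [Comb_sg_left]; exact h.ge)
  rw [Df_short hx, Df_short hy, Sg_br, Sg_e, Sg_e, map_add, map_add, LinearMap.add_apply,
    LinearMap.add_apply, h1, h2, add_zero, zero_add]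

theorem CCh4_add (H : HypW C6 K) {x y z : Rt C6} (hx : sg x ≠ x) (hy : sg y ≠ y)
    (hz : sg z ≠ z) (h : ip C6 x.1 (sg y).1 = 0) (h' : z.1 = x.1 + y.1) :
    br (Df K x) (Df K y) = ek K C6 x.1 y.1 • Df K z := by
  rw [CCh4_DD H hx hy h, br_e_e_add H h', map_smul, Sg_e, Df_short hz, smul_add]

theorem CCh4_zero (H : HypW C6 K) {x y : Rt C6} (hx : sg x ≠ x) (hy : sg y ≠ y)
    (h : ip C6 x.1 (sg y).1 = 0) (h' : 0 ≤ ip C6 x.1 y.1) : br (Df K x) (Df K y) = 0 := by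
  rw [CCh4_DD H hx hy h, br_e_e_zero H h', map_zero, add_zero]

theorem CCh4_h (x y : Rt C6) {k : ℤ} (h : dg x y = k) :
    br (hh C6 (zk (cv x))) (Df K y) = (k : K) • Df K y := by
  rw [br_h_D _ (by rw [← zk_sv, sv_cv]), fk_zk_zk]
  show ((dg x y : ℤ) : K) • _ = _
  rw [h]

theorem CCh4_cv (T : Tri a b c) : cv c = cv a + cv b := by
  unfold cv
  rw [if_neg T.sa, if_neg T.sb, if_neg T.sc, Comb_sg_val, Comb_sg_val, Comb_sg_val, T.hc,
    Comb_sv_add]
  abel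

theorem CCh4_eq (M : Matrix (Fin 3) (Fin 3) K) :
    J4 K a b c M = M 0 1 • Df K a + M 1 2 • Df K b + M 0 2 • (ek K C6 a.1 b.1 • Df K c) +
    M 1 0 • (-Df K (ng a)) + M 2 1 • (-Df K (ng b)) + M 2 0 • (ek K C6 b.1 a.1 • Df K (ng c)) +
    M 0 0 • hh C6 (zk (cv a)) + (M 0 0 + M 1 1) • hh C6 (zk (cv b)) := rfl

theorem CCh4_tr22 {M : Matrix (Fin 3) (Fin 3) K} (hM : M.trace = 0) :
    M 2 2 = -(M 0 0 + M 1 1) := by
  rw [Matrix.trace_fin_three] at hM
  linear_combination hM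

theorem CCh4_snd (M : Matrix (Fin 3) (Fin 3) K) (r : Rt C6) :
    (J4 K a b c M).2 r = M 0 1 * (if Eq4 a r then 1 else 0) + M 1 2 * (if Eq4 b r then 1 else 0) +
      M 0 2 * ek K C6 a.1 b.1 * (if Eq4 c r then 1 else 0) -
      M 1 0 * (if Eq4 (ng a) r then 1 else 0) - M 2 1 * (if Eq4 (ng b) r then 1 else 0) +
      M 2 0 * ek K C6 b.1 a.1 * (if Eq4 (ng c) r then 1 else 0) := by
  rw [CCh4_eq]
  simp only [Prod.snd_add, Prod.smul_snd, Prod.snd_neg, Pi.add_apply, Pi.neg_apply,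
    Pi.smul_apply, smul_eq_mul, Df_snd, hh_snd, mul_zero, add_zero]
  ring

theorem CCh4_fst (M : Matrix (Fin 3) (Fin 3) K) :
    (J4 K a b c M).1 = M 0 0 • zk (cv a) + (M 0 0 + M 1 1) • zk (cv b) := by
  rw [CCh4_eq]
  simp only [Prod.fst_add, Prod.fst_neg, Prod.smul_fst, Df_fst, hh_fst, smul_zero, add_zero,
    neg_zero, zero_add]

theorem CCh4_key {x y : Rt C6} {p q p' q' : ℤ} (h1 : dg a x = p) (h2 : dg b x = q)
    (h3 : dg a y = p') (h4 : dg b y = q') (h : p ≠ p' ∨ q ≠ q') : ¬ Eq4 x y := by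
  rintro (rfl | rfl)
  · rcases h with h | h
    · exact h (h1.symm.trans h3)
    · exact h (h2.symm.trans h4)
  · rw [dg_sg_right] at h3 h4
    rcases h with h | h
    · exact h (h1.symm.trans h3)
    · exact h (h2.symm.trans h4)

/-- the values of the root coordinates -/
theorem CCh4_vals (T : Tri a b c) (M : Matrix (Fin 3) (Fin 3) K) :
    (J4 K a b c M).2 a = M 0 1 ∧ (J4 K a b c M).2 b = M 1 2 ∧
      (J4 K a b c M).2 c = M 0 2 * ek K C6 a.1 b.1 ∧ (J4 K a b c M).2 (ng a) = -M 1 0 ∧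
      (J4 K a b c M).2 (ng b) = -M 2 1 ∧ (J4 K a b c M).2 (ng c) = M 2 0 * ek K C6 b.1 a.1 := by
  have I := CCh4_data T
  have a1 := I.daa
  have a2 := I.dba
  have b1 := I.dab
  have b2 := I.dbb
  have c1 := I.dac
  have c2 := I.dbc
  have na1 : dg a (ng a) = -2 := by rw [dg_ng_right, a1]
  have na2 : dg b (ng a) = 1 := by rw [dg_ng_right, a2]; norm_num
  have nb1 : dg a (ng b) = 1 := by rw [dg_ng_right, b1]; norm_num
  have nb2 : dg b (ng b) = -2 := by rw [dg_ng_right, b2]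
  have nc1 : dg a (ng c) = -1 := by rw [dg_ng_right, c1]
  have nc2 : dg b (ng c) = -1 := by rw [dg_ng_right, c2]
  have r1 : ∀ x : Rt C6, Eq4 x x := fun x => Or.inl rfl
  refine ⟨?_, ?_, ?_, ?_, ?_, ?_⟩
  · rw [CCh4_snd, if_pos (r1 a), if_neg (CCh4_key b1 b2 a1 a2 (by norm_num)),
      if_neg (CCh4_key c1 c2 a1 a2 (by norm_num)), if_neg (CCh4_key na1 na2 a1 a2 (by norm_num)),
      if_neg (CCh4_key nb1 nb2 a1 a2 (by norm_num)), if_neg (CCh4_key nc1 nc2 a1 a2 (by norm_num))]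
    ring
  · rw [CCh4_snd, if_pos (r1 b), if_neg (CCh4_key a1 a2 b1 b2 (by norm_num)),
      if_neg (CCh4_key c1 c2 b1 b2 (by norm_num)), if_neg (CCh4_key na1 na2 b1 b2 (by norm_num)),
      if_neg (CCh4_key nb1 nb2 b1 b2 (by norm_num)), if_neg (CCh4_key nc1 nc2 b1 b2 (by norm_num))]
    ring
  · rw [CCh4_snd, if_pos (r1 c), if_neg (CCh4_key a1 a2 c1 c2 (by norm_num)),
      if_neg (CCh4_key b1 b2 c1 c2 (by norm_num)), if_neg (CCh4_key na1 na2 c1 c2 (by norm_num)),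
      if_neg (CCh4_key nb1 nb2 c1 c2 (by norm_num)), if_neg (CCh4_key nc1 nc2 c1 c2 (by norm_num))]
    ring
  · rw [CCh4_snd, if_pos (r1 (ng a)), if_neg (CCh4_key a1 a2 na1 na2 (by norm_num)),
      if_neg (CCh4_key b1 b2 na1 na2 (by norm_num)), if_neg (CCh4_key c1 c2 na1 na2 (by norm_num)),
      if_neg (CCh4_key nb1 nb2 na1 na2 (by norm_num)),
      if_neg (CCh4_key nc1 nc2 na1 na2 (by norm_num))]
    ring
  · rw [CCh4_snd, if_pos (r1 (ng b)), if_neg (CCh4_key a1 a2 nb1 nb2 (by norm_num)),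
      if_neg (CCh4_key b1 b2 nb1 nb2 (by norm_num)), if_neg (CCh4_key c1 c2 nb1 nb2 (by norm_num)),
      if_neg (CCh4_key na1 na2 nb1 nb2 (by norm_num)),
      if_neg (CCh4_key nc1 nc2 nb1 nb2 (by norm_num))]
    ring
  · rw [CCh4_snd, if_pos (r1 (ng c)), if_neg (CCh4_key a1 a2 nc1 nc2 (by norm_num)),
      if_neg (CCh4_key b1 b2 nc1 nc2 (by norm_num)), if_neg (CCh4_key c1 c2 nc1 nc2 (by norm_num)),
      if_neg (CCh4_key na1 na2 nc1 nc2 (by norm_num)),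
      if_neg (CCh4_key nb1 nb2 nc1 nc2 (by norm_num))]
    ring

/-- the transposed unit -/
def CCh4_tu (g : (Matrix (Fin 3) (Fin 3) K)ˣ) : (Matrix (Fin 3) (Fin 3) K)ˣ where
  val := (g : Matrix (Fin 3) (Fin 3) K).transpose
  inv := ((g⁻¹ : (Matrix (Fin 3) (Fin 3) K)ˣ) : Matrix (Fin 3) (Fin 3) K).transpose
  val_inv := by rw [← Matrix.transpose_mul, Units.inv_mul, Matrix.transpose_one]
  inv_val := by rw [← Matrix.transpose_mul, Units.mul_inv, Matrix.transpose_one]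

theorem CCh4_tu_val (g : (Matrix (Fin 3) (Fin 3) K)ˣ) :
    ((CCh4_tu g : (Matrix (Fin 3) (Fin 3) K)ˣ) : Matrix (Fin 3) (Fin 3) K) =
      (g : Matrix (Fin 3) (Fin 3) K).transpose := rfl

theorem CCh4_tu_inv (g : (Matrix (Fin 3) (Fin 3) K)ˣ) :
    (((CCh4_tu g)⁻¹ : (Matrix (Fin 3) (Fin 3) K)ˣ) : Matrix (Fin 3) (Fin 3) K) =
      ((g⁻¹ : (Matrix (Fin 3) (Fin 3) K)ˣ) : Matrix (Fin 3) (Fin 3) K).transpose := rfl

theorem CCh4_tr_single {i j : Fin 3} (hij : i ≠ j) :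
    (Matrix.single i j (1 : K)).trace = 0 := Matrix.trace_single_eq_of_ne i j 1 hij

/-- the values of the model at matrix units -/
theorem CCh4_unit (i j : Fin 3) (hij : i ≠ j) :
    J4 K a b c (Matrix.single i j 1) =
      (if i = 0 ∧ j = 1 then (1 : K) else 0) • Df K a +
      (if i = 1 ∧ j = 2 then (1 : K) else 0) • Df K b +
      (if i = 0 ∧ j = 2 then ek K C6 a.1 b.1 else 0) • Df K c
      - (if i = 1 ∧ j = 0 then (1 : K) else 0) • Df K (ng a) -
      (if i = 2 ∧ j = 1 then (1 : K) else 0) • Df K (ng b)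
      + (if i = 2 ∧ j = 0 then ek K C6 b.1 a.1 else 0) • Df K (ng c) := by
  rw [CCh4_eq]
  simp only [Matrix.single_apply]
  fin_cases i <;> fin_cases j <;> simp at hij ⊢

/-- the root vectors and the matrix units -/
theorem CCh4_root {d : Rt C6} (hd : d ∈ S6 a b c) :
    ∃ (i j : Fin 3) (k : K), i ≠ j ∧ k ≠ 0 ∧ Df K d = k • J4 K a b c (Matrix.single i j 1) := by
  have hp : ek K C6 a.1 b.1 * ek K C6 a.1 b.1 = 1 := ek_mul_self _ _
  have hp' : ek K C6 b.1 a.1 * ek K C6 b.1 a.1 = 1 := ek_mul_self _ _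
  rcases hd with hd | hd | hd | hd | hd | hd
  · refine ⟨0, 1, 1, by decide, one_ne_zero, ?_⟩
    rw [Df_Eq4 hd, CCh4_unit _ _ (by decide)]
    simp
  · refine ⟨1, 0, -1, by decide, neg_ne_zero.2 one_ne_zero, ?_⟩
    rw [Df_Eq4 hd, CCh4_unit _ _ (by decide)]
    simp
  · refine ⟨1, 2, 1, by decide, one_ne_zero, ?_⟩
    rw [Df_Eq4 hd, CCh4_unit _ _ (by decide)]
    simp
  · refine ⟨2, 1, -1, by decide, neg_ne_zero.2 one_ne_zero, ?_⟩
    rw [Df_Eq4 hd, CCh4_unit _ _ (by decide)]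
    simp
  · refine ⟨0, 2, ek K C6 a.1 b.1, by decide, ek_ne_zero _ _, ?_⟩
    rw [Df_Eq4 hd, CCh4_unit _ _ (by decide)]
    simp [smul_smul, hp]
  · refine ⟨2, 0, ek K C6 b.1 a.1, by decide, ek_ne_zero _ _, ?_⟩
    rw [Df_Eq4 hd, CCh4_unit _ _ (by decide)]
    simp [smul_smul, hp']

/-- elementary matrices as units -/
def CCh4_el (i j : Fin 3) (hij : i ≠ j) (s : K) : (Matrix (Fin 3) (Fin 3) K)ˣ where
  val := Matrix.transvection i j s
  inv := Matrix.transvection i j (-s)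
  val_inv := by
    rw [Matrix.transvection_mul_transvection_same _ _ hij, add_neg_cancel,
      Matrix.transvection_zero]
  inv_val := by
    rw [Matrix.transvection_mul_transvection_same _ _ hij, neg_add_cancel,
      Matrix.transvection_zero]

theorem CCh4_norm (T : Tri a b c) (p q : ℤ) :
    ip C6 (p • (a.1 + (sg a).1) + q • (b.1 + (sg b).1))
      (p • (a.1 + (sg a).1) + q • (b.1 + (sg b).1)) = 4 * (p * p + q * q - p * q) := by
  have I := CCh4_data T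
  have h1 : ip C6 (a.1 + (sg a).1) (a.1 + (sg a).1) = 4 := Comb_NS a T.sa
  have h2 : ip C6 (b.1 + (sg b).1) (b.1 + (sg b).1) = 4 := Comb_NS b T.sb
  have h3 : ip C6 (a.1 + (sg a).1) (b.1 + (sg b).1) = -2 := by
    rw [Comb_dd, I.ab, I.sab]
    norm_num
  have h4 : ip C6 (b.1 + (sg b).1) (a.1 + (sg a).1) = -2 := by rw [Comb_comm, h3]
  simp only [ip_add_left (p • (a.1 + (sg a).1)), ip_add_right _ (p • (a.1 + (sg a).1)),
    ip_smul_left, ip_smul_right, h1, h2, h3, h4]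
  ring

theorem CCh4_six {p q : ℤ} (h : p * p + q * q - p * q = 1 ∨ p * p + q * q - p * q = 2) :
    (p = 1 ∧ q = 0) ∨ (p = -1 ∧ q = 0) ∨ (p = 0 ∧ q = 1) ∨ (p = 0 ∧ q = -1) ∨
      (p = 1 ∧ q = 1) ∨ (p = -1 ∧ q = -1) := by
  have h1 : 3 * (p * p) ≤ 8 := by
    rcases h with h | h <;> nlinarith [sq_nonneg (p - 2 * q)]
  have h2 : 3 * (q * q) ≤ 8 := by
    rcases h with h | h <;> nlinarith [sq_nonneg (q - 2 * p)]
  have h3 : -1 ≤ p := by nlinarith
  have h4 : p ≤ 1 := by nlinarith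
  have h5 : -1 ≤ q := by nlinarith
  have h6 : q ≤ 1 := by nlinarith
  interval_cases p <;> interval_cases q <;> simp at h ⊢

theorem CCh4_mem (T : Tri a b c) (z : Rt C6) : z ∈ S6 a b c ↔ ∃ p q : ℤ,
    (p * p + q * q - p * q = 1 ∨ p * p + q * q - p * q = 2) ∧
      z.1 + (sg z).1 = p • (a.1 + (sg a).1) + q • (b.1 + (sg b).1) := by
  have hC : c.1 + (sg c).1 = (a.1 + (sg a).1) + (b.1 + (sg b).1) := by
    rw [Comb_sg_val, Comb_sg_val, Comb_sg_val, T.hc, Comb_sv_add]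
    abel
  have hn : ∀ x : Rt C6, (ng x).1 + (sg (ng x)).1 = -(x.1 + (sg x).1) := fun x => by
    rw [CCh4_sng, ng_val]
    abel
  constructor
  · rintro (h | h | h | h | h | h)
    · exact ⟨1, 0, by norm_num, by rw [← (Eq4_iff _ _).1 h]; simp⟩
    · exact ⟨-1, 0, by norm_num, by rw [← (Eq4_iff _ _).1 h, hn]; module⟩
    · exact ⟨0, 1, by norm_num, by rw [← (Eq4_iff _ _).1 h]; simp⟩
    · exact ⟨0, -1, by norm_num, by rw [← (Eq4_iff _ _).1 h, hn]; module⟩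
    · exact ⟨1, 1, by norm_num, by rw [← (Eq4_iff _ _).1 h, hC]; simp⟩
    · exact ⟨-1, -1, by norm_num, by rw [← (Eq4_iff _ _).1 h, hn, hC]; module⟩
  · rintro ⟨p, q, h, hz⟩
    rcases CCh4_six h with ⟨rfl, rfl⟩ | ⟨rfl, rfl⟩ | ⟨rfl, rfl⟩ | ⟨rfl, rfl⟩ | ⟨rfl, rfl⟩ |
      ⟨rfl, rfl⟩
    · refine Or.inl ((Eq4_iff _ _).2 ?_)
      rw [hz]; simp
    · refine Or.inr (Or.inl ((Eq4_iff _ _).2 ?_))
      rw [hz, hn]; module
    · refine Or.inr (Or.inr (Or.inl ((Eq4_iff _ _).2 ?_)))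
      rw [hz]; simp
    · refine Or.inr (Or.inr (Or.inr (Or.inl ((Eq4_iff _ _).2 ?_))))
      rw [hz, hn]; module
    · refine Or.inr (Or.inr (Or.inr (Or.inr (Or.inl ((Eq4_iff _ _).2 ?_)))))
      rw [hz, hC]; simp
    · refine Or.inr (Or.inr (Or.inr (Or.inr (Or.inr ((Eq4_iff _ _).2 ?_)))))
      rw [hz, hn, hC]; module

theorem J4_inj (H : HypW C6 K) (T : Tri a b c) {M : Matrix (Fin 3) (Fin 3) K}
    (hM : M.trace = 0) (h : J4 K a b c M = 0) : M = 0 := by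
  have I := CCh4_data T
  obtain ⟨v1, v2, v3, v4, v5, v6⟩ := CCh4_vals T M
  rw [h] at v1 v2 v3 v4 v5 v6
  have h01 : M 0 1 = 0 := v1.symm
  have h12 : M 1 2 = 0 := v2.symm
  have h02 : M 0 2 = 0 := by
    have h1 : M 0 2 * ek K C6 a.1 b.1 = 0 := v3.symm
    exact (mul_eq_zero.1 h1).resolve_right (ek_ne_zero _ _)
  have h10 : M 1 0 = 0 := neg_eq_zero.1 v4.symm
  have h21 : M 2 1 = 0 := neg_eq_zero.1 v5.symm
  have h20 : M 2 0 = 0 := by
    have h1 : M 2 0 * ek K C6 b.1 a.1 = 0 := v6.symm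
    exact (mul_eq_zero.1 h1).resolve_right (ek_ne_zero _ _)
  have hf := CCh4_fst (a := a) (b := b) (c := c) M
  rw [h] at hf
  have hf' : M 0 0 • (zk (cv a) : Fin 6 → K) + (M 0 0 + M 1 1) • zk (cv b) = 0 := hf.symm
  obtain ⟨y, hy, hy1, hy2⟩ := TorL_two H T.sa T.sb T.dab
  obtain ⟨z, hz, hz1, hz2⟩ := TorL_two H T.sb T.sa I.dba
  have hcv : ∀ (w : Fin 6 → ℤ) (x : Rt C6), sv w = w → sg x ≠ x →
      ip C6 w (cv x) = 2 * ip C6 w x.1 := by
    intro w x hw hx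
    unfold cv
    rw [if_neg hx, ip_add_right, Lpos_ip_sg hw]
    ring
  have e1 := congrArg (fun w => fk C6 (zk y) w) hf'
  have e2 := congrArg (fun w => fk C6 (zk z) w) hf'
  beta_reduce at e1 e2
  rw [fk_add_right, fk_smul_right, fk_smul_right, fk_zk_zk, fk_zk_zk, hcv y a hy T.sa,
    hcv y b hy T.sb, hy1, hy2, fk_zero_right] at e1
  rw [fk_add_right, fk_smul_right, fk_smul_right, fk_zk_zk, fk_zk_zk, hcv z a hz T.sa,
    hcv z b hz T.sb, hz1, hz2, fk_zero_right] at e2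
  have t2 : (2 : K) ≠ 0 := Jac_two H
  have h00 : M 0 0 = 0 := by
    push_cast at e1
    have : M 0 0 * 2 = 0 := by linear_combination e1
    exact (mul_eq_zero.1 this).resolve_right t2
  have h11 : M 1 1 = 0 := by
    push_cast at e2
    have : M 1 1 * 2 = 0 := by linear_combination e2 - 2 * h00
    exact (mul_eq_zero.1 this).resolve_right t2
  have h22 : M 2 2 = 0 := by
    rw [CCh4_tr22 hM, h00, h11]
    ring
  ext i j
  fin_cases i <;> fin_cases j <;> simp [h00, h01, h02, h10, h11, h12, h20, h21, h22]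

theorem J4_br (H : HypW C6 K) (T : Tri a b c) {M N : Matrix (Fin 3) (Fin 3) K}
    (hM : M.trace = 0) (hN : N.trace = 0) :
    br (J4 K a b c M) (J4 K a b c N) = J4 K a b c (M * N - N * M) := by
  have I := CCh4_data T
  have sna := CCh4_ngs T.sa
  have snb := CCh4_ngs T.sb
  have snc := CCh4_ngs T.sc
  have hq : ek K C6 b.1 a.1 = -ek K C6 a.1 b.1 := by
    rw [ek_comm_odd H b.1 a.1 (by rw [I.ba]; exact ⟨-1, by norm_num⟩)]
  have hp : ek K C6 a.1 b.1 * ek K C6 a.1 b.1 = 1 := ek_mul_self _ _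
  have hac : ek K C6 a.1 c.1 = -ek K C6 a.1 b.1 := by
    rw [T.hc, ek_add_right, ek_self H]
    ring
  have hbc : ek K C6 b.1 c.1 = ek K C6 a.1 b.1 := by
    rw [T.hc, ek_add_right, ek_self H, hq]
    ring
  have hca : ek K C6 c.1 a.1 = ek K C6 a.1 b.1 := by
    rw [T.hc, ek_add_left, ek_self H, hq]
    ring
  have hcb : ek K C6 c.1 b.1 = -ek K C6 a.1 b.1 := by
    rw [T.hc, ek_add_left, ek_self H]
    ring
  have nsmul : ∀ (k : K) (x y : LL C6 K), br (k • x) y = k • br x y := fun k x y => by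
    rw [map_smul, LinearMap.smul_apply]
  have nneg : ∀ (x y : LL C6 K), br (-x) y = -br x y := fun x y => by
    rw [map_neg, LinearMap.neg_apply]
  have nr : ∀ {x y : Rt C6}, ip C6 x.1 (sg y).1 = 0 → ip C6 x.1 (sg (ng y)).1 = 0 := by
    intro x y h
    rw [CCh4_sng, ip_neg_right, h, neg_zero]
  have nl : ∀ {x y : Rt C6}, ip C6 x.1 (sg y).1 = 0 → ip C6 (ng x).1 (sg y).1 = 0 := by
    intro x y h
    rw [ng_val, ip_neg_left, h, neg_zero]
  rw [CCh4_eq, CCh4_eq, CCh4_eq]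
  refine CCh4_abs br (br_skew H) (br_self H) ?_ ?_ ?_ ?_ ?_ ?_ ?_ ?_ ?_ ?_ ?_ ?_ ?_ ?_ ?_ ?_ ?_ ?_
    ?_ ?_ ?_ ?_ ?_ ?_ ?_ ?_ ?_ ?_ M N (CCh4_tr22 hM) (CCh4_tr22 hN)
  · exact CCh4_add H T.sa T.sb T.sc I.sab T.hc
  · rw [map_smul, CCh4_zero H T.sa T.sc I.sac (by rw [I.ac]; norm_num), smul_zero]
  · rw [map_neg, br_D_ng H, neg_neg]
  · rw [map_neg, CCh4_zero H T.sa snb (nr I.sab) (by rw [ng_val, ip_neg_right, I.ab]; norm_num),
      neg_zero]
  · rw [map_smul, CCh4_add H (z := ng b) T.sa snc snb (nr I.sac)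
      (by rw [ng_val, ng_val, T.hc]; abel), ng_val,
      ek_neg_right, hac, smul_smul, hq, neg_neg, neg_mul_neg, hp, one_smul]
  · rw [map_smul, CCh4_zero H T.sb T.sc I.sbc (by rw [I.bc]; norm_num), smul_zero]
  · rw [map_neg, CCh4_zero H T.sb sna (nr I.sba) (by rw [ng_val, ip_neg_right, I.ba]; norm_num),
      neg_zero]
  · rw [map_neg, br_D_ng H, neg_neg]
  · rw [map_smul, CCh4_add H (z := ng a) T.sb snc sna (nr I.sbc)
      (by rw [ng_val, ng_val, T.hc]; abel), ng_val,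
      ek_neg_right, hbc, smul_smul, hq, neg_mul, hp, neg_one_smul]
  · rw [nsmul, map_neg, CCh4_add H (z := b) T.sc sna T.sb (nr I.sca)
      (by rw [ng_val, T.hc]; abel), ng_val,
      ek_neg_right, hca, smul_neg, smul_smul, hp, one_smul]
  · rw [nsmul, map_neg, CCh4_add H (z := a) T.sc snb T.sa (nr I.scb)
      (by rw [ng_val, T.hc]; abel), ng_val,
      ek_neg_right, hcb, smul_neg, smul_smul, mul_neg, hp, neg_one_smul, neg_neg]
  · rw [nsmul, map_smul, br_D_ng H, smul_smul, hq, mul_neg, hp, neg_one_smul, neg_neg,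
      CCh4_cv T, zk_add, hh_add]
  · rw [nneg, map_neg, neg_neg, CCh4_add H (z := ng c) sna snb snc (nl (nr I.sab))
      (by rw [ng_val, ng_val, ng_val, T.hc]; abel),
      ng_val, ng_val, ek_neg_left, ek_neg_right, hq, neg_smul, neg_neg]
  · rw [nneg, map_smul, CCh4_zero H sna snc (nl (nr I.sac))
      (by rw [ng_val, ng_val, ip_neg_right, ip_neg_left, I.ac]; norm_num), smul_zero, neg_zero]
  · rw [nneg, map_smul, CCh4_zero H snb snc (nl (nr I.sbc))
      (by rw [ng_val, ng_val, ip_neg_right, ip_neg_left, I.bc]; norm_num), smul_zero, neg_zero]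
  · rw [CCh4_h a a I.daa]
    norm_num
  · rw [CCh4_h a b I.dab]
    norm_num
  · rw [map_smul, CCh4_h a c I.dac]
    norm_num
  · rw [map_neg, CCh4_h a (ng a) (k := -2) (by rw [dg_ng_right, I.daa])]
    norm_num
  · rw [map_neg, CCh4_h a (ng b) (k := 1) (by rw [dg_ng_right, I.dab]; norm_num)]
    norm_num
  · rw [map_smul, CCh4_h a (ng c) (k := -1) (by rw [dg_ng_right, I.dac])]
    norm_num
  · rw [CCh4_h b a I.dba]
    norm_num
  · rw [CCh4_h b b I.dbb]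
    norm_num
  · rw [map_smul, CCh4_h b c I.dbc]
    norm_num
  · rw [map_neg, CCh4_h b (ng a) (k := 1) (by rw [dg_ng_right, I.dba]; norm_num)]
    norm_num
  · rw [map_neg, CCh4_h b (ng b) (k := -2) (by rw [dg_ng_right, I.dbb])]
    norm_num
  · rw [map_smul, CCh4_h b (ng c) (k := -1) (by rw [dg_ng_right, I.dbc])]
    norm_num
  · exact br_hh_hh _ _

theorem Cj4_mul {g g' : (Matrix (Fin 3) (Fin 3) K)ˣ} {f f' : LL C6 K ≃ₗ[K] LL C6 K}
    (h : Cj4 a b c g f) (h' : Cj4 a b c g' f') : Cj4 a b c (g * g') (f * f') := by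
  intro M hM
  rw [LinearEquiv.mul_apply, h' M hM, h _ (by rw [Matrix.trace_units_conj]; exact hM),
    mul_inv_rev, Units.val_mul, Units.val_mul]
  simp only [mul_assoc]

theorem Cj4_inv {g : (Matrix (Fin 3) (Fin 3) K)ˣ} {f : LL C6 K ≃ₗ[K] LL C6 K}
    (h : Cj4 a b c g f) : Cj4 a b c g⁻¹ f⁻¹ := by
  intro M hM
  apply f.injective
  have h1 : ∀ z, f (f⁻¹ z) = z := fun z => f.apply_symm_apply z
  rw [h1, inv_inv, h _ (by rw [Matrix.trace_units_conj']; exact hM)]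
  congr 1
  simp only [← mul_assoc, Units.mul_inv, one_mul]
  simp only [mul_assoc, Units.mul_inv, mul_one]

theorem Cj4_one : Cj4 a b c (1 : (Matrix (Fin 3) (Fin 3) K)ˣ) 1 := by
  intro M _
  rw [inv_one, Units.val_one, one_mul, mul_one]
  rfl

theorem Aj4_Cj4 {g g' : (Matrix (Fin 3) (Fin 3) K)ˣ} {f f' : LL C6 K ≃ₗ[K] LL C6 K}
    (h : Aj4 a b c g f) (h' : Cj4 a b c g' f') : ∃ g'', Aj4 a b c g'' (f * f') := by
  refine ⟨g * CCh4_tu g'⁻¹, ?_⟩
  intro M hM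
  rw [LinearEquiv.mul_apply, h' M hM, h _ (by rw [Matrix.trace_units_conj]; exact hM),
    mul_inv_rev, Units.val_mul, Units.val_mul, CCh4_tu_val, CCh4_tu_inv, inv_inv,
    Matrix.transpose_mul, Matrix.transpose_mul]
  simp only [mul_assoc]

theorem Cj4_Aj4 {g g' : (Matrix (Fin 3) (Fin 3) K)ˣ} {f f' : LL C6 K ≃ₗ[K] LL C6 K}
    (h : Cj4 a b c g f) (h' : Aj4 a b c g' f') : ∃ g'', Aj4 a b c g'' (f * f') := by
  refine ⟨g * g', ?_⟩
  intro M hM
  rw [LinearEquiv.mul_apply, h' M hM, map_neg,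
    h _ (by rw [Matrix.trace_units_conj, Matrix.trace_transpose]; exact hM),
    mul_inv_rev, Units.val_mul, Units.val_mul]
  simp only [mul_assoc]

theorem Aj4_Aj4 {g g' : (Matrix (Fin 3) (Fin 3) K)ˣ} {f f' : LL C6 K ≃ₗ[K] LL C6 K}
    (h : Aj4 a b c g f) (h' : Aj4 a b c g' f') : ∃ g'', Cj4 a b c g'' (f * f') := by
  refine ⟨g * CCh4_tu g'⁻¹, ?_⟩
  intro M hM
  rw [LinearEquiv.mul_apply, h' M hM, map_neg,
    h _ (by rw [Matrix.trace_units_conj, Matrix.trace_transpose]; exact hM), neg_neg,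
    mul_inv_rev, Units.val_mul, Units.val_mul, CCh4_tu_val, CCh4_tu_inv, inv_inv,
    Matrix.transpose_mul, Matrix.transpose_mul, Matrix.transpose_transpose]
  simp only [mul_assoc]

theorem Aj4_inv {g : (Matrix (Fin 3) (Fin 3) K)ˣ} {f : LL C6 K ≃ₗ[K] LL C6 K}
    (h : Aj4 a b c g f) : ∃ g', Aj4 a b c g' f⁻¹ := by
  refine ⟨CCh4_tu g, ?_⟩
  intro M hM
  apply f.injective
  have h1 : ∀ z, f (f⁻¹ z) = z := fun z => f.apply_symm_apply z
  rw [h1, map_neg, h _ (by rw [Matrix.trace_units_conj, Matrix.trace_transpose]; exact hM),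
    neg_neg, CCh4_tu_val, CCh4_tu_inv, Matrix.transpose_mul, Matrix.transpose_mul,
    Matrix.transpose_transpose, Matrix.transpose_transpose, Matrix.transpose_transpose]
  congr 1
  simp only [← mul_assoc, Units.mul_inv, one_mul]
  simp only [mul_assoc, Units.mul_inv, mul_one]

theorem J4_root (H : HypW C6 K) (T : Tri a b c) {d : Rt C6} (hd : d ∈ S6 a b c) :
    ∃ (i j : Fin 3) (k : K), i ≠ j ∧ k ≠ 0 ∧ Df K d = k • J4 K a b c (Matrix.single i j 1) := by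
  have _ := H
  have _ := T
  exact CCh4_root hd

theorem J4_unit (H : HypW C6 K) (T : Tri a b c) {i j : Fin 3} (hij : i ≠ j) :
    ∃ d ∈ S6 a b c, ∃ k : K, k ≠ 0 ∧ J4 K a b c (Matrix.single i j 1) = k • Df K d := by
  have _ := H
  have _ := T
  have r1 : ∀ x : Rt C6, Eq4 x x := fun x => Or.inl rfl
  rw [CCh4_unit i j hij]
  fin_cases i <;> fin_cases j
  · exact absurd rfl hij
  · exact ⟨a, Or.inl (r1 a), 1, one_ne_zero, by simp⟩
  · exact ⟨c, Or.inr (Or.inr (Or.inr (Or.inr (Or.inl (r1 c))))), ek K C6 a.1 b.1,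
      ek_ne_zero _ _, by simp⟩
  · exact ⟨ng a, Or.inr (Or.inl (r1 _)), -1, neg_ne_zero.2 one_ne_zero, by simp⟩
  · exact absurd rfl hij
  · exact ⟨b, Or.inr (Or.inr (Or.inl (r1 b))), 1, one_ne_zero, by simp⟩
  · exact ⟨ng c, Or.inr (Or.inr (Or.inr (Or.inr (Or.inr (r1 _))))), ek K C6 b.1 a.1,
      ek_ne_zero _ _, by simp⟩
  · exact ⟨ng b, Or.inr (Or.inr (Or.inr (Or.inl (r1 _)))), -1, neg_ne_zero.2 one_ne_zero,
      by simp⟩
  · exact absurd rfl hij

theorem J4_xf (H : HypW C6 K) (T : Tri a b c) {d : Rt C6} (hd : d ∈ S6 a b c) (s : K) :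
    ∃ g, Cj4 a b c g (xf d s) := by
  obtain ⟨i, j, k, hij, hk, he⟩ := CCh4_root (K := K) hd
  refine ⟨CCh4_el i j hij (s * k), ?_⟩
  intro M hM
  have hval : ((CCh4_el i j hij (s * k) : (Matrix (Fin 3) (Fin 3) K)ˣ) :
      Matrix (Fin 3) (Fin 3) K) = 1 + (s * k) • Matrix.single i j 1 := by
    show Matrix.transvection i j (s * k) = _
    rw [Matrix.transvection, Matrix.smul_single, smul_eq_mul, mul_one]
  have hinv : (((CCh4_el i j hij (s * k))⁻¹ : (Matrix (Fin 3) (Fin 3) K)ˣ) :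
      Matrix (Fin 3) (Fin 3) K) = 1 - (s * k) • Matrix.single i j 1 := by
    show Matrix.transvection i j (-(s * k)) = _
    rw [Matrix.transvection, Matrix.smul_single, smul_eq_mul, mul_one, sub_eq_add_neg,
      Matrix.single_neg]
  have hEE : Matrix.single i j (1 : K) * Matrix.single i j 1 = 0 := by
    rw [Matrix.single_mul_single_of_ne _ _ _ _ hij.symm]
  have hg : (1 + (s * k) • Matrix.single i j (1 : K)) * M * (1 - (s * k) • Matrix.single i j 1) =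
      M + (s * k) • (Matrix.single i j 1 * M - M * Matrix.single i j 1) -
      ((s * k) * (s * k)) • (Matrix.single i j (1 : K) * M * Matrix.single i j 1) := by
    simp only [add_mul, mul_sub, one_mul, mul_one, smul_mul_assoc, mul_smul_comm]
    module
  have h2 : Matrix.single i j (1 : K) * (Matrix.single i j 1 * M - M * Matrix.single i j 1) -
      (Matrix.single i j 1 * M - M * Matrix.single i j 1) * Matrix.single i j 1 =
      (-2 : K) • (Matrix.single i j (1 : K) * M * Matrix.single i j 1) := by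
    rw [mul_sub, sub_mul, ← mul_assoc, hEE, zero_mul, mul_assoc M, hEE, mul_zero, ← mul_assoc]
    module
  have t1 : (Matrix.single i j (1 : K) * M - M * Matrix.single i j 1).trace = 0 := by
    rw [Matrix.trace_sub, Matrix.trace_mul_comm, sub_self]
  have t2 : (2 : K) ≠ 0 := Jac_two H
  rw [hval, hinv, hg, xf_apply H, he]
  simp only [map_smul, LinearMap.smul_apply]
  rw [J4_br H T (CCh4_tr_single hij) hM, J4_br H T (CCh4_tr_single hij) t1, h2]
  simp only [map_sub, map_add, map_smul]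
  match_scalars <;> field_simp <;> ring

theorem J4_T4 (H : HypW C6 K) (T : Tri a b c) {t : LL C6 K ≃ₗ[K] LL C6 K} (ht : t ∈ T4 K)
    {g : (Matrix (Fin 3) (Fin 3) K)ˣ} (hg : (g : Matrix (Fin 3) (Fin 3) K).IsDiag)
    (h1 : wt t a * (g : Matrix (Fin 3) (Fin 3) K) 1 1 = (g : Matrix (Fin 3) (Fin 3) K) 0 0)
    (h2 : wt t b * (g : Matrix (Fin 3) (Fin 3) K) 2 2 = (g : Matrix (Fin 3) (Fin 3) K) 1 1) :
    Cj4 a b c g t := by
  intro M hM
  have hT : t ∈ TT C6 K := T4_le_TT H ht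
  obtain ⟨u, hu⟩ : ∃ u : Fin 3 → K, (g : Matrix (Fin 3) (Fin 3) K) = Matrix.diagonal u :=
    ⟨_, (hg.diagonal_diag).symm⟩
  have huu : ∀ i, u i * ((g⁻¹ : (Matrix (Fin 3) (Fin 3) K)ˣ) : Matrix (Fin 3) (Fin 3) K) i i = 1 := by
    intro i
    have h3 := congrFun (congrFun (Units.mul_inv g) i) i
    rw [hu, Matrix.diagonal_mul, Matrix.one_apply_eq] at h3
    exact h3
  have hoff : ∀ i j, i ≠ j → ((g⁻¹ : (Matrix (Fin 3) (Fin 3) K)ˣ) :
      Matrix (Fin 3) (Fin 3) K) i j = 0 := by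
    intro i j hij
    have h3 := congrFun (congrFun (Units.mul_inv g) i) j
    rw [hu, Matrix.diagonal_mul, Matrix.one_apply_ne hij] at h3
    refine (mul_eq_zero.1 h3).resolve_left (fun h0 => ?_)
    have h4 := huu i
    rw [h0, zero_mul] at h4
    exact zero_ne_one h4
  have hu0 : ∀ i, u i ≠ 0 := by
    intro i h0
    have h4 := huu i
    rw [h0, zero_mul] at h4
    exact zero_ne_one h4
  have hinv : ((g⁻¹ : (Matrix (Fin 3) (Fin 3) K)ˣ) : Matrix (Fin 3) (Fin 3) K) =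
      Matrix.diagonal (fun i => (u i)⁻¹) := by
    ext i j
    by_cases hij : i = j
    · subst hij
      rw [Matrix.diagonal_apply_eq]
      exact eq_inv_of_mul_eq_one_right (huu i)
    · rw [Matrix.diagonal_apply_ne _ hij, hoff i j hij]
  have hent : ∀ i j, ((g : Matrix (Fin 3) (Fin 3) K) * M * ((g⁻¹ :
      (Matrix (Fin 3) (Fin 3) K)ˣ) : Matrix (Fin 3) (Fin 3) K)) i j =
      u i * M i j * (u j)⁻¹ := by
    intro i j
    rw [hinv, hu, Matrix.mul_diagonal, Matrix.diagonal_mul]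
  rw [hu, Matrix.diagonal_apply_eq, Matrix.diagonal_apply_eq] at h1 h2
  have hwa : wt t a = u 0 * (u 1)⁻¹ := by
    rw [← h1, mul_assoc, mul_inv_cancel₀ (hu0 1), mul_one]
  have hwb : wt t b = u 1 * (u 2)⁻¹ := by
    rw [← h2, mul_assoc, mul_inv_cancel₀ (hu0 2), mul_one]
  have hwc : wt t c = u 0 * (u 2)⁻¹ := by
    rw [wt_add H hT T.hc, hwa, hwb]
    have := hu0 1
    field_simp
  have hwna : wt t (ng a) = u 1 * (u 0)⁻¹ := by
    rw [wt_ng H hT, hwa, mul_inv_rev, inv_inv]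
  have hwnb : wt t (ng b) = u 2 * (u 1)⁻¹ := by
    rw [wt_ng H hT, hwb, mul_inv_rev, inv_inv]
  have hwnc : wt t (ng c) = u 2 * (u 0)⁻¹ := by
    rw [wt_ng H hT, hwc, mul_inv_rev, inv_inv]
  have hha : t (hh C6 (zk (cv a))) = hh C6 (zk (cv a)) := hT.2 _ (hh_mem_L0 _)
  have hhb : t (hh C6 (zk (cv b))) = hh C6 (zk (cv b)) := hT.2 _ (hh_mem_L0 _)
  rw [CCh4_eq, CCh4_eq]
  simp only [hent, map_add, map_smul, map_neg, (T4_Df H ht _).1, hha, hhb, hwa, hwb, hwc, hwna,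
    hwnb, hwnc, mul_right_comm (u 0) _ (u 0)⁻¹, mul_right_comm (u 1) _ (u 1)⁻¹,
    mul_inv_cancel₀ (hu0 0), mul_inv_cancel₀ (hu0 1), one_mul]
  module

theorem S6_Cl4 (T : Tri a b c) : Cl4 (S6 a b c) := by
  have hsg : ∀ {x d : Rt C6}, Eq4 x d → Eq4 x (sg d) := by
    rintro x d (rfl | rfl)
    · exact Or.inr rfl
    · exact Or.inl (sg_sg _)
  refine ⟨?_, ?_⟩
  · rintro x (h | h | h | h | h | h)
    · exact Or.inl (hsg h)
    · exact Or.inr (Or.inl (hsg h))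
    · exact Or.inr (Or.inr (Or.inl (hsg h)))
    · exact Or.inr (Or.inr (Or.inr (Or.inl (hsg h))))
    · exact Or.inr (Or.inr (Or.inr (Or.inr (Or.inl (hsg h)))))
    · exact Or.inr (Or.inr (Or.inr (Or.inr (Or.inr (hsg h)))))
  · intro x hx y hy z hz
    obtain ⟨p, q, -, h1⟩ := (CCh4_mem T x).1 hx
    obtain ⟨p', q', -, h2⟩ := (CCh4_mem T y).1 hy
    have h3 : z.1 + (sg z).1 = (p + p') • (a.1 + (sg a).1) + (q + q') • (b.1 + (sg b).1) := by
      have h4 : z.1 + (sg z).1 = (x.1 + (sg x).1) + (y.1 + (sg y).1) := hz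
      rw [h4, h1, h2]
      module
    refine (CCh4_mem T z).2 ⟨p + p', q + q', ?_, h3⟩
    have h5 := CCh4_norm T (p + p') (q + q')
    rw [← h3] at h5
    by_cases hs : sg z = z
    · rw [Comb_NL z hs] at h5
      right
      linarith
    · rw [Comb_NS z hs] at h5
      left
      linarith

theorem S6_ng (T : Tri a b c) {d : Rt C6} (hd : d ∈ S6 a b c) : ng d ∈ S6 a b c := by
  have _ := T
  have hng : ∀ {x d : Rt C6}, Eq4 x d → Eq4 (ng x) (ng d) := by
    rintro x d (rfl | rfl)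
    · exact Or.inl rfl
    · exact Or.inr (sg_ng _).symm
  rcases hd with h | h | h | h | h | h
  · exact Or.inr (Or.inl (hng h))
  · exact Or.inl (by have := hng h; rwa [ng_ng] at this)
  · exact Or.inr (Or.inr (Or.inr (Or.inl (hng h))))
  · exact Or.inr (Or.inr (Or.inl (by have := hng h; rwa [ng_ng] at this)))
  · exact Or.inr (Or.inr (Or.inr (Or.inr (Or.inr (hng h)))))
  · exact Or.inr (Or.inr (Or.inr (Or.inr (Or.inl (by have := hng h; rwa [ng_ng] at this)))))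

theorem S6_short (T : Tri a b c) {d : Rt C6} (hd : d ∈ S6 a b c) : sg d ≠ d := by
  intro h0
  rcases hd with h | h | h | h | h | h
  · exact T.sa ((Eq4_len h).2 h0)
  · exact T.sa ((sg_ng_iff a).1 ((Eq4_len h).2 h0))
  · exact T.sb ((Eq4_len h).2 h0)
  · exact T.sb ((sg_ng_iff b).1 ((Eq4_len h).2 h0))
  · exact T.sc ((Eq4_len h).2 h0)
  · exact T.sc ((sg_ng_iff c).1 ((Eq4_len h).2 h0))


end Pool.Agent.H31.F4
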