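import Pool.Agent.H31.F4.XfA
import Pool.Agent.H31.F4.B.HdX

/-!
# FF-06: commutators; closed sets of roots

`SF4_closed`: let `Sm a b c`, `X_a`, `X_b ≤ F`.  Cases of `sm_cases`:
* `dg a b = -1` same length: `xf a s (t Df b) = t Df b + s t k Df c` (`br_DD`;
  the second order term vanishes: weight `b + 2a`, for equal length `dg a (a+b) = 1`), and
  `xf a s * xf b t * xf a (-s) = ex (t Df b + s t k Df c)` (`conj_ex4`), which equals
  `xf b t * xf c (s t k)`: `ex` of the sum of the commuting elements `t Df b`, `s t k Df c`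
  (`Sm b c _` is impossible: `dg b c = dg b a + dg b b = 1`); so `xf c (s t k) ∈ F`.
  `ex (x + y) = ex x * ex y` for these: expand `exl`; terms of order `≥ 3` vanish: each monomial
  in `D_b, D_c` of order 3 maps weight `w` to `w + i b + (3 - i) c`, ... it is easier to use
  the relation in the group: both sides are of the form `1 + D + D²/2 + …`, and
  `(ad (x+y))³ = 0` because `x + y` is a multiple of the conjugate `xf a s (Df b)` of `Df b`
  (`ex_GD`); `exp(x)exp(y) - (1 + (x+y) + (x+y)²/2)` is the sum of the terms of order 3 and 4 of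
  `exp(x) exp(y)`; `(x + y)³ = 0` for all scalings `x → λ x` (different `s`), so all homogeneous
  components `3x²y`, `3xy²` vanish.. in characteristic 3 use directly weights: `D_b² D_c`: its image
  consists of weights `w` with `dg b w`: `D_b² ` maps into `dg b = 2`, i.e. weight `b` (short case:
  also long roots with `dg b = 2`) and `D_c` raises `dg b` by `1`: `D_b² D_c` needs
  `dg b w + 1 = -2`: impossible.  The same for `D_c² D_b`.  So all terms of order `≥ 3` with both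
  factors vanish.
* both short orthogonal, `c` long: `xf a s (t Df b) = t Df b + s t k e_c` similarly
  (`dg b c = 2`: `D_b` and `D_c`: `D_b² D_c` needs `dg b w = -2 - 2`: impossible; `D_c² = 0` except on
  `e_(-c)`: `D_c² D_b` needs `dg c w + dg c b = -2` with `dg c b = 1`: impossible).
* `a` long, `b` short (or the reverse, symmetric): `xf a s (t Df b) = t Df b + s t k Df c`
  (`c = a + b` short, orthogonal to `b`: `dg b c = 2 - 2 = 0`).  So
  `y_t := ex (t Df b + s t k Df c) ∈ F`, and `xf b (-t) y_t ∈ F`; with `D_b, D_c` commuting up to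
  the long root `d = b + c = a + 2b`: `xf b (-t) * y_t = xf c (s t k) * xf d (k' s t²)`.  With
  `t` and `-t`: quotient `xf c (2 s t k) ∈ F` (`xf c`, `xf d` commute).
  To get the formula: `xf a s * xf b t * xf a (-s)`, write `xf b t = xr b t * xr (sb) t`
  (`xf_eq_mul`), `a` long: `xf a s = xr a s`; `xr a s xr b t xr a (-s) = xr b t * xr (a+b) (± s t)`
  (`B.XrA`: `xr_conj_add`) and the same for `sb`; then reorder the four factors: `xr (a+b)` and
  `xr (sb)`: `ip (a+b) (sb) = -1 + 0 = -1`: their commutator is `xr (a+b+sb) (± s t²)`.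
The other cases can be done with `xr` in the same way.
* `SF4_sg`, `SF4_Eq4`.
`SF4_no_opp`: `X_a`, `X_(-a) ≤ P`: then `hd (cv a) c ∈ P` (`hd_eq` of `B.HdX` for `a` and `sg a`),
an element of order prime to `p` in a `p`-group, so trivial, but its weight at `a` is
`c²`, choose `c² ≠ 1`.
-/

namespace Pool.Agent.H31.F4

open Pool.Agent.H33.EL (ip cc eps Rt ng zk ek fk LL hh e brf fmf br fm IsExt exl ex xr hd L0 GG T1 TT NN SF cj wt)

variable {K : Type} [Field K]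

/-! auxiliary group identities -/

private theorem Cor_g1 {G : Type} [Group G] {A A' B B' C C' : G} (h1 : A * B * A⁻¹ = B * C)
    (h2 : A' * B' * A'⁻¹ = B' * C') (h3 : A' * B = B * A') (h4 : A * B' = B' * A)
    (h5 : A * C' = C' * A) (h6 : C * B' = B' * C) :
    (A * A') * (B * B') * (A * A')⁻¹ = (B * B') * (C * C') := by
  calc (A * A') * (B * B') * (A * A')⁻¹ = A * (A' * B) * B' * A'⁻¹ * A⁻¹ := by group
    _ = A * B * (A' * B' * A'⁻¹) * A⁻¹ := by rw [h3]; group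
    _ = A * B * (B' * C') * A⁻¹ := by rw [h2]
    _ = (A * B * A⁻¹) * (A * B') * C' * A⁻¹ := by group
    _ = (B * C) * (B' * A) * C' * A⁻¹ := by rw [h1, h4]
    _ = B * (C * B') * (A * C') * A⁻¹ := by group
    _ = B * (B' * C) * (C' * A) * A⁻¹ := by rw [h6, h5]
    _ = (B * B') * (C * C') := by group

private theorem Cor_g2 {G : Type} [Group G] {A N A' N' : G} (h1 : A * A' = A' * A)
    (h2 : N * A' = A' * N) (h3 : A * N' = N' * A) :
    (A * A') * (N * N') * (A * A') = (A * N * A) * (A' * N' * A') := by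
  calc (A * A') * (N * N') * (A * A') = A * (A' * N) * (N' * A) * A' := by group
    _ = A * (N * A') * (A * N') * A' := by rw [← h2, ← h3]
    _ = A * N * (A' * A) * N' * A' := by group
    _ = A * N * (A * A') * N' * A' := by rw [← h1]
    _ = (A * N * A) * (A' * N' * A') := by group

private theorem Cor_g3 {G : Type} [Group G] {A B B' C C' D : G} (h1 : A * B * A⁻¹ = B * C)
    (h2 : A * B' * A⁻¹ = B' * C') (h3 : C * B' * C⁻¹ = B' * D) :
    A * (B * B') * A⁻¹ = (B * B') * (D * (C * C')) := by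
  calc A * (B * B') * A⁻¹ = (A * B * A⁻¹) * (A * B' * A⁻¹) := by group
    _ = (B * C) * (B' * C') := by rw [h1, h2]
    _ = B * (C * B' * C⁻¹) * C * C' := by group
    _ = B * (B' * D) * C * C' := by rw [h3]
    _ = (B * B') * (D * (C * C')) := by group

private theorem Cor_sg_add {a b c : Rt C6} (hc : c.1 = a.1 + b.1) :
    (sg c).1 = (sg a).1 + (sg b).1 := by
  show sv c.1 = sv a.1 + sv b.1
  rw [hc]
  rfl

private theorem Cor_rep {a b c c' : Rt C6} (h : Sm a b c) (hc : c'.1 = a.1 + b.1) :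
    Eq4 c' c := by
  rw [Eq4_iff, Cor_sg_add hc, hc]
  have h' : c.1 + (sg c).1 = (a.1 + (sg a).1) + (b.1 + (sg b).1) := h
  rw [h']
  abel

private theorem Cor_ip_sg (a b : Rt C6) : ip C6 (sg a).1 (sg b).1 = ip C6 a.1 b.1 :=
  ip_sv a.1 b.1

private theorem Cor_ip_sg' (a b : Rt C6) : ip C6 (sg a).1 b.1 = ip C6 a.1 (sg b).1 := by
  have h := ip_sv (sg a).1 b.1
  have h1 : sv (sg a).1 = a.1 := sv_sv a.1
  rw [h1] at h
  exact h.symm

private theorem Cor_ek_sg (a b : Rt C6) :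
    ek K C6 (sg a).1 (sg b).1 = ek K C6 a.1 b.1 := ek_sv a.1 b.1

private theorem Cor_quot {G : Type} [Group G] {F : Subgroup G} {x y z : G}
    (h : x * y * x⁻¹ = y * z) (hx : x ∈ F) (hy : y ∈ F) : z ∈ F := by
  have h1 : z = y⁻¹ * (x * y * x⁻¹) := by rw [h]; group
  rw [h1]
  exact mul_mem (inv_mem hy) (mul_mem (mul_mem hx hy) (inv_mem hx))

private theorem Cor_ek_scale (x y : Fin 6 → ℤ) (u : K) :
    u * ek K C6 x y * 1 * ek K C6 x y = u := by
  rw [mul_one, mul_assoc, ek_mul_self, mul_one]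

/-- formula in the case short + short = short -/
private theorem Cor_SSS (H : HypW C6 K) {a b c : Rt C6} (ha : sg a ≠ a) (hb : sg b ≠ b)
    (hc : c.1 = a.1 + b.1) (hc' : sg c ≠ c) (h1 : ip C6 a.1 (sg b).1 = 0) (s t : K) :
    xf a s * xf b t * (xf a s)⁻¹ = xf b t * xf c (s * t * ek K C6 a.1 b.1) := by
  rw [xf_eq_mul H ha, xf_eq_mul H hb, xf_eq_mul H hc']
  have haa := cb_self a ha
  have hbb := cb_self b hb
  refine Cor_g1 (xr_conj_add H hc s t) ?_ ?_ ?_ ?_ ?_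
  · have := xr_conj_add (K := K) H (Cor_sg_add hc) s t
    rw [this, Cor_ek_sg]
  · exact xr_comm H (by rw [Cor_ip_sg', h1]) s t
  · exact xr_comm H (by rw [h1]) s t
  · refine xr_comm H ?_ s _
    rw [Cor_sg_add hc, ip_add_right, haa, h1]
    norm_num
  · refine xr_comm H ?_ _ t
    rw [hc, ip_add_left, hbb, h1]
    norm_num

/-- formula in the case short + short = long -/
private theorem Cor_SSL (H : HypW C6 K) {a b c : Rt C6} (ha : sg a ≠ a) (hb : sg b ≠ b)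
    (hc : c.1 = a.1 + b.1) (hc' : sg c = c) (h0 : ip C6 a.1 b.1 = -1)
    (h1 : ip C6 a.1 (sg b).1 = 1) (s t : K) :
    xf a s * xf b t * (xf a s)⁻¹ = xf b t * xf c (2 * (s * t * ek K C6 a.1 b.1)) := by
  rw [xf_eq_mul H ha, xf_eq_mul H hb, xf_eq_xr hc', two_mul, xr_add H]
  have haa := cb_self a ha
  have hbb := cb_self b hb
  have hsc : c.1 = (sg a).1 + (sg b).1 := by rw [← Cor_sg_add hc, hc']
  refine Cor_g1 (xr_conj_add H hc s t) ?_ ?_ ?_ ?_ ?_
  · have := xr_conj_add (K := K) H hsc s t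
    rw [this, Cor_ek_sg]
  · exact xr_comm H (by rw [Cor_ip_sg', h1]; norm_num) s t
  · exact xr_comm H (by rw [h1]; norm_num) s t
  · refine xr_comm H ?_ s _
    rw [hc, ip_add_right, a.2, h0]
    norm_num
  · refine xr_comm H ?_ _ t
    rw [hc, ip_add_left, hbb, h1]
    norm_num

/-- formula in the case long + short = short -/
private theorem Cor_LSS (H : HypW C6 K) {a b c d : Rt C6} (ha : sg a = a) (hb : sg b ≠ b)
    (hc : c.1 = a.1 + b.1) (hc' : sg c ≠ c) (hd : d.1 = c.1 + (sg b).1) (s t : K) :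
    xf a s * xf b t * (xf a s)⁻¹ = xf b t * (xr d (s * t * ek K C6 a.1 b.1 * t *
      ek K C6 c.1 (sg b).1) * xf c (s * t * ek K C6 a.1 b.1)) := by
  rw [xf_eq_xr ha, xf_eq_mul H hb, xf_eq_mul H hc']
  have hsc : (sg c).1 = a.1 + (sg b).1 := by rw [Cor_sg_add hc, ha]
  refine Cor_g3 (xr_conj_add H hc s t) ?_ (xr_conj_add H hd _ t)
  have := xr_conj_add (K := K) H hsc s t
  have h2 : ek K C6 a.1 (sg b).1 = ek K C6 a.1 b.1 := by
    have := Cor_ek_sg (K := K) a b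
    rwa [ha] at this
  rw [this, h2]

theorem SF4_Eq4 {F : Subgroup (LL C6 K ≃ₗ[K] LL C6 K)} {a b : Rt C6} (h : Eq4 a b)
    (ha : a ∈ SF4 F) : b ∈ SF4 F := by
  intro s
  rw [xf_Eq4 h]
  exact ha s
theorem SF4_closed (H : HypW C6 K) (F : Subgroup (LL C6 K ≃ₗ[K] LL C6 K)) {a b c : Rt C6}
    (h : Sm a b c) (ha : a ∈ SF4 F) (hb : b ∈ SF4 F) : c ∈ SF4 F := by
  have h2 := two_ne H
  have key4 : ∀ {a b c : Rt C6}, Sm a b c → a ∈ SF4 F → b ∈ SF4 F → sg a = a → sg b ≠ b →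
      sg c ≠ c → dg a b = -1 → c ∈ SF4 F := by
    intro a b c h ha hb hsa hsb hsc hd
    have hip : ip C6 a.1 b.1 = -1 := by rw [← dg_long a b hsa]; exact hd
    have hip2 : ip C6 a.1 (sg b).1 = -1 := by rw [(cb_LS a b hsa hsb).2, hip]
    obtain ⟨c', hc'⟩ : ∃ c' : Rt C6, c'.1 = a.1 + b.1 := ⟨⟨_, root_add H hip⟩, rfl⟩
    have he : Eq4 c' c := Cor_rep h hc'
    have hsc' : sg c' ≠ c' := fun hh => hsc ((Eq4_len he).1 hh)
    have hbb := cb_self b hsb
    obtain ⟨d, hd'⟩ : ∃ d : Rt C6, d.1 = c'.1 + (sg b).1 :=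
      ⟨⟨_, root_add H (a := c') (b := sg b) (by rw [hc', ip_add_left, hip2, hbb]; norm_num)⟩, rfl⟩
    refine SF4_Eq4 he fun u => ?_
    have hk : ek K C6 a.1 b.1 ≠ 0 := ek_ne_zero _ _
    have f1 := Cor_quot (Cor_LSS H hsa hsb hc' hsc' hd' (2⁻¹ * u * ek K C6 a.1 b.1) 1)
      (ha _) (hb _)
    have f2 := Cor_quot (Cor_LSS H hsa hsb hc' hsc' hd' (2⁻¹ * u * ek K C6 a.1 b.1) (-1))
      (ha _) (hb _)
    have e1 : 2⁻¹ * u * ek K C6 a.1 b.1 * 1 * ek K C6 a.1 b.1 = 2⁻¹ * u := Cor_ek_scale _ _ _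
    have e2 : 2⁻¹ * u * ek K C6 a.1 b.1 * (-1) * ek K C6 a.1 b.1 = -(2⁻¹ * u) := by
      rw [mul_neg, neg_mul, e1]
    rw [e1, mul_one] at f1
    rw [e2, neg_mul_neg, mul_one, xf_neg H] at f2
    have f3 := mul_mem (inv_mem f2) f1
    rw [mul_inv_rev, inv_inv, mul_assoc, inv_mul_cancel_left, ← xf_add H] at f3
    have e3 : 2⁻¹ * u + 2⁻¹ * u = u := by
      rw [← two_mul, ← mul_assoc, mul_inv_cancel₀ h2, one_mul]
    rwa [e3] at f3
  have key2 : ∀ {a b c : Rt C6}, Sm a b c → a ∈ SF4 F → b ∈ SF4 F → sg a ≠ a → sg b ≠ b →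
      sg c ≠ c → ip C6 a.1 b.1 = -1 → ip C6 a.1 (sg b).1 = 0 → c ∈ SF4 F := by
    intro a b c h ha hb hsa hsb hsc hip hip2
    obtain ⟨c', hc'⟩ : ∃ c' : Rt C6, c'.1 = a.1 + b.1 := ⟨⟨_, root_add H hip⟩, rfl⟩
    have he : Eq4 c' c := Cor_rep h hc'
    have hsc' : sg c' ≠ c' := fun hh => hsc ((Eq4_len he).1 hh)
    refine SF4_Eq4 he fun u => ?_
    have f1 := Cor_quot (Cor_SSS H hsa hsb hc' hsc' hip2 (u * ek K C6 a.1 b.1) 1)
      (ha _) (hb _)
    rwa [Cor_ek_scale] at f1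
  have key3 : ∀ {a b c : Rt C6}, Sm a b c → a ∈ SF4 F → b ∈ SF4 F → sg a ≠ a → sg b ≠ b →
      sg c = c → ip C6 a.1 b.1 = -1 → ip C6 a.1 (sg b).1 = 1 → c ∈ SF4 F := by
    intro a b c h ha hb hsa hsb hsc hip hip2
    obtain ⟨c', hc'⟩ : ∃ c' : Rt C6, c'.1 = a.1 + b.1 := ⟨⟨_, root_add H hip⟩, rfl⟩
    have he : Eq4 c' c := Cor_rep h hc'
    have hsc' : sg c' = c' := (Eq4_len he).2 hsc
    refine SF4_Eq4 he fun u => ?_
    have f1 := Cor_quot (Cor_SSL H hsa hsb hc' hsc' hip hip2 (2⁻¹ * u * ek K C6 a.1 b.1) 1)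
      (ha _) (hb _)
    have e1 : 2⁻¹ * u * ek K C6 a.1 b.1 * 1 * ek K C6 a.1 b.1 = 2⁻¹ * u := Cor_ek_scale _ _ _
    rwa [e1, ← mul_assoc, mul_inv_cancel₀ h2, one_mul] at f1
  have hsb' : sg b ∈ SF4 F := SF4_Eq4 (Or.inr rfl) hb
  have hS : Sm a (sg b) c := Sm_sg h (Or.inl rfl) (Or.inr rfl) (Or.inl rfl)
  rcases sm_cases h with ⟨h1, h3, h4, h5⟩ | ⟨h1, h3, h4, h5⟩ | ⟨h1, h3, h4, h5⟩ |
    ⟨h1, h3, h4, h5, -⟩ | ⟨h1, h3, h4, -, h5⟩
  · have hip : ip C6 a.1 b.1 = -1 := by rw [← dg_long a b h1]; exact h5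
    obtain ⟨c', hc'⟩ : ∃ c' : Rt C6, c'.1 = a.1 + b.1 := ⟨⟨_, root_add H hip⟩, rfl⟩
    have he : Eq4 c' c := Cor_rep h hc'
    have hsc' : sg c' = c' := (Eq4_len he).2 h4
    refine SF4_Eq4 he fun u => ?_
    have f0 : xf a (u * ek K C6 a.1 b.1) * xf b 1 * (xf a (u * ek K C6 a.1 b.1))⁻¹ =
        xf b 1 * xf c' (u * ek K C6 a.1 b.1 * 1 * ek K C6 a.1 b.1) := by
      rw [xf_eq_xr h1, xf_eq_xr h3, xf_eq_xr hsc']
      exact xr_conj_add H hc' _ _
    have f1 := Cor_quot f0 (ha _) (hb _)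
    rwa [Cor_ek_scale] at f1
  · have hs := dg_short a b h1
    rw [h5] at hs
    rcases cb_SS a b h1 h3 with h6 | h6 | h6 | h6 | h6 | h6 | h6 | h6 | h6 | h6
    · omega
    · omega
    · omega
    · omega
    · omega
    · omega
    · exact key2 h ha hb h1 h3 h4 h6.1 h6.2
    · refine key2 hS ha hsb' h1 ((sg_ne_iff b).2 h3) h4 h6.2 ?_
      rw [sg_sg]
      exact h6.1
    · omega
    · omega
  · have hs := dg_short a b h1
    rw [h5] at hs
    rcases cb_SS a b h1 h3 with h6 | h6 | h6 | h6 | h6 | h6 | h6 | h6 | h6 | h6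
    · omega
    · omega
    · omega
    · omega
    · omega
    · omega
    · omega
    · omega
    · refine key3 hS ha hsb' h1 ((sg_ne_iff b).2 h3) h4 h6.2 ?_
      rw [sg_sg]
      exact h6.1
    · exact key3 h ha hb h1 h3 h4 h6.1 h6.2
  · exact key4 h ha hb h1 h3 h4 h5
  · exact key4 (Sm_symm h) hb ha h3 h1 h4 h5
/-- the element `w_a` in type E_6 -/
private noncomputable def Cor_W (K : Type) [Field K] (a : Rt C6) (c t : K) :
    LL C6 K ≃ₗ[K] LL C6 K := xr a c * xr (ng a) t * xr a c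

private theorem Cor_W_def (a : Rt C6) (c t : K) :
    Cor_W K a c t = xr a c * xr (ng a) t * xr a c := rfl

private theorem Cor_xf_long (a : Rt C6) (ha : sg a = a) (c t : K) :
    xf a c * xf (ng a) t * xf a c = Cor_W K a c t := by
  have h2 : sg (ng a) = ng a := (sg_ng_iff a).2 ha
  rw [xf_eq_xr ha, xf_eq_xr h2, Cor_W_def]

private theorem Cor_ip_orth (a : Rt C6) (ha : sg a ≠ a) :
    0 ≤ ip C6 a.1 (sg a).1 ∧ 0 ≤ ip C6 (ng a).1 (sg a).1 ∧ 0 ≤ ip C6 a.1 (ng (sg a)).1 ∧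
    0 ≤ ip C6 (ng a).1 (ng (sg a)).1 := by
  have h := cb_self a ha
  refine ⟨?_, ?_, ?_, ?_⟩
  · rw [h]
  · rw [ng_val, ip_neg_left, h]; norm_num
  · rw [ng_val, ip_neg_right, h]; norm_num
  · rw [ng_val, ng_val, ip_neg_right, ip_neg_left, h]; norm_num

private theorem Cor_xf_short (H : HypW C6 K) (a : Rt C6) (ha : sg a ≠ a) (c t : K) :
    xf a c * xf (ng a) t * xf a c = Cor_W K a c t * Cor_W K (sg a) c t := by
  have h2 : sg (ng a) ≠ ng a := fun h => ha ((sg_ng_iff a).1 h)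
  obtain ⟨o1, o2, o3, o4⟩ := Cor_ip_orth a ha
  rw [xf_eq_mul H ha, xf_eq_mul H h2, sg_ng, Cor_W_def, Cor_W_def]
  exact Cor_g2 (xr_comm H o1 c c) (xr_comm H o2 t c) (xr_comm H o3 c t)

private theorem Cor_W_comm (H : HypW C6 K) (a : Rt C6) (ha : sg a ≠ a) (c t c' t' : K) :
    Cor_W K a c t * Cor_W K (sg a) c' t' = Cor_W K (sg a) c' t' * Cor_W K a c t := by
  obtain ⟨o1, o2, o3, o4⟩ := Cor_ip_orth a ha
  have k1 : Commute (xr a c) (xr (sg a) c') := xr_comm H o1 _ _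
  have k2 : Commute (xr (ng a) t) (xr (sg a) c') := xr_comm H o2 _ _
  have k3 : Commute (xr a c) (xr (ng (sg a)) t') := xr_comm H o3 _ _
  have k4 : Commute (xr (ng a) t) (xr (ng (sg a)) t') := xr_comm H o4 _ _
  have k5 : Commute (xr a c * xr (ng a) t * xr a c) (xr (sg a) c') := (k1.mul_left k2).mul_left k1
  have k6 : Commute (xr a c * xr (ng a) t * xr a c) (xr (ng (sg a)) t') :=
    (k3.mul_left k4).mul_left k3
  exact (k5.mul_right k6).mul_right k5

/-- the toral elements in the group generated by opposite root groups -/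
theorem hd_cv_mem_of (H : HypW C6 K) (F : Subgroup (LL C6 K ≃ₗ[K] LL C6 K)) {a : Rt C6}
    (ha : a ∈ SF4 F) (ha' : ng a ∈ SF4 F) (c : Kˣ) : hd C6 (cv a) c ∈ F := by
  have hF : (xf a (c : K) * xf (ng a) ((c⁻¹ : Kˣ) : K) * xf a (c : K)) *
      (xf a (1 : K) * xf (ng a) (1 : K) * xf a (1 : K))⁻¹ ∈ F :=
    mul_mem (mul_mem (mul_mem (ha _) (ha' _)) (ha _))
      (inv_mem (mul_mem (mul_mem (ha _) (ha' _)) (ha _)))
  by_cases hs : sg a = a
  · rw [Cor_xf_long a hs, Cor_xf_long a hs] at hF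
    have : cv a = a.1 := if_pos hs
    rw [this, hd_eq H]
    exact hF
  · rw [Cor_xf_short H a hs, Cor_xf_short H a hs] at hF
    have : cv a = a.1 + (sg a).1 := if_neg hs
    rw [this, hd_add, hd_eq H, hd_eq H]
    have k := Cor_W_comm H a hs 1 1 (c : K) ((c⁻¹ : Kˣ) : K)
    have k' := Cor_W_comm H a hs 1 1 (1 : K) 1
    have e : (Cor_W K a c ((c⁻¹ : Kˣ) : K) * (Cor_W K a 1 1)⁻¹) *
        (Cor_W K (sg a) c ((c⁻¹ : Kˣ) : K) * (Cor_W K (sg a) 1 1)⁻¹) =
        Cor_W K a c ((c⁻¹ : Kˣ) : K) * Cor_W K (sg a) c ((c⁻¹ : Kˣ) : K) *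
        (Cor_W K a 1 1 * Cor_W K (sg a) 1 1)⁻¹ := by
      have k1 : Commute (Cor_W K a 1 1)⁻¹ (Cor_W K (sg a) c ((c⁻¹ : Kˣ) : K)) :=
        (show Commute (Cor_W K a 1 1) (Cor_W K (sg a) c ((c⁻¹ : Kˣ) : K)) from k).inv_left
      rw [k', mul_inv_rev, mul_assoc, ← mul_assoc (Cor_W K a 1 1)⁻¹, k1.eq]
      group
    exact e ▸ hF
private theorem Cor_W_e (H : HypW C6 K) (a b c : Rt C6)
    (hc : c.1 = b.1 - ip C6 a.1 b.1 • a.1) :
    ∃ k : K, k ≠ 0 ∧ Cor_W K a 1 1 (e K b) = k • e K c := by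
  have hap : ∀ x, Cor_W K a 1 1 x = xr a 1 (xr (ng a) 1 (xr a 1 x)) := fun x => rfl
  rw [hap]
  rcases ip_cases H a b with h | h | h | h | h
  · subst h
    have e1 : c = a := by
      apply Subtype.ext
      rw [hc, ng_val, ip_neg_right, a.2]
      module
    rw [e1, hdX_W_ng H a (mul_one (1 : K))]
    exact ⟨_, by norm_num, rfl⟩
  · rw [hdX_W_neg H a b c (mul_one (1 : K)) h (by rw [hc, h]; module)]
    exact ⟨_, mul_ne_zero one_ne_zero (ek_ne_zero _ _), rfl⟩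
  · have e1 : c = b := by
      apply Subtype.ext
      rw [hc, h]
      module
    rw [e1, hdX_W_zero H a b 1 1 h]
    exact ⟨1, one_ne_zero, (one_smul _ _).symm⟩
  · rw [hdX_W_pos H a b c (mul_one (1 : K)) h (by rw [hc, h]; module)]
    exact ⟨_, mul_ne_zero one_ne_zero (ek_ne_zero _ _), rfl⟩
  · subst h
    have e1 : c = ng b := by
      apply Subtype.ext
      rw [hc, b.2, ng_val]
      module
    rw [e1, hdX_W_self H b (mul_one (1 : K))]
    exact ⟨_, by norm_num, rfl⟩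

private theorem Cor_W_NN (H : HypW C6 K) (a : Rt C6) : Cor_W K a 1 1 ∈ NN C6 K := by
  have hap : ∀ x, Cor_W K a 1 1 x = xr a 1 (xr (ng a) 1 (xr a 1 x)) := fun x => rfl
  have h1 : ∀ h : Fin 6 → K, Cor_W K a 1 1 (hh C6 h) = hh C6 (h - fk C6 h (zk a.1) • zk a.1) := by
    intro h
    rw [hap, hdX_W_hh H a (mul_one (1 : K))]
    rw [sub_eq_add_neg h, hh_add, hh_neg, hh_smul, sub_eq_add_neg]
  have h2 : ∀ x ∈ L0 C6 K, Cor_W K a 1 1 x ∈ L0 C6 K := by
    intro x hx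
    rw [eq_hh_of_mem hx, h1]
    exact hh_mem_L0 _
  have h3 : ∀ x ∈ L0 C6 K, Cor_W K a 1 1 (Cor_W K a 1 1 x) = x := by
    intro x hx
    rw [eq_hh_of_mem hx, h1, h1]
    congr 1
    have e1 : fk C6 (x.1 - fk C6 x.1 (zk a.1) • zk a.1) (zk a.1) = -fk C6 x.1 (zk a.1) := by
      rw [fk_sub_left, fk_smul_left, hdX_fk_self]
      ring
    rw [e1]
    module
  refine ⟨mul_mem (mul_mem (xr_mem_GG H a 1) (xr_mem_GG H (ng a) 1)) (xr_mem_GG H a 1),
    fun x => ⟨fun hx => ?_, h2 x⟩⟩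
  have h4 := h3 _ hx
  have h5 := (Cor_W K a 1 1).injective h4
  rw [← h5]
  exact h2 _ hx

private theorem Cor_refl (H : HypW C6 K) (a b : Rt C6) :
    ∃ c : Rt C6, c.1 = b.1 - ip C6 a.1 b.1 • a.1 := by
  refine ⟨⟨b.1 - ip C6 a.1 b.1 • a.1, ?_⟩, rfl⟩
  rw [ip_sub_left, ip_sub_right, ip_sub_right, ip_smul_left, ip_smul_right, ip_smul_left,
    ip_smul_right, a.2, b.2, ip_comm H.symm b.1 a.1]
  ring

private theorem Cor_w_e (H : HypW C6 K) (a b c : Rt C6) (hc : c.1 = rfv a b) :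
    ∃ k : K, k ≠ 0 ∧ (xf a (1 : K) * xf (ng a) (1 : K) * xf a (1 : K)) (e K b) = k • e K c := by
  by_cases hs : sg a = a
  · rw [Cor_xf_long a hs]
    refine Cor_W_e H a b c ?_
    rw [hc]
    exact if_pos hs
  · rw [Cor_xf_short H a hs]
    have hc' : c.1 = b.1 - ip C6 a.1 b.1 • a.1 - ip C6 (sg a).1 b.1 • (sg a).1 := by
      rw [hc]
      exact if_neg hs
    obtain ⟨b', hb'⟩ := Cor_refl H (sg a) b
    obtain ⟨k, hk, hk'⟩ := Cor_W_e H (sg a) b b' hb'
    have h0 := cb_self a hs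
    obtain ⟨l, hl, hl'⟩ := Cor_W_e H a b' c (by
      rw [hb', ip_sub_right, ip_smul_right, h0, hc']
      module)
    refine ⟨k * l, mul_ne_zero hk hl, ?_⟩
    rw [LinearEquiv.mul_apply, hk', map_smul, hl', smul_smul]

private theorem Cor_w_NN (H : HypW C6 K) (a : Rt C6) :
    xf a (1 : K) * xf (ng a) (1 : K) * xf a (1 : K) ∈ NN C6 K := by
  by_cases hs : sg a = a
  · rw [Cor_xf_long a hs]
    exact Cor_W_NN H a
  · rw [Cor_xf_short H a hs]
    exact mul_mem (Cor_W_NN H a) (Cor_W_NN H (sg a))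

private theorem Cor_e_inj {a b : Rt C6} {k : K} (hk : k ≠ 0) (h : k • e K a = k • e K b) :
    a = b := by
  by_contra hab
  have h1 := congrArg (fun x : LL C6 K => x.2 a) h
  simp only [Prod.smul_snd, Pi.smul_apply, e_snd_self, e_snd_ne hab, smul_eq_mul, mul_one,
    mul_zero] at h1
  exact hk h1

private theorem Cor_w_Df {w : LL C6 K ≃ₗ[K] LL C6 K} (hw : w ∈ GF K)
    {b c : Rt C6} {k : K} (hk : k ≠ 0) (h : w (e K b) = k • e K c) :
    w (Df K b) = k • Df K c ∧ w (pv K b) = k • pv K c := by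
  have h2 : w (e K (sg b)) = k • e K (sg c) := by
    rw [← Sg_e b, GF_Sg hw, h, map_smul, Sg_e]
  by_cases hb : sg b = b
  · have hc : sg c = c := by
      rw [hb, h] at h2
      exact (Cor_e_inj hk h2).symm
    rw [Df_long hb, Df_long hc, pv_long hb, pv_long hc]
    exact ⟨h, h⟩
  · have hc : sg c ≠ c := by
      intro hc
      rw [hc, ← h] at h2
      have h3 := w.injective h2
      exact hb (Cor_e_inj (one_ne_zero (α := K)) (by rw [h3]))
    rw [Df_short hb, Df_short hc, pv_short hb, pv_short hc]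
    unfold wf
    rw [map_add, map_sub, h, h2, smul_add, smul_sub]
    exact ⟨rfl, rfl⟩

private theorem Cor_mem_Fo4 {F : Subgroup (LL C6 K ≃ₗ[K] LL C6 K)} {a : Rt C6} (ha : a ∈ SF4 F)
    (s : K) : xf a s ∈ Fo4 F := Subgroup.subset_closure (Or.inr ⟨a, ha, s, rfl⟩)

/-- Weyl elements: `w = xf a 1 * xf (ng a) 1 * xf a 1` maps the weight space of `b` onto the one
of `rfv a b` and `K Df a` to `K Df (ng a)` -/
theorem weyl (H : HypW C6 K) (F : Subgroup (LL C6 K ≃ₗ[K] LL C6 K)) {a : Rt C6}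
    (ha : a ∈ SF4 F) (ha' : ng a ∈ SF4 F) : ∃ w ∈ Fo4 F, w ∈ F ∧ w ∈ NN C6 K ∧
    (∀ b c : Rt C6, c.1 = rfv a b → (∃ k : K, k ≠ 0 ∧ w (Df K b) = k • Df K c) ∧
      ∃ k : K, k ≠ 0 ∧ w (pv K b) = k • pv K c) := by
  have hGF : xf a (1 : K) * xf (ng a) (1 : K) * xf a (1 : K) ∈ GF K :=
    mul_mem (mul_mem (xf_mem_GF H _ _) (xf_mem_GF H _ _)) (xf_mem_GF H _ _)
  refine ⟨xf a (1 : K) * xf (ng a) (1 : K) * xf a (1 : K),
    mul_mem (mul_mem (Cor_mem_Fo4 ha _) (Cor_mem_Fo4 ha' _)) (Cor_mem_Fo4 ha _),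
    mul_mem (mul_mem (ha _) (ha' _)) (ha _), Cor_w_NN H a, ?_⟩
  intro b c hc
  obtain ⟨k, hk, h⟩ := Cor_w_e H a b c hc
  obtain ⟨h1, h2⟩ := Cor_w_Df hGF hk h
  exact ⟨⟨k, hk, h1⟩, ⟨k, hk, h2⟩⟩
theorem SF4_no_opp (H : HypW C6 K) {p : ℕ} [Fact p.Prime] [CharP K p]
    (P : Subgroup (LL C6 K ≃ₗ[K] LL C6 K)) (hP : IsPGroup p P) {a : Rt C6} (ha : a ∈ SF4 P) :
    ng a ∉ SF4 P := by
  intro ha'
  have hall : ∀ c : Kˣ, (c : K) ^ 2 = 1 := by
    intro c
    have hm := hd_cv_mem_of H P ha ha' c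
    obtain ⟨k, hk⟩ := hP ⟨_, hm⟩
    have hk' : (hd C6 (cv a) c : LL C6 K ≃ₗ[K] LL C6 K) ^ p ^ k = 1 := by
      have := congrArg Subtype.val hk
      simpa using this
    have h1 := TT_order H (hd_mem_TT H (cv a) c) k hk'
    have h2 := wt_hd (K := K) (C := C6) (cv a) c a
    rw [h1, wt_one] at h2
    have h3 : ip C6 (cv a) a.1 = 2 := dg_self a
    rw [h3] at h2
    have h4 : (c ^ (2 : ℤ) : Kˣ) = c ^ 2 := by exact_mod_cast rfl
    rw [h4, Units.val_pow_eq_pow_val] at h2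
    exact h2.symm
  have hsub : (Set.univ : Set K) ⊆ {0, 1, -1} := by
    intro x _
    by_cases hx : x = 0
    · left; exact hx
    · have h1 : x ^ 2 = 1 := hall (Units.mk0 x hx)
      have h2 : (x - 1) * (x + 1) = 0 := by linear_combination h1
      rcases mul_eq_zero.1 h2 with h | h
      · exact Or.inr (Or.inl (sub_eq_zero.1 h))
      · exact Or.inr (Or.inr (eq_neg_of_add_eq_zero_left h))
  have hcard : Nat.card K ≤ 3 := by
    have h1 : (Set.univ : Set K).ncard ≤ ({0, 1, -1} : Set K).ncard :=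
      Set.ncard_le_ncard hsub (Set.toFinite _)
    have h2 : ({0, 1, -1} : Set K).ncard ≤ 3 := by
      have h3 := Set.ncard_insert_le (0 : K) {1, -1}
      have h4 := Set.ncard_insert_le (1 : K) {-1}
      rw [Set.ncard_singleton] at h4
      omega
    rw [Set.ncard_univ] at h1
    omega
  rcases H.card with h | h | h <;> omega
theorem Fo4_le {F : Subgroup (LL C6 K ≃ₗ[K] LL C6 K)} (hT : T4 K ≤ F) : Fo4 F ≤ F := by
  unfold Fo4
  rw [Subgroup.closure_le]
  rintro g (hg | ⟨a, ha, s, rfl⟩)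
  · exact hT hg
  · exact ha s
theorem Fo4_mono {F F' : Subgroup (LL C6 K ≃ₗ[K] LL C6 K)} (h : F ≤ F') : Fo4 F ≤ Fo4 F' := by
  refine Subgroup.closure_mono ?_
  rintro g (hg | ⟨a, ha, s, rfl⟩)
  · exact Or.inl hg
  · exact Or.inr ⟨a, fun t => h (ha t), s, rfl⟩
theorem T4_le_Fo4 (F : Subgroup (LL C6 K ≃ₗ[K] LL C6 K)) : T4 K ≤ Fo4 F :=
  fun _ hg => Subgroup.subset_closure (Or.inl hg)
theorem xf_mem_Fo4 {F : Subgroup (LL C6 K ≃ₗ[K] LL C6 K)} {a : Rt C6} (ha : a ∈ SF4 F) (s : K) :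
    xf a s ∈ Fo4 F := by
  exact Cor_mem_Fo4 ha s
theorem rfv_root (H : HypW C6 K) (b a : Rt C6) : ∃ c : Rt C6, c.1 = rfv b a := by
  by_cases hs : sg b = b
  · obtain ⟨c, hc⟩ := Cor_refl H b a
    refine ⟨c, ?_⟩
    rw [hc]
    exact (if_pos hs).symm
  · obtain ⟨c, hc⟩ := Cor_refl H (sg b) a
    obtain ⟨d, hd⟩ := Cor_refl H b c
    refine ⟨d, ?_⟩
    have h0 := cb_self b hs
    have e1 : rfv b a = a.1 - ip C6 b.1 a.1 • b.1 - ip C6 (sg b).1 a.1 • (sg b).1 := if_neg hs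
    rw [e1, hd, hc, ip_sub_right, ip_smul_right, h0]
    module
theorem Fo4_le_GF (H : HypW C6 K) {F : Subgroup (LL C6 K ≃ₗ[K] LL C6 K)} : Fo4 F ≤ GF K := by
  unfold Fo4
  rw [Subgroup.closure_le]
  rintro g (hg | ⟨a, -, s, rfl⟩)
  · have h1 : T4 K ≤ GF K := by
      unfold T4
      rw [Subgroup.closure_le]
      rintro g ⟨y, c, hy, rfl⟩
      refine mem_GF (hd_mem_GG H y c) fun x => ?_
      refine Prod.ext rfl (funext fun b => ?_)
      show ((c ^ (ip C6 y b.1) : Kˣ) : K) * x.2 (sg b) =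
        ((c ^ (ip C6 y (sg b).1) : Kˣ) : K) * x.2 (sg b)
      have h2 : ip C6 y (sg b).1 = ip C6 y b.1 := by
        have := ip_sv y b.1
        rw [hy] at this
        exact this
      rw [h2]
    exact h1 hg
  · exact xf_mem_GF H a s

end Pool.Agent.H31.F4
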