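import Pool.Agent.H31.F4.XD4

/-!
# FF-22: the minimal weight of a point vector, see the header of `XD4`

`ext_short`: an extremal vector of `LF` (or zero) supported only on short roots is zero: choose `l`
injective (`min_ext`).
-/

namespace Pool.Agent.H31.F4

open Pool.Agent.H33.EL (ip cc eps Rt ng zk ek fk LL hh e brf fmf br fm IsExt exl ex xr hd L0 GG T1 TT NN SF cj wt)

variable {K : Type} [Field K]

/-- an invariant functional which is injective on the weights -/
def Inj4 (l : (Fin 6 → ℤ) →+ ℤ) : Prop :=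
  (∀ x, l (sv x) = l x) ∧ (∀ a : Rt C6, l a.1 ≠ 0) ∧ ∀ a b : Rt C6, l a.1 = l b.1 → Eq4 a b

/-! ### weights and brackets -/

private theorem M4_ng (l : (Fin 6 → ℤ) →+ ℤ) (a : Rt C6) : l (ng a).1 = -l a.1 := map_neg l a.1

private theorem M4_sg {l : (Fin 6 → ℤ) →+ ℤ} (hl : ∀ x, l (sv x) = l x) (a : Rt C6) :
    l (sg a).1 = l a.1 := hl a.1

private theorem M4_br (l : (Fin 6 → ℤ) →+ ℤ) {m k : ℤ} {x y : LL C6 K} (hx : x ∈ Wl K l m)
    (hy : y ∈ Wl K l k) : br x y ∈ Wl K l (m + k + 1) := by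
  obtain ⟨h1, h2⟩ := hx
  obtain ⟨h3, h4⟩ := hy
  show (∀ b : Rt C6, l b.1 ≤ m + k + 1 → (brf x y).2 b = 0) ∧ (0 ≤ m + k + 1 → (brf x y).1 = 0)
  constructor
  · intro r hr
    have t1 : fk C6 x.1 (zk r.1) * y.2 r = 0 := by
      by_cases hk : 0 ≤ m
      · rw [h2 hk, fk_zero_left, zero_mul]
      · rw [h3 r (by omega), mul_zero]
    have t2 : fk C6 y.1 (zk r.1) * x.2 r = 0 := by
      by_cases hk : 0 ≤ k
      · rw [h4 hk, fk_zero_left, zero_mul]
      · rw [h1 r (by omega), mul_zero]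
    have t3 : (∑ a : Rt C6, if h : ip C6 (r.1 - a.1) (r.1 - a.1) = 2 then
         ek K C6 a.1 (r.1 - a.1) * (x.2 a * y.2 ⟨r.1 - a.1, h⟩) else 0) = 0 := by
      refine Finset.sum_eq_zero fun a _ => ?_
      split_ifs with h
      · by_cases ha : l a.1 ≤ m
        · rw [h1 a ha, zero_mul, mul_zero]
        · rw [h3 ⟨r.1 - a.1, h⟩ (by
            show l (r.1 - a.1) ≤ k
            rw [map_sub]
            omega), mul_zero, mul_zero]
      · rfl
    show fk C6 x.1 (zk r.1) * y.2 r - fk C6 y.1 (zk r.1) * x.2 r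
      + (∑ a : Rt C6, if h : ip C6 (r.1 - a.1) (r.1 - a.1) = 2 then
         ek K C6 a.1 (r.1 - a.1) * (x.2 a * y.2 ⟨r.1 - a.1, h⟩) else 0) = 0
    rw [t1, t2, t3, sub_zero, add_zero]
  · intro hkl
    show -∑ a : Rt C6, (x.2 a * y.2 (ng a)) • (zk a.1 : Fin 6 → K) = 0
    rw [Finset.sum_eq_zero, neg_zero]
    intro a _
    by_cases ha : l a.1 ≤ m
    · rw [h1 a ha, zero_mul, zero_smul]
    · rw [h3 (ng a) (by rw [M4_ng]; omega), mul_zero, zero_smul]

private theorem M4_e (l : (Fin 6 → ℤ) →+ ℤ) (a : Rt C6) {m : ℤ} (h : m < l a.1) :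
    e K a ∈ Wl K l m :=
  ⟨fun b hb => e_snd_ne (fun h1 => by rw [h1] at hb; omega), fun _ => rfl⟩

private theorem M4_hh (l : (Fin 6 → ℤ) →+ ℤ) (h : Fin 6 → K) {m : ℤ} (hm : m < 0) :
    hh C6 h ∈ Wl K l m :=
  ⟨fun _ _ => rfl, fun h0 => by omega⟩

private theorem M4_D {l : (Fin 6 → ℤ) →+ ℤ} (hl : ∀ x, l (sv x) = l x) (a : Rt C6) {m : ℤ}
    (h : m < l a.1) : Df K a ∈ Wl K l m := by
  unfold Df
  split_ifs
  · exact M4_e l a h
  · exact add_mem (M4_e l a h) (M4_e l _ (by rw [M4_sg hl]; exact h))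

private theorem M4_w {l : (Fin 6 → ℤ) →+ ℤ} (hl : ∀ x, l (sv x) = l x) (a : Rt C6) {m : ℤ}
    (h : m < l a.1) : wf K a ∈ Wl K l m := by
  unfold wf
  exact sub_mem (M4_e l a h) (M4_e l _ (by rw [M4_sg hl]; exact h))

/-- an element all whose root weights are positive, without its toral part -/
private theorem M4_pos {l : (Fin 6 → ℤ) →+ ℤ} {v : LL C6 K} {m : ℤ}
    (hp : ∀ d : Rt C6, v.2 d ≠ 0 → m < l d.1) : v - hh C6 v.1 ∈ Wl K l m := by
  refine ⟨fun b hb => ?_, fun _ => ?_⟩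
  · show v.2 b - (hh C6 v.1).2 b = 0
    rw [hh_snd, sub_zero]
    by_contra h
    have := hp b h
    omega
  · show v.1 - v.1 = 0
    rw [sub_self]

/-- the minimum over the support -/
private theorem M4_min (l : (Fin 6 → ℤ) →+ ℤ) {v : LL C6 K} {d0 : Rt C6} (h : v.2 d0 ≠ 0) :
    ∃ d : Rt C6, v.2 d ≠ 0 ∧ l d.1 ≤ l d0.1 ∧ ∀ d' : Rt C6, v.2 d' ≠ 0 → l d.1 ≤ l d'.1 := by
  classical
  obtain ⟨d, hd, hm⟩ := Finset.exists_min_image
    (Finset.univ.filter fun d : Rt C6 => v.2 d ≠ 0) (fun d => l d.1)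
    ⟨d0, Finset.mem_filter.2 ⟨Finset.mem_univ _, h⟩⟩
  exact ⟨d, (Finset.mem_filter.1 hd).2, hm d0 (Finset.mem_filter.2 ⟨Finset.mem_univ _, h⟩),
    fun d' hd' => hm d' (Finset.mem_filter.2 ⟨Finset.mem_univ _, hd'⟩)⟩

private theorem M4_sup {l : (Fin 6 → ℤ) →+ ℤ} (hl : Inj4 l) {v : LL C6 K} {d : Rt C6}
    (hm : ∀ d' : Rt C6, v.2 d' ≠ 0 → l d.1 ≤ l d'.1) (h0 : v.1 ≠ 0 → l d.1 < 0) :
    Sup l (ng d) v := by
  unfold Sup
  rw [ng_ng]
  refine ⟨fun d' hd' => ?_, h0⟩
  rcases lt_or_eq_of_le (hm d' hd') with h | h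
  · exact Or.inr h
  · exact Or.inl (hl.2.2 d d' h)

/-- either the minimum is attained at a root or the weight zero is minimal -/
private theorem M4_alt {l : (Fin 6 → ℤ) →+ ℤ} (hl : Inj4 l) {v : LL C6 K} (h0 : v ≠ 0) :
    (∃ d : Rt C6, v.2 d ≠ 0 ∧ Sup l (ng d) v ∧ ∀ d' : Rt C6, v.2 d' ≠ 0 → l d.1 ≤ l d'.1) ∨
      (v.1 ≠ 0 ∧ ∀ d : Rt C6, v.2 d ≠ 0 → 0 < l d.1) := by
  by_cases h1 : ∃ d : Rt C6, v.2 d ≠ 0 ∧ l d.1 < 0
  · obtain ⟨d0, hd0, hn⟩ := h1
    obtain ⟨d, hd, hle, hm⟩ := M4_min l hd0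
    exact Or.inl ⟨d, hd, M4_sup hl hm fun _ => by omega, hm⟩
  · by_cases h2 : v.1 = 0
    · have h3 : ∃ d0 : Rt C6, v.2 d0 ≠ 0 := by
        by_contra h3
        apply h0
        refine Prod.ext h2 (funext fun d => ?_)
        by_contra h4
        exact h3 ⟨d, h4⟩
      obtain ⟨d0, hd0⟩ := h3
      obtain ⟨d, hd, hle, hm⟩ := M4_min l hd0
      exact Or.inl ⟨d, hd, M4_sup hl hm fun h => absurd h2 h, hm⟩
    · refine Or.inr ⟨h2, fun d hd => ?_⟩
      have h3 := hl.2.1 d
      by_contra h4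
      exact h1 ⟨d, hd, by omega⟩

private theorem M4_fk_ng (h : Fin 6 → K) (b : Rt C6) :
    fk C6 h (zk (ng b).1) = -fk C6 h (zk b.1) := by
  rw [ng_val, zk_neg, fk_neg_right]

private theorem M4_sq {x : K} (h : x * x = 0) : x = 0 := by
  rcases mul_eq_zero.1 h with h | h <;> exact h

/-- extremal vectors of `LF`: the minimal weight is a long root -/
theorem min_ext (H : HypW C6 K) {v : LL C6 K} (hv : IsExt v) (hL : v ∈ LF K) (h0 : v ≠ 0)
    {l : (Fin 6 → ℤ) →+ ℤ} (hl : Inj4 l) :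
    ∃ a : Rt C6, sg a = a ∧ v.2 (ng a) ≠ 0 ∧ Sup l a v := by
  obtain ⟨hL1, hL2⟩ := (mem_LF' v).1 hL
  rcases M4_alt hl h0 with ⟨d, hd, hs, hm⟩ | ⟨h1, h2⟩
  · refine ⟨ng d, ?_, by rw [ng_ng]; exact hd, hs⟩
    rw [sg_ng_iff]
    by_contra hsd
    have hs2 := hs.2
    rw [ng_ng] at hs2
    -- `v = μ Df d + v'`
    have hv' : v - v.2 d • Df K d ∈ Wl K l (l d.1) := by
      refine ⟨fun b hb => ?_, fun h => ?_⟩
      · show v.2 b - v.2 d * (Df K d).2 b = 0
        rw [Df_snd]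
        by_cases hb' : v.2 b = 0
        · split_ifs with hE
          · rcases hE with hE | hE
            · rw [hE, mul_one, sub_self]
            · rw [hE, hL2, mul_one, sub_self]
          · rw [hb', mul_zero, sub_zero]
        · have hE : Eq4 d b := hl.2.2 d b (le_antisymm (hm b hb') hb)
          rw [if_pos hE]
          rcases hE with hE | hE
          · rw [hE, mul_one, sub_self]
          · rw [hE, hL2, mul_one, sub_self]
      · show v.1 - v.2 d • (Df K d).1 = 0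
        rw [Df_fst, smul_zero, sub_zero]
        by_contra h5
        have := hs2 h5
        omega
    have hip1 : ip C6 (sg d).1 (ng d).1 = 0 := by
      rw [ng_val, ip_neg_right, ip_comm H.symm, cb_self d hsd, neg_zero]
    have e1 : br (Df K d) (e K (ng d)) = -hh C6 (zk d.1) := by
      rw [Df_short hsd, map_add, LinearMap.add_apply, br_e_ng H, br_e_e_zero H hip1.ge, add_zero]
    have hq : br v (e K (ng d)) + v.2 d • hh C6 (zk d.1) ∈ Wl K l 0 := by
      have h5 : br v (e K (ng d)) + v.2 d • hh C6 (zk d.1) =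
          br (v - v.2 d • Df K d) (e K (ng d)) := by
        rw [map_sub, LinearMap.sub_apply, map_smul, LinearMap.smul_apply, e1]
        module
      rw [h5]
      have h6 := M4_br l hv' (M4_e (K := K) l (ng d) (m := -l d.1 - 1) (by rw [M4_ng]; omega))
      have h7 : l d.1 + (-l d.1 - 1) + 1 = 0 := by ring
      rwa [h7] at h6
    have hvW : v ∈ Wl K l (l d.1 - 1) := by
      refine ⟨fun b hb => ?_, fun h => ?_⟩
      · by_contra h5
        have := hm b h5
        omega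
      · by_contra h5
        have := hs2 h5
        omega
    have h8 : br v (br v (e K (ng d)) + v.2 d • hh C6 (zk d.1)) ∈ Wl K l (l d.1) := by
      have h6 := M4_br l hvW hq
      have h7 : l d.1 - 1 + 0 + 1 = l d.1 := by ring
      rwa [h7] at h6
    have h9 : br (v - v.2 d • Df K d) (hh C6 (zk d.1)) ∈ Wl K l (l d.1) := by
      have h6 := M4_br l hv' (M4_hh (K := K) l (zk d.1) (m := -1) (by norm_num))
      have h7 : l d.1 + -1 + 1 = l d.1 := by ring
      rwa [h7] at h6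
    have hf1 : fk C6 (zk d.1 : Fin 6 → K) (zk (sg d).1) = 0 := by
      rw [fk_zk_zk, cb_self d hsd, Int.cast_zero]
    have hf2 : fk C6 (zk d.1 : Fin 6 → K) (zk d.1) = 2 := by
      rw [fk_zk_zk, d.2]
      norm_num
    have e2 : br (Df K d) (hh C6 (zk d.1)) = (-2 : K) • e K d := by
      rw [Df_short hsd, map_add, LinearMap.add_apply, br_e_hh, br_e_hh, hf2, hf1,
        neg_zero, zero_smul, add_zero]
    have h10 := hv (e K (ng d))
    rw [fm_e_right, ng_ng] at h10
    -- compare coordinates at `sg d`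
    have h11 := h8.1 (sg d) (M4_sg hl.1 d).le
    have h12 := h9.1 (sg d) (M4_sg hl.1 d).le
    rw [map_sub, LinearMap.sub_apply, map_smul, LinearMap.smul_apply, e2] at h12
    have h13 : (br v (hh C6 (zk d.1))).2 (sg d) = 0 := by
      have h14 : (br v (hh C6 (zk d.1))).2 (sg d) - v.2 d * ((-2 : K) * (e K d).2 (sg d)) = 0 :=
        h12
      rwa [e_snd_ne hsd, mul_zero, mul_zero, sub_zero] at h14
    rw [map_add, h10, map_smul] at h11
    have h15 : (-2 * -v.2 d) * v.2 (sg d) + v.2 d * (br v (hh C6 (zk d.1))).2 (sg d) = 0 := h11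
    rw [h13, hL2, mul_zero, add_zero] at h15
    have h16 : (2 : K) * (v.2 d * v.2 d) = 0 := by linear_combination h15
    exact hd (M4_sq ((mul_eq_zero.1 h16).resolve_left (two_ne H)))
  · exfalso
    have key : ∀ b : Rt C6, l b.1 < 0 → fk C6 v.1 (zk b.1) = 0 := by
      intro b hb
      have h3 : v - hh C6 v.1 ∈ Wl K l 0 := M4_pos h2
      have hvW : v ∈ Wl K l (-1) := by
        refine ⟨fun d hd => ?_, fun h => by omega⟩
        by_contra h5
        have := h2 d h5
        omega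
      have h4 : br v (e K b) - fk C6 v.1 (zk b.1) • e K b ∈ Wl K l (l b.1) := by
        have h5 : br v (e K b) - fk C6 v.1 (zk b.1) • e K b = br (v - hh C6 v.1) (e K b) := by
          rw [map_sub, LinearMap.sub_apply, br_hh_e]
        rw [h5]
        have h6 := M4_br l h3 (M4_e (K := K) l b (m := l b.1 - 1) (by omega))
        have h7 : 0 + (l b.1 - 1) + 1 = l b.1 := by ring
        rwa [h7] at h6
      have h5 : br v (br v (e K b) - fk C6 v.1 (zk b.1) • e K b) ∈ Wl K l (l b.1) := by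
        have h6 := M4_br l hvW h4
        have h7 : -1 + l b.1 + 1 = l b.1 := by ring
        rwa [h7] at h6
      have h6 := h5.1 b le_rfl
      have h7 := h4.1 b le_rfl
      have h8 : (br v (e K b)).2 b - fk C6 v.1 (zk b.1) * (e K b).2 b = 0 := h7
      rw [e_snd_self, mul_one, sub_eq_zero] at h8
      rw [map_sub, hv, map_smul] at h6
      have h9 : (-2 * fm v (e K b)) * v.2 b - fk C6 v.1 (zk b.1) * (br v (e K b)).2 b = 0 := h6
      have h10 : v.2 b = 0 := by
        by_contra h11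
        have := h2 b h11
        omega
      rw [h10, mul_zero, zero_sub, neg_eq_zero, h8] at h9
      exact M4_sq h9
    apply h1
    refine nds H hL1 fun b => ?_
    by_cases hb : l b.1 < 0
    · exact key b hb
    · have h3 := hl.2.1 b
      have h4 := key (ng b) (by rw [M4_ng]; omega)
      rwa [M4_fk_ng, neg_eq_zero] at h4

/-- white vectors which are not central: the minimal weight is a short root -/
theorem min_wh (H : HypW C6 K) {v : LL C6 K} (hv : IsW v) (hL : v ∈ VF K)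
    (h0 : ∃ x : LL C6 K, br v x ≠ 0) {l : (Fin 6 → ℤ) →+ ℤ} (hl : Inj4 l) :
    ∃ a : Rt C6, sg a ≠ a ∧ v.2 (ng a) ≠ 0 ∧ Sup l a v := by
  obtain ⟨hL1, hL2⟩ := (mem_VF' v).1 hL
  have hne : v ≠ 0 := by
    rintro rfl
    obtain ⟨x, hx⟩ := h0
    exact hx (by rw [map_zero, LinearMap.zero_apply])
  rcases M4_alt hl hne with ⟨d, hd, hs, hm⟩ | ⟨h1, h2⟩
  · refine ⟨ng d, ?_, by rw [ng_ng]; exact hd, hs⟩
    rw [ne_eq, sg_ng_iff]
    intro hsd
    exact hd (VF_long H hL hsd)
  · exfalso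
    have hpos : ∀ b : Rt C6, l b.1 < 0 → sg b ≠ b → fk C6 v.1 (zk b.1) = 0 := by
      intro b hb hsb
      have h3 : v - hh C6 v.1 ∈ Wl K l 0 := M4_pos h2
      have h4 : br v (wf K b) - fk C6 v.1 (zk b.1) • Df K b ∈ Wl K l (l b.1) := by
        have h5 : br v (wf K b) - fk C6 v.1 (zk b.1) • Df K b = br (v - hh C6 v.1) (wf K b) := by
          rw [map_sub, LinearMap.sub_apply, br_k_w _ hL1 b hsb]
        rw [h5]
        have h6 := M4_br l h3 (M4_w (K := K) hl.1 b (m := l b.1 - 1) (by omega))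
        have h7 : 0 + (l b.1 - 1) + 1 = l b.1 := by ring
        rwa [h7] at h6
      have h4' : br v (Df K b) - fk C6 v.1 (zk b.1) • wf K b ∈ Wl K l (l b.1) := by
        have h5 : br v (Df K b) - fk C6 v.1 (zk b.1) • wf K b = br (v - hh C6 v.1) (Df K b) := by
          rw [map_sub, LinearMap.sub_apply, br_k_D _ hL1 b hsb]
        rw [h5]
        have h6 := M4_br l h3 (M4_D (K := K) hl.1 b (m := l b.1 - 1) (by omega))
        have h7 : 0 + (l b.1 - 1) + 1 = l b.1 := by ring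
        rwa [h7] at h6
      have hvW : v ∈ Wl K l (-1) := by
        refine ⟨fun d hd => ?_, fun h => by omega⟩
        by_contra h5
        have := h2 d h5
        omega
      have h5 : br v (br v (wf K b) - fk C6 v.1 (zk b.1) • Df K b) ∈ Wl K l (l b.1) := by
        have h6 := M4_br l hvW h4
        have h7 : -1 + l b.1 + 1 = l b.1 := by ring
        rwa [h7] at h6
      have h6 := h5.1 b le_rfl
      have h7 := h4'.1 b le_rfl
      have h8 : (br v (Df K b)).2 b - fk C6 v.1 (zk b.1) * (wf K b).2 b = 0 := h7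
      rw [(wf_snd_self hsb).1, mul_one, sub_eq_zero] at h8
      rw [map_sub, hv _ (wf_mem b), map_smul] at h6
      have h9 : (-fm v (wf K b)) * v.2 b - fk C6 v.1 (zk b.1) * (br v (Df K b)).2 b = 0 := h6
      have h10 : v.2 b = 0 := by
        by_contra h11
        have := h2 b h11
        omega
      rw [h10, mul_zero, zero_sub, neg_eq_zero, h8] at h9
      exact M4_sq h9
    have key : ∀ b : Rt C6, fk C6 v.1 (zk b.1) = 0 := by
      intro b
      by_cases hsb : sg b = b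
      · exact fk_anti_long H v.1 hL1 b hsb
      · by_cases hb : l b.1 < 0
        · exact hpos b hb hsb
        · have h3 := hl.2.1 b
          have h4 := hpos (ng b) (by rw [M4_ng]; omega) (fun h => hsb ((sg_ng_iff b).1 h))
          rwa [M4_fk_ng, neg_eq_zero] at h4
    have hz : ∀ x : LL C6 K, br (hh C6 v.1) x = 0 := by
      intro x
      have h3 : br (hh C6 v.1) = (0 : LL C6 K →ₗ[K] LL C6 K) := by
        refine ext_basis (fun h => ?_) (fun a => ?_)
        · rw [br_hh_hh]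
          rfl
        · rw [br_hh_e, key, zero_smul]
          rfl
      rw [h3]
      rfl
    have h3 : ∃ d0 : Rt C6, v.2 d0 ≠ 0 := by
      by_contra h3
      obtain ⟨x, hx⟩ := h0
      have h4 : v = hh C6 v.1 := by
        refine Prod.ext rfl (funext fun d => ?_)
        by_contra h4
        exact h3 ⟨d, h4⟩
      rw [h4] at hx
      exact hx (hz x)
    obtain ⟨d0, hd0⟩ := h3
    obtain ⟨d, hd, -, hm⟩ := M4_min l hd0
    have hld : 0 < l d.1 := h2 d hd
    have hsd : sg d ≠ d := fun h => hd (VF_long H hL h)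
    have hsn : sg (ng d) ≠ ng d := fun h => hsd ((sg_ng_iff d).1 h)
    have h4 : v - hh C6 v.1 ∈ Wl K l (l d.1 - 1) := M4_pos fun d' hd' => by
      have := hm d' hd'
      omega
    have hbr : ∀ x : LL C6 K, br v x = br (v - hh C6 v.1) x := by
      intro x
      rw [map_sub, LinearMap.sub_apply, hz, sub_zero]
    have h5 : br v (wf K (ng d)) ∈ Wl K l (-1) := by
      rw [hbr]
      have h6 := M4_br l h4 (M4_w (K := K) hl.1 (ng d) (m := -l d.1 - 1) (by rw [M4_ng]; omega))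
      have h7 : l d.1 - 1 + (-l d.1 - 1) + 1 = -1 := by ring
      rwa [h7] at h6
    have h6 : br v (br v (wf K (ng d))) ∈ Wl K l (l d.1 - 1) := by
      rw [hbr]
      have h6 := M4_br l h4 h5
      have h7 : l d.1 - 1 + -1 + 1 = l d.1 - 1 := by ring
      rwa [h7] at h6
    rw [hv _ (wf_mem _), fm_comm H, fm_w H hL _ hsn, ng_ng] at h6
    have h7 := h6.2 (by omega)
    have h8 : (-(-2 * v.2 d)) • v.1 = 0 := h7
    rcases smul_eq_zero.1 h8 with h9 | h9
    · have h10 : (2 : K) * v.2 d = 0 := by linear_combination h9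
      exact hd ((mul_eq_zero.1 h10).resolve_left (two_ne H))
    · exact h1 h9

theorem min4 (H : HypW C6 K) {g : LL C6 K ≃ₗ[K] LL C6 K} (hg : g ∈ GF K) (c : Rt C6)
    {l : (Fin 6 → ℤ) →+ ℤ} (hl : Inj4 l) :
    ∃ a : Rt C6, (sg c = c ↔ sg a = a) ∧ (g (pv K c)).2 (ng a) ≠ 0 ∧ Sup l a (g (pv K c)) := by
  have hG : g ∈ GG C6 K := GF_le_GG hg
  by_cases hc : sg c = c
  · have h1 : IsExt (g (pv K c)) := by
      rw [pv_long hc]
      exact IsExt_map (isExt_e H c) hG
    have h2 : g (pv K c) ∈ LF K := by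
      rw [GF_LF hg, pv_long hc, ← Df_long hc]
      exact Df_mem c
    have h3 : g (pv K c) ≠ 0 := fun h => pv_ne_zero H c (by
      rwa [LinearEquiv.map_eq_zero_iff] at h)
    obtain ⟨a, ha, hb, hs⟩ := min_ext H h1 h2 h3 hl
    exact ⟨a, ⟨fun _ => ha, fun _ => hc⟩, hb, hs⟩
  · have h1 : IsW (g (pv K c)) := by
      rw [pv_short hc]
      exact isW_map (isW_wf H c hc) hg
    have h2 : g (pv K c) ∈ VF K := by
      rw [GF_VF hg, pv_short hc]
      exact wf_mem c
    have h3 : ∃ x : LL C6 K, br (g (pv K c)) x ≠ 0 := by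
      refine ⟨g (wf K (ng c)), ?_⟩
      rw [← hG.1, pv_short hc, br_w_wng H c hc]
      intro h4
      rw [LinearEquiv.map_eq_zero_iff, neg_eq_zero] at h4
      have h5 : (zk (cv c) : Fin 6 → K) = 0 := congrArg Prod.fst h4
      have h6 := fk_zk_zk (K := K) (C := C6) (cv c) c.1
      have h7 : ip C6 (cv c) c.1 = 2 := dg_self c
      rw [h5, fk_zero_left, h7] at h6
      exact two_ne H (by exact_mod_cast h6.symm)
    obtain ⟨a, ha, hb, hs⟩ := min_wh H h1 h2 h3 hl
    exact ⟨a, ⟨fun h => absurd h hc, fun h => absurd h ha⟩, hb, hs⟩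

/-! ### a functional refining the degree -/

/-- an invariant functional, injective on the roots of F_4 -/
private def M4_l : (Fin 6 → ℤ) →+ ℤ where
  toFun x := x 0 + 16 * x 1 + 256 * (x 2 + x 3) + 4096 * (x 4 + x 5)
  map_zero' := rfl
  map_add' x y := by
    simp only [Pi.add_apply]
    ring

private theorem M4_l_apply (x : Fin 6 → ℤ) :
    M4_l x = x 0 + 16 * x 1 + 256 * (x 2 + x 3) + 4096 * (x 4 + x 5) := rfl

private theorem M4_l_sv (x : Fin 6 → ℤ) : M4_l (sv x) = M4_l x := by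
  rw [M4_l_apply, M4_l_apply]
  show x 0 + 16 * x 1 + 256 * (x 3 + x 2) + 4096 * (x 5 + x 4) = _
  ring

private theorem M4_list : ∀ x ∈ P6, ∀ i : Fin 6, 0 ≤ x i ∧ x i ≤ 3 := by decide

private theorem M4_bd (a : Rt C6) (i : Fin 6) : -3 ≤ a.1 i ∧ a.1 i ≤ 3 := by
  rcases P6_complete a with h | h
  · have := M4_list _ h i
    omega
  · have h1 := M4_list _ h i
    have h2 : (-a.1) i = -(a.1 i) := rfl
    rw [h2] at h1
    omega

private theorem M4_inj (a b : Rt C6) (h : M4_l a.1 = M4_l b.1) : Eq4 a b := by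
  rw [M4_l_apply, M4_l_apply] at h
  rw [Eq4_iff]
  have ha := M4_bd a
  have hb := M4_bd b
  have a0 := ha 0
  have a1 := ha 1
  have a2 := ha 2
  have a3 := ha 3
  have a4 := ha 4
  have a5 := ha 5
  have b0 := hb 0
  have b1 := hb 1
  have b2 := hb 2
  have b3 := hb 3
  have b4 := hb 4
  have b5 := hb 5
  have e0 : a.1 0 = b.1 0 := by omega
  have e1 : a.1 1 = b.1 1 := by omega
  have e2 : a.1 2 + a.1 3 = b.1 2 + b.1 3 := by omega
  have e3 : a.1 4 + a.1 5 = b.1 4 + b.1 5 := by omega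
  funext i
  fin_cases i
  · show a.1 0 + a.1 0 = b.1 0 + b.1 0
    omega
  · show a.1 1 + a.1 1 = b.1 1 + b.1 1
    omega
  · show a.1 2 + a.1 3 = b.1 2 + b.1 3
    omega
  · show a.1 3 + a.1 2 = b.1 3 + b.1 2
    omega
  · show a.1 4 + a.1 5 = b.1 4 + b.1 5
    omega
  · show a.1 5 + a.1 4 = b.1 5 + b.1 4
    omega

private theorem M4_ne (a : Rt C6) : M4_l a.1 ≠ 0 := by
  intro h
  have h1 : M4_l (ng a).1 = -M4_l a.1 := map_neg M4_l a.1
  have h2 : Eq4 a (ng a) := M4_inj a (ng a) (by rw [h1, h]; rfl)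
  have h3 : dg a (ng a) = -2 := by rw [dg_ng_right, dg_self]
  have h4 : dg a (ng a) = 2 := by
    rcases h2 with h2 | h2
    · rw [h2, dg_self]
    · rw [h2, dg_sg_right, dg_self]
  omega

private theorem M4_lbd (a : Rt C6) : -50000 < M4_l a.1 ∧ M4_l a.1 < 50000 := by
  rw [M4_l_apply]
  have ha := M4_bd a
  have a0 := ha 0
  have a1 := ha 1
  have a2 := ha 2
  have a3 := ha 3
  have a4 := ha 4
  have a5 := ha 5
  omega

/-- a functional refining the degree -/
theorem refine4 (d : Fin 6 → ℤ) (hd : sv d = d) : ∃ l : (Fin 6 → ℤ) →+ ℤ, Inj4 l ∧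
    (∀ a b : Rt C6, ip C6 d a.1 < ip C6 d b.1 → l a.1 < l b.1) ∧
    ∀ a : Rt C6, 0 < ip C6 d a.1 → 0 < l a.1 := by
  let l : (Fin 6 → ℤ) →+ ℤ :=
    { toFun := fun x => 100000 * ip C6 d x + M4_l x
      map_zero' := by rw [ip_zero_right, map_zero]; rfl
      map_add' := fun x y => by
        rw [ip_add_right, map_add]
        ring }
  have hl : ∀ x, l x = 100000 * ip C6 d x + M4_l x := fun _ => rfl
  have hsv : ∀ x, ip C6 d (sv x) = ip C6 d x := by
    intro x
    have h := ip_sv d x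
    rwa [hd] at h
  refine ⟨l, ⟨fun x => ?_, fun a => ?_, fun a b h => ?_⟩, fun a b h => ?_, fun a h => ?_⟩
  · rw [hl, hl, hsv, M4_l_sv]
  · rw [hl]
    have h1 := M4_lbd a
    have h2 := M4_ne a
    omega
  · rw [hl, hl] at h
    have h1 := M4_lbd a
    have h2 := M4_lbd b
    exact M4_inj a b (by omega)
  · rw [hl, hl]
    have h1 := M4_lbd a
    have h2 := M4_lbd b
    omega
  · rw [hl]
    have h1 := M4_lbd a
    omega

/-- an extremal vector of `LF` supported on short roots vanishes -/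
theorem ext_short (H : HypW C6 K) {v : LL C6 K} (hv : IsExt v) (hL : v ∈ LF K)
    (hs : ∀ d : Rt C6, sg d = d → v.2 d = 0) : v = 0 := by
  by_contra h0
  have hz : sv (0 : Fin 6 → ℤ) = 0 := rfl
  obtain ⟨l, hl, -, -⟩ := refine4 0 hz
  obtain ⟨a, ha, hb, -⟩ := min_ext H hv hL h0 hl
  exact hb (hs (ng a) ((sg_ng_iff a).2 ha))

/-- a root vector of a short root is not extremal -/
theorem not_ext_short (H : HypW C6 K) (a : Rt C6) (ha : sg a ≠ a) {k : K} (hk : k ≠ 0) :
    ¬ IsExt (k • Df K a) := by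
  intro h
  have h1 : k • Df K a = 0 := by
    refine ext_short H h (Submodule.smul_mem _ _ (Df_mem a)) fun d hd => ?_
    show k * (Df K a).2 d = 0
    rw [Df_snd, if_neg, mul_zero]
    intro hE
    exact ha ((Eq4_len hE).2 hd)
  rcases smul_eq_zero.1 h1 with h2 | h2
  · exact hk h2
  · exact Df_ne_zero a h2

end Pool.Agent.H31.F4
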