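import Pool.Agent.H31.F4.PG4
import Pool.Agent.H31.F4.Lpos

/-!
# FF-27: the graded image of a subgroup of `Par d` (adapt EL/CAe.lean)

`F ≤ Par d`, `T4 ≤ F ≤ GF`, `sv d = d`, `grF4 H d F` the image of `F` under `gr`.
(i) `grF4_TT`: `t ∈ TT` and `t ∈ grF4 ≤ GF`, so `t ∈ T4 ≤ F` (`T4_eq`).
(ii) `grF4_SF`: let `a ∈ SF4 (grF4 H d F)`.  `xf a 1 = gr f` preserves the grading (`gr_grd`); it maps
`Df (ng a)` to `Df (ng a) - hh (zk (cv a)) + …`, with non zero toral part (`zk (cv a) ≠ 0`: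
`fk (zk (cv a)) (zk a) = dg a a = 2`), so `ip d a = 0`.  Let
`P = {f ∈ F : gr f ∈ {xf a s : s ∈ K}}`, a subgroup (as a subgroup of the ambient group),
`T4`-invariant, a `p`-group (it has the normal `p`-subgroup `F ⊓ Rad d` (`Rad_pgroup`), and the quotient
embeds into `{xf a s}`; `xf_pow`); some `f ∈ P` has `gr f = xf a 1 ≠ 1`.  By `pg4` `P` is generated by
`xf b s`, `b ∈ SF4 P`; `xf b s ∈ Par d` forces `0 ≤ ip d b` (`deg_of_Par`); not all of the generators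
are in the kernel of `gr` (`xf_mem_Rad`, `mem_Rad`), so there is `b ∈ SF4 P` with `ip d b = 0`, and
`gr (xf b s) = xf b s` (`gr_xf_zero`) is some `xf a s'`; for `s = 1` (`s' ≠ 0`) act on `Df (ng b)`:
the toral part is `- zk (cv b)`; so `Df (ng b)` is not fixed by `xf a s'` and the first order term has
toral part: `(br (Df a) (Df (ng b))).1 ≠ 0` or second order …: simplest: compare
`xf a s' = xf b 1` on `hh h` with `sv h = h` (`xf_hh`): `s' (h,a) Df a = (h,b) Df b` for all such `h`; choose `h`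
with `(h,b) ≠ 0` (e.g. `zk (cv b)`, value 2): `Df b = k Df a`, so `Eq4 a b` (`Df_snd`).
So `a ∈ SF4 P ⊆ SF4 F` (`SF4_Eq4`).
(iii) `grF4_card`: the kernel of `gr` on `F` is `F ⊓ Rad d ≠ 1` (`finite4`).
(iv) `Fo_gr`: `Fo4 (grF4 H d F) ≤ Fo4 F`, its elements are in `Par d` and fixed by `gr`: induction on
the closure (`T4_le_TT`, `gr_TT`, `gr_xf_zero`).
-/

namespace Pool.Agent.H31.F4

open Pool.Agent.H33.EL (ip cc eps Rt ng zk ek fk LL hh e brf fmf br fm IsExt exl ex xr hd L0 GG T1 TT NN SF cj wt)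

variable {K : Type} [Field K]

/-- the graded image -/
noncomputable def grF4 (H : HypW C6 K) (d : Fin 6 → ℤ) (F : Subgroup (LL C6 K ≃ₗ[K] LL C6 K)) :
    Subgroup (LL C6 K ≃ₗ[K] LL C6 K) := (F.subgroupOf (Par C6 K d)).map (gr H d)

theorem mem_grF4 (H : HypW C6 K) (d : Fin 6 → ℤ) (F : Subgroup (LL C6 K ≃ₗ[K] LL C6 K))
    (x : LL C6 K ≃ₗ[K] LL C6 K) :
    x ∈ grF4 H d F ↔ ∃ g : Par C6 K d, (g : LL C6 K ≃ₗ[K] LL C6 K) ∈ F ∧ gr H d g = x := by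
  simp [grF4, Subgroup.mem_map, Subgroup.mem_subgroupOf]

theorem grF4_le (H : HypW C6 K) {d : Fin 6 → ℤ} (hd : sv d = d)
    {F : Subgroup (LL C6 K ≃ₗ[K] LL C6 K)} (hF : F ≤ GF K) : grF4 H d F ≤ GF K := by
  intro x hx
  obtain ⟨g, hg, rfl⟩ := (mem_grF4 H d F x).1 hx
  exact gr_mem_GF H hd g (hF hg)

theorem T4_le_grF4 (H : HypW C6 K) (d : Fin 6 → ℤ) {F : Subgroup (LL C6 K ≃ₗ[K] LL C6 K)}
    (hT : T4 K ≤ F) : T4 K ≤ grF4 H d F := by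
  intro t ht
  exact (mem_grF4 H d F t).2 ⟨⟨t, TT_le_Par H d (T4_le_TT H ht)⟩, hT ht,
    gr_TT H (T4_le_TT H ht)⟩

theorem grF4_TT (H : HypW C6 K) {d : Fin 6 → ℤ} (hd : sv d = d)
    {F : Subgroup (LL C6 K ≃ₗ[K] LL C6 K)} (hF : F ≤ GF K) (hT : T4 K ≤ F)
    {t : LL C6 K ≃ₗ[K] LL C6 K} (ht : t ∈ grF4 H d F) (ht' : t ∈ TT C6 K) : t ∈ F :=
  hT (T4_eq H ht' (grF4_le H hd hF ht))

private theorem gr4_fk (b : Rt C6) :
    sv (zk (cv b) : Fin 6 → K) = zk (cv b) ∧ fk C6 (zk (cv b) : Fin 6 → K) (zk b.1) = 2 := by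
  refine ⟨by rw [← zk_sv, sv_cv], ?_⟩
  rw [fk_zk_zk]
  have h5 : ip C6 (cv b) b.1 = 2 := dg_self b
  rw [h5]
  norm_num

private theorem gr4_hh (H : HypW C6 K) (a b : Rt C6) (s : K) :
    (xf a s (hh C6 (zk (cv b)))).2 b =
      -(s * fk C6 (zk (cv b) : Fin 6 → K) (zk a.1)) * (if Eq4 a b then 1 else 0) := by
  rw [xf_hh H a s _ (gr4_fk b).1]
  have h1 : (hh C6 (zk (cv b) : Fin 6 → K) -
      (s * fk C6 (zk (cv b) : Fin 6 → K) (zk a.1)) • Df K a).2 b =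
      0 - (s * fk C6 (zk (cv b) : Fin 6 → K) (zk a.1)) * (Df K a).2 b := rfl
  rw [h1, Df_snd, zero_sub, neg_mul]

theorem grF4_SF_deg (H : HypW C6 K) {d : Fin 6 → ℤ} (hd : sv d = d)
    {F : Subgroup (LL C6 K ≃ₗ[K] LL C6 K)} (hF : F ≤ GF K) {a : Rt C6}
    (ha : a ∈ SF4 (grF4 H d F)) : ip C6 d a.1 = 0 := by
  obtain ⟨g, -, hg⟩ := (mem_grF4 H d F _).1 (ha 1)
  by_contra hne
  have h1 := gr_grd H g (Fil_hh_grd d (zk (cv a) : Fin 6 → K))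
  rw [hg] at h1
  have h2 := h1.1 a hne
  have hE : Eq4 a a := Or.inl rfl
  rw [gr4_hh H, if_pos hE, (gr4_fk a).2, mul_one, one_mul, neg_eq_zero] at h2
  exact two_ne H h2

/-- the elements of `F` whose graded part is in the root group of `a` -/
def gr4_P (H : HypW C6 K) (d : Fin 6 → ℤ) (F : Subgroup (LL C6 K ≃ₗ[K] LL C6 K)) (a : Rt C6) :
    Subgroup (LL C6 K ≃ₗ[K] LL C6 K) where
  carrier := {g | g ∈ F ∧ ∃ h : g ∈ Par C6 K d, ∃ s : K, gr H d ⟨g, h⟩ = xf a s}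
  one_mem' := ⟨one_mem _, one_mem _, 0, by
    rw [xf_zero H]
    exact map_one (gr H d)⟩
  mul_mem' := by
    rintro g g' ⟨h1, h2, s, h3⟩ ⟨h1', h2', s', h3'⟩
    refine ⟨mul_mem h1 h1', mul_mem h2 h2', s + s', ?_⟩
    rw [xf_add H, ← h3, ← h3', ← map_mul]
    rfl
  inv_mem' := by
    rintro g ⟨h1, h2, s, h3⟩
    refine ⟨inv_mem h1, inv_mem h2, -s, ?_⟩
    rw [xf_neg H, ← h3, ← map_inv]
    rfl

theorem gr4_P_pgroup (H : HypW C6 K) {p : ℕ} [Fact p.Prime] [CharP K p] (d : Fin 6 → ℤ)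
    (F : Subgroup (LL C6 K ≃ₗ[K] LL C6 K)) (a : Rt C6) : IsPGroup p (gr4_P H d F a) := by
  rintro ⟨g, hg⟩
  obtain ⟨-, h2, s, h3⟩ := hg
  have h4 : gr H d (⟨g, h2⟩ ^ p) = 1 := by
    rw [map_pow, h3, xf_pow H, CharP.cast_eq_zero, zero_mul, xf_zero H]
  have h5 : g ^ p ∈ Rad H d := (mem_Rad H ((⟨g, h2⟩ : Par C6 K d) ^ p)).2 h4
  obtain ⟨k, hk⟩ := Rad_pgroup H (p := p) d ⟨g ^ p, h5⟩
  refine ⟨k + 1, Subtype.ext ?_⟩
  have h6 : (g ^ p) ^ p ^ k = 1 := congrArg Subtype.val hk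
  show g ^ p ^ (k + 1) = 1
  rw [pow_succ', pow_mul, h6]

theorem grF4_SF (H : HypW C6 K) {p : ℕ} [Fact p.Prime] [CharP K p] {d : Fin 6 → ℤ} (hd : sv d = d)
    {F : Subgroup (LL C6 K ≃ₗ[K] LL C6 K)} (hF : F ≤ GF K) (hT : T4 K ≤ F) {a : Rt C6}
    (ha : a ∈ SF4 (grF4 H d F)) : a ∈ SF4 F := by
  have hPG : gr4_P H d F a ≤ GF K := fun g hg => hF hg.1
  have hTP : ∀ t ∈ T4 K, ∀ u ∈ gr4_P H d F a, t * u * t⁻¹ ∈ gr4_P H d F a := by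
    rintro t ht u ⟨h1, h2, s, h3⟩
    have ht1 := T4_le_TT H ht
    have ht2 := TT_le_Par H d ht1
    refine ⟨mul_mem (mul_mem (hT ht) h1) (inv_mem (hT ht)),
      mul_mem (mul_mem ht2 h2) (inv_mem ht2), wt t a * s, ?_⟩
    rw [← T4_conj_xf H ht, ← h3]
    have h4 : gr H d ⟨t, ht2⟩ = t := gr_TT H ht1
    conv_rhs => rw [← h4]
    rw [← map_inv, ← map_mul, ← map_mul]
    rfl
  have hpg := pg4 H (gr4_P H d F a) (gr4_P_pgroup (p := p) H d F a) hPG hTP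
  obtain ⟨f, hfF, hf⟩ := (mem_grF4 H d F _).1 (ha 1)
  have hfP : (f : LL C6 K ≃ₗ[K] LL C6 K) ∈ gr4_P H d F a := ⟨hfF, f.2, 1, hf⟩
  -- some root of degree zero
  obtain ⟨b, hb, hb0⟩ : ∃ b ∈ SF4 (gr4_P H d F a), ip C6 d b.1 = 0 := by
    by_contra hcon
    push Not at hcon
    have h1 : gr4_P H d F a ≤ Rad H d := by
      refine hpg.trans ?_
      rw [Subgroup.closure_le]
      rintro _ ⟨b, hb, s, rfl⟩
      have h2 := deg_of_Par H hd (a := b) (fun s => (hb s).2.1)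
      have h3 : 0 < ip C6 d b.1 := lt_of_le_of_ne h2 (Ne.symm (hcon b hb))
      exact xf_mem_Rad H hd s h3
    have h2 := (mem_Rad H f).1 (h1 hfP)
    rw [hf, ← xf_zero H a] at h2
    exact one_ne_zero (xf_inj H a h2)
  obtain ⟨-, h2, s, h3⟩ := hb 1
  have h4 : xf b (1 : K) = xf a s := by
    rw [← h3]
    exact (gr_xf_zero H hd 1 hb0 h2).symm
  have hab : Eq4 a b := by
    by_contra hne
    have h5 := gr4_hh H a b s
    have hE : Eq4 b b := Or.inl rfl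
    rw [← h4, gr4_hh H, if_pos hE, if_neg hne, (gr4_fk b).2, mul_one, one_mul, mul_zero,
      neg_eq_zero] at h5
    exact two_ne H h5
  exact SF4_Eq4 (Eq4_symm hab) fun s' => (hb s').1

theorem grF4_card (H : HypW C6 K) (d : Fin 6 → ℤ) (F : Subgroup (LL C6 K ≃ₗ[K] LL C6 K))
    (hF : F ≤ Par C6 K d) (hR : F ⊓ Rad H d ≠ ⊥) :
    Nat.card (grF4 H d F) < Nat.card F := by
  haveI := finite4 H
  by_contra hcon
  push Not at hcon
  let φ : F → grF4 H d F := fun x =>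
    ⟨gr H d ⟨x, hF x.2⟩, (mem_grF4 H d F _).2 ⟨⟨x, hF x.2⟩, x.2, rfl⟩⟩
  have hφ : Function.Surjective φ := by
    rintro ⟨y, hy⟩
    obtain ⟨g, hg, rfl⟩ := (mem_grF4 H d F y).1 hy
    exact ⟨⟨g, hg⟩, rfl⟩
  have hφ' : Function.Injective φ := (hφ.bijective_of_nat_card_le hcon).1
  apply hR
  rw [eq_bot_iff]
  rintro x ⟨hx1, hx2⟩
  have h1 : φ ⟨x, hx1⟩ = φ ⟨1, one_mem F⟩ := by
    apply Subtype.ext
    show gr H d ⟨x, hF hx1⟩ = gr H d ⟨1, hF (one_mem F)⟩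
    rw [(mem_Rad H ⟨x, hF hx1⟩).1 hx2]
    exact (map_one (gr H d)).symm
  have h2 := congrArg Subtype.val (hφ' h1)
  exact Subgroup.mem_bot.2 h2

theorem Fo_gr (H : HypW C6 K) {p : ℕ} [Fact p.Prime] [CharP K p] {d : Fin 6 → ℤ} (hd : sv d = d)
    {F : Subgroup (LL C6 K ≃ₗ[K] LL C6 K)} (hF : F ≤ GF K) (hT : T4 K ≤ F)
    {c : LL C6 K ≃ₗ[K] LL C6 K} (hc : c ∈ Fo4 (grF4 H d F)) :
    c ∈ Fo4 F ∧ ∃ h : c ∈ Par C6 K d, gr H d ⟨c, h⟩ = c := by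
  unfold Fo4 at hc
  induction hc using Subgroup.closure_induction with
  | mem u hu =>
    rcases hu with hu | ⟨a, ha, s, rfl⟩
    · exact ⟨T4_le_Fo4 F hu, TT_le_Par H d (T4_le_TT H hu), gr_TT H (T4_le_TT H hu)⟩
    · have h0 := grF4_SF_deg H hd hF ha
      have h1 : xf a s ∈ Par C6 K d := xf_mem_Par H hd s h0.ge
      exact ⟨xf_mem_Fo4 (grF4_SF (p := p) H hd hF hT ha) s, h1, gr_xf_zero H hd s h0 h1⟩
  | one => exact ⟨one_mem _, one_mem _, map_one (gr H d)⟩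
  | mul u v _ _ hu hv =>
    obtain ⟨h1, h2, h3⟩ := hu
    obtain ⟨h4, h5, h6⟩ := hv
    refine ⟨mul_mem h1 h4, mul_mem h2 h5, ?_⟩
    have h7 : (⟨u * v, mul_mem h2 h5⟩ : Par C6 K d) = ⟨u, h2⟩ * ⟨v, h5⟩ := rfl
    rw [h7, map_mul, h3, h6]
  | inv u _ hu =>
    obtain ⟨h1, h2, h3⟩ := hu
    refine ⟨inv_mem h1, inv_mem h2, ?_⟩
    have h7 : (⟨u⁻¹, inv_mem h2⟩ : Par C6 K d) = (⟨u, h2⟩)⁻¹ := rfl
    rw [h7, map_inv, h3]

end Pool.Agent.H31.F4
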