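import Pool.Agent.H31.F4.CaA4
import Pool.Agent.H31.F4.Gr4
import Pool.Agent.H33.EL.GrpZ

/-!
# FF-28: Case A, the induction (adapt EL/CaseA.lean)

`pgroup_le_Fo4`: a `T4`-invariant `p`-subgroup `Q ≤ F ≤ GF` is in `Fo4 F`: `pg4`.
`par_case`: `F' = grF4 H d F` satisfies the hypotheses of the induction.
`Dst4 F`: let `g ∈ GF`, `g T4 g⁻¹ ≤ F ≤ Par d` (`mem_cj4`).
(1) `sz_conj` (`EL/GrpZ.lean`) with `Q = Rad d`, `A = g T4 g⁻¹` (as a subgroup, map of `T4`), `B = gr A`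
(image; `B ≤ grF4`, `b = gr a` has `b a⁻¹ ∈ Rad` since `gr (gr a) = gr a`, `gr_gr`): `u ∈ Rad d` with
`u A u⁻¹ = B`.  (`u ∈ GF`?: take `Q = Rad d ⊓ GF K`, a `p`-group normalised by `Par d ⊓ GF`; then `u ∈ GF`.)
(2) `u g T4 (u g)⁻¹ = B ≤ F'`, so `Dst4 F'` gives `c ∈ Fo4 F'` with `c⁻¹ u g ∈ NN` (and in `GF`).
`Fo_gr`: `c ∈ Fo4 F`, `c ∈ Par d`, `gr c = c`.
As `c⁻¹ u g` normalises `T4` (`NN4_conj`): `c T4 c⁻¹ = u g T4 (u g)⁻¹ = B`.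
(3) `A' = c T4 c⁻¹ = u A u⁻¹ ≤ F` (`Fo4_le`) and `A ≤ F`; for `a ∈ A`: `u a u⁻¹ a⁻¹ ∈ F ⊓ Rad d`
(`Rad_normal`).  `sz_conj` with `Q = F ⊓ Rad d` for `A', A`: `u' ∈ F ⊓ Rad d` with
`u' A' u'⁻¹ = A`.  Then `(u' c) T4 (u' c)⁻¹ = g T4 g⁻¹`, so `(u' c)⁻¹ g ∈ NN`
(`mem_NN_of_conj4`).  `u' ∈ Fo4 F` since `F ⊓ Rad d` is a `T4`-invariant `p`-group (`pgroup_le_Fo4`).
-/

namespace Pool.Agent.H31.F4

open Pool.Agent.H33.EL (ip cc eps Rt ng zk ek fk LL hh e brf fmf br fm IsExt exl ex xr hd L0 GG T1 TT NN SF cj wt)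

variable {K : Type} [Field K]

theorem pgroup_le_Fo4 (H : HypW C6 K) {p : ℕ} [Fact p.Prime] [CharP K p]
    {F Q : Subgroup (LL C6 K ≃ₗ[K] LL C6 K)} (hF : F ≤ GF K) (hQF : Q ≤ F) (hQ : IsPGroup p Q)
    (hT : ∀ t ∈ T4 K, ∀ u ∈ Q, t * u * t⁻¹ ∈ Q) : Q ≤ Fo4 F := by
  refine (pg4 H Q hQ (hQF.trans hF) hT).trans ?_
  rw [Subgroup.closure_le]
  rintro x ⟨b, hb, s, rfl⟩
  exact Subgroup.subset_closure (Or.inr ⟨b, fun s' => hQF (hb s'), s, rfl⟩)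

private theorem caseA4_gr_mul (H : HypW C6 K) {d : Fin 6 → ℤ} (g : Par C6 K d) :
    gr H d g * (g : LL C6 K ≃ₗ[K] LL C6 K)⁻¹ ∈ Rad H d := by
  have h1 := (mem_Rad H ((⟨gr H d g, gr_mem_Par H g⟩ : Par C6 K d) * g⁻¹)).2 (by
    rw [map_mul, gr_gr, map_inv, mul_inv_cancel])
  exact h1

theorem par_case (H : HypW C6 K) {p : ℕ} [Fact p.Prime] [CharP K p]
    (F : Subgroup (LL C6 K ≃ₗ[K] LL C6 K)) (hF : F ≤ GF K) (hT : T4 K ≤ F) {d : Fin 6 → ℤ}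
    (hd : sv d = d) (hP : F ≤ Par C6 K d) (hR : F ⊓ Rad H d ≠ ⊥)
    (IH : ∀ F' : Subgroup (LL C6 K ≃ₗ[K] LL C6 K), F' ≤ GF K → T4 K ≤ F' →
      Nat.card F' < Nat.card F → Dst4 F') : Dst4 F := by
  classical
  haveI := finite4 H
  have hgrle : grF4 H d F ≤ GF K := grF4_le H hd hF
  have hD : Dst4 (grF4 H d F) := IH _ hgrle (T4_le_grF4 H d hT) (grF4_card H d F hP hR)
  intro g hg hgT
  have hgF : ∀ t ∈ T4 K, g * t * g⁻¹ ∈ F := fun t ht => mem_cj4.1 (hgT ht)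
  -- the torus `A = g T4 g⁻¹`
  let A : Subgroup (LL C6 K ≃ₗ[K] LL C6 K) := (T4 K).map (MulAut.conj g).toMonoidHom
  have hAmem : ∀ t ∈ T4 K, g * t * g⁻¹ ∈ A := fun t ht => ⟨t, ht, rfl⟩
  have hAF : A ≤ F := by
    rintro _ ⟨t, ht, rfl⟩
    exact hgF t ht
  have hcA : ¬ p ∣ Nat.card A := by
    have h1 : Nat.card A = Nat.card (T4 K) :=
      Subgroup.card_map_of_injective (MulAut.conj g).injective
    rw [h1]
    exact T4_card H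
  let B : Subgroup (LL C6 K ≃ₗ[K] LL C6 K) := grF4 H d A
  have hBF : B ≤ grF4 H d F := by
    intro x hx
    obtain ⟨y, hy, hyx⟩ := (mem_grF4 H d A x).1 hx
    exact (mem_grF4 H d F x).2 ⟨y, hAF hy, hyx⟩
  have hcB : ¬ p ∣ Nat.card B := by
    intro h
    apply hcA
    refine h.trans ((Subgroup.card_map_dvd (H := A.subgroupOf (Par C6 K d)) (gr H d)).trans ?_)
    have h1 : Nat.card (A.subgroupOf (Par C6 K d)) = Nat.card A :=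
      Nat.card_congr (Subgroup.subgroupOfEquivOfLe (hAF.trans hP)).toEquiv
    rw [h1]
  have hgrGF : ∀ y : Par C6 K d, (y : LL C6 K ≃ₗ[K] LL C6 K) ∈ F → gr H d y ∈ GF K :=
    fun y hy => hgrle ((mem_grF4 H d F _).2 ⟨y, hy, rfl⟩)
  have hRp : IsPGroup p (Rad H d ⊓ GF K : Subgroup (LL C6 K ≃ₗ[K] LL C6 K)) :=
    (Rad_pgroup H d).to_le inf_le_left
  obtain ⟨u, hu, huA, -⟩ := Pool.Agent.H33.EL.sz_conj (p := p) (Rad H d ⊓ GF K) A B hRp hcA hcB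
    (fun a ha v hv => Subgroup.mem_inf.2 ⟨Rad_normal H (hP (hAF ha)) (Subgroup.mem_inf.1 hv).1,
      mul_mem (mul_mem (hF (hAF ha)) (Subgroup.mem_inf.1 hv).2) (inv_mem (hF (hAF ha)))⟩)
    (by
      intro b hb
      obtain ⟨y, hy, rfl⟩ := (mem_grF4 H d A b).1 hb
      exact ⟨_, Subgroup.mem_inf.2 ⟨caseA4_gr_mul H y,
        mul_mem (hgrGF y (hAF hy)) (inv_mem (hF (hAF hy)))⟩, y, hy, by group⟩)
    (by
      intro a ha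
      have h1 := caseA4_gr_mul H (⟨a, hP (hAF ha)⟩ : Par C6 K d)
      have h2 : gr H d ⟨a, hP (hAF ha)⟩ * a⁻¹ ∈ GF K :=
        mul_mem (hgrGF ⟨a, hP (hAF ha)⟩ (hAF ha)) (inv_mem (hF (hAF ha)))
      refine ⟨_, inv_mem (Subgroup.mem_inf.2 ⟨h1, h2⟩), gr H d ⟨a, hP (hAF ha)⟩,
        (mem_grF4 H d A _).2 ⟨⟨a, hP (hAF ha)⟩, ha, rfl⟩, ?_⟩
      show a = (gr H d ⟨a, hP (hAF ha)⟩ * a⁻¹)⁻¹ * gr H d ⟨a, hP (hAF ha)⟩
      group)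
  have huR : u ∈ Rad H d := (Subgroup.mem_inf.1 hu).1
  have huG : u ∈ GF K := (Subgroup.mem_inf.1 hu).2
  have hug : u * g ∈ GF K := mul_mem huG hg
  obtain ⟨c, hc, hcN⟩ := hD (u * g) hug (by
    intro t ht
    rw [mem_cj4]
    have h1 : u * g * t * (u * g)⁻¹ = u * (g * t * g⁻¹) * u⁻¹ := by group
    rw [h1]
    exact hBF (huA _ (hAmem t ht)))
  have hcFo : c ∈ Fo4 F := (Fo_gr (p := p) H hd hF hT hc).1
  have hcF : c ∈ F := Fo4_le hT hcFo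
  have hcG : c⁻¹ * (u * g) ∈ GF K := mul_mem (inv_mem (hF hcF)) hug
  -- conjugation by `c⁻¹ u g` preserves `T4`
  have hN1 : ∀ t ∈ T4 K, (c⁻¹ * (u * g)) * t * (c⁻¹ * (u * g))⁻¹ ∈ T4 K :=
    NN4_conj H hcN hcG
  have hN2 : ∀ t ∈ T4 K, (c⁻¹ * (u * g))⁻¹ * t * (c⁻¹ * (u * g)) ∈ T4 K := by
    intro t ht
    have h1 := NN4_conj H (inv_mem hcN) (inv_mem hcG) t ht
    rwa [inv_inv] at h1
  let A' : Subgroup (LL C6 K ≃ₗ[K] LL C6 K) := (T4 K).map (MulAut.conj c).toMonoidHom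
  have hA'mem : ∀ t ∈ T4 K, c * t * c⁻¹ ∈ A' := fun t ht => ⟨t, ht, rfl⟩
  have hA'F : A' ≤ F := by
    rintro _ ⟨t, ht, rfl⟩
    exact mul_mem (mul_mem hcF (hT ht)) (inv_mem hcF)
  have hcA' : ¬ p ∣ Nat.card A' := by
    have h1 : Nat.card A' = Nat.card (T4 K) :=
      Subgroup.card_map_of_injective (MulAut.conj c).injective
    rw [h1]
    exact T4_card H
  have hAA' : ∀ a ∈ A, u * a * u⁻¹ ∈ A' := by
    rintro _ ⟨t, ht, rfl⟩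
    have h1 := hA'mem _ (hN1 t ht)
    have h2 : u * (g * t * g⁻¹) * u⁻¹ =
        c * ((c⁻¹ * (u * g)) * t * (c⁻¹ * (u * g))⁻¹) * c⁻¹ := by group
    show u * (g * t * g⁻¹) * u⁻¹ ∈ A'
    rw [h2]
    exact h1
  have hA'A : ∀ a ∈ A', u⁻¹ * a * u ∈ A := by
    rintro _ ⟨t, ht, rfl⟩
    have h1 := hAmem _ (hN2 t ht)
    have h2 : u⁻¹ * (c * t * c⁻¹) * u =
        g * ((c⁻¹ * (u * g))⁻¹ * t * (c⁻¹ * (u * g))) * g⁻¹ := by group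
    show u⁻¹ * (c * t * c⁻¹) * u ∈ A
    rw [h2]
    exact h1
  have hcom : ∀ a ∈ A, u * a * u⁻¹ * a⁻¹ ∈ F ⊓ Rad H d := by
    intro a ha
    refine Subgroup.mem_inf.2 ⟨mul_mem (hA'F (hAA' a ha)) (inv_mem (hAF ha)), ?_⟩
    have h1 : u * a * u⁻¹ * a⁻¹ = u * (a * u⁻¹ * a⁻¹) := by group
    rw [h1]
    exact mul_mem huR (Rad_normal H (hP (hAF ha)) (inv_mem huR))
  have hQp : IsPGroup p (F ⊓ Rad H d : Subgroup (LL C6 K ≃ₗ[K] LL C6 K)) :=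
    (Rad_pgroup H d).to_le inf_le_right
  have hQn : ∀ a ∈ F, ∀ v ∈ F ⊓ Rad H d, a * v * a⁻¹ ∈ F ⊓ Rad H d := fun a ha v hv =>
    Subgroup.mem_inf.2 ⟨mul_mem (mul_mem ha (Subgroup.mem_inf.1 hv).1) (inv_mem ha),
      Rad_normal H (hP ha) (Subgroup.mem_inf.1 hv).2⟩
  obtain ⟨u', hu', -, hu'A⟩ := Pool.Agent.H33.EL.sz_conj (p := p) (F ⊓ Rad H d) A' A hQp hcA' hcA
    (fun a ha v hv => hQn a (hA'F ha) v hv)
    (by
      intro b hb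
      refine ⟨_, inv_mem (hcom b hb), _, hAA' b hb, ?_⟩
      group)
    (by
      intro a ha
      have h1 := hcom _ (hA'A a ha)
      refine ⟨_, h1, _, hA'A a ha, ?_⟩
      group)
  refine ⟨u' * c, mul_mem ?_ hcFo, ?_⟩
  · exact pgroup_le_Fo4 H hF inf_le_left hQp (fun t ht v hv => hQn t (hT ht) v hv) hu'
  · refine mem_NN_of_conj4 H (mul_mem (inv_mem (mul_mem (hF (Subgroup.mem_inf.1 hu').1)
      (hF hcF))) hg) fun t ht => ?_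
    obtain ⟨t', ht', htt⟩ := hu'A _ (hAmem t ht)
    have h1 : c * t' * c⁻¹ = u'⁻¹ * (g * t * g⁻¹) * u' := htt
    have h2 : (u' * c)⁻¹ * g * t * ((u' * c)⁻¹ * g)⁻¹ =
        c⁻¹ * (u'⁻¹ * (g * t * g⁻¹) * u') * c := by group
    rw [h2, ← h1]
    have h3 : c⁻¹ * (c * t' * c⁻¹) * c = t' := by group
    rw [h3]
    exact ht'

end Pool.Agent.H31.F4
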