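import Pool.Agent.H31.F4.DBr

/-!
# FF-04b: white vectors, the vectors `z_a`, injectivity

* `zz_indep`: see its comment.  `fm_w`: `x.2 (sg (ng a)) = -x.2 (ng a)`.
* `ad2_V`: both sides are linear in `x ∈ VF`, `ext_VF`: on `hh k`, `sv k = -k`:
  `[Df a, hh k] = -(k,a) wf a`, `[Df a, wf a] = 0` (`br_Dw_long`, `dg a a = 2`), `fm (wf a) (hh k) = 0`.
  On `wf b`: if `dg a b ≥ 0` zero; `b = -a` (up to `Eq4`): `[Df a, wf (-a)] = -hh (zk (a - sa))`,
  `[Df a, -hh z] = (z,a) wf a = 2 wf a` (`fk_zz`), `fm (wf a) (wf (ng a)) = -2`; `dg a b = -1`: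
  `[Df a, wf b] ∈ K wf c`, `c = a + b`, `dg a c = 1`, `[Df a, wf c] = 0`, `fm (wf a) (wf b) = 0`.
* `isW_wf`: the same: on `hh k`: `[wf a, hh k] = -(k,a) Df a`, `[wf a, Df a] = 0`; on `wf b`, `b = -a`:
  `[wf a, wf (-a)] = -hh (zk (cv a))`, `[wf a, -hh (cv a)] = dg a a wf a = 2 wf a`; `dg a b = -1`:
  `[wf a, wf b] ∈ K Df c`, `dg a c = 1`, `[wf a, Df c] = 0` (by `br_skew` and `br_Dw_long`);
  `dg a b = 0`: `[wf a, wf b]` is a multiple of a long root vector `e_c`, `dg a c = 2`: `[wf a, e_c] = 0`.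
* `ad_inj`: the second part by `sl_2`: `M = ad (Df (-b))`, `N = ad (Df b)`, `M x = 0`,
  `M N x = (dg b a) x`, and `M M N N x = 4 x` if `dg b a = -2`.
-/

namespace Pool.Agent.H31.F4

open Pool.Agent.H33.EL (ip cc eps Rt ng zk ek fk LL hh e brf fmf br fm IsExt exl ex xr hd L0 GG T1 TT NN SF cj wt)

variable {K : Type} [Field K]

/-- anti-invariant toral vectors are orthogonal to long roots -/
theorem fk_anti_long (H : HypW C6 K) (h : Fin 6 → K) (hs : sv h = -h) (a : Rt C6)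
    (ha : sg a = a) : fk C6 h (zk a.1) = 0 := by
  have h1 : fk C6 (sv h) (sv (zk a.1)) = fk C6 h (zk a.1) := fk_sv _ _
  have h2 : sv a.1 = a.1 := congrArg Subtype.val ha
  rw [← zk_sv, h2, hs, fk_neg_left] at h1
  have h3 : (2 : K) * fk C6 h (zk a.1) = 0 := by linear_combination -h1
  exact (mul_eq_zero.1 h3).resolve_left (two_ne H)

theorem DBrB_self (H : HypW C6 K) {a : Rt C6} (ha : sg a ≠ a) : ip C6 (sg a).1 a.1 = 0 := by
  rw [ip_comm H.symm, cb_self a ha]

theorem DBrB_sv_comm (a b : Rt C6) : ip C6 (sg a).1 b.1 = ip C6 a.1 (sg b).1 := by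
  have h := ip_sv (sv a.1) b.1
  rw [sv_sv] at h
  exact h.symm

theorem DBrB_sv_sv (a b : Rt C6) : ip C6 (sg a).1 (sg b).1 = ip C6 a.1 b.1 := ip_sv a.1 b.1

/-- the vectors `z_a` -/
theorem fk_zz (H : HypW C6 K) (a : Rt C6) (ha : sg a ≠ a) :
    fk C6 (zk (a.1 - (sg a).1) : Fin 6 → K) (zk a.1) = 2 := by
  rw [fk_zk_zk, ip_sub_left, DBrB_self H ha, a.2]
  norm_num

theorem DBrB_anti_ip (x y : Fin 6 → ℤ) : ip C6 (x - sv x) (y - sv y) =
    4 * (x 2 - x 3) * (y 2 - y 3) - 2 * (x 2 - x 3) * (y 4 - y 5)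
      - 2 * (x 4 - x 5) * (y 2 - y 3) + 4 * (x 4 - x 5) * (y 4 - y 5) := by
  simp only [ip, Fin.sum_univ_succ, C6, sv, tau, Pi.sub_apply]
  simp
  ring

/-- `z_a`, `z_b` are independent if `dg a b = ±1` (in every characteristic):
`ip (a - sa) (a - sa) = 4`; `a - sa`, `b - sb` have entries in the nodes 2, 4 only (and the
negatives in 3, 5); the 2x2 determinant of the entries at 2, 4 is `±1` (kernel check on the list,
or: they form a basis of the lattice of anti-invariant vectors) -/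
theorem zz_indep (a b : Rt C6) (ha : sg a ≠ a) (hb : sg b ≠ b) (h : dg a b = 1 ∨ dg a b = -1)
    (x y : K) (h0 : x • (zk (a.1 - (sg a).1) : Fin 6 → K) + y • zk (b.1 - (sg b).1) = 0) :
    x = 0 ∧ y = 0 := by
  have c2 := congrFun h0 2
  have c4 := congrFun h0 4
  simp only [Pi.add_apply, Pi.smul_apply, smul_eq_mul, Pi.zero_apply, zk, Pi.sub_apply] at c2 c4
  have s2 : (sg a).1 2 = a.1 3 ∧ (sg a).1 4 = a.1 5 ∧ (sg b).1 2 = b.1 3 ∧
      (sg b).1 4 = b.1 5 := ⟨rfl, rfl, rfl, rfl⟩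
  rw [s2.1, s2.2.2.1] at c2
  rw [s2.2.1, s2.2.2.2] at c4
  have hN : ∀ d : Rt C6, sg d ≠ d → ip C6 (d.1 - sv d.1) (d.1 - sv d.1) = 4 := by
    intro d hd
    have h1 : ip C6 (sg d).1 d.1 = 0 := by rw [DBrB_sv_comm, cb_self d hd]
    have h2 : ip C6 d.1 (sg d).1 = 0 := cb_self d hd
    have h3 : ip C6 (sg d).1 (sg d).1 = 2 := (sg d).2
    show ip C6 (d.1 - (sg d).1) (d.1 - (sg d).1) = 4
    rw [ip_sub_left, ip_sub_right, ip_sub_right, d.2, h1, h2, h3]
    norm_num
  have hA := hN a ha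
  have hB := hN b hb
  have hD : ip C6 (a.1 - sv a.1) (b.1 - sv b.1) = 2 ∨
      ip C6 (a.1 - sv a.1) (b.1 - sv b.1) = -2 := by
    have h1 : ip C6 (a.1 - sv a.1) (b.1 - sv b.1) =
        2 * ip C6 a.1 b.1 - 2 * ip C6 a.1 (sg b).1 := by
      show ip C6 (a.1 - (sg a).1) (b.1 - (sg b).1) = _
      rw [ip_sub_left, ip_sub_right, ip_sub_right, DBrB_sv_sv, DBrB_sv_comm]
      ring
    have h2 := dg_short a b ha
    rw [h1]
    rcases cb_SS a b ha hb with h3 | h3 | h3 | h3 | h3 | h3 | h3 | h3 | h3 | h3 <;> omega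
  rw [DBrB_anti_ip] at hA hB hD
  obtain ⟨p, hp⟩ : ∃ p, p = a.1 2 - a.1 3 := ⟨_, rfl⟩
  obtain ⟨q, hq⟩ : ∃ p, p = a.1 4 - a.1 5 := ⟨_, rfl⟩
  obtain ⟨p', hp'⟩ : ∃ p, p = b.1 2 - b.1 3 := ⟨_, rfl⟩
  obtain ⟨q', hq'⟩ : ∃ p, p = b.1 4 - b.1 5 := ⟨_, rfl⟩
  rw [← hp, ← hq] at hA hD
  rw [← hp', ← hq'] at hB hD
  rw [← hp, ← hp'] at c2
  rw [← hq, ← hq'] at c4
  have h5 : (p * q' - q * p') ^ 2 = 1 := by
    have h6 : (4 * p * p' - 2 * p * q' - 2 * q * p' + 4 * q * q') ^ 2 = 4 := by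
      rcases hD with hD | hD <;> rw [hD] <;> norm_num
    have h7 : 12 * (p * q' - q * p') ^ 2 = 12 := by
      linear_combination (4 * p' * p' - 2 * p' * q' - 2 * q' * p' + 4 * q' * q') * hA + 4 * hB - h6
    omega
  have h6 : ((p * q' - q * p' : ℤ) : K) ≠ 0 := by
    intro h7
    have h8 : (((p * q' - q * p') ^ 2 : ℤ) : K) = 0 := by
      rw [Int.cast_pow, h7]
      ring
    rw [h5, Int.cast_one] at h8
    exact one_ne_zero h8
  push_cast at h6
  constructor
  · have h7 : x * ((p : K) * q' - q * p') = 0 := by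
      linear_combination (q' : K) * c2 - (p' : K) * c4
    exact (mul_eq_zero.1 h7).resolve_right h6
  · have h7 : y * ((p : K) * q' - q * p') = 0 := by
      linear_combination (p : K) * c4 - (q : K) * c2
    exact (mul_eq_zero.1 h7).resolve_right h6

theorem fm_w (H : HypW C6 K) {x : LL C6 K} (hx : x ∈ VF K) (a : Rt C6) (ha : sg a ≠ a) :
    fm (wf K a) x = -2 * x.2 (ng a) := by
  have h1 := ((mem_VF' x).1 hx).2 (ng a)
  show fm (e K a - e K (sg a)) x = _
  rw [map_sub, LinearMap.sub_apply, fm_e_left, fm_e_left, ← sg_ng, h1]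
  ring

theorem fm_D (H : HypW C6 K) {x : LL C6 K} (hx : x ∈ LF K) (a : Rt C6) (ha : sg a ≠ a) :
    fm (Df K a) x = -2 * x.2 (ng a) := by
  have h1 := ((mem_LF' x).1 hx).2 (ng a)
  rw [Df_short ha, map_add, LinearMap.add_apply, fm_e_left, fm_e_left, ← sg_ng, h1]
  ring

/-- pairing with the point vectors -/
theorem fm_pv (H : HypW C6 K) (a : Rt C6) : ∃ k : K, k ≠ 0 ∧ ∀ x : LL C6 K,
    (if sg a = a then x ∈ LF K else x ∈ VF K) → fm (pv K a) x = k * x.2 (ng a) := by
  by_cases ha : sg a = a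
  · refine ⟨-1, neg_ne_zero.2 one_ne_zero, fun x _ => ?_⟩
    rw [pv_long ha, fm_e_left]
    ring
  · refine ⟨-2, neg_ne_zero.2 (two_ne H), fun x hx => ?_⟩
    rw [if_neg ha] at hx
    rw [pv_short ha, fm_w H hx a ha]

theorem DBrB_pv_mem (a : Rt C6) : if sg a = a then pv K a ∈ LF K else pv K a ∈ VF K := by
  by_cases ha : sg a = a
  · rw [if_pos ha, pv_long ha, ← Df_long ha]
    exact Df_mem a
  · rw [if_neg ha, pv_short ha]
    exact wf_mem a

theorem fm_pv_ng (H : HypW C6 K) (a : Rt C6) : fm (pv K a) (pv K (ng a)) ≠ 0 := by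
  obtain ⟨k, hk, h⟩ := fm_pv H a
  have h1 := DBrB_pv_mem (K := K) (ng a)
  have h2 : (if sg a = a then pv K (ng a) ∈ LF K else pv K (ng a) ∈ VF K) := by
    by_cases ha : sg a = a
    · rw [if_pos ha]
      rwa [if_pos ((sg_ng_iff a).2 ha)] at h1
    · rw [if_neg ha]
      rwa [if_neg (fun h => ha ((sg_ng_iff a).1 h))] at h1
  rw [h _ h2, pv_snd_self, mul_one]
  exact hk

theorem DBrB_fm_w_hh (a : Rt C6) (h : Fin 6 → K) : fm (wf K a) (hh C6 h) = 0 := by
  rw [fm_hh_right, wf_fst, fk_zero_left]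

theorem DBrB_fm_w_w (H : HypW C6 K) {a b : Rt C6} (ha : sg a ≠ a) (h : ¬ Eq4 (ng a) b) :
    fm (wf K a) (wf K b) = 0 := by
  rw [fm_w H (wf_mem b) a ha, wf_snd_ne (fun h1 => h (Eq4_symm h1)), mul_zero]

theorem DBrB_not_eq4 {a b : Rt C6} (h : 0 ≤ dg a b) : ¬ Eq4 (ng a) b := by
  rintro (h1 | h1)
  · rw [h1, dg_ng_right, dg_self] at h
    omega
  · rw [h1, dg_sg_right, dg_ng_right, dg_self] at h
    omega

theorem DBrB_sv_anti (a : Rt C6) : (sv (zk (a.1 - (sg a).1)) : Fin 6 → K) =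
    -zk (a.1 - (sg a).1) := by
  rw [← zk_sv, ← zk_neg]
  congr 1
  funext i
  show a.1 (tau i) - a.1 (tau (tau i)) = -(a.1 i - a.1 (tau i))
  rw [tau_tau]
  ring

/-- the point vector of a short root in terms of brackets -/
theorem ad2_V (H : HypW C6 K) (a : Rt C6) (ha : sg a ≠ a) {x : LL C6 K} (hx : x ∈ VF K) :
    br (Df K a) (br (Df K a) x) = (-fm (wf K a) x) • wf K a := by
  have key := ext_VF H (f := (br (Df K a)).comp (br (Df K a)))
    (g := (-(fm (wf K a))).smulRight (wf K a)) (fun h hs => ?_) (fun b hb => ?_) x hx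
  · simpa using key
  · show br (Df K a) (br (Df K a) (hh C6 h)) = (-fm (wf K a) (hh C6 h)) • wf K a
    rw [br_skew H (Df K a) (hh C6 h), br_k_D h hs a ha, map_neg, map_smul,
      br_Dw_long H (by rw [dg_self]; norm_num), DBrB_fm_w_hh, neg_zero, zero_smul, smul_zero,
      neg_zero]
  · show br (Df K a) (br (Df K a) (wf K b)) = (-fm (wf K a) (wf K b)) • wf K a
    by_cases h0 : 0 ≤ dg a b
    · rw [br_Dw_long H h0, map_zero, DBrB_fm_w_w H ha (DBrB_not_eq4 h0), neg_zero, zero_smul]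
    · by_cases h1 : Eq4 (ng a) b
      · have h2 : br (Df K a) (br (Df K a) (wf K (ng a))) =
            (-fm (wf K a) (wf K (ng a))) • wf K a := by
          rw [br_D_wng H a ha, map_neg, br_skew H, neg_neg, br_k_D _ (DBrB_sv_anti a) a ha,
            fk_zz H a ha, fm_w H (wf_mem _) a ha, (wf_snd_self _).1]
          · congr 1
            ring
          · exact fun h => ha ((sg_ng_iff a).1 h)
        rcases h1 with h1 | h1
        · rw [h1]
          exact h2
        · rw [h1, wf_sg, map_neg, map_neg, map_neg, h2, neg_smul, neg_smul, neg_neg, neg_smul,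
            neg_neg]
      · obtain ⟨c, hc, hcl, -⟩ := sm_of_neg a b (not_le.1 h0) h1
        have hc' : sg c ≠ c := fun h => ha (hcl.1 h).1
        obtain ⟨k, -, hk⟩ := br_Dw H hc hb hc'
        have h3 : 0 ≤ dg a c := by
          have h4 := sm_dg hc a
          have h5 := dg_range a b
          rw [dg_self] at h4
          omega
        rw [hk, map_smul, br_Dw_long H h3, smul_zero, DBrB_fm_w_w H ha h1, neg_zero, zero_smul]

theorem isW_wf (H : HypW C6 K) (a : Rt C6) (ha : sg a ≠ a) : IsW (wf K a) := by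
  intro x hx
  have key := ext_VF H (f := (br (wf K a)).comp (br (wf K a)))
    (g := (-(fm (wf K a))).smulRight (wf K a)) (fun h hs => ?_) (fun b hb => ?_) x hx
  · simpa using key
  · show br (wf K a) (br (wf K a) (hh C6 h)) = (-fm (wf K a) (hh C6 h)) • wf K a
    rw [br_skew H (wf K a) (hh C6 h), br_k_w h hs a ha, map_neg, map_smul,
      br_skew H (wf K a) (Df K a),
      br_Dw_long H (by rw [dg_self]; norm_num), DBrB_fm_w_hh, neg_zero, neg_zero, zero_smul,
      smul_zero, neg_zero]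
  · show br (wf K a) (br (wf K a) (wf K b)) = (-fm (wf K a) (wf K b)) • wf K a
    have hr := dg_range a b
    rcases lt_trichotomy 0 (dg a b) with h0 | h0 | h0
    · rw [br_ww_zero H h0, map_zero, DBrB_fm_w_w H ha (DBrB_not_eq4 h0.le), neg_zero, zero_smul]
    · obtain ⟨c, hc, hcl, -⟩ := sm_of_orth a b ha hb h0.symm
      obtain ⟨k, -, hk⟩ := br_ww H hc ha hb
      have h3 : 0 ≤ dg c a := by
        have h4 := sm_dg hc a
        have h5 := dg_SL a c ha hcl
        rw [dg_self] at h4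
        omega
      rw [hk, map_smul, br_skew H (wf K a), br_Dw_long H h3, neg_zero, smul_zero,
        DBrB_fm_w_w H ha (DBrB_not_eq4 h0.le), neg_zero, zero_smul]
    · by_cases h1 : Eq4 (ng a) b
      · have h2 : br (wf K a) (br (wf K a) (wf K (ng a))) =
            (-fm (wf K a) (wf K (ng a))) • wf K a := by
          have h6 : sv (zk (cv a) : Fin 6 → K) = zk (cv a) := by rw [← zk_sv, sv_cv]
          have h7 : fk C6 (zk (cv a) : Fin 6 → K) (zk a.1) = 2 := by
            rw [fk_zk_zk]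
            have h8 : ip C6 (cv a) a.1 = 2 := dg_self a
            rw [h8]
            norm_num
          rw [br_w_wng H a ha, map_neg, br_skew H, neg_neg, br_h_w _ h6 a, h7,
            fm_w H (wf_mem _) a ha, (wf_snd_self _).1]
          · congr 1
            ring
          · exact fun h => ha ((sg_ng_iff a).1 h)
        rcases h1 with h1 | h1
        · rw [h1]
          exact h2
        · rw [h1, wf_sg, map_neg, map_neg, map_neg, h2, neg_smul, neg_smul, neg_neg, neg_smul,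
            neg_neg]
      · obtain ⟨c, hc, hcl, -⟩ := sm_of_neg a b h0 h1
        have hc' : sg c ≠ c := fun h => ha (hcl.1 h).1
        obtain ⟨k, -, hk⟩ := br_ww H hc ha hb
        have h3 : 0 ≤ dg c a := by
          have h4 := sm_dg hc a
          have h5 := dg_symm a c ⟨fun h => absurd h ha, fun h => absurd h hc'⟩
          rw [dg_self] at h4
          omega
        rw [hk, map_smul, br_skew H (wf K a), br_Dw_long H h3, neg_zero, smul_zero,
          DBrB_fm_w_w H ha h1, neg_zero, zero_smul]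

theorem isW_smul {w : LL C6 K} (hw : IsW w) (s : K) : IsW (s • w) := by
  intro x hx
  rw [map_smul, LinearMap.smul_apply, LinearMap.smul_apply, map_smul, hw x hx, map_smul,
    LinearMap.smul_apply, smul_smul, smul_smul, smul_smul, smul_eq_mul]
  congr 1
  ring

theorem isW_map {w : LL C6 K} (hw : IsW w) {g : LL C6 K ≃ₗ[K] LL C6 K} (hg : g ∈ GF K) :
    IsW (g w) := by
  intro x hx
  have hgG : g ∈ GG C6 K := hg.1
  have h1 : g (g⁻¹ x) = x := g.apply_symm_apply x
  have h2 : g⁻¹ x ∈ VF K := (GF_VF (inv_mem hg) x).2 hx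
  have h3 := hw _ h2
  have h4 := congrArg g h3
  rw [hgG.1, hgG.1, h1, map_smul] at h4
  have h5 := hgG.2 w (g⁻¹ x)
  rw [h1] at h5
  rw [h4, h5]

theorem DBrB_cv (b a : Rt C6) (hb : sg b ≠ b) :
    dg b a = ip C6 b.1 a.1 + ip C6 (sg b).1 a.1 := by
  unfold dg cv
  rw [if_neg hb, ip_add_left]

/-- the products if `dg b a < 0`, `b` short -/
theorem DBrB_cases (H : HypW C6 K) (b a : Rt C6) (hb : sg b ≠ b) (h : dg b a < 0) :
    (ip C6 b.1 a.1 = -1 ∧ ip C6 (sg b).1 a.1 = 0) ∨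
    (ip C6 b.1 a.1 = 0 ∧ ip C6 (sg b).1 a.1 = -1) ∨
    (ip C6 b.1 a.1 = -2 ∧ ip C6 (sg b).1 a.1 = 0) ∨
    (ip C6 b.1 a.1 = 0 ∧ ip C6 (sg b).1 a.1 = -2) ∨
    (ip C6 b.1 a.1 = -1 ∧ ip C6 (sg b).1 a.1 = -1) := by
  have h1 := DBrB_cv b a hb
  have h2 := DBrB_sv_comm b a
  by_cases ha : sg a = a
  · have h3 := cb_LS a b ha hb
    have h4 : ip C6 b.1 (sg a).1 = ip C6 b.1 a.1 := by rw [ha]
    have h5 : ip C6 b.1 a.1 = ip C6 a.1 b.1 := ip_comm H.symm _ _
    omega
  · rcases cb_SS b a hb ha with h3 | h3 | h3 | h3 | h3 | h3 | h3 | h3 | h3 | h3 <;> omega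

theorem DBrB_br_ng (H : HypW C6 K) (b a : Rt C6) (h : dg b a < 0) :
    br (Df K (ng b)) (e K a) = 0 := by
  by_cases hb : sg b = b
  · have hb' : sg (ng b) = ng b := (sg_ng_iff b).2 hb
    have h1 := dg_long b a hb
    rw [Df_long hb', br_e_e_zero H]
    rw [ng_val, ip_neg_left]
    omega
  · have hb' : sg (ng b) ≠ ng b := fun h => hb ((sg_ng_iff b).1 h)
    have h1 := DBrB_cases H b a hb h
    rw [Df_short hb', map_add, LinearMap.add_apply, br_e_e_zero H, br_e_e_zero H, add_zero]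
    · rw [sg_ng, ng_val, ip_neg_left]
      omega
    · rw [ng_val, ip_neg_left]
      omega

theorem DBrB_ng_D (H : HypW C6 K) (b : Rt C6) :
    br (Df K (ng b)) (Df K b) = hh C6 (zk (cv b)) := by
  rw [br_skew H, br_D_ng H, neg_neg]

theorem DBrB_fk_cv (b a : Rt C6) : fk C6 (zk (cv b) : Fin 6 → K) (zk a.1) = ((dg b a : ℤ) : K) :=
  fk_zk_zk _ _

theorem DBrB_inj (H : HypW C6 K) (b a : Rt C6) (h : dg b a < 0) {x : LL C6 K}
    (hx : x ∈ Submodule.span K {e K a, e K (sg a)})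
    (h0 : (if dg b a = -1 then br (Df K b) x else br (Df K b) (br (Df K b) x)) = 0) : x = 0 := by
  have hr := dg_range b a
  have h1 : br (Df K (ng b)) x = 0 := by
    obtain ⟨p, q, rfl⟩ := Submodule.mem_span_pair.1 hx
    rw [map_add, map_smul, map_smul, DBrB_br_ng H b a h,
      DBrB_br_ng H b (sg a) (by rw [dg_sg_right]; exact h), smul_zero, smul_zero, add_zero]
  have h2 : br (hh C6 (zk (cv b))) x = ((dg b a : ℤ) : K) • x := by
    obtain ⟨p, q, rfl⟩ := Submodule.mem_span_pair.1 hx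
    rw [map_add, map_smul, map_smul, br_hh_e, br_hh_e, DBrB_fk_cv, DBrB_fk_cv, dg_sg_right]
    module
  have h3 : br (Df K (ng b)) (br (Df K b) x) = ((dg b a : ℤ) : K) • x := by
    rw [jac H, DBrB_ng_D H, h1, map_zero, add_zero, h2]
  by_cases hd : dg b a = -1
  · rw [if_pos hd] at h0
    rw [h0, map_zero, hd] at h3
    have h4 := h3.symm
    rw [Int.cast_neg, Int.cast_one, neg_smul, one_smul, neg_eq_zero] at h4
    exact h4
  · rw [if_neg hd] at h0
    have hd2 : dg b a = -2 := by omega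
    rw [hd2] at h2 h3
    have h4 : br (hh C6 (zk (cv b))) (br (Df K b) x) = 0 := by
      have h5 : br (hh C6 (zk (cv b))) (Df K b) = (2 : K) • Df K b := by
        rw [br_h_D _ (by rw [← zk_sv, sv_cv]), DBrB_fk_cv, dg_self]
        norm_num
      rw [jac H, h5, h2]
      simp only [map_smul, LinearMap.smul_apply, Int.cast_neg, Int.cast_ofNat]
      module
    have h6 : br (Df K (ng b)) (br (Df K b) (br (Df K b) x)) = (-2 : K) • br (Df K b) x := by
      rw [jac H, DBrB_ng_D H, h4, h3, zero_add, map_smul]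
      norm_num
    rw [h0, map_zero] at h6
    have h7 : br (Df K b) x = 0 :=
      (smul_eq_zero.1 h6.symm).resolve_left (neg_ne_zero.2 (two_ne H))
    rw [h7, map_zero] at h3
    have h8 : ((-2 : ℤ) : K) ≠ 0 := by
      push_cast
      exact neg_ne_zero.2 (two_ne H)
    exact (smul_eq_zero.1 h3.symm).resolve_left h8

theorem DBrB_mem_c (c : Rt C6) (p q : K) :
    p • e K c + q • e K (sg c) ∈ Submodule.span K {e K c, e K (sg c)} :=
  Submodule.mem_span_pair.2 ⟨p, q, rfl⟩

theorem DBrB_mem_l (c : Rt C6) (p : K) :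
    p • e K c ∈ Submodule.span K {e K c, e K (sg c)} :=
  Submodule.mem_span_pair.2 ⟨p, 0, by rw [zero_smul, add_zero]⟩

theorem DBrB_rfv_sg (b a : Rt C6) (hb : sg b ≠ b) : rfv (sg b) a = rfv b a := by
  have h1 : ¬ sg (sg b) = sg b := (sg_ne_iff b).2 hb
  unfold rfv
  rw [if_neg h1, if_neg hb, sg_sg]
  abel

/-- the case `ip b a = -1`, `ip (sg b) a = 0` -/
theorem DBrB_img1 (H : HypW C6 K) (b a c : Rt C6) (hb : sg b ≠ b) (h1 : ip C6 b.1 a.1 = -1)
    (h2 : ip C6 (sg b).1 a.1 = 0) (hc : c.1 = rfv b a) :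
    br (Df K b) (e K a) ∈ Submodule.span K {e K c, e K (sg c)} := by
  unfold rfv at hc
  rw [if_neg hb, h1, h2] at hc
  have h3 : c.1 = b.1 + a.1 := by
    rw [hc]
    module
  rw [Df_short hb, map_add, LinearMap.add_apply, br_e_e_add H h3, br_e_e_zero H h2.ge, add_zero]
  exact DBrB_mem_l c _

/-- the case `ip b a = -2`, `ip (sg b) a = 0` -/
theorem DBrB_img2 (H : HypW C6 K) (b a c : Rt C6) (hb : sg b ≠ b) (h1 : ip C6 b.1 a.1 = -2)
    (h2 : ip C6 (sg b).1 a.1 = 0) (hc : c.1 = rfv b a) :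
    br (Df K b) (br (Df K b) (e K a)) ∈ Submodule.span K {e K c, e K (sg c)} := by
  have ha : a = ng b := eq_ng_of_ip H h1
  unfold rfv at hc
  rw [if_neg hb, h1, h2, ha, ng_val] at hc
  have h3 : c = b := by
    apply Subtype.ext
    rw [hc]
    module
  have h4 : br (Df K b) (e K a) = -hh C6 (zk b.1) := by
    rw [Df_short hb, map_add, LinearMap.add_apply, br_e_e_zero (a := sg b) H h2.ge, add_zero, ha,
      br_e_ng H]
  rw [h4, Df_short hb, map_add, LinearMap.add_apply, map_neg, map_neg, br_e_hh, br_e_hh, h3,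
    neg_smul, neg_smul, neg_neg, neg_neg]
  exact DBrB_mem_c b _ _

theorem DBrB_img (H : HypW C6 K) (b a c : Rt C6) (h : dg b a < 0) (hc : c.1 = rfv b a) :
    (if dg b a = -1 then br (Df K b) (e K a) else br (Df K b) (br (Df K b) (e K a))) ∈
        Submodule.span K {e K c, e K (sg c)} := by
  have hr := dg_range b a
  by_cases hb : sg b = b
  · have hd := dg_long b a hb
    have hc0 := hc
    unfold rfv at hc
    rw [if_pos hb] at hc
    split_ifs with h1
    · have h2 : ip C6 b.1 a.1 = -1 := by omega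
      rw [h2] at hc
      have h3 : c.1 = b.1 + a.1 := by
        rw [hc]
        module
      rw [Df_long hb, br_e_e_add H h3]
      exact DBrB_mem_l c _
    · have h2 : ip C6 b.1 a.1 = -2 := by omega
      have ha : a = ng b := eq_ng_of_ip H h2
      rw [h2, ha, ng_val] at hc
      have h3 : c = b := by
        apply Subtype.ext
        rw [hc]
        module
      rw [Df_long hb, ha, br_e_ng H, map_neg, br_e_hh, h3, neg_smul, neg_neg]
      exact DBrB_mem_l b _
  · have hb' : sg (sg b) ≠ sg b := (sg_ne_iff b).2 hb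
    have hd := DBrB_cv b a hb
    have hcs : c.1 = rfv (sg b) a := by rw [DBrB_rfv_sg b a hb, hc]
    rcases DBrB_cases H b a hb h with ⟨h1, h2⟩ | ⟨h1, h2⟩ | ⟨h1, h2⟩ | ⟨h1, h2⟩ | ⟨h1, h2⟩
    · rw [if_pos (by omega)]
      exact DBrB_img1 H b a c hb h1 h2 hc
    · rw [if_pos (by omega), ← Df_sg]
      exact DBrB_img1 H (sg b) a c hb' h2 (by rw [sg_sg]; exact h1) hcs
    · rw [if_neg (by omega)]
      exact DBrB_img2 H b a c hb h1 h2 hc
    · rw [if_neg (by omega), ← Df_sg]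
      exact DBrB_img2 H (sg b) a c hb' h2 (by rw [sg_sg]; exact h1) hcs
    · rw [if_neg (by omega)]
      have hs : ip C6 b.1 (sg b).1 = 0 := cb_self b hb
      have hs' : ip C6 (sg b).1 b.1 = 0 := by rw [DBrB_sv_comm, hs]
      obtain ⟨d, hd1⟩ : ∃ d : Rt C6, d.1 = b.1 + a.1 := ⟨⟨_, root_add H h1⟩, rfl⟩
      obtain ⟨f, hf1⟩ : ∃ d : Rt C6, d.1 = (sg b).1 + a.1 := ⟨⟨_, root_add H h2⟩, rfl⟩
      unfold rfv at hc
      rw [if_neg hb, h1, h2] at hc
      have hcd : c.1 = (sg b).1 + d.1 := by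
        rw [hc, hd1]
        module
      have hcf : c.1 = b.1 + f.1 := by
        rw [hc, hf1]
        module
      have k1 : ip C6 b.1 d.1 = 1 := by
        rw [hd1, ip_add_right, b.2, h1]
        norm_num
      have k2 : ip C6 (sg b).1 f.1 = 1 := by
        rw [hf1, ip_add_right, (sg b).2, h2]
        norm_num
      rw [Df_short hb]
      simp only [map_add, LinearMap.add_apply]
      rw [br_e_e_add H hd1, br_e_e_add H hf1, map_smul, map_smul, map_smul, map_smul,
        br_e_e_zero H (a := b) (b := d) (by rw [k1]; norm_num),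
        br_e_e_zero H (a := sg b) (b := f) (by rw [k2]; norm_num),
        br_e_e_add H hcd, br_e_e_add H hcf, smul_zero, smul_zero, zero_add, add_zero, smul_smul,
        smul_smul, ← add_smul]
      exact DBrB_mem_l c _

/-- `ad (Df b)` raises the weight: if `dg b a < 0` it is injective on the weight space of `a`;
the image of `x = p e_a + q e_(sg a)` under the `k`-th power, `k = -dg b a`, is a non zero
element of the span of `e_c`, `e_(sg c)`, `c = rfv b a` -/
theorem ad_inj (H : HypW C6 K) (b a c : Rt C6) (h : dg b a < 0) (hc : c.1 = rfv b a) :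
    (∀ x ∈ Submodule.span K {e K a, e K (sg a)},
      (if dg b a = -1 then br (Df K b) x else br (Df K b) (br (Df K b) x)) ∈
        Submodule.span K {e K c, e K (sg c)}) ∧
    ∀ x ∈ Submodule.span K {e K a, e K (sg a)},
      (if dg b a = -1 then br (Df K b) x else br (Df K b) (br (Df K b) x)) = 0 → x = 0 := by
  refine ⟨fun x hx => ?_, fun x hx h0 => DBrB_inj H b a h hx h0⟩
  have h1 := DBrB_img H b a c h hc
  have h2 : (if dg b a = -1 then br (Df K b) (e K (sg a)) else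
      br (Df K b) (br (Df K b) (e K (sg a)))) ∈ Submodule.span K {e K c, e K (sg c)} := by
    have h3 : Sg K (Df K b) = Df K b := (mem_LF _).1 (Df_mem b)
    have h4 : ∀ y ∈ Submodule.span K {e K c, e K (sg c)},
        Sg K y ∈ Submodule.span K {e K c, e K (sg c)} := by
      intro y hy
      obtain ⟨p, q, rfl⟩ := Submodule.mem_span_pair.1 hy
      rw [map_add, map_smul, map_smul, Sg_e, Sg_e, sg_sg]
      exact Submodule.mem_span_pair.2 ⟨q, p, add_comm _ _⟩
    have h5 := h4 _ h1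
    split_ifs with h6
    · rw [if_pos h6, Sg_br, h3, Sg_e] at h5
      exact h5
    · rw [if_neg h6, Sg_br, Sg_br, h3, Sg_e] at h5
      exact h5
  obtain ⟨p, q, rfl⟩ := Submodule.mem_span_pair.1 hx
  split_ifs with h6
  · rw [if_pos h6] at h1 h2
    rw [map_add, map_smul, map_smul]
    exact add_mem (Submodule.smul_mem _ _ h1) (Submodule.smul_mem _ _ h2)
  · rw [if_neg h6] at h1 h2
    rw [map_add, map_smul, map_smul, map_add, map_smul, map_smul]
    exact add_mem (Submodule.smul_mem _ _ h1) (Submodule.smul_mem _ _ h2)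

end Pool.Agent.H31.F4
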