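import Pool.Agent.H31.F4.Nor4
import Pool.Agent.H31.F4.DBrB

/-!
# FF-16: the intrinsic filtration

`N = ad (Df a)` or, for short `a`, `N = ad (wf a)`; degree `dg a ·` (the grading `Grd C6 K (cv a) i`,
`-2 ≤ i ≤ 2`, `dg_range`); `N` has degree 2.  (i) `N² : Grd (-2) → Grd 2` is bijective,
`N : Grd (-1) → Grd 1` is bijective.  For `Df a`: injective by `ad_inj` (the weight spaces are mapped
to the weight spaces of `rfv a d`, different for different `d`; `Grd (-2)`, `Grd (-1)` have no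
toral part), and the dimensions agree (`d ↦ rfv a d` is a bijection of the roots).
For `wf a`, `a` short: the same computation: `dg a d = -1`: `ip a d = -1`, `ip (sa) d = 0` (or reversed):
`[wf a, e_d] = ± e_(a+d)`; `dg a d = -2`, `d` long: `[wf a,[wf a, e_d]] = -[e_a,[e_(sa),e_d]] -
[e_(sa),[e_a,e_d]] = ∓ 2 e_(d+a+sa)` (the two terms are equal by Jacobi, `[e_a,e_(sa)] = 0`);
`d = -a`: `[wf a,[wf a, e_(-a)]] = 2 e_a`, `d = -sa`: `2 e_(sa)`.
(ii) So for all `x`: `x ∈ Fil (cv a) 2 ↔ ∃ y, x = N² y`; `x ∈ Fil (-1) ↔ N² x = 0`;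
`x ∈ Fil 1 ↔ N x = 0 ∧ ∃ y, x = N y`; `x ∈ Fil 0 ↔ ∃ y z, N z = 0 ∧ x = N y + z`:
 - `Fil 1 = Grd 1 + Grd 2`: `N` kills it, and it is in the image (`Grd 1 = N Grd (-1)`,
   `Grd 2 = N² Grd (-2)`).  Conversely `x = N y`, `y = ∑ y_i`: `x = N y_(-2) + N y_(-1) + N y_0`,
   `N x = N² y_(-2) = 0` so `y_(-2) = 0`.
 - `Fil 0`: `x ∈ Grd 0`: `N x ∈ Grd 2`, `N x = N² y` with `y ∈ Grd (-2)`, `x = N y + (x - N y)`.
   Conversely `N z = 0` gives `z_(-2) = 0` and `z_(-1) = 0`.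
`Fil k` is everything for `k ≤ -2` and zero for `k ≥ 3`.
(iii) `g N_a = k N_b g`, so `g` maps `Fil (cv a) i` onto `Fil (cv b) i`.
`pt_len`: `pv a` is in `LF` for long, in `VF` for short `a`, `LF ∩ VF = 0`, `pv ≠ 0`.
-/

namespace Pool.Agent.H31.F4

open Pool.Agent.H33.EL (ip cc eps Rt ng zk ek fk LL hh e brf fmf br fm IsExt exl ex xr hd L0 GG T1 TT NN SF cj wt)

variable {K : Type} [Field K]

/-- reversing the grading -/
def Fi4_nu (K : Type) [Field K] : LL C6 K →ₗ[K] LL C6 K where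
  toFun x := (x.1, fun a => x.2 (ng a))
  map_add' _ _ := rfl
  map_smul' _ _ := rfl

theorem Fi4_nu_nu (x : LL C6 K) : Fi4_nu K (Fi4_nu K x) = x := by
  refine Prod.ext rfl (funext fun b => ?_)
  show x.2 (ng (ng b)) = x.2 b
  rw [ng_ng]

theorem Fi4_nu_grd {d : Fin 6 → ℤ} {i : ℤ} {x : LL C6 K} (hx : x ∈ Grd C6 K d i) :
    Fi4_nu K x ∈ Grd C6 K d (-i) := by
  obtain ⟨h1, h2⟩ := hx
  refine ⟨fun b hb => ?_, fun hi => h2 (fun h => hi (by rw [h, neg_zero]))⟩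
  show x.2 (ng b) = 0
  apply h1
  rw [FilA_ip_ng]
  intro h
  exact hb (by omega)

/-- Jacobson-Morozov properties of a nilpotent map with respect to a grading -/
structure Fi4JM (N : LL C6 K →ₗ[K] LL C6 K) (d : Fin 6 → ℤ) : Prop where
  rng : ∀ b : Rt C6, -2 ≤ ip C6 d b.1 ∧ ip C6 d b.1 ≤ 2
  deg : ∀ (i : ℤ) (x : LL C6 K), x ∈ Grd C6 K d i → N x ∈ Grd C6 K d (2 + i)
  degF : ∀ (i : ℤ) (x : LL C6 K), x ∈ Fil C6 K d i → N x ∈ Fil C6 K d (2 + i)
  inj2 : ∀ x ∈ Grd C6 K d (-2), N (N x) = 0 → x = 0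
  inj1 : ∀ x ∈ Grd C6 K d (-1), N x = 0 → x = 0

section JM
variable {N : LL C6 K →ₗ[K] LL C6 K} {d : Fin 6 → ℤ}

theorem Fi4_top (J : Fi4JM N d) {i : ℤ} (hi : i ≤ -2) (x : LL C6 K) : x ∈ Fil C6 K d i :=
  ⟨fun b hb => absurd (J.rng b).1 (by omega), fun h => absurd h (by omega)⟩

theorem Fi4_bot (J : Fi4JM N d) {i : ℤ} (hi : 3 ≤ i) {x : LL C6 K} (hx : x ∈ Fil C6 K d i) :
    x = 0 :=
  Prod.ext (hx.2 (by omega)) (funext fun b => hx.1 b (lt_of_le_of_lt (J.rng b).2 (by omega)))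

theorem Fi4_top2 (J : Fi4JM N d) {x : LL C6 K} (hx : x ∈ Fil C6 K d 2) : x ∈ Grd C6 K d 2 :=
  ⟨fun b hb => hx.1 b (lt_of_le_of_ne (J.rng b).2 hb), fun _ => hx.2 (by norm_num)⟩

theorem Fi4_surj2 (J : Fi4JM N d) {y : LL C6 K} (hy : y ∈ Grd C6 K d 2) :
    ∃ x ∈ Grd C6 K d (-2), N (N x) = y := by
  have h1 : ∀ x ∈ Grd C6 K d 2, (N ∘ₗ N ∘ₗ Fi4_nu K) x ∈ Grd C6 K d 2 := fun x hx => by
    have h2 := J.deg _ _ (J.deg _ _ (Fi4_nu_grd hx))
    have h3 : (2 : ℤ) + (2 + -2) = 2 := by norm_num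
    rw [h3] at h2
    exact h2
  have h2 : Function.Injective ((N ∘ₗ N ∘ₗ Fi4_nu K).restrict h1) := by
    rw [← LinearMap.ker_eq_bot, LinearMap.ker_eq_bot']
    rintro ⟨x, hx⟩ h
    have h3 : N (N (Fi4_nu K x)) = 0 := congrArg Subtype.val h
    have h4 := J.inj2 _ (Fi4_nu_grd hx) h3
    apply Subtype.ext
    show x = 0
    rw [← Fi4_nu_nu x, h4, map_zero]
  obtain ⟨⟨x, hx⟩, hxy⟩ := (LinearMap.injective_iff_surjective.1 h2) ⟨y, hy⟩
  exact ⟨Fi4_nu K x, Fi4_nu_grd hx, congrArg Subtype.val hxy⟩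

theorem Fi4_surj1 (J : Fi4JM N d) {y : LL C6 K} (hy : y ∈ Grd C6 K d 1) :
    ∃ x ∈ Grd C6 K d (-1), N x = y := by
  have h1 : ∀ x ∈ Grd C6 K d 1, (N ∘ₗ Fi4_nu K) x ∈ Grd C6 K d 1 := fun x hx => by
    have h2 := J.deg _ _ (Fi4_nu_grd hx)
    have h3 : (2 : ℤ) + (-1) = 1 := by norm_num
    rw [h3] at h2
    exact h2
  have h2 : Function.Injective ((N ∘ₗ Fi4_nu K).restrict h1) := by
    rw [← LinearMap.ker_eq_bot, LinearMap.ker_eq_bot']
    rintro ⟨x, hx⟩ h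
    have h3 : N (Fi4_nu K x) = 0 := congrArg Subtype.val h
    have h4 := J.inj1 _ (Fi4_nu_grd hx) h3
    apply Subtype.ext
    show x = 0
    rw [← Fi4_nu_nu x, h4, map_zero]
  obtain ⟨⟨x, hx⟩, hxy⟩ := (LinearMap.injective_iff_surjective.1 h2) ⟨y, hy⟩
  exact ⟨Fi4_nu K x, Fi4_nu_grd hx, congrArg Subtype.val hxy⟩

theorem Fi4_two (J : Fi4JM N d) (x : LL C6 K) : x ∈ Fil C6 K d 2 ↔ ∃ y, x = N (N y) := by
  constructor
  · intro hx
    obtain ⟨y, -, hy⟩ := Fi4_surj2 J (Fi4_top2 J hx)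
    exact ⟨y, hy.symm⟩
  · rintro ⟨y, rfl⟩
    have h1 := J.degF _ _ (J.degF _ _ (Fi4_top J le_rfl y))
    have h3 : (2 : ℤ) + (2 + -2) = 2 := by norm_num
    rw [h3] at h1
    exact h1

theorem Fi4_mone (J : Fi4JM N d) (x : LL C6 K) : x ∈ Fil C6 K d (-1) ↔ N (N x) = 0 := by
  have key : ∀ z ∈ Fil C6 K d (-1), N (N z) = 0 := fun z hz =>
    Fi4_bot J (i := 2 + (2 + -1)) (by norm_num) (J.degF _ _ (J.degF _ _ hz))
  constructor
  · exact key x
  · intro h
    have h1 : x - FilA_pr C6 K d (-2) x ∈ Fil C6 K d (-1) :=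
      FilA_pr_sub (k := -2) (Fi4_top J le_rfl x)
    have h2 := key _ h1
    rw [map_sub, map_sub, h, zero_sub, neg_eq_zero] at h2
    have h3 := J.inj2 _ (FilA_pr_mem d (-2) x) h2
    rw [h3, sub_zero] at h1
    exact h1

theorem Fi4_one (J : Fi4JM N d) (x : LL C6 K) :
    x ∈ Fil C6 K d 1 ↔ N x = 0 ∧ ∃ y, x = N y := by
  constructor
  · intro hx
    refine ⟨Fi4_bot J (i := 2 + 1) (by norm_num) (J.degF _ _ hx), ?_⟩
    have h1 : x - FilA_pr C6 K d 1 x ∈ Fil C6 K d 2 := FilA_pr_sub (k := 1) hx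
    obtain ⟨y, hy⟩ := (Fi4_two J _).1 h1
    obtain ⟨z, -, hz⟩ := Fi4_surj1 J (FilA_pr_mem d 1 x)
    refine ⟨z + N y, ?_⟩
    rw [map_add, hz, ← hy]
    abel
  · rintro ⟨h, y, rfl⟩
    have h1 := J.degF _ _ ((Fi4_mone J y).2 h)
    have h3 : (2 : ℤ) + -1 = 1 := by norm_num
    rw [h3] at h1
    exact h1

theorem Fi4_zero (J : Fi4JM N d) (x : LL C6 K) :
    x ∈ Fil C6 K d 0 ↔ ∃ y z, N z = 0 ∧ x = N y + z := by
  constructor
  · intro hx
    have h1 := J.degF _ _ hx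
    rw [add_zero] at h1
    obtain ⟨y, hy⟩ := (Fi4_two J _).1 h1
    refine ⟨y, x - N y, ?_, ?_⟩
    · rw [map_sub, hy, sub_self]
      done
    · abel
  · rintro ⟨y, z, hz, rfl⟩
    have h1 := J.degF _ _ (Fi4_top J le_rfl y)
    have h3 : (2 : ℤ) + -2 = 0 := by norm_num
    rw [h3] at h1
    refine add_mem h1 ?_
    have h4 : z ∈ Fil C6 K d (-1) := (Fi4_mone J z).2 (by rw [hz, map_zero])
    have h5 : z - FilA_pr C6 K d (-1) z ∈ Fil C6 K d 0 := FilA_pr_sub (k := -1) h4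
    have h6 := J.degF _ _ h5
    rw [map_sub, hz, zero_sub, add_zero] at h6
    have h7 : N (FilA_pr C6 K d (-1) z) ∈ Fil C6 K d (1 + 1) := by
      have := neg_mem h6
      rw [neg_neg] at this
      exact this
    have h8 := J.deg _ _ (FilA_pr_mem d (-1) z)
    have h9 : (2 : ℤ) + -1 = 1 := by norm_num
    rw [h9] at h8
    have h10 := J.inj1 _ (FilA_pr_mem d (-1) z) (Fil_zero_of h8 h7)
    rw [h10, sub_zero] at h5
    exact h5

end JM

theorem Fi4_half {N N' : LL C6 K →ₗ[K] LL C6 K} {d d' : Fin 6 → ℤ} (J : Fi4JM N d)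
    (J' : Fi4JM N' d') (g : LL C6 K →ₗ[K] LL C6 K) {k : K} (hk : k ≠ 0)
    (h : ∀ x, g (N x) = k • N' (g x)) (i : ℤ) (x : LL C6 K) (hx : x ∈ Fil C6 K d i) :
    g x ∈ Fil C6 K d' i := by
  have hz : ∀ z, N z = 0 → N' (g z) = 0 := fun z hz => by
    have h1 := h z
    rw [hz, map_zero] at h1
    exact (smul_eq_zero.1 h1.symm).resolve_left hk
  by_cases h1 : i ≤ -2
  · exact Fi4_top J' h1 _
  by_cases h2 : 3 ≤ i
  · rw [Fi4_bot J h2 hx, map_zero]
    exact zero_mem _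
  have h3 : i = -1 ∨ i = 0 ∨ i = 1 ∨ i = 2 := by omega
  rcases h3 with rfl | rfl | rfl | rfl
  · rw [Fi4_mone J] at hx
    rw [Fi4_mone J']
    have h4 := hz _ hx
    rw [h, map_smul] at h4
    exact (smul_eq_zero.1 h4).resolve_left hk
  · obtain ⟨y, z, h4, rfl⟩ := (Fi4_zero J x).1 hx
    refine (Fi4_zero J' _).2 ⟨k • g y, g z, hz z h4, ?_⟩
    rw [map_add, h, map_smul]
  · obtain ⟨h4, y, rfl⟩ := (Fi4_one J x).1 hx
    refine (Fi4_one J' _).2 ⟨hz _ h4, k • g y, ?_⟩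
    rw [h, map_smul]
  · obtain ⟨y, rfl⟩ := (Fi4_two J x).1 hx
    refine (Fi4_two J' _).2 ⟨k • k • g y, ?_⟩
    rw [h, h]
    simp only [map_smul]

theorem Fi4_iff {N N' : LL C6 K →ₗ[K] LL C6 K} {d d' : Fin 6 → ℤ} (J : Fi4JM N d)
    (J' : Fi4JM N' d') (g : LL C6 K ≃ₗ[K] LL C6 K) {k : K} (hk : k ≠ 0)
    (h : ∀ x, g (N x) = k • N' (g x)) (i : ℤ) (x : LL C6 K) :
    g x ∈ Fil C6 K d' i ↔ x ∈ Fil C6 K d i := by
  constructor
  · intro hx
    have h1 := Fi4_half J' J (g.symm : LL C6 K →ₗ[K] LL C6 K) (inv_ne_zero hk) (fun y => ?_) i _ hx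
    · have h2 : (g.symm : LL C6 K →ₗ[K] LL C6 K) (g x) = x := g.symm_apply_apply x
      rw [h2] at h1
      exact h1
    · show g.symm (N' y) = k⁻¹ • N (g.symm y)
      rw [g.symm_apply_eq, map_smul, h, g.apply_symm_apply, smul_smul, inv_mul_cancel₀ hk,
        one_smul]
  · exact Fi4_half J J' (g : LL C6 K →ₗ[K] LL C6 K) hk h i x

/-! ### the reflections -/

theorem Fi4_sv_add (x y : Fin 6 → ℤ) : sv (x + y) = sv x + sv y := rfl
theorem Fi4_ip_sg_left (a b : Rt C6) : ip C6 (sg a).1 b.1 = ip C6 a.1 (sg b).1 := by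
  have h := ip_sv a.1 (sg b).1
  have h1 : sv (sg b).1 = b.1 := sv_sv b.1
  rw [h1] at h
  exact h

theorem Fi4_ip_sg_sg (a b : Rt C6) : ip C6 (sg a).1 (sg b).1 = ip C6 a.1 b.1 := ip_sv a.1 b.1

theorem Fi4_ip_rfv (H : HypW C6 K) (a b : Rt C6) :
    ip C6 a.1 (rfv a b) = -ip C6 a.1 b.1 ∧ ip C6 (sg a).1 (rfv a b) = -ip C6 (sg a).1 b.1 := by
  have h1 : ip C6 a.1 a.1 = 2 := a.2
  have h2 : ip C6 (sg a).1 (sg a).1 = 2 := (sg a).2
  unfold rfv
  by_cases ha : sg a = a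
  · rw [if_pos ha, ha, ip_sub_right, ip_smul_right, h1]
    constructor <;> ring
  · rw [if_neg ha]
    have h3 := cb_self a ha
    have h4 : ip C6 (sg a).1 a.1 = 0 := by
      rw [ip_comm H.symm]
      exact h3
    constructor
    · rw [ip_sub_right, ip_sub_right, ip_smul_right, ip_smul_right, h1, h3]
      ring
    · rw [ip_sub_right, ip_sub_right, ip_smul_right, ip_smul_right, h2, h4]
      ring

theorem Fi4_rfv_norm (H : HypW C6 K) (a b : Rt C6) : ip C6 (rfv a b) (rfv a b) = 2 := by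
  obtain ⟨h1, h2⟩ := Fi4_ip_rfv H a b
  have h3 : ip C6 b.1 b.1 = 2 := b.2
  have h4 : ip C6 (rfv a b) (rfv a b) =
      if sg a = a then ip C6 b.1 (rfv a b) - ip C6 a.1 b.1 * ip C6 a.1 (rfv a b)
      else ip C6 b.1 (rfv a b) - ip C6 a.1 b.1 * ip C6 a.1 (rfv a b) -
        ip C6 (sg a).1 b.1 * ip C6 (sg a).1 (rfv a b) := by
    conv_lhs =>
      arg 2
      unfold rfv
    split_ifs with ha
    · rw [ip_sub_left, ip_smul_left]
    · rw [ip_sub_left, ip_sub_left, ip_smul_left, ip_smul_left]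
  have h5 : ip C6 b.1 (rfv a b) =
      if sg a = a then 2 - ip C6 a.1 b.1 * ip C6 a.1 b.1
      else 2 - ip C6 a.1 b.1 * ip C6 a.1 b.1 - ip C6 (sg a).1 b.1 * ip C6 (sg a).1 b.1 := by
    unfold rfv
    split_ifs with ha
    · rw [ip_sub_right, ip_smul_right, h3, ip_comm H.symm b.1 a.1]
    · rw [ip_sub_right, ip_sub_right, ip_smul_right, ip_smul_right, h3, ip_comm H.symm b.1 a.1,
        ip_comm H.symm b.1 (sg a).1]
  rw [h4, h5, h1, h2]
  split_ifs <;> ring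

/-- the root `rfv a b` -/
def Fi4_rf (H : HypW C6 K) (a b : Rt C6) : Rt C6 := ⟨rfv a b, Fi4_rfv_norm H a b⟩

theorem Fi4_rfv_inj (H : HypW C6 K) {a b f : Rt C6} (h : rfv a b = rfv a f) : b = f := by
  obtain ⟨h1, h2⟩ := Fi4_ip_rfv H a b
  obtain ⟨h3, h4⟩ := Fi4_ip_rfv H a f
  rw [h] at h1 h2
  have h5 : ip C6 a.1 b.1 = ip C6 a.1 f.1 := by omega
  have h6 : ip C6 (sg a).1 b.1 = ip C6 (sg a).1 f.1 := by omega
  unfold rfv at h
  rw [h5, h6] at h
  apply Subtype.ext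
  split_ifs at h
  · exact sub_left_injective h
  · exact sub_left_injective (sub_left_injective h)

theorem Fi4_sv_rfv (a f : Rt C6) : sv (rfv a f) = rfv a (sg f) := by
  have h1 : ip C6 a.1 (sg f).1 = ip C6 (sg a).1 f.1 := (Fi4_ip_sg_left a f).symm
  have h2 : ip C6 (sg a).1 (sg f).1 = ip C6 a.1 f.1 := Fi4_ip_sg_sg a f
  unfold rfv
  rw [h1, h2]
  split_ifs with ha
  · rw [ha]
    funext i
    show f.1 (tau i) - ip C6 a.1 f.1 * a.1 (tau i) = f.1 (tau i) - ip C6 a.1 f.1 * a.1 i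
    have h3 : a.1 (tau i) = a.1 i := congrFun (congrArg Subtype.val ha) i
    rw [h3]
  · funext i
    show f.1 (tau i) - ip C6 a.1 f.1 * a.1 (tau i) - ip C6 (sg a).1 f.1 * a.1 (tau (tau i)) =
      f.1 (tau i) - ip C6 (sg a).1 f.1 * a.1 i - ip C6 a.1 f.1 * a.1 (tau i)
    rw [tau_tau]
    ring

/-! ### the root vectors have the Jacobson-Morozov properties -/

theorem Fi4_inj (H : HypW C6 K) (a : Rt C6) (m : ℤ) (hm : m < 0) (M : LL C6 K →ₗ[K] LL C6 K)
    (hM : ∀ f : Rt C6, dg a f = m → (∀ x ∈ Submodule.span K {e K f, e K (sg f)},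
      M x ∈ Submodule.span K {e K (Fi4_rf H a f), e K (sg (Fi4_rf H a f))}) ∧
      ∀ x ∈ Submodule.span K {e K f, e K (sg f)}, M x = 0 → x = 0)
    (x : LL C6 K) (hx : x ∈ Grd C6 K (cv a) m) (h0 : M x = 0) : x = 0 := by
  obtain ⟨h1, h2⟩ := hx
  refine Prod.ext (h2 hm.ne) (funext fun b => ?_)
  by_cases hb : ip C6 (cv a) b.1 = m
  swap
  · exact h1 b hb
  classical
  set y : LL C6 K := x.2 b • e K b + (if sg b = b then 0 else x.2 (sg b)) • e K (sg b) with hy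
  have hys : y ∈ Submodule.span K {e K b, e K (sg b)} := by
    refine add_mem (Submodule.smul_mem _ _ (Submodule.subset_span (Or.inl rfl)))
      (Submodule.smul_mem _ _ (Submodule.subset_span (Or.inr rfl)))
  have hyb : y.2 b = x.2 b := by
    rw [hy]
    show x.2 b * (e K b).2 b + (if sg b = b then 0 else x.2 (sg b)) * (e K (sg b)).2 b = x.2 b
    rw [e_snd_self]
    by_cases h : sg b = b
    · rw [if_pos h]
      ring
    · rw [if_neg h, e_snd_ne (Ne.symm h)]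
      ring
  have hys' : y.2 (sg b) = x.2 (sg b) := by
    by_cases h : sg b = b
    · rw [h]
      exact hyb
    · rw [hy]
      show x.2 b * (e K b).2 (sg b) + (if sg b = b then 0 else x.2 (sg b)) *
        (e K (sg b)).2 (sg b) = x.2 (sg b)
      rw [e_snd_self, if_neg h, e_snd_ne h]
      ring
  have hyf : ∀ f, f ≠ b → f ≠ sg b → y.2 f = 0 := fun f h3 h4 => by
    rw [hy]
    show x.2 b * (e K b).2 f + (if sg b = b then 0 else x.2 (sg b)) * (e K (sg b)).2 f = 0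
    rw [e_snd_ne h3, e_snd_ne h4]
    ring
  set c := Fi4_rf H a b with hc
  -- the rest
  have hr : ∀ u : LL C6 K, u = M (x - y) → u.2 c = 0 ∧ u.2 (sg c) = 0 := by
    intro u hu
    have h3 : x - y = ∑ f : Rt C6, (x - y).2 f • e K f := by
      have h4 := decomp (x - y)
      have h5 : (x - y).1 = 0 := by
        show x.1 - y.1 = 0
        rw [h2 hm.ne, hy]
        show 0 - (x.2 b • (e K b).1 + _ • (e K (sg b)).1) = 0
        rw [e_fst, e_fst, smul_zero, smul_zero, add_zero, sub_zero]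
      rw [h5, hh_zero, zero_add] at h4
      exact h4
    let U : Submodule K (LL C6 K) :=
      { carrier := {z | z.2 c = 0 ∧ z.2 (sg c) = 0}
        add_mem' := by
          rintro z w ⟨h4, h5⟩ ⟨h6, h7⟩
          exact ⟨by simp [h4, h6], by simp [h5, h7]⟩
        zero_mem' := ⟨rfl, rfl⟩
        smul_mem' := by
          rintro k z ⟨h4, h5⟩
          exact ⟨by simp [h4], by simp [h5]⟩ }
    have h4 : M (x - y) ∈ U := by
      rw [h3, map_sum]
      refine Submodule.sum_mem _ fun f _ => ?_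
      rw [map_smul]
      by_cases hf : f = b ∨ f = sg b
      · have h5 : (x - y).2 f = 0 := by
          show x.2 f - y.2 f = 0
          rcases hf with rfl | rfl
          · rw [hyb, sub_self]
          · rw [hys', sub_self]
        rw [h5, zero_smul]
        exact zero_mem _
      · push Not at hf
        by_cases hfm : dg a f = m
        · have h5 := (hM f hfm).1 _ (Submodule.subset_span (Or.inl rfl))
          refine Submodule.smul_mem _ _ ?_
          have h6 : (Submodule.span K {e K (Fi4_rf H a f), e K (sg (Fi4_rf H a f))} :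
              Submodule K (LL C6 K)) ≤ U := by
            rw [Submodule.span_le]
            have n1 : c ≠ Fi4_rf H a f := fun h => hf.1
              (Fi4_rfv_inj H (congrArg Subtype.val h)).symm
            have n2 : c ≠ sg (Fi4_rf H a f) := fun h => hf.2 (by
              have h7 : rfv a b = sv (rfv a f) := congrArg Subtype.val h
              rw [Fi4_sv_rfv] at h7
              have h8 := Fi4_rfv_inj H h7
              rw [h8, sg_sg])
            have n3 : sg c ≠ Fi4_rf H a f := fun h => n2 (by rw [← h, sg_sg])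
            have n4 : sg c ≠ sg (Fi4_rf H a f) := fun h => n1 (by
              rw [← sg_sg c, h, sg_sg])
            rintro z (rfl | rfl)
            · exact ⟨e_snd_ne n1, e_snd_ne n3⟩
            · exact ⟨e_snd_ne n2, e_snd_ne n4⟩
          exact h6 h5
        · have h5 : (x - y).2 f = 0 := by
            show x.2 f - y.2 f = 0
            rw [hyf f hf.1 hf.2, h1 f hfm, sub_zero]
          rw [h5, zero_smul]
          exact zero_mem _
    rw [hu]
    exact h4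
  have h3 : M y = 0 := by
    have h4 := (hM b hb).1 y hys
    have h5 : M (x - y) = -M y := by rw [map_sub, h0, zero_sub]
    have h6 := hr _ rfl
    rw [h5] at h6
    have h7 : (M y).2 c = 0 := by
      have := h6.1
      exact neg_eq_zero.1 this
    have h8 : (M y).2 (sg c) = 0 := neg_eq_zero.1 h6.2
    rw [Submodule.mem_span_pair] at h4
    obtain ⟨p, q, hpq⟩ := h4
    rw [← hc] at hpq
    rw [← hpq] at h7 h8 ⊢
    by_cases h : sg c = c
    · rw [h] at h7 ⊢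
      have h9 : p * (e K c).2 c + q * (e K c).2 c = 0 := h7
      rw [e_snd_self, mul_one, mul_one] at h9
      rw [← add_smul, h9, zero_smul]
    · have h9 : p * (e K c).2 c + q * (e K (sg c)).2 c = 0 := h7
      have h10 : p * (e K c).2 (sg c) + q * (e K (sg c)).2 (sg c) = 0 := h8
      rw [e_snd_self, e_snd_ne (Ne.symm h), mul_one, mul_zero, add_zero] at h9
      rw [e_snd_self, e_snd_ne h, mul_one, mul_zero, zero_add] at h10
      rw [h9, h10, zero_smul, zero_smul, add_zero]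
  have h4 := (hM b hb).2 y hys h3
  rw [← hyb, h4]

theorem Fi4_Df_grd (a : Rt C6) : Df K a ∈ Grd C6 K (cv a) 2 := by
  refine ⟨fun b hb => ?_, fun _ => Df_fst a⟩
  rw [Df_snd, if_neg]
  intro h
  apply hb
  rcases h with h | h
  · rw [h]
    exact dg_self a
  · rw [h]
    have h1 := dg_sg_right a a
    rw [dg_self] at h1
    exact h1

theorem Fi4_JM (H : HypW C6 K) (a : Rt C6) : Fi4JM (br (Df K a)) (cv a) where
  rng := fun b => dg_range a b
  deg := fun i x hx => FilA_br_grd (Fi4_Df_grd a) hx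
  degF := fun i x hx => FilA_br_fil (FilA_grd_le _ _ (Fi4_Df_grd a)) hx
  inj2 := fun x hx h => by
    refine Fi4_inj H a (-2) (by norm_num) ((br (Df K a)) ∘ₗ (br (Df K a))) (fun f hf => ?_) x hx h
    obtain ⟨h1, h2⟩ := ad_inj H a f (Fi4_rf H a f) (by rw [hf]; norm_num) rfl
    have h3 : ¬ dg a f = -1 := by rw [hf]; norm_num
    simp only [if_neg h3] at h1 h2
    exact ⟨h1, h2⟩
  inj1 := fun x hx h => by
    refine Fi4_inj H a (-1) (by norm_num) (br (Df K a)) (fun f hf => ?_) x hx h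
    obtain ⟨h1, h2⟩ := ad_inj H a f (Fi4_rf H a f) (by rw [hf]; norm_num) rfl
    simp only [if_pos hf] at h1 h2
    exact ⟨h1, h2⟩

/-- a toral element mapping `Df a` to `wf a` -/
theorem Fi4_tor (H : HypW C6 K) {a : Rt C6} (ha : sg a ≠ a) :
    ∃ t ∈ TT C6 K, t (Df K a) = wf K a := by
  have h1 : ip C6 (sg a).1 a.1 = 0 := by
    rw [ip_comm H.symm]
    exact cb_self a ha
  obtain ⟨y, hy1, hy2⟩ := H.ra (sg a) a (Or.inl h1)
  refine ⟨hd C6 y.1 (-1), hd_mem_TT H _ _, ?_⟩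
  rw [Df_short ha, map_add, hd_e, hd_e, hy1, hy2, zpow_zero, zpow_one]
  unfold wf
  simp [sub_eq_add_neg]

theorem Fil_D (H : HypW C6 K) {g : LL C6 K ≃ₗ[K] LL C6 K} (hg : g ∈ GG C6 K) {a b : Rt C6}
    {k : K} (hk : k ≠ 0) (h : g (Df K a) = k • Df K b) (i : ℤ) (x : LL C6 K) :
    g x ∈ Fil C6 K (cv b) i ↔ x ∈ Fil C6 K (cv a) i := by
  refine Fi4_iff (Fi4_JM H a) (Fi4_JM H b) g hk (fun y => ?_) i x
  rw [hg.1, h, map_smul, LinearMap.smul_apply]

theorem Fil_w (H : HypW C6 K) {g : LL C6 K ≃ₗ[K] LL C6 K} (hg : g ∈ GG C6 K) {a b : Rt C6}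
    (ha : sg a ≠ a) (hb : sg b ≠ b) {k : K} (hk : k ≠ 0) (h : g (wf K a) = k • wf K b) (i : ℤ)
    (x : LL C6 K) : g x ∈ Fil C6 K (cv b) i ↔ x ∈ Fil C6 K (cv a) i := by
  obtain ⟨s, hs, hs'⟩ := Fi4_tor H ha
  obtain ⟨t, ht, ht'⟩ := Fi4_tor H hb
  have h1 : (t⁻¹ * g * s) (Df K a) = k • Df K b := by
    show t.symm (g (s (Df K a))) = _
    rw [hs', h, map_smul, ← ht', t.symm_apply_apply]
  have h2 : t⁻¹ * g * s ∈ GG C6 K :=
    mul_mem (mul_mem (inv_mem (TT_le_GG ht)) hg) (TT_le_GG hs)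
  have h3 := Fil_D H h2 hk h1 i (s.symm x)
  have h4 : (t⁻¹ * g * s) (s.symm x) = t.symm (g x) := by
    show t.symm (g (s (s.symm x))) = _
    rw [s.apply_symm_apply]
  rw [h4] at h3
  have h5 := (TT_le_Par H (cv b) ht).2 i (t.symm (g x))
  rw [t.apply_symm_apply] at h5
  have h6 := (TT_le_Par H (cv a) hs).2 i (s.symm x)
  rw [s.apply_symm_apply] at h6
  rw [h5, h3, h6]

theorem pt_len (H : HypW C6 K) {g : LL C6 K ≃ₗ[K] LL C6 K} (hg : g ∈ GF K) {a b : Rt C6}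
    {k : K} (h : g (pv K a) = k • pv K b) : (sg a = a ↔ sg b = b) := by
  have h2 : (2 : K) ≠ 0 := two_ne H
  have hgz : g (pv K a) ≠ 0 := fun h0 => pv_ne_zero H a (g.map_eq_zero_iff.1 h0)
  have key : ∀ z : LL C6 K, z ∈ LF K → z ∈ VF K → z = 0 := fun z h3 h4 => by
    rw [mem_LF] at h3
    rw [mem_VF] at h4
    rw [h3] at h4
    have h5 : (2 : K) • z = 0 := by
      rw [two_smul]
      nth_rewrite 1 [h4]
      rw [neg_add_cancel]
    exact (smul_eq_zero.1 h5).resolve_left h2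
  constructor
  · intro ha
    by_contra hb
    apply hgz
    apply key
    · rw [GF_LF hg, pv_long ha, ← Df_long (K := K) ha]
      exact Df_mem a
    · rw [h, pv_short hb]
      exact Submodule.smul_mem _ _ (wf_mem b)
  · intro hb
    by_contra ha
    apply hgz
    apply key
    · rw [h, pv_long hb, ← Df_long (K := K) hb]
      exact Submodule.smul_mem _ _ (Df_mem b)
    · rw [GF_VF hg, pv_short ha]
      exact wf_mem a

/-- the filtration is determined by the point -/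
theorem Fil_pv (H : HypW C6 K) {g : LL C6 K ≃ₗ[K] LL C6 K} (hg : g ∈ GF K) {a b : Rt C6}
    {k : K} (hk : k ≠ 0) (h : g (pv K a) = k • pv K b) (i : ℤ) (x : LL C6 K) :
    g x ∈ Fil C6 K (cv b) i ↔ x ∈ Fil C6 K (cv a) i := by
  have hl := pt_len H hg h
  by_cases ha : sg a = a
  · have hb := hl.1 ha
    refine Fil_D H (GF_le_GG hg) hk ?_ i x
    rw [Df_long ha, Df_long hb, ← pv_long (K := K) ha, ← pv_long (K := K) hb]
    exact h
  · have hb : ¬ sg b = b := fun hb => ha (hl.2 hb)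
    refine Fil_w H (GF_le_GG hg) ha hb hk ?_ i x
    rw [← pv_short (K := K) ha, ← pv_short (K := K) hb]
    exact h

end Pool.Agent.H31.F4
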