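import Pool.Agent.H31.F4.XDa4

/-!
# FF-20: decomposition of extremal vectors in `LF`, step 2

`a` long.  This is `Pool.Agent.H33.EL.xd_step2` (file `EL/XDb.lean`, copy the proof; its lemmas are
stated for `Hyp`, here `HypW`), except that the nondegeneracy is replaced by `nds`, which
applies since `v.1` is invariant (`v ∈ LF`): `v.1 - μ • zk a` with `sv (zk a) = zk a`.
`dg a d = ip a d` (`dg_long`).
If `t ≠ 0` then `v.1 = -v.2 (ng a) t zk a ≠ 0` and `Sup` gives `l a > 0`.
-/

namespace Pool.Agent.H31.F4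

open Pool.Agent.H33.EL (ip cc eps Rt ng zk ek fk LL hh e brf fmf br fm IsExt exl ex xr hd L0 GG T1 TT NN SF cj wt)

section

variable {n : ℕ} {C : Matrix (Fin n) (Fin n) ℤ} {K : Type} [Field K] [Fintype (Rt C)]

/-- all coordinates of degree less than `i` (with respect to `ip · a`) vanish -/
def XDlDeg (a : Rt C) (i : ℤ) (u : LL C K) : Prop :=
  (∀ r : Rt C, ip C r.1 a.1 < i → u.2 r = 0) ∧ (0 < i → u.1 = 0)

theorem XDl_br (a : Rt C) {i j : ℤ} {u w : LL C K} (hu : XDlDeg a i u) (hw : XDlDeg a j w) :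
    XDlDeg a (i + j) (br u w) := by
  refine ⟨fun r hr => ?_, fun hij => ?_⟩
  · show (brf u w).2 r = 0
    unfold brf
    dsimp only
    have h1 : fk C u.1 (zk r.1) * w.2 r = 0 := by
      by_cases hi : 0 < i
      · rw [hu.2 hi, fk_zero_left, zero_mul]
      · rw [hw.1 r (by omega), mul_zero]
    have h2 : fk C w.1 (zk r.1) * u.2 r = 0 := by
      by_cases hj : 0 < j
      · rw [hw.2 hj, fk_zero_left, zero_mul]
      · rw [hu.1 r (by omega), mul_zero]
    rw [h1, h2, sub_zero, zero_add]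
    refine Finset.sum_eq_zero fun b _ => ?_
    split_ifs with h
    · have h3 : ip C (r.1 - b.1) a.1 = ip C r.1 a.1 - ip C b.1 a.1 := ip_sub_left _ _ _
      by_cases hb : ip C b.1 a.1 < i
      · rw [hu.1 b hb, zero_mul, mul_zero]
      · rw [hw.1 ⟨r.1 - b.1, h⟩ (by show ip C (r.1 - b.1) a.1 < j; omega), mul_zero, mul_zero]
    · rfl
  · show (brf u w).1 = 0
    unfold brf
    dsimp only
    rw [neg_eq_zero]
    refine Finset.sum_eq_zero fun b _ => ?_
    have h3 : ip C (ng b).1 a.1 = -ip C b.1 a.1 := by rw [ng_val, ip_neg_left]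
    by_cases hb : ip C b.1 a.1 < i
    · rw [hu.1 b hb, zero_mul, zero_smul]
    · rw [hw.1 (ng b) (by omega), mul_zero, zero_smul]

theorem XDl_e (a b : Rt C) {i : ℤ} (h : i ≤ ip C b.1 a.1) : XDlDeg a i (e K b) := by
  refine ⟨fun r hr => ?_, fun _ => e_fst b⟩
  apply e_snd_ne
  intro h1
  rw [h1] at hr
  omega

theorem XDl_coord_f (H : HypW C K) (a p r : Rt C) (hr : r.1 = p.1 - a.1) (hp : ip C p.1 a.1 = 1)
    (z : LL C K) : (br (e K (ng a)) z).2 r = ek K C (ng a).1 p.1 * z.2 p := by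
  apply br_e_snd H (ng a) z r
  · rw [ng_val, ip_neg_right, hr, ip_sub_left, hp, a.2]
    norm_num
  · rw [ng_val, hr]
    abel

/-- Step 2 -/
theorem XDl_step2 (H : HypW C K) {v : LL C K} (hv : IsExt v) (a : Rt C) (hc : v.2 (ng a) ≠ 0)
    (h1 : ∀ d : Rt C, ip C d.1 a.1 = -1 → v.2 d = 0)
    (hnd : ∀ m : K, (∀ y : Rt C, fk C (v.1 - m • zk a.1) (zk y.1) = 0) → v.1 - m • zk a.1 = 0) :
    ∃ t : K, v = v.2 (ng a) • xr a t (e K (ng a)) := by
  have h20 := two_ne H
  obtain ⟨c, hcdef⟩ : ∃ c, c = v.2 (ng a) := ⟨_, rfl⟩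
  rw [← hcdef] at hc ⊢
  obtain ⟨v', hv'⟩ : ∃ v', v' = v - c • e K (ng a) := ⟨_, rfl⟩
  have hvv : v = c • e K (ng a) + v' := by rw [hv']; abel
  have hv'1 : v'.1 = v.1 := by
    rw [hv']
    show v.1 - c • (e K (ng a)).1 = v.1
    rw [e_fst, smul_zero, sub_zero]
  have hv'2 : ∀ r, r ≠ ng a → v'.2 r = v.2 r := by
    intro r hr
    rw [hv']
    show v.2 r - c * (e K (ng a)).2 r = v.2 r
    rw [e_snd_ne hr, mul_zero, sub_zero]
  have hipna : ip C (ng a).1 a.1 = -2 := by rw [ng_val, ip_neg_left, a.2]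
  have hd0 : XDlDeg a 0 v' := by
    refine ⟨fun r hr => ?_, fun h => absurd h (lt_irrefl _)⟩
    by_cases hra : r = ng a
    · rw [hv', hra]
      show v.2 (ng a) - c * (e K (ng a)).2 (ng a) = 0
      rw [e_snd_self, mul_one, hcdef, sub_self]
    · rw [hv'2 r hra]
      apply h1
      rcases ip_cases H a r with h | h | h | h | h
      · exact absurd h hra
      · rw [ip_comm H.symm, h]
      · rw [ip_comm H.symm, h] at hr; omega
      · rw [ip_comm H.symm, h] at hr; omega
      · rw [h, a.2] at hr; omega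
  -- Step A
  have hA : ∀ y p : Rt C, ip C y.1 a.1 = 1 → ip C p.1 a.1 = 1 →
      2 * (br v' (e K y)).2 p = fk C v.1 (zk a.1) * (e K y).2 p := by
    intro y p hy hp
    have hr := root_sub H hp
    have hra : ip C (p.1 - a.1) a.1 = -1 := by rw [ip_sub_left, hp, a.2]; norm_num
    have hfv : fm v (e K y) = 0 := by
      rw [fm_e_right, h1, neg_zero]
      rw [ng_val, ip_neg_left, hy]
    have hE : br v (br v (e K y)) = 0 := by
      rw [hv, hfv, mul_zero, zero_smul]
    have hff : br (e K (ng a)) (br (e K (ng a)) (e K y)) = 0 := by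
      rw [isExt_e H (ng a), fm_e_left, ng_ng, e_snd_ne, neg_zero, mul_zero, zero_smul]
      intro h
      rw [← h, a.2] at hy
      omega
    have hexp : br v (br v (e K y)) = c • c • br (e K (ng a)) (br (e K (ng a)) (e K y)) +
        c • br (e K (ng a)) (br v' (e K y)) + c • br v' (br (e K (ng a)) (e K y)) +
        br v' (br v' (e K y)) := by
      rw [hvv]
      simp only [map_add, LinearMap.add_apply, map_smul, LinearMap.smul_apply]
      module
    rw [hE, hff, jac H v' (e K (ng a)) (e K y)] at hexp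
    obtain ⟨g, hg⟩ : ∃ g, g = br v' (e K (ng a)) := ⟨_, rfl⟩
    obtain ⟨l, hl⟩ : ∃ l, l = g.2 (ng a) := ⟨_, rfl⟩
    obtain ⟨g', hg'⟩ : ∃ g', g' = g - l • e K (ng a) := ⟨_, rfl⟩
    have hgg : g = l • e K (ng a) + g' := by rw [hg']; abel
    have hdg : XDlDeg a (0 + -2) g := by
      rw [hg]
      exact XDl_br a hd0 (XDl_e a (ng a) (by rw [hipna]))
    have hdg' : XDlDeg a (-1) g' := by
      refine ⟨fun r hr => ?_, fun h => absurd h (by norm_num)⟩
      by_cases hra : r = ng a
      · rw [hg', hra]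
        show g.2 (ng a) - l * (e K (ng a)).2 (ng a) = 0
        rw [e_snd_self, mul_one, hl, sub_self]
      · exfalso
        rcases ip_cases H a r with h | h | h | h | h
        · exact hra h
        · rw [ip_comm H.symm, h] at hr; omega
        · rw [ip_comm H.symm, h] at hr; omega
        · rw [ip_comm H.symm, h] at hr; omega
        · rw [h, a.2] at hr; omega
    have hlval : l = -fk C v.1 (zk a.1) := by
      rw [hl, hg, br_skew H]
      show -(br (e K (ng a)) v').2 (ng a) = _
      rw [br_e_snd_self H, neg_neg, hv'1, ng_val, zk_neg, fk_neg_right]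
    have hz1 : (br g' (e K y)).2 ⟨p.1 - a.1, hr⟩ = 0 := by
      apply (XDl_br a hdg' (XDl_e a y hy.ge)).1
      show ip C (p.1 - a.1) a.1 < _
      rw [hra]
      norm_num
    have hz2 : (br v' (br v' (e K y))).2 ⟨p.1 - a.1, hr⟩ = 0 := by
      apply (XDl_br a hd0 (XDl_br a hd0 (XDl_e a y hy.ge))).1
      show ip C (p.1 - a.1) a.1 < _
      rw [hra]
      norm_num
    have hgx : br g (e K y) = l • br (e K (ng a)) (e K y) + br g' (e K y) := by
      conv_lhs => rw [hgg]
      simp only [map_add, LinearMap.add_apply, map_smul, LinearMap.smul_apply]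
    rw [← hg, hgx] at hexp
    have hcoord := congrArg (fun z : LL C K => z.2 ⟨p.1 - a.1, hr⟩) hexp
    have z0 : (0 : LL C K).2 ⟨p.1 - a.1, hr⟩ = 0 := rfl
    simp only [Prod.snd_add, Prod.smul_snd, Pi.add_apply, Pi.smul_apply, smul_eq_mul,
      z0, hz1, hz2, mul_zero, add_zero, zero_add,
      XDl_coord_f H a p ⟨p.1 - a.1, hr⟩ rfl hp] at hcoord
    have hek := ek_ne_zero (K := K) (C := C) (ng a).1 p.1
    have hcek : c * ek K C (ng a).1 p.1 ≠ 0 := mul_ne_zero hc hek
    apply mul_left_cancel₀ hcek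
    rw [hlval] at hcoord
    linear_combination -hcoord
  have hB : ∀ y : Rt C, ip C y.1 a.1 = 1 → 2 * fk C v.1 (zk y.1) = fk C v.1 (zk a.1) := by
    intro y hy
    have h := hA y y hy hy
    rw [br_skew H, e_snd_self, mul_one] at h
    have h2 : (-(br (e K y)) v').2 y = fk C v.1 (zk y.1) := by
      show -(br (e K y) v').2 y = _
      rw [br_e_snd_self H, neg_neg, hv'1]
    rw [← h, ← h2]
  have hC : ∀ b : Rt C, ip C b.1 a.1 = 0 → v.2 b = 0 := by
    intro b hb
    obtain ⟨y, hy1, hy2⟩ := H.rb a b (by rw [ip_comm H.symm, hb])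
    have hpr := root_add H hy2
    have hpa : ip C (y.1 + b.1) a.1 = 1 := by rw [ip_add_left, hy1, hb]; norm_num
    have h := hA y ⟨y.1 + b.1, hpr⟩ hy1 hpa
    have hne : (⟨y.1 + b.1, hpr⟩ : Rt C) ≠ y := by
      intro h3
      have h4 : y.1 + b.1 = y.1 := congrArg Subtype.val h3
      have h5 : b.1 = 0 := by simpa using h4
      have h6 := b.2
      rw [h5, ip_zero_left] at h6
      omega
    rw [e_snd_ne hne, mul_zero, br_skew H] at h
    have h2 : (-(br (e K y)) v').2 ⟨y.1 + b.1, hpr⟩ = -(ek K C y.1 b.1 * v.2 b) := by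
      show -(br (e K y) v').2 ⟨y.1 + b.1, hpr⟩ = _
      rw [br_e_snd H y v' ⟨y.1 + b.1, hpr⟩ ?_ b ?_, hv'2 b]
      · intro h7
        rw [h7, hipna] at hb
        omega
      · show ip C (y.1 + b.1) y.1 = 1
        rw [ip_add_left, y.2, ip_comm H.symm, hy2]
        norm_num
      · show b.1 = y.1 + b.1 - y.1
        abel
    have h3 : 2 * -(ek K C y.1 b.1 * v.2 b) = 0 := by
      rw [← h2]
      exact h
    rcases mul_eq_zero.mp h3 with h4 | h4
    · exact absurd h4 h20
    · rcases mul_eq_zero.mp (neg_eq_zero.mp h4) with h5 | h5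
      · exact absurd h5 (ek_ne_zero _ _)
      · exact h5
  have hD : ∀ y : Rt C, 2 * fk C v.1 (zk y.1) =
      fk C v.1 (zk a.1) * ((ip C a.1 y.1 : ℤ) : K) := by
    intro y
    rcases ip_cases H a y with h | h | h | h | h
    · rw [h, ng_val, zk_neg, fk_neg_right, ip_neg_right, a.2]
      push_cast
      ring
    · have h2 := hB (ng y) (by rw [ng_val, ip_neg_left, ip_comm H.symm, h]; norm_num)
      rw [ng_val, zk_neg, fk_neg_right] at h2
      rw [h]
      push_cast
      linear_combination -h2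
    · obtain ⟨z, hz1, hz2⟩ := H.rb a y h
      have hpr := root_add H hz2
      have hpa : ip C (z.1 + y.1) a.1 = 1 := by
        rw [ip_add_left, hz1, ip_comm H.symm y.1, h]; norm_num
      have h2 := hB ⟨z.1 + y.1, hpr⟩ hpa
      have h3 := hB z hz1
      have h4 : fk C v.1 (zk (z.1 + y.1)) = fk C v.1 (zk z.1) + fk C v.1 (zk y.1) := by
        rw [zk_add, fk_add_right]
      change 2 * fk C v.1 (zk (z.1 + y.1)) = _ at h2
      rw [h4] at h2
      rw [h]
      push_cast
      linear_combination h2 - h3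
    · have h2 := hB y (by rw [ip_comm H.symm, h])
      rw [h, h2]
      push_cast
      ring
    · rw [h, a.2]
      push_cast
      ring
  obtain ⟨m, hm⟩ : ∃ m : K, m = 2⁻¹ * fk C v.1 (zk a.1) := ⟨_, rfl⟩
  have h2m : 2 * m = fk C v.1 (zk a.1) := by
    rw [hm, ← mul_assoc, mul_inv_cancel₀ h20, one_mul]
  have hv1 : v.1 = m • zk a.1 := by
    rw [← sub_eq_zero]
    apply hnd
    intro y
    rw [fk_sub_left, fk_smul_left, fk_zk_zk]
    have h3 := hD y
    rw [← h2m] at h3
    apply mul_left_cancel₀ h20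
    rw [mul_zero]
    linear_combination h3
  -- degree one
  obtain ⟨v'', hv''⟩ : ∃ v'', v'' = v' - hh C v.1 := ⟨_, rfl⟩
  have hv''2 : ∀ r, v''.2 r = v'.2 r := by
    intro r
    rw [hv'']
    show v'.2 r - (hh C v.1).2 r = v'.2 r
    rw [hh_snd, sub_zero]
  have hvv'' : v' = hh C v.1 + v'' := by rw [hv'']; abel
  have hd1 : XDlDeg a 1 v'' := by
    refine ⟨fun r hr => ?_, fun _ => ?_⟩
    · rw [hv''2]
      by_cases h : ip C r.1 a.1 < 0
      · exact hd0.1 r h
      · rw [hv'2 r (by intro h2; rw [h2, hipna] at h; omega)]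
        exact hC r (by omega)
    · rw [hv'']
      show v'.1 - (hh C v.1).1 = 0
      rw [hh_fst, hv'1, sub_self]
  have hE : ∀ y : Rt C, ip C y.1 a.1 = 1 → v.2 y = 0 := by
    intro y hy
    obtain ⟨b, hb1, hb2⟩ := H.ra (ng y) a
      (Or.inr (Or.inr (by rw [ng_val, ip_neg_left, hy])))
    rw [ng_val, ip_neg_right] at hb1
    have hby : ip C b.1 y.1 = -1 := by omega
    have hyb : ip C y.1 b.1 = -1 := by rw [ip_comm H.symm, hby]
    have hpr := root_add H hyb
    have hpa : ip C (y.1 + b.1) a.1 = 1 := by rw [ip_add_left, hy, hb2]; norm_num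
    have hr := root_sub H (a := ⟨y.1 + b.1, hpr⟩) (b := a) hpa
    have hra : ip C (y.1 + b.1 - a.1) a.1 = -1 := by rw [ip_sub_left, hpa, a.2]; norm_num
    have hfv : fm v (e K b) = 0 := by
      rw [fm_e_right, hC, neg_zero]
      rw [ng_val, ip_neg_left, hb2]
      norm_num
    have hEE : br v (br v (e K b)) = 0 := by
      rw [hv, hfv, mul_zero, zero_smul]
    have hfb : br (e K (ng a)) (e K b) = 0 := by
      apply br_e_e_zero H
      rw [ng_val, ip_neg_left, ip_comm H.symm, hb2]
      norm_num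
    have hkb : fk C v.1 (zk b.1) = 0 := by
      have h3 := hD b
      rw [ip_comm H.symm, hb2] at h3
      push_cast at h3
      rw [mul_zero] at h3
      rcases mul_eq_zero.mp h3 with h4 | h4
      · exact absurd h4 h20
      · exact h4
    have hw : br v (e K b) = br v'' (e K b) := by
      rw [hvv, map_add, LinearMap.add_apply, map_smul, LinearMap.smul_apply, hfb, smul_zero,
        zero_add, hvv'', map_add, LinearMap.add_apply, br_hh_e, hkb, zero_smul, zero_add]
    rw [hw] at hEE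
    have hexp : br v (br v'' (e K b)) = c • br (e K (ng a)) (br v'' (e K b)) +
        br v' (br v'' (e K b)) := by
      conv_lhs => rw [hvv]
      rw [map_add, LinearMap.add_apply, map_smul, LinearMap.smul_apply]
    rw [hEE] at hexp
    have hz2 : (br v' (br v'' (e K b))).2 ⟨y.1 + b.1 - a.1, hr⟩ = 0 := by
      apply (XDl_br a hd0 (XDl_br a hd1 (XDl_e a b hb2.ge))).1
      show ip C (y.1 + b.1 - a.1) a.1 < _
      rw [hra]
      norm_num
    have hcoord := congrArg (fun z : LL C K => z.2 ⟨y.1 + b.1 - a.1, hr⟩) hexp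
    have z0 : (0 : LL C K).2 ⟨y.1 + b.1 - a.1, hr⟩ = 0 := rfl
    simp only [Prod.snd_add, Prod.smul_snd, Pi.add_apply, Pi.smul_apply, smul_eq_mul,
      z0, hz2, add_zero,
      XDl_coord_f H a ⟨y.1 + b.1, hpr⟩ ⟨y.1 + b.1 - a.1, hr⟩ rfl hpa] at hcoord
    have h5 : (br v'' (e K b)).2 ⟨y.1 + b.1, hpr⟩ = -(ek K C b.1 y.1 * v.2 y) := by
      rw [br_skew H]
      show -(br (e K b) v'').2 ⟨y.1 + b.1, hpr⟩ = _
      rw [br_e_snd H b v'' ⟨y.1 + b.1, hpr⟩ ?_ y ?_, hv''2, hv'2 y]
      · intro h7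
        rw [h7, hipna] at hy
        omega
      · show ip C (y.1 + b.1) b.1 = 1
        rw [ip_add_left, hyb, b.2]
        norm_num
      · show y.1 = y.1 + b.1 - b.1
        abel
    rw [h5] at hcoord
    rcases mul_eq_zero.mp hcoord.symm with h6 | h6
    · exact absurd h6 hc
    · rcases mul_eq_zero.mp h6 with h7 | h7
      · exact absurd h7 (ek_ne_zero _ _)
      · rcases mul_eq_zero.mp (neg_eq_zero.mp h7) with h8 | h8
        · exact absurd h8 (ek_ne_zero _ _)
        · exact h8
  -- the end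
  have hfin : v = c • e K (ng a) + hh C (m • zk a.1) + v.2 a • e K a := by
    refine Prod.ext ?_ (funext fun r => ?_)
    · show v.1 = c • (e K (ng a)).1 + (hh C (m • zk a.1)).1 + v.2 a • (e K a).1
      rw [e_fst, e_fst, smul_zero, smul_zero, zero_add, add_zero, hh_fst, hv1]
    · show v.2 r = c * (e K (ng a)).2 r + (hh C (m • zk a.1)).2 r + v.2 a * (e K a).2 r
      rw [hh_snd, add_zero]
      by_cases hra : r = ng a
      · have hne : ng a ≠ a := ng_ne H a
        rw [hra, e_snd_self, e_snd_ne hne, mul_one, mul_zero, add_zero, hcdef]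
      · rw [e_snd_ne hra, mul_zero, zero_add]
        by_cases hra2 : r = a
        · rw [hra2, e_snd_self, mul_one]
        · rw [e_snd_ne hra2, mul_zero]
          rcases ip_cases H a r with h | h | h | h | h
          · exact absurd h hra
          · exact h1 r (by rw [ip_comm H.symm, h])
          · exact hC r (by rw [ip_comm H.symm, h])
          · exact hE r (by rw [ip_comm H.symm, h])
          · exact absurd h hra2
  have hff := IsExt_fm_self H hv
  have hquad : c * v.2 a = m ^ 2 := by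
    have h3 : fm v v = fk C v.1 v.1 - c * v.2 a - v.2 a * c := by
      have h4 : fm v v = fm (c • e K (ng a) + hh C (m • zk a.1) + v.2 a • e K a) v :=
        congrArg (fun z => fm z v) hfin
      rw [h4, map_add, map_add, LinearMap.add_apply, LinearMap.add_apply, map_smul, map_smul,
        LinearMap.smul_apply, LinearMap.smul_apply, fm_e_left, fm_e_left, fm_hh_left, ng_ng,
        ← hcdef, smul_eq_mul, smul_eq_mul, hv1]
      ring
    rw [hff, hv1, fk_smul_left, fk_smul_right, fk_zk_zk, a.2] at h3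
    push_cast at h3
    apply mul_left_cancel₀ h20
    linear_combination h3
  refine ⟨-(m / c), ?_⟩
  rw [xr_e_ng H]
  conv_lhs => rw [hfin]
  have h5 : v.2 a = c * (-(m / c)) ^ 2 := by
    have : c * (-(m / c)) ^ 2 = m ^ 2 / c := by
      field_simp
    rw [this, ← hquad]
    field_simp
  have h6 : hh C (m • zk a.1) = (m : K) • hh C (zk a.1) := hh_smul _ _
  rw [h6, h5, smul_add, smul_sub, smul_smul, smul_smul]
  have h7 : c * -(m / c) = -m := by
    field_simp
  rw [h7, neg_smul, sub_neg_eq_add]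

end

variable {K : Type} [Field K]

theorem xd_step2_l (H : HypW C6 K) {v : LL C6 K} (hv : IsExt v) (hL : v ∈ LF K) (a : Rt C6)
    (ha : sg a = a) (hc : v.2 (ng a) ≠ 0) (h1 : ∀ d : Rt C6, ip C6 d.1 a.1 = -1 → v.2 d = 0) :
    ∃ t : K, v = v.2 (ng a) • xf a t (e K (ng a)) ∧ (t ≠ 0 → v.1 ≠ 0) := by
  have hs := ((mem_LF' v).mp hL).1
  have hza : sv (zk a.1 : Fin 6 → K) = zk a.1 := by
    rw [← zk_sv]
    have : sv a.1 = a.1 := congrArg Subtype.val ha
    rw [this]
  obtain ⟨t, ht⟩ := XDl_step2 H hv a hc h1 (by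
    intro m hm
    apply nds H _ hm
    funext i
    have e1 := congrFun hs i
    have e2 := congrFun hza i
    simp only [sv] at e1 e2
    simp only [sv, Pi.sub_apply, Pi.smul_apply, e1, e2])
  have hxf : xf a t = xr a t := by
    unfold xf Df
    rw [if_pos ha]
    rfl
  refine ⟨t, ?_, ?_⟩
  · rw [hxf]
    exact ht
  · intro ht0 hv0
    have h2 := congrArg Prod.fst ht
    rw [xr_e_ng H, hv0] at h2
    have h3 : (v.2 (ng a) • (e K (ng a) - t • hh C6 (zk a.1) + (t ^ 2) • e K a) : LL C6 K).1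
        = v.2 (ng a) • (-(t • zk a.1)) := by
      show v.2 (ng a) • ((e K (ng a)).1 - t • (hh C6 (zk a.1)).1 + (t ^ 2) • (e K a).1) = _
      rw [e_fst, e_fst, hh_fst, smul_zero, add_zero, zero_sub]
    rw [h3] at h2
    have h4 : (zk a.1 : Fin 6 → K) = 0 := by
      have h5 : -(t • zk a.1 : Fin 6 → K) = 0 := (smul_eq_zero.mp h2.symm).resolve_left hc
      exact (smul_eq_zero.mp (neg_eq_zero.mp h5)).resolve_left ht0
    obtain ⟨y, hy⟩ := H.one a
    have h5 : fk C6 (zk y.1) (zk a.1 : Fin 6 → K) = 1 := by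
      rw [fk_zk_zk, hy]
      norm_num
    rw [h4, fk_zero_right] at h5
    exact zero_ne_one h5

end Pool.Agent.H31.F4
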