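import Pool.Agent.H31.F4.XDs4
import Pool.Agent.H31.F4.XDl4
import Pool.Agent.H31.F4.Fil4

/-!
# FF-21: decomposition of point vectors (assembled), minimal weights

`IsPt c v`: `v = g (pv c)` for some `g ∈ GF`.
`xd4`: `v ∈ PF K a`; long: `v` is extremal (`isExt_e`, `IsExt_map`); short: white (`isW_wf`, `isW_map`).
`xd_step1_4` gives `r1`; `r1⁻¹ v` satisfies the same hypotheses (`Sup_map`, `Gn_UR`), then step 2.
`xd4'`: apply `xd4` with `l x = ip (cv a) x` (`sv (cv a) = cv a`), `R = univ`: `Sup` holds: `-2` is the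
smallest degree, and `v.2 d ≠ 0`, `dg a d = -2` implies `Eq4 (ng a) d` (long: `dg_neg_two` if
`d` is long, and for short `d` `dg a d ≥ -1` (`cb_LS`); short: `v ∈ VF` has only short weights).

`min4`: let `v = g (pv c)`, `l` injective on weights.  `v ≠ 0`.
Suppose first that the weight 0 is minimal on the support: `v.1 ≠ 0`, `l d > 0` for all `d` in the
support.
 * `c` long, `v ∈ LF` extremal: for a root `b` with `l b < 0`: the `b`-coordinate of
   `[v,[v,e_b]] = -2 fm v e_b v` is on the left `(v.1,b)²` (other contributions have larger `l`), on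
   the right 0.  So `(v.1,b) = 0` for all `b` (`b` or `ng b`), `v.1 = 0` by `nds`.
 * `c` short: the same with `wf b`, `b` short: `(v.1,b) = 0` for all short `b`, and for long `b` by
   `fk_anti_long`; so `ad (hh v.1) = 0`.  `v ≠ hh v.1` (otherwise `ad v = 0`, but `ad (wf c) ≠ 0`).  Let
   `d` be the root with smallest `l` in the support, `x = wf (ng d)`: toral part of
   `[v,[v,x]] = -fm v x v`: on the right `-fm v x v.1` with `fm v x = ∓ 2 v.2 d ≠ 0`; on the left
   contributions `μ + ν = d` with `μ, ν` roots of the support: `l μ + l ν ≥ 2 l d > l d`: none.  So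
   `v.1 = 0`.
So the minimum is at a root `ng a`.  Length: `c` short: all roots in the support of `v ∈ VF` are short.
`c` long: suppose `d = ng a` is short, `v = μ Df d + …`, `[v,[v,e_(-d)]] = -2 fm v e_(-d) v`
(`ng d`); the coordinates at `d` and `sg d` (the weight `d` has smaller `l` than all other
contributions: `l`-values of the left side are `≥ 2 l(d) + l(-d)`): left:
`μ² [Df d,[Df d, e_(-d)]] = μ² [Df d, -h_d] = 2 μ² e_d`; right: `fm v e_(-d) = -μ`: `2 μ² Df d`.
The coordinate at `sg d`: `0 = 2 μ²`: contradiction.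
-/

namespace Pool.Agent.H31.F4

open Pool.Agent.H33.EL (ip cc eps Rt ng zk ek fk LL hh e brf fmf br fm IsExt exl ex xr hd L0 GG T1 TT NN SF cj wt)

variable {K : Type} [Field K]

theorem pv_mem_PF (H : HypW C6 K) {g : LL C6 K ≃ₗ[K] LL C6 K} (hg : g ∈ GF K) {c a : Rt C6}
    (hl : sg c = c ↔ sg a = a) : g (pv K c) ∈ PF K a := by
  unfold PF
  by_cases ha : sg a = a
  · rw [if_pos ha, pv_long (hl.2 ha), GF_LF hg, mem_LF, Sg_e, hl.2 ha]
  · have hc : sg c ≠ c := fun h => ha (hl.1 h)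
    rw [if_neg ha, pv_short hc, GF_VF hg]
    exact wf_mem c

theorem xd4_neg_pos (l : (Fin 6 → ℤ) →+ ℤ) (a : Rt C6) (h : l (ng a).1 < 0) : 0 < l a.1 := by
  have h1 : (ng a).1 = -a.1 := rfl
  rw [h1, map_neg] at h
  omega

theorem xd4 (H : HypW C6 K) {g : LL C6 K ≃ₗ[K] LL C6 K} (hg : g ∈ GF K) {c a : Rt C6}
    (hlen : sg c = c ↔ sg a = a) (hne : (g (pv K c)).2 (ng a) ≠ 0)
    (l : (Fin 6 → ℤ) →+ ℤ) (hl : ∀ x, l (sv x) = l x) (hs : Sup l a (g (pv K c)))
    (R : Set (Rt C6)) (hR : Cl4 R) (haR : a ∈ R) (hvR : g (pv K c) ∈ UR K R) :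
    ∃ r ∈ Gn K {y | y ∈ R ∧ 0 < dg a y ∧ 0 < l y.1},
      g (pv K c) = (g (pv K c)).2 (ng a) • r (pv K (ng a)) := by
  have hv := pv_mem_PF H hg hlen
  obtain ⟨r1, hr1, h1⟩ := xd_step1_4 H l hl R hR a haR _ hv hne hs hvR
  have hm1 : Gn K {y | y ∈ R ∧ dg a y = 1 ∧ 0 < l y.1} ≤ Gn K {y | 0 < l y.1} :=
    Subgroup.closure_mono (by
      rintro u ⟨y, hy, s, rfl⟩
      exact ⟨y, hy.2.2, s, rfl⟩)
  have hm2 : Gn K {y | y ∈ R ∧ dg a y = 1 ∧ 0 < l y.1} ≤ Gn K R :=
    Subgroup.closure_mono (by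
      rintro u ⟨y, hy, s, rfl⟩
      exact ⟨y, hy.1, s, rfl⟩)
  have hm3 : Gn K {y | y ∈ R ∧ dg a y = 1 ∧ 0 < l y.1} ≤
      Gn K {y | y ∈ R ∧ 0 < dg a y ∧ 0 < l y.1} :=
    Subgroup.closure_mono (by
      rintro u ⟨y, hy, s, rfl⟩
      exact ⟨y, ⟨hy.1, by rw [hy.2.1]; norm_num, hy.2.2⟩, s, rfl⟩)
  have hr1' : r1⁻¹ ∈ Gn K {y | 0 < l y.1} := inv_mem (hm1 hr1)
  obtain ⟨hs', hn', hv'⟩ := Sup_map H l hl a hv hs hr1'
  have hR' : r1⁻¹ (g (pv K c)) ∈ UR K R := (Gn_UR H hR (inv_mem (hm2 hr1)) _).2 hvR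
  have hG1 : r1 ∈ GF K := Gn_le_GF H _ hr1
  have hback : ∀ x : LL C6 K, r1⁻¹ (g (pv K c)) = x → g (pv K c) = r1 x := by
    intro x hx
    rw [← hx]
    show _ = r1 (r1.symm (g (pv K c)))
    rw [LinearEquiv.apply_symm_apply]
  by_cases ha : sg a = a
  · have hc : sg c = c := hlen.2 ha
    have hext : IsExt (r1⁻¹ (g (pv K c))) := by
      have h2 : IsExt (g (pv K c)) := by
        rw [pv_long hc]
        exact IsExt_map (isExt_e H c) (GF_le_GG hg)
      exact IsExt_map h2 (inv_mem (GF_le_GG hG1))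
    have hL : r1⁻¹ (g (pv K c)) ∈ LF K := by
      have := hv'
      unfold PF at this
      rwa [if_pos ha] at this
    obtain ⟨t, ht, ht'⟩ := xd_step2_l H hext hL a ha (by rw [hn']; exact hne) (by
      intro d hd
      refine h1 d ?_
      rw [dg_long a d ha, ip_comm H.symm]
      exact hd)
    refine ⟨r1 * xf a t, ?_, ?_⟩
    · refine mul_mem (hm3 hr1) ?_
      by_cases h0 : t = 0
      · rw [h0, xf_zero H]
        exact one_mem _
      · refine Subgroup.subset_closure ⟨a, ⟨haR, ?_, ?_⟩, t, rfl⟩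
        · rw [dg_self]
          norm_num
        · exact xd4_neg_pos l a (hs'.2 (ht' h0))
    · rw [hn'] at ht
      have hna : sg (ng a) = ng a := (sg_ng_iff a).2 ha
      have h3 := hback _ ht
      rw [map_smul] at h3
      rw [pv_long hna]
      exact h3
  · have hc : sg c ≠ c := fun h => ha (hlen.1 h)
    have hw : IsW (r1⁻¹ (g (pv K c))) := by
      have h2 : IsW (g (pv K c)) := by
        rw [pv_short hc]
        exact isW_map (isW_wf H c hc) hg
      exact isW_map h2 (inv_mem hG1)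
    have hL : r1⁻¹ (g (pv K c)) ∈ VF K := by
      have := hv'
      unfold PF at this
      rwa [if_neg ha] at this
    obtain ⟨r2, hr2, ht⟩ := xd_step2_s H l hl R hR a ha haR _ hL hw
      (by rw [hn']; exact hne) hs' hR' h1
    have hm4 : Gn K {y | y ∈ R ∧ dg a y = 2 ∧ 0 < l y.1} ≤
        Gn K {y | y ∈ R ∧ 0 < dg a y ∧ 0 < l y.1} :=
      Subgroup.closure_mono (by
        rintro u ⟨y, hy, s, rfl⟩
        exact ⟨y, ⟨hy.1, by rw [hy.2.1]; norm_num, hy.2.2⟩, s, rfl⟩)
    refine ⟨r1 * r2, mul_mem (hm3 hr1) (hm4 hr2), ?_⟩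
    rw [hn'] at ht
    have hna : sg (ng a) ≠ ng a := fun h => ha ((sg_ng_iff a).1 h)
    have h3 := hback _ ht
    rw [map_smul] at h3
    rw [pv_short hna]
    exact h3

theorem xd4' (H : HypW C6 K) {g : LL C6 K ≃ₗ[K] LL C6 K} (hg : g ∈ GF K) {c a : Rt C6}
    (hlen : sg c = c ↔ sg a = a) (hne : (g (pv K c)).2 (ng a) ≠ 0) :
    ∃ r ∈ Gn K {y | 0 < dg a y}, g (pv K c) = (g (pv K c)).2 (ng a) • r (pv K (ng a)) := by
  have hv := pv_mem_PF H hg hlen
  let l : (Fin 6 → ℤ) →+ ℤ :=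
    { toFun := fun x => ip C6 (cv a) x
      map_zero' := ip_zero_right _
      map_add' := fun x y => ip_add_right _ _ _ }
  have hlv : ∀ y : Rt C6, l y.1 = dg a y := fun y => rfl
  have hl : ∀ x, l (sv x) = l x := by
    intro x
    show ip C6 (cv a) (sv x) = ip C6 (cv a) x
    conv_lhs => rw [← sv_cv a]
    exact ip_sv _ _
  have hs : Sup l a (g (pv K c)) := by
    constructor
    · intro d hd
      have hna : l (ng a).1 = -2 := by rw [hlv, dg_ng_right, dg_self]
      rw [hna, hlv]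
      rcases lt_or_eq_of_le (dg_range a d).1 with h | h
      · exact Or.inr h
      · refine Or.inl (dg_neg_two a d h.symm ?_)
        by_cases ha : sg a = a
        · refine ⟨fun _ => ?_, fun _ => ha⟩
          by_contra hd'
          have h2 := (cb_LS a d ha hd').1
          rw [← dg_long a d ha, ← h] at h2
          omega
        · have hVF : g (pv K c) ∈ VF K := by
            unfold PF at hv
            rwa [if_neg ha] at hv
          exact ⟨fun h3 => absurd h3 ha, fun h3 => absurd (VF_long H hVF h3) hd⟩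
    · intro _
      rw [hlv, dg_ng_right, dg_self]
      norm_num
  obtain ⟨r, hr, h⟩ := xd4 H hg hlen hne l hl hs Set.univ ⟨fun _ _ => trivial,
    fun _ _ _ _ _ _ => trivial⟩ trivial (fun d hd => absurd trivial hd)
  refine ⟨r, ?_, h⟩
  refine (Subgroup.closure_mono ?_ : Gn K {y | y ∈ Set.univ ∧ 0 < dg a y ∧ 0 < l y.1} ≤ _) hr
  rintro u ⟨y, hy, s, rfl⟩
  exact ⟨y, hy.2.1, s, rfl⟩

end Pool.Agent.H31.F4
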