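import Pool.Agent.H31.F4.Q2a
import Pool.Agent.H31.F4.XD4
import Pool.Agent.H31.F4.CaseA4

/-!
# FF-33: opposite root groups (compare EL/CBb.lean)

`Gn_comm`, `Gn_pv`: for the generators `xf y s`, `dg b y > 0`: `xf_commute` (no `Sm b y c`: `sm_cases`
would need `dg b y ≤ 0`), `xf_pv_fix`, `xf_wf_fix` (`0 ≤ dg y b`: `dg_sign`), `Df b`: `Sm` as before.
`Gn_fix`: the subgroup of the `u ∈ Gn {0 < dg b y}` commuting with `h = hd (cv b) z` is a `T4`-invariant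
(`T4_comm`) `p`-group (`xf_mem_Rad`, `Rad_pgroup`), so by `pg4` it is generated by elements `xf a s` in it;
`xf a s ∈ Gn {0 < dg b y}` for all `s` gives `0 < dg b a` (`Gn ≤ Rad (cv b)`; `deg_of_Par`, and degree 0 is
excluded by `gr_xf_zero`, `mem_Rad`, `xf_inj`), commuting with `h` gives `z^(dg b a) s = s`
(`T4_conj_xf`, `wt_hd_cv`), `dg b a ∈ {1,2}`, and the order of `z` is `|K| - 1 ≥ 6` (`H.card`), so `s = 0`.
`opp4`: `F' = cj r F`: `b ∈ SF4 F'` (`Gn_comm`), `ng b ∈ SF4 F'`, so `hd (cv b) z ∈ F'` (`hd_cv_mem_of`):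
`r h r⁻¹ ∈ F`, `h = hd (cv b) z ∈ T4 ≤ F`, `z` a generator of `K^*`.  So `w = h⁻¹ (r h r⁻¹)` is in
`R = F ⊓ Gn {0 < dg b y}` (`h⁻¹ r h ∈ Gn`: `T4_conj_xf`).  `y ↦ h⁻¹ y h y⁻¹` maps `R` to `R` and is injective
on `Gn {..}` (`Gn_fix`), so it is bijective on the finite `R` (`finite4`); `w` is the image of some `y ∈ R`,
and of `r`, so `r = y ∈ F`.  `R` is a `T4`-invariant `p`-group, so `R ≤ Fo4 F` (`pgroup_le_Fo4`).  Finally
`xf (ng b) s = r⁻¹ (r xf (ng b) s r⁻¹) r ∈ F`.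
`Pl`: `xd4'` with `a := b`: `v = κ r (pv (ng b))`, `r xf (ng b) s r⁻¹ = g xf c (κ⁻¹ s) g⁻¹` (`conj_ex4`,
`Df = e`), `opp4`.
-/

namespace Pool.Agent.H31.F4

open Pool.Agent.H33.EL (ip cc eps Rt ng zk ek fk LL hh e brf fmf br fm IsExt exl ex xr hd L0 GG T1 TT NN SF cj wt)

variable {K : Type} [Field K]

theorem dg_sign (a b : Rt C6) : (0 < dg a b ↔ 0 < dg b a) ∧ (dg a b < 0 ↔ dg b a < 0) ∧
    (dg a b = 0 ↔ dg b a = 0) := by
  by_cases ha : sg a = a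
  · by_cases hb : sg b = b
    · have h := dg_symm a b ⟨fun _ => hb, fun _ => ha⟩
      omega
    · have h := dg_SL b a hb ha
      omega
  · by_cases hb : sg b = b
    · have h := dg_SL a b ha hb
      omega
    · have h := dg_symm a b ⟨fun h => absurd h ha, fun h => absurd h hb⟩
      omega

private theorem opp4_noSm {y b : Rt C6} (h : 0 < dg y b) (c : Rt C6) : ¬ Sm y b c := by
  intro hS
  rcases sm_cases hS with h1 | h1 | h1 | h1 | h1 <;> omega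

private theorem opp4_commute (H : HypW C6 K) {y b : Rt C6} (h : 0 < dg y b) (s t : K) :
    xf y s * xf b t = xf b t * xf y s :=
  xf_commute H y b (opp4_noSm h) (DBrB_not_eq4 h.le) s t

private theorem opp4_D (H : HypW C6 K) {y b : Rt C6} (h : 0 < dg y b) (s : K) :
    xf y s (Df K b) = Df K b := by
  have h1 : br (Df K y) (Df K b) = 0 := br_DD_zero H (opp4_noSm h) (DBrB_not_eq4 h.le)
  rw [xf_apply H, h1, map_zero, smul_zero, smul_zero, add_zero, add_zero]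

private theorem opp4_fixv {Y : Set (Rt C6)} {v : LL C6 K}
    (hv : ∀ y ∈ Y, ∀ s : K, xf y s v = v) {r : LL C6 K ≃ₗ[K] LL C6 K} (hr : r ∈ Gn K Y) :
    r v = v := by
  unfold Gn at hr
  induction hr using Subgroup.closure_induction with
  | mem x hx =>
    obtain ⟨y, hy, s, rfl⟩ := hx
    exact hv y hy s
  | one => rfl
  | mul x y _ _ hx hy =>
    rw [LinearEquiv.mul_apply, hy, hx]
  | inv x _ hx =>
    apply x.injective
    rw [hx]
    exact x.apply_symm_apply _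

theorem Gn_comm (H : HypW C6 K) (b : Rt C6) {r : LL C6 K ≃ₗ[K] LL C6 K}
    (hr : r ∈ Gn K {y | 0 < dg b y}) (s : K) : r * xf b s = xf b s * r := by
  have h1 : Gn K {y | 0 < dg b y} ≤
      Subgroup.centralizer ({xf b s} : Set (LL C6 K ≃ₗ[K] LL C6 K)) := by
    conv_lhs => unfold Gn
    rw [Subgroup.closure_le]
    rintro g ⟨y, hy, s', rfl⟩
    rw [SetLike.mem_coe, Subgroup.mem_centralizer_iff]
    intro h hh
    rw [Set.mem_singleton_iff] at hh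
    subst hh
    exact (opp4_commute H ((dg_sign b y).1.1 hy) s' s).symm
  have h2 := h1 hr
  rw [Subgroup.mem_centralizer_iff] at h2
  exact (h2 _ rfl).symm

theorem Gn_pv (H : HypW C6 K) (b : Rt C6) {r : LL C6 K ≃ₗ[K] LL C6 K}
    (hr : r ∈ Gn K {y | 0 < dg b y}) :
    r (pv K b) = pv K b ∧ r (Df K b) = Df K b ∧ r (wf K b) = wf K b := by
  have h1 : ∀ y ∈ ({y | 0 < dg b y} : Set (Rt C6)), 0 < dg y b := fun y hy =>
    (dg_sign b y).1.1 hy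
  refine ⟨opp4_fixv (fun y hy s => ?_) hr, opp4_fixv (fun y hy s => ?_) hr,
    opp4_fixv (fun y hy s => ?_) hr⟩
  · exact xf_pv_fix H y b (h1 y hy).le s
  · exact opp4_D H (h1 y hy) s
  · exact xf_wf_fix H y b (h1 y hy).le s

theorem Gn_T4 (H : HypW C6 K) (Y : Set (Rt C6)) {t r : LL C6 K ≃ₗ[K] LL C6 K} (ht : t ∈ T4 K)
    (hr : r ∈ Gn K Y) : t * r * t⁻¹ ∈ Gn K Y := by
  have h1 : Gn K Y ≤ (Gn K Y).comap (MulAut.conj t).toMonoidHom := by
    conv_lhs => unfold Gn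
    rw [Subgroup.closure_le]
    rintro g ⟨y, hy, s, rfl⟩
    change t * xf y s * t⁻¹ ∈ Gn K Y
    rw [T4_conj_xf H ht]
    exact Subgroup.subset_closure ⟨y, hy, _, rfl⟩
  exact h1 hr

private theorem opp4_le_Rad (H : HypW C6 K) (b : Rt C6) :
    Gn K {y | 0 < dg b y} ≤ Rad H (cv b) := by
  unfold Gn
  rw [Subgroup.closure_le]
  rintro g ⟨y, hy, s, rfl⟩
  exact xf_mem_Rad H (sv_cv b) s hy

private theorem opp4_deg (H : HypW C6 K) {a b : Rt C6}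
    (h : ∀ s : K, xf a s ∈ Gn K {y | 0 < dg b y}) : 0 < dg b a := by
  have h1 : ∀ s : K, xf a s ∈ Rad H (cv b) := fun s => opp4_le_Rad H b (h s)
  have h2 : ∀ s : K, xf a s ∈ Par C6 K (cv b) := fun s => Rad_le H _ (h1 s)
  have h3 := deg_of_Par H (sv_cv b) h2
  rcases h3.lt_or_eq with h4 | h4
  · exact h4
  · exfalso
    have h5 := (mem_Rad H ⟨xf a 1, h2 1⟩).1 (h1 1)
    rw [gr_xf_zero H (sv_cv b) 1 h4.symm, ← xf_zero H a] at h5
    exact one_ne_zero (xf_inj H a h5)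

theorem Gn_fix (H : HypW C6 K) {p : ℕ} [Fact p.Prime] [CharP K p] (b : Rt C6) {z : Kˣ}
    (hz : ∀ x : Kˣ, x ∈ Subgroup.zpowers z) {u : LL C6 K ≃ₗ[K] LL C6 K}
    (hu : u ∈ Gn K {y | 0 < dg b y}) (hc : u * hd C6 (cv b) z = hd C6 (cv b) z * u) :
    u = 1 := by
  have hfK : Finite K := by
    apply Nat.finite_of_card_ne_zero
    rcases H.card with h | h | h <;> rw [h] <;> norm_num
  have hord : 3 ≤ orderOf z := by
    rw [orderOf_eq_card_of_forall_mem_zpowers hz, Nat.card_units]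
    rcases H.card with h | h | h <;> rw [h] <;> norm_num
  let P : Subgroup (LL C6 K ≃ₗ[K] LL C6 K) :=
    Gn K {y | 0 < dg b y} ⊓
      Subgroup.centralizer ({hd C6 (cv b) z} : Set (LL C6 K ≃ₗ[K] LL C6 K))
  have hmem : ∀ w, w ∈ P ↔ w ∈ Gn K {y | 0 < dg b y} ∧
      w * hd C6 (cv b) z = hd C6 (cv b) z * w := by
    intro w
    change w ∈ Gn K {y | 0 < dg b y} ⊓
      Subgroup.centralizer ({hd C6 (cv b) z} : Set (LL C6 K ≃ₗ[K] LL C6 K)) ↔ _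
    rw [Subgroup.mem_inf, Subgroup.mem_centralizer_iff]
    constructor
    · rintro ⟨h1, h2⟩
      exact ⟨h1, (h2 _ rfl).symm⟩
    · rintro ⟨h1, h2⟩
      refine ⟨h1, fun h hh => ?_⟩
      rw [Set.mem_singleton_iff] at hh
      subst hh
      exact h2.symm
  have hPle : P ≤ Gn K {y | 0 < dg b y} := fun w hw => ((hmem w).1 hw).1
  have hhd : hd C6 (cv b) z ∈ T4 K := hd_mem_T4 (sv_cv b) z
  have hPT : ∀ t ∈ T4 K, ∀ w ∈ P, t * w * t⁻¹ ∈ P := by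
    intro t ht w hw
    obtain ⟨h1, h2⟩ := (hmem w).1 hw
    rw [hmem]
    refine ⟨Gn_T4 H _ ht h1, ?_⟩
    have h3 : t⁻¹ * hd C6 (cv b) z = hd C6 (cv b) z * t⁻¹ := T4_comm H (inv_mem ht) hhd
    have h4 : t * hd C6 (cv b) z = hd C6 (cv b) z * t := T4_comm H ht hhd
    calc t * w * t⁻¹ * hd C6 (cv b) z = t * w * (t⁻¹ * hd C6 (cv b) z) := by group
      _ = t * (w * hd C6 (cv b) z) * t⁻¹ := by rw [h3]; group
      _ = (t * hd C6 (cv b) z) * w * t⁻¹ := by rw [h2]; group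
      _ = hd C6 (cv b) z * (t * w * t⁻¹) := by rw [h4]; group
  have hPp : IsPGroup p P := (Rad_pgroup H (cv b)).to_le (hPle.trans (opp4_le_Rad H b))
  have h5 := pg4 H P hPp (hPle.trans (Gn_le_GF H _)) hPT
  have h6 : SF4 P = ∅ := by
    rw [Set.eq_empty_iff_forall_notMem]
    intro c hcP
    have h7 : xf c (1 : K) ∈ P := hcP 1
    obtain ⟨h8, h9⟩ := (hmem _).1 h7
    have h10 : 0 < dg b c := opp4_deg H fun s => hPle (hcP s)
    have h11 : hd C6 (cv b) z * xf c (1 : K) * (hd C6 (cv b) z)⁻¹ = xf c (1 : K) := by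
      rw [← h9, mul_inv_cancel_right]
    rw [T4_conj_xf H hhd, wt_hd_cv, mul_one] at h11
    have h12 := xf_inj H c h11
    have h13 : z ^ (dg b c) = 1 := Units.ext h12
    have h14 := dg_range b c
    have h15 : dg b c = 1 ∨ dg b c = 2 := by omega
    rcases h15 with h15 | h15
    · rw [h15, zpow_one] at h13
      rw [h13, orderOf_one] at hord
      omega
    · rw [h15] at h13
      have h16 : z ^ 2 = 1 := by exact_mod_cast h13
      have h17 := orderOf_le_of_pow_eq_one (by norm_num) h16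
      omega
  have h18 : u ∈ P := (hmem u).2 ⟨hu, hc⟩
  have h19 := h5 h18
  have h20 : {g : LL C6 K ≃ₗ[K] LL C6 K | ∃ b ∈ SF4 P, ∃ s : K, g = xf b s} = ∅ := by
    rw [Set.eq_empty_iff_forall_notMem]
    rintro g ⟨c, hc', -⟩
    rw [h6] at hc'
    exact hc'
  rw [h20, Subgroup.closure_empty, Subgroup.mem_bot] at h19
  exact h19

theorem opp4 (H : HypW C6 K) {p : ℕ} [Fact p.Prime] [CharP K p]
    {F : Subgroup (LL C6 K ≃ₗ[K] LL C6 K)} (hF : F ≤ GF K) (hT : T4 K ≤ F) {b : Rt C6}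
    (hb : b ∈ SF4 F) {r : LL C6 K ≃ₗ[K] LL C6 K} (hr : r ∈ Gn K {y | 0 < dg b y})
    (h : ∀ s : K, r * xf (ng b) s * r⁻¹ ∈ F) : r ∈ Fo4 F ∧ ng b ∈ SF4 F := by
  have hfK : Finite K := by
    apply Nat.finite_of_card_ne_zero
    rcases H.card with h | h | h <;> rw [h] <;> norm_num
  have hfin : Finite (LL C6 K ≃ₗ[K] LL C6 K) := finite4 H
  obtain ⟨z, hz⟩ := IsCyclic.exists_generator (α := Kˣ)
  have hconj2 : ∀ s : K, r * xf b s * r⁻¹ ∈ F := by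
    intro s
    rw [Gn_comm H b hr, mul_inv_cancel_right]
    exact hb s
  obtain ⟨k, hk⟩ : ∃ k : LL C6 K ≃ₗ[K] LL C6 K, k = hd C6 (cv b) z := ⟨_, rfl⟩
  have hkT : k ∈ T4 K := by rw [hk]; exact hd_mem_T4 (sv_cv b) z
  have hkc : r * k * r⁻¹ ∈ F := by
    have h1 : b ∈ SF4 (cj r F) := fun s => mem_cj4.2 (hconj2 s)
    have h2 : ng b ∈ SF4 (cj r F) := fun s => mem_cj4.2 (h s)
    have h3 := hd_cv_mem_of H (cj r F) h1 h2 z
    rw [← hk] at h3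
    exact mem_cj4.1 h3
  let R : Subgroup (LL C6 K ≃ₗ[K] LL C6 K) := F ⊓ Gn K {y | 0 < dg b y}
  have hRF : R ≤ F := inf_le_left
  have hRQ : R ≤ Gn K {y | 0 < dg b y} := inf_le_right
  have hinj : ∀ y ∈ Gn K {y | 0 < dg b y}, ∀ y' ∈ Gn K {y | 0 < dg b y},
      k⁻¹ * y * k * y⁻¹ = k⁻¹ * y' * k * y'⁻¹ → y = y' := by
    intro y hy y' hy' hyy
    have h1 : y * k * y⁻¹ = y' * k * y'⁻¹ := by
      have h2 := congrArg (fun x => k * x) hyy
      calc y * k * y⁻¹ = k * (k⁻¹ * y * k * y⁻¹) := by group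
        _ = k * (k⁻¹ * y' * k * y'⁻¹) := h2
        _ = y' * k * y'⁻¹ := by group
    have h3 : (y'⁻¹ * y) * k = k * (y'⁻¹ * y) := by
      calc (y'⁻¹ * y) * k = y'⁻¹ * (y * k * y⁻¹) * y := by group
        _ = y'⁻¹ * (y' * k * y'⁻¹) * y := by rw [h1]
        _ = k * (y'⁻¹ * y) := by group
    have h4 : y'⁻¹ * y = 1 :=
      Gn_fix H (p := p) b hz (mul_mem (inv_mem hy') hy) (by rw [← hk]; exact h3)
    exact (inv_mul_eq_one.1 h4).symm
  have hmap : ∀ y ∈ Gn K {y | 0 < dg b y}, k⁻¹ * y * k * y⁻¹ ∈ Gn K {y | 0 < dg b y} := by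
    intro y hy
    have h1 := Gn_T4 H _ (inv_mem hkT) hy
    rw [inv_inv] at h1
    exact mul_mem h1 (inv_mem hy)
  have hmapR : ∀ y ∈ R, k⁻¹ * y * k * y⁻¹ ∈ R := by
    intro y hy
    refine Subgroup.mem_inf.2 ⟨?_, hmap y (hRQ hy)⟩
    exact mul_mem (mul_mem (mul_mem (inv_mem (hT hkT)) (hRF hy)) (hT hkT)) (inv_mem (hRF hy))
  let φ : R → R := fun y => ⟨k⁻¹ * y * k * (y : LL C6 K ≃ₗ[K] LL C6 K)⁻¹, hmapR y y.2⟩
  have hφ : Function.Injective φ := by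
    intro y y' hyy
    have h1 := congrArg Subtype.val hyy
    exact Subtype.ext (hinj y (hRQ y.2) y' (hRQ y'.2) h1)
  have hφs : Function.Surjective φ := Finite.surjective_of_injective hφ
  have hw : k⁻¹ * r * k * r⁻¹ ∈ R := by
    refine Subgroup.mem_inf.2 ⟨?_, hmap r hr⟩
    have h1 : k⁻¹ * r * k * r⁻¹ = k⁻¹ * (r * k * r⁻¹) := by group
    rw [h1]
    exact mul_mem (inv_mem (hT hkT)) hkc
  obtain ⟨y, hy⟩ := hφs ⟨_, hw⟩
  have hyr : (y : LL C6 K ≃ₗ[K] LL C6 K) = r :=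
    hinj y (hRQ y.2) r hr (congrArg Subtype.val hy)
  have hrR : r ∈ R := by rw [← hyr]; exact y.2
  have hRT : ∀ t ∈ T4 K, ∀ u ∈ R, t * u * t⁻¹ ∈ R := by
    intro t ht u hu
    refine Subgroup.mem_inf.2 ⟨?_, Gn_T4 H _ ht (hRQ hu)⟩
    exact mul_mem (mul_mem (hT ht) (hRF hu)) (inv_mem (hT ht))
  have hRp : IsPGroup p R := (Rad_pgroup H (cv b)).to_le (hRQ.trans (opp4_le_Rad H b))
  refine ⟨pgroup_le_Fo4 H hF hRF hRp hRT hrR, fun s => ?_⟩
  have h1 := h s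
  have hrF := hRF hrR
  have h2 := mul_mem (mul_mem (inv_mem hrF) h1) hrF
  have h3 : r⁻¹ * (r * xf (ng b) s * r⁻¹) * r = xf (ng b) s := by group
  rw [h3] at h2
  exact h2

/-- the basic lemma for long roots -/
theorem Pl (H : HypW C6 K) {p : ℕ} [Fact p.Prime] [CharP K p]
    {F : Subgroup (LL C6 K ≃ₗ[K] LL C6 K)} (hF : F ≤ GF K) (hT : T4 K ≤ F) {b c : Rt C6}
    (hb : b ∈ SF4 F) (hbl : sg b = b) (hcl : sg c = c) {g : LL C6 K ≃ₗ[K] LL C6 K} (hg : g ∈ GF K)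
    (hgF : ∀ s : K, g * xf c s * g⁻¹ ∈ F) (hne : (g (e K c)).2 (ng b) ≠ 0) :
    ng b ∈ SF4 F ∧ ∃ r ∈ Fo4 F, r ∈ Gn K {y | 0 < dg b y} ∧ ∃ κ : K, κ ≠ 0 ∧
      g (e K c) = κ • r (e K (ng b)) := by
  have hnb : sg (ng b) = ng b := (sg_ng_iff b).2 hbl
  have hx := xd4' H hg (c := c) (a := b) ⟨fun _ => hbl, fun _ => hcl⟩
    (by rw [pv_long hcl]; exact hne)
  rw [pv_long hcl, pv_long hnb] at hx
  obtain ⟨r, hr, hgr⟩ := hx
  obtain ⟨κ, hκ⟩ : ∃ κ, κ = (g (e K c)).2 (ng b) := ⟨_, rfl⟩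
  rw [← hκ] at hgr hne
  have hrG : r ∈ GF K := Gn_le_GF H _ hr
  have hfG : r⁻¹ * g ∈ GG C6 K := GF_le_GG (mul_mem (inv_mem hrG) hg)
  have hfc : (r⁻¹ * g) (Df K c) = κ • Df K (ng b) := by
    rw [Df_long hcl, Df_long hnb, LinearEquiv.mul_apply, hgr, map_smul]
    congr 1
    exact r.symm_apply_apply _
  have hconj : ∀ s : K, r * xf (ng b) s * r⁻¹ ∈ F := by
    intro s
    have h1 := conj_xf hfG hfc (κ⁻¹ * s)
    rw [← mul_assoc, mul_inv_cancel₀ hne, one_mul] at h1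
    rw [← h1]
    have h2 : r * (r⁻¹ * g * xf c (κ⁻¹ * s) * (r⁻¹ * g)⁻¹) * r⁻¹ = g * xf c (κ⁻¹ * s) * g⁻¹ := by
      group
    rw [h2]
    exact hgF _
  obtain ⟨h1, h2⟩ := opp4 H (p := p) hF hT hb hr hconj
  exact ⟨h2, r, h1, hr, κ, hne, hgr⟩

end Pool.Agent.H31.F4
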