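import Pool.Agent.H31.F4.CCh4
import Pool.Agent.H31.F4.Min4
import Pool.Agent.H31.F4.Cor
import Pool.Agent.H31.F4.Opp4
import Pool.Agent.H31.F4.B14

/-!
# FF-72: automorphisms preserving `L0 + ∑_(S6)` act on the short `sl_3` by conjugation or graph type

`S = S6 a b c`, `m = {x : x.2 d = 0 for d ∉ S}`, `f ∈ GF` maps `m` to itself; so does every `xf d s`, `d ∈ S` (`Gn_UR`, `S6_Cl4`).
`EZ = Gn K S`: all its elements are of type `Cj4` (`J4_xf`, `Cj4_mul`, `Cj4_inv`).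
(0) `line`: let `g ∈ GF` map `m` to itself, `x, y ∈ S`, `g (wf x) = κ wf y`, `κ ≠ 0`.  Then `g (Df x) ∈ K Df y`: `g` maps
`Fil (cv x) 2` to `Fil (cv y) 2` (`Fil_w`), so `g (Df x) ∈ LF ⊓ Fil (cv y) 2 ⊓ m`: it has only coordinates at `d ∈ S` with
`dg y d = 2`, `d` short: `Eq4 y d` (`dg_two`), no toral part.
(1) `v = f (wf c)`, `l` from `refine4 0`: `min4`: `a'` short, `v.2 (ng a') ≠ 0`, `Sup l a' v`; `ng a' ∈ S` (`v ∈ m`), `a' ∈ S`.
`xd4` with `R = S`: `v = κ r (wf (ng a'))`, `r ∈ EZ`.  The Weyl elements of `weyl` (Cor.lean) for `F := Gn K S` (`x, ng x ∈ SF4 F`) are in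
`EZ` and map `wf y` to a multiple of `wf` of the reflected root; the reflections in `S` are transitive on `S`.  So there is
`r2 ∈ EZ` such that `f1 = r2⁻¹ f` has `f1 (wf c) = k1 wf c`, `k1 ≠ 0`.
(2) `v = f1 (wf (ng c))`: `fm (wf c) v ≠ 0`, so `v.2 (ng c) ≠ 0`; `xd4` with `a := c`, `l x = ip (cv c) x` (`Sup`: as in `xd4'`), `R = S`:
`v = k' r3 (wf (ng c))`, `r3 ∈ Gn K {y | y ∈ S ∧ 0 < dg c y ∧ …} ≤ EZ`, `r3 (wf c) = wf c` (`Gn_pv`).
`f2 = r3⁻¹ f1`: `f2 (wf c) = k1 wf c`, `f2 (wf (ng c)) = k' wf (ng c)`.  `conj_hd_pv`: `f2` commutes with all `hd (cv c) z`, so it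
preserves `Grd (cv c) i` (`Fil_pv` for `c` and `ng c`).
(3) So `f2 (wf a) ∈ VF ⊓ m ⊓ Grd (cv c) 1 = K wf a + K wf b` (`dg c a = dg c b = 1`).  `v = x wf a + y wf b` is white;
`x' = wf (ng c)`: `[v,[v,x']] = -(fm v x') v = 0` and the left side is `x y ([wf a,[wf b,wf (-c)]] + [wf b,[wf a,wf (-c)]])`,
`[wf b, wf (-c)] = k Df (-a)`, `[wf a, Df (-a)] = -hh z_a`, `z_a = zk (a - sa)`, `[wf a, wf (-c)] = k' Df (-b)`: so
`x y (k z_a + k' z_b) = 0` with `k, k' ≠ 0`, `z_a, z_b` independent (`zz_indep`): `x y = 0`.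
The same for `f2 (wf b)`, and (`-c`) for `f2 (wf (ng a))`, `f2 (wf (ng b)) ∈ K wf (-a) + K wf (-b)`.
(4) If `f2 (wf a) = x wf a` then `f2 (wf b) = y wf b` (injective), and from the form `f2 (wf (ng a)) ∈ K wf (ng a)`, ….
By (0) `f2` acts diagonally on the six `Df d`; by the form `fm (Df d) (Df (ng d)) ≠ 0` the factors at `d`, `ng d` are inverse;
it is `Cj4 g` for the diagonal `g` with `g0/g1`, `g1/g2` the factors at `a`, `b` (`Df c`: bracket; `hh (zk (cv a)) = -[Df a, Df (-a)]`).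
If `f2 (wf a) = x wf b` then `f2 (wf b) = y wf a` and `f2` is of type `Aj4 g`, `g` antidiagonal with suitable entries
(see `CCi_caseB` in EL/CCi.lean).  Then `f = r2 r3 f2` is of type `Cj4` or `Aj4` (`Cj4_mul`, `Cj4_Aj4`).
-/

namespace Pool.Agent.H31.F4

open Pool.Agent.H33.EL (ip cc eps Rt ng zk ek fk LL hh e brf fmf br fm IsExt exl ex xr hd L0 GG T1 TT NN SF cj wt)

variable {K : Type} [Field K]

variable {a b c : Rt C6}

/-! ### auxiliary facts -/

theorem CCi4_Sm (T : Tri a b c) : Sm a b c := by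
  show c.1 + sv c.1 = (a.1 + sv a.1) + (b.1 + sv b.1)
  rw [T.hc, Comb_sv_add]
  abel

theorem CCi4_ab (H : HypW C6 K) (T : Tri a b c) : ip C6 a.1 b.1 = -1 := by
  apply ip_of_root_add H
  rw [← T.hc]
  exact c.2

theorem CCi4_asb (H : HypW C6 K) (T : Tri a b c) : ip C6 a.1 (sg b).1 = 0 := by
  have h := T.dab
  rw [dg_short a b T.sa, CCi4_ab H T] at h
  omega

theorem CCi4_dba (T : Tri a b c) : dg b a = -1 := by
  rw [dg_symm b a ⟨fun h => absurd h T.sb, fun h => absurd h T.sa⟩]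
  exact T.dab

theorem CCi4_dca (T : Tri a b c) : dg c a = 1 := by
  rw [dg_symm c a ⟨fun h => absurd h T.sc, fun h => absurd h T.sa⟩, sm_dg (CCi4_Sm T) a, dg_self,
    T.dab]
  norm_num

theorem CCi4_dcb (T : Tri a b c) : dg c b = 1 := by
  rw [dg_symm c b ⟨fun h => absurd h T.sc, fun h => absurd h T.sb⟩, sm_dg (CCi4_Sm T) b, dg_self,
    CCi4_dba T]
  norm_num

theorem CCi4_swap (T : Tri a b c) : Tri b a c :=
  ⟨T.sb, T.sa, T.sc, CCi4_dba T, by rw [T.hc, add_comm]⟩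

theorem CCi4_neg (T : Tri a b c) : Tri (ng a) (ng b) (ng c) := by
  refine ⟨?_, ?_, ?_, ?_, ?_⟩
  · rw [Ne, sg_ng_iff]
    exact T.sa
  · rw [Ne, sg_ng_iff]
    exact T.sb
  · rw [Ne, sg_ng_iff]
    exact T.sc
  · rw [dg_ng_left, dg_ng_right, T.dab]
    norm_num
  · rw [ng_val, ng_val, ng_val, T.hc]
    abel

theorem CCi4_S_swap : S6 b a c = S6 a b c := by
  ext d
  simp only [S6, Set.mem_ofPred_eq]
  tauto

theorem CCi4_S_neg : S6 (ng a) (ng b) (ng c) = S6 a b c := by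
  ext d
  simp only [S6, Set.mem_ofPred_eq, ng_ng]
  tauto

theorem CCi4_Eq_refl (d : Rt C6) : Eq4 d d := Or.inl rfl

theorem CCi4_a_mem : a ∈ S6 a b c := Or.inl (CCi4_Eq_refl _)

theorem CCi4_b_mem : b ∈ S6 a b c := Or.inr (Or.inr (Or.inl (CCi4_Eq_refl _)))

theorem CCi4_c_mem : c ∈ S6 a b c := Or.inr (Or.inr (Or.inr (Or.inr (Or.inl (CCi4_Eq_refl _)))))

theorem CCi4_wf_UR (T : Tri a b c) {d : Rt C6} (hd : d ∈ S6 a b c) :
    wf K d ∈ UR K (S6 a b c) := by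
  intro x hx
  apply wf_snd_ne
  intro h
  apply hx
  rcases h with h | h
  · rw [h]
    exact hd
  · rw [h]
    exact (S6_Cl4 T).1 d hd

theorem CCi4_Df_UR (T : Tri a b c) {d : Rt C6} (hd : d ∈ S6 a b c) :
    Df K d ∈ UR K (S6 a b c) := by
  intro x hx
  rw [Df_snd, if_neg]
  intro h
  apply hx
  rcases h with h | h
  · rw [h]
    exact hd
  · rw [h]
    exact (S6_Cl4 T).1 d hd

/-- an element of `LF` supported on one root of `F_4` -/
theorem CCi4_one_D (H : HypW C6 K) {y : Rt C6} {z : LL C6 K} (hz : z ∈ LF K) (h1 : z.1 = 0)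
    (h : ∀ d, ¬ Eq4 y d → z.2 d = 0) : z = z.2 y • Df K y := by
  refine Prod.ext ?_ (funext fun d => ?_)
  · rw [Prod.smul_fst, Df_fst, smul_zero]
    exact h1
  · rw [Prod.smul_snd, Pi.smul_apply, smul_eq_mul, Df_snd]
    by_cases hd : Eq4 y d
    · rw [if_pos hd, mul_one]
      rcases hd with hd | hd
      · rw [hd]
      · rw [hd]
        exact ((mem_LF' z).mp hz).2 y
    · rw [if_neg hd, mul_zero]
      exact h d hd

theorem line4 (H : HypW C6 K) (T : Tri a b c) {g : LL C6 K ≃ₗ[K] LL C6 K} (hg : g ∈ GF K)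
    (hm : ∀ x : LL C6 K, x ∈ UR K (S6 a b c) → g x ∈ UR K (S6 a b c)) {x y : Rt C6}
    (hx : x ∈ S6 a b c) (hy : y ∈ S6 a b c) {κ : K} (hκ : κ ≠ 0) (h : g (wf K x) = κ • wf K y) :
    ∃ μ : K, g (Df K x) = μ • Df K y := by
  have h1 := (Fil_w H hg.1 (S6_short T hx) (S6_short T hy) hκ h 2 (Df K x)).mpr
    (Fil_of_Grd (Fi4_Df_grd x))
  have h2 : g (Df K x) ∈ LF K := (GF_LF hg _).mpr (Df_mem x)
  have h3 := hm _ (CCi4_Df_UR T hx)
  refine ⟨(g (Df K x)).2 y, CCi4_one_D H h2 (h1.2 (by norm_num)) fun d hd => ?_⟩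
  by_cases hd2 : d ∈ S6 a b c
  · apply h1.1 d
    rcases lt_or_eq_of_le (dg_range y d).2 with h4 | h4
    · exact h4
    · exact absurd (dg_two y d h4 ⟨fun h5 => absurd h5 (S6_short T hy),
        fun h5 => absurd h5 (S6_short T hd2)⟩) hd
  · exact h3 d hd2

/-! ### transitivity -/

theorem CCi4_xf_mem {S : Set (Rt C6)} {d : Rt C6} (hd : d ∈ S) (s : K) : xf d s ∈ Gn K S :=
  Subgroup.subset_closure ⟨d, hd, s, rfl⟩

/-- `wf d` can be moved to a multiple of `wf c` -/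
def CCi4_P (K : Type) [Field K] (S : Set (Rt C6)) (c d : Rt C6) : Prop :=
  ∃ r ∈ Gn K S, ∃ k : K, k ≠ 0 ∧ r (wf K d) = k • wf K c

theorem CCi4_P_Eq {S : Set (Rt C6)} {c d d' : Rt C6} (h : Eq4 d d') (hP : CCi4_P K S c d) :
    CCi4_P K S c d' := by
  rcases h with h | h
  · rw [h]
    exact hP
  · obtain ⟨r, hr, k, hk, h1⟩ := hP
    refine ⟨r, hr, -k, neg_ne_zero.mpr hk, ?_⟩
    rw [h, wf_sg, map_neg, h1, neg_smul]

theorem CCi4_P_rf (H : HypW C6 K) {S : Set (Rt C6)} (hng : ∀ x ∈ S, ng x ∈ S)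
    (hsh : ∀ x ∈ S, sg x ≠ x) {c d d' y : Rt C6} (hd : d ∈ S) (hd2 : d' ∈ S) (hy : y ∈ S)
    (hr : d'.1 = rfv y d) (hP : CCi4_P K S c d') : CCi4_P K S c d := by
  obtain ⟨r, hr1, k, hk, h1⟩ := hP
  obtain ⟨w, -, hw, -, h2⟩ := weyl H (Gn K S) (a := y) (fun s => CCi4_xf_mem hy s)
    (fun s => CCi4_xf_mem (hng y hy) s)
  obtain ⟨-, k', hk', h3⟩ := h2 d d' hr
  rw [pv_short (hsh d hd), pv_short (hsh d' hd2)] at h3
  refine ⟨r * w, mul_mem hr1 hw, k' * k, mul_ne_zero hk' hk, ?_⟩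
  rw [LinearEquiv.mul_apply, h3, map_smul, h1, smul_smul]

theorem CCi4_rf_self (H : HypW C6 K) (d : Rt C6) (hd : sg d ≠ d) : d.1 = rfv d (ng d) := by
  have h1 : ip C6 d.1 d.1 = 2 := d.2
  have h2 : ip C6 (sg d).1 d.1 = 0 := by rw [Comb_comm]; exact cb_self d hd
  rw [rfv, if_neg hd, ng_val, ip_neg_right, ip_neg_right, h1, h2]
  simp only [neg_zero, zero_smul, sub_zero, neg_smul, sub_neg_eq_add]
  rw [two_smul]
  abel

theorem CCi4_rf_a (H : HypW C6 K) (T : Tri a b c) : c.1 = rfv b a := by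
  have h1 : ip C6 b.1 a.1 = -1 := by rw [Comb_comm]; exact CCi4_ab H T
  have h2 : ip C6 (sg b).1 a.1 = 0 := by rw [Comb_comm]; exact CCi4_asb H T
  rw [rfv, if_neg T.sb, h1, h2, T.hc, zero_smul, sub_zero, neg_smul, one_smul, sub_neg_eq_add]

theorem CCi4_move (H : HypW C6 K) (T : Tri a b c) {d : Rt C6} (hd : d ∈ S6 a b c) :
    CCi4_P K (S6 a b c) c d := by
  have hng : ∀ x ∈ S6 a b c, ng x ∈ S6 a b c := fun x hx => S6_ng T hx
  have hsh : ∀ x ∈ S6 a b c, sg x ≠ x := fun x hx => S6_short T hx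
  have ma : a ∈ S6 a b c := CCi4_a_mem
  have mb : b ∈ S6 a b c := CCi4_b_mem
  have mc : c ∈ S6 a b c := CCi4_c_mem
  have hPc : CCi4_P K (S6 a b c) c c := ⟨1, one_mem _, 1, one_ne_zero, by rw [one_smul]; rfl⟩
  have hPa : CCi4_P K (S6 a b c) c a := CCi4_P_rf H hng hsh ma mc mb (CCi4_rf_a H T) hPc
  have hPb : CCi4_P K (S6 a b c) c b :=
    CCi4_P_rf H hng hsh mb mc ma (CCi4_rf_a H (CCi4_swap T)) hPc
  rcases hd with h | h | h | h | h | h
  · exact CCi4_P_Eq h hPa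
  · exact CCi4_P_Eq h (CCi4_P_rf H hng hsh (hng _ ma) ma ma (CCi4_rf_self H a T.sa) hPa)
  · exact CCi4_P_Eq h hPb
  · exact CCi4_P_Eq h (CCi4_P_rf H hng hsh (hng _ mb) mb mb (CCi4_rf_self H b T.sb) hPb)
  · exact CCi4_P_Eq h hPc
  · exact CCi4_P_Eq h (CCi4_P_rf H hng hsh (hng _ mc) mc mc (CCi4_rf_self H c T.sc) hPc)

theorem CCi4_mono {Y Z : Set (Rt C6)} (h : Y ⊆ Z) : Gn K Y ≤ Gn K Z := by
  refine Subgroup.closure_mono ?_
  rintro u ⟨y, hy, s, rfl⟩
  exact ⟨y, h hy, s, rfl⟩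

/-- normal form up to root elements -/
theorem norm4 (H : HypW C6 K) (T : Tri a b c) {f : LL C6 K ≃ₗ[K] LL C6 K} (hf : f ∈ GF K)
    (hm : ∀ x : LL C6 K, x ∈ UR K (S6 a b c) → f x ∈ UR K (S6 a b c)) :
    ∃ r ∈ Gn K (S6 a b c), ∃ k k' : K, k ≠ 0 ∧ k' ≠ 0 ∧ (r⁻¹ * f) (wf K c) = k • wf K c ∧
      (r⁻¹ * f) (wf K (ng c)) = k' • wf K (ng c) := by
  have mc : c ∈ S6 a b c := CCi4_c_mem
  have hsnc : sg (ng c) ≠ ng c := S6_short T (S6_ng T mc)
  -- step 1
  have hv : f (pv K c) ∈ UR K (S6 a b c) := by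
    rw [pv_short T.sc]
    exact hm _ (CCi4_wf_UR T mc)
  obtain ⟨l, hl, -, -⟩ := refine4 0 (by funext i; rfl)
  obtain ⟨a', hlen, hne, hsup⟩ := min4 H hf c hl
  have ha' : a' ∈ S6 a b c := by
    have h1 : ng a' ∈ S6 a b c := by
      by_contra h2
      exact hne (hv _ h2)
    have h2 := S6_ng T h1
    rwa [ng_ng] at h2
  obtain ⟨r, hr, hvr⟩ := xd4 H hf hlen hne l hl.1 hsup (S6 a b c) (S6_Cl4 T) ha' hv
  have hr' : r ∈ Gn K (S6 a b c) := CCi4_mono (fun y hy => hy.1) hr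
  obtain ⟨r', hr'', k', hk', h'⟩ := CCi4_move H T (S6_ng T ha')
  rw [pv_short T.sc, pv_short (S6_short T (S6_ng T ha'))] at hvr
  rw [pv_short T.sc] at hne
  have h1 : (r' * r⁻¹ * f) (wf K c) = ((f (wf K c)).2 (ng a') * k') • wf K c := by
    rw [LinearEquiv.mul_apply, LinearEquiv.mul_apply]
    conv_lhs => rw [hvr]
    rw [map_smul, nor_apply_inv, map_smul, h', smul_smul]
  have hr2 : r' * r⁻¹ ∈ Gn K (S6 a b c) := mul_mem hr'' (inv_mem hr')
  generalize r' * r⁻¹ = r2 at h1 hr2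
  generalize hkk : (f (wf K c)).2 (ng a') * k' = k1 at h1
  have hk1 : k1 ≠ 0 := by
    rw [← hkk]
    exact mul_ne_zero hne hk'
  -- step 2
  have hf1 : r2 * f ∈ GF K := mul_mem (Gn_le_GF H _ hr2) hf
  have hvV : (r2 * f) (wf K (ng c)) ∈ VF K := (GF_VF hf1 _).mpr (wf_mem _)
  have hws : (r2 * f) (wf K (ng c)) ∈ UR K (S6 a b c) :=
    (Gn_UR H (S6_Cl4 T) hr2 _).mpr (hm _ (CCi4_wf_UR T (S6_ng T mc)))
  have hwc : ((r2 * f) (wf K (ng c))).2 (ng c) ≠ 0 := by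
    intro h0
    have h2 := hf1.1.2 (wf K c) (wf K (ng c))
    rw [h1, map_smul, LinearMap.smul_apply, fm_w H hvV c T.sc, h0, fm_w H (wf_mem _) c T.sc,
      (wf_snd_self hsnc).1, mul_zero, smul_zero, mul_one] at h2
    exact neg_ne_zero.mpr (Jac_two H) h2.symm
  let l' : (Fin 6 → ℤ) →+ ℤ :=
    { toFun := fun x => ip C6 (cv c) x
      map_zero' := ip_zero_right _
      map_add' := fun x y => ip_add_right _ _ _ }
  have hlv : ∀ y : Rt C6, l' y.1 = dg c y := fun y => rfl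
  have hl' : ∀ x, l' (sv x) = l' x := by
    intro x
    show ip C6 (cv c) (sv x) = ip C6 (cv c) x
    conv_lhs => rw [← sv_cv c]
    exact ip_sv _ _
  have hs : Sup l' c ((r2 * f) (pv K (ng c))) := by
    rw [pv_short hsnc]
    constructor
    · intro d hd
      have hna : l' (ng c).1 = -2 := by rw [hlv, dg_ng_right, dg_self]
      rw [hna, hlv]
      rcases lt_or_eq_of_le (dg_range c d).1 with h | h
      · exact Or.inr h
      · refine Or.inl (dg_neg_two c d h.symm ⟨fun h3 => absurd h3 T.sc, fun h3 =>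
          absurd (VF_long H hvV h3) hd⟩)
    · intro _
      rw [hlv, dg_ng_right, dg_self]
      norm_num
  obtain ⟨r3, hr3, hwr⟩ := xd4 H hf1 (c := ng c) (a := c) (sg_ng_iff c)
    (by rw [pv_short hsnc]; exact hwc) l' hl' hs (S6 a b c) (S6_Cl4 T) mc
    (by rw [pv_short hsnc]; exact hws)
  rw [pv_short hsnc] at hwr
  have h3 : r3 (wf K c) = wf K c := (Gn_pv H c (CCi4_mono (fun y hy => hy.2.1) hr3)).2.2
  have hr3' : r3 ∈ Gn K (S6 a b c) := CCi4_mono (fun y hy => hy.1) hr3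
  refine ⟨r2⁻¹ * r3, mul_mem (inv_mem hr2) hr3', k1, ((r2 * f) (wf K (ng c))).2 (ng c), hk1, hwc,
    ?_, ?_⟩
  · have : ((r2⁻¹ * r3)⁻¹ * f) (wf K c) = r3⁻¹ ((r2 * f) (wf K c)) := by
      rw [mul_inv_rev, inv_inv]
      rfl
    rw [this, h1, map_smul]
    congr 1
    conv_lhs => rw [← h3]
    exact nor_apply_inv r3 _
  · have : ((r2⁻¹ * r3)⁻¹ * f) (wf K (ng c)) = r3⁻¹ ((r2 * f) (wf K (ng c))) := by
      rw [mul_inv_rev, inv_inv]
      rfl
    rw [this]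
    conv_lhs => rw [hwr]
    rw [map_smul, nor_apply_inv]

theorem CCi4_ne (T : Tri a b c) : ¬ Eq4 a b ∧ ¬ Eq4 a c ∧ ¬ Eq4 b c := by
  refine ⟨fun h => ?_, fun h => ?_, fun h => ?_⟩
  · have h1 := XDs4_dg_Eq4 a h
    rw [T.dab, dg_self] at h1
    norm_num at h1
  · have h1 := XDs4_dg_Eq4 c h
    rw [dg_self, CCi4_dca T] at h1
    norm_num at h1
  · have h1 := XDs4_dg_Eq4 c h
    rw [dg_self, CCi4_dcb T] at h1
    norm_num at h1

theorem white_two (H : HypW C6 K) (T : Tri a b c) {x y : K} (h : IsW (x • wf K a + y • wf K b)) :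
    x = 0 ∨ y = 0 := by
  have hS := CCi4_Sm T
  have hS1 : Sm a (ng c) (ng b) := by
    have := Sm_ng (Sm_sub hS)
    rwa [ng_ng] at this
  have hS2 : Sm b (ng c) (ng a) := by
    have := Sm_ng (Sm_sub (Sm_symm hS))
    rwa [ng_ng] at this
  have snc : sg (ng c) ≠ ng c := by
    rw [Ne, sg_ng_iff]
    exact T.sc
  obtain ⟨p, hp, e1⟩ := br_ww (K := K) H hS1 T.sa snc
  obtain ⟨q, hq, e2⟩ := br_ww (K := K) H hS2 T.sb snc
  have e3 : br (wf K a) (Df K (ng b)) = 0 := by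
    rw [br_skew H, br_Dw_long H (by rw [dg_ng_left, CCi4_dba T]; norm_num), neg_zero]
  have e4 : br (wf K b) (Df K (ng a)) = 0 := by
    rw [br_skew H, br_Dw_long H (by rw [dg_ng_left, T.dab]; norm_num), neg_zero]
  have h1 : fm (x • wf K a + y • wf K b) (wf K (ng c)) = 0 := by
    rw [map_add, map_smul, map_smul, LinearMap.add_apply, LinearMap.smul_apply,
      LinearMap.smul_apply, fm_w H (wf_mem _) a T.sa, fm_w H (wf_mem _) b T.sb,
      wf_snd_ne, wf_snd_ne, mul_zero, smul_zero, smul_zero, add_zero]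
    · intro h2
      have h3 := XDs4_dg_Eq4 b h2
      rw [dg_ng_right, dg_ng_right, dg_self,
        dg_symm b c ⟨fun h => absurd h T.sb, fun h => absurd h T.sc⟩, CCi4_dcb T] at h3
      norm_num at h3
    · intro h2
      have h3 := XDs4_dg_Eq4 a h2
      rw [dg_ng_right, dg_ng_right, dg_self,
        dg_symm a c ⟨fun h => absurd h T.sa, fun h => absurd h T.sc⟩, CCi4_dca T] at h3
      norm_num at h3
  have h2 := h (wf K (ng c)) (wf_mem _)
  rw [h1, neg_zero, zero_smul] at h2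
  simp only [map_add, map_smul, LinearMap.add_apply, LinearMap.smul_apply, e1, e2, e3, e4,
    br_w_Dng H a T.sa, br_w_Dng H b T.sb, smul_zero, add_zero, zero_add] at h2
  have h3 := congrArg (fun u : LL C6 K => u.1) h2
  simp only [Prod.fst_add, Prod.smul_fst, Prod.fst_neg, hh_fst, Prod.fst_zero] at h3
  have h4 : (-(x * y * q)) • (zk (a.1 - (sg a).1) : Fin 6 → K) +
      (-(x * y * p)) • (zk (b.1 - (sg b).1) : Fin 6 → K) = 0 := by
    rw [← h3]
    module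
  have h5 := (zz_indep a b T.sa T.sb (Or.inr T.dab) _ _ h4).1
  have h6 : x * y * q = 0 := neg_eq_zero.mp h5
  exact mul_eq_zero.mp ((mul_eq_zero.mp h6).resolve_right hq)

/-- the image of `wf a` -/
theorem CCi4_step3 (H : HypW C6 K) (T : Tri a b c) {f : LL C6 K ≃ₗ[K] LL C6 K} (hf : f ∈ GF K)
    (hm : ∀ x : LL C6 K, x ∈ UR K (S6 a b c) → f x ∈ UR K (S6 a b c)) {k k' : K} (hk : k ≠ 0)
    (hk' : k' ≠ 0) (h1 : f (wf K c) = k • wf K c) (h2 : f (wf K (ng c)) = k' • wf K (ng c)) :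
    f (wf K a) = (f (wf K a)).2 a • wf K a + (f (wf K a)).2 b • wf K b := by
  have snc : sg (ng c) ≠ ng c := by
    rw [Ne, sg_ng_iff]
    exact T.sc
  have hG : wf K a ∈ Grd C6 K (cv c) 1 := by
    refine ⟨fun d hd => ?_, fun _ => wf_fst a⟩
    apply wf_snd_ne
    intro h
    apply hd
    have h3 := XDs4_dg_Eq4 c h
    rw [CCi4_dca T] at h3
    exact h3
  have hG2 : f (wf K a) ∈ Grd C6 K (cv c) 1 := by
    apply B14_grd
    · refine (Fil_pv H hf hk (a := c) (b := c) ?_ 1 _).mpr (Fil_of_Grd hG)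
      rw [pv_short T.sc]
      exact h1
    · have h3 := (Fil_pv H hf hk' (a := ng c) (b := ng c) (by
        rw [pv_short snc]
        exact h2) (-1) (wf K a)).mpr
      rw [cv_ng] at h3
      exact h3 (B14_fil hG)
  have hV : f (wf K a) ∈ VF K := (GF_VF hf _).mpr (wf_mem _)
  have hU := hm _ (CCi4_wf_UR T CCi4_a_mem)
  have hN := CCi4_ne T
  have hba : ¬ Eq4 b a := fun h => hN.1 (Eq4_symm h)
  have hsv := ((mem_VF' _).mp hV).2
  refine Prod.ext ?_ (funext fun d => ?_)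
  · simp only [Prod.fst_add, Prod.smul_fst, wf_fst, smul_zero, add_zero]
    exact hG2.2 (by norm_num)
  · simp only [Prod.snd_add, Prod.smul_snd, Pi.add_apply, Pi.smul_apply, smul_eq_mul]
    by_cases hda : Eq4 a d
    · have hdb : ¬ Eq4 b d := by
        intro h
        apply hN.1
        rcases hda with h3 | h3 <;> rcases h with h4 | h4
        · left; rw [← h4, h3]
        · right
          rw [← h3, h4, sg_sg]
        · right
          rw [← h3, h4]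
        · left
          rw [← sg_sg b, ← h4, h3, sg_sg]
      rw [wf_snd_ne hdb, mul_zero, add_zero]
      rcases hda with h3 | h3
      · rw [h3, (wf_snd_self T.sa).1, mul_one]
      · rw [h3, (wf_snd_self T.sa).2, hsv]
        ring
    · rw [wf_snd_ne hda, mul_zero, zero_add]
      by_cases hdb : Eq4 b d
      · rcases hdb with h3 | h3
        · rw [h3, (wf_snd_self T.sb).1, mul_one]
        · rw [h3, (wf_snd_self T.sb).2, hsv]
          ring
      · rw [wf_snd_ne hdb, mul_zero]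
        by_cases hd : d ∈ S6 a b c
        · apply hG2.1 d
          rcases hd with h | h | h | h | h | h
          · exact absurd h hda
          · have h3 := XDs4_dg_Eq4 c h
            rw [dg_ng_right, CCi4_dca T] at h3
            show dg c d ≠ 1
            rw [h3]
            norm_num
          · exact absurd h hdb
          · have h3 := XDs4_dg_Eq4 c h
            rw [dg_ng_right, CCi4_dcb T] at h3
            show dg c d ≠ 1
            rw [h3]
            norm_num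
          · have h3 := XDs4_dg_Eq4 c h
            rw [dg_self] at h3
            show dg c d ≠ 1
            rw [h3]
            norm_num
          · have h3 := XDs4_dg_Eq4 c h
            rw [dg_ng_right, dg_self] at h3
            show dg c d ≠ 1
            rw [h3]
            norm_num
        · exact hU d hd

theorem CCi4_dual (H : HypW C6 K) {a b a' b' : Rt C6} (sa : sg a ≠ a) (sb : sg b ≠ b)
    (sa' : sg a' ≠ a') (sb' : sg b' ≠ b') (hab : ¬ Eq4 a b) (hab' : ¬ Eq4 a' b')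
    {f : LL C6 K ≃ₗ[K] LL C6 K} (hf : f ∈ GF K) {x y p q : K} (hx : x ≠ 0) (hy : y ≠ 0)
    (ha : f (wf K a) = x • wf K a') (hb : f (wf K b) = y • wf K b')
    (hv : f (wf K (ng a)) = p • wf K (ng a') + q • wf K (ng b')) :
    f (wf K (ng a)) = x⁻¹ • wf K (ng a') := by
  have hng : ∀ u v : Rt C6, ¬ Eq4 u v → ¬ Eq4 (ng u) (ng v) := by
    intro u v h h1
    apply h
    rcases h1 with h1 | h1
    · left
      rw [← ng_ng v, h1, ng_ng]
    · right
      rw [← ng_ng v, h1, sg_ng, ng_ng]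
  have sna : sg (ng a) ≠ ng a := by rw [Ne, sg_ng_iff]; exact sa
  have sna' : sg (ng a') ≠ ng a' := by rw [Ne, sg_ng_iff]; exact sa'
  have snb' : sg (ng b') ≠ ng b' := by rw [Ne, sg_ng_iff]; exact sb'
  have hn := hng _ _ hab'
  have hn1 : ¬ Eq4 (ng b') (ng a') := fun h => hn (Eq4_symm h)
  have hn' := hng _ _ hab
  have hfV : p • wf K (ng a') + q • wf K (ng b') ∈ VF K :=
    add_mem ((VF K).smul_mem _ (wf_mem _)) ((VF K).smul_mem _ (wf_mem _))
  have h1 := hf.1.2 (wf K a) (wf K (ng a))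
  have h2 := hf.1.2 (wf K b) (wf K (ng a))
  rw [ha, hv, map_smul, LinearMap.smul_apply, fm_w H hfV a' sa', fm_w H (wf_mem _) a sa,
    (wf_snd_self sna).1] at h1
  rw [hb, hv, map_smul, LinearMap.smul_apply, fm_w H hfV b' sb', fm_w H (wf_mem _) b sb,
    wf_snd_ne hn'] at h2
  simp only [Prod.snd_add, Prod.smul_snd, Pi.add_apply, Pi.smul_apply, smul_eq_mul,
    (wf_snd_self sna').1, (wf_snd_self snb').1, wf_snd_ne hn, wf_snd_ne hn1] at h1 h2
  have h20 := Jac_two H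
  have h3 : q = 0 := by
    have h4 : (2 * y) * q = 0 := by linear_combination -h2
    exact (mul_eq_zero.mp h4).resolve_left (mul_ne_zero h20 hy)
  have h4 : p = x⁻¹ := by
    have h5 : 2 * (x * p - 1) = 0 := by linear_combination -h1
    have h6 : x * p - 1 = 0 := (mul_eq_zero.mp h5).resolve_left h20
    field_simp
    linear_combination h6
  rw [hv, h3, h4, zero_smul, add_zero]

/-- the image of a sum -/
theorem CCi4_sum (H : HypW C6 K) {u w z u' w' : Rt C6} (hz : Sm u w z)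
    {f : LL C6 K ≃ₗ[K] LL C6 K} (hf : f ∈ GF K) {p q r : K}
    (hu : f (Df K u) = p • Df K u') (hw : f (Df K w) = q • Df K w')
    (hb : br (Df K u') (Df K w') = r • br (Df K u) (Df K w)) :
    f (Df K z) = (p * q * r) • Df K z := by
  obtain ⟨k, hk, h1⟩ := br_DD (K := K) H hz
  have h2 := hf.1.1 (Df K u) (Df K w)
  rw [hu, hw, map_smul, LinearMap.map_smul₂, hb, h1, map_smul] at h2
  have h3 : k⁻¹ • (k • f (Df K z)) = k⁻¹ • (q • p • r • k • Df K z) := by rw [h2]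
  rw [smul_smul, inv_mul_cancel₀ hk, one_smul] at h3
  rw [h3]
  simp only [smul_smul]
  congr 1
  field_simp

theorem CCi4_mu (H : HypW C6 K) {u u' : Rt C6} (su : sg u ≠ u) (su' : sg u' ≠ u')
    {f : LL C6 K ≃ₗ[K] LL C6 K} (hf : f ∈ GF K) {p q : K}
    (hu : f (Df K u) = p • Df K u') (hu' : f (Df K (ng u)) = q • Df K (ng u')) :
    p ≠ 0 ∧ q = p⁻¹ := by
  have sn : sg (ng u) ≠ ng u := by rw [Ne, sg_ng_iff]; exact su
  have h1 := hf.1.2 (Df K u) (Df K (ng u))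
  rw [hu, hu', map_smul, map_smul, LinearMap.smul_apply, fm_D H (Df_mem _) u' su',
    fm_D H (Df_mem _) u su, Df_snd, Df_snd, if_pos (CCi4_Eq_refl _), if_pos (CCi4_Eq_refl _),
    smul_eq_mul, smul_eq_mul] at h1
  have h2 : 2 * (p * q - 1) = 0 := by linear_combination -h1
  have h3 : p * q - 1 = 0 := (mul_eq_zero.mp h2).resolve_left (Jac_two H)
  have h4 : p ≠ 0 := by
    rintro rfl
    rw [zero_mul, zero_sub, neg_eq_zero] at h3
    exact one_ne_zero h3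
  refine ⟨h4, ?_⟩
  field_simp
  linear_combination h3

theorem CCi4_hh (H : HypW C6 K) {u u' : Rt C6} {f : LL C6 K ≃ₗ[K] LL C6 K} (hf : f ∈ GF K)
    {p : K} (hp : p ≠ 0) (hu : f (Df K u) = p • Df K u')
    (hu' : f (Df K (ng u)) = p⁻¹ • Df K (ng u')) :
    f (hh C6 (zk (cv u))) = hh C6 (zk (cv u')) := by
  have h4 := hf.1.1 (Df K u) (Df K (ng u))
  rw [hu, hu', map_smul, LinearMap.map_smul₂, smul_smul, inv_mul_cancel₀ hp, one_smul,
    br_D_ng H, br_D_ng H, map_neg] at h4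
  exact neg_injective h4

theorem CCi4_J (a b c : Rt C6) (M : Matrix (Fin 3) (Fin 3) K) :
    J4 K a b c M = M 0 1 • Df K a + M 1 2 • Df K b + (M 0 2 * ek K C6 a.1 b.1) • Df K c
    + (-M 1 0) • Df K (ng a) + (-M 2 1) • Df K (ng b) + (M 2 0 * ek K C6 b.1 a.1) • Df K (ng c)
    + M 0 0 • hh C6 (zk (cv a)) + (M 0 0 + M 1 1) • hh C6 (zk (cv b)) := by
  show M 0 1 • Df K a + M 1 2 • Df K b + M 0 2 • (ek K C6 a.1 b.1 • Df K c) +
    M 1 0 • (-Df K (ng a)) + M 2 1 • (-Df K (ng b)) + M 2 0 • (ek K C6 b.1 a.1 • Df K (ng c)) +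
    M 0 0 • hh C6 (zk (cv a)) + (M 0 0 + M 1 1) • hh C6 (zk (cv b)) = _
  module

/-- the diagonal unit -/
def CCi4_D {x y : K} (hx : x ≠ 0) (hy : y ≠ 0) : (Matrix (Fin 3) (Fin 3) K)ˣ where
  val := !![x * y, 0, 0; 0, y, 0; 0, 0, 1]
  inv := !![(x * y)⁻¹, 0, 0; 0, y⁻¹, 0; 0, 0, 1]
  val_inv := by
    ext i j
    fin_cases i <;> fin_cases j <;> simp [Matrix.mul_apply, Fin.sum_univ_three, hy]
    field_simp
  inv_val := by
    ext i j
    fin_cases i <;> fin_cases j <;> simp [Matrix.mul_apply, Fin.sum_univ_three, hy]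
    field_simp

/-- the antidiagonal unit -/
def CCi4_A {x y : K} (hx : x ≠ 0) (hy : y ≠ 0) : (Matrix (Fin 3) (Fin 3) K)ˣ where
  val := !![0, 0, x * y; 0, -y, 0; 1, 0, 0]
  inv := !![0, 0, 1; 0, -y⁻¹, 0; (x * y)⁻¹, 0, 0]
  val_inv := by
    ext i j
    fin_cases i <;> fin_cases j <;> simp [Matrix.mul_apply, Fin.sum_univ_three, hy]
    field_simp
  inv_val := by
    ext i j
    fin_cases i <;> fin_cases j <;> simp [Matrix.mul_apply, Fin.sum_univ_three, hy]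
    field_simp

theorem CCi4_caseA (H : HypW C6 K) (T : Tri a b c) {f : LL C6 K ≃ₗ[K] LL C6 K} (hf : f ∈ GF K)
    {x y : K} (hx : x ≠ 0) (hy : y ≠ 0)
    (ha : f (Df K a) = x • Df K a) (hb : f (Df K b) = y • Df K b)
    (ha' : f (Df K (ng a)) = x⁻¹ • Df K (ng a)) (hb' : f (Df K (ng b)) = y⁻¹ • Df K (ng b)) :
    Cj4 a b c (CCi4_D hx hy) f := by
  intro M hM
  have hcc : f (Df K c) = (x * y) • Df K c := by
    rw [CCi4_sum H (CCi4_Sm T) hf ha hb (r := 1) (by rw [one_smul]), mul_one]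
  have hcc' : f (Df K (ng c)) = (x⁻¹ * y⁻¹) • Df K (ng c) := by
    rw [CCi4_sum H (Sm_ng (CCi4_Sm T)) hf ha' hb' (r := 1) (by rw [one_smul]), mul_one]
  have h1 := CCi4_hh H hf hx ha ha'
  have h2 := CCi4_hh H hf hy hb hb'
  rw [CCi4_J, CCi4_J]
  simp only [map_add, map_smul, ha, hb, ha', hb', hcc, hcc', h1, h2]
  simp only [CCi4_D, Matrix.mul_apply, Fin.sum_univ_three, Units.inv_mk, Units.val_mk]
  simp only [Matrix.of_apply, Matrix.cons_val', Matrix.cons_val_zero, Matrix.cons_val_one,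
    Matrix.cons_val, Matrix.cons_val_fin_one, zero_mul, mul_zero, add_zero, zero_add, one_mul,
    mul_one]
  match_scalars <;> field_simp

theorem CCi4_caseB (H : HypW C6 K) (T : Tri a b c) {f : LL C6 K ≃ₗ[K] LL C6 K} (hf : f ∈ GF K)
    {x y : K} (hx : x ≠ 0) (hy : y ≠ 0)
    (ha : f (Df K a) = y • Df K b) (hb : f (Df K b) = x • Df K a)
    (ha' : f (Df K (ng a)) = y⁻¹ • Df K (ng b)) (hb' : f (Df K (ng b)) = x⁻¹ • Df K (ng a)) :
    Aj4 a b c (CCi4_A hx hy) f := by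
  intro M hM
  have hek : ek K C6 b.1 a.1 = -ek K C6 a.1 b.1 := by
    apply ek_comm_odd H
    rw [Comb_comm, CCi4_ab H T]
    exact ⟨-1, by norm_num⟩
  have hcc : f (Df K c) = (-(x * y)) • Df K c := by
    rw [CCi4_sum H (CCi4_Sm T) hf ha hb (r := -1) (by rw [br_skew H, neg_smul, one_smul])]
    congr 1
    ring
  have hcc' : f (Df K (ng c)) = (-(x⁻¹ * y⁻¹)) • Df K (ng c) := by
    rw [CCi4_sum H (Sm_ng (CCi4_Sm T)) hf ha' hb' (r := -1)
      (by rw [br_skew H, neg_smul, one_smul])]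
    congr 1
    ring
  have h1 := CCi4_hh H hf hy ha ha'
  have h2 := CCi4_hh H hf hx hb hb'
  have htr : M 2 2 = -(M 0 0) - M 1 1 := by
    rw [Matrix.trace, Fin.sum_univ_three] at hM
    simp only [Matrix.diag_apply] at hM
    linear_combination hM
  rw [CCi4_J, CCi4_J, hek]
  simp only [map_add, map_smul, ha, hb, ha', hb', hcc, hcc', h1, h2]
  simp only [CCi4_A, Matrix.mul_apply, Fin.sum_univ_three, Units.inv_mk, Units.val_mk,
    Matrix.transpose_apply]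
  simp only [Matrix.of_apply, Matrix.cons_val', Matrix.cons_val_zero, Matrix.cons_val_one,
    Matrix.cons_val, Matrix.cons_val_fin_one, zero_mul, mul_zero, add_zero, zero_add, one_mul,
    mul_one, htr]
  match_scalars <;> field_simp <;> ring

theorem CCi4_Gn_Cj (H : HypW C6 K) (T : Tri a b c) {g : LL C6 K ≃ₗ[K] LL C6 K}
    (hg : g ∈ Gn K (S6 a b c)) : ∃ u, Cj4 a b c u g := by
  induction hg using Subgroup.closure_induction with
  | mem g hg =>
    obtain ⟨d, hd, s, rfl⟩ := hg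
    exact J4_xf H T hd s
  | one => exact ⟨1, Cj4_one⟩
  | mul g h _ _ hg hh =>
    obtain ⟨u, hu⟩ := hg
    obtain ⟨v, hv⟩ := hh
    exact ⟨_, Cj4_mul hu hv⟩
  | inv g _ hg =>
    obtain ⟨u, hu⟩ := hg
    exact ⟨_, Cj4_inv hu⟩

theorem conj_or_graph4 (H : HypW C6 K) (T : Tri a b c) {f : LL C6 K ≃ₗ[K] LL C6 K} (hf : f ∈ GF K)
    (hm : ∀ x : LL C6 K, x ∈ UR K (S6 a b c) → f x ∈ UR K (S6 a b c)) :
    (∃ g, Cj4 a b c g f) ∨ ∃ g, Aj4 a b c g f := by
  obtain ⟨r, hr, k, k', hk, hk', h1, h2⟩ := norm4 H T hf hm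
  obtain ⟨u, hu⟩ := CCi4_Gn_Cj H T hr
  have hfr : f = r * (r⁻¹ * f) := by rw [mul_inv_cancel_left]
  have hg : r⁻¹ * f ∈ GF K := mul_mem (inv_mem (Gn_le_GF H _ hr)) hf
  have hgs : ∀ x : LL C6 K, x ∈ UR K (S6 a b c) → (r⁻¹ * f) x ∈ UR K (S6 a b c) := fun x hx =>
    (Gn_UR H (S6_Cl4 T) (inv_mem hr) _).mpr (hm x hx)
  suffices hs : (∃ g, Cj4 a b c g (r⁻¹ * f)) ∨ ∃ g, Aj4 a b c g (r⁻¹ * f) by
    rw [hfr]
    rcases hs with ⟨g, hg⟩ | ⟨g, hg⟩
    · exact Or.inl ⟨_, Cj4_mul hu hg⟩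
    · exact Or.inr (Cj4_Aj4 hu hg)
  generalize r⁻¹ * f = φ at h1 h2 hg hgs
  have Tn := CCi4_neg T
  have hgs1 : ∀ x : LL C6 K, x ∈ UR K (S6 b a c) → φ x ∈ UR K (S6 b a c) := by
    rw [CCi4_S_swap]
    exact hgs
  have hgs2 : ∀ x : LL C6 K, x ∈ UR K (S6 (ng a) (ng b) (ng c)) →
      φ x ∈ UR K (S6 (ng a) (ng b) (ng c)) := by
    rw [CCi4_S_neg]
    exact hgs
  have hgs3 : ∀ x : LL C6 K, x ∈ UR K (S6 (ng b) (ng a) (ng c)) →
      φ x ∈ UR K (S6 (ng b) (ng a) (ng c)) := by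
    rw [CCi4_S_neg, CCi4_S_swap]
    exact hgs
  have ha := CCi4_step3 H T hg hgs hk hk' h1 h2
  have hb := CCi4_step3 H (CCi4_swap T) hg hgs1 hk hk' h1 h2
  have hna := CCi4_step3 H Tn hg hgs2 hk' hk h2 (by rw [ng_ng]; exact h1)
  have hnb := CCi4_step3 H (CCi4_swap Tn) hg hgs3 hk' hk h2 (by rw [ng_ng]; exact h1)
  have hav : IsW (φ (wf K a)) := isW_map (isW_wf H a T.sa) hg
  have hbv : IsW (φ (wf K b)) := isW_map (isW_wf H b T.sb) hg
  have ha00 : φ (wf K a) ≠ 0 := fun h => wf_ne_zero H T.sa (φ.map_eq_zero_iff.mp h)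
  have hb00 : φ (wf K b) ≠ 0 := fun h => wf_ne_zero H T.sb (φ.map_eq_zero_iff.mp h)
  have hN := (CCi4_ne T).1
  have hN' : ¬ Eq4 b a := fun h => hN (Eq4_symm h)
  have hlin : ∀ p q : K, p ≠ 0 → ∀ z : LL C6 K, φ (wf K a) = p • z → φ (wf K b) = q • z →
      False := by
    intro p q hp z hz hz'
    have h3 : φ (wf K b) = φ ((q * p⁻¹) • wf K a) := by
      rw [map_smul, hz, hz', smul_smul, mul_assoc, inv_mul_cancel₀ hp, mul_one]
    have h4 := φ.injective h3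
    have h5 := congrArg (fun w : LL C6 K => w.2 b) h4
    simp only [Prod.smul_snd, Pi.smul_apply, (wf_snd_self T.sb).1, wf_snd_ne hN,
      smul_eq_mul, mul_zero] at h5
    exact one_ne_zero h5
  have ma : a ∈ S6 a b c := CCi4_a_mem
  have mb : b ∈ S6 a b c := CCi4_b_mem
  have mna : ng a ∈ S6 a b c := S6_ng T ma
  have mnb : ng b ∈ S6 a b c := S6_ng T mb
  rw [ha] at hav
  rw [hb] at hbv
  rcases white_two H T hav with hx | hx
  · -- case B
    rw [hx, zero_smul, zero_add] at ha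
    have hy0 : (φ (wf K a)).2 b ≠ 0 := by
      intro h
      rw [h, zero_smul] at ha
      exact ha00 ha
    have hb2 : (φ (wf K b)).2 b = 0 := by
      rcases white_two H (CCi4_swap T) hbv with h | h
      · exact h
      · rw [h, zero_smul, add_zero] at hb
        exact (hlin _ _ hy0 _ ha hb).elim
    rw [hb2, zero_smul, zero_add] at hb
    have hx0 : (φ (wf K b)).2 a ≠ 0 := by
      intro h
      rw [h, zero_smul] at hb
      exact hb00 hb
    have hna' : φ (wf K (ng a)) = ((φ (wf K a)).2 b)⁻¹ • wf K (ng b) := by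
      rw [add_comm] at hna
      exact CCi4_dual H T.sa T.sb T.sb T.sa hN hN' hg hy0 hx0 ha hb hna
    have hnb' : φ (wf K (ng b)) = ((φ (wf K b)).2 a)⁻¹ • wf K (ng a) := by
      rw [add_comm] at hnb
      exact CCi4_dual H T.sb T.sa T.sa T.sb hN' hN hg hx0 hy0 hb ha hnb
    obtain ⟨μ, hμ⟩ := line4 H T hg hgs ma mb hy0 ha
    obtain ⟨ν, hν⟩ := line4 H T hg hgs mb ma hx0 hb
    obtain ⟨μ', hμ'⟩ := line4 H T hg hgs mna mnb (inv_ne_zero hy0) hna'
    obtain ⟨ν', hν'⟩ := line4 H T hg hgs mnb mna (inv_ne_zero hx0) hnb'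
    obtain ⟨hμ0, rfl⟩ := CCi4_mu H T.sa T.sb hg hμ hμ'
    obtain ⟨hν0, rfl⟩ := CCi4_mu H T.sb T.sa hg hν hν'
    exact Or.inr ⟨_, CCi4_caseB H T hg hν0 hμ0 hμ hν hμ' hν'⟩
  · -- case A
    rw [hx, zero_smul, add_zero] at ha
    have hx0 : (φ (wf K a)).2 a ≠ 0 := by
      intro h
      rw [h, zero_smul] at ha
      exact ha00 ha
    have hb2 : (φ (wf K b)).2 a = 0 := by
      rcases white_two H (CCi4_swap T) hbv with h | h
      · rw [h, zero_smul, zero_add] at hb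
        exact (hlin _ _ hx0 _ ha hb).elim
      · exact h
    rw [hb2, zero_smul, add_zero] at hb
    have hy0 : (φ (wf K b)).2 b ≠ 0 := by
      intro h
      rw [h, zero_smul] at hb
      exact hb00 hb
    have hna' := CCi4_dual H T.sa T.sb T.sa T.sb hN hN hg hx0 hy0 ha hb hna
    have hnb' := CCi4_dual H T.sb T.sa T.sb T.sa hN' hN' hg hy0 hx0 hb ha hnb
    obtain ⟨μ, hμ⟩ := line4 H T hg hgs ma ma hx0 ha
    obtain ⟨ν, hν⟩ := line4 H T hg hgs mb mb hy0 hb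
    obtain ⟨μ', hμ'⟩ := line4 H T hg hgs mna mna (inv_ne_zero hx0) hna'
    obtain ⟨ν', hν'⟩ := line4 H T hg hgs mnb mnb (inv_ne_zero hy0) hnb'
    obtain ⟨hμ0, rfl⟩ := CCi4_mu H T.sa T.sa hg hμ hμ'
    obtain ⟨hν0, rfl⟩ := CCi4_mu H T.sb T.sb hg hν hν'
    exact Or.inl ⟨_, CCi4_caseA H T hg hμ0 hν0 hμ hν hμ' hν'⟩

end Pool.Agent.H31.F4
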