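import Pool.Agent.H31.F4.LemC
import Pool.Agent.H31.F4.PG4
import Pool.Agent.H31.F4.CaseA4

/-!
# FF-51: Proposition C, basics (adapt EL/CCa.lean; `T1`, `TT ⊓ F` become `T4`)

Context: `F ≤ GF` contains `T4` and no root group, every proper subgroup of `F` containing `T4` is in
`NN`, and `F` is not.  `Z4 F` = centre of `F` intersected with `T4`.

* `c1_4`: if `s ∉ Z4` (`s ∈ T4`) then `F' = F ⊓ centralizer {s} ≠ F` contains `T4` (`T4_comm`) and `x T4 x⁻¹`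
  (`s` and `x t x⁻¹` commute as `x⁻¹ s x ∈ T4`).  So `F' ≤ NN`, `x T4 x⁻¹ ≤ NN`, and `lemC4` gives
  `x ∈ NN`, contradiction.
* `c2_4`: `F' = {f ∈ F : ∃ z ∈ Z4, f s f⁻¹ = z s}` is a subgroup containing `T4`.  If `F' = F` then for `x ∈ F`, `x ∉ NN`
  (exists): `x⁻¹ s x ∈ Z s ⊆ T4`, so `s ∈ Z` by `c1_4`.  So `F' ≠ F`, `F' ≤ NN`.
* `c3a_4`: `b = x s x⁻¹`.  `t b t⁻¹ b⁻¹ ∈ Z` iff (conjugating by `x`) `t' s t'⁻¹ s⁻¹ ∈ Z`, `t' = x⁻¹ t x`; so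
  `t' ∈ NN` by `c2_4`.  Conversely let `t' ∈ NN`: `t b t⁻¹ b⁻¹ ∈ T4` since `b ∈ NN` normalises `T4` (`NN4_conj`); and
  `x⁻¹ (t b t⁻¹ b⁻¹) x = t' s t'⁻¹ s⁻¹ ∈ T4` since `t' ∈ NN`; so it is in `Z` by `c1_4`.
* `c3b_4`: otherwise `x⁻¹ T4 x ≤ NN`, `lemC4` gives `x⁻¹ ∈ NN`.
* `mZ4_iff`: `z x = x` for all `z ∈ Z4` iff the coordinates outside `PZ4 F` vanish (`z` acts by `wt z a`).
* `t0_4`: the set `F'' = {f ∈ F : f x = x for all x with coordinates in PZ4 F}` is normal in `F`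
  (`F` preserves this space, `mZ4_inv`) and contained in `T4` (it fixes `L0`: in `TT`; `T4_eq`).  `t ∈ F''`; for
  `x ∉ NN`, `x⁻¹ t x ∈ F'' ≤ T4`, so `t ∈ Z` by `c1_4`.
* `PZ4_nonempty`: otherwise `F` preserves `L0` (`mZ4_inv`).  `PZ4_sm`: `wt_sm`.
* `fp4`: `F ⊓ Rad d` is a `T4`-invariant `p`-group (`T4 ≤ F`, `Rad_normal`), so trivial by `pg4` since
  `SF4 F` is empty.  For `f ∈ F`, `h = hd d c ∈ T4`: `gr (f h f⁻¹ h⁻¹) = 1` (`gr_comm_hd`, `gr_TT`), so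
  `f h f⁻¹ h⁻¹ = 1`.
* `no_normal4`: `F' ≠ F` would give `F' ≤ NN`, so for `f ∈ F`: `f T4 f⁻¹ ≤ F' ≤ NN`, `f ∈ NN`: contradiction.
* `w1_4`: suppose `t² b t⁻² b⁻¹ ∈ Z` for all `t ∈ T4`.  Let `w` be the permutation of `b`
  (`NN4_perm`), `b (Df c) = k Df (w c)`.  For `a ∈ PZ4 F` there is `c` with `w c = a`, and the weight
  of `t² b t⁻² b⁻¹` at `a` is `wt t a ^ 2 * (wt t c ^ 2)⁻¹` (`wt_conj4`); it is 1, so `Eq4 a c`
  by `T4_sep2`.  So `w a ∈ {a, sg a}` for `a ∈ PZ4 F` and then `t b t⁻¹ b⁻¹` has weight 1 at all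
  `a ∈ PZ4 F` for all `t ∈ T4` (`wt_sg`); so it is in `Z` by `t0_4`; by `c3a_4` `x⁻¹ t x ∈ NN` for all `t ∈ T4`,
  contradiction to `c3b_4`.
* `mem_NN_lines4`: `f (Df y) ∈ K Df (y')`, a permutation of the `Eq4`-classes in `PZ4 F`.
  `L' = {x ∈ LF : x.2 d = 0 for d ∉ PZ4 F, [x, Df y] ∈ K Df y for all y ∈ PZ4 F}` is mapped to itself by `f` (`mZ4_inv`; for
  `x ∈ L'` and `y`: `Df y = k⁻¹ f (Df y')`).  `L' = {hh h : sv h = h}`: if `x.2 y ≠ 0` then `[x, Df (ng y)]` has toral part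
  `- x.2 y zk (cv y) ≠ 0`, so it is not in `K Df (ng y)`.  And `L0 = {x : [hh h, x] = 0 for all h with sv h = h}`
  (`h = zk (cv b)`, `fk (zk (cv b)) (zk b) = dg b b = 2`).  So `f` maps `L0` to itself: `f ∈ NN` (definition of `NN`,
  finite dimension).
-/

namespace Pool.Agent.H31.F4

open Pool.Agent.H33.EL (ip cc eps Rt ng zk ek fk LL hh e brf fmf br fm IsExt exl ex xr hd L0 GG T1 TT NN SF cj wt)

variable {K : Type} [Field K]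

variable {F : Subgroup (LL C6 K ≃ₗ[K] LL C6 K)}

/-- the context of Proposition C -/
structure Ctx4 (F : Subgroup (LL C6 K ≃ₗ[K] LL C6 K)) : Prop where
  hF : F ≤ GF K
  hT : T4 K ≤ F
  hS : ∀ a : Rt C6, a ∉ SF4 F
  hmin : ∀ F' : Subgroup (LL C6 K ≃ₗ[K] LL C6 K), F' ≤ F → T4 K ≤ F' → F' ≠ F → F' ≤ NN C6 K
  hN : ¬ F ≤ NN C6 K

/-- the centre of `F` intersected with the torus -/
def Z4 (F : Subgroup (LL C6 K ≃ₗ[K] LL C6 K)) : Subgroup (LL C6 K ≃ₗ[K] LL C6 K) :=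
  F ⊓ Subgroup.centralizer (F : Set (LL C6 K ≃ₗ[K] LL C6 K)) ⊓ T4 K

/-- the roots which are trivial on `Z4 F` -/
def PZ4 (F : Subgroup (LL C6 K ≃ₗ[K] LL C6 K)) : Set (Rt C6) := {a | ∀ z ∈ Z4 F, wt z a = 1}

theorem Z4_comm {z f : LL C6 K ≃ₗ[K] LL C6 K} (hz : z ∈ Z4 F) (hf : f ∈ F) : f * z = z * f :=
  (Subgroup.mem_centralizer_iff.1 (Subgroup.mem_inf.1 (Subgroup.mem_inf.1 hz).1).2) f hf

theorem Z4_mk {z : LL C6 K ≃ₗ[K] LL C6 K} (hz : z ∈ F) (hz' : z ∈ T4 K)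
    (h : ∀ f ∈ F, f * z = z * f) : z ∈ Z4 F :=
  Subgroup.mem_inf.2 ⟨Subgroup.mem_inf.2 ⟨hz, Subgroup.mem_centralizer_iff.2 h⟩, hz'⟩

theorem Z4_le : Z4 F ≤ T4 K := inf_le_right

theorem ctxA_ZF {z : LL C6 K ≃ₗ[K] LL C6 K} (hz : z ∈ Z4 F) : z ∈ F :=
  (Subgroup.mem_inf.1 (Subgroup.mem_inf.1 hz).1).1

theorem ctx4_ex (X : Ctx4 F) : ∃ x ∈ F, x ∉ NN C6 K := by
  by_contra h
  push Not at h
  exact X.hN h

theorem c1_4 (H : HypW C6 K) (X : Ctx4 F) {x s : LL C6 K ≃ₗ[K] LL C6 K} (hx : x ∈ F)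
    (hxN : x ∉ NN C6 K) (hs : s ∈ T4 K) (h : x⁻¹ * s * x ∈ T4 K) : s ∈ Z4 F := by
  by_contra hsZ
  apply hxN
  let F' : Subgroup (LL C6 K ≃ₗ[K] LL C6 K) := F ⊓ Subgroup.centralizer {s}
  have hm : ∀ f, f ∈ F' ↔ f ∈ F ∧ s * f = f * s := by
    intro f
    constructor
    · intro hf
      refine ⟨(Subgroup.mem_inf.1 hf).1, ?_⟩
      exact (Subgroup.mem_centralizer_iff.1 (Subgroup.mem_inf.1 hf).2) s rfl
    · rintro ⟨h1, h2⟩
      refine Subgroup.mem_inf.2 ⟨h1, Subgroup.mem_centralizer_iff.2 ?_⟩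
      rintro y rfl
      exact h2
  have hT' : T4 K ≤ F' := fun t ht => (hm t).2 ⟨X.hT ht, T4_comm H hs ht⟩
  have hne : F' ≠ F := by
    intro he
    apply hsZ
    refine Z4_mk (X.hT hs) hs fun f hf => ?_
    rw [← he] at hf
    exact ((hm f).1 hf).2.symm
  have hN := X.hmin F' inf_le_left hT' hne
  refine lemC4 H (X.hF hx) fun t ht => hN ((hm _).2 ⟨?_, ?_⟩)
  · exact mul_mem (mul_mem hx (X.hT ht)) (inv_mem hx)
  · have h1 := T4_comm H h ht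
    calc s * (x * t * x⁻¹) = x * ((x⁻¹ * s * x) * t) * x⁻¹ := by group
      _ = x * (t * (x⁻¹ * s * x)) * x⁻¹ := by rw [h1]
      _ = x * t * x⁻¹ * s := by group

/-- the elements which commute with `s` modulo `Z4` -/
def ctxA_cen (F : Subgroup (LL C6 K ≃ₗ[K] LL C6 K)) (s : LL C6 K ≃ₗ[K] LL C6 K) :
    Subgroup (LL C6 K ≃ₗ[K] LL C6 K) where
  carrier := {f | f ∈ F ∧ f * s * f⁻¹ * s⁻¹ ∈ Z4 F}
  one_mem' := ⟨one_mem _, by
    have h1 : (1 : LL C6 K ≃ₗ[K] LL C6 K) * s * 1⁻¹ * s⁻¹ = 1 := by group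
    rw [h1]
    exact one_mem _⟩
  mul_mem' := by
    rintro f g ⟨hf, hf'⟩ ⟨hg, hg'⟩
    refine ⟨mul_mem hf hg, ?_⟩
    have h1 := Z4_comm hg' hf
    have h2 : f * g * s * (f * g)⁻¹ * s⁻¹ = (f * (g * s * g⁻¹ * s⁻¹)) * s * f⁻¹ * s⁻¹ := by
      group
    rw [h2, h1]
    have h3 : g * s * g⁻¹ * s⁻¹ * f * s * f⁻¹ * s⁻¹ =
        (g * s * g⁻¹ * s⁻¹) * (f * s * f⁻¹ * s⁻¹) := by group
    rw [h3]
    exact mul_mem hg' hf'
  inv_mem' := by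
    rintro f ⟨hf, hf'⟩
    refine ⟨inv_mem hf, ?_⟩
    have h1 := Z4_comm (inv_mem hf') (inv_mem hf)
    have h2 : f⁻¹ * s * f⁻¹⁻¹ * s⁻¹ = (f⁻¹ * (f * s * f⁻¹ * s⁻¹)⁻¹) * f := by
      group
    rw [h2, h1]
    have h3 : (f * s * f⁻¹ * s⁻¹)⁻¹ * f⁻¹ * f = (f * s * f⁻¹ * s⁻¹)⁻¹ := by group
    rw [h3]
    exact inv_mem hf'

theorem c2_4 (H : HypW C6 K) (X : Ctx4 F) {f s : LL C6 K ≃ₗ[K] LL C6 K} (hs : s ∈ T4 K)
    (hsZ : s ∉ Z4 F) (hf : f ∈ F) (h : f * s * f⁻¹ * s⁻¹ ∈ Z4 F) : f ∈ NN C6 K := by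
  have hT' : T4 K ≤ ctxA_cen F s := by
    intro t ht
    refine ⟨X.hT ht, ?_⟩
    have h1 : t * s * t⁻¹ * s⁻¹ = 1 := by
      rw [T4_comm H ht hs]
      group
    rw [h1]
    exact one_mem _
  have hne : ctxA_cen F s ≠ F := by
    intro he
    obtain ⟨x, hx, hxN⟩ := ctx4_ex X
    apply hsZ
    refine c1_4 H X hx hxN hs ?_
    have h1 : x⁻¹ ∈ ctxA_cen F s := by
      rw [he]
      exact inv_mem hx
    have h2 := Z4_le h1.2
    rw [inv_inv] at h2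
    have h3 := mul_mem h2 hs
    rwa [inv_mul_cancel_right] at h3
  exact X.hmin (ctxA_cen F s) (fun y hy => hy.1) hT' hne ⟨hf, h⟩

theorem comm_mem4 (H : HypW C6 K) (X : Ctx4 F) {b t : LL C6 K ≃ₗ[K] LL C6 K} (hbF : b ∈ F)
    (hb : b ∈ NN C6 K) (ht : t ∈ T4 K) : t * b * t⁻¹ * b⁻¹ ∈ T4 K := by
  have h1 := NN4_conj H hb (X.hF hbF) t⁻¹ (inv_mem ht)
  have h2 : t * b * t⁻¹ * b⁻¹ = t * (b * t⁻¹ * b⁻¹) := by group
  rw [h2]
  exact mul_mem ht h1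

theorem ctxA_conj {z x : LL C6 K ≃ₗ[K] LL C6 K} (hz : z ∈ Z4 F) (hx : x ∈ F) :
    x⁻¹ * z * x = z := by
  rw [mul_assoc, ← Z4_comm hz hx, inv_mul_cancel_left]

theorem c3a_4 (H : HypW C6 K) (X : Ctx4 F) {x s t : LL C6 K ≃ₗ[K] LL C6 K} (hx : x ∈ F)
    (hxN : x ∉ NN C6 K) (hs : s ∈ T4 K) (hsZ : s ∉ Z4 F)
    (hb : x * s * x⁻¹ ∈ NN C6 K) (ht : t ∈ T4 K) :
    t * (x * s * x⁻¹) * t⁻¹ * (x * s * x⁻¹)⁻¹ ∈ Z4 F ↔ x⁻¹ * t * x ∈ NN C6 K := by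
  have htF : x⁻¹ * t * x ∈ F := mul_mem (mul_mem (inv_mem hx) (X.hT ht)) hx
  have hbF : x * s * x⁻¹ ∈ F := mul_mem (mul_mem hx (X.hT hs)) (inv_mem hx)
  have key : x⁻¹ * (t * (x * s * x⁻¹) * t⁻¹ * (x * s * x⁻¹)⁻¹) * x =
      (x⁻¹ * t * x) * s * (x⁻¹ * t * x)⁻¹ * s⁻¹ := by group
  constructor
  · intro h
    refine c2_4 H X hs hsZ htF ?_
    rw [← key, ctxA_conj h hx]
    exact h
  · intro h
    refine c1_4 H X hx hxN (comm_mem4 H X hbF hb ht) ?_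
    rw [key]
    exact mul_mem (NN4_conj H h (X.hF htF) s hs) (inv_mem hs)

theorem c3b_4 (H : HypW C6 K) (X : Ctx4 F) {x : LL C6 K ≃ₗ[K] LL C6 K} (hx : x ∈ F)
    (hxN : x ∉ NN C6 K) : ∃ t ∈ T4 K, x⁻¹ * t * x ∉ NN C6 K := by
  by_contra hcon
  push Not at hcon
  apply hxN
  have h1 : x⁻¹ ∈ NN C6 K := by
    refine lemC4 H (inv_mem (X.hF hx)) fun t ht => ?_
    rw [inv_inv]
    exact hcon t ht
  have h2 := inv_mem h1
  rwa [inv_inv] at h2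

theorem mZ4_iff (H : HypW C6 K) (x : LL C6 K) :
    (∀ z ∈ Z4 F, z x = x) ↔ ∀ d, d ∉ PZ4 F → x.2 d = 0 := by
  constructor
  · intro h d hd
    have h1 : ∃ z ∈ Z4 F, wt z d ≠ 1 := by
      by_contra hcon
      push Not at hcon
      exact hd hcon
    obtain ⟨z, hz, hzd⟩ := h1
    have h2 := h z hz
    rw [nor_coord H (T4_le_TT H (Z4_le hz)) x] at h2
    have h3 := congrArg (fun y : LL C6 K => y.2 d) h2
    change wt z d * x.2 d = x.2 d at h3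
    have h4 : (wt z d - 1) * x.2 d = 0 := by rw [sub_mul, one_mul, h3, sub_self]
    rcases mul_eq_zero.1 h4 with h5 | h5
    · exact absurd (sub_eq_zero.1 h5) hzd
    · exact h5
  · intro h z hz
    rw [nor_coord H (T4_le_TT H (Z4_le hz)) x]
    refine Prod.ext rfl (funext fun d => ?_)
    show wt z d * x.2 d = x.2 d
    by_cases hd : d ∈ PZ4 F
    · rw [hd z hz, one_mul]
    · rw [h d hd, mul_zero]

theorem mZ4_inv (H : HypW C6 K) (X : Ctx4 F) {f : LL C6 K ≃ₗ[K] LL C6 K} (hf : f ∈ F)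
    {x : LL C6 K} (hx : ∀ d, d ∉ PZ4 F → x.2 d = 0) : ∀ d, d ∉ PZ4 F → (f x).2 d = 0 := by
  rw [← mZ4_iff H] at hx ⊢
  intro z hz
  have h1 : (z * f) x = (f * z) x := by rw [Z4_comm hz hf]
  rw [LinearEquiv.mul_apply, LinearEquiv.mul_apply, hx z hz] at h1
  exact h1

theorem t0_4 (H : HypW C6 K) (X : Ctx4 F) {t : LL C6 K ≃ₗ[K] LL C6 K} (ht : t ∈ T4 K)
    (h : ∀ a ∈ PZ4 F, wt t a = 1) : t ∈ Z4 F := by
  obtain ⟨x, hx, hxN⟩ := ctx4_ex X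
  refine c1_4 H X hx hxN ht ?_
  have hG : x⁻¹ * t * x ∈ GF K := X.hF (mul_mem (mul_mem (inv_mem hx) (X.hT ht)) hx)
  refine T4_eq H ⟨GF_le_GG hG, fun y hy => ?_⟩ hG
  have h1 : ∀ d, d ∉ PZ4 F → (x y).2 d = 0 := mZ4_inv H X hx (fun d _ => by
    rw [(mem_L0 y).1 hy]
    rfl)
  have h2 : t (x y) = x y := by
    rw [nor_coord H (T4_le_TT H ht) (x y)]
    refine Prod.ext rfl (funext fun d => ?_)
    show wt t d * (x y).2 d = (x y).2 d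
    by_cases hd : d ∈ PZ4 F
    · rw [h d hd, one_mul]
    · rw [h1 d hd, mul_zero]
  show x⁻¹ (t (x y)) = y
  rw [h2, nor_apply_inv]

theorem PZ4_Eq4 (H : HypW C6 K) {a b : Rt C6} (h : Eq4 a b) (ha : a ∈ PZ4 F) : b ∈ PZ4 F := by
  intro z hz
  rcases h with rfl | rfl
  · exact ha z hz
  · rw [wt_sg H (Z4_le hz)]
    exact ha z hz

theorem PZ4_ng (H : HypW C6 K) {a : Rt C6} (ha : a ∈ PZ4 F) : ng a ∈ PZ4 F := by
  intro z hz
  rw [wt_ng H (T4_le_TT H (Z4_le hz)), ha z hz, inv_one]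

theorem PZ4_sm (H : HypW C6 K) {a b c : Rt C6} (h : Sm a b c) (ha : a ∈ PZ4 F)
    (hb : b ∈ PZ4 F) : c ∈ PZ4 F := by
  intro z hz
  rw [wt_sm H (Z4_le hz) h, ha z hz, hb z hz, one_mul]

theorem PZ4_nonempty (H : HypW C6 K) (X : Ctx4 F) : ∃ a, a ∈ PZ4 F := by
  by_contra hcon
  push Not at hcon
  apply X.hN
  have key : ∀ f ∈ F, ∀ x ∈ L0 C6 K, f x ∈ L0 C6 K := by
    intro f hf x hx
    rw [mem_L0]
    funext d
    refine mZ4_inv H X hf (fun d _ => ?_) d (hcon d)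
    rw [(mem_L0 x).1 hx]
    rfl
  intro f hf
  refine ⟨GF_le_GG (X.hF hf), fun x => ⟨fun h => ?_, key f hf x⟩⟩
  have h1 := key f⁻¹ (inv_mem hf) (f x) h
  rwa [nor_apply_inv] at h1

theorem PZ4_perm (H : HypW C6 K) (X : Ctx4 F) {f : LL C6 K ≃ₗ[K] LL C6 K} (hf : f ∈ F)
    {a b : Rt C6} {k : K} (h : f (Df K a) = k • Df K b) : a ∈ PZ4 F ↔ b ∈ PZ4 F := by
  have hk : k ≠ 0 := by
    rintro rfl
    rw [zero_smul] at h
    exact Df_ne_zero a ((LinearEquiv.map_eq_zero_iff f).1 h)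
  have key : ∀ z ∈ Z4 F, wt z a = wt z b := by
    intro z hz
    have h1 : (f * z) (Df K a) = (z * f) (Df K a) := by rw [Z4_comm hz hf]
    rw [LinearEquiv.mul_apply, LinearEquiv.mul_apply, (T4_Df H (Z4_le hz) a).1, map_smul, h,
      map_smul, (T4_Df H (Z4_le hz) b).1, smul_smul, smul_smul] at h1
    have h2 : (k * (wt z a - wt z b)) • Df K b = 0 := by
      rw [mul_sub, sub_smul, mul_comm k (wt z a), h1, sub_self]
    have h3 := (smul_eq_zero.1 h2).resolve_right (Df_ne_zero b)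
    exact sub_eq_zero.1 ((mul_eq_zero.1 h3).resolve_left hk)
  constructor
  · intro ha z hz
    rw [← key z hz]
    exact ha z hz
  · intro hb z hz
    rw [key z hz]
    exact hb z hz

theorem fp4 (H : HypW C6 K) {p : ℕ} [Fact p.Prime] [CharP K p] (X : Ctx4 F) {d : Fin 6 → ℤ}
    (hs : sv d = d) (hd' : F ≤ Par C6 K d) (c : Kˣ) : hd C6 d c ∈ Z4 F := by
  have hbot : F ⊓ Rad H d = ⊥ := by
    have h1 := pg4 H (F ⊓ Rad H d) ((Rad_pgroup H (p := p) d).to_le inf_le_right)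
      (inf_le_left.trans X.hF) (fun t ht u hu => Subgroup.mem_inf.2
        ⟨mul_mem (mul_mem (X.hT ht) (Subgroup.mem_inf.1 hu).1) (inv_mem (X.hT ht)),
          Rad_normal H (hd' (X.hT ht)) (Subgroup.mem_inf.1 hu).2⟩)
    rw [eq_bot_iff]
    refine h1.trans ?_
    rw [Subgroup.closure_le]
    rintro _ ⟨b, hb, s, rfl⟩
    exact absurd (fun s => (Subgroup.mem_inf.1 (hb s)).1) (X.hS b)
  have hh : (hd C6 d c : LL C6 K ≃ₗ[K] LL C6 K) ∈ T4 K := hd_mem_T4 hs c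
  have hhP : (hd C6 d c : LL C6 K ≃ₗ[K] LL C6 K) ∈ Par C6 K d := hd' (X.hT hh)
  refine Z4_mk (X.hT hh) hh fun f hf => ?_
  have hgh : gr H d ⟨hd C6 d c, hhP⟩ = hd C6 d c := gr_TT H (T4_le_TT H hh)
  have h1 : gr H d (⟨f, hd' hf⟩ * ⟨hd C6 d c, hhP⟩ * (⟨f, hd' hf⟩)⁻¹ *
      (⟨hd C6 d c, hhP⟩)⁻¹ : Par C6 K d) = 1 := by
    rw [map_mul, map_mul, map_mul, map_inv, map_inv, hgh, gr_comm_hd]
    group
  have h2 := (mem_Rad H _).2 h1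
  have h3 : f * hd C6 d c * f⁻¹ * (hd C6 d c)⁻¹ ∈ F ⊓ Rad H d :=
    Subgroup.mem_inf.2 ⟨mul_mem (mul_mem (mul_mem hf (X.hT hh)) (inv_mem hf))
      (inv_mem (X.hT hh)), h2⟩
  rw [hbot, Subgroup.mem_bot] at h3
  have h4 : f * hd C6 d c * f⁻¹ = hd C6 d c := mul_inv_eq_one.1 h3
  calc f * hd C6 d c = (f * hd C6 d c * f⁻¹) * f := by group
    _ = hd C6 d c * f := by rw [h4]

theorem no_normal4 (H : HypW C6 K) (X : Ctx4 F) (F' : Subgroup (LL C6 K ≃ₗ[K] LL C6 K))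
    (h1 : F' ≤ F) (h2 : T4 K ≤ F') (h3 : ∀ f ∈ F, ∀ u ∈ F', f * u * f⁻¹ ∈ F') : F' = F := by
  by_contra hne
  have hN := X.hmin F' h1 h2 hne
  exact X.hN fun f hf => lemC4 H (X.hF hf) fun t ht => hN (h3 f hf t (h2 ht))

theorem w1_4 (H : HypW C6 K) (X : Ctx4 F) {x s : LL C6 K ≃ₗ[K] LL C6 K} (hx : x ∈ F)
    (hxN : x ∉ NN C6 K) (hs : s ∈ T4 K) (hsZ : s ∉ Z4 F) (hb : x * s * x⁻¹ ∈ NN C6 K) :
    ∃ t ∈ T4 K, (t * t) * (x * s * x⁻¹) * (t * t)⁻¹ * (x * s * x⁻¹)⁻¹ ∉ Z4 F := by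
  by_contra hcon
  push Not at hcon
  have hbF : x * s * x⁻¹ ∈ F := mul_mem (mul_mem hx (X.hT hs)) (inv_mem hx)
  have hbG := X.hF hbF
  obtain ⟨w, k, hk, -, -, -, hD, -, -, -, -, -⟩ := NN4_perm H hb hbG
  -- the weight of `t b t⁻¹ b⁻¹`
  have hwt : ∀ t ∈ T4 K, ∀ c : Rt C6, wt (t * (x * s * x⁻¹) * t⁻¹ * (x * s * x⁻¹)⁻¹) (w c) =
      wt t (w c) * (wt t c)⁻¹ := by
    intro t ht c
    have h1 := wt_conj4 H hb hbG (inv_mem ht) (hD c) (hk c)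
    have h2 := NN4_conj H hb hbG t⁻¹ (inv_mem ht)
    have h3 : t * (x * s * x⁻¹) * t⁻¹ * (x * s * x⁻¹)⁻¹ =
        t * ((x * s * x⁻¹) * t⁻¹ * (x * s * x⁻¹)⁻¹) := by group
    rw [h3, wt_mul H (T4_le_TT H ht) (T4_le_TT H h2), h1, wt_inv H (T4_le_TT H ht)]
  have hE : ∀ c : Rt C6, w c ∈ PZ4 F → Eq4 (w c) c := by
    intro c hc
    by_contra hne
    obtain ⟨t, ht, hne2⟩ := T4_sep2 H hne
    have h1 := hc _ (hcon t ht)
    have htt := T4_le_TT H ht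
    rw [hwt (t * t) (mul_mem ht ht), wt_mul H htt htt, wt_mul H htt htt] at h1
    apply hne2
    have h2 : wt t c * wt t c ≠ 0 := mul_ne_zero (wt_ne_zero H htt c) (wt_ne_zero H htt c)
    have h3 : wt t (w c) * wt t (w c) = wt t c * wt t c := by
      rw [← div_eq_mul_inv, div_eq_one_iff_eq h2] at h1
      exact h1
    rw [sq, sq, h3]
  obtain ⟨t, ht, htN⟩ := c3b_4 H X hx hxN
  apply htN
  rw [← c3a_4 H X hx hxN hs hsZ hb ht]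
  refine t0_4 H X (comm_mem4 H X hbF hb ht) fun a ha => ?_
  obtain ⟨c, rfl⟩ := w.surjective a
  rw [hwt t ht c]
  have h1 : wt t c = wt t (w c) := by
    rcases hE c ha with h2 | h2
    · exact congrArg (wt t) h2
    · have h3 := congrArg (wt t) h2
      rw [wt_sg H ht] at h3
      exact h3
  rw [h1]
  exact mul_inv_cancel₀ (wt_ne_zero H (T4_le_TT H ht) _)

/-- an element of `GF` which preserves the invariant toral vectors is in `NN` -/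
theorem ctxA_NN (H : HypW C6 K) {f : LL C6 K ≃ₗ[K] LL C6 K} (hf : f ∈ GF K)
    (hU : ∀ x ∈ L0 C6 K, x ∈ LF K → f x ∈ L0 C6 K) : f ∈ NN C6 K := by
  have hU2 : (L0 C6 K ⊓ LF K).map (f : LL C6 K ≃ₗ[K] LL C6 K).toLinearMap =
      L0 C6 K ⊓ LF K := by
    apply Submodule.eq_of_le_of_finrank_eq
    · rintro _ ⟨x, hx, rfl⟩
      exact ⟨hU x hx.1 hx.2, (GF_LF hf x).2 hx.2⟩
    · exact LinearEquiv.finrank_map_eq _ _
  have h1 : ∀ y ∈ L0 C6 K, f y ∈ L0 C6 K := by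
    intro y hy
    rw [mem_L0]
    funext b
    have hb : hh C6 (zk (cv b) : Fin 6 → K) ∈ L0 C6 K ⊓ LF K := by
      refine ⟨hh_mem_L0 _, ?_⟩
      show hh C6 (zk (cv b) : Fin 6 → K) ∈ LF K
      rw [mem_LF, Sg_hh, ← zk_sv, sv_cv]
    rw [← hU2] at hb
    obtain ⟨x, hx, hxb⟩ := hb
    have h2 : br x y = 0 := by
      rw [eq_hh_of_mem hx.1, eq_hh_of_mem hy, br_hh_hh]
    have h3 : br (f x) (f y) = 0 := by
      rw [← hf.1.1, h2, map_zero]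
    have h4 : f x = hh C6 (zk (cv b) : Fin 6 → K) := hxb
    rw [h4] at h3
    have h5 := congrArg (fun z : LL C6 K => z.2 b) h3
    change (br (hh C6 (zk (cv b) : Fin 6 → K)) (f y)).2 b = 0 at h5
    rw [br_hh_snd, fk_zk_zk] at h5
    have h6 : ip C6 (cv b) b.1 = 2 := dg_self b
    rw [h6] at h5
    rcases mul_eq_zero.1 h5 with h7 | h7
    · exfalso
      apply two_ne H
      exact_mod_cast h7
    · exact h7
  have h3 : (L0 C6 K).map (f : LL C6 K ≃ₗ[K] LL C6 K).toLinearMap = L0 C6 K := by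
    apply Submodule.eq_of_le_of_finrank_eq
    · rintro _ ⟨x, hx, rfl⟩
      exact h1 x hx
    · exact LinearEquiv.finrank_map_eq _ _
  refine ⟨hf.1, fun x => ⟨fun hx => ?_, h1 x⟩⟩
  rw [← h3] at hx
  obtain ⟨y, hy, hyx⟩ := hx
  have h5 : y = x := f.injective hyx
  rw [← h5]
  exact hy

/-- a vector of `LF` which preserves the line of `Df (ng y)` has `y`-coordinate zero -/
theorem ctxA_coord (H : HypW C6 K) {x : LL C6 K} (hx : x ∈ LF K) (y : Rt C6) {c : K}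
    (h : br x (Df K (ng y)) = c • Df K (ng y)) : x.2 y = 0 := by
  have hsv : sv (zk (cv y) : Fin 6 → K) = zk (cv y) := by rw [← zk_sv, sv_cv]
  have hL : br (hh C6 (zk (cv y) : Fin 6 → K)) x ∈ LF K := by
    refine br_LF_LF ?_ hx
    rw [mem_LF, Sg_hh, hsv]
  have h1 := fm_inv H x (Df K (ng y)) (hh C6 (zk (cv y) : Fin 6 → K))
  rw [h, map_smul, LinearMap.smul_apply, fm_comm H (Df K (ng y)) (hh C6 _), fm_hh_left, Df_fst,
    br_skew H x (hh C6 _), map_neg, neg_neg] at h1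
  have h2 : fk C6 (zk (cv y) : Fin 6 → K) 0 = 0 := by simp [fk]
  rw [h2, smul_zero] at h1
  have h3 : (br (hh C6 (zk (cv y) : Fin 6 → K)) x).2 y = 2 * x.2 y := by
    rw [br_hh_snd, fk_zk_zk]
    have h6 : ip C6 (cv y) y.1 = 2 := dg_self y
    rw [h6]
    norm_num
  have h4 : ∃ m : K, m ≠ 0 ∧ fm (Df K (ng y)) (br (hh C6 (zk (cv y) : Fin 6 → K)) x) =
      m * (br (hh C6 (zk (cv y) : Fin 6 → K)) x).2 y := by
    by_cases hl : sg (ng y) = ng y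
    · refine ⟨-1, by norm_num, ?_⟩
      rw [Df_long hl, fm_e_left, ng_ng]
      ring
    · refine ⟨-2, neg_ne_zero.2 (two_ne H), ?_⟩
      rw [fm_D H hL (ng y) hl, ng_ng]
  obtain ⟨m, hm, h5⟩ := h4
  rw [h5, h3] at h1
  have h6 := (mul_eq_zero.1 h1.symm).resolve_left hm
  exact (mul_eq_zero.1 h6).resolve_left (two_ne H)

theorem mem_NN_lines4 (H : HypW C6 K) (X : Ctx4 F) {f : LL C6 K ≃ₗ[K] LL C6 K} (hf : f ∈ F)
    (hl : ∀ y ∈ PZ4 F, ∃ y' ∈ PZ4 F, ∃ k : K, f (Df K y') = k • Df K y) : f ∈ NN C6 K := by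
  have hG := X.hF hf
  refine ctxA_NN H hG fun x hx hL => ?_
  have hfL : f x ∈ LF K := (GF_LF hG x).2 hL
  have hfP : ∀ d, d ∉ PZ4 F → (f x).2 d = 0 := mZ4_inv H X hf fun d _ => by
    rw [(mem_L0 x).1 hx]
    rfl
  rw [mem_L0]
  funext y
  by_cases hy : y ∈ PZ4 F
  · obtain ⟨y', -, k, hk⟩ := hl (ng y) (PZ4_ng H hy)
    have hk0 : k ≠ 0 := by
      rintro rfl
      rw [zero_smul] at hk
      exact Df_ne_zero y' ((LinearEquiv.map_eq_zero_iff f).1 hk)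
    have h1 : br x (Df K y') = fk C6 x.1 (zk y'.1) • Df K y' := by
      have h2 : x = hh C6 x.1 := eq_hh_of_mem hx
      have h3 := br_h_D x.1 ((mem_LF' x).1 hL).1 y'
      rw [← h2] at h3
      exact h3
    have h2 : f (br x (Df K y')) = br (f x) (f (Df K y')) := hG.1.1 _ _
    rw [h1, map_smul, hk, map_smul, smul_comm] at h2
    have h3 : br (f x) (Df K (ng y)) = fk C6 x.1 (zk y'.1) • Df K (ng y) := by
      have h4 := congrArg (fun z => k⁻¹ • z) h2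
      simp only [smul_smul, inv_mul_cancel₀ hk0, one_smul] at h4
      rw [← h4, ← mul_assoc, inv_mul_cancel₀ hk0, one_mul]
    exact ctxA_coord H hfL y h3
  · exact hfP y hy

end Pool.Agent.H31.F4
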