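import Pool.Agent.H31.F4.FDim

/-!
# FF-24: a subspace invariant under `T4`, `Sg` and `g` gives a parabolic containing `g`

(compare EL/CAd.lean).  `mu_sg`: `span{e a, e (sg a)}` is symmetric.  `sv_dn`: reindex the sum.
`inv_Par4`: let `δ = dn n`, `sv δ = δ`, `l` the functional of `refine4 δ`.  Let `c` be a root,
`v = g (pv c)`; `min4` gives `a` of the length of `c` with `v.2 (ng a) ≠ 0`, `Sup l a v`;
`xd4` with `R = univ`: `v = κ r (pv (ng a))`, `κ = v.2 (ng a) ≠ 0`, `r ∈ Gn {0 < l}`.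
`Fil_pv` for `r⁻¹ g` (`∈ GF`), which maps `pv c` to `κ pv (ng a)`: `g` maps `Fil (cv c) i` onto
`r (Fil (cv (ng a)) i)`.  So
`finrank (n ⊓ Fil (cv c) i) = finrank (n ⊓ (Fil (cv c) i).map g)` (`g n = n`)
`= finrank (n ⊓ (Fil (cv (ng a)) i).map r) ≤ finrank (n ⊓ Fil (cv (ng a)) i)` (`tri_dim4`), and
by `cnt4` `ip (cv c) δ ≤ ip (cv (ng a)) δ`, so `ip δ c ≤ ip δ (ng a)` (same length:
`ip (cv c) δ = ip δ c` for long, `2 ip δ c` for short `c`, as `sv δ = δ`).
All weights `d` of `v` satisfy `Eq4 (ng a) d` or `l (ng a) < l d`, so `ip δ (ng a) ≤ ip δ d`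
(`refine4`), and if `v.1 ≠ 0` then `l (ng a) < 0`, so `ip δ (ng a) ≤ 0`.  So
`g (pv c) ∈ Fil δ (ip δ c)` (`g_pv_Fil`).  For short `c`: there is a short `d` with `dg c d = 1`, and so short
`d'` with `Sm d d' c`; `g (Df c) = k⁻¹ [g (wf d), g (wf d')] ∈ Fil δ (ip δ d + ip δ d')` (`br_ww`,
`FilA_br_fil`, `sm_ip`).  `e_eq_half`; `mem_Par_of_root`.
-/

namespace Pool.Agent.H31.F4

open Pool.Agent.H33.EL (ip cc eps Rt ng zk ek fk LL hh e brf fmf br fm IsExt exl ex xr hd L0 GG T1 TT NN SF cj wt)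

variable {K : Type} [Field K]

theorem mu_sg (n : Submodule K (LL C6 K)) (a : Rt C6) : mu n (sg a) = mu n a := by
  unfold mu
  rw [sg_sg, Set.pair_comm]

theorem sv_dn (n : Submodule K (LL C6 K)) : sv (dn n) = dn n := by
  funext i
  show dn n (tau i) = dn n i
  unfold dn
  rw [Finset.sum_apply, Finset.sum_apply]
  refine Fintype.sum_equiv sgE _ _ fun a => ?_
  show ((if sg a = a then 2 else 1) * (mu n a : ℤ)) * a.1 (tau i) =
    ((if sg (sg a) = sg a then 2 else 1) * (mu n (sg a) : ℤ)) * a.1 (tau i)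
  rw [mu_sg, sg_sg]
  by_cases h : sg a = a
  · rw [if_pos h, if_pos h.symm]
  · rw [if_neg h, if_neg (Ne.symm h)]

theorem mu_eq_zero {n : Submodule K (LL C6 K)} {a : Rt C6}
    (h : ∀ x ∈ n, x ∈ Submodule.span K {e K a, e K (sg a)} → x = 0) : mu n a = 0 := by
  unfold mu
  have h1 : n ⊓ Submodule.span K {e K a, e K (sg a)} = ⊥ := by
    rw [eq_bot_iff]
    rintro x ⟨hx, hx'⟩
    exact (Submodule.mem_bot K).2 (h x hx hx')
  rw [h1, finrank_bot]

theorem mu_pos {n : Submodule K (LL C6 K)} {a : Rt C6} {x : LL C6 K} (hx : x ∈ n)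
    (hx' : x ∈ Submodule.span K {e K a, e K (sg a)}) (h0 : x ≠ 0) : 0 < mu n a := by
  unfold mu
  haveI : Nontrivial (n ⊓ Submodule.span K {e K a, e K (sg a)} : Submodule K (LL C6 K)) :=
    ⟨⟨x, ⟨hx, hx'⟩⟩, 0, fun h => h0 (congrArg Subtype.val h)⟩
  exact Module.finrank_pos

theorem pv_mem_span (a : Rt C6) : pv K a ∈ Submodule.span K {e K a, e K (sg a)} ∧
    Df K a ∈ Submodule.span K {e K a, e K (sg a)} ∧
    wf K a ∈ Submodule.span K {e K a, e K (sg a)} := by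
  have h1 : e K a ∈ Submodule.span K {e K a, e K (sg a)} :=
    Submodule.subset_span (Set.mem_insert _ _)
  have h2 : e K (sg a) ∈ Submodule.span K {e K a, e K (sg a)} :=
    Submodule.subset_span (Set.mem_insert_of_mem _ rfl)
  have h3 : wf K a ∈ Submodule.span K {e K a, e K (sg a)} := sub_mem h1 h2
  refine ⟨?_, ?_, h3⟩
  · by_cases h : sg a = a
    · rw [pv_long h]
      exact h1
    · rw [pv_short h]
      exact h3
  · by_cases h : sg a = a
    · rw [Df_long h]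
      exact h1
    · rw [Df_short h]
      exact add_mem h1 h2

/-- for a short root there are short roots with sum `c` -/
theorem short_split (H : HypW C6 K) (c : Rt C6) (hc : sg c ≠ c) :
    ∃ d d' : Rt C6, sg d ≠ d ∧ sg d' ≠ d' ∧ dg c d = 1 ∧ dg c d' = 1 ∧ Sm d d' c := by
  obtain ⟨y, hy1, hy2⟩ := H.ra c (sg c) (Or.inl (cb_self c hc))
  have hys : sg y ≠ y := by
    intro h
    have h1 : ip C6 y.1 (sg c).1 = ip C6 y.1 c.1 := by
      have h2 := ip_sv y.1 c.1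
      have h3 : sv y.1 = y.1 := congrArg Subtype.val h
      rw [h3] at h2
      exact h2
    omega
  have hcy : dg c y = 1 := by
    rw [dg_short c y hc]
    have h1 : ip C6 c.1 (sg y).1 = ip C6 y.1 (sg c).1 := by
      have h2 := ip_sv c.1 (sg y).1
      have h3 : sv (sg y).1 = y.1 := sv_sv y.1
      rw [h3] at h2
      rw [← h2, ip_comm H.symm]
      rfl
    rw [h1, ip_comm H.symm c.1 y.1]
    omega
  have hyc : dg y c = 1 := by
    rw [dg_symm y c ⟨fun h => absurd h hys, fun h => absurd h hc⟩]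
    exact hcy
  have hnE : ¬ Eq4 (ng (ng y)) c := by
    rw [ng_ng]
    rintro (h | h)
    · rw [h, dg_self] at hyc
      omega
    · rw [h, dg_sg_right, dg_self] at hyc
      omega
  obtain ⟨d', h1, h2, -⟩ := sm_of_neg (ng y) c (by rw [dg_ng_left, hyc]; norm_num) hnE
  have h3 : Sm y d' c := by
    have h4 := Sm_sub h1
    rw [ng_ng] at h4
    exact h4
  refine ⟨y, d', hys, fun h => hc (h2.1 h).2, hcy, ?_, h3⟩
  have h5 := sm_dg h3 c
  rw [dg_self, hcy] at h5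
  omega

/-- an element which maps the point vectors into the right filtration spaces is in `Par` -/
theorem mem_Par_of_pv (H : HypW C6 K) {d : Fin 6 → ℤ} (hd : sv d = d)
    {g : LL C6 K ≃ₗ[K] LL C6 K} (hg : g ∈ GF K)
    (h : ∀ c : Rt C6, g (pv K c) ∈ Fil C6 K d (ip C6 d c.1)) : g ∈ Par C6 K d := by
  have hG : g ∈ GG C6 K := GF_le_GG hg
  apply mem_Par_of_root H hG
  intro a
  by_cases ha : sg a = a
  · rw [← pv_long (K := K) ha]
    exact h a
  · have hw : ∀ b : Rt C6, sg b ≠ b → g (wf K b) ∈ Fil C6 K d (ip C6 d b.1) := by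
      intro b hb
      rw [← pv_short (K := K) hb]
      exact h b
    obtain ⟨b, b', hb, hb', -, -, hS⟩ := short_split H a ha
    obtain ⟨k, hk, h1⟩ := br_ww (K := K) H hS hb hb'
    have h2 : g (Df K a) ∈ Fil C6 K d (ip C6 d a.1) := by
      have h3 : Df K a = k⁻¹ • br (wf K b) (wf K b') := by
        rw [h1, smul_smul, inv_mul_cancel₀ hk, one_smul]
      have h4 := FilA_br_fil (hw b hb) (hw b' hb')
      rw [← sm_ip hS hd] at h4
      rw [h3, map_smul, hG.1]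
      exact Submodule.smul_mem _ _ h4
    rw [e_eq_half H ha, map_smul, map_add]
    exact Submodule.smul_mem _ _ (add_mem h2 (hw a ha))

private theorem par4_cv {d : Fin 6 → ℤ} (H : HypW C6 K) (hd : sv d = d) (c : Rt C6) :
    ip C6 (cv c) d = (if sg c = c then 1 else 2) * ip C6 d c.1 := by
  rw [ip_comm H.symm]
  unfold cv
  by_cases hc : sg c = c
  · rw [if_pos hc, if_pos hc, one_mul]
  · rw [if_neg hc, if_neg hc, ip_add_right, Lpos_ip_sg hd]
    ring

/-- the degree does not decrease -/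
private theorem par4_le (H : HypW C6 K) {n : Submodule K (LL C6 K)} (hn : Hom4 n)
    {g : LL C6 K ≃ₗ[K] LL C6 K} (hg : g ∈ GF K) (h : ∀ x, g x ∈ n ↔ x ∈ n)
    {l : (Fin 6 → ℤ) →+ ℤ} (hl : Inj4 l) (c a : Rt C6) (hlen : sg c = c ↔ sg a = a)
    (hne : (g (pv K c)).2 (ng a) ≠ 0) (hs : Sup l a (g (pv K c))) :
    ip C6 (dn n) c.1 ≤ ip C6 (dn n) (ng a).1 := by
  obtain ⟨r, hr, hv⟩ := xd4 H hg hlen hne l hl.1 hs Set.univ ⟨fun _ _ => trivial,
    fun _ _ _ _ _ _ => trivial⟩ trivial (fun d hd => absurd trivial hd)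
  have hr1 : r ∈ Gn K {y | 0 < l y.1} := by
    refine (Subgroup.closure_mono ?_ : Gn K {y | y ∈ Set.univ ∧ 0 < dg a y ∧ 0 < l y.1} ≤ _) hr
    rintro u ⟨y, hy, s, rfl⟩
    exact ⟨y, hy.2.2, s, rfl⟩
  have hrF : r ∈ GF K := Gn_le_GF H _ hr1
  have hmap : (r⁻¹ * g) (pv K c) = (g (pv K c)).2 (ng a) • pv K (ng a) := by
    show r⁻¹ (g (pv K c)) = _
    have h3 : r⁻¹ (r (pv K (ng a))) = pv K (ng a) := r.symm_apply_apply _
    conv_lhs => rw [hv]
    rw [map_smul, h3]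
  have hFil := fun i x => Fil_pv H (mul_mem (inv_mem hrF) hg) hne hmap i x
  have himg : ∀ i, (Fil C6 K (cv c) i).map (g : LL C6 K →ₗ[K] LL C6 K) =
      (Fil C6 K (cv (ng a)) i).map (r : LL C6 K →ₗ[K] LL C6 K) := by
    intro i
    ext y
    constructor
    · rintro ⟨x, hx, rfl⟩
      refine ⟨(r⁻¹ * g) x, (hFil i x).mpr hx, ?_⟩
      exact r.apply_symm_apply (g x)
    · rintro ⟨x, hx, rfl⟩
      refine ⟨g⁻¹ (r x), ?_, ?_⟩
      · show g⁻¹ (r x) ∈ Fil C6 K (cv c) i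
        rw [← hFil i]
        have h3 : (r⁻¹ * g) (g⁻¹ (r x)) = x := by
          show r⁻¹ (g (g⁻¹ (r x))) = x
          have h4 : g (g⁻¹ (r x)) = r x := g.apply_symm_apply _
          rw [h4]
          exact r.symm_apply_apply x
        rw [h3]
        exact hx
      · exact g.apply_symm_apply _
  have hdim : ∀ i : ℤ, Module.finrank K (n ⊓ Fil C6 K (cv c) i : Submodule K (LL C6 K)) ≤
      Module.finrank K (n ⊓ Fil C6 K (cv (ng a)) i : Submodule K (LL C6 K)) := by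
    intro i
    have h2 := tri_dim4 H n hn.1 (ng a) i hl hr1
    rw [← himg i] at h2
    have h3 : (n ⊓ Fil C6 K (cv c) i : Submodule K (LL C6 K)).map
        (g : LL C6 K →ₗ[K] LL C6 K) = n ⊓ (Fil C6 K (cv c) i).map (g : LL C6 K →ₗ[K] LL C6 K) := by
      ext y
      constructor
      · rintro ⟨x, ⟨hx1, hx2⟩, rfl⟩
        exact ⟨(h x).mpr hx1, ⟨x, hx2, rfl⟩⟩
      · rintro ⟨hy, ⟨x, hx, rfl⟩⟩
        exact ⟨x, ⟨(h x).mp hy, hx⟩, rfl⟩
    have h4 := LinearEquiv.finrank_map_eq g (n ⊓ Fil C6 K (cv c) i : Submodule K (LL C6 K))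
    rw [h3] at h4
    rw [← h4]
    exact h2
  have h1 := cnt4 H n hn.1 c
  have h2 := cnt4 H n hn.1 (ng a)
  have h3 : ∑ i ∈ ({-1, 0, 1, 2} : Finset ℤ),
        (Module.finrank K (n ⊓ Fil C6 K (cv c) i : Submodule K (LL C6 K)) : ℤ) ≤
      ∑ i ∈ ({-1, 0, 1, 2} : Finset ℤ),
        (Module.finrank K (n ⊓ Fil C6 K (cv (ng a)) i : Submodule K (LL C6 K)) : ℤ) :=
    Finset.sum_le_sum fun i _ => by exact_mod_cast hdim i
  have h4 : ip C6 (cv c) (dn n) ≤ ip C6 (cv (ng a)) (dn n) := by linarith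
  rw [par4_cv H (sv_dn n), par4_cv H (sv_dn n)] at h4
  by_cases hc : sg c = c
  · have ha : sg (ng a) = ng a := (sg_ng_iff a).2 (hlen.1 hc)
    rw [if_pos hc, if_pos ha] at h4
    omega
  · have ha : ¬ sg (ng a) = ng a := fun h5 => hc (hlen.2 ((sg_ng_iff a).1 h5))
    rw [if_neg hc, if_neg ha] at h4
    omega

theorem inv_Par4 (H : HypW C6 K) {n : Submodule K (LL C6 K)} (hn : Hom4 n)
    {g : LL C6 K ≃ₗ[K] LL C6 K} (hg : g ∈ GF K) (h : ∀ x, g x ∈ n ↔ x ∈ n) :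
    g ∈ Par C6 K (dn n) := by
  apply mem_Par_of_pv H (sv_dn n) hg
  intro c
  obtain ⟨l, hl, hmono, hpos⟩ := refine4 (dn n) (sv_dn n)
  obtain ⟨a, hlen, hne, hs⟩ := min4 H hg c hl
  have hle := par4_le H hn hg h hl c a hlen hne hs
  refine ⟨fun d hd => ?_, fun hp => ?_⟩
  · by_contra hcon
    rcases hs.1 d hcon with h1 | h1
    · have h2 : ip C6 (dn n) d.1 = ip C6 (dn n) (ng a).1 := by
        rcases h1 with h1 | h1
        · rw [h1]
        · rw [h1, Lpos_ip_sg (sv_dn n)]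
      omega
    · have h2 := hmono d (ng a) (by omega)
      omega
  · by_contra hcon
    have h1 := hs.2 hcon
    have h2 := hpos (ng a) (by omega)
    omega

end Pool.Agent.H31.F4
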