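import Pool.Agent.H31.F4.CCi4
import Pool.Agent.H31.F4.CtxA
import Pool.Agent.H31.F4.Par4
import Pool.Agent.H33.EL.GrpT
import Pool.Agent.H33.EL.CCj

/-!
# FF-73: Proposition C, case 2 (adapt EL/CCj.lean)

`PZ4 F = S6 a b c`.  By `mZ4_inv` and `conj_or_graph4` every `f ∈ F` is of type `Cj4` or `Aj4`.
`F+ = {f ∈ F : ∃ g, Cj4 g f}` is a subgroup, normal in `F`, contains `T4` (`J4_T4`), so `F+ = F` (`no_normal4`).
`Γ = {g : ∃ f ∈ F, Cj4 g f}` is a subgroup of `GL_3(K)`.  It contains all diagonal matrices (`T4_surj2` for `a`, `b`; `J4_T4`).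
`mono_iff`: if `Cj4 g f`, `f ∈ F`: `f ∈ NN` implies `Mono g`: `f` maps each `Df d`, `d ∈ S6`, to a multiple of some `Df d'` (`NN4_perm`,
`PZ4_perm`), so `g E_ij g⁻¹` is a multiple of a matrix unit for all `i ≠ j` (`J4_root`, `J4_unit`, `J4_inj`).  Conversely `Mono g`
implies that `f` permutes the lines `K Df d`, so `f ∈ NN` (`mem_NN_lines4`).
(F1) Let `j : Fin 3`, `F_j = {f ∈ F : ∃ g, Cj4 g f ∧ g fixes the point [e_j]}`, a subgroup which contains `T4`.  If `F_j = F`: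
`f ∈ F` maps `V_j = {J4 (x) : x has only row j, x_jj = 0}` to itself, `V_j = K Df u + K Df v` with
`(u,v) = (a,c), (ng a, b), (ng c, ng b)` for `j = 0,1,2`, `dg u v = 1`.  By `par_line4`
`F ≤ Par (cv u + cv v)`, by `fp4` `hd (cv u + cv v) x ∈ Z4` for all `x`, so its weight `x^(dg u u + dg v u) = x^3` at `u ∈ PZ4 F` is 1 for all
`x ≠ 0`, contradiction to `|K^*| ≥ 6`.  So `F_j ≠ F`, `F_j ≤ NN` (`hmin`), and for `g ∈ Γ` fixing `[e_j]`: `Mono g`.
(F3) Let `g ∈ Γ`, `Cj4 g f`, `d` diagonal not scalar, `g⁻¹ d g` diagonal, `t ∈ T4` with `Cj4 d t`.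
`t ∉ Z4` (a weight `d_i/d_j ≠ 1` at a root in `PZ4 F`).  `s = f⁻¹ t f` is `Cj4 (g⁻¹ d g)`, so it maps
each `Df d`, `d ∈ PZ4 F`, to a multiple of itself, `s ∈ NN` (`mem_NN_lines4`).  Suppose `f ∉ NN`; then `f⁻¹ ∉ NN`.
For `t' ∈ T4`: `t' s t'⁻¹ s⁻¹ ∈ T4` (`comm_mem4`) has weight 1 at all `u ∈ PZ4 F`
(`wt_conj4`), so it is in `Z4` (`t0_4`); by `c3a_4` (`x = f⁻¹`, `s := t`) `f t' f⁻¹ ∈ NN` for all
`t' ∈ T4`, contradiction to `c3b_4` for `x = f⁻¹`.  So `f ∈ NN` and `Mono g`.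
`plane` gives: all `g ∈ Γ` are monomial, so `F ≤ NN`: contradiction.
`par_line4`: `n = span {Df u, Df v}`; `Hom4 n` (`T4_Df`, `Sg (Df u) = Df u`); `f x ∈ n ↔ x ∈ n` (dimension); `mu n d = 1` for `d` in
`{u, sg u, v, sg v}` and 0 otherwise (`u, v` not `Eq4`), so `dn n = u + sg u + v + sg v = cv u + cv v`; `inv_Par4`.
-/

namespace Pool.Agent.H31.F4

open Pool.Agent.H33.EL (ip cc eps Rt ng zk ek fk LL hh e brf fmf br fm IsExt exl ex xr hd L0 GG T1 TT NN SF cj wt)

variable {K : Type} [Field K]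

variable {F : Subgroup (LL C6 K ≃ₗ[K] LL C6 K)} {a b c : Rt C6}

theorem CCj4_rfl (u : Rt C6) : Eq4 u u := Or.inl rfl

theorem CCj4_snd {a d : Rt C6} {x : LL C6 K} (hx : x ∈ Submodule.span K {e K a, e K (sg a)})
    (hd : ¬ Eq4 a d) : x.2 d = 0 := by
  obtain ⟨α, β, rfl⟩ := Submodule.mem_span_pair.1 hx
  have h1 : d ≠ a := fun h => hd (Or.inl h)
  have h2 : d ≠ sg a := fun h => hd (Or.inr h)
  show α * (e K a).2 d + β * (e K (sg a)).2 d = 0
  rw [SigB_e_snd, SigB_e_snd, if_neg h1, if_neg h2, mul_zero, mul_zero, add_zero]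

theorem CCj4_n_snd (u v d : Rt C6) (α β : K) :
    (α • Df K u + β • Df K v).2 d =
      α * (if Eq4 u d then 1 else 0) + β * (if Eq4 v d then 1 else 0) := by
  show α * (Df K u).2 d + β * (Df K v).2 d = _
  rw [Df_snd, Df_snd]

theorem CCj4_mu_one {u v a : Rt C6} (huv : ¬ Eq4 u v) (ha : Eq4 u a) :
    mu (Submodule.span K {Df K u, Df K v}) a = 1 := by
  have hva : ¬ Eq4 a v := by
    intro h
    apply huv
    rcases ha with rfl | rfl
    · exact h
    · rcases h with h | h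
      · exact Or.inr h
      · rw [sg_sg] at h
        exact Or.inl h
  have hDa : Df K u = Df K a := by
    rcases ha with rfl | rfl
    · rfl
    · rw [Df_sg]
  have h1 : Submodule.span K {Df K u, Df K v} ⊓ Submodule.span K {e K a, e K (sg a)} =
      Submodule.span K {Df K u} := by
    apply le_antisymm
    · rintro x ⟨hx1, hx2⟩
      obtain ⟨α, β, rfl⟩ := Submodule.mem_span_pair.1 hx1
      have h2 := CCj4_snd hx2 hva
      rw [CCj4_n_snd, if_neg huv, if_pos (CCj4_rfl v), mul_zero, zero_add, mul_one] at h2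
      rw [h2, zero_smul, add_zero]
      exact Submodule.smul_mem _ _ (Submodule.mem_span_singleton_self _)
    · rw [Submodule.span_singleton_le_iff_mem]
      refine ⟨Submodule.subset_span (Set.mem_insert _ _), ?_⟩
      rw [hDa]
      exact (pv_mem_span a).2.1
  unfold mu
  rw [h1, finrank_span_singleton (Df_ne_zero u)]

theorem CCj4_mu {u v : Rt C6} (huv : ¬ Eq4 u v) (a : Rt C6) :
    (mu (Submodule.span K {Df K u, Df K v}) a : ℤ) =
      (if Eq4 u a then 1 else 0) + (if Eq4 v a then 1 else 0) := by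
  by_cases hu : Eq4 u a
  · have hv : ¬ Eq4 v a := by
      intro hv
      apply huv
      rw [Eq4_iff] at hu hv ⊢
      rw [hu, hv]
    rw [CCj4_mu_one huv hu, if_pos hu, if_neg hv]
    rfl
  · by_cases hv : Eq4 v a
    · have hvu : ¬ Eq4 v u := fun h => huv (Eq4_symm h)
      rw [Set.pair_comm, CCj4_mu_one hvu hv, if_neg hu, if_pos hv]
      rfl
    · rw [if_neg hu, if_neg hv, mu_eq_zero]
      · rfl
      · intro x hx1 hx2
        obtain ⟨α, β, rfl⟩ := Submodule.mem_span_pair.1 hx1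
        have h1 := CCj4_snd hx2 (fun h => hu (Eq4_symm h))
        have h2 := CCj4_snd hx2 (fun h => hv (Eq4_symm h))
        rw [CCj4_n_snd, if_pos (CCj4_rfl u), if_neg (fun h => huv (Eq4_symm h)), mul_one,
          mul_zero, add_zero] at h1
        rw [CCj4_n_snd, if_neg huv, if_pos (CCj4_rfl v), mul_one, mul_zero, zero_add] at h2
        rw [h1, h2, zero_smul, zero_smul, add_zero]

theorem CCj4_sum {u : Rt C6} (hu : sg u ≠ u) :
    ∑ a : Rt C6, (if Eq4 u a then a.1 else 0) = cv u := by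
  have h1 : ∀ a : Rt C6, (if Eq4 u a then a.1 else 0 : Fin 6 → ℤ) =
      (if a = u then a.1 else 0) + (if a = sg u then a.1 else 0) := by
    intro a
    by_cases h1 : a = u
    · have h2 : a ≠ sg u := fun h => hu (by rw [← h, h1])
      rw [if_pos h1, if_neg h2, if_pos (show Eq4 u a from Or.inl h1), add_zero]
    · by_cases h2 : a = sg u
      · rw [if_neg h1, if_pos h2, if_pos (show Eq4 u a from Or.inr h2), zero_add]
      · have h3 : ¬ Eq4 u a := by
          rintro (h | h)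
          · exact h1 h
          · exact h2 h
        rw [if_neg h1, if_neg h2, if_neg h3, add_zero]
  rw [Finset.sum_congr rfl fun a _ => h1 a, Finset.sum_add_distrib, Finset.sum_ite_eq',
    Finset.sum_ite_eq', if_pos (Finset.mem_univ _), if_pos (Finset.mem_univ _)]
  unfold cv
  rw [if_neg hu]

theorem CCj4_dn {u v : Rt C6} (hu : sg u ≠ u) (hv : sg v ≠ v) (huv : ¬ Eq4 u v) :
    dn (Submodule.span K {Df K u, Df K v}) = cv u + cv v := by
  unfold dn
  rw [← CCj4_sum hu, ← CCj4_sum hv, ← Finset.sum_add_distrib]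
  refine Finset.sum_congr rfl fun a _ => ?_
  rw [CCj4_mu huv]
  by_cases h1 : Eq4 u a
  · have h3 : ¬ sg a = a := fun h => hu ((Eq4_len h1).2 h)
    rw [if_neg h3, if_pos h1, if_pos h1]
    by_cases h2 : Eq4 v a
    · exfalso
      apply huv
      rw [Eq4_iff] at h1 h2 ⊢
      rw [h1, h2]
    · rw [if_neg h2, if_neg h2, add_zero, add_zero, one_mul, one_smul]
  · rw [if_neg h1, if_neg h1]
    by_cases h2 : Eq4 v a
    · have h3 : ¬ sg a = a := fun h => hv ((Eq4_len h2).2 h)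
      rw [if_neg h3, if_pos h2, if_pos h2, zero_add, zero_add, one_mul, one_smul]
    · rw [if_neg h2, if_neg h2, add_zero, add_zero, mul_zero, zero_smul]

theorem par_line4 (H : HypW C6 K) {u v : Rt C6} (hu : sg u ≠ u) (hv : sg v ≠ v)
    (huv : dg u v = 1) {f : LL C6 K ≃ₗ[K] LL C6 K} (hf : f ∈ GF K)
    (h1 : f (Df K u) ∈ Submodule.span K {Df K u, Df K v})
    (h2 : f (Df K v) ∈ Submodule.span K {Df K u, Df K v}) : f ∈ Par C6 K (cv u + cv v) := by
  have hne : ¬ Eq4 u v := by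
    rintro (h | h)
    · rw [h, dg_self] at huv
      omega
    · rw [h, dg_sg_right, dg_self] at huv
      omega
  obtain ⟨n, hn⟩ : ∃ n : Submodule K (LL C6 K), n = Submodule.span K {Df K u, Df K v} := ⟨_, rfl⟩
  have hT : ∀ x : LL C6 K, x ∈ n → x ∈ Submodule.span K {Df K u, Df K v} := fun x hx => hn ▸ hx
  have hmap : n.map (f : LL C6 K ≃ₗ[K] LL C6 K).toLinearMap = n := by
    apply Submodule.eq_of_le_of_finrank_eq
    · rintro _ ⟨x, hx, rfl⟩
      obtain ⟨α, β, rfl⟩ := Submodule.mem_span_pair.1 (hT x hx)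
      show f (α • Df K u + β • Df K v) ∈ n
      rw [hn, map_add, map_smul, map_smul]
      exact Submodule.add_mem _ (Submodule.smul_mem _ _ h1) (Submodule.smul_mem _ _ h2)
    · exact LinearEquiv.finrank_map_eq _ _
  have hHom : Hom4 n := by
    constructor
    · intro t ht x hx
      obtain ⟨α, β, rfl⟩ := Submodule.mem_span_pair.1 (hT x hx)
      rw [hn, map_add, map_smul, map_smul, (T4_Df H ht u).1, (T4_Df H ht v).1]
      exact Submodule.add_mem _ (Submodule.smul_mem _ _ (Submodule.smul_mem _ _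
        (Submodule.subset_span (Set.mem_insert _ _)))) (Submodule.smul_mem _ _
        (Submodule.smul_mem _ _ (Submodule.subset_span (Set.mem_insert_of_mem _ rfl))))
    · intro x hx
      obtain ⟨α, β, rfl⟩ := Submodule.mem_span_pair.1 (hT x hx)
      rw [map_add, map_smul, map_smul, (mem_LF _).1 (Df_mem u), (mem_LF _).1 (Df_mem v)]
      exact hx
  have key := inv_Par4 H hHom hf (fun x => by
    constructor
    · intro hx
      rw [← hmap] at hx
      obtain ⟨y, hy, hyx⟩ := hx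
      have h5 : y = x := f.injective hyx
      rw [← h5]
      exact hy
    · intro hx
      rw [← hmap]
      exact ⟨x, hx, rfl⟩)
  rw [hn, CCj4_dn hu hv hne] at key
  exact key

theorem CCj4_mono (H : HypW C6 K) (X : Ctx4 F) (T : Tri a b c)
    (h : PZ4 F = S6 a b c) {g : (Matrix (Fin 3) (Fin 3) K)ˣ}
    {f : LL C6 K ≃ₗ[K] LL C6 K} (hf : f ∈ F) (hfN : f ∈ NN C6 K) (hg : Cj4 a b c g f) :
    Pool.Agent.H33.EL.Mono (g : Matrix (Fin 3) (Fin 3) K) := by
  obtain ⟨w, k, hk, -, -, -, hw, -, -, -, -, -⟩ := NN4_perm H hfN (X.hF hf)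
  intro j
  obtain ⟨k', hk'⟩ : ∃ k' : Fin 3, k' ≠ j := exists_ne j
  obtain ⟨d, hd, κ, hκ, hJ⟩ := J4_unit (K := K) H T (Ne.symm hk')
  have hwd : w d ∈ S6 a b c := by
    rw [← h] at hd ⊢
    exact (PZ4_perm H X hf (hw d)).mp hd
  obtain ⟨i', j', κ', hij', hκ', hR⟩ := J4_root (K := K) H T hwd
  have h1 : f (J4 K a b c (Matrix.single j k' 1)) =
      J4 K a b c ((κ * (k d * κ')) • Matrix.single i' j' 1) := by
    rw [hJ, map_smul, hw, hR, map_smul, smul_smul, smul_smul, mul_assoc]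
  have h2 := hg (Matrix.single j k' 1) (Matrix.trace_single_eq_of_ne _ _ _ (Ne.symm hk'))
  rw [h1] at h2
  have h3 : (κ * (k d * κ')) • Matrix.single i' j' 1 - (g : Matrix (Fin 3) (Fin 3) K) *
      Matrix.single j k' 1 * ((g⁻¹ : (Matrix (Fin 3) (Fin 3) K)ˣ) :
        Matrix (Fin 3) (Fin 3) K) = 0 := by
    refine J4_inj H T ?_ ?_
    · rw [Matrix.trace_sub, Matrix.trace_smul, Matrix.trace_units_conj,
        Matrix.trace_single_eq_of_ne _ _ _ (Ne.symm hk'), Matrix.trace_single_eq_of_ne _ _ _ hij',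
        smul_zero, sub_zero]
    · rw [map_sub, h2, sub_self]
  have h4 : (g : Matrix (Fin 3) (Fin 3) K) * Matrix.single j k' 1 =
      (κ * (k d * κ')) • Matrix.single i' j' 1 * (g : Matrix (Fin 3) (Fin 3) K) := by
    rw [sub_eq_zero.mp h3, mul_assoc, Units.inv_mul, mul_one]
  refine ⟨i', fun q hq => ?_⟩
  have h5 := congrFun (congrFun h4 q) k'
  rw [Matrix.mul_single_apply_same, mul_one, Matrix.smul_mul, Matrix.smul_apply,
    Matrix.single_mul_apply_of_ne _ _ _ _ _ hq, smul_zero] at h5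
  exact h5

theorem CCj4_hm (H : HypW C6 K) (X : Ctx4 F) (h : PZ4 F = S6 a b c)
    {f : LL C6 K ≃ₗ[K] LL C6 K} (hf : f ∈ F) :
    ∀ x : LL C6 K, x ∈ UR K (S6 a b c) → f x ∈ UR K (S6 a b c) := by
  intro x hx
  rw [← h] at hx ⊢
  exact mZ4_inv H X hf hx

theorem CCj4_NN (H : HypW C6 K) (X : Ctx4 F) (T : Tri a b c)
    (h : PZ4 F = S6 a b c) {g : (Matrix (Fin 3) (Fin 3) K)ˣ}
    {f : LL C6 K ≃ₗ[K] LL C6 K} (hf : f ∈ F) (hg : Cj4 a b c g f)
    (hm : Pool.Agent.H33.EL.Mono (g : Matrix (Fin 3) (Fin 3) K)) : f ∈ NN C6 K := by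
  refine mem_NN_lines4 H X hf fun b' hb' => ?_
  rw [h] at hb' ⊢
  obtain ⟨π, hπb, hπ⟩ := Pool.Agent.H33.EL.CCj_perm hm
  obtain ⟨i, j, κ, hij, hκ, hR⟩ := J4_root (K := K) H T hb'
  obtain ⟨l, rfl⟩ := hπb.2 i
  obtain ⟨m, rfl⟩ := hπb.2 j
  have hlm : l ≠ m := fun h => hij (by rw [h])
  obtain ⟨d, hd, κ', hκ', hJ⟩ := J4_unit (K := K) H T hlm
  obtain ⟨ν, hν⟩ := Pool.Agent.H33.EL.CCj_perm_conj hπb.1 hπ l m
  have h1 := hg (Matrix.single l m 1) (Matrix.trace_single_eq_of_ne _ _ _ hlm)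
  rw [hν, hJ, map_smul, map_smul] at h1
  refine ⟨d, hd, κ'⁻¹ * (ν * κ⁻¹), ?_⟩
  have h2 : f (Df K d) = κ'⁻¹ • ν • J4 K a b c (Matrix.single (π l) (π m) 1) := by
    rw [← h1, smul_smul, inv_mul_cancel₀ hκ', one_smul]
  rw [h2, hR, smul_smul, smul_smul, mul_assoc, mul_assoc, inv_mul_cancel₀ hκ, mul_one]

theorem CCj4_diag_T4 (H : HypW C6 K) (T : Tri a b c)
    {g : (Matrix (Fin 3) (Fin 3) K)ˣ} (hg : (g : Matrix (Fin 3) (Fin 3) K).IsDiag) :
    ∃ t ∈ T4 K, Cj4 a b c g t := by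
  have h0 := Pool.Agent.H33.EL.CCj_diag_ne hg 0
  have h1 := Pool.Agent.H33.EL.CCj_diag_ne hg 1
  have h2 := Pool.Agent.H33.EL.CCj_diag_ne hg 2
  obtain ⟨t, ht, hta, htb⟩ := T4_surj2 H T.sa T.sb T.dab
    (div_ne_zero h0 h1) (div_ne_zero h1 h2)
  refine ⟨t, ht, J4_T4 H T ht hg ?_ ?_⟩
  · rw [hta, div_mul_cancel₀ _ h1]
  · rw [htb, div_mul_cancel₀ _ h2]

theorem CCj4_T4_diag (H : HypW C6 K) (T : Tri a b c)
    {t : LL C6 K ≃ₗ[K] LL C6 K} (ht : t ∈ T4 K) :
    ∃ g : (Matrix (Fin 3) (Fin 3) K)ˣ, (g : Matrix (Fin 3) (Fin 3) K).IsDiag ∧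
      Cj4 a b c g t := by
  have hT := T4_le_TT H ht
  have ha := wt_ne_zero H hT a
  have hb := wt_ne_zero H hT b
  obtain ⟨g, hg⟩ := Pool.Agent.H33.EL.CCj_unit (K := K) ![wt t a * wt t b, wt t b, 1] (by
    intro i
    fin_cases i
    · exact mul_ne_zero ha hb
    · exact hb
    · exact one_ne_zero)
  have hgd : (g : Matrix (Fin 3) (Fin 3) K).IsDiag := by
    rw [hg]
    exact Matrix.isDiag_diagonal _
  refine ⟨g, hgd, J4_T4 H T ht hgd ?_ ?_⟩
  · rw [hg]
    simp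
  · rw [hg]
    simp

/-- all elements of `F` are of conjugation type -/
theorem CCj4_all (H : HypW C6 K) (X : Ctx4 F) (T : Tri a b c)
    (h : PZ4 F = S6 a b c) :
    ∀ f ∈ F, ∃ g, Cj4 a b c g f := by
  obtain ⟨Fp, hFp⟩ : ∃ Fp : Subgroup (LL C6 K ≃ₗ[K] LL C6 K), ∀ f, f ∈ Fp ↔
      f ∈ F ∧ ∃ g, Cj4 a b c g f := by
    refine ⟨{ carrier := {f | f ∈ F ∧ ∃ g, Cj4 a b c g f}
              one_mem' := ⟨one_mem _, 1, Cj4_one⟩
              mul_mem' := ?_
              inv_mem' := ?_ }, fun f => Iff.rfl⟩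
    · rintro f f' ⟨hf, g, hg⟩ ⟨hf', g', hg'⟩
      exact ⟨mul_mem hf hf', g * g', Cj4_mul hg hg'⟩
    · rintro f ⟨hf, g, hg⟩
      exact ⟨inv_mem hf, g⁻¹, Cj4_inv hg⟩
  have h1 : Fp = F := by
    apply no_normal4 H X
    · intro f hf
      exact ((hFp f).mp hf).1
    · intro t ht
      obtain ⟨g, -, hg⟩ := CCj4_T4_diag H T ht
      exact (hFp t).mpr ⟨X.hT ht, g, hg⟩
    · intro f hf u hu
      obtain ⟨hu, g', hg'⟩ := (hFp u).mp hu
      refine (hFp _).mpr ⟨mul_mem (mul_mem hf hu) (inv_mem hf), ?_⟩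
      rcases conj_or_graph4 H T (X.hF hf) (CCj4_hm H X h hf) with ⟨g, hg⟩ | ⟨g, hg⟩
      · exact ⟨g * g' * g⁻¹, Cj4_mul (Cj4_mul hg hg') (Cj4_inv hg)⟩
      · obtain ⟨g1, hg1⟩ := Aj4_Cj4 hg hg'
        obtain ⟨g2, hg2⟩ := Aj4_inv hg
        exact Aj4_Aj4 hg1 hg2
  intro f hf
  rw [← h1] at hf
  exact ((hFp f).mp hf).2

/-- step (F1) -/
theorem CCj4_F1 (H : HypW C6 K) {p : ℕ} [Fact p.Prime] [CharP K p] (X : Ctx4 F)
    (T : Tri a b c) (h : PZ4 F = S6 a b c) {j k k' : Fin 3}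
    (hjk : j ≠ k) (hjk' : j ≠ k') (hkk' : k ≠ k') {u v : Rt C6} (huP : u ∈ PZ4 F)
    (hus : sg u ≠ u) (hvs : sg v ≠ v)
    (huv : dg u v = 1) {κ κ' : K} (hκ : κ ≠ 0) (hκ' : κ' ≠ 0)
    (hu : J4 K a b c (Matrix.single j k 1) = κ • Df K u)
    (hv : J4 K a b c (Matrix.single j k' 1) = κ' • Df K v)
    {g : (Matrix (Fin 3) (Fin 3) K)ˣ} {f : LL C6 K ≃ₗ[K] LL C6 K} (hf : f ∈ F)
    (hg : Cj4 a b c g f) (hgj : ∀ i, i ≠ j → (g : Matrix (Fin 3) (Fin 3) K) i j = 0) :
    Pool.Agent.H33.EL.Mono (g : Matrix (Fin 3) (Fin 3) K) := by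
  obtain ⟨Fj, hFj⟩ : ∃ Fj : Subgroup (LL C6 K ≃ₗ[K] LL C6 K), ∀ f, f ∈ Fj ↔
      f ∈ F ∧ ∃ g : (Matrix (Fin 3) (Fin 3) K)ˣ, Cj4 a b c g f ∧
        ∀ i, i ≠ j → (g : Matrix (Fin 3) (Fin 3) K) i j = 0 := by
    refine ⟨{ carrier := {f | f ∈ F ∧ ∃ g : (Matrix (Fin 3) (Fin 3) K)ˣ, Cj4 a b c g f ∧
                ∀ i, i ≠ j → (g : Matrix (Fin 3) (Fin 3) K) i j = 0}
              one_mem' := ⟨one_mem _, 1, Cj4_one, fun i hi => Matrix.one_apply_ne hi⟩
              mul_mem' := ?_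
              inv_mem' := ?_ }, fun f => Iff.rfl⟩
    · rintro f f' ⟨hf, g, hg, h1⟩ ⟨hf', g', hg', h1'⟩
      refine ⟨mul_mem hf hf', g * g', Cj4_mul hg hg', fun i hi => ?_⟩
      rw [Units.val_mul, Matrix.mul_apply, Finset.sum_eq_single j]
      · rw [h1 i hi, zero_mul]
      · intro q _ hq
        rw [h1' q hq, mul_zero]
      · intro hj
        exact absurd (Finset.mem_univ j) hj
    · rintro f ⟨hf, g, hg, h1⟩
      refine ⟨inv_mem hf, g⁻¹, Cj4_inv hg, fun i hi => ?_⟩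
      have h2 : (((g⁻¹ : (Matrix (Fin 3) (Fin 3) K)ˣ) : Matrix (Fin 3) (Fin 3) K) *
          (g : Matrix (Fin 3) (Fin 3) K)) i j = 0 := by
        rw [Units.inv_mul, Matrix.one_apply_ne hi]
      rw [Matrix.mul_apply, Finset.sum_eq_single j] at h2
      · exact (mul_eq_zero.mp h2).resolve_right (Pool.Agent.H33.EL.CCj_col h1)
      · intro q _ hq
        rw [h1 q hq, mul_zero]
      · intro hj
        exact absurd (Finset.mem_univ j) hj
  have hle : Fj ≤ F := fun f hf => ((hFj f).mp hf).1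
  have hT : T4 K ≤ Fj := by
    intro t ht
    obtain ⟨g, hgd, hg⟩ := CCj4_T4_diag H T ht
    exact (hFj t).mpr ⟨X.hT ht, g, hg, fun i hi => hgd hi⟩
  by_cases hFF : Fj = F
  · exfalso
    have key : F ≤ Par C6 K (cv u + cv v) := by
      intro f hf
      rw [← hFF] at hf
      obtain ⟨hf, g, hg, h1⟩ := (hFj f).mp hf
      have key2 : ∀ q : Fin 3, j ≠ q →
          f (J4 K a b c (Matrix.single j q 1)) ∈ Submodule.span K {Df K u, Df K v} := by
        intro q hq
        rw [hg _ (Matrix.trace_single_eq_of_ne _ _ _ hq)]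
        obtain ⟨P, hP⟩ : ∃ P : Matrix (Fin 3) (Fin 3) K, P = (g : Matrix (Fin 3) (Fin 3) K) *
          Matrix.single j q 1 * ((g⁻¹ : (Matrix (Fin 3) (Fin 3) K)ˣ) :
            Matrix (Fin 3) (Fin 3) K) := ⟨_, rfl⟩
        rw [← hP]
        have h2 : ∀ i m, i ≠ j → P i m = 0 := by
          intro i m hi
          rw [hP, mul_assoc, Matrix.mul_apply, Finset.sum_eq_single j]
          · rw [h1 i hi, zero_mul]
          · intro r _ hr
            rw [Matrix.single_mul_apply_of_ne _ _ _ _ _ hr, mul_zero]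
          · intro hj
            exact absurd (Finset.mem_univ j) hj
        have h3 : P j j = 0 := by
          have h4 : P.trace = 0 := by
            rw [hP, Matrix.trace_units_conj, Matrix.trace_single_eq_of_ne _ _ _ hq]
          rw [Matrix.trace, Finset.sum_eq_single j] at h4
          · exact h4
          · intro r _ hr
            exact h2 r r hr
          · intro hj
            exact absurd (Finset.mem_univ j) hj
        have h5 : P = P j k • Matrix.single j k 1 + P j k' • Matrix.single j k' 1 := by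
          ext i m
          rw [Matrix.add_apply, Matrix.smul_apply, Matrix.smul_apply]
          by_cases hi : i = j
          · subst hi
            have h6 : m = i ∨ m = k ∨ m = k' := by omega
            rcases h6 with rfl | rfl | rfl
            · rw [h3]
              simp [Matrix.single, hjk.symm, hjk'.symm]
            · simp [Matrix.single, hkk'.symm]
            · simp [Matrix.single, hkk']
          · rw [h2 i m hi]
            simp [Matrix.single, Ne.symm hi]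
        rw [h5, map_add, map_smul, map_smul, hu, hv]
        refine Submodule.add_mem _ (Submodule.smul_mem _ _ (Submodule.smul_mem _ _
          (Submodule.subset_span (by simp)))) (Submodule.smul_mem _ _ (Submodule.smul_mem _ _
          (Submodule.subset_span (by simp))))
      refine par_line4 H hus hvs huv (X.hF hf) ?_ ?_
      · have h2 : f (Df K u) = κ⁻¹ • f (J4 K a b c (Matrix.single j k 1)) := by
          rw [hu, map_smul, smul_smul, inv_mul_cancel₀ hκ, one_smul]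
        rw [h2]
        exact Submodule.smul_mem _ _ (key2 k hjk)
      · have h2 : f (Df K v) = κ'⁻¹ • f (J4 K a b c (Matrix.single j k' 1)) := by
          rw [hv, map_smul, smul_smul, inv_mul_cancel₀ hκ', one_smul]
        rw [h2]
        exact Submodule.smul_mem _ _ (key2 k' hjk')
    have hsv : sv (cv u + cv v) = cv u + cv v := by
      have h3 : sv (cv u + cv v) = sv (cv u) + sv (cv v) := rfl
      rw [h3, sv_cv, sv_cv]
    have hvu : dg v u = 1 := by
      rw [← dg_symm u v ⟨fun h => absurd h hus, fun h => absurd h hvs⟩]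
      exact huv
    have h3 : ∀ x : Kˣ, x ^ 3 = 1 := by
      intro x
      have h4 := fp4 H (p := p) X hsv key x
      have h5 := huP _ h4
      have h7 : ip C6 (cv u) u.1 = 2 := dg_self u
      have h8 : ip C6 (cv v) u.1 = 1 := hvu
      rw [wt_hd, ip_add_left, h7, h8] at h5
      have h6 : x ^ (2 + 1 : ℤ) = 1 := Units.ext h5
      exact_mod_cast h6
    have _ : Finite K := by
      apply Nat.finite_of_card_ne_zero
      rcases H.card with h | h | h <;> omega
    obtain ⟨γ, hγ⟩ := IsCyclic.exists_generator (α := Kˣ)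
    have h4 := orderOf_eq_card_of_forall_mem_zpowers hγ
    have h5 := Nat.le_of_dvd (by norm_num) (orderOf_dvd_of_pow_eq_one (h3 γ))
    rw [h4, Nat.card_units] at h5
    rcases H.card with h | h | h <;> omega
  · exact CCj4_mono H X T h hf (X.hmin Fj hle hT hFF ((hFj f).mpr ⟨hf, g, hg, hgj⟩)) hg

/-- step (F3) -/
theorem CCj4_F3 (H : HypW C6 K) (X : Ctx4 F) (T : Tri a b c) (h : PZ4 F = S6 a b c)
    {g : (Matrix (Fin 3) (Fin 3) K)ˣ} {f : LL C6 K ≃ₗ[K] LL C6 K} (hf : f ∈ F)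
    (hg : Cj4 a b c g f) {d : (Matrix (Fin 3) (Fin 3) K)ˣ}
    (hd : (d : Matrix (Fin 3) (Fin 3) K).IsDiag) {i j : Fin 3}
    (hij : (d : Matrix (Fin 3) (Fin 3) K) i i ≠ (d : Matrix (Fin 3) (Fin 3) K) j j)
    (hd' : ((g⁻¹ * d * g : (Matrix (Fin 3) (Fin 3) K)ˣ) : Matrix (Fin 3) (Fin 3) K).IsDiag) :
    f ∈ NN C6 K := by
  have hdc : ∀ (d : (Matrix (Fin 3) (Fin 3) K)ˣ), (d : Matrix (Fin 3) (Fin 3) K).IsDiag →
      ∀ i j : Fin 3, (d : Matrix (Fin 3) (Fin 3) K) * Matrix.single i j 1 *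
        ((d⁻¹ : (Matrix (Fin 3) (Fin 3) K)ˣ) : Matrix (Fin 3) (Fin 3) K) =
        ((d : Matrix (Fin 3) (Fin 3) K) i i / (d : Matrix (Fin 3) (Fin 3) K) j j) •
          Matrix.single i j 1 := by
    intro d hd i j
    apply Pool.Agent.H33.EL.CCj_conj
    ext r m
    rw [Matrix.smul_mul, Matrix.smul_apply, smul_eq_mul]
    by_cases hm : m = j
    · subst hm
      rw [Matrix.mul_single_apply_same, mul_one]
      by_cases hr : r = i
      · subst hr
        rw [Matrix.single_mul_apply_same, one_mul,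
          div_mul_cancel₀ _ (Pool.Agent.H33.EL.CCj_diag_ne hd m)]
      · rw [Matrix.single_mul_apply_of_ne _ _ _ _ _ hr, mul_zero, hd hr]
    · rw [Matrix.mul_single_apply_of_ne _ _ _ _ _ hm]
      by_cases hr : r = i
      · subst hr
        rw [Matrix.single_mul_apply_same, hd (Ne.symm hm), mul_zero, mul_zero]
      · rw [Matrix.single_mul_apply_of_ne _ _ _ _ _ hr, mul_zero]
  obtain ⟨t, ht, hdt⟩ := CCj4_diag_T4 H T hd
  have htT := T4_le_TT H ht
  have hij' : i ≠ j := fun h => hij (by rw [h])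
  have htZ : t ∉ Z4 F := by
    intro htZ
    obtain ⟨u, hu, κ, hκ, hJ⟩ := J4_unit (K := K) H T hij'
    have h1 := hdt _ (Matrix.trace_single_eq_of_ne i j (1 : K) hij')
    rw [hdc d hd, map_smul, hJ, map_smul, (T4_Df H ht u).1] at h1
    have hw : wt t u = 1 := by
      rw [← h] at hu
      exact hu t htZ
    rw [hw, one_smul] at h1
    have h2 := congrArg (fun x : LL C6 K => x.2 u) h1
    have h3' : (Df K u).2 u = 1 := by
      rw [Df_snd, if_pos (CCj4_rfl u)]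
    simp only [Prod.smul_snd, Pi.smul_apply, h3', smul_eq_mul, mul_one] at h2
    have h3 : (d : Matrix (Fin 3) (Fin 3) K) i i / (d : Matrix (Fin 3) (Fin 3) K) j j = 1 :=
      mul_right_cancel₀ hκ (by rw [one_mul]; exact h2.symm)
    exact hij (eq_of_div_eq_one h3)
  have hs : ∀ u ∈ S6 a b c, ∃ k : K, (f⁻¹ * t * f) (Df K u) = k • Df K u := by
    intro u hu
    have hCs : Cj4 a b c (g⁻¹ * d * g) (f⁻¹ * t * f) := Cj4_mul (Cj4_mul (Cj4_inv hg) hdt) hg
    obtain ⟨i, j, κ, hij, hκ, hR⟩ := J4_root (K := K) H T hu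
    have h1 := hCs _ (Matrix.trace_single_eq_of_ne i j (1 : K) hij)
    rw [hdc _ hd', map_smul] at h1
    refine ⟨((g⁻¹ * d * g : (Matrix (Fin 3) (Fin 3) K)ˣ) : Matrix (Fin 3) (Fin 3) K) i i /
      ((g⁻¹ * d * g : (Matrix (Fin 3) (Fin 3) K)ˣ) : Matrix (Fin 3) (Fin 3) K) j j, ?_⟩
    rw [hR, map_smul, h1, smul_comm]
  have htF : t ∈ F := X.hT ht
  have hsF : f⁻¹ * t * f ∈ F := mul_mem (mul_mem (inv_mem hf) htF) hf
  have hsN : f⁻¹ * t * f ∈ NN C6 K := mem_NN_lines4 H X hsF fun u hu => by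
    refine ⟨u, hu, hs u ?_⟩
    rw [← h]
    exact hu
  by_contra hfN
  have hxN : f⁻¹ ∉ NN C6 K := fun h1 => hfN (inv_mem_iff.mp h1)
  obtain ⟨t', ht', hN⟩ := c3b_4 H X (inv_mem hf) hxN
  apply hN
  have ht'T := T4_le_TT H ht'
  have ht'F := X.hT ht'
  refine (c3a_4 H X (inv_mem hf) hxN ht htZ (by rw [inv_inv]; exact hsN) ht').mp ?_
  rw [inv_inv]
  have h1 : t' * (f⁻¹ * t * f) * t'⁻¹ * (f⁻¹ * t * f)⁻¹ =
      t' * ((f⁻¹ * t * f) * t'⁻¹ * (f⁻¹ * t * f)⁻¹) := by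
    group
  have h2 : (f⁻¹ * t * f) * t'⁻¹ * (f⁻¹ * t * f)⁻¹ ∈ T4 K :=
    NN4_conj H hsN (X.hF hsF) _ (inv_mem ht')
  refine t0_4 H X ?_ ?_
  · rw [h1]
    exact mul_mem ht' h2
  · intro u hu
    rw [h1, wt_mul H ht'T (T4_le_TT H h2)]
    rw [h] at hu
    obtain ⟨k, hk⟩ := hs u hu
    have hk0 : k ≠ 0 := by
      rintro rfl
      rw [zero_smul] at hk
      exact Df_ne_zero u ((LinearEquiv.map_eq_zero_iff _).1 hk)
    rw [wt_conj4 H hsN (X.hF hsF) (inv_mem ht') hk hk0, wt_inv H ht'T,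
      mul_inv_cancel₀ (wt_ne_zero H ht'T u)]

theorem case2_4 (H : HypW C6 K) {p : ℕ} [Fact p.Prime] [CharP K p] (X : Ctx4 F) (T : Tri a b c)
    (h : PZ4 F = S6 a b c) : False := by
  have _ : Finite K := by
    apply Nat.finite_of_card_ne_zero
    rcases H.card with h | h | h <;> omega
  have hq : 7 ≤ Nat.card K := by
    rcases H.card with h | h | h <;> omega
  have hda : ∀ x y : Rt C6, sg x ≠ x → sg y ≠ y → dg x y = dg y x := fun x y hx hy =>
    dg_symm x y ⟨fun h => absurd h hx, fun h => absurd h hy⟩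
  have hba : dg b a = -1 := (hda b a T.sb T.sa).trans T.dab
  have hadd : ∀ x : Rt C6, dg x c = dg x a + dg x b := by
    intro x
    show ip C6 (cv x) c.1 = ip C6 (cv x) a.1 + ip C6 (cv x) b.1
    rw [T.hc, ip_add_right]
  have hac : dg a c = 1 := by
    rw [hadd, dg_self, T.dab]
    norm_num
  have hbc : dg b c = 1 := by
    rw [hadd, dg_self, hba]
    norm_num
  have hng : ∀ x : Rt C6, sg x ≠ x → sg (ng x) ≠ ng x := fun x hx h => hx ((sg_ng_iff x).1 h)
  obtain ⟨Γ, hΓ⟩ : ∃ Γ : Subgroup (Matrix (Fin 3) (Fin 3) K)ˣ, ∀ g, g ∈ Γ ↔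
      ∃ f ∈ F, Cj4 a b c g f := by
    refine ⟨{ carrier := {g | ∃ f ∈ F, Cj4 a b c g f}
              one_mem' := ⟨1, one_mem _, Cj4_one⟩
              mul_mem' := ?_
              inv_mem' := ?_ }, fun f => Iff.rfl⟩
    · rintro g g' ⟨f, hf, hg⟩ ⟨f', hf', hg'⟩
      exact ⟨f * f', mul_mem hf hf', Cj4_mul hg hg'⟩
    · rintro g ⟨f, hf, hg⟩
      exact ⟨f⁻¹, inv_mem hf, Cj4_inv hg⟩
  have key := Pool.Agent.H33.EL.plane hq Γ (by
      intro g hg
      obtain ⟨t, ht, hgt⟩ := CCj4_diag_T4 H T hg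
      exact (hΓ g).mpr ⟨t, X.hT ht, hgt⟩)
    (by
      intro g hg j hj
      obtain ⟨f, hf, hgf⟩ := (hΓ g).mp hg
      fin_cases j
      · refine CCj4_F1 H (p := p) X T h (j := 0) (k := 1) (k' := 2) (by decide) (by decide)
          (by decide) (u := a) (v := c) ?_ T.sa T.sc hac (κ := 1) (κ' := ek K C6 a.1 b.1)
          one_ne_zero (ek_ne_zero _ _) ?_ ?_ hf hgf hj
        · rw [h]
          exact Or.inl (CCj4_rfl a)
        · simp [J4, Matrix.single]
        · simp [J4, Matrix.single]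
      · refine CCj4_F1 H (p := p) X T h (j := 1) (k := 0) (k' := 2) (by decide) (by decide)
          (by decide) (u := ng a) (v := b) ?_ (hng a T.sa) T.sb ?_ (κ := -1) (κ' := 1)
          (neg_ne_zero.mpr one_ne_zero) one_ne_zero ?_ ?_ hf hgf hj
        · rw [h]
          exact Or.inr (Or.inl (CCj4_rfl (ng a)))
        · rw [dg_ng_left, T.dab]
          norm_num
        · simp [J4, Matrix.single]
        · simp [J4, Matrix.single]
      · refine CCj4_F1 H (p := p) X T h (j := 2) (k := 0) (k' := 1) (by decide) (by decide)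
          (by decide) (u := ng c) (v := ng b) ?_ (hng c T.sc) (hng b T.sb) ?_
          (κ := ek K C6 b.1 a.1) (κ' := -1) (ek_ne_zero _ _) (neg_ne_zero.mpr one_ne_zero)
          ?_ ?_ hf hgf hj
        · rw [h]
          exact Or.inr (Or.inr (Or.inr (Or.inr (Or.inr (CCj4_rfl (ng c))))))
        · rw [dg_ng_left, dg_ng_right, neg_neg, hda c b T.sc T.sb, hbc]
        · simp [J4, Matrix.single]
        · simp [J4, Matrix.single])
    (by
      rintro g hg d hd ⟨i, j, hij⟩ hd'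
      obtain ⟨f, hf, hgf⟩ := (hΓ g).mp hg
      exact CCj4_mono H X T h hf (CCj4_F3 H X T h hf hgf hd hij hd') hgf)
  apply X.hN
  intro f hf
  obtain ⟨g, hg⟩ := CCj4_all H X T h f hf
  exact CCj4_NN H X T h hf hg (key g ((hΓ g).mpr ⟨f, hf, hg⟩))

end Pool.Agent.H31.F4
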