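import Pool.Agent.H31.F4.Dn4
import Pool.Agent.H31.F4.PG4

/-!
# FF-26: a normal `p`-subgroup gives a parabolic (Case A, first part)

`n = {x ∈ VF : u x = x for all u ∈ P}`.  `Hom4 n`: `T4 ≤ F` normalises `P`; `Sg x = -x` on `VF`.
For `f ∈ F`: `f x ∈ n ↔ x ∈ n` (`GF_VF`, `P` normal).  So `F ≤ Par (dn n)` by `inv_Par4`.
`Z = P ⊓ centralizer P` is normalised by `F`, it is not trivial (centre of a non trivial finite
`p`-group, `finite4`); `pg4` gives `a ∈ SF4 Z` (`pg4`: otherwise `Z ≤ closure ∅ = ⊥`).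
`U` = the additive subgroup (or subspace) of `VF` spanned by the `u x - x`, `x ∈ VF`,
`u = xf a s`.  It is invariant under `P` (`P` commutes with `xf a s`), non zero
(`xf a s (wf b) - wf b ≠ 0` for a short `b` with `dg a b < 0`: take `b = ng a` (short `a`) or any short `b`
with `dg a b = -1` (long `a`)), so it contains a non zero `P`-fixed vector `x` (`p`-group acting on a
finite set of `p`-power order: `IsPGroup.card_modEq_card_fixedPoints` or Mathlib's
`IsPGroup.exists_fixed_point_of_prime_dvd_card_of_fixed_point`).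
`U ⊆ {λ z_a + x' : x' ∈ VF ⊓ Fil (cv a) 1}` (`z_a = hh (zk (a - sa))`, only for short `a`): check it
for `x = hh z` and `x = wf b` (`ext_VF`): `[Df a, ·]` raises the degree by 2, `(VF)` has in degree `-2`
only `wf (ng a)` (`dg_neg_two`, `a` short) resp. nothing (`a` long), `br_D_wng`; in degree `-1` it goes
to degree `1`.
`x = λ z_a + x'` is fixed by `xf a 1`: `xf a 1 (z_a) = z_a - 2 wf a` (`br_k_D`, `fk_zz`),
`xf a 1 x' = x'` (degree `≥ 3`): `λ = 0`.  So `x = x'` has a coordinate `x.2 b ≠ 0`, `dg a b > 0`,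
and `x.2 b • wf b ∈ n` (`comp4_VF`, `n` is `T4`-invariant): `0 < mu n b`.  Let `c.1 = rfv a b`:
`dg a c = -dg a b < 0`, `mu n c = 0` (`mu_eq_zero`: an element of `n ⊓ span{e c, e (sg c)}` is in
`VF`, so a multiple `k wf c`; it is fixed by `xf a s` for all `s`, so `[Df a, k wf c] = 0`, but
`[Df a, wf c] ≠ 0` (`br_Dw` for `dg a c = -1`, or `br_D_wng`)).
So `0 < ip (dn n) a` by `dn_pos` (`xf a s` fixes `n` pointwise), `xf a 1 ∈ F ⊓ Rad (dn n)` (`xf_mem_Rad`),
`≠ 1` (`xf_inj`, `xf_zero`).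
-/

namespace Pool.Agent.H31.F4

open Pool.Agent.H33.EL (ip cc eps Rt ng zk ek fk LL hh e brf fmf br fm IsExt exl ex xr hd L0 GG T1 TT NN SF cj wt)

variable {K : Type} [Field K]

/-! ### a short root which is not orthogonal to a long root -/

private theorem caA4_chk : (P6.all fun x => Comb_sh x || P6.any fun y =>
    Comb_sh y && (Comb_dot y y == 2) && !(Comb_dot x y == 0)) = true := by
  decide +kernel

private theorem caA4_sh_false {a : Rt C6} (h : sg a = a) : Comb_sh a.1 = false := by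
  have h1 : ∀ i, a.1 (tau i) = a.1 i := fun i => congrFun (congrArg Subtype.val h) i
  have h2 : a.1 3 = a.1 2 := h1 2
  have h3 : a.1 5 = a.1 4 := h1 4
  simp [Comb_sh, h2, h3]

private theorem caA4_sh_true {b : Rt C6} (h : Comb_sh b.1 = true) : sg b ≠ b := by
  intro h1
  rw [caA4_sh_false h1] at h
  exact Bool.false_ne_true h

private theorem caA4_ex1 (a : Rt C6) (ha : sg a = a) (hm : a.1 ∈ P6) :
    ∃ b : Rt C6, sg b ≠ b ∧ dg a b ≠ 0 := by
  have h1 := List.all_eq_true.1 caA4_chk a.1 hm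
  rw [caA4_sh_false ha, Bool.false_or] at h1
  obtain ⟨y, hy, h2⟩ := List.any_eq_true.1 h1
  simp only [Bool.and_eq_true, beq_iff_eq, Bool.not_eq_true', beq_eq_false_iff_ne] at h2
  obtain ⟨⟨h3, h4⟩, h5⟩ := h2
  obtain ⟨b, hb⟩ : ∃ b : Rt C6, b.1 = y := ⟨⟨y, by rw [Comb_ip]; exact h4⟩, rfl⟩
  refine ⟨b, caA4_sh_true (by rw [hb]; exact h3), ?_⟩
  rw [dg_long _ _ ha, Comb_ip, hb]
  exact h5

private theorem caA4_ex (a : Rt C6) (ha : sg a = a) : ∃ b : Rt C6, sg b ≠ b ∧ dg a b < 0 := by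
  have key : ∃ b : Rt C6, sg b ≠ b ∧ dg a b ≠ 0 := by
    rcases P6_complete a with h | h
    · exact caA4_ex1 a ha h
    · obtain ⟨b, hb, hb'⟩ := caA4_ex1 (ng a) ((sg_ng_iff a).2 ha) h
      refine ⟨b, hb, ?_⟩
      rw [dg_ng_left] at hb'
      exact fun h0 => hb' (by rw [h0, neg_zero])
  obtain ⟨b, hb, hb'⟩ := key
  rcases lt_or_gt_of_ne hb' with h | h
  · exact ⟨b, hb, h⟩
  · refine ⟨ng b, fun hc => hb ((sg_ng_iff b).1 hc), ?_⟩
    rw [dg_ng_right]
    omega

/-- `ad (Df a)` is not zero on `VF` -/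
private theorem caA4_move (H : HypW C6 K) (a : Rt C6) :
    ∃ x ∈ VF K, br (Df K a) x ≠ 0 := by
  by_cases ha : sg a = a
  · obtain ⟨b, hb, hab⟩ := caA4_ex a ha
    have hne : ¬ Eq4 (ng a) b := by
      intro h
      have h1 := (Eq4_len h).1 ((sg_ng_iff a).2 ha)
      exact hb h1
    obtain ⟨c, hc, hcl, -⟩ := sm_of_neg a b hab hne
    have hcs : sg c ≠ c := fun h => hb (hcl.1 h).2
    obtain ⟨k, hk, hk'⟩ := br_Dw H hc hb hcs
    refine ⟨wf K b, wf_mem b, ?_⟩
    rw [hk']
    exact smul_ne_zero hk (wf_ne_zero H hcs)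
  · refine ⟨wf K (ng a), wf_mem _, ?_⟩
    rw [br_D_wng H a ha]
    intro h
    have h1 : (zk (a.1 - (sg a).1) : Fin 6 → K) = 0 := by
      have h2 := congrArg Prod.fst h
      rw [Prod.fst_neg, hh_fst] at h2
      exact neg_eq_zero.1 h2
    have h3 := fk_zz H a ha
    rw [h1] at h3
    have h4 : fk C6 (0 : Fin 6 → K) (zk a.1) = 0 := by
      simp [fk]
    rw [h4] at h3
    exact two_ne H h3.symm

/-- a vector fixed by all `xf a s` is killed by `Df a` -/
private theorem caA4_kill (H : HypW C6 K) {a : Rt C6} {x : LL C6 K}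
    (h : ∀ s : K, xf a s x = x) : br (Df K a) x = 0 := by
  have h1 := h 1
  have h2 := h (-1)
  rw [xf_apply H] at h1 h2
  have h3 : (2 : K) • br (Df K a) x = 0 := by
    have h4 : (2 : K) • br (Df K a) x =
        (x + (1 : K) • br (Df K a) x + (2⁻¹ * (1 : K) ^ 2) • br (Df K a) (br (Df K a) x)) -
        (x + (-1 : K) • br (Df K a) x + (2⁻¹ * (-1 : K) ^ 2) • br (Df K a) (br (Df K a) x)) := by
      match_scalars <;> ring
    rw [h4, h1, h2, sub_self]
  exact (smul_eq_zero.1 h3).resolve_left (two_ne H)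

/-- the vector `z_a` -/
private def caA4z (K : Type) [Field K] (a : Rt C6) : LL C6 K := hh C6 (zk (a.1 - (sg a).1))

private theorem caA4_z_br (H : HypW C6 K) (a : Rt C6) :
    br (Df K a) (caA4z K a) = (-2 : K) • wf K a := by
  by_cases ha : sg a = a
  · have h1 : caA4z K a = 0 := by
      have h2 : (zk (a.1 - (sg a).1) : Fin 6 → K) = 0 := by
        rw [ha, sub_self]
        funext i
        simp [zk]
      unfold caA4z
      rw [h2]
      rfl
    have h2 : wf K a = 0 := by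
      unfold wf
      rw [ha, sub_self]
    rw [h1, h2, map_zero, smul_zero]
  · unfold caA4z
    rw [br_skew H, br_k_D _ (DBrB_sv_anti a) a ha, fk_zz H a ha, neg_smul]

private theorem caA4_D_w (H : HypW C6 K) (a : Rt C6) : br (Df K a) (wf K a) = 0 :=
  br_Dw_long H (by rw [dg_self]; norm_num)

/-- the part of a vector of `VF` off the lowest weight is in degree `≥ -1` -/
private theorem caA4_low (H : HypW C6 K) (a : Rt C6) {x : LL C6 K} (hx : x ∈ VF K) :
    x - x.2 (ng a) • wf K (ng a) ∈ Fil C6 K (cv a) (-1) := by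
  refine ⟨fun b hb => ?_, fun h => absurd h (by norm_num)⟩
  have hb2 : dg a b = -2 := by
    have h1 := dg_range a b
    have h2 : ip C6 (cv a) b.1 = dg a b := rfl
    rw [h2] at hb
    omega
  rw [Prod.snd_sub, Pi.sub_apply, Prod.smul_snd, Pi.smul_apply, smul_eq_mul]
  by_cases hbl : sg b = b
  · rw [VF_long H hx hbl]
    by_cases hal : sg a = a
    · have h3 : sg (ng a) = ng a := (sg_ng_iff a).2 hal
      rw [VF_long H hx h3, zero_mul, sub_zero]
    · have h3 : ¬ Eq4 (ng a) b := fun h => hal ((sg_ng_iff a).1 ((Eq4_len h).2 hbl))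
      rw [wf_snd_ne h3, mul_zero, sub_zero]
  · by_cases hal : sg a = a
    · exfalso
      have h3 := dg_SL b a hbl hal
      have h4 := dg_range b a
      omega
    · have h3 := dg_neg_two a b hb2 ⟨fun h => absurd h hal, fun h => absurd h hbl⟩
      have h4 : sg (ng a) ≠ ng a := fun h => hal ((sg_ng_iff a).1 h)
      obtain ⟨h5, h6⟩ := wf_snd_self (K := K) h4
      rcases h3 with rfl | rfl
      · rw [h5, mul_one, sub_self]
      · rw [h6, ((mem_VF' x).1 hx).2 (ng a)]
        ring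

/-- the subspace `K z_a + (VF ∩ degree ≥ 1)` -/
private def caA4W (K : Type) [Field K] (a : Rt C6) : Submodule K (LL C6 K) :=
  Submodule.span K {caA4z K a} ⊔ (VF K ⊓ Fil C6 K (cv a) 1)

private theorem caA4_U (H : HypW C6 K) (a : Rt C6) {x : LL C6 K} (hx : x ∈ VF K) (s : K) :
    xf a s x - x ∈ caA4W K a := by
  have hJ := Fi4_JM H (K := K) a
  have hz : caA4z K a ∈ caA4W K a :=
    Submodule.mem_sup_left (Submodule.mem_span_singleton_self _)
  have hw : wf K a ∈ caA4W K a := by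
    refine Submodule.mem_sup_right ⟨wf_mem a, ?_⟩
    refine ⟨fun b hb => ?_, fun _ => wf_fst a⟩
    apply wf_snd_ne
    intro h
    have h1 : dg a b = 2 := by
      rcases h with rfl | rfl
      · exact dg_self _
      · rw [dg_sg_right, dg_self]
    have h2 : ip C6 (cv a) b.1 = dg a b := rfl
    rw [h2] at hb
    omega
  -- the lowest weight vector
  have h1 : xf a s (wf K (ng a)) - wf K (ng a) ∈ caA4W K a := by
    by_cases ha : sg a = a
    · have h2 : wf K (ng a) = 0 := by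
        unfold wf
        rw [(sg_ng_iff a).2 ha, sub_self]
      rw [h2, map_zero, sub_zero]
      exact Submodule.zero_mem _
    · rw [xf_apply H, br_D_wng H a ha]
      have h2 : br (Df K a) (-hh C6 (zk (a.1 - (sg a).1))) = (2 : K) • wf K a := by
        have h3 := caA4_z_br H (K := K) a
        unfold caA4z at h3
        rw [map_neg, h3, neg_smul, neg_neg]
      rw [h2]
      have h4 : wf K (ng a) + s • -hh C6 (zk (a.1 - (sg a).1)) +
          (2⁻¹ * s ^ 2) • ((2 : K) • wf K a) - wf K (ng a) =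
          (-s) • caA4z K a + (2⁻¹ * s ^ 2 * 2) • wf K a := by
        unfold caA4z
        module
      rw [h4]
      exact Submodule.add_mem _ (Submodule.smul_mem _ _ hz) (Submodule.smul_mem _ _ hw)
  have hy := caA4_low H a hx
  have hyV : x - x.2 (ng a) • wf K (ng a) ∈ VF K :=
    Submodule.sub_mem _ hx (Submodule.smul_mem _ _ (wf_mem _))
  set y := x - x.2 (ng a) • wf K (ng a) with hyd
  have h2 : xf a s y - y ∈ caA4W K a := by
    refine Submodule.mem_sup_right ⟨?_, ?_⟩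
    · exact Submodule.sub_mem _ ((GF_VF (xf_mem_GF H a s) y).2 hyV) hyV
    · have h3 : br (Df K a) y ∈ Fil C6 K (cv a) 1 := hJ.degF (-1) y hy
      have h4 : br (Df K a) (br (Df K a) y) ∈ Fil C6 K (cv a) 1 :=
        FilA_anti (by norm_num : (1 : ℤ) ≤ 2 + 1) (hJ.degF 1 _ h3)
      have h5 : xf a s y - y = s • br (Df K a) y + (2⁻¹ * s ^ 2) • br (Df K a) (br (Df K a) y) := by
        rw [xf_apply H]
        module
      rw [h5]
      exact Submodule.add_mem _ (Submodule.smul_mem _ _ h3) (Submodule.smul_mem _ _ h4)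
  have h3 : xf a s x - x = x.2 (ng a) • (xf a s (wf K (ng a)) - wf K (ng a)) +
      (xf a s y - y) := by
    have h4 : x = x.2 (ng a) • wf K (ng a) + y := by
      rw [hyd]
      abel
    have h5 : xf a s x = x.2 (ng a) • xf a s (wf K (ng a)) + xf a s y := by
      conv_lhs => rw [h4, map_add, map_smul]
    rw [h5]
    have h6 : x.2 (ng a) • xf a s (wf K (ng a)) + xf a s y - (x.2 (ng a) • wf K (ng a) + y) =
        x.2 (ng a) • (xf a s (wf K (ng a)) - wf K (ng a)) + (xf a s y - y) := by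
      module
    rw [← h6, ← h4]
  rw [h3]
  exact Submodule.add_mem _ (Submodule.smul_mem _ _ h1) h2

/-- a vector of `K z_a + (VF ∩ degree ≥ 1)` fixed by `xf a 1` has positive degree -/
private theorem caA4_fix (H : HypW C6 K) (a : Rt C6) {x : LL C6 K} (hx : x ∈ caA4W K a)
    (h : ∀ s : K, xf a s x = x) : x ∈ Fil C6 K (cv a) 1 := by
  obtain ⟨z, hz, x', hx', rfl⟩ := Submodule.mem_sup.1 hx
  obtain ⟨l, rfl⟩ := Submodule.mem_span_singleton.1 hz
  have h1 := caA4_kill H h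
  have h2 : br (Df K a) x' = 0 := by
    have h3 := (Fi4_JM H (K := K) a).degF 1 x' hx'.2
    exact Fi4_bot (Fi4_JM H (K := K) a) (by norm_num) h3
  rw [map_add, h2, add_zero, map_smul, caA4_z_br H, smul_smul] at h1
  have h3 : l • caA4z K a = 0 := by
    rcases smul_eq_zero.1 h1 with h4 | h4
    · have h5 : l = 0 := by
        rcases mul_eq_zero.1 h4 with h | h
        · exact h
        · exact absurd (neg_eq_zero.1 h) (two_ne H)
      rw [h5, zero_smul]
    · have ha : sg a = a := by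
        by_contra hc
        exact wf_ne_zero H hc h4
      have h5 : caA4z K a = 0 := by
        have h6 : (zk (a.1 - (sg a).1) : Fin 6 → K) = 0 := by
          rw [ha, sub_self]
          funext i
          simp [zk]
        unfold caA4z
        rw [h6]
        rfl
      rw [h5, smul_zero]
  rw [h3, zero_add]
  exact hx'.2

/-- a `p`-group acting on a non zero subspace has a non zero fixed vector -/
private theorem caA4_pfix (H : HypW C6 K) {p : ℕ} [Fact p.Prime] [CharP K p]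
    {P : Subgroup (LL C6 K ≃ₗ[K] LL C6 K)} (hP : IsPGroup p P) (U : Submodule K (LL C6 K))
    (hU : ∀ u ∈ P, ∀ x ∈ U, u x ∈ U) (hU0 : U ≠ ⊥) : ∃ x ∈ U, x ≠ 0 ∧ ∀ u ∈ P, u x = x := by
  have : Finite K := by
    apply Nat.finite_of_card_ne_zero
    rcases H.card with h | h | h <;> omega
  have : Finite (LL C6 K) := inferInstanceAs (Finite ((Fin 6 → K) × (Rt C6 → K)))
  obtain ⟨x, hx, hx0⟩ := Submodule.exists_mem_ne_zero_of_ne_bot hU0
  let act : MulAction P U :=
    { smul := fun n w => ⟨(n : LL C6 K ≃ₗ[K] LL C6 K) w, hU _ n.2 w w.2⟩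
      one_smul := fun w => Subtype.ext rfl
      mul_smul := fun m n w => Subtype.ext rfl }
  have hdvd : p ∣ Nat.card U := by
    have h1 : addOrderOf (⟨x, hx⟩ : U) = p := by
      refine addOrderOf_eq_prime ?_ ?_
      · have : (p : K) • (⟨x, hx⟩ : U) = 0 := by
          rw [CharP.cast_eq_zero K p, zero_smul]
        rwa [Nat.cast_smul_eq_nsmul] at this
      · intro h
        exact hx0 (congrArg Subtype.val h)
    rw [← h1]
    exact addOrderOf_dvd_natCard _
  have h0 : (0 : U) ∈ MulAction.fixedPoints P U := by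
    intro n
    exact Subtype.ext (map_zero (n : LL C6 K ≃ₗ[K] LL C6 K))
  obtain ⟨b, hb, hb0⟩ := hP.exists_fixed_point_of_prime_dvd_card_of_fixed_point U hdvd h0
  refine ⟨b, b.2, fun h => hb0 (Subtype.ext h.symm), fun u hu => ?_⟩
  exact congrArg Subtype.val (hb ⟨u, hu⟩)

private theorem caA4_dg_rf (H : HypW C6 K) (a b : Rt C6) : dg a (Fi4_rf H a b) = -dg a b := by
  obtain ⟨h1, h2⟩ := Fi4_ip_rfv H a b
  have h3 : (Fi4_rf H a b).1 = rfv a b := rfl
  by_cases ha : sg a = a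
  · rw [dg_long _ _ ha, dg_long _ _ ha, h3, h1]
  · have h4 : ∀ c : Rt C6, dg a c = ip C6 a.1 c.1 + ip C6 (sg a).1 c.1 := fun c =>
      DBrB_cv a c ha
    rw [h4, h4, h3, h1, h2]
    ring

theorem caseA_par (H : HypW C6 K) {p : ℕ} [Fact p.Prime] [CharP K p]
    (F P : Subgroup (LL C6 K ≃ₗ[K] LL C6 K)) (hF : F ≤ GF K) (hT : T4 K ≤ F)
    (hPF : P ≤ F) (hn : ∀ f ∈ F, ∀ u ∈ P, f * u * f⁻¹ ∈ P) (hP : IsPGroup p P) (hP1 : P ≠ ⊥) :
    ∃ d : Fin 6 → ℤ, sv d = d ∧ F ≤ Par C6 K d ∧ F ⊓ Rad H d ≠ ⊥ := by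
  have hfin : Finite (LL C6 K ≃ₗ[K] LL C6 K) := finite4 H
  have hPG : P ≤ GF K := hPF.trans hF
  have hinv : ∀ (g : LL C6 K ≃ₗ[K] LL C6 K) (u : LL C6 K), g (g⁻¹ u) = u := fun g u => by
    rw [← LinearEquiv.mul_apply, mul_inv_cancel]; rfl
  -- the fixed space
  let n : Submodule K (LL C6 K) :=
    { carrier := {x | x ∈ VF K ∧ ∀ u ∈ P, u x = x}
      add_mem' := by
        rintro x y ⟨h1, h2⟩ ⟨h3, h4⟩
        exact ⟨Submodule.add_mem _ h1 h3, fun u hu => by rw [map_add, h2 u hu, h4 u hu]⟩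
      zero_mem' := ⟨Submodule.zero_mem _, fun u _ => map_zero u⟩
      smul_mem' := by
        rintro c x ⟨h1, h2⟩
        exact ⟨Submodule.smul_mem _ _ h1, fun u hu => by rw [map_smul, h2 u hu]⟩ }
  have mem_n : ∀ x, x ∈ n ↔ x ∈ VF K ∧ ∀ u ∈ P, u x = x := fun x => Iff.rfl
  have hFn1 : ∀ f ∈ F, ∀ x ∈ n, f x ∈ n := by
    intro f hf x hx
    obtain ⟨h1, h2⟩ := (mem_n x).1 hx
    refine (mem_n _).2 ⟨(GF_VF (hF hf) x).2 h1, fun u hu => ?_⟩
    have h3 := h2 _ (hn f⁻¹ (F.inv_mem hf) u hu)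
    rw [inv_inv, LinearEquiv.mul_apply, LinearEquiv.mul_apply] at h3
    have h4 := congrArg f h3
    rwa [hinv] at h4
  have hFn : ∀ f ∈ F, ∀ x, f x ∈ n ↔ x ∈ n := by
    intro f hf x
    refine ⟨fun h => ?_, hFn1 f hf x⟩
    have h1 := hFn1 f⁻¹ (F.inv_mem hf) _ h
    have h2 : f⁻¹ (f x) = x := f.symm_apply_apply x
    rwa [h2] at h1
  have hHom : Hom4 n := by
    refine ⟨fun t ht x hx => hFn1 t (hT ht) x hx, fun x hx => ?_⟩
    rw [(mem_VF x).1 hx.1]
    exact Submodule.neg_mem _ hx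
  have hPar : F ≤ Par C6 K (dn n) := fun f hf => inv_Par4 H hHom (hF hf) (hFn f hf)
  -- the centre
  let Z : Subgroup (LL C6 K ≃ₗ[K] LL C6 K) :=
    P ⊓ Subgroup.centralizer (P : Set (LL C6 K ≃ₗ[K] LL C6 K))
  have hZP : Z ≤ P := inf_le_left
  have hZc : ∀ z ∈ Z, ∀ u ∈ P, u * z = z * u := fun z hz u hu =>
    (Subgroup.mem_centralizer_iff.1 (Subgroup.mem_inf.1 hz).2) u hu
  have hZ1 : Z ≠ ⊥ := by
    have : Nontrivial P := (Subgroup.nontrivial_iff_ne_bot P).2 hP1
    have := hP.center_nontrivial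
    obtain ⟨z, hz⟩ := exists_ne (1 : Subgroup.center P)
    intro hbot
    have h1 : ((z : P) : LL C6 K ≃ₗ[K] LL C6 K) ∈ Z := by
      refine Subgroup.mem_inf.2 ⟨(z : P).2, ?_⟩
      rw [Subgroup.mem_centralizer_iff]
      intro u hu
      have h2 := Subgroup.mem_center_iff.1 z.2 ⟨u, hu⟩
      exact congrArg Subtype.val h2
    rw [hbot, Subgroup.mem_bot] at h1
    exact hz (Subtype.ext (Subtype.ext h1))
  have hZT : ∀ t ∈ T4 K, ∀ u ∈ Z, t * u * t⁻¹ ∈ Z := by
    intro t ht z hz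
    refine Subgroup.mem_inf.2 ⟨hn t (hT ht) z (hZP hz), ?_⟩
    rw [Subgroup.mem_centralizer_iff]
    intro u hu
    have h1 := hZc z hz _ (hn t⁻¹ (F.inv_mem (hT ht)) u hu)
    rw [inv_inv] at h1
    calc u * (t * z * t⁻¹) = t * ((t⁻¹ * u * t) * z) * t⁻¹ := by group
      _ = t * (z * (t⁻¹ * u * t)) * t⁻¹ := by rw [h1]
      _ = t * z * t⁻¹ * u := by group
  have hroot : ∃ a, a ∈ SF4 Z := by
    by_contra hno
    push Not at hno
    apply hZ1
    rw [eq_bot_iff]
    have h1 := pg4 H Z (hP.to_le hZP) (hZP.trans hPG) hZT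
    refine h1.trans ?_
    rw [Subgroup.closure_le]
    rintro g ⟨b, hb, -⟩
    exact absurd hb (hno b)
  obtain ⟨a, ha⟩ := hroot
  have haP : ∀ s : K, xf a s ∈ P := fun s => hZP (ha s)
  -- the span of the differences
  let U : Submodule K (LL C6 K) :=
    Submodule.span K {y | ∃ s : K, ∃ x ∈ VF K, y = xf a s x - x}
  have hUW : U ≤ caA4W K a := by
    refine Submodule.span_le.2 ?_
    rintro y ⟨s, x, hx, rfl⟩
    exact caA4_U H a hx s
  have hUV : U ≤ VF K := by
    refine Submodule.span_le.2 ?_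
    rintro y ⟨s, x, hx, rfl⟩
    exact Submodule.sub_mem _ ((GF_VF (xf_mem_GF H a s) x).2 hx) hx
  have hUP : ∀ u ∈ P, ∀ x ∈ U, u x ∈ U := by
    intro u hu x hx
    have h1 : U ≤ U.comap (u : LL C6 K →ₗ[K] LL C6 K) := by
      refine Submodule.span_le.2 ?_
      rintro y ⟨s, x, hx, rfl⟩
      show u (xf a s x - x) ∈ U
      refine Submodule.subset_span ⟨s, u x, (GF_VF (hPG hu) x).2 hx, ?_⟩
      rw [map_sub]
      congr 1
      have h2 := hZc _ (ha s) u hu
      have h3 := congrArg (fun g : LL C6 K ≃ₗ[K] LL C6 K => g x) h2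
      exact h3
    exact h1 hx
  have hU0 : U ≠ ⊥ := by
    intro hbot
    obtain ⟨x, hx, hx0⟩ := caA4_move H a
    apply hx0
    refine caA4_kill H fun s => ?_
    have h1 : xf a s x - x ∈ U := Submodule.subset_span ⟨s, x, hx, rfl⟩
    rw [hbot, Submodule.mem_bot] at h1
    exact sub_eq_zero.1 h1
  obtain ⟨x, hxU, hx0, hxP⟩ := caA4_pfix H hP U hUP hU0
  have hxV := hUV hxU
  have hxn : x ∈ n := (mem_n x).2 ⟨hxV, hxP⟩
  have hxF : x ∈ Fil C6 K (cv a) 1 := caA4_fix H a (hUW hxU) fun s => hxP _ (haP s)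
  -- a weight of positive degree
  have hb : ∃ b : Rt C6, x.2 b ≠ 0 := by
    by_contra hno
    push Not at hno
    apply hx0
    exact Prod.ext (hxF.2 (by norm_num)) (funext hno)
  obtain ⟨b, hb⟩ := hb
  have hdb : 0 < dg a b := by
    by_contra hc
    apply hb
    apply hxF.1 b
    have h2 : ip C6 (cv a) b.1 = dg a b := rfl
    omega
  have hbs : sg b ≠ b := fun h => hb (VF_long H hxV h)
  have hmub : 0 < mu n b := by
    refine mu_pos (comp4_VF H n hHom.1 hxn hxV b) ?_ (smul_ne_zero hb (wf_ne_zero H hbs))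
    exact Submodule.smul_mem _ _ (pv_mem_span b).2.2
  -- the reflected weight
  have hc : (Fi4_rf H a b).1 = rfv a b := rfl
  have hdc : dg a (Fi4_rf H a b) < 0 := by
    rw [caA4_dg_rf H]
    omega
  have hrr : b.1 = rfv a (Fi4_rf H a b) := by
    by_cases hal : sg a = a
    · have h1 : rfv a b = b.1 - ip C6 a.1 b.1 • a.1 := by
        unfold rfv
        rw [if_pos hal]
      have h2 : rfv a (Fi4_rf H a b) =
          (Fi4_rf H a b).1 - ip C6 a.1 (Fi4_rf H a b).1 • a.1 := by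
        unfold rfv
        rw [if_pos hal]
      rw [h2, hc, (Fi4_ip_rfv H a b).1, h1]
      module
    · have h1 : rfv a b = b.1 - ip C6 a.1 b.1 • a.1 - ip C6 (sg a).1 b.1 • (sg a).1 := by
        unfold rfv
        rw [if_neg hal]
      have h2 : rfv a (Fi4_rf H a b) = (Fi4_rf H a b).1 -
          ip C6 a.1 (Fi4_rf H a b).1 • a.1 - ip C6 (sg a).1 (Fi4_rf H a b).1 • (sg a).1 := by
        unfold rfv
        rw [if_neg hal]
      rw [h2, hc, (Fi4_ip_rfv H a b).1, (Fi4_ip_rfv H a b).2, h1]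
      module
  have hmuc : mu n (Fi4_rf H a b) = 0 := by
    refine mu_eq_zero fun y hy hys => ?_
    have h1 : br (Df K a) y = 0 := caA4_kill H fun s => hy.2 _ (haP s)
    refine (ad_inj H a (Fi4_rf H a b) b hdc hrr).2 y hys ?_
    split_ifs
    · exact h1
    · rw [h1, map_zero]
  have hxfn : ∀ s : K, ∀ y ∈ n, xf a s y ∈ n := by
    intro s y hy
    rw [hy.2 _ (haP s)]
    exact hy
  have hpos : 0 < ip C6 (dn n) a.1 :=
    dn_pos H hxfn hc hdb (by rw [hmuc]; exact hmub)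
  refine ⟨dn n, sv_dn n, hPar, fun hbot => ?_⟩
  have h1 : xf a (1 : K) ∈ F ⊓ Rad H (dn n) :=
    Subgroup.mem_inf.2 ⟨hPF (haP 1), xf_mem_Rad H (sv_dn n) 1 hpos⟩
  rw [hbot, Subgroup.mem_bot] at h1
  rw [← xf_zero H a] at h1
  exact one_ne_zero (xf_inj H a h1)

end Pool.Agent.H31.F4
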