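import Pool.Agent.H31.F4.V9a
import Pool.Agent.H31.F4.XfA

/-!
# FF-64: invariance of the 9-dimensional module

`z = hd (cv (k 0)) (-1)`.  `Lz = {x ∈ LF : z x = x}`, `Vz = {x ∈ VF : z x = x}`: mapped to themselves by `g` (and `g⁻¹`).
The weight of `z` at `d` is `(-1)^(dg (k 0) d)` (`wt_hd_cv`): 1 on long roots and on `FrS k`, `-1` on the other short roots
(`frame_even`).  So `x ∈ Vz` is supported on `FrS k` (and toral part), `x ∈ Lz` on `FrS k` and long roots.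
Claim: `V9 = range Phi` is the span of `[Lz, Vz]`.  `⊇`: `[hh h, ·]` (`sv h = h`), `[Df a, ·]` (`a ∈ FrS k` or long) on
`wf d`, `d ∈ FrS k`, and on `hh z`, `sv z = -z`: `[Df a, hh z] = -(z,a) wf a` (`a` short) or 0 (`a` long), `[Df a, wf d]`
is `k wf (a+d)` (`a + d ∈ FrS k`, since the weight of `z` is multiplicative), or a multiple of `hh (zk (d - sd))` = `± 2 x0`
(`br_D_wng`, `Fr.sgn`), or 0.  `⊆`: `wf d = (1/2) [hh (zk (cv d)), wf d]`, `x0` is a multiple of `[Df (k 0), wf (ng (k 0))]`.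
So `g (Phi u)` is a sum of `[g x, g y]`, in `V9`.
-/

namespace Pool.Agent.H31.F4

open Pool.Agent.H33.EL (ip cc eps Rt ng zk ek fk LL hh e brf fmf br fm IsExt exl ex xr hd L0 GG T1 TT NN SF cj wt)

variable {K : Type} [Field K]

variable {k : Fin 4 → Rt C6}

/-- the range of the embedding -/
def V9c_W (K : Type) [Field K] (k : Fin 4 → Rt C6) : Submodule K (LL C6 K) :=
  LinearMap.range (Phi K k)

theorem V9c_bt (a : Pool.Agent.H33.TO.Ix 4) : bt K k a ∈ V9c_W K k :=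
  ⟨Pool.Agent.H33.TO.ev a, Phi_ev a⟩

theorem V9c_ki (H : HypW C6 K) (i : Fin 4) :
    wf K (k i) ∈ V9c_W K k ∧ wf K (ng (k i)) ∈ V9c_W K k := by
  refine ⟨V9c_bt (k := k) (some (i, true)), ?_⟩
  have h1 := (V9c_W K k).smul_mem (-2 : K) (V9c_bt (k := k) (some (i, false)))
  have h2 : (-2 : K) • bt K k (some (i, false)) = wf K (ng (k i)) := by
    show (-2 : K) • ((-2⁻¹ : K) • wf K (ng (k i))) = wf K (ng (k i))
    rw [smul_smul, neg_mul_neg, mul_inv_cancel₀ (two_ne H), one_smul]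
  rwa [h2] at h1

theorem V9c_wf (H : HypW C6 K) {b : Rt C6} (hb : b ∈ FrS k) : wf K b ∈ V9c_W K k := by
  obtain ⟨i, h | h⟩ := hb
  · rcases h with rfl | rfl
    · exact (V9c_ki H i).1
    · rw [wf_sg]
      exact (V9c_W K k).neg_mem (V9c_ki H i).1
  · rcases h with rfl | rfl
    · exact (V9c_ki H i).2
    · rw [wf_sg]
      exact (V9c_W K k).neg_mem (V9c_ki H i).2

theorem V9c_x0 (H : HypW C6 K) : hh C6 (zk ((k 0).1 - (sg (k 0)).1)) ∈ V9c_W K k := by
  have h1 := (V9c_W K k).smul_mem (2 : K) (V9c_bt (k := k) none)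
  have h2 : (2 : K) • bt K k none = hh C6 (zk ((k 0).1 - (sg (k 0)).1)) := by
    show (2 : K) • ((2⁻¹ : K) • hh C6 (zk ((k 0).1 - (sg (k 0)).1))) = _
    rw [smul_smul, mul_inv_cancel₀ (two_ne H), one_smul]
  rwa [h2] at h1

theorem V9c_anti (hk : Fr k) {a : Rt C6} (ha : a ∈ FrS k) :
    a.1 - (sg a).1 = (k 0).1 - (sg (k 0)).1 ∨ a.1 - (sg a).1 = -((k 0).1 - (sg (k 0)).1) := by
  obtain ⟨i, h | h⟩ := ha
  · rcases h with rfl | rfl
    · exact Or.inl (hk.sgn i 0)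
    · right
      rw [sg_sg, ← hk.sgn i 0]
      abel
  · rcases h with rfl | rfl
    · right
      rw [sg_ng, ng_val, ng_val, ← hk.sgn i 0]
      abel
    · left
      rw [sg_sg, sg_ng, ng_val, ng_val, ← hk.sgn i 0]
      abel

theorem V9c_hh (H : HypW C6 K) (hk : Fr k) {a : Rt C6} (ha : a ∈ FrS k) :
    hh C6 (zk (a.1 - (sg a).1)) ∈ V9c_W K k := by
  rcases V9c_anti hk ha with h | h
  · rw [h]
    exact V9c_x0 H
  · rw [h, zk_neg, hh_neg]
    exact (V9c_W K k).neg_mem (V9c_x0 H)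

/-- coordinates in the fixed space of `z` -/
theorem V9c_supp (H : HypW C6 K) {y : Fin 6 → ℤ} {x : LL C6 K} (hx : hd C6 y (-1) x = x)
    {d : Rt C6} (hd0 : x.2 d ≠ 0) : Even (ip C6 y d.1) := by
  by_contra hne
  rw [Int.not_even_iff_odd] at hne
  have h1 : (((-1 : Kˣ) ^ (ip C6 y d.1) : Kˣ) : K) * x.2 d = x.2 d :=
    congrFun (congrArg Prod.snd hx) d
  rw [hne.neg_one_zpow] at h1
  have h2 : (((-1 : Kˣ) : K)) = -1 := by simp
  rw [h2, neg_one_mul] at h1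
  have h3 : (2 : K) * x.2 d = 0 := by
    rw [two_mul]
    nth_rewrite 1 [← h1]
    rw [neg_add_cancel]
  rcases mul_eq_zero.1 h3 with h4 | h4
  · exact two_ne H h4
  · exact hd0 h4

theorem V9c_fix {y : Fin 6 → ℤ} {d : Rt C6} (h : Even (ip C6 y d.1)) :
    hd C6 y (-1) (e K d) = e K d := by
  rw [hd_e, h.neg_one_zpow, Units.val_one, one_smul]

theorem V9c_fix_w {b d : Rt C6} (h : Even (dg b d)) : hd C6 (cv b) (-1) (wf K d) = wf K d := by
  have h1 : Even (dg b (sg d)) := by rwa [dg_sg_right]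
  unfold wf
  rw [map_sub, V9c_fix h, V9c_fix h1]

theorem V9c_fix_D {b d : Rt C6} (h : Even (dg b d)) : hd C6 (cv b) (-1) (Df K d) = Df K d := by
  have h1 : Even (dg b (sg d)) := by rwa [dg_sg_right]
  by_cases hs : sg d = d
  · rw [Df_long hs, V9c_fix h]
  · rw [Df_short hs, map_add, V9c_fix h, V9c_fix h1]

/-- expansion of an element of `VF` fixed by `z` -/
theorem V9c_y (H : HypW C6 K) {b : Rt C6} {W : Submodule K (LL C6 K)}
    (L : LL C6 K →ₗ[K] LL C6 K) {y : LL C6 K} (hy : y ∈ VF K)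
    (zy : hd C6 (cv b) (-1) y = y) (h0 : ∀ h : Fin 6 → K, sv h = -h → L (hh C6 h) ∈ W)
    (h1 : ∀ d : Rt C6, sg d ≠ d → Even (dg b d) → L (wf K d) ∈ W) : L y ∈ W := by
  have h2 := two_ne H
  have e1 := SigB_dbl_VF y ((mem_VF' y).1 hy).2
  have e2 : (2 : K) • L y ∈ W := by
    rw [← map_smul, e1, map_add, map_smul, map_sum]
    refine W.add_mem (W.smul_mem _ (h0 _ ((mem_VF' y).1 hy).1)) (W.sum_mem fun d _ => ?_)
    rw [map_smul]
    by_cases hd0 : y.2 d = 0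
    · rw [hd0, zero_smul]
      exact W.zero_mem
    · refine W.smul_mem _ ?_
      by_cases hs : sg d = d
      · rw [hs, sub_self, map_zero]
        exact W.zero_mem
      · exact h1 d hs (V9c_supp H zy hd0)
  have e3 := W.smul_mem (2⁻¹ : K) e2
  rwa [smul_smul, inv_mul_cancel₀ h2, one_smul] at e3

/-- expansion of an element of `LF` fixed by `z` -/
theorem V9c_x (H : HypW C6 K) {b : Rt C6} {W : Submodule K (LL C6 K)}
    (L : LL C6 K →ₗ[K] LL C6 K) {x : LL C6 K} (hx : x ∈ LF K)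
    (zx : hd C6 (cv b) (-1) x = x) (h0 : ∀ h : Fin 6 → K, sv h = h → L (hh C6 h) ∈ W)
    (h1 : ∀ d : Rt C6, Even (dg b d) → L (Df K d) ∈ W) : L x ∈ W := by
  have h2 := two_ne H
  have e1 := SigB_dbl_LF x ((mem_LF' x).1 hx).2
  have e2 : (2 : K) • L x ∈ W := by
    rw [← map_smul, e1, map_add, map_smul, map_sum]
    refine W.add_mem (W.smul_mem _ (h0 _ ((mem_LF' x).1 hx).1)) (W.sum_mem fun d _ => ?_)
    rw [map_smul]
    by_cases hd0 : x.2 d = 0
    · rw [hd0, zero_smul]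
      exact W.zero_mem
    · refine W.smul_mem _ ?_
      have h3 := h1 d (V9c_supp H zx hd0)
      by_cases hs : sg d = d
      · rw [Df_long hs] at h3
        rw [hs, map_add]
        exact W.add_mem h3 h3
      · rw [Df_short hs] at h3
        exact h3
  have e3 := W.smul_mem (2⁻¹ : K) e2
  rwa [smul_smul, inv_mul_cancel₀ h2, one_smul] at e3

/-- brackets of generators: `[Df a, wf b]` -/
theorem V9c_Dw (H : HypW C6 K) (hk : Fr k) {a b : Rt C6} (ha : Even (dg (k 0) a))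
    (hbs : sg b ≠ b) (hb : Even (dg (k 0) b)) : br (Df K a) (wf K b) ∈ V9c_W K k := by
  rcases le_or_gt 0 (dg a b) with h | h
  · rw [br_Dw_long H h]
    exact (V9c_W K k).zero_mem
  by_cases h' : Eq4 (ng a) b
  · have has : sg a ≠ a := by
      intro h1
      exact hbs ((Eq4_len h').1 ((sg_ng_iff a).2 h1))
    have h2 : br (Df K a) (wf K (ng a)) ∈ V9c_W K k := by
      rw [br_D_wng H a has]
      exact (V9c_W K k).neg_mem (V9c_hh H hk ((frame_even hk a has).1 ha))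
    rcases h' with rfl | rfl
    · exact h2
    · rw [wf_sg, map_neg]
      exact (V9c_W K k).neg_mem h2
  · obtain ⟨c, hc, hcs, _⟩ := sm_of_neg a b h h'
    have hcs' : sg c ≠ c := fun h1 => hbs (hcs.1 h1).2
    obtain ⟨κ, _, h3⟩ := br_Dw H hc hbs hcs'
    rw [h3]
    refine (V9c_W K k).smul_mem _ (V9c_wf H ((frame_even hk c hcs').1 ?_))
    rw [sm_dg hc (k 0)]
    exact ha.add hb

theorem V9c_br (H : HypW C6 K) (hk : Fr k) {x y : LL C6 K} (hx : x ∈ LF K) (hy : y ∈ VF K)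
    (zx : hd C6 (cv (k 0)) (-1) x = x) (zy : hd C6 (cv (k 0)) (-1) y = y) :
    br x y ∈ V9c_W K k := by
  have key : (br : LL C6 K →ₗ[K] LL C6 K →ₗ[K] LL C6 K).flip y x ∈ V9c_W K k := by
    refine V9c_x H _ hx zx (fun h hs => ?_) (fun a ha => ?_)
    · show br (hh C6 h) y ∈ V9c_W K k
      refine V9c_y H (br (hh C6 h)) hy zy (fun h' _ => ?_) (fun d hds hd0 => ?_)
      · rw [br_hh_hh]
        exact (V9c_W K k).zero_mem
      · rw [br_h_w h hs]
        exact (V9c_W K k).smul_mem _ (V9c_wf H ((frame_even hk d hds).1 hd0))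
    · show br (Df K a) y ∈ V9c_W K k
      refine V9c_y H (br (Df K a)) hy zy (fun h' hs' => ?_) (fun d hds hd0 => ?_)
      · rw [br_skew H]
        refine (V9c_W K k).neg_mem ?_
        by_cases has : sg a = a
        · rw [Df_long has, br_hh_e, fk_anti_long H h' hs' a has, zero_smul]
          exact (V9c_W K k).zero_mem
        · rw [br_k_D h' hs' a has]
          exact (V9c_W K k).smul_mem _ (V9c_wf H ((frame_even hk a has).1 ha))
      · exact V9c_Dw H hk ha hds hd0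
  exact key

/-- the basis vectors are brackets -/
theorem V9c_exp_w (H : HypW C6 K) {d : Rt C6} (hd0 : Even (dg (k 0) d)) :
    ∃ x y : LL C6 K, x ∈ LF K ∧ y ∈ VF K ∧ hd C6 (cv (k 0)) (-1) x = x ∧
      hd C6 (cv (k 0)) (-1) y = y ∧ br x y = (2 : K) • wf K d := by
  refine ⟨hh C6 (zk (cv d)), wf K d, ?_, wf_mem d, hd_hh _ _ _, V9c_fix_w hd0, ?_⟩
  · rw [mem_LF']
    refine ⟨?_, fun a => ?_⟩
    · rw [hh_fst, ← zk_sv, sv_cv]
    · rw [hh_snd, hh_snd]
  · have h1 : sv (zk (cv d) : Fin 6 → K) = zk (cv d) := by rw [← zk_sv, sv_cv]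
    rw [br_h_w _ h1, DBrB_fk_cv, dg_self]
    norm_num

theorem V9c_exp_0 (H : HypW C6 K) (hk : Fr k) :
    ∃ x y : LL C6 K, x ∈ LF K ∧ y ∈ VF K ∧ hd C6 (cv (k 0)) (-1) x = x ∧
      hd C6 (cv (k 0)) (-1) y = y ∧ br x y = -hh C6 (zk ((k 0).1 - (sg (k 0)).1)) := by
  have h0 : Even (dg (k 0) (k 0)) := by
    rw [dg_self]
    exact even_two
  have h1 : Even (dg (k 0) (ng (k 0))) := by
    rw [dg_ng_right]
    exact h0.neg
  exact ⟨Df K (k 0), wf K (ng (k 0)), Df_mem _, wf_mem _, V9c_fix_D h0, V9c_fix_w h1,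
    br_D_wng H _ (hk.sh 0)⟩

theorem V9c_evn (hk : Fr k) (i : Fin 4) : Even (dg (k 0) (k i)) := by
  by_cases h : (0 : Fin 4) = i
  · subst h
    rw [dg_self]
    exact even_two
  · rw [hk.orth 0 i h]
    exact ⟨0, rfl⟩

theorem V9c_exp (H : HypW C6 K) (hk : Fr k) (a : Pool.Agent.H33.TO.Ix 4) :
    ∃ (κ : K) (x y : LL C6 K), x ∈ LF K ∧ y ∈ VF K ∧ hd C6 (cv (k 0)) (-1) x = x ∧
      hd C6 (cv (k 0)) (-1) y = y ∧ bt K k a = κ • br x y := by
  match a with
  | none =>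
    obtain ⟨x, y, h1, h2, h3, h4, h5⟩ := V9c_exp_0 H hk
    refine ⟨-2⁻¹, x, y, h1, h2, h3, h4, ?_⟩
    rw [h5, smul_neg, neg_smul, neg_neg]
    rfl
  | some (i, true) =>
    obtain ⟨x, y, h1, h2, h3, h4, h5⟩ := V9c_exp_w H (V9c_evn hk i)
    refine ⟨2⁻¹, x, y, h1, h2, h3, h4, ?_⟩
    rw [h5, smul_smul, inv_mul_cancel₀ (two_ne H), one_smul]
    rfl
  | some (i, false) =>
    have h0 : Even (dg (k 0) (ng (k i))) := by
      rw [dg_ng_right]
      exact (V9c_evn hk i).neg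
    obtain ⟨x, y, h1, h2, h3, h4, h5⟩ := V9c_exp_w H h0
    refine ⟨-2⁻¹ * 2⁻¹, x, y, h1, h2, h3, h4, ?_⟩
    rw [h5, smul_smul, mul_assoc, inv_mul_cancel₀ (two_ne H), mul_one]
    rfl

theorem V9_inv (H : HypW C6 K) (hk : Fr k) {g : LL C6 K ≃ₗ[K] LL C6 K} (hg : g ∈ GF K)
    (hz : g * hd C6 (cv (k 0)) (-1) = hd C6 (cv (k 0)) (-1) * g)
    (u : Pool.Agent.H33.TO.Ix 4 → K) : ∃ v, g (Phi K k u) = Phi K k v := by
  have hzx : ∀ x : LL C6 K, hd C6 (cv (k 0)) (-1) x = x → hd C6 (cv (k 0)) (-1) (g x) = g x := by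
    intro x hx
    have h1 : g (hd C6 (cv (k 0)) (-1) x) = hd C6 (cv (k 0)) (-1) (g x) :=
      LinearEquiv.congr_fun hz x
    rw [hx] at h1
    exact h1.symm
  have hb : ∀ a, g (bt K k a) ∈ V9c_W K k := by
    intro a
    obtain ⟨κ, x, y, h1, h2, h3, h4, h5⟩ := V9c_exp H hk a
    rw [h5, map_smul, (GF_le_GG hg).1]
    exact (V9c_W K k).smul_mem _ (V9c_br H hk ((GF_LF hg x).2 h1) ((GF_VF hg y).2 h2)
      (hzx x h3) (hzx y h4))
  have h : g (Phi K k u) ∈ V9c_W K k := by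
    show g (∑ a, u a • bt K k a) ∈ V9c_W K k
    rw [map_sum]
    refine (V9c_W K k).sum_mem fun a _ => ?_
    rw [map_smul]
    exact (V9c_W K k).smul_mem _ (hb a)
  obtain ⟨v, hv⟩ := h
  exact ⟨v, hv.symm⟩

end Pool.Agent.H31.F4
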