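import Pool.Agent.H31.F4.Tor4

/-!
# FF-08: the stabiliser of `L0` in `GF`

`NN4_perm`: `NN_perm` (`B.NorA`) gives `w`, `k`; `g` commutes with `Sg`: `g (e (sg a)) = Sg (g (e a))`
`= k a • e (sg (w a))`, so `w (sg a) = sg (w a)`, `k (sg a) = k a`.  So `g (Df a) = k a Df (w a)` and
`g (wf a) = k a wf (w a)`, `g (pv a) = k a pv (w a)`.
`NN4_conj`: `g t g⁻¹` is in `TT` (`NN_conj_TT`) and in `GF`; `T4_eq`.
`mem_NN_of_conj4`: `g x` for `x ∈ L0` is fixed by all `g t g⁻¹`, and the map `t ↦ g t g⁻¹` of the finite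
group `T4` into itself is onto, so `g x ∈ L0` by `mem_L0_iff4`; the same for `g⁻¹`.
`NN4_comm_trivial`: `g` commuting with `T4` preserves `L0` and the weight spaces; in `LF` these are
`K Df a`, in `VF` `K wf a`: `g (Df a) = k Df a`, `g (wf a) = k' wf a`, `k^(p^n) = 1` so `k = 1`
(characteristic `p`), `k' = 1`; so `g (e a) = e a` for all `a`; `g` is the identity on the
`hh (zk a)` (brackets) and so on `L0` (`zk_span`).
`rfv_perm`: isometries commuting with `sg` preserve everything.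
-/

namespace Pool.Agent.H31.F4

open Pool.Agent.H33.EL (ip cc eps Rt ng zk ek fk LL hh e brf fmf br fm IsExt exl ex xr hd L0 GG T1 TT NN SF cj wt)

variable {K : Type} [Field K]

private theorem nor4_coef {a : Rt C6} {k l : K} (h : k • e K a = l • e K a) : k = l := by
  have h1 := congrArg (fun x : LL C6 K => x.2 a) h
  change k * (e K a).2 a = l * (e K a).2 a at h1
  rw [e_snd_self, mul_one, mul_one] at h1
  exact h1

theorem NN4_perm (H : HypW C6 K) {g : LL C6 K ≃ₗ[K] LL C6 K} (hg : g ∈ NN C6 K)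
    (hg' : g ∈ GF K) : ∃ (w : Equiv.Perm (Rt C6)) (k : Rt C6 → K), (∀ a, k a ≠ 0) ∧
      (∀ a, w (sg a) = sg (w a)) ∧ (∀ a, w (ng a) = ng (w a)) ∧
      (∀ a, g (e K a) = k a • e K (w a)) ∧
      (∀ a, g (Df K a) = k a • Df K (w a)) ∧ (∀ a, g (wf K a) = k a • wf K (w a)) ∧
      (∀ a, g (pv K a) = k a • pv K (w a)) ∧
      (∀ a b, ip C6 (w a).1 (w b).1 = ip C6 a.1 b.1) ∧
      (∀ a b, dg (w a) (w b) = dg a b) ∧
      ∀ a, g (hh C6 (zk a.1)) = hh C6 (zk (w a).1) := by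
  obtain ⟨w, k, hk, hw1, hw2, hw3, hw4⟩ := NN_perm H hg
  have h1 : ∀ a, k (sg a) • e K (w (sg a)) = k a • e K (sg (w a)) := by
    intro a
    have h2 := GF_Sg hg' (e K a)
    rw [Sg_e, hw1, hw1, map_smul, Sg_e] at h2
    exact h2
  have hsg : ∀ a, w (sg a) = sg (w a) := fun a => nor_root_eq (hk _) (h1 a)
  have hks : ∀ a, k (sg a) = k a := by
    intro a
    have h2 := h1 a
    rw [hsg] at h2
    exact nor4_coef h2
  have hfix : ∀ a, sg (w a) = w a ↔ sg a = a := by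
    intro a
    rw [← hsg]
    exact w.injective.eq_iff
  have hwf : ∀ a, g (wf K a) = k a • wf K (w a) := by
    intro a
    unfold wf
    rw [map_sub, hw1, hw1, hks, hsg, smul_sub]
  refine ⟨w, k, hk, hsg, hw3, hw1, ?_, hwf, ?_, hw2, ?_, hw4⟩
  · intro a
    by_cases ha : sg a = a
    · rw [Df_long ha, Df_long ((hfix a).2 ha), hw1]
    · rw [Df_short ha, Df_short (fun h => ha ((hfix a).1 h)), map_add, hw1, hw1, hks, hsg,
        smul_add]
  · intro a
    by_cases ha : sg a = a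
    · rw [pv_long ha, pv_long ((hfix a).2 ha), hw1]
    · rw [pv_short ha, pv_short (fun h => ha ((hfix a).1 h)), hwf]
  · intro a b
    unfold dg cv
    by_cases ha : sg a = a
    · rw [if_pos ha, if_pos ((hfix a).2 ha), hw2]
    · rw [if_neg ha, if_neg (fun h => ha ((hfix a).1 h)), ip_add_left, ip_add_left, ← hsg, hw2,
        hw2]

theorem NN4_conj (H : HypW C6 K) {g : LL C6 K ≃ₗ[K] LL C6 K} (hg : g ∈ NN C6 K)
    (hg' : g ∈ GF K) : ∀ t ∈ T4 K, g * t * g⁻¹ ∈ T4 K := fun t ht =>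
  T4_eq H (NN_conj_TT H hg t (T4_le_TT H ht))
    (mul_mem (mul_mem hg' (T4_le_GF H ht)) (inv_mem hg'))

theorem wt_conj4 (H : HypW C6 K) {g t : LL C6 K ≃ₗ[K] LL C6 K} (hg : g ∈ NN C6 K)
    (hg' : g ∈ GF K) (ht : t ∈ T4 K) {a b : Rt C6} {k : K} (hab : g (Df K a) = k • Df K b)
    (hk : k ≠ 0) : wt (g * t * g⁻¹) b = wt t a := by
  have h1 : g⁻¹ (Df K b) = k⁻¹ • Df K a := by
    apply g.injective
    rw [nor_inv_apply, map_smul, hab, smul_smul, inv_mul_cancel₀ hk, one_smul]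
  have h2 : (g * t * g⁻¹) (Df K b) = wt t a • Df K b := by
    change g (t (g⁻¹ (Df K b))) = wt t a • Df K b
    rw [h1, map_smul, (T4_Df H ht a).1, map_smul, map_smul, hab, smul_smul, smul_smul]
    congr 1
    field_simp
  have h3 := (T4_Df H (NN4_conj H hg hg' t ht) b).1
  rw [h2] at h3
  have h4 : (wt t a - wt (g * t * g⁻¹) b) • Df K b = 0 := by
    rw [sub_smul, h3, sub_self]
  exact (sub_eq_zero.1 ((smul_eq_zero.1 h4).resolve_right (Df_ne_zero b))).symm

theorem mem_NN_of_conj4 (H : HypW C6 K) {g : LL C6 K ≃ₗ[K] LL C6 K} (hg : g ∈ GF K)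
    (h : ∀ t ∈ T4 K, g * t * g⁻¹ ∈ T4 K) : g ∈ NN C6 K := by
  have h1 : ∀ x ∈ L0 C6 K, g⁻¹ x ∈ L0 C6 K := by
    intro x hx
    rw [mem_L0_iff4 H]
    intro t ht
    have h2 : g (t (g⁻¹ x)) = x := (T4_le_TT H (h t ht)).2 x hx
    apply g.injective
    rw [h2, nor_inv_apply]
  have h3 : (L0 C6 K).map (g⁻¹ : LL C6 K ≃ₗ[K] LL C6 K).toLinearMap = L0 C6 K := by
    apply Submodule.eq_of_le_of_finrank_eq
    · rintro _ ⟨x, hx, rfl⟩
      exact h1 x hx
    · exact LinearEquiv.finrank_map_eq _ _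
  refine ⟨GF_le_GG hg, fun x => ⟨fun hx => ?_, fun hx => ?_⟩⟩
  · have h4 := h1 _ hx
    rw [nor_apply_inv] at h4
    exact h4
  · rw [← h3] at hx
    obtain ⟨y, hy, hyx⟩ := hx
    have h5 : g x = y := by
      rw [← hyx]
      exact nor_inv_apply g y
    rw [h5]
    exact hy

theorem T4_le_NN (H : HypW C6 K) : T4 K ≤ NN C6 K := (T4_le_TT H).trans TT_le_NN

private theorem nor4_pow {g : LL C6 K ≃ₗ[K] LL C6 K} {c : K} {v : LL C6 K} (h : g v = c • v)
    (m : ℕ) : (g ^ m) v = c ^ m • v := by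
  induction m with
  | zero =>
    rw [pow_zero, pow_zero, one_smul]
    rfl
  | succ m ih =>
    rw [pow_succ, LinearEquiv.mul_apply, h, map_smul, ih, smul_smul, pow_succ, mul_comm]

private theorem nor4_root {g : LL C6 K ≃ₗ[K] LL C6 K} {c : K} {v : LL C6 K} (h : g v = c • v)
    (hv : v ≠ 0) {m : ℕ} (hm : g ^ m = 1) : c ^ m = 1 := by
  have h1 := nor4_pow h m
  rw [hm] at h1
  have h2 : (c ^ m - 1) • v = 0 := by
    rw [sub_smul, one_smul, ← h1]
    exact sub_self v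
  exact sub_eq_zero.1 ((smul_eq_zero.1 h2).resolve_right hv)

theorem NN4_comm_trivial (H : HypW C6 K) {p : ℕ} [Fact p.Prime] [CharP K p]
    {g : LL C6 K ≃ₗ[K] LL C6 K} (hg : g ∈ GF K) (hc : ∀ t ∈ T4 K, g * t = t * g) (k : ℕ)
    (ho : g ^ p ^ k = 1) : g = 1 := by
  have hconj : ∀ t ∈ T4 K, g * t * g⁻¹ = t := by
    intro t ht
    rw [hc t ht, mul_assoc, mul_inv_cancel, mul_one]
  have hN : g ∈ NN C6 K := mem_NN_of_conj4 H hg fun t ht => by
    rw [hconj t ht]
    exact ht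
  obtain ⟨w, κ, hκ, hsg, -, he, hD, hW, -, -, -, -⟩ := NN4_perm H hN hg
  have hEq : ∀ a, Eq4 a (w a) := by
    intro a
    by_contra hne
    obtain ⟨t, ht, h1⟩ := T4_sep H hne
    have h2 := wt_conj4 H hN hg ht (hD a) (hκ a)
    rw [hconj t ht] at h2
    exact h1 h2.symm
  have hp : Odd (p ^ k) := by
    have hpp : p.Prime := Fact.out
    refine Odd.pow ?_
    rcases hpp.eq_two_or_odd' with h2 | h2
    · exfalso
      apply two_ne H
      have h3 := CharP.cast_eq_zero K p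
      rw [h2] at h3
      exact_mod_cast h3
    · exact h2
  have hw : ∀ a, w a = a := by
    intro a
    rcases hEq a with h1 | h1
    · exact h1
    · by_contra hne
      have ha : sg a ≠ a := fun h => hne (h1.trans h)
      have h2 : g (Df K a) = κ a • Df K a := by
        rw [hD, Df_Eq4 (hEq a)]
      have h3 : g (wf K a) = (-κ a) • wf K a := by
        rw [hW, h1, wf_sg, smul_neg, neg_smul]
      have h4 := nor4_root h2 (Df_ne_zero a) ho
      have h5 := nor4_root h3 (wf_ne_zero H ha) ho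
      rw [hp.neg_pow, h4] at h5
      apply two_ne H
      linear_combination -h5
  have hT : g ∈ TT C6 K := mem_TT_of H (GF_le_GG hg) fun a => ⟨κ a, by rw [he, hw]⟩
  exact TT_order H hT k ho

/-- an element of `GF` which centralises the invariant toral vectors is in `NN` -/
theorem mem_NN_of_LF0 (H : HypW C6 K) {g : LL C6 K ≃ₗ[K] LL C6 K} (hg : g ∈ GF K)
    (h : ∀ k : Fin 6 → K, sv k = k → g (hh C6 k) = hh C6 k) : g ∈ NN C6 K := by
  have key : ∀ x : LL C6 K, x ∈ L0 C6 K ↔ ∀ k : Fin 6 → K, sv k = k → br (hh C6 k) x = 0 := by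
    intro x
    constructor
    · intro hx k _
      rw [eq_hh_of_mem hx, br_hh_hh]
    · intro hx
      rw [mem_L0]
      funext b
      have h1 : sv (zk (cv b) : Fin 6 → K) = zk (cv b) := by
        rw [← zk_sv, sv_cv]
      have h2 := congrArg (fun y : LL C6 K => y.2 b) (hx _ h1)
      have h3 : fk C6 (zk (cv b)) (zk b.1) * x.2 b = 0 := by
        rw [← br_hh_snd]
        exact h2
      have h4 : fk C6 (zk (cv b)) (zk b.1) = (2 : K) := by
        rw [fk_zk_zk]
        have h5 : ip C6 (cv b) b.1 = 2 := dg_self b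
        rw [h5]
        norm_num
      rw [h4] at h3
      exact (mul_eq_zero.1 h3).resolve_left (two_ne H)
  refine ⟨GF_le_GG hg, fun x => ?_⟩
  rw [key, key]
  have h1 : ∀ k : Fin 6 → K, sv k = k → br (hh C6 k) (g x) = g (br (hh C6 k) x) := by
    intro k hk
    rw [(GF_le_GG hg).1, h k hk]
  constructor
  · intro h2 k hk
    have h3 := h2 k hk
    rw [h1 k hk] at h3
    exact (LinearEquiv.map_eq_zero_iff g).1 h3
  · intro h2 k hk
    rw [h1 k hk, h2 k hk, map_zero]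

theorem finite4 (H : HypW C6 K) : Finite (LL C6 K ≃ₗ[K] LL C6 K) := finite_group H

theorem mem_cj4 {g : LL C6 K ≃ₗ[K] LL C6 K} {F : Subgroup (LL C6 K ≃ₗ[K] LL C6 K)}
    {x : LL C6 K ≃ₗ[K] LL C6 K} : x ∈ cj g F ↔ g * x * g⁻¹ ∈ F := Iff.rfl

theorem card_cj4 (g : LL C6 K ≃ₗ[K] LL C6 K) (F : Subgroup (LL C6 K ≃ₗ[K] LL C6 K)) :
    Nat.card (cj g F) = Nat.card F := by
  have h : cj g F = F.map (MulAut.conj g⁻¹).toMonoidHom := by
    ext x
    rw [mem_cj4, Subgroup.mem_map]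
    constructor
    · intro hx
      exact ⟨_, hx, by simp [mul_assoc]⟩
    · rintro ⟨y, hy, rfl⟩
      simpa [mul_assoc] using hy
  rw [h]
  exact (Nat.card_congr (Subgroup.equivMapOfInjective F _
    (MulEquiv.injective (MulAut.conj g⁻¹))).toEquiv).symm

theorem cj_le_GF {g : LL C6 K ≃ₗ[K] LL C6 K} (hg : g ∈ GF K)
    {F : Subgroup (LL C6 K ≃ₗ[K] LL C6 K)} (hF : F ≤ GF K) : cj g F ≤ GF K := by
  intro x hx
  have h := hF (mem_cj4.1 hx)
  have := mul_mem (mul_mem (inv_mem hg) h) hg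
  simpa [mul_assoc] using this

end Pool.Agent.H31.F4
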