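import Pool.Agent.H31.F4.V9b
import Pool.Agent.H31.F4.Nor4

/-!
# FF-66: the kernel on the 9-dimensional module

`diag_NN4`: `g (wf (k i)) = λ wf (k i)`, `g (wf (ng (k i))) = μ wf (ng (k i))`, `λ μ = 1` (`fm`), so `g` fixes
`[wf (k i), wf (ng (k i))] = -hh (zk (cv (k i)))` (`br_w_wng`).  By `cv_long`, `cv_short`, `zk_cv_span` (char ≠ 2) the `zk (cv (k i))` span
`{h : sv h = h}`: `mem_NN_of_LF0`.
`V9_ker`: `g` fixes all `Phi u`, so all `[Phi u, Phi v]`: the `Df (± k i)`, (`[x0, wf a] = ± Df a`), all long root vectors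
(`frame_long`, `br_ww`), all `hh h`, `sv h = h` (as before).  `g ∈ NN` (`mem_NN_of_LF0`), `w` its permutation (`NN4_perm`).
Let `d` be short, `d ∉ FrS k`; `w d` is short, `w d ∉ FrS k` (`w` fixes the classes of `± k i`, `w` injective; lengths: `g` fixes the long
root vectors).  `[Df (k i), Df d] ≠ 0` iff `dg (k i) d = -1` (`frame_odd`, `sm_of_neg`, `br_DD`, `br_DD_zero`), and applying `g` the same for
`w d`; so `dg (k i) (w d) = dg (k i) d` and `Eq4 d (w d)` by `frame_inj`; `g (Df d) = κ_d Df d`.  If `Sm a d d'`, `a` long or in `FrS k`,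
`d, d' ∉ FrS k` short: `κ_d = κ_d'`.  `κ_d = κ` for all such `d` (go from `d` to `d'` by changing the signs of `dg (k i) d` one at
a time: adding `± k i`).  `κ² = κ_d κ_(ng d) = 1` (`fm_D`).  Let `g' = g` if `κ = 1`, `g' = g z` if `κ = -1`
(`z` has weight `-1` at `d ∉ FrS k` and fixes the rest).  `g'` fixes all `Df a`, all `hh h` (`sv h = h`), and `wf (± k i)`; the other `wf d` are
multiples of `[Df y, wf (k i)]` (`y = d - k i` or `d + k i` …, `br_Dw`), and `hh z`, `sv z = -z`, is a combination of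
`[Df a, wf (ng a)]` (`zk_anti_span`, `br_D_wng`).  So `g' = 1` (`LF_add_VF`, `ext_LF`, `ext_VF`).
-/

namespace Pool.Agent.H31.F4

open Pool.Agent.H33.EL (ip cc eps Rt ng zk ek fk LL hh e brf fmf br fm IsExt exl ex xr hd L0 GG T1 TT NN SF cj wt)

variable {K : Type} [Field K]

variable {k : Fin 4 → Rt C6}

private theorem V9k_half {x : LL C6 K} (c : K) (hc : c ≠ 0)
    (g : LL C6 K ≃ₗ[K] LL C6 K) {d : K} (h : g (c • x) = d • (c • x)) : g x = d • x := by
  rw [map_smul, smul_comm] at h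
  exact smul_right_injective _ hc h

private theorem V9k_inv2 (H : HypW C6 K) : (2⁻¹ : K) ≠ 0 ∧ (-2⁻¹ : K) ≠ 0 :=
  ⟨inv_ne_zero (two_ne H), neg_ne_zero.2 (inv_ne_zero (two_ne H))⟩

private theorem V9k_ng (hk : Fr k) (i : Fin 4) : sg (ng (k i)) ≠ ng (k i) :=
  fun h => hk.sh i ((sg_ng_iff _).1 h)

/-- the toral vectors fixed by `g` -/
private def V9k_S (g : LL C6 K ≃ₗ[K] LL C6 K) : Submodule K (Fin 6 → K) where
  carrier := {h | g (hh C6 h) = hh C6 h}
  add_mem' := by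
    intro a b ha hb
    change g (hh C6 (a + b)) = hh C6 (a + b)
    rw [hh_add, map_add, ha, hb]
  zero_mem' := by
    change g (hh C6 0) = hh C6 0
    rw [hh_zero, map_zero]
  smul_mem' := by
    intro c a ha
    change g (hh C6 (c • a)) = hh C6 (c • a)
    rw [hh_smul, map_smul, ha]

private theorem V9k_fix (H : HypW C6 K) (hk : Fr k) {g : LL C6 K ≃ₗ[K] LL C6 K} (hg : g ∈ GF K)
    {i : Fin 4} {c d : K} (h1 : g (wf K (k i)) = c • wf K (k i))
    (h2 : g (wf K (ng (k i))) = d • wf K (ng (k i))) : zk (cv (k i)) ∈ V9k_S g := by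
  have h3 := (GF_le_GG hg).2 (wf K (k i)) (wf K (ng (k i)))
  have h4 : fm (wf K (k i)) (wf K (ng (k i))) = -2 := by
    rw [fm_w H (wf_mem _) (k i) (hk.sh i), (wf_snd_self (V9k_ng hk i)).1, mul_one]
  rw [h1, h2] at h3
  simp only [map_smul, LinearMap.smul_apply, smul_eq_mul, h4] at h3
  have h5 : c * d = 1 := by
    have h6 := two_ne H
    have h7 : (c * d - 1) * 2 = 0 := by linear_combination -h3
    rcases mul_eq_zero.1 h7 with h8 | h8
    · linear_combination h8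
    · exact absurd h8 h6
  have h6 := (GF_le_GG hg).1 (wf K (k i)) (wf K (ng (k i)))
  have h7 : br (c • wf K (k i)) (d • wf K (ng (k i))) = br (wf K (k i)) (wf K (ng (k i))) := by
    rw [map_smul, map_smul, LinearMap.smul_apply, smul_smul, mul_comm d c, h5, one_smul]
  rw [h1, h2, h7, br_w_wng H (k i) (hk.sh i), map_neg] at h6
  exact neg_injective h6

private theorem V9k_two {S : Submodule K (Fin 6 → K)} (H : HypW C6 K) {x : Fin 6 → ℤ}
    (h : (zk (x + x) : Fin 6 → K) ∈ S) : (zk x : Fin 6 → K) ∈ S := by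
  have h1 : (zk x : Fin 6 → K) = (2⁻¹ : K) • zk (x + x) := by
    rw [zk_add, ← two_smul K, smul_smul, inv_mul_cancel₀ (two_ne H), one_smul]
  rw [h1]
  exact S.smul_mem _ h

theorem diag_NN4 (H : HypW C6 K) (hk : Fr k) {g : LL C6 K ≃ₗ[K] LL C6 K} (hg : g ∈ GF K)
    (h : ∀ a, ∃ c : K, g (bt K k a) = c • bt K k a) : g ∈ NN C6 K := by
  have hS : ∀ i, (zk (cv (k i)) : Fin 6 → K) ∈ V9k_S g := by
    intro i
    obtain ⟨c, hc⟩ := h (some (i, true))
    obtain ⟨d, hd⟩ := h (some (i, false))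
    exact V9k_fix H hk hg hc (V9k_half _ (V9k_inv2 H).2 g hd)
  have hlong : ∀ a : Rt C6, sg a = a → (zk a.1 : Fin 6 → K) ∈ V9k_S g := by
    intro a ha
    obtain ⟨i, j, -, h1⟩ := cv_long hk a ha
    refine V9k_two H ?_
    rcases h1 with h1 | h1 | h1
    · rw [h1, zk_add]
      exact add_mem (hS i) (hS j)
    · rw [h1, zk_sub]
      exact sub_mem (hS i) (hS j)
    · rw [h1, zk_sub, zk_neg]
      exact sub_mem (neg_mem (hS i)) (hS j)
  have hall : ∀ a : Rt C6, (zk (cv a) : Fin 6 → K) ∈ V9k_S g := by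
    intro a
    by_cases ha : sg a = a
    · have h1 : cv a = a.1 := if_pos ha
      rw [h1]
      exact hlong a ha
    · obtain ⟨b, c, hb, hc, h1⟩ := cv_short a ha
      rw [h1, zk_add]
      exact add_mem (hlong b hb) (hlong c hc)
  refine mem_NN_of_LF0 H hg fun h hs => ?_
  have h1 := zk_cv_span H hs
  have h2 : Submodule.span K {k : Fin 6 → K | ∃ a : Rt C6, k = zk (cv a)} ≤ V9k_S g := by
    rw [Submodule.span_le]
    rintro _ ⟨a, rfl⟩
    exact hall a
  exact h2 h1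

private theorem V9k_w (H : HypW C6 K) (hk : Fr k) {g : LL C6 K ≃ₗ[K] LL C6 K}
    {w : Equiv.Perm (Rt C6)} {κ : Rt C6 → K} (hsg : ∀ a, w (sg a) = sg (w a))
    (hW : ∀ a, g (wf K a) = κ a • wf K (w a))
    (hhh : ∀ a : Rt C6, g (hh C6 (zk a.1)) = hh C6 (zk (w a).1))
    (h1 : ∀ i, g (wf K (k i)) = wf K (k i))
    (hz : g (hh C6 (zk ((k 0).1 - (sg (k 0)).1))) = hh C6 (zk ((k 0).1 - (sg (k 0)).1)))
    (i : Fin 4) : w (k i) = k i := by
  have h2 : Eq4 (w (k i)) (k i) := by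
    by_contra hne
    have h3 := hW (k i)
    rw [h1 i] at h3
    have h4 := congrArg (fun x : LL C6 K => x.2 (k i)) h3
    change (wf K (k i)).2 (k i) = κ (k i) * (wf K (w (k i))).2 (k i) at h4
    rw [wf_snd_ne hne, mul_zero, (wf_snd_self (hk.sh i)).1] at h4
    exact one_ne_zero h4
  rcases h2 with h2 | h2
  · exact h2.symm
  · exfalso
    have h3 : w (k i) = sg (k i) := by
      conv_rhs => rw [h2, sg_sg]
    have h4 : w (sg (k i)) = k i := by rw [hsg, h3, sg_sg]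
    have h5 : g (hh C6 (zk ((k i).1 - (sg (k i)).1))) =
        -hh C6 (zk ((k i).1 - (sg (k i)).1)) := by
      rw [zk_sub, sub_eq_add_neg, hh_add, hh_neg, map_add, map_neg, hhh, hhh, h3, h4]
      abel
    rw [hk.sgn i 0] at h5
    rw [hz] at h5
    have h6 : (2 : K) • (zk ((k 0).1 - (sg (k 0)).1) : Fin 6 → K) = 0 := by
      have h7 := congrArg (fun x : LL C6 K => x.1) h5
      change (zk ((k 0).1 - (sg (k 0)).1) : Fin 6 → K) = -zk ((k 0).1 - (sg (k 0)).1) at h7
      rw [two_smul]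
      nth_rewrite 1 [h7]
      exact neg_add_cancel _
    have h7 := (smul_eq_zero.1 h6).resolve_left (two_ne H)
    have h8 := fk_zz H (k 0) (hk.sh 0)
    rw [h7, fk_zero_left] at h8
    exact two_ne H h8.symm

private theorem V9k_step (H : HypW C6 K) (hk : Fr k) {g : LL C6 K ≃ₗ[K] LL C6 K}
    (hg : g ∈ T4 K) (h1 : ∀ i, wt g (k i) = 1) (i : Fin 4) (d : Rt C6) (hd : sg d ≠ d)
    (hd' : d ∉ FrS k) : ∃ c : Rt C6, sg c ≠ c ∧ c ∉ FrS k ∧ wt g c = wt g d ∧
      dg (k i) c = 1 ∧ ∀ j, j ≠ i → dg (k j) c = dg (k j) d := by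
  rcases frame_odd hk d hd hd' i with h2 | h2
  · exact ⟨d, hd, hd', rfl, h2, fun _ _ => rfl⟩
  · have h3 : ¬ Eq4 (ng (k i)) d := fun h => hd' ⟨i, Or.inr h⟩
    obtain ⟨c, hc, hcs, -⟩ := sm_of_neg (k i) d (by rw [h2]; norm_num) h3
    have hc1 : sg c ≠ c := fun h => hk.sh i (hcs.1 h).1
    have hci : dg (k i) c = 1 := by
      rw [sm_dg hc, dg_self, h2]
      norm_num
    have hcj : ∀ j, j ≠ i → dg (k j) c = dg (k j) d := by
      intro j hj
      rw [sm_dg hc, hk.orth j i hj, zero_add]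
    refine ⟨c, hc1, ?_, ?_, hci, hcj⟩
    · rw [← frame_even hk c hc1]
      have h4 : dg (k 0) c = 1 ∨ dg (k 0) c = -1 := by
        by_cases hi : i = 0
        · left
          rw [← hi]
          exact hci
        · rw [hcj 0 (Ne.symm hi)]
          exact frame_odd hk d hd hd' 0
      rcases h4 with h4 | h4 <;> rw [h4] <;> decide
    · rw [wt_sm H hg hc, h1, one_mul]

private theorem V9k_top (H : HypW C6 K) (hk : Fr k) {g : LL C6 K ≃ₗ[K] LL C6 K}
    (hg : g ∈ T4 K) (h1 : ∀ i, wt g (k i) = 1) (d : Rt C6) (hd : sg d ≠ d)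
    (hd' : d ∉ FrS k) : ∃ c : Rt C6, wt g c = wt g d ∧ ∀ i, dg (k i) c = 1 := by
  obtain ⟨c0, a1, a2, a3, a4, a5⟩ := V9k_step H hk hg h1 0 d hd hd'
  obtain ⟨c1, b1, b2, b3, b4, b5⟩ := V9k_step H hk hg h1 1 c0 a1 a2
  obtain ⟨c2, d1, d2, d3, d4, d5⟩ := V9k_step H hk hg h1 2 c1 b1 b2
  obtain ⟨c3, e1, e2, e3, e4, e5⟩ := V9k_step H hk hg h1 3 c2 d1 d2
  refine ⟨c3, by rw [e3, d3, b3, a3], fun i => ?_⟩
  fin_cases i
  · change dg (k 0) c3 = 1
    rw [e5 0 (by decide), d5 0 (by decide), b5 0 (by decide), a4]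
  · change dg (k 1) c3 = 1
    rw [e5 1 (by decide), d5 1 (by decide), b4]
  · change dg (k 2) c3 = 1
    rw [e5 2 (by decide), d4]
  · exact e4

private theorem V9k_eq4 (H : HypW C6 K) {g : LL C6 K ≃ₗ[K] LL C6 K} (hg : g ∈ T4 K)
    {a b : Rt C6} (h : Eq4 a b) : wt g b = wt g a := by
  rcases h with h | h
  · rw [h]
  · rw [h, wt_sg H hg]

private theorem V9k_const (H : HypW C6 K) (hk : Fr k) {g : LL C6 K ≃ₗ[K] LL C6 K}
    (hg : g ∈ T4 K) (h1 : ∀ i, wt g (k i) = 1) (d d' : Rt C6) (hd : sg d ≠ d)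
    (hd' : d ∉ FrS k) (he : sg d' ≠ d') (he' : d' ∉ FrS k) : wt g d' = wt g d := by
  obtain ⟨c, hc, hc'⟩ := V9k_top H hk hg h1 d hd hd'
  obtain ⟨b, hb, hb'⟩ := V9k_top H hk hg h1 d' he he'
  rw [← hc, ← hb]
  exact V9k_eq4 H hg (frame_inj hk c b fun i => by rw [hc', hb'])

theorem V9_ker (H : HypW C6 K) (hk : Fr k) {g : LL C6 K ≃ₗ[K] LL C6 K} (hg : g ∈ GF K)
    (h : ∀ u, g (Phi K k u) = Phi K k u) : g = 1 ∨ g = hd C6 (cv (k 0)) (-1) := by
  have hbt : ∀ a, g (bt K k a) = bt K k a := by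
    intro a
    rw [← Phi_ev]
    exact h _
  have hN : g ∈ NN C6 K := diag_NN4 H hk hg fun a => ⟨1, by rw [one_smul, hbt]⟩
  obtain ⟨w, κ, -, hsg, hng, he, -, hW, -, hip, hdg, hhh⟩ := NN4_perm H hN hg
  have hwf : ∀ i, g (wf K (k i)) = wf K (k i) := fun i => hbt (some (i, true))
  have hz : g (hh C6 (zk ((k 0).1 - (sg (k 0)).1))) = hh C6 (zk ((k 0).1 - (sg (k 0)).1)) := by
    have h1 := V9k_half (x := hh C6 (zk ((k 0).1 - (sg (k 0)).1))) (d := 1) _
      (V9k_inv2 H).1 g (by rw [one_smul]; exact hbt none)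
    rw [one_smul] at h1
    exact h1
  have hwk : ∀ i, w (k i) = k i := V9k_w H hk hsg hW hhh hwf hz
  have hE : ∀ a, Eq4 a (w a) := by
    intro a
    refine frame_inj hk a (w a) fun i => ?_
    have h1 := hdg (k i) a
    rw [hwk] at h1
    exact h1.symm
  have hw : ∀ a, w a = a := by
    intro a
    rcases hE a with h1 | h1
    · exact h1
    · by_cases ha : sg a = a
      · rw [h1, ha]
      · by_cases hF : a ∈ FrS k
        · obtain ⟨i, h2 | h2⟩ := hF
          · rcases h2 with rfl | rfl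
            · exact hwk i
            · rw [hsg, hwk]
          · rcases h2 with rfl | rfl
            · rw [hng, hwk]
            · rw [hsg, hng, hwk]
        · exfalso
          have h2 := hip (k 0) a
          rw [hwk, h1] at h2
          have h3 := dg_short (k 0) a (hk.sh 0)
          rcases frame_odd hk a ha hF 0 with h4 | h4 <;> omega
  have hT : g ∈ TT C6 K := mem_TT_of H (GF_le_GG hg) fun a => ⟨κ a, by rw [he, hw]⟩
  have hT4 : g ∈ T4 K := T4_eq H hT hg
  have h1 : ∀ i, wt g (k i) = 1 := by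
    intro i
    have h2 := (T4_Df H hT4 (k i)).2.1
    rw [hwf i] at h2
    have h3 : (wt g (k i) - 1) • wf K (k i) = 0 := by
      rw [sub_smul, one_smul, ← h2, sub_self]
    exact sub_eq_zero.1 ((smul_eq_zero.1 h3).resolve_right (wf_ne_zero H (hk.sh i)))
  have h1' : ∀ i, wt g (ng (k i)) = 1 := by
    intro i
    rw [wt_ng H hT, h1, inv_one]
  have hlong : ∀ a, sg a = a → wt g a = 1 := by
    intro a ha
    obtain ⟨i, j, -, h2⟩ := frame_long hk a ha
    rcases h2 with h2 | h2 | h2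
    · rw [wt_sm H hT4 h2, h1, h1, one_mul]
    · rw [wt_sm H hT4 h2, h1, h1', one_mul]
    · rw [wt_sm H hT4 h2, h1', h1', one_mul]
  have hFr : ∀ a, a ∈ FrS k → wt g a = 1 := by
    rintro a ⟨i, h2 | h2⟩
    · rw [V9k_eq4 H hT4 h2, h1]
    · rw [V9k_eq4 H hT4 h2, h1']
  by_cases hall : ∀ d, sg d ≠ d → d ∉ FrS k → wt g d = 1
  · left
    refine TT_ext H hT (one_mem _) fun a => ?_
    rw [wt_one]
    by_cases ha : sg a = a
    · exact hlong a ha
    · by_cases hF : a ∈ FrS k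
      · exact hFr a hF
      · exact hall a ha hF
  · right
    push Not at hall
    obtain ⟨d0, hd1, hd2, hd3⟩ := hall
    have hn1 : sg (ng d0) ≠ ng d0 := fun h2 => hd1 ((sg_ng_iff _).1 h2)
    have hn2 : ng d0 ∉ FrS k := by
      rw [← frame_even hk _ hn1, dg_ng_right]
      rcases frame_odd hk d0 hd1 hd2 0 with h2 | h2 <;> rw [h2] <;> decide
    have h2 := V9k_const H hk hT4 h1 d0 (ng d0) hd1 hd2 hn1 hn2
    rw [wt_ng H hT] at h2
    have h3 := wt_ne_zero H hT d0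
    have h4 : wt g d0 = -1 := by
      have h5 : wt g d0 * wt g d0 = 1 := by
        nth_rewrite 1 [← h2]
        exact inv_mul_cancel₀ h3
      rcases mul_self_eq_one_iff.1 h5 with h6 | h6
      · exact absurd h6 hd3
      · exact h6
    refine TT_ext H hT (hd_mem_TT H _ _) fun a => ?_
    rw [wt_hd_cv]
    by_cases ha : sg a = a
    · rw [hlong a ha, dg_SL (k 0) a (hk.sh 0) ha, (even_two_mul _).neg_one_zpow, Units.val_one]
    · by_cases hF : a ∈ FrS k
      · rw [hFr a hF, ((frame_even hk a ha).2 hF).neg_one_zpow, Units.val_one]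
      · rw [V9k_const H hk hT4 h1 d0 a hd1 hd2 ha hF, h4]
        have h5 : Odd (dg (k 0) a) := by
          rcases frame_odd hk a ha hF 0 with h6 | h6 <;> rw [h6] <;> decide
        rw [h5.neg_one_zpow, Units.val_neg, Units.val_one]

end Pool.Agent.H31.F4
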