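import Pool.Agent.H31.F4.V9b
import Pool.Agent.H31.F4.XfA

/-!
# FF-65: the root groups acting on the 9-dimensional module

`a, b : Ix 4`, `a ≠ none`, `b ≠ a, ng a`.  `[bt a, bt b] = κ1 Df α`, `κ1 ≠ 0`: for `b = none`: `α = ± k i` (`br_k_w`), for `b ≠ none`:
`α` long (`br_ww`).  `N = ad (Df α) = κ1⁻¹ ad [bt a, bt b]`; by `V9_br` and Jacobi
`[[v,w],x] = [v,[w,x]] - [w,[v,x]] = (w,x) v - (v,x) w` on `V9`: so `N x = κ1⁻¹ ((b,x) a - (a,x) b)`, `N² x = -κ1⁻² (b,b) (a,x) a`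
(`(a,a) = (a,b) = 0`; `(b,b) = 1` for `b = none`, `0` otherwise).  `xf α s = 1 + s N + (s²/2) N²` (`xf_apply`) is
`u ↦ u + c (u,a) b - c (u,b) a - (c²/2) (b,b) (u,a) a` for `s = -κ1 c`.
`z = hd (cv (k 0)) (-1)` commutes with `xf α s`: weight 1 at `α` (`T4_conj_xf`; `wt_hd_cv`, `frame_even`).
-/

namespace Pool.Agent.H31.F4

open Pool.Agent.H33.EL (ip cc eps Rt ng zk ek fk LL hh e brf fmf br fm IsExt exl ex xr hd L0 GG T1 TT NN SF cj wt)

variable {K : Type} [Field K]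

variable {k : Fin 4 → Rt C6}

theorem V9r_bt (H : HypW C6 K) (i : Fin 4) (s : Bool) : ∃ (r : Rt C6) (c : K), c ≠ 0 ∧
    bt K k (some (i, s)) = c • wf K r ∧ (r = k i ∨ r = ng (k i)) := by
  cases s
  · refine ⟨ng (k i), -2⁻¹, ?_, rfl, Or.inr rfl⟩
    exact neg_ne_zero.2 (inv_ne_zero (two_ne H))
  · exact ⟨k i, 1, one_ne_zero, by rw [one_smul]; rfl, Or.inl rfl⟩

theorem V9r_even (hk : Fr k) {r : Rt C6} {i : Fin 4} (h : r = k i ∨ r = ng (k i)) :
    Even (dg (k 0) r) := by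
  have h1 : Even (dg (k 0) (k i)) := by
    by_cases hi : i = 0
    · rw [hi, dg_self]
      exact even_two
    · rw [hk.orth 0 i (Ne.symm hi)]
      exact Even.zero
  rcases h with rfl | rfl
  · exact h1
  · rw [dg_ng_right]
    exact h1.neg

theorem V9r_br (H : HypW C6 K) (hk : Fr k) {a b : Pool.Agent.H33.TO.Ix 4} (ha : a ≠ none)
    (hb : b ≠ a) (hb' : b ≠ Pool.Agent.H33.TO.ng a) :
    ∃ α : Rt C6, ∃ κ : K, κ ≠ 0 ∧ br (bt K k a) (bt K k b) = κ • Df K α ∧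
      Even (dg (k 0) α) := by
  rcases a with _ | ⟨i, s⟩
  · exact absurd rfl ha
  obtain ⟨r, c, hc, h1, h2⟩ := V9r_bt (k := k) H i s
  have hr : sg r ≠ r := by
    rcases h2 with rfl | rfl
    · exact hk.sh i
    · exact fun h => hk.sh i ((sg_ng_iff _).1 h)
  rcases b with _ | ⟨j, t⟩
  · -- the zero weight vector
    have h3 : bt K k none = (2⁻¹ : K) • hh C6 (zk ((k i).1 - (sg (k i)).1)) := by
      rw [hk.sgn i 0]
      rfl
    have hz : sv (zk ((k i).1 - (sg (k i)).1) : Fin 6 → K) = -(zk ((k i).1 - (sg (k i)).1)) :=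
      DBrB_sv_anti (k i)
    have h4 : fk C6 (zk ((k i).1 - (sg (k i)).1) : Fin 6 → K) (zk r.1) ≠ 0 := by
      rcases h2 with rfl | rfl
      · rw [fk_zz H _ (hk.sh i)]
        exact two_ne H
      · rw [ng_val, zk_neg, fk_neg_right, fk_zz H _ (hk.sh i)]
        exact neg_ne_zero.2 (two_ne H)
    refine ⟨r, -(c * 2⁻¹ * fk C6 (zk ((k i).1 - (sg (k i)).1) : Fin 6 → K) (zk r.1)),
      neg_ne_zero.2 (mul_ne_zero (mul_ne_zero hc (inv_ne_zero (two_ne H))) h4), ?_,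
      V9r_even hk h2⟩
    rw [h1, h3, map_smul, map_smul, LinearMap.smul_apply, br_skew H, br_k_w _ hz r hr]
    module
  · -- a short root vector
    have hij : j ≠ i := by
      rintro rfl
      cases s <;> cases t
      · exact hb rfl
      · exact hb' rfl
      · exact hb' rfl
      · exact hb rfl
    obtain ⟨r', c', hc', h1', h2'⟩ := V9r_bt (k := k) H j t
    have hr' : sg r' ≠ r' := by
      rcases h2' with rfl | rfl
      · exact hk.sh j
      · exact fun h => hk.sh j ((sg_ng_iff _).1 h)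
    have h3 : dg r r' = 0 := by
      have h4 := hk.orth i j (Ne.symm hij)
      rcases h2 with rfl | rfl <;> rcases h2' with rfl | rfl
      · exact h4
      · rw [dg_ng_right, h4, neg_zero]
      · rw [dg_ng_left, h4, neg_zero]
      · rw [dg_ng_left, dg_ng_right, h4, neg_zero, neg_zero]
    obtain ⟨α, hα, hl, -⟩ := sm_of_orth r r' hr hr' h3
    obtain ⟨κ, hκ, h5⟩ := br_ww (K := K) H hα hr hr'
    refine ⟨α, c * c' * κ, mul_ne_zero (mul_ne_zero hc hc') hκ, ?_, ?_⟩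
    · rw [h1, h1', map_smul, map_smul, LinearMap.smul_apply, h5]
      module
    · rw [dg_SL (k 0) α (hk.sh 0) hl]
      exact even_two_mul _

theorem V9r_bl_left (a : Pool.Agent.H33.TO.Ix 4) (u : Pool.Agent.H33.TO.Ix 4 → K) :
    Pool.Agent.H33.TO.bl 4 K (Pool.Agent.H33.TO.ev a) u = u (Pool.Agent.H33.TO.ng a) := by
  show ∑ x, (Pi.single a (1 : K) : Pool.Agent.H33.TO.Ix 4 → K) x * u (Pool.Agent.H33.TO.ng x) = _
  rw [Finset.sum_eq_single a]
  · simp
  · intro x _ hx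
    simp [hx]
  · intro h
    exact absurd (Finset.mem_univ _) h

theorem V9r_ng_ng (a : Pool.Agent.H33.TO.Ix 4) :
    Pool.Agent.H33.TO.ng (Pool.Agent.H33.TO.ng a) = a := by
  rcases a with _ | ⟨i, s⟩
  · rfl
  · simp [Pool.Agent.H33.TO.ng]

theorem V9r_symm (u v : Pool.Agent.H33.TO.Ix 4 → K) :
    Pool.Agent.H33.TO.bl 4 K u v = Pool.Agent.H33.TO.bl 4 K v u := by
  show ∑ x, u x * v (Pool.Agent.H33.TO.ng x) = ∑ x, v x * u (Pool.Agent.H33.TO.ng x)
  let E : Pool.Agent.H33.TO.Ix 4 ≃ Pool.Agent.H33.TO.Ix 4 :=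
    ⟨Pool.Agent.H33.TO.ng, Pool.Agent.H33.TO.ng, V9r_ng_ng, V9r_ng_ng⟩
  rw [← Equiv.sum_comp E]
  refine Finset.sum_congr rfl fun x _ => ?_
  show u (Pool.Agent.H33.TO.ng x) * v (Pool.Agent.H33.TO.ng (Pool.Agent.H33.TO.ng x)) = _
  rw [V9r_ng_ng, mul_comm]

theorem V9_root (H : HypW C6 K) (hk : Fr k) {a b : Pool.Agent.H33.TO.Ix 4} (ha : a ≠ none)
    (hb : b ≠ a) (hb' : b ≠ Pool.Agent.H33.TO.ng a) :
    ∃ α : Rt C6, ∃ κ : K, κ ≠ 0 ∧ (∀ (c : K) (u : Pool.Agent.H33.TO.Ix 4 → K),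
      xf α (κ * c) (Phi K k u) = Phi K k (Pool.Agent.H33.TO.sg (Pool.Agent.H33.TO.bl 4 K)
        (Pool.Agent.H33.TO.ev a) (c • Pool.Agent.H33.TO.ev b) u)) ∧
      ∀ s : K, xf α s * hd C6 (cv (k 0)) (-1) = hd C6 (cv (k 0)) (-1) * xf α s := by
  obtain ⟨α, κ, hκ, h1, h2⟩ := V9r_br (K := K) H hk ha hb hb'
  refine ⟨α, -κ, neg_ne_zero.2 hκ, ?_, ?_⟩
  · intro c u
    obtain ⟨B, hB⟩ : ∃ B, B = Pool.Agent.H33.TO.bl 4 K := ⟨_, rfl⟩
    obtain ⟨x, hx⟩ : ∃ x : Pool.Agent.H33.TO.Ix 4 → K, x = Pool.Agent.H33.TO.ev a := ⟨_, rfl⟩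
    obtain ⟨y, hy⟩ : ∃ y : Pool.Agent.H33.TO.Ix 4 → K, y = Pool.Agent.H33.TO.ev b := ⟨_, rfl⟩
    have hxx : B x x = 0 := by
      rw [hB, hx, V9r_bl_left]
      have h3 : Pool.Agent.H33.TO.ng a ≠ a := by
        rcases a with _ | ⟨i, s⟩
        · exact absurd rfl ha
        · cases s <;> simp [Pool.Agent.H33.TO.ng]
      simp [Pool.Agent.H33.TO.ev, h3]
    have hxy : B x y = 0 := by
      rw [hB, hx, hy, V9r_bl_left]
      simp [Pool.Agent.H33.TO.ev, Ne.symm hb']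
    have hyx : B y x = 0 := by
      rw [hB, V9r_symm, ← hB, hxy]
    have hux : ∀ v, B v x = B x v := fun v => by rw [hB, V9r_symm]
    have huy : ∀ v, B v y = B y v := fun v => by rw [hB, V9r_symm]
    have hN : ∀ v, br (Df K α) (Phi K k v) =
        Phi K k (κ⁻¹ • (B y v • x - B x v • y)) := by
      intro v
      have h4 : br (Phi K k x) (br (Phi K k y) (Phi K k v)) = B x y • Phi K k v -
          B x v • Phi K k y := by rw [hB]; exact V9_br H hk x y v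
      have h5 : br (Phi K k y) (br (Phi K k x) (Phi K k v)) = B y x • Phi K k v -
          B y v • Phi K k x := by rw [hB]; exact V9_br H hk y x v
      have h6 := jac H (Phi K k x) (Phi K k y) (Phi K k v)
      have h7 : br (Phi K k x) (Phi K k y) = κ • Df K α := by
        rw [hx, hy, Phi_ev, Phi_ev, h1]
      rw [h4, h5, h7, hxy, hyx, zero_smul, zero_sub, zero_sub, map_smul,
        LinearMap.smul_apply] at h6
      have h8 : κ • br (Df K α) (Phi K k v) = B y v • Phi K k x - B x v • Phi K k y := by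
        rw [eq_sub_of_add_eq h6.symm]
        abel
      rw [map_smul, map_sub, map_smul, map_smul, ← h8, smul_smul, inv_mul_cancel₀ hκ, one_smul]
    have h20 := two_ne H
    rw [xf_apply H, hN, hN, ← map_smul, ← map_smul, ← map_add, ← map_add, ← hB, ← hx, ← hy]
    congr 1
    unfold Pool.Agent.H33.TO.sg
    simp only [map_smul, map_sub, LinearMap.smul_apply, smul_eq_mul, hxx, hxy, hyx, hux, huy]
    match_scalars <;> field_simp <;> ring
  · intro s
    have ht : (hd C6 (cv (k 0)) (-1) : LL C6 K ≃ₗ[K] LL C6 K) ∈ T4 K := hd_mem_T4 (sv_cv _) (-1)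
    have h3 := T4_conj_xf H ht α s
    have h4 : wt (hd C6 (cv (k 0)) (-1) : LL C6 K ≃ₗ[K] LL C6 K) α = 1 := by
      rw [wt_hd_cv, h2.neg_one_zpow, Units.val_one]
    rw [h4, one_mul] at h3
    exact (mul_inv_eq_iff_eq_mul.1 h3).symm

end Pool.Agent.H31.F4
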