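import Pool.Agent.H31.F4.CtxA
import Pool.Agent.H31.F4.V9c
import Pool.Agent.H31.F4.V9r
import Pool.Agent.H31.F4.V9k
import Pool.Agent.H33.TO.Main

/-!
# FF-67: Proposition C, case 1 (a spin group)

`frame_exists`: a frame `k` with `k 0 = c`; `z = hd (cv c) (-1) ∈ Z4 F`.  `Fb` = the subgroup of `GL(Ix 4 → K)` of all `h` with
`Phi (h u) = f (Phi u)` for all `u`, for some `f ∈ F`.  For every `f ∈ F` there is such an `h` (`V9_inv` for `f`, `f⁻¹`, `Phi_inj`).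
`TO.Ctx 4 K Fb`: `iso` by `Phi_fm`, `tor` by `V9_tor` (an `h` acting as `tor τ`).  `QK (Nat.card K) K` by `H.card`.
`main_std`: `Std Fb`.  `RE Fb = ∅`: let `SS Fb a b`, `a ≠ none`: `RG Fb (bl) (ev a) (ev b)`.  By `V9_root` and for `c : K` let
`f ∈ F` act on `V9` as `sg (ev a) (c • ev b)`; `u = f * (xf α (κ c))⁻¹` is in `GF`, fixes all `Phi v`, so `u = 1` or `u = z` (`V9_ker`),
`xf α (κ c) = u⁻¹ f ∈ F`.  So `α ∈ SF4 F`: contradiction to `X.hS`.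
So `GS Fb` is the closure of the diagonal elements of `Fb`; all its elements are diagonal (`IsDg`).  Let `f ∈ F`, `t ∈ T4`,
`h_f, h_t ∈ Fb`; `h_t` is diagonal (`V9_T4`), in `GS Fb`; `h_f h_t h_f⁻¹ ∈ GS Fb` is diagonal: `f t f⁻¹` maps every `bt a` to a multiple
(`Phi_ev`), so it is in `NN` (`diag_NN4`).  `lemC4`: `f ∈ NN`.  So `F ≤ NN`, contradiction to `X.hN`.
-/

namespace Pool.Agent.H31.F4

open Pool.Agent.H33.EL (ip cc eps Rt ng zk ek fk LL hh e brf fmf br fm IsExt exl ex xr hd L0 GG T1 TT NN SF cj wt)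

variable {K : Type} [Field K]

variable {F : Subgroup (LL C6 K ≃ₗ[K] LL C6 K)}

variable {k : Fin 4 → Rt C6}

/-- a map which preserves the module is a linear automorphism of it -/
theorem case1F_lift (H : HypW C6 K) (hk : Fr k) {f : LL C6 K ≃ₗ[K] LL C6 K}
    (hf : ∀ u, ∃ v, f (Phi K k u) = Phi K k v) :
    ∃ h : (Pool.Agent.H33.TO.Ix 4 → K) ≃ₗ[K] (Pool.Agent.H33.TO.Ix 4 → K),
      ∀ u, Phi K k (h u) = f (Phi K k u) := by
  choose v hv using hf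
  let l : (Pool.Agent.H33.TO.Ix 4 → K) →ₗ[K] (Pool.Agent.H33.TO.Ix 4 → K) :=
    { toFun := v
      map_add' := fun x y => by
        apply Phi_inj H hk
        rw [← hv, map_add, map_add, map_add, hv, hv]
      map_smul' := fun c x => by
        apply Phi_inj H hk
        rw [← hv, map_smul, map_smul, RingHom.id_apply, map_smul, hv] }
  have hl : ∀ u, l u = v u := fun _ => rfl
  have hinj : Function.Injective l := by
    intro x y hxy
    rw [hl, hl] at hxy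
    apply Phi_inj H hk
    apply f.injective
    rw [hv, hv, hxy]
  refine ⟨LinearEquiv.ofInjectiveEndo l hinj, fun u => ?_⟩
  have h1 : LinearEquiv.ofInjectiveEndo l hinj u = v u := rfl
  rw [h1, hv]

/-- the group of the restrictions -/
def case1F_G (F : Subgroup (LL C6 K ≃ₗ[K] LL C6 K)) (k : Fin 4 → Rt C6) :
    Subgroup ((Pool.Agent.H33.TO.Ix 4 → K) ≃ₗ[K] (Pool.Agent.H33.TO.Ix 4 → K)) where
  carrier := {h | ∃ f ∈ F, ∀ u, Phi K k (h u) = f (Phi K k u)}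
  one_mem' := ⟨1, F.one_mem, fun _ => rfl⟩
  mul_mem' := by
    rintro h h' ⟨f, hf, hfh⟩ ⟨f', hf', hfh'⟩
    refine ⟨f * f', F.mul_mem hf hf', fun u => ?_⟩
    rw [LinearEquiv.mul_apply, LinearEquiv.mul_apply, hfh, hfh']
  inv_mem' := by
    rintro h ⟨f, hf, hfh⟩
    refine ⟨f⁻¹, F.inv_mem hf, fun u => ?_⟩
    apply f.injective
    have h1 : h (h⁻¹ u) = u := h.apply_symm_apply u
    have h2 : ∀ x, f (f⁻¹ x) = x := fun x => f.apply_symm_apply x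
    rw [← hfh, h1, h2]

theorem case1F_mem {F : Subgroup (LL C6 K ≃ₗ[K] LL C6 K)}
    {h : (Pool.Agent.H33.TO.Ix 4 → K) ≃ₗ[K] (Pool.Agent.H33.TO.Ix 4 → K)} :
    h ∈ case1F_G F k ↔ ∃ f ∈ F, ∀ u, Phi K k (h u) = f (Phi K k u) := Iff.rfl

theorem case1F_ctx (H : HypW C6 K) (X : Ctx4 F) (hk : Fr k) :
    Pool.Agent.H33.TO.Ctx 4 K (case1F_G F k) where
  iso h hh u v := by
    obtain ⟨f, hf, hfh⟩ := case1F_mem.1 hh
    rw [← Phi_fm H hk, hfh, hfh, (GF_le_GG (X.hF hf)).2, Phi_fm H hk]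
  tor τ hτ := by
    obtain ⟨t, ht, htu⟩ := V9_tor H hk τ hτ
    obtain ⟨h, hh⟩ := case1F_lift H hk (f := t) fun u => ⟨_, htu u⟩
    refine ⟨h, case1F_mem.2 ⟨t, X.hT ht, hh⟩, fun u => ?_⟩
    apply Phi_inj H hk
    rw [hh, htu]

theorem case1F_dg_inv {g : (Pool.Agent.H33.TO.Ix 4 → K) ≃ₗ[K] (Pool.Agent.H33.TO.Ix 4 → K)}
    (h : Pool.Agent.H33.TO.IsDg g) : Pool.Agent.H33.TO.IsDg g⁻¹ := by
  intro a
  obtain ⟨c, hc⟩ := h a
  have hc0 : c ≠ 0 := by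
    rintro rfl
    rw [zero_smul] at hc
    have h1 := (LinearEquiv.map_eq_zero_iff g).1 hc
    have h2 := congrFun h1 a
    rw [Pool.Agent.H33.TO.ev, Pi.single_eq_same] at h2
    exact one_ne_zero h2
  refine ⟨c⁻¹, ?_⟩
  apply g.injective
  have h1 : g (g⁻¹ (Pool.Agent.H33.TO.ev a)) = Pool.Agent.H33.TO.ev a := g.apply_symm_apply _
  rw [h1, map_smul, hc, smul_smul, inv_mul_cancel₀ hc0, one_smul]

theorem case1F_dg {G : Subgroup ((Pool.Agent.H33.TO.Ix 4 → K) ≃ₗ[K] (Pool.Agent.H33.TO.Ix 4 → K))}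
    (hG : ∀ x, x ∉ Pool.Agent.H33.TO.RE G)
    {x : (Pool.Agent.H33.TO.Ix 4 → K) ≃ₗ[K] (Pool.Agent.H33.TO.Ix 4 → K)}
    (hx : x ∈ Pool.Agent.H33.TO.GS G) : Pool.Agent.H33.TO.IsDg x := by
  induction hx using Subgroup.closure_induction with
  | mem y hy =>
    rcases hy with h | h
    · exact h.2
    · exact absurd h (hG y)
  | one => exact fun a => ⟨1, by rw [one_smul]; rfl⟩
  | mul y z _ _ hy hz =>
    intro a
    obtain ⟨c, hc⟩ := hz a
    obtain ⟨d, hd⟩ := hy a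
    refine ⟨c * d, ?_⟩
    rw [LinearEquiv.mul_apply, hc, map_smul, hd, smul_smul]
  | inv y _ hy => exact case1F_dg_inv hy

theorem case1F_RE (H : HypW C6 K) (X : Ctx4 F) (hk : Fr k)
    (hz : hd C6 (cv (k 0)) (-1) ∈ Z4 F)
    (x : (Pool.Agent.H33.TO.Ix 4 → K) ≃ₗ[K] (Pool.Agent.H33.TO.Ix 4 → K)) :
    x ∉ Pool.Agent.H33.TO.RE (case1F_G F k) := by
  rintro ⟨a, b, -, ha, ⟨hb, hb', hS, -⟩, -⟩
  obtain ⟨α, κ, hκ, h1, -⟩ := V9_root H hk ha hb hb'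
  refine X.hS α fun s => ?_
  obtain ⟨h, hh, hu⟩ := hS ha (κ⁻¹ * s)
  obtain ⟨f, hf, hfh⟩ := case1F_mem.1 hh
  have hs : κ * (κ⁻¹ * s) = s := by rw [← mul_assoc, mul_inv_cancel₀ hκ, one_mul]
  have h2 : ∀ u, (f⁻¹ * xf α s) (Phi K k u) = Phi K k u := by
    intro u
    rw [LinearEquiv.mul_apply, ← hs, h1, ← hu, hfh, nor_apply_inv]
  have h3 : f⁻¹ * xf α s ∈ GF K := mul_mem (inv_mem (X.hF hf)) (xf_mem_GF H α s)
  have h4 : f⁻¹ * xf α s ∈ F := by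
    rcases V9_ker H hk h3 h2 with h5 | h5
    · rw [h5]
      exact F.one_mem
    · rw [h5]
      exact ctxA_ZF hz
  have h5 := F.mul_mem hf h4
  rwa [mul_inv_cancel_left] at h5

theorem case1_4 (H : HypW C6 K) (X : Ctx4 F) {c : Rt C6} (hc : sg c ≠ c)
    (hz : hd C6 (cv c) (-1) ∈ Z4 F) : False := by
  obtain ⟨k, hk, rfl⟩ := frame_exists c hc
  have hstd := Pool.Agent.H33.TO.main_std (q := Nat.card K) ⟨rfl, H.card⟩ (by norm_num)
    (case1F_G F k) (case1F_ctx H X hk)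
  have hdg := fun x hx => case1F_dg (case1F_RE H X hk hz) (x := x) hx
  apply X.hN
  intro f hf
  refine lemC4 H (X.hF hf) fun t ht => ?_
  -- the restrictions
  have hlift : ∀ g ∈ F, ∃ h : (Pool.Agent.H33.TO.Ix 4 → K) ≃ₗ[K] (Pool.Agent.H33.TO.Ix 4 → K),
      ∀ u, Phi K k (h u) = g (Phi K k u) := fun g hg =>
    case1F_lift H hk (V9_inv H hk (X.hF hg) (Z4_comm hz hg))
  obtain ⟨hf', h1⟩ := hlift f hf
  obtain ⟨ht', h2⟩ := hlift t (X.hT ht)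
  have hf'' : hf' ∈ case1F_G F k := case1F_mem.2 ⟨f, hf, h1⟩
  have ht'' : ht' ∈ case1F_G F k := case1F_mem.2 ⟨t, X.hT ht, h2⟩
  have htd : Pool.Agent.H33.TO.IsDg ht' := by
    intro a
    obtain ⟨c, hc⟩ := V9_T4 H hk ht a
    refine ⟨c, ?_⟩
    apply Phi_inj H hk
    rw [h2, map_smul, Phi_ev, hc]
  have htG : ht' ∈ Pool.Agent.H33.TO.GS (case1F_G F k) :=
    Subgroup.subset_closure (Or.inl ⟨ht'', htd⟩)
  have hd := hdg _ (hstd hf' hf'' ht' htG)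
  have hG : f * t * f⁻¹ ∈ GF K :=
    X.hF (F.mul_mem (F.mul_mem hf (X.hT ht)) (F.inv_mem hf))
  refine diag_NN4 H hk hG fun a => ?_
  obtain ⟨c, hc⟩ := hd a
  refine ⟨c, ?_⟩
  have h3 : ∀ u, Phi K k (hf'⁻¹ u) = f⁻¹ (Phi K k u) := by
    intro u
    apply f.injective
    have h4 : hf' (hf'⁻¹ u) = u := hf'.apply_symm_apply u
    rw [← h1, h4, nor_inv_apply]
  have h5 := congrArg (Phi K k) hc
  rw [LinearEquiv.mul_apply, LinearEquiv.mul_apply, h1, h2, h3, map_smul, Phi_ev] at h5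
  exact h5

end Pool.Agent.H31.F4
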