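import Pool.Agent.H31.F4.B14
import Pool.Agent.H31.F4.B24

/-!
# FF-49: Case B assembled
-/

namespace Pool.Agent.H31.F4

open Pool.Agent.H33.EL (ip cc eps Rt ng zk ek fk LL hh e brf fmf br fm IsExt exl ex xr hd L0 GG T1 TT NN SF cj wt)

variable {K : Type} [Field K]

variable {p : ℕ} {F : Subgroup (LL C6 K ≃ₗ[K] LL C6 K)}

theorem caseB4 (H : HypW C6 K) [Fact p.Prime] [CharP K p] (X : HB p F)
    (hS0 : (SF4 F).Nonempty) (hS : ∀ g ∈ GF K, T4 K ≤ cj g F → (SF4 (cj g F)).Nonempty)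
    (IH : ∀ F' : Subgroup (LL C6 K ≃ₗ[K] LL C6 K), F' ≤ GF K → T4 K ≤ F' →
      Nat.card F' < Nat.card F → Dst4 F') : Dst4 F := by
  intro g hg hgT
  by_cases h : NM F g
  · exact (caseB2_4 H X hg hgT hS0 (hS g hg hgT)
      (fun b hb c hc => comm_all H X hg hgT h hb hc) IH).elim
  · exact caseB1_4 H X hg hgT h IH

end Pool.Agent.H31.F4
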