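import Pool.Agent.H31.F4.CtxD

/-!
# FF-55: classification of `PZ4 F` (compare EL/CCe.lean)

`hdm`: `hd (cv g) (-1) ∈ EE4 F` for every root `g` (it is in `T4`, its square is 1), its weight at `c` is `(-1)^(dg g c)`
(`wt_hd_cv`).  `evn3`: `wt s a * wt s b * wt s c = 1` for all `s ∈ EE4 F` implies `dg g a + dg g b + dg g c` even for all `g`.
`evn2`: if `wt s a = wt s b` for all `s ∈ EE4 F` then `dg g a + dg g b` is even for all roots `g`.  Then
`2 ∣ ip y (a - b)` for all `y` with `sv y = y`? The coroots `cv g` span the lattice `{y : sv y = y}` (simple roots of F_4: the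
`cv` of the simple roots `0, 1, 2, 4` of `E_6`: `e0, e1, e2 + e3, e4 + e5`), so `lat_dual` with `M = 2`:
`(a - b) + sv (a - b) = 2 • (u + sv u)` and `lat_norm`: the norm `ip v v` of `v = (a-b) + sv (a-b)` is divisible by 16.
In terms of F_4: `ip v v = 4 |ā - b̄|²`, where `|ā|² = 2` (long) or `1` (short) (`norm_root`), and
`ip (a + sa) (b + sb) = 2 dg a b`·(…): compute: `ip (a+sa) (b+sb) = 4 (ā, b̄)`, `(ā,b̄) = dg a b` (`a` long),
`= dg a b / 2` (`a` short).  So: both short: `|ā - b̄|² = 2 - dg a b` divisible by 4: `dg a b = ±2`: `Eq4 a b` or `Eq4 (ng a) b`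
(`dg_two`, `dg_neg_two`); `a` short, `b` long: `3 - dg a b` with `dg a b` even (`dg_SL`): impossible; both long:
`4 - 2 dg a b` divisible by 4: `dg a b` even.
`evn1`: a single root is not trivial on `EE4 F`: `g` with `dg g a` odd exists: otherwise as before `|ā|² ∈ 4 ℤ`.
`lng_cong`: `a`, `b` long with `dg a b` even have the same weight at all `s ∈ T4` with `s * s = 1`: `dg a b = ±2`: `b = a` or
`b = ng a`; `dg a b = 0`: there is a short `d` with `a = b + d + sg d` (`lng_orth`, a finite check on the list of roots, or: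
choose a short `d` with `dg a d = 1` and `dg b d = -1`; then …), so `wt s a = wt s b * (wt s d)²` (`wt_sm` twice or `TT` weights).
`odd_long`: `c, c' ∈ PZ4 F` long whose product is, on `EE4 F`, a root character `wt · k`: `dg c c'` is odd: otherwise they agree on
the elements of order 2 of `T4` (`lng_cong`), which contain all `hd (cv g) (-1)`, and `dg g k` is even for all `g`: `evn1`-argument.

`no_ind4`: suppose `Ind4 F`.  Case L: some long root of `PZ4 F` is not trivial on `EE4 F`: `Q` = long roots of `PZ4 F`.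
Case S: otherwise `PZ4 F` has no long roots (`evn1`), `Q = PZ4 F` (all short; `Q` satisfies `hne` by `PZ4_nonempty`, `evn1`).
`hQ'`: `NN4_perm`/`PZ4_perm` and `Eq4`, the length is preserved (`pt_len`-like: `m (Df a) = k Df b`; a long root vector is
extremal, a short one is not: `not_ext_short`).
In both cases: for `c, c' ∈ Q` with different characters `dg c c'` is odd.  Case L: `prod_char4` gives `k ∈ Q` with the
product as character, `odd_long`.  Case S: `dg c c'` even means `0` or `±2`; `±2`: `Eq4 c c'` or `Eq4 (ng c) c'`, the same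
character; `0`: `sm_of_orth`: a long root in `PZ4 F` (`PZ4_sm`): contradiction.
There are three roots `a1, a2, a3 ∈ PZ4 F` with independent characters on `EE4 F` (no product of some of them trivial): otherwise
all characters `wt · a`, `a ∈ PZ4 F` lie in a group of order `≤ 4`, and their common kernel in `EE4 F`, which is
`Z4` by `t0_4`, has index `≤ 4`, against `Ind4` (see `no_ind3` in EL/CCe.lean).  By `prod_char1`, `prod_char4` there are
`c1, c2, c3, c4 ∈ Q` with characters `a1, a2, a1 a2, a3`.  `evn3` for `c1, c2, c3` and `g = c4`: `dg c4 c1 + dg c4 c2 + dg c4 c3` is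
even, but all three are odd (the characters are different).  Contradiction.

`classify4`: if for some short `c` all short roots `d ∈ PZ4 F` have `dg c d` even: `z = hd (cv c) (-1) ∈ Z4 F` by `t0_4`
(long roots `d`: `dg c d` even by `dg_SL`).  Otherwise (take `c` short in `PZ4 F`, or any short `c` if there is none) there are
short `a, b ∈ PZ4 F` with `dg a b` odd, `= ±1`; replace `b` by `ng b`: `dg a b = -1`, and by `sg b`: `b` with `c.1 = a.1 + b.1`
a root (`sm_of_neg`; `b` or `sg b`), `c ∈ PZ4 F`.  Let `d ∈ PZ4 F`.  By `no_ind4` the three characters of `a`, `b`, `d` are not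
independent (as in `CCe_triple` of EL/CCe.lean; the characters of `a`, `b`, `c` are pairwise different and non trivial by
`evn2`, `evn1`): so `wt s d` is one of `1, wt s a, wt s b, wt s c` on `EE4 F`; `evn1` excludes 1, and `evn2`: `d` is not long and
`Eq4` to `±a`, `±b` or `±c`.
-/

namespace Pool.Agent.H31.F4

open Pool.Agent.H33.EL (ip cc eps Rt ng zk ek fk LL hh e brf fmf br fm IsExt exl ex xr hd L0 GG T1 TT NN SF cj wt)

variable {K : Type} [Field K]

variable {F : Subgroup (LL C6 K ≃ₗ[K] LL C6 K)}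

theorem Cls_np (H : HypW C6 K) (k : ℤ) : (((-1 : Kˣ) ^ k : Kˣ) : K) = 1 ↔ Even k := by
  constructor
  · intro h
    by_contra ho
    rw [Int.not_even_iff_odd] at ho
    rw [ho.neg_one_zpow, Units.val_neg, Units.val_one] at h
    exact two_ne H (by linear_combination -h)
  · intro h
    rw [h.neg_one_zpow, Units.val_one]

theorem hdm (H : HypW C6 K) (X : Ctx4 F) (g : Rt C6) :
    hd C6 (cv g) (-1) ∈ EE4 F ∧ ∀ c : Rt C6,
      (wt (hd C6 (cv g) (-1) : LL C6 K ≃ₗ[K] LL C6 K) c = 1 ↔ Even (dg g c)) := by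
  have h1 : (hd C6 (cv g) (-1) : LL C6 K ≃ₗ[K] LL C6 K) ∈ T4 K := hd_mem_T4 (sv_cv g) (-1)
  have h2 := T4_le_TT H h1
  refine ⟨⟨h1, ?_⟩, fun c => ?_⟩
  · have h3 : (hd C6 (cv g) (-1) : LL C6 K ≃ₗ[K] LL C6 K) * hd C6 (cv g) (-1) = 1 := by
      refine TT_ext H (mul_mem h2 h2) (one_mem _) fun b => ?_
      rw [wt_mul H h2 h2, wt_hd_cv, wt_one, ← Units.val_mul, ← mul_zpow]
      simp
    rw [h3]
    exact one_mem _
  · rw [wt_hd_cv, Cls_np H]

theorem evn3 (H : HypW C6 K) (X : Ctx4 F) {a b c : Rt C6}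
    (h : ∀ s ∈ EE4 F, wt s a * wt s b * wt s c = 1) (g : Rt C6) :
    Even (dg g a + dg g b + dg g c) := by
  have h3 := h _ (hdm H X g).1
  rw [wt_hd_cv, wt_hd_cv, wt_hd_cv, ← Units.val_mul, ← Units.val_mul, ← zpow_add, ← zpow_add,
    Cls_np H] at h3
  exact h3

/-- the coroots span the invariant vectors -/
theorem Cls_lat (H : HypW C6 K) (v : Fin 6 → ℤ) (h : ∀ g : Rt C6, Even (ip C6 (cv g) v))
    (y : Fin 6 → ℤ) (hy : sv y = y) : (2 : ℤ) ∣ ip C6 y v := by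
  obtain ⟨s0, h0⟩ : ∃ s : Rt C6, s.1 = Pi.single 0 1 := ⟨⟨Pi.single 0 1, ip_simple H 0⟩, rfl⟩
  obtain ⟨s1, h1⟩ : ∃ s : Rt C6, s.1 = Pi.single 1 1 := ⟨⟨Pi.single 1 1, ip_simple H 1⟩, rfl⟩
  obtain ⟨s2, h2⟩ : ∃ s : Rt C6, s.1 = Pi.single 2 1 := ⟨⟨Pi.single 2 1, ip_simple H 2⟩, rfl⟩
  obtain ⟨s4, h4⟩ : ∃ s : Rt C6, s.1 = Pi.single 4 1 := ⟨⟨Pi.single 4 1, ip_simple H 4⟩, rfl⟩
  have c0 : cv s0 = Pi.single 0 1 := by
    have hs : sg s0 = s0 := Subtype.ext (by
      show sv s0.1 = s0.1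
      rw [h0]
      decide)
    unfold cv
    rw [if_pos hs, h0]
  have c1 : cv s1 = Pi.single 1 1 := by
    have hs : sg s1 = s1 := Subtype.ext (by
      show sv s1.1 = s1.1
      rw [h1]
      decide)
    unfold cv
    rw [if_pos hs, h1]
  have c2 : cv s2 = Pi.single 2 1 + Pi.single 3 1 := by
    have e1 : (sg s2).1 = Pi.single 3 1 := by
      show sv s2.1 = _
      rw [h2]
      decide
    have hs : sg s2 ≠ s2 := by
      intro hc
      have := congrArg Subtype.val hc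
      rw [e1, h2] at this
      revert this
      decide
    unfold cv
    rw [if_neg hs, h2, e1]
  have c4 : cv s4 = Pi.single 4 1 + Pi.single 5 1 := by
    have e1 : (sg s4).1 = Pi.single 5 1 := by
      show sv s4.1 = _
      rw [h4]
      decide
    have hs : sg s4 ≠ s4 := by
      intro hc
      have := congrArg Subtype.val hc
      rw [e1, h4] at this
      revert this
      decide
    unfold cv
    rw [if_neg hs, h4, e1]
  have y3 : y 3 = y 2 := congrFun hy 2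
  have y5 : y 5 = y 4 := congrFun hy 4
  have hy' : y = y 0 • cv s0 + y 1 • cv s1 + y 2 • cv s2 + y 4 • cv s4 := by
    rw [c0, c1, c2, c4]
    funext i
    fin_cases i <;> simp [y3, y5]
  have e : ip C6 y v = y 0 * ip C6 (cv s0) v + y 1 * ip C6 (cv s1) v + y 2 * ip C6 (cv s2) v +
      y 4 * ip C6 (cv s4) v := by
    nth_rewrite 1 [hy']
    rw [ip_add_left, ip_add_left, ip_add_left, ip_smul_left, ip_smul_left, ip_smul_left,
      ip_smul_left]
  rw [e]
  refine dvd_add (dvd_add (dvd_add ?_ ?_) ?_) ?_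
  · exact Dvd.dvd.mul_left (h s0).two_dvd _
  · exact Dvd.dvd.mul_left (h s1).two_dvd _
  · exact Dvd.dvd.mul_left (h s2).two_dvd _
  · exact Dvd.dvd.mul_left (h s4).two_dvd _

theorem Cls_n16 (H : HypW C6 K) (v : Fin 6 → ℤ) (h : ∀ g : Rt C6, Even (ip C6 (cv g) v)) :
    ∃ k : ℤ, ip C6 (v + sv v) (v + sv v) = 16 * k := by
  obtain ⟨k, -, hk, -⟩ := TorL_small H (M := 2) v (Cls_lat H v h)
  exact ⟨k, by rw [hk]; ring⟩

theorem Cls_no (H : HypW C6 K) (a : Rt C6) : ¬ ∀ g : Rt C6, Even (dg g a) := by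
  intro h
  obtain ⟨k, hk⟩ := Cls_n16 H a.1 h
  have h1 := norm_root a
  have h2 : ip C6 (a.1 + sv a.1) (a.1 + sv a.1) = if sg a = a then 8 else 4 := h1
  rw [hk] at h2
  split_ifs at h2 <;> omega

theorem evn1 (H : HypW C6 K) (X : Ctx4 F) (a : Rt C6) : ∃ s ∈ EE4 F, wt s a ≠ 1 := by
  by_contra hcon
  push Not at hcon
  apply Cls_no H a
  intro g
  exact ((hdm H X g).2 a).1 (hcon _ (hdm H X g).1)

theorem evn2 (H : HypW C6 K) (X : Ctx4 F) {a b : Rt C6} (h : ∀ s ∈ EE4 F, wt s a = wt s b) :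
    (sg a = a ↔ sg b = b) ∧ (sg a ≠ a → Eq4 a b ∨ Eq4 (ng a) b) := by
  have h1 : ∀ g : Rt C6, Even (ip C6 (cv g) (a.1 - b.1)) := by
    intro g
    rw [ip_sub_right]
    show Even (dg g a - dg g b)
    have h2 := h _ (hdm H X g).1
    have h3 := (hdm H X g).2 a
    have h4 := (hdm H X g).2 b
    rw [Int.even_sub, ← h3, ← h4, h2]
  obtain ⟨k, hk⟩ := Cls_n16 H _ h1
  have e1 : a.1 - b.1 + sv (a.1 - b.1) = (a.1 + (sg a).1) - (b.1 + (sg b).1) := by
    rw [TorL_sv_sub]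
    show a.1 - b.1 + ((sg a).1 - (sg b).1) = _
    abel
  rw [e1, ip_sub_left, ip_sub_right, ip_sub_right, norm_root, norm_root,
    Comb_comm (b.1 + (sg b).1) (a.1 + (sg a).1), Comb_dd] at hk
  have hr := dg_range a b
  by_cases ha : sg a = a
  · by_cases hb : sg b = b
    · exact ⟨⟨fun _ => hb, fun _ => ha⟩, fun h5 => absurd ha h5⟩
    · exfalso
      rw [if_pos ha, if_neg hb, Comb_L a b ha] at hk
      omega
  · by_cases hb : sg b = b
    · exfalso
      have h5 := dg_SL a b ha hb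
      have h6 := dg_short a b ha
      rw [if_neg ha, if_pos hb, ← h6, h5] at hk
      omega
    · have h6 := dg_short a b ha
      rw [if_neg ha, if_neg hb, ← h6] at hk
      have hl : sg a = a ↔ sg b = b := ⟨fun h => absurd h ha, fun h => absurd h hb⟩
      refine ⟨hl, fun _ => ?_⟩
      have h7 : dg a b = 2 ∨ dg a b = -2 := by omega
      rcases h7 with h7 | h7
      · exact Or.inl (dg_two a b h7 hl)
      · exact Or.inr (dg_neg_two a b h7 hl)

theorem Cls_chk : (P6.all fun x => Comb_sh x || P6.all fun y => Comb_sh y ||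
    !(Comb_dot x y % 2 == 0) || P6.all fun z => Comb_sh z ||
      ((Comb_dot z x + Comb_dot z y) % 2 == 0)) = true := by
  decide +kernel

theorem Cls_sh {x : Fin 6 → ℤ} (h : sv x = x) : Comb_sh x = false := by
  have h3 : x 3 = x 2 := congrFun h 2
  have h5 : x 5 = x 4 := congrFun h 4
  simp [Comb_sh, h3, h5]

theorem Cls_T1 {x y z : Fin 6 → ℤ} (hx : x ∈ P6) (hy : y ∈ P6) (hz : z ∈ P6) (hx' : sv x = x)
    (hy' : sv y = y) (hz' : sv z = z) (h : Even (ip C6 x y)) : Even (ip C6 z x + ip C6 z y) := by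
  have h1 := List.all_eq_true.1 Cls_chk x hx
  rw [Cls_sh hx', Bool.false_or] at h1
  have h2 := List.all_eq_true.1 h1 y hy
  rw [Cls_sh hy', Bool.false_or] at h2
  rw [Comb_ip, Int.even_iff] at h
  rw [h] at h2
  simp only [beq_self_eq_true, Bool.not_true, Bool.false_or] at h2
  have h3 := List.all_eq_true.1 h2 z hz
  rw [Cls_sh hz', Bool.false_or] at h3
  rw [Comb_ip, Comb_ip, Int.even_iff]
  simpa using h3

theorem Cls_P6 (a : Rt C6) (ha : sg a = a) : ∃ x ∈ P6, sv x = x ∧ (a.1 = x ∨ a.1 = -x) := by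
  have h1 : sv a.1 = a.1 := congrArg Subtype.val ha
  rcases P6_complete a with h | h
  · exact ⟨a.1, h, h1, Or.inl rfl⟩
  · refine ⟨-a.1, h, ?_, Or.inr (neg_neg _).symm⟩
    rw [Comb_sv_neg, h1]

theorem Cls_LC {a b : Rt C6} (ha : sg a = a) (hb : sg b = b) (h : Even (dg a b)) (g : Rt C6) :
    Even (dg g a + dg g b) := by
  by_cases hg : sg g = g
  · rw [dg_long g a hg, dg_long g b hg]
    rw [dg_long a b ha] at h
    obtain ⟨x, hx, hx', ex⟩ := Cls_P6 a ha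
    obtain ⟨y, hy, hy', ey⟩ := Cls_P6 b hb
    obtain ⟨z, hz, hz', ez⟩ := Cls_P6 g hg
    have key : Even (ip C6 x y) → Even (ip C6 z x + ip C6 z y) := Cls_T1 hx hy hz hx' hy' hz'
    rw [Int.even_add] at key ⊢
    rcases ex with ex | ex <;> rcases ey with ey | ey <;> rcases ez with ez | ez <;>
      rw [ex, ey] at h <;> rw [ex, ey, ez] <;>
      (try simp only [ip_neg_left, ip_neg_right, even_neg, neg_neg] at h) <;>
      (try simp only [ip_neg_left, ip_neg_right, even_neg, neg_neg]) <;> exact key h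
  · rw [dg_SL g a hg ha, dg_SL g b hg hb]
    exact ⟨dg a g + dg b g, by ring⟩

/-! ### the characters -/

theorem Cls_mul (H : HypW C6 K) {s t : LL C6 K ≃ₗ[K] LL C6 K} (hs : s ∈ EE4 F)
    (ht : t ∈ EE4 F) : s * t ∈ EE4 F := by
  refine ⟨mul_mem hs.1 ht.1, ?_⟩
  have h1 : s * t * (s * t) = (s * s) * (t * t) := by
    calc s * t * (s * t) = s * (t * s) * t := by group
      _ = s * (s * t) * t := by rw [TT_comm H (T4_le_TT H ht.1) (T4_le_TT H hs.1)]
      _ = (s * s) * (t * t) := by group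
  rw [h1]
  exact mul_mem hs.2 ht.2

theorem Cls_wt_mul (H : HypW C6 K) {s t : LL C6 K ≃ₗ[K] LL C6 K} (hs : s ∈ EE4 F)
    (ht : t ∈ EE4 F) (a : Rt C6) : wt (s * t) a = wt s a * wt t a :=
  wt_mul H (T4_le_TT H hs.1) (T4_le_TT H ht.1) a

theorem Cls_sq (H : HypW C6 K) {s : LL C6 K ≃ₗ[K] LL C6 K} (hs : s ∈ EE4 F) {a : Rt C6}
    (ha : a ∈ PZ4 F) : wt s a * wt s a = 1 := by
  rw [← wt_mul H (T4_le_TT H hs.1) (T4_le_TT H hs.1)]
  exact ha _ hs.2

theorem Cls_pm (H : HypW C6 K) {s : LL C6 K ≃ₗ[K] LL C6 K} (hs : s ∈ EE4 F) {a : Rt C6}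
    (ha : a ∈ PZ4 F) : wt s a = 1 ∨ wt s a = -1 := mul_self_eq_one_iff.1 (Cls_sq H hs ha)

theorem Cls_ne (H : HypW C6 K) : (-1 : K) ≠ 1 := by
  intro h
  exact two_ne H (by linear_combination -h)

theorem Cls_ng (H : HypW C6 K) {s : LL C6 K ≃ₗ[K] LL C6 K} (hs : s ∈ EE4 F) {a : Rt C6}
    (ha : a ∈ PZ4 F) : wt s (ng a) = wt s a := by
  rw [wt_ng H (T4_le_TT H hs.1)]
  exact inv_eq_of_mul_eq_one_left (Cls_sq H hs ha)

theorem Cls_Eq (H : HypW C6 K) {s : LL C6 K ≃ₗ[K] LL C6 K} (hs : s ∈ EE4 F) {a b : Rt C6}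
    (h : Eq4 a b) : wt s b = wt s a := by
  rcases h with h | h
  · rw [h]
  · rw [h, wt_sg H hs.1]

theorem Cls_exists_neg (H : HypW C6 K) (X : Ctx4 F) {s : LL C6 K ≃ₗ[K] LL C6 K}
    (hs : s ∈ EE4 F) (hsZ : s ∉ Z4 F) : ∃ a ∈ PZ4 F, wt s a = -1 := by
  by_contra hcon
  push Not at hcon
  exact hsZ (t0_4 H X hs.1 fun a ha => (Cls_pm H hs ha).resolve_right (hcon a ha))

theorem Cls_notZ {s t : LL C6 K ≃ₗ[K] LL C6 K} (hs : s ∈ EE4 F) (h : t ∉ Z4 F) :
    s * s * t ∉ Z4 F := by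
  intro h1
  exact h ((Subgroup.mul_mem_cancel_left _ hs.2).1 h1)

/-- elements of `NN` preserve the length -/
theorem Cls_len (H : HypW C6 K) {m : LL C6 K ≃ₗ[K] LL C6 K} (hm : m ∈ NN C6 K)
    (hm' : m ∈ GF K) {a b : Rt C6} {k : K} (h : m (Df K a) = k • Df K b) :
    sg a = a ↔ sg b = b := by
  obtain ⟨w, l, hl, hsg, -, -, hD, -, -, -, -, -⟩ := NN4_perm H hm hm'
  have h1 : Eq4 (w a) b := by
    have h2 : l a • Df K (w a) = k • Df K b := by rw [← hD a, h]
    have h3 : (l a • Df K (w a)).2 (w a) = (k • Df K b).2 (w a) := by rw [h2]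
    have h4 : l a * (Df K (w a)).2 (w a) = k * (Df K b).2 (w a) := h3
    have h5 : Eq4 (w a) (w a) := Or.inl rfl
    rw [Df_snd, if_pos h5, mul_one, Df_snd] at h4
    by_contra hc
    rw [if_neg (fun hd => hc (Eq4_symm hd)), mul_zero] at h4
    exact hl a h4
  rw [← Eq4_len h1]
  constructor
  · intro h2
    rw [← hsg a, h2]
  · intro h2
    rw [← hsg a] at h2
    exact w.injective h2

theorem no_ind4 (H : HypW C6 K) (X : Ctx4 F) : ¬ Ind4 F := by
  intro h3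
  -- the set `Q`
  obtain ⟨Q, hQ, hQ', hne, hodd⟩ : ∃ Q : Set (Rt C6), Q ⊆ PZ4 F ∧
      (∀ m ∈ F, m ∈ NN C6 K → ∀ a b : Rt C6, ∀ k : K, m (Df K a) = k • Df K b →
        a ∈ Q → b ∈ Q) ∧ (∃ s ∈ EE4 F, ∃ c ∈ Q, wt s c ≠ 1) ∧
      ∀ c ∈ Q, ∀ c' ∈ Q, (∃ s ∈ EE4 F, wt s c ≠ wt s c') → Odd (dg c c') := by
    by_cases hL : ∃ c ∈ PZ4 F, sg c = c
    · obtain ⟨c0, hc0, hc0'⟩ := hL
      obtain ⟨s0, hs0, hw0⟩ := evn1 H X c0
      have hQ : {c | c ∈ PZ4 F ∧ sg c = c} ⊆ PZ4 F := fun c hc => hc.1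
      have hQ' : ∀ m ∈ F, m ∈ NN C6 K → ∀ a b : Rt C6, ∀ k : K, m (Df K a) = k • Df K b →
          a ∈ {c | c ∈ PZ4 F ∧ sg c = c} → b ∈ {c | c ∈ PZ4 F ∧ sg c = c} := by
        intro m hm hmN a b k hab ha
        exact ⟨(PZ4_perm H X hm hab).1 ha.1, (Cls_len H hmN (X.hF hm) hab).1 ha.2⟩
      have hne : ∃ s ∈ EE4 F, ∃ c ∈ {c | c ∈ PZ4 F ∧ sg c = c}, wt s c ≠ 1 :=
        ⟨s0, hs0, c0, ⟨hc0, hc0'⟩, hw0⟩
      refine ⟨_, hQ, hQ', hne, ?_⟩
      rintro c ⟨hc, hcl⟩ c' ⟨hc', hcl'⟩ ⟨s, hs, hw⟩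
      by_contra ho
      rw [Int.not_odd_iff_even] at ho
      obtain ⟨k, -, hk⟩ := prod_char4 H X h3 _ hQ hQ' hne hc hc' ⟨s, hs, fun h => hw (by
        have h1 := Cls_sq H hs hc'
        calc wt s c = wt s c * (wt s c' * wt s c') := by rw [h1, mul_one]
          _ = (wt s c * wt s c') * wt s c' := by ring
          _ = wt s c' := by rw [h, one_mul])⟩
      apply Cls_no H k
      intro g
      rw [← (hdm H X g).2 k, hk _ (hdm H X g).1, wt_hd_cv, wt_hd_cv, ← Units.val_mul,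
        ← zpow_add, Cls_np H]
      exact Cls_LC hcl hcl' ho g
    · push Not at hL
      obtain ⟨c0, hc0⟩ := PZ4_nonempty H X
      obtain ⟨s0, hs0, hw0⟩ := evn1 H X c0
      refine ⟨PZ4 F, fun c hc => hc, fun m hm _ a b k hab ha => (PZ4_perm H X hm hab).1 ha,
        ⟨s0, hs0, c0, hc0, hw0⟩, ?_⟩
      rintro c hc c' hc' ⟨s, hs, hw⟩
      by_contra ho
      rw [Int.not_odd_iff_even] at ho
      have hcs := hL c hc
      have hcs' := hL c' hc'
      have hl : sg c = c ↔ sg c' = c' := ⟨fun h => absurd h hcs, fun h => absurd h hcs'⟩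
      have hr := dg_range c c'
      have h7 : dg c c' = 2 ∨ dg c c' = -2 ∨ dg c c' = 0 := by
        obtain ⟨r, hr'⟩ := ho
        omega
      rcases h7 with h7 | h7 | h7
      · exact hw (Cls_Eq H hs (dg_two c c' h7 hl)).symm
      · apply hw
        rw [Cls_Eq H hs (dg_neg_two c c' h7 hl), Cls_ng H hs hc]
      · obtain ⟨e, he, hel, -⟩ := sm_of_orth c c' hcs hcs' h7
        exact hL e (PZ4_sm H he hc hc') hel
  obtain ⟨e1, h1, e2, h2, e3, h3', n1, n2, n3, n12, n13, n23, n123⟩ := id h3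
  obtain ⟨a1, ha1, w1⟩ := Cls_exists_neg H X h1 n1
  have c12 := TT_comm H (T4_le_TT H h1.1) (T4_le_TT H h2.1)
  -- two independent elements of the kernel of the first character
  obtain ⟨f, hf, f', hf', wf, wf', nf, nf', nff⟩ : ∃ f ∈ EE4 F, ∃ f' ∈ EE4 F, wt f a1 = 1 ∧
      wt f' a1 = 1 ∧ f ∉ Z4 F ∧ f' ∉ Z4 F ∧ f * f' ∉ Z4 F := by
    rcases Cls_pm H h2 ha1 with w2 | w2 <;> rcases Cls_pm H h3' ha1 with w3 | w3
    · exact ⟨e2, h2, e3, h3', w2, w3, n2, n3, n23⟩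
    · refine ⟨e2, h2, e1 * e3, Cls_mul H h1 h3', w2, ?_, n2, n13, ?_⟩
      · rw [Cls_wt_mul H h1 h3', w1, w3]
        ring
      · have : e2 * (e1 * e3) = e1 * e2 * e3 := by
          rw [← mul_assoc, ← c12]
        rw [this]
        exact n123
    · refine ⟨e1 * e2, Cls_mul H h1 h2, e3, h3', ?_, w3, n12, n3, n123⟩
      rw [Cls_wt_mul H h1 h2, w1, w2]
      ring
    · refine ⟨e1 * e2, Cls_mul H h1 h2, e1 * e3, Cls_mul H h1 h3', ?_, ?_, n12, n13, ?_⟩
      · rw [Cls_wt_mul H h1 h2, w1, w2]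
        ring
      · rw [Cls_wt_mul H h1 h3', w1, w3]
        ring
      · have : e1 * e2 * (e1 * e3) = e1 * e1 * (e2 * e3) := by
          calc e1 * e2 * (e1 * e3) = e1 * (e2 * e1) * e3 := by group
            _ = e1 * (e1 * e2) * e3 := by rw [c12]
            _ = e1 * e1 * (e2 * e3) := by group
        rw [this]
        exact Cls_notZ h1 n23
  obtain ⟨a2, ha2, w2⟩ := Cls_exists_neg H X hf nf
  obtain ⟨g, hg, wg1, wg2, ng'⟩ : ∃ g ∈ EE4 F, wt g a1 = 1 ∧ wt g a2 = 1 ∧ g ∉ Z4 F := by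
    rcases Cls_pm H hf' ha2 with w | w
    · exact ⟨f', hf', wf', w, nf'⟩
    · refine ⟨f * f', Cls_mul H hf hf', ?_, ?_, nff⟩
      · rw [Cls_wt_mul H hf hf', wf, wf', one_mul]
      · rw [Cls_wt_mul H hf hf', w2, w]
        ring
  obtain ⟨a3, ha3, w3⟩ := Cls_exists_neg H X hg ng'
  have hne1 := Cls_ne H
  obtain ⟨c1, hc1, hw1⟩ := prod_char1 H X h3 Q hQ hQ' hne ha1 (evn1 H X a1)
  obtain ⟨c2, hc2, hw2⟩ := prod_char1 H X h3 Q hQ hQ' hne ha2 (evn1 H X a2)
  obtain ⟨c3, hc3, hw3⟩ := prod_char1 H X h3 Q hQ hQ' hne ha3 (evn1 H X a3)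
  obtain ⟨c4, hc4, hw4⟩ := prod_char4 H X h3 Q hQ hQ' hne ha1 ha2 ⟨f, hf, by
    rw [wf, w2, one_mul]
    exact hne1⟩
  have o1 := hodd c3 hc3 c1 hc1 ⟨g, hg, by
    rw [hw3 g hg, hw1 g hg, wg1, w3]
    exact hne1⟩
  have o2 := hodd c3 hc3 c2 hc2 ⟨g, hg, by
    rw [hw3 g hg, hw2 g hg, wg2, w3]
    exact hne1⟩
  have o4 := hodd c3 hc3 c4 hc4 ⟨g, hg, by
    rw [hw3 g hg, hw4 g hg, wg1, wg2, w3, one_mul]
    exact hne1⟩
  have key := evn3 H X (a := c1) (b := c2) (c := c4) (fun t ht => by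
    rw [hw1 t ht, hw2 t ht, hw4 t ht]
    have h1 := Cls_sq H ht ha1
    have h2 := Cls_sq H ht ha2
    calc wt t a1 * wt t a2 * (wt t a1 * wt t a2) =
          (wt t a1 * wt t a1) * (wt t a2 * wt t a2) := by ring
      _ = 1 := by rw [h1, h2, mul_one]) c3
  rw [Int.even_iff] at key
  rw [Int.odd_iff] at o1 o2 o4
  omega

/-- three dependent characters -/
theorem Cls_tri (H : HypW C6 K) (X : Ctx4 F) (hi : ¬ Ind4 F) {a b c : Rt C6} (ha : a ∈ PZ4 F)
    (hb : b ∈ PZ4 F) (hc : c ∈ PZ4 F) (hab : ∃ s ∈ EE4 F, wt s a ≠ wt s b) :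
    (∀ s ∈ EE4 F, wt s c = 1) ∨ (∀ s ∈ EE4 F, wt s c = wt s a) ∨
      (∀ s ∈ EE4 F, wt s c = wt s b) ∨ ∀ s ∈ EE4 F, wt s c = wt s a * wt s b := by
  have hne := Cls_ne H
  have hnotZ : ∀ s : LL C6 K ≃ₗ[K] LL C6 K, ∀ x ∈ PZ4 F, wt s x = -1 → s ∉ Z4 F := by
    intro s x hx hw hsZ
    rw [hx s hsZ] at hw
    exact hne hw.symm
  obtain ⟨u, hu, hub⟩ := evn1 H X b
  replace hub := (Cls_pm H hu hb).resolve_left hub
  obtain ⟨v, hv, hvab⟩ := hab
  -- `s2`: trivial at `a`, not at `b`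
  obtain ⟨s2, hs2, w2a, w2b⟩ : ∃ s ∈ EE4 F, wt s a = 1 ∧ wt s b = -1 := by
    rcases Cls_pm H hu ha with h | h
    · exact ⟨u, hu, h, hub⟩
    · rcases Cls_pm H hv ha with h' | h'
      · refine ⟨v, hv, h', (Cls_pm H hv hb).resolve_left fun h'' => hvab ?_⟩
        rw [h', h'']
      · have h'' := (Cls_pm H hv hb).resolve_right fun h'' => hvab (by rw [h', h''])
        refine ⟨u * v, Cls_mul H hu hv, ?_, ?_⟩
        · rw [Cls_wt_mul H hu hv, h, h']
          ring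
        · rw [Cls_wt_mul H hu hv, hub, h'', mul_one]
  -- `s1`: trivial at `b`, not at `a`
  obtain ⟨s1, hs1, w1a, w1b⟩ : ∃ s ∈ EE4 F, wt s a = -1 ∧ wt s b = 1 := by
    obtain ⟨u', hu', hua⟩ := evn1 H X a
    replace hua := (Cls_pm H hu' ha).resolve_left hua
    rcases Cls_pm H hu' hb with h | h
    · exact ⟨u', hu', hua, h⟩
    · refine ⟨u' * s2, Cls_mul H hu' hs2, ?_, ?_⟩
      · rw [Cls_wt_mul H hu' hs2, hua, w2a, mul_one]
      · rw [Cls_wt_mul H hu' hs2, h, w2b]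
        ring
  have hker : ∀ s ∈ EE4 F, wt s a = 1 → wt s b = 1 → wt s c = 1 := by
    intro s3 hs3 w3a w3b
    refine (Cls_pm H hs3 hc).resolve_right fun w3c => ?_
    refine hi ⟨s1, hs1, s2, hs2, s3, hs3, hnotZ s1 a ha w1a, hnotZ s2 b hb w2b,
      hnotZ s3 c hc w3c, hnotZ _ a ha ?_, hnotZ _ a ha ?_, hnotZ _ b hb ?_, hnotZ _ a ha ?_⟩
    · rw [Cls_wt_mul H hs1 hs2, w1a, w2a, mul_one]
    · rw [Cls_wt_mul H hs1 hs3, w1a, w3a, mul_one]
    · rw [Cls_wt_mul H hs2 hs3, w2b, w3b, mul_one]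
    · rw [Cls_wt_mul H (Cls_mul H hs1 hs2) hs3, Cls_wt_mul H hs1 hs2, w1a, w2a, w3a, mul_one,
        mul_one]
  -- the value at `c` is determined by the values at `a` and `b`
  have hval : ∀ s ∈ EE4 F,
      (wt s a = 1 → wt s b = 1 → wt s c = 1) ∧
      (wt s a = -1 → wt s b = 1 → wt s c = wt s1 c) ∧
      (wt s a = 1 → wt s b = -1 → wt s c = wt s2 c) ∧
      (wt s a = -1 → wt s b = -1 → wt s c = wt s1 c * wt s2 c) := by
    intro s hs
    have q1 := Cls_sq H hs1 hc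
    have q2 := Cls_sq H hs2 hc
    refine ⟨hker s hs, fun h1 h2 => ?_, fun h1 h2 => ?_, fun h1 h2 => ?_⟩
    · have h3 := hker (s * s1) (Cls_mul H hs hs1)
        (by rw [Cls_wt_mul H hs hs1, h1, w1a]; ring)
        (by rw [Cls_wt_mul H hs hs1, h2, w1b]; ring)
      rw [Cls_wt_mul H hs hs1] at h3
      calc wt s c = (wt s c * wt s1 c) * wt s1 c := by rw [mul_assoc, q1, mul_one]
        _ = wt s1 c := by rw [h3, one_mul]
    · have h3 := hker (s * s2) (Cls_mul H hs hs2)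
        (by rw [Cls_wt_mul H hs hs2, h1, w2a]; ring)
        (by rw [Cls_wt_mul H hs hs2, h2, w2b]; ring)
      rw [Cls_wt_mul H hs hs2] at h3
      calc wt s c = (wt s c * wt s2 c) * wt s2 c := by rw [mul_assoc, q2, mul_one]
        _ = wt s2 c := by rw [h3, one_mul]
    · have hs12 := Cls_mul H hs1 hs2
      have h3 := hker (s * (s1 * s2)) (Cls_mul H hs hs12)
        (by rw [Cls_wt_mul H hs hs12, Cls_wt_mul H hs1 hs2, h1, w1a, w2a]; ring)
        (by rw [Cls_wt_mul H hs hs12, Cls_wt_mul H hs1 hs2, h2, w1b, w2b]; ring)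
      rw [Cls_wt_mul H hs hs12, Cls_wt_mul H hs1 hs2] at h3
      calc wt s c = (wt s c * (wt s1 c * wt s2 c)) *
            (wt s1 c * wt s2 c) := by
              linear_combination (-(wt s c * (wt s2 c * wt s2 c))) * q1 - wt s c * q2
        _ = wt s1 c * wt s2 c := by rw [h3, one_mul]
  rcases Cls_pm H hs1 hc with k1 | k1 <;> rcases Cls_pm H hs2 hc with k2 | k2
  · left
    intro y hy
    obtain ⟨v1, v2, v3, v4⟩ := hval y hy
    rcases Cls_pm H hy ha with h | h <;> rcases Cls_pm H hy hb with h' | h'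
    · exact v1 h h'
    · rw [v3 h h', k2]
    · rw [v2 h h', k1]
    · rw [v4 h h', k1, k2, one_mul]
  · right; right; left
    intro y hy
    obtain ⟨v1, v2, v3, v4⟩ := hval y hy
    rcases Cls_pm H hy ha with h | h <;> rcases Cls_pm H hy hb with h' | h'
    · rw [v1 h h', h']
    · rw [v3 h h', k2, h']
    · rw [v2 h h', k1, h']
    · rw [v4 h h', k1, k2, one_mul, h']
  · right; left
    intro y hy
    obtain ⟨v1, v2, v3, v4⟩ := hval y hy
    rcases Cls_pm H hy ha with h | h <;> rcases Cls_pm H hy hb with h' | h'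
    · rw [v1 h h', h]
    · rw [v3 h h', k2, h]
    · rw [v2 h h', k1, h]
    · rw [v4 h h', k1, k2, mul_one, h]
  · right; right; right
    intro y hy
    obtain ⟨v1, v2, v3, v4⟩ := hval y hy
    rcases Cls_pm H hy ha with h | h <;> rcases Cls_pm H hy hb with h' | h'
    · rw [v1 h h', h, h']; ring
    · rw [v3 h h', k2, h, h']; ring
    · rw [v2 h h', k1, h, h']; ring
    · rw [v4 h h', k1, k2, h, h']

theorem classify4 (H : HypW C6 K) (X : Ctx4 F) :
    (∃ c : Rt C6, sg c ≠ c ∧ hd C6 (cv c) (-1) ∈ Z4 F) ∨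
    ∃ a b c : Rt C6, sg a ≠ a ∧ sg b ≠ b ∧ sg c ≠ c ∧ dg a b = -1 ∧ c.1 = a.1 + b.1 ∧
      ∀ d, d ∈ PZ4 F ↔ (Eq4 a d ∨ Eq4 (ng a) d ∨ Eq4 b d ∨ Eq4 (ng b) d ∨ Eq4 c d ∨ Eq4 (ng c) d) := by
  by_cases hcase : ∃ c : Rt C6, sg c ≠ c ∧ ∀ d ∈ PZ4 F, sg d ≠ d → Even (dg c d)
  · left
    obtain ⟨c, hc, hev⟩ := hcase
    refine ⟨c, hc, t0_4 H X (hdm H X c).1.1 fun a ha => ?_⟩
    rw [(hdm H X c).2 a]
    by_cases hs : sg a = a
    · rw [dg_SL c a hc hs]
      exact ⟨dg a c, by ring⟩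
    · exact hev a ha hs
  right
  push Not at hcase
  -- a short root
  obtain ⟨s2, h2⟩ : ∃ s : Rt C6, s.1 = Pi.single 2 1 := ⟨⟨Pi.single 2 1, ip_simple H 2⟩, rfl⟩
  have hs2 : sg s2 ≠ s2 := by
    intro hc
    have := congrArg Subtype.val hc
    have e1 : (sg s2).1 = sv s2.1 := rfl
    rw [e1, h2] at this
    revert this
    decide
  obtain ⟨a, haP, has, -⟩ := hcase s2 hs2
  obtain ⟨b0, hb0P, hb0s, hb0⟩ := hcase a has
  rw [Int.not_even_iff_odd, Int.odd_iff] at hb0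
  have hr := dg_range a b0
  obtain ⟨b1, hb1P, hb1s, hb1⟩ : ∃ b ∈ PZ4 F, sg b ≠ b ∧ dg a b = -1 := by
    have h3 : dg a b0 = -1 ∨ dg a b0 = 1 := by omega
    rcases h3 with h3 | h3
    · exact ⟨b0, hb0P, hb0s, h3⟩
    · refine ⟨ng b0, PZ4_ng H hb0P, fun h => hb0s ((sg_ng_iff b0).1 h), ?_⟩
      rw [dg_ng_right, h3]
  obtain ⟨b, hbP, hbs, hb, hb', hbd⟩ : ∃ b ∈ PZ4 F, sg b ≠ b ∧ ip C6 a.1 b.1 = -1 ∧
      ip C6 a.1 (sg b).1 = 0 ∧ dg a b = -1 := by
    have h4 := dg_short a b1 has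
    rcases cb_SS a b1 has hb1s with ⟨-, h5, h6⟩ | ⟨-, h5, h6⟩ | ⟨-, h5, h6⟩ | ⟨-, h5, h6⟩ |
      ⟨h5, h6⟩ | ⟨h5, h6⟩ | ⟨h5, h6⟩ | ⟨h5, h6⟩ | ⟨h5, h6⟩ | ⟨h5, h6⟩
    · omega
    · omega
    · omega
    · omega
    · omega
    · omega
    · exact ⟨b1, hb1P, hb1s, h5, h6, hb1⟩
    · refine ⟨sg b1, PZ4_Eq4 H (Or.inr rfl) hb1P, fun h => ?_, h6, ?_, ?_⟩
      · exact (sg_ne_iff b1).2 hb1s h
      · rw [sg_sg]
        exact h5
      · rw [dg_sg_right]
        exact hb1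
    · omega
    · omega
  obtain ⟨c, hc, hcS, hcn⟩ := Comb_mk a b hb
  rw [cb_self a has, cb_self b hbs, hb'] at hcn
  have hcs : sg c ≠ c := Comb_ne_of (by rw [hcn]; norm_num)
  have hcP : c ∈ PZ4 F := PZ4_sm H hcS haP hbP
  refine ⟨a, b, c, has, hbs, hcs, hbd, hc, fun d => ?_⟩
  have hab : ∃ s ∈ EE4 F, wt s a ≠ wt s b := by
    by_contra hcon
    push Not at hcon
    rcases (evn2 H X hcon).2 has with h | h
    · rcases h with h | h
      · rw [h, dg_self] at hbd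
        omega
      · rw [h, dg_sg_right, dg_self] at hbd
        omega
    · rcases h with h | h
      · rw [h, dg_ng_right, dg_self] at hbd
        omega
      · rw [h, dg_sg_right, dg_ng_right, dg_self] at hbd
        omega
  constructor
  · intro hd
    rcases Cls_tri H X (no_ind4 H X) haP hbP hd hab with h | h | h | h
    · obtain ⟨s, hs, hw⟩ := evn1 H X d
      exact absurd (h s hs) hw
    · rcases (evn2 H X (fun s hs => (h s hs).symm)).2 has with h' | h'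
      · exact Or.inl h'
      · exact Or.inr (Or.inl h')
    · rcases (evn2 H X (fun s hs => (h s hs).symm)).2 hbs with h' | h'
      · exact Or.inr (Or.inr (Or.inl h'))
      · exact Or.inr (Or.inr (Or.inr (Or.inl h')))
    · have h5 : ∀ s ∈ EE4 F, wt s c = wt s d := by
        intro s hs
        rw [wt_add H (T4_le_TT H hs.1) hc, h s hs]
      rcases (evn2 H X h5).2 hcs with h' | h'
      · exact Or.inr (Or.inr (Or.inr (Or.inr (Or.inl h'))))
      · exact Or.inr (Or.inr (Or.inr (Or.inr (Or.inr h'))))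
  · rintro (h | h | h | h | h | h)
    · exact PZ4_Eq4 H h haP
    · exact PZ4_Eq4 H h (PZ4_ng H haP)
    · exact PZ4_Eq4 H h hbP
    · exact PZ4_Eq4 H h (PZ4_ng H hbP)
    · exact PZ4_Eq4 H h hcP
    · exact PZ4_Eq4 H h (PZ4_ng H hcP)

end Pool.Agent.H31.F4
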