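import Pool.Agent.H31.F4.Q2a

/-!
# FF-32: exponentials of elements of degree 2

`exp2`: `u = ∑ u_y Df y` over representatives `y` of the roots of F_4 with `dg c y = 2` (`u ∈ LF`: the
coordinates at `y`, `sg y` agree; `u` has no toral part).  For `u, u'` of degree 2: `[u,u']` has
degree 4, so 0; `ad u ad u' ad u''` has degree 6, so 0 (degrees between -2 and 2, `dg_range`).  So
`e3 (u + u') x = e3 u (e3 u' x)` (`e3_add`), and `e3 (s • Df y) = xf y s` (`xf_e3`).  Induction over a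
finite set of roots.
`LF_center`: `x ∈ LF`, `[x, y] = 0` for all `y`: `y = hh h`: `fk h (zk a) x.2 a = 0` (`sv h = h`,
`h = zk (cv a)` gives `2 x.2 a = 0`); `y = e_a`: `fk x.1 (zk a) = 0` for all `a`, `x.1 = 0` by `nds`.
`exp2_inj`: let `x` be homogeneous of degree `k`; the part of degree `k + 2` of the identity says
`τ [Df c, x] = [u, x]`.  So `u - τ Df c` is central, `LF_center`.
`ex_eq_xf`: take inverses and difference: `g xf a 1 g⁻¹ - g xf a (-1) g⁻¹ = 2 ad (g Df a)` and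
`xf c τ - xf c (-τ) = 2 τ ad (Df c)`; `LF_center`.
-/

namespace Pool.Agent.H31.F4

open Pool.Agent.H33.EL (ip cc eps Rt ng zk ek fk LL hh e brf fmf br fm IsExt exl ex xr hd L0 GG T1 TT NN SF cj wt)

variable {K : Type} [Field K]

theorem Exp2_top (c : Rt C6) (x : LL C6 K) : x ∈ Fil C6 K (cv c) (-2) :=
  ⟨fun b hb => absurd (dg_range c b).1 (by
    have h1 : dg c b = ip C6 (cv c) b.1 := rfl
    omega), fun h => absurd h (by omega)⟩

theorem Exp2_bot (c : Rt C6) {i : ℤ} (hi : 3 ≤ i) {x : LL C6 K}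
    (hx : x ∈ Fil C6 K (cv c) i) : x = 0 :=
  Prod.ext (hx.2 (by omega)) (funext fun b => hx.1 b (by
    have h1 : dg c b = ip C6 (cv c) b.1 := rfl
    have h2 := (dg_range c b).2
    omega))

theorem Exp2_br (c : Rt C6) {u v : LL C6 K} (hu : u ∈ Grd C6 K (cv c) 2)
    (hv : v ∈ Grd C6 K (cv c) 2) : br u v = 0 :=
  Exp2_bot c (i := 2 + 2) (by norm_num)
    (FilA_br_fil (FilA_grd_le _ _ hu) (FilA_grd_le _ _ hv))

theorem Exp2_br3 (c : Rt C6) {u v w : LL C6 K} (hu : u ∈ Grd C6 K (cv c) 2)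
    (hv : v ∈ Grd C6 K (cv c) 2) (hw : w ∈ Grd C6 K (cv c) 2) (x : LL C6 K) :
    br u (br v (br w x)) = 0 :=
  Exp2_bot c (i := 2 + (2 + (2 + -2))) (by norm_num)
    (FilA_br_fil (FilA_grd_le _ _ hu) (FilA_br_fil (FilA_grd_le _ _ hv)
      (FilA_br_fil (FilA_grd_le _ _ hw) (Exp2_top c x))))

theorem Exp2_e3 (v y : LL C6 K) : e3 v y = y + br v y + (2⁻¹ : K) • br v (br v y) := rfl

theorem e3_add (H : HypW C6 K) (c : Rt C6) {u v : LL C6 K} (hu : u ∈ Grd C6 K (cv c) 2)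
    (hv : v ∈ Grd C6 K (cv c) 2) (x : LL C6 K) : e3 (u + v) x = e3 u (e3 v x) := by
  have h2 := two_ne H
  have h1 : br v (br u x) = br u (br v x) := by
    rw [jac H v u x, Exp2_br c hv hu, map_zero, LinearMap.zero_apply, zero_add]
  rw [Exp2_e3, Exp2_e3, Exp2_e3]
  simp only [map_add, map_smul, LinearMap.add_apply, Exp2_br3 c hu hv hv, Exp2_br3 c hu hu hv,
    smul_zero, add_zero, h1]
  match_scalars <;> field_simp <;> ring

theorem Exp2_Df (c a : Rt C6) (h : dg c a = 2) : Df K a ∈ Grd C6 K (cv c) 2 := by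
  refine ⟨fun b hb => ?_, fun _ => Df_fst a⟩
  rw [Df_snd, if_neg]
  rintro (rfl | rfl)
  · exact hb h
  · apply hb
    have h3 := dg_sg_right c a
    have h4 : dg c (sg a) = ip C6 (cv c) (sg a).1 := rfl
    rw [← h4, h3, h]

theorem Exp2_sum (H : HypW C6 K) (c : Rt C6) (k : Rt C6 → K) (S : Finset (Rt C6))
    (hS : ∀ a ∈ S, dg c a = 2) :
    ∃ ρ ∈ Gn K {y | dg c y = 2}, ∀ x, ρ x = e3 (∑ a ∈ S, k a • Df K a) x := by
  classical
  induction S using Finset.induction_on with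
  | empty =>
    refine ⟨1, one_mem _, fun x => ?_⟩
    rw [Finset.sum_empty, Exp2_e3]
    simp
  | insert a S ha ih =>
    obtain ⟨ρ, hρ, h1⟩ := ih fun b hb => hS b (Finset.mem_insert_of_mem hb)
    have h2 : dg c a = 2 := hS a (Finset.mem_insert_self a S)
    refine ⟨xf a (k a) * ρ, mul_mem (Subgroup.subset_closure ⟨a, h2, k a, rfl⟩) hρ, fun x => ?_⟩
    rw [Finset.sum_insert ha, e3_add H c (Submodule.smul_mem _ _ (Exp2_Df c a h2))
      (Submodule.sum_mem _ fun b hb => Submodule.smul_mem _ _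
        (Exp2_Df c b (hS b (Finset.mem_insert_of_mem hb)))), ← h1 x, ← xf_e3 H]
    rfl

theorem exp2 (H : HypW C6 K) (c : Rt C6) {u : LL C6 K} (hu : u ∈ LF K)
    (hu2 : u ∈ Grd C6 K (cv c) 2) :
    ∃ ρ ∈ Gn K {y | dg c y = 2}, ∀ x, ρ x = e3 u x := by
  classical
  have h2 := two_ne H
  obtain ⟨h3, h4⟩ := (mem_LF' u).1 hu
  have h5 := SigB_dbl_LF u h4
  have h6 : u.1 = 0 := hu2.2 (by norm_num)
  obtain ⟨k, hk⟩ : ∃ k : Rt C6 → K, k = fun a => if sg a = a then u.2 a else 2⁻¹ * u.2 a :=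
    ⟨_, rfl⟩
  have h7 : u = ∑ a ∈ Finset.univ.filter (fun a : Rt C6 => dg c a = 2), k a • Df K a := by
    have h8 : ∑ a ∈ Finset.univ.filter (fun a : Rt C6 => dg c a = 2), k a • Df K a =
        ∑ a : Rt C6, k a • Df K a := by
      refine Finset.sum_subset (Finset.filter_subset _ _) fun a _ ha => ?_
      have h9 : u.2 a = 0 := hu2.1 a (fun h => ha (by
        rw [Finset.mem_filter]
        exact ⟨Finset.mem_univ a, h⟩))
      rw [hk]
      simp only [h9, mul_zero, ite_self, zero_smul]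
    rw [h8]
    apply smul_right_injective _ h2
    show (2 : K) • u = (2 : K) • ∑ a : Rt C6, k a • Df K a
    rw [h5, h6]
    have h10 : hh C6 (0 : Fin 6 → K) = 0 := rfl
    rw [h10, smul_zero, zero_add, Finset.smul_sum]
    refine Finset.sum_congr rfl fun a _ => ?_
    rw [hk]
    by_cases ha : sg a = a
    · simp only [ha, if_true]
      rw [Df_long ha]
      module
    · simp only [ha, if_false]
      rw [Df_short ha, smul_smul, ← mul_assoc, mul_inv_cancel₀ h2, one_mul]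
  rw [h7]
  exact Exp2_sum H c k _ fun a ha => (Finset.mem_filter.1 ha).2

theorem LF_center (H : HypW C6 K) {x : LL C6 K} (hx : x ∈ LF K) (h : ∀ y, br x y = 0) : x = 0 :=
  XfA_center H hx h

theorem Exp2_grd0 {d : Fin 6 → ℤ} {i j : ℤ} (hij : i ≠ j) {x : LL C6 K} (h1 : x ∈ Grd C6 K d i)
    (h2 : x ∈ Grd C6 K d j) : x = 0 := by
  refine Prod.ext ?_ (funext fun b => ?_)
  · by_cases hi : i = 0
    · exact h2.2 (by omega)
    · exact h1.2 hi
  · by_cases hb : ip C6 d b.1 = i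
    · exact h2.1 b (by omega)
    · exact h1.1 b hb

theorem exp2_inj (H : HypW C6 K) (c : Rt C6) {u : LL C6 K} (hu : u ∈ LF K)
    (hu2 : u ∈ Grd C6 K (cv c) 2) {τ : K} (h : ∀ x, xf c τ x = e3 u x) : u = τ • Df K c := by
  obtain ⟨w, hw⟩ : ∃ w, w = τ • Df K c := ⟨_, rfl⟩
  have hw2 : w ∈ Grd C6 K (cv c) 2 := by
    rw [hw]
    exact Submodule.smul_mem _ _ (Exp2_Df c c (dg_self c))
  have hwL : w ∈ LF K := by
    rw [hw]
    exact Submodule.smul_mem _ _ (Df_mem c)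
  have h1 : ∀ (i : ℤ) (x : LL C6 K), x ∈ Grd C6 K (cv c) i → br (u - w) x = 0 := by
    intro i x hx
    have h3 := h x
    rw [xf_e3 H, ← hw, Exp2_e3, Exp2_e3] at h3
    have h4 : br (u - w) x = (2⁻¹ : K) • br w (br w x) - (2⁻¹ : K) • br u (br u x) := by
      have h5 : br w x + (2⁻¹ : K) • br w (br w x) = br u x + (2⁻¹ : K) • br u (br u x) := by
        have h6 := h3
        rw [add_assoc, add_assoc] at h6
        exact add_left_cancel h6
      rw [map_sub, LinearMap.sub_apply, sub_eq_sub_iff_add_eq_add, ← h5]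
      abel
    refine Exp2_grd0 (i := 2 + i) (j := 2 + (2 + i)) (by omega)
      (FilA_br_grd (sub_mem hu2 hw2) hx) ?_
    rw [h4]
    exact sub_mem (Submodule.smul_mem _ _ (FilA_br_grd hw2 (FilA_br_grd hw2 hx)))
      (Submodule.smul_mem _ _ (FilA_br_grd hu2 (FilA_br_grd hu2 hx)))
  have h2 : br (u - w) = (0 : LL C6 K →ₗ[K] LL C6 K) := by
    apply ext_basis
    · intro k
      rw [h1 0 _ (FilA_hh_grd _ k), LinearMap.zero_apply]
    · intro a
      rw [h1 _ _ (FilA_e_grd _ a), LinearMap.zero_apply]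
  rw [← hw]
  exact sub_eq_zero.1 (LF_center H (sub_mem hu hwL) fun y => by rw [h2, LinearMap.zero_apply])

theorem ex_eq_xf (H : HypW C6 K) {g : LL C6 K ≃ₗ[K] LL C6 K} (hg : g ∈ GF K) {a c : Rt C6} {τ : K}
    (h : g * xf a 1 * g⁻¹ = xf c τ) : g (Df K a) = τ • Df K c := by
  have h1 : ∀ x, e3 (g (Df K a)) x = e3 (τ • Df K c) x := by
    intro x
    rw [← xf_e3 H, ← h, conj_e3 H hg, one_smul]
  have h' : g * xf a (-1) * g⁻¹ = xf c (-τ) := by
    rw [xf_neg H, xf_neg H, ← h]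
    group
  have h2 : ∀ x, e3 (-g (Df K a)) x = e3 (-(τ • Df K c)) x := by
    intro x
    rw [← neg_smul, ← xf_e3 H, ← h', conj_e3 H hg, neg_one_smul]
  have h3 : g (Df K a) - τ • Df K c ∈ LF K :=
    sub_mem ((GF_LF hg _).2 (Df_mem a)) (Submodule.smul_mem _ _ (Df_mem c))
  refine sub_eq_zero.1 (LF_center H h3 fun y => ?_)
  have h4 := h1 y
  have h5 := h2 y
  rw [Exp2_e3, Exp2_e3] at h4 h5
  simp only [map_neg, LinearMap.neg_apply, neg_neg] at h5
  rw [map_sub, LinearMap.sub_apply, sub_eq_zero]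
  apply smul_right_injective _ (two_ne H)
  obtain ⟨A, hA⟩ : ∃ A, A = br (g (Df K a)) y := ⟨_, rfl⟩
  obtain ⟨B, hB⟩ : ∃ B, B = br (τ • Df K c) y := ⟨_, rfl⟩
  rw [← hA, ← hB] at h4 h5 ⊢
  show (2 : K) • A = (2 : K) • B
  calc (2 : K) • A = (y + A + (2⁻¹ : K) • br (g (Df K a)) A) -
        (y + -A + (2⁻¹ : K) • br (g (Df K a)) A) := by module
    _ = _ := by rw [h4, h5]
    _ = (2 : K) • B := by module

end Pool.Agent.H31.F4
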