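import Pool.Agent.H31.F4.Orb4
import Pool.Agent.H31.F4.Exp2
import Pool.Agent.H31.F4.Min4

/-!
# FF-41: long points and good short roots, the form

`com_id`: `D = Df c`, `φ = fm v D`.  `xf c t v = v + t [D,v] + (t²/2)[D,[D,v]]`.  `[v,[D,v]] = -[v,[v,D]] = 2 φ v`,
`[v,[D,[D,v]]] = [[v,D],[D,v]] + [D,[v,[D,v]]] = 2 φ [D,v]`; `fm [D,v] [D,v] = 2 φ²` (`fm_inv`),
`fm v (xf c t v) = -t² φ²`.  With `y = xf c t v`: `[v,y] = 2 t φ v + t² φ [D,v]`,
`[v,[v,y]] = -2 (fm v y) v = 2 t² φ² v`.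
`com_phi`: suppose `φ = fm v D ≠ 0`, `v = g (e a)`.  `t = 1`, `s = -1/φ`: `y = ex (s v) * xf c 1 ∈ F` (`PtF_ex`, `ex` acts as
`e3`: `conj_e3`), `u = y v = (1/2)[D,[D,v]]` by `com_id`, of degree 2 (`D` raises the degree by 2).  `PtF F (y g) a`;
`(y g) xf a s (y g)⁻¹ = e3 (s • u)` (`conj_e3`), in `Q2 c` (`mem_Q2`, `FilA_br_fil`), in `F`; `FQ2`: `= xf c τ`; `ex_eq_xf`:
`u = τ Df c`, `u ≠ 0` (`u = (y g)(e a)`), `u` extremal (`isExt_e`, `IsExt_map`): contradiction to `not_ext_short`.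
-/

namespace Pool.Agent.H31.F4

open Pool.Agent.H33.EL (ip cc eps Rt ng zk ek fk LL hh e brf fmf br fm IsExt exl ex xr hd L0 GG T1 TT NN SF cj wt)

variable {K : Type} [Field K]

variable {p : ℕ} {F : Subgroup (LL C6 K ≃ₗ[K] LL C6 K)}

theorem com_id (H : HypW C6 K) (c : Rt C6) {v : LL C6 K} (hv : IsExt v) (s t : K) :
    e3 (s • v) (xf c t v) = ((1 + s * t * fm v (Df K c)) ^ 2) • v +
      (t * (1 + s * t * fm v (Df K c))) • br (Df K c) v +
      (2⁻¹ * t ^ 2) • br (Df K c) (br (Df K c) v) := by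
  have h2 := two_ne H
  have b0 : br v v = 0 := br_self H v
  have b1 : br v (br (Df K c) v) = (2 * fm v (Df K c)) • v := by
    rw [br_skew H (Df K c) v, map_neg, hv, ← neg_smul]
    congr 1
    ring
  have b2 : br v (br (Df K c) (br (Df K c) v)) = (2 * fm v (Df K c)) • br (Df K c) v := by
    have h3 : br v (br (Df K c) (br (Df K c) v)) =
        br (br v (Df K c)) (br (Df K c) v) + br (Df K c) (br v (br (Df K c) v)) :=
      jac H v (Df K c) (br (Df K c) v)
    have h4 : br (br v (Df K c)) (br (Df K c) v) = 0 := by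
      rw [br_skew H v (Df K c), map_neg, LinearMap.neg_apply, br_self H, neg_zero]
    rw [h3, h4, b1, map_smul, zero_add]
  have c1 : br v (xf c t v) = (t * (2 * fm v (Df K c))) • v +
      (2⁻¹ * t ^ 2 * (2 * fm v (Df K c))) • br (Df K c) v := by
    rw [xf_apply H, map_add, map_add, map_smul, map_smul, b0, b1, b2, zero_add, smul_smul,
      smul_smul]
  have c2 : br v (br v (xf c t v)) = (2⁻¹ * t ^ 2 * (2 * fm v (Df K c)) *
      (2 * fm v (Df K c))) • v := by
    rw [c1, map_add, map_smul, map_smul, b0, b1, smul_zero, zero_add, smul_smul]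
  have c3 : e3 (s • v) (xf c t v) = xf c t v + s • br v (xf c t v) +
      (2⁻¹ : K) • (s • (s • br v (br v (xf c t v)))) := by
    unfold e3
    simp only [map_smul, LinearMap.smul_apply]
  rw [c3, c2, c1, xf_apply H]
  match_scalars <;> field_simp <;> ring

private theorem comA_D (c : Rt C6) : Df K c ∈ Fil C6 K (cv c) 2 :=
  Fil_of_Grd (Exp2_Df c c (dg_self c))

theorem com_phi (H : HypW C6 K) [Fact p.Prime] [CharP K p] (X : HB p F) {c a : Rt C6}
    (hc : c ∈ SsF F) (ha : sg a = a) {g : LL C6 K ≃ₗ[K] LL C6 K} (hg : PtF F g a) :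
    fm (g (e K a)) (Df K c) = 0 := by
  by_contra hne
  have hgF := hg.1
  have hgG : g ∈ GG C6 K := GF_le_GG hgF
  set v : LL C6 K := g (e K a) with hv0
  have hv : IsExt v := IsExt_map (isExt_e H a) hgG
  set φ : K := fm v (Df K c) with hφ
  set s : K := -φ⁻¹ with hs
  have hsv : IsExt (s • v) := IsExt_smul hv s
  have hE : ex (s • v) ∈ F := by
    have h1 := PtF_ex hg s
    rwa [Df_long ha] at h1
  have hx : xf c 1 ∈ F := hc.1 1
  have hy : ex (s • v) * xf c 1 ∈ F := mul_mem hE hx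
  have hP : PtF F (ex (s • v) * xf c 1 * g) a := PtF_mul X.hF hy hg
  set g' : LL C6 K ≃ₗ[K] LL C6 K := ex (s • v) * xf c 1 * g with hg'
  have hu : g' (e K a) = (2⁻¹ : K) • br (Df K c) (br (Df K c) v) := by
    have h1 : g' (e K a) = ex (s • v) (xf c 1 v) := rfl
    have h2 : ex (s • v) (xf c 1 v) = e3 (s • v) (xf c 1 v) := ex_apply H hsv _
    have h3 : 1 + s * 1 * fm v (Df K c) = 0 := by
      rw [hs, ← hφ]
      field_simp
      ring
    rw [h1, h2, com_id H c hv, h3]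
    simp
  have hDf : Df K a = e K a := Df_long ha
  have huF : g' (Df K a) ∈ Fil C6 K (cv c) 2 := by
    rw [hDf, hu]
    refine Submodule.smul_mem _ _ ?_
    have h1 := FilA_br_fil (comA_D (K := K) c) (FilA_br_fil (comA_D c) (Exp2_top c v))
    exact Fil_anti (by norm_num) h1
  have hQ : g' * xf a 1 * g'⁻¹ ∈ Q2 K c := by
    refine mem_Q2 H c (X.hF (hP.2 1)) fun k x hx => ?_
    rw [conj_e3 H hP.1, one_smul]
    have h1 := FilA_br_fil huF hx
    have h2 := FilA_br_fil huF h1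
    have h3 : e3 (g' (Df K a)) x - x = br (g' (Df K a)) x +
        (2⁻¹ : K) • br (g' (Df K a)) (br (g' (Df K a)) x) := by
      unfold e3
      abel
    rw [h3]
    exact Submodule.add_mem _ (Fil_anti (by omega) h1)
      (Submodule.smul_mem _ _ (Fil_anti (by omega) h2))
  obtain ⟨τ, hτ⟩ := FQ2 H X.hF X.hT hc (hP.2 1) hQ
  have h5 := ex_eq_xf H hP.1 hτ
  rw [hDf] at h5
  have h6 : IsExt (g' (e K a)) := IsExt_map (isExt_e H a) (GF_le_GG hP.1)
  have hea : e K a ≠ 0 := by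
    intro h
    have h7 := congrFun (congrArg Prod.snd h) a
    have h8 : (e K a).2 a = 1 := by simp [e]
    rw [h8] at h7
    exact one_ne_zero h7
  have hτ0 : τ ≠ 0 := by
    rintro rfl
    rw [zero_smul] at h5
    exact hea (g'.injective (by rw [h5, map_zero]))
  rw [h5] at h6
  exact not_ext_short H c hc.2.1 hτ0 h6

end Pool.Agent.H31.F4
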