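import Pool.Agent.H31.F4.ComA

/-!
# FF-42: long points and good short roots, degree ±2

`com_comm`: `φ = 0`: `com_id` says `e3 (s v) y = y` for all `s`, `y = xf c t v`; `s = ±1`, difference: `[v, y] = 0`;
then `[v,[v,y]] = 0`, `fm v y = 0` (`v ≠ 0`).
`com_prod`: `V = ad v`, `M = ad [D,v]`, `N = ad [D,[D,v]]`.  By `com_comm` (for all `t`) `[v,[D,v]] = 0`, `[v,[D,[D,v]]] = 0`;
`y_t = xf c t v`, `y_s` commute (apply `xf c s` to `com_comm` for `t - s`), so `[[D,v],[D,[D,v]]] = 0`: `V, M, N` commute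
(Jacobi).  For commuting extremal `v, w` with `fm v w = 0`: `ad(v)² ad(w) x = -2 fm v [w,x] v = 0` (`fm_inv`).  So
`V³ = V² M = V² N = 0` (`[v, [D,v]] = 0` etc. directly: `V² M x = -2 fm v [[D,v],x] v = 0`), and from the extremality of
`y_t` (`t` arbitrary) `(V + t M + (t²/2) N)² V = 0`: `t² M² V + (t⁴/4) N² V = 0`; two values of `t²`:
`M² V = 0`, `N² V = 0`.  With `A = V + M + N/2`, `B = V - M + N/2`, `C = -2V`: `A² B = 0 = A B²`, `A² C = 0`, … (the same
computation), and `A B C = -2 V (V² - M² + V N + N²/4) = 0`.  So the product of the three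
exponentials is `1 + (A+B+C) + (A+B+C)²/2 = e3 ([D,[D,v]])`.
`com_v2`: `v = g (e a)`, `u = [D,[D,v]]`, of degree 2.  `y_1 = xf c 1 v`, `y_(-1)`, `v` are of the form `g' (e a)` with
`PtF F g' a`; `ex y_1 ex y_(-1) ex (-2 v) ∈ F` (`PtF_ex`), it acts as `e3 u` (`com_prod`), so it is in `Q2 c` (`mem_Q2`)
and `= xf c τ` (`FQ2`), `u = τ D` (`exp2_inj`).  Let `v'` be the degree `-2` part of `v`; `u = [D,[D,v']]`
(other parts go to degree `> 2`).  `v.2 (ng c) = 0` (`com_phi`, `fm_D`), so `v'` is a combination of `e_d`, `d` long with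
`dg c d = -2` (`dg_neg_two`), and `[D,[D,e_d]] = k_d e_(d')`, `k_d ≠ 0`, `d' = rfv c d` long, different for different `d`
(`br_DD` twice: `Sm c d x`, `Sm c x d'`; the coefficient is not 0 by `ad_inj`).  So `τ = 0` (coordinate at `c`), all
`v.2 d = 0`.  For `dg c d = 2` use `ng c` (`SsF_ng`).
-/

namespace Pool.Agent.H31.F4

open Pool.Agent.H33.EL (ip cc eps Rt ng zk ek fk LL hh e brf fmf br fm IsExt exl ex xr hd L0 GG T1 TT NN SF cj wt)

variable {K : Type} [Field K]

variable {p : ℕ} {F : Subgroup (LL C6 K ≃ₗ[K] LL C6 K)}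

private theorem ComB_fm0 (H : HypW C6 K) {a b : LL C6 K} (h : br b a = 0) (x : LL C6 K) :
    fm a (br b x) = 0 := by
  have h1 := fm_inv H b a x
  rw [h, map_zero, LinearMap.zero_apply] at h1
  exact neg_eq_zero.1 h1.symm

private theorem ComB_sw (H : HypW C6 K) {a b : LL C6 K} (h : br a b = 0) (x : LL C6 K) :
    br b (br a x) = br a (br b x) := by
  rw [jac H a b x, h, map_zero, LinearMap.zero_apply, zero_add]

private theorem ComB_skew (H : HypW C6 K) {a b : LL C6 K} (h : br a b = 0) : br b a = 0 := by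
  rw [br_skew H, h, neg_zero]

private theorem ComB_dbl (H : HypW C6 K) {z : LL C6 K} (h : z + z = 0) : z = 0 := by
  have h1 : (2 : K) • z = 0 := by rw [two_smul]; exact h
  exact (smul_eq_zero.1 h1).resolve_left (two_ne H)

theorem com_comm (H : HypW C6 K) (c : Rt C6) {v : LL C6 K} (hv : IsExt v) (h0 : v ≠ 0)
    (hφ : fm v (Df K c) = 0) (t : K) : br v (xf c t v) = 0 ∧ fm v (xf c t v) = 0 := by
  have e1 : ∀ s : K, s • br v (xf c t v) + (2⁻¹ * s ^ 2) • br v (br v (xf c t v)) = 0 := by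
    intro s
    have h := com_id H c hv s t
    rw [hφ, mul_zero, add_zero, one_pow, mul_one, one_smul, ← xf_apply H c t v] at h
    have h3 : e3 (s • v) (xf c t v) = xf c t v +
        (s • br v (xf c t v) + (2⁻¹ * s ^ 2) • br v (br v (xf c t v))) := by
      rw [Exp2_e3]
      simp only [map_smul, LinearMap.smul_apply]
      module
    rw [h3] at h
    exact add_eq_left.1 h
  obtain ⟨A, hA⟩ : ∃ A, A = br v (xf c t v) := ⟨_, rfl⟩
  have a1 := e1 1
  have a2 := e1 (-1)
  rw [← hA] at a1 a2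
  have h4 : A + A = 0 := by
    calc A + A = ((1 : K) • A + (2⁻¹ * (1 : K) ^ 2) • br v A) -
        ((-1 : K) • A + (2⁻¹ * (-1 : K) ^ 2) • br v A) := by module
      _ = 0 := by rw [a1, a2, sub_zero]
  have h5 : A = 0 := ComB_dbl H h4
  have h6 : br v (xf c t v) = 0 := hA.symm.trans h5
  refine ⟨h6, ?_⟩
  have h7 := hv (xf c t v)
  rw [h6, map_zero] at h7
  have h8 := (smul_eq_zero.1 h7.symm).resolve_right h0
  exact (mul_eq_zero.1 h8).resolve_left (neg_ne_zero.2 (two_ne H))

private theorem ComB_cub (H : HypW C6 K) {D v w u : LL C6 K} (hw : br D v = w) (hu : br D w = u)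
    (hz : br D u = 0) (c1 : br v w = 0) (c2 : br v u = 0) (c3 : br w u = 0) (hv : IsExt v)
    (hy : IsExt (v + w + (2⁻¹ : K) • u)) :
    (∀ x, br v (br v (br v x)) = 0) ∧ (∀ x, br v (br v (br w x)) = 0) ∧
    (∀ x, br v (br v (br u x)) = 0) ∧ (∀ x, br v (br w (br w x)) = 0) ∧
    (∀ x, br v (br w (br u x)) = 0) ∧ (∀ x, br v (br u (br u x)) = 0) ∧
    (∀ x, br w (br w (br w x)) = 0) ∧ (∀ x, br w (br w (br u x)) = 0) ∧
    (∀ x, br w (br u (br u x)) = 0) ∧ (∀ x, br u (br u (br u x)) = 0) := by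
  have h2 := two_ne H
  have s1 : ∀ x, br w (br v x) = br v (br w x) := ComB_sw H c1
  have s2 : ∀ x, br u (br v x) = br v (br u x) := ComB_sw H c2
  have s3 : ∀ x, br u (br w x) = br w (br u x) := ComB_sw H c3
  have d1 : ∀ z, br D (br v z) = br w z + br v (br D z) := fun z => by rw [jac H, hw]
  have d2 : ∀ z, br D (br w z) = br u z + br w (br D z) := fun z => by rw [jac H, hu]
  have d3 : ∀ z, br D (br u z) = br u (br D z) := fun z => by
    rw [jac H, hz, map_zero, LinearMap.zero_apply, zero_add]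
  have vvv : ∀ x, br v (br v (br v x)) = 0 := fun x => by
    rw [hv, ComB_fm0 H (br_self H v), mul_zero, zero_smul]
  have vvm : ∀ x, br v (br v (br w x)) = 0 := fun x => by
    rw [hv, ComB_fm0 H (ComB_skew H c1), mul_zero, zero_smul]
  have vvn : ∀ x, br v (br v (br u x)) = 0 := fun x => by
    rw [hv, ComB_fm0 H (ComB_skew H c2), mul_zero, zero_smul]
  have vmm : ∀ x, br v (br w (br w x)) = 0 := fun x => by
    have k := congrArg (br D) (vvm x)
    rw [d1, d1, d2] at k
    simp only [map_add, map_zero, s1, s2, s3, vvv, vvm, vvn, zero_add, add_zero] at k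
    exact ComB_dbl H k
  have vmn : ∀ x, br v (br w (br u x)) = 0 := fun x => by
    have k := congrArg (br D) (vvn x)
    rw [d1, d1, d3] at k
    simp only [map_add, map_zero, s1, s2, s3, vvv, vvm, vvn, vmm, zero_add,
      add_zero] at k
    exact ComB_dbl H k
  have vnn : ∀ x, br v (br u (br u x)) = 0 := fun x => by
    have hb : br v (v + w + (2⁻¹ : K) • u) = 0 := by
      rw [map_add, map_add, map_smul, br_self H, c1, c2, smul_zero, add_zero, add_zero]
    have k := hy (br v x)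
    rw [ComB_fm0 H hb, mul_zero, zero_smul] at k
    simp only [map_add, map_smul, LinearMap.add_apply, LinearMap.smul_apply, map_zero, s1, s2, s3,
      vvv, vvm, vvn, vmm, vmn, zero_add, add_zero, smul_zero] at k
    have h3 := (smul_eq_zero.1 k).resolve_left (inv_ne_zero h2)
    exact (smul_eq_zero.1 h3).resolve_left (inv_ne_zero h2)
  have mmm : ∀ x, br w (br w (br w x)) = 0 := fun x => by
    have k := congrArg (br D) (vmm x)
    rw [d1, d2, d2] at k
    simp only [map_add, map_zero, s1, s2, s3, vvv, vvm, vvn, vmm, vmn, vnn, zero_add,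
      add_zero] at k
    exact k
  have mmn : ∀ x, br w (br w (br u x)) = 0 := fun x => by
    have k := congrArg (br D) (vmn x)
    rw [d1, d2, d3] at k
    simp only [map_add, map_zero, s1, s2, s3, vvv, vvm, vvn, vmm, vmn, vnn, zero_add,
      add_zero] at k
    exact k
  have mnn : ∀ x, br w (br u (br u x)) = 0 := fun x => by
    have k := congrArg (br D) (vnn x)
    rw [d1, d3, d3] at k
    simp only [map_add, map_zero, s1, s2, s3, vvv, vvm, vvn, vmm, vmn, vnn, zero_add,
      add_zero] at k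
    exact k
  have nnn : ∀ x, br u (br u (br u x)) = 0 := fun x => by
    have k := congrArg (br D) (mnn x)
    rw [d2, d3, d3] at k
    simp only [map_add, map_zero, s1, s2, s3, vvv, vvm, vvn, vmm, vmn, vnn, mnn,
      zero_add, add_zero] at k
    exact k
  exact ⟨vvv, vvm, vvn, vmm, vmn, vnn, mmm, mmn, mnn, nnn⟩

theorem com_prod (H : HypW C6 K) (c : Rt C6) {v : LL C6 K} (hv : IsExt v) (h0 : v ≠ 0)
    (hφ : fm v (Df K c) = 0) (x : LL C6 K) :
    e3 (xf c 1 v) (e3 (xf c (-1) v) (e3 (-(2 : K) • v) x)) =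
      e3 (br (Df K c) (br (Df K c) v)) x := by
  have h2 := two_ne H
  obtain ⟨D, hD⟩ : ∃ D, D = Df K c := ⟨_, rfl⟩
  obtain ⟨w, hw⟩ : ∃ w, br D v = w := ⟨_, rfl⟩
  obtain ⟨u, hu⟩ : ∃ u, br D w = u := ⟨_, rfl⟩
  have hz : br D u = 0 := by
    rw [← hu, ← hw, hD]
    exact ad3 H c v
  have y1 : ∀ t : K, xf c t v = v + t • w + (2⁻¹ * t ^ 2) • u := by
    intro t
    rw [xf_apply H, ← hD, hw, hu]
  have k1 := (com_comm H c hv h0 hφ 1).1
  have k2 := (com_comm H c hv h0 hφ (-1)).1
  rw [y1, map_add, map_add, map_smul, map_smul, br_self H, zero_add] at k1 k2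
  have c2 : br v u = 0 := by
    calc br v u = ((1 : K) • br v w + (2⁻¹ * (1 : K) ^ 2) • br v u) +
        ((-1 : K) • br v w + (2⁻¹ * (-1 : K) ^ 2) • br v u) := by
          match_scalars <;> field_simp <;> ring
      _ = 0 := by rw [k1, k2, zero_add]
  have c1 : br v w = 0 := by
    rw [c2, smul_zero, add_zero, one_smul] at k1
    exact k1
  have c3 : br w u = 0 := by
    have k := jac H D v u
    rw [c2, hz, map_zero, map_zero, hw, add_zero] at k
    exact k.symm
  have hy : IsExt (v + w + (2⁻¹ : K) • u) := by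
    have k := IsExt_map hv (GF_le_GG (xf_mem_GF H c 1))
    rw [y1, one_smul, one_pow, mul_one] at k
    exact k
  obtain ⟨vvv, vvm, vvn, vmm, vmn, vnn, mmm, mmn, mnn, nnn⟩ :=
    ComB_cub H hw hu hz c1 c2 c3 hv hy
  have s1 : ∀ x, br w (br v x) = br v (br w x) := ComB_sw H c1
  have s2 : ∀ x, br u (br v x) = br v (br u x) := ComB_sw H c2
  have s3 : ∀ x, br u (br w x) = br w (br u x) := ComB_sw H c3
  rw [← hD, hw, hu, y1, y1]
  simp only [Exp2_e3]
  simp only [map_add, map_smul, LinearMap.add_apply, LinearMap.smul_apply, map_zero, smul_zero,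
    add_zero, zero_add, s1, s2, s3, vvv, vvm, vvn, vmm, vmn, vnn, mmm, mmn, mnn, nnn]
  match_scalars <;> field_simp <;> ring

/-- the vector `[D, [D, v]]` has degree 2 -/
private theorem ComB_deg (c : Rt C6) (v : LL C6 K) :
    br (Df K c) (br (Df K c) v) ∈ Fil C6 K (cv c) 2 := by
  have hD : Df K c ∈ Fil C6 K (cv c) 2 := FilA_grd_le _ _ (Exp2_Df c c (dg_self c))
  have h := FilA_br_fil hD (FilA_br_fil hD (Exp2_top c v))
  exact h

private theorem ComB_grd (c : Rt C6) {x : LL C6 K} (hx : x ∈ Fil C6 K (cv c) 2) :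
    x ∈ Grd C6 K (cv c) 2 := by
  refine ⟨fun b hb => hx.1 b ?_, fun _ => hx.2 (by norm_num)⟩
  have h1 : dg c b = ip C6 (cv c) b.1 := rfl
  have h2 := (dg_range c b).2
  rcases lt_or_eq_of_le h2 with h3 | h3
  · omega
  · exact absurd (h1.symm.trans h3) hb

private theorem ComB_main (H : HypW C6 K) [Fact p.Prime] [CharP K p] (X : HB p F) {c a : Rt C6}
    (hc : c ∈ SsF F) (ha : sg a = a) {g : LL C6 K ≃ₗ[K] LL C6 K} (hg : PtF F g a) :
    ∃ τ : K, br (Df K c) (br (Df K c) (g (e K a))) = τ • Df K c := by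
  have hv : IsExt (g (e K a)) := IsExt_map (isExt_e H a) (GF_le_GG hg.1)
  have h0 : g (e K a) ≠ 0 := by
    intro h
    exact e_ne_zero a ((map_eq_zero_iff g g.injective).1 h)
  have hφ := com_phi H X hc ha hg
  have hL : g (e K a) ∈ LF K := by
    rw [← Df_long ha]
    exact (GF_LF hg.1 _).2 (Df_mem a)
  have g1 := PtF_mul X.hF (hc.1 1) hg
  have g2 := PtF_mul X.hF (hc.1 (-1)) hg
  obtain ⟨ρ, hρ⟩ : ∃ ρ, ρ = ((xf c 1 * g) * xf a 1 * (xf c 1 * g)⁻¹) *
      ((xf c (-1) * g) * xf a 1 * (xf c (-1) * g)⁻¹) * (g * xf a (-2) * g⁻¹) := ⟨_, rfl⟩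
  have hρF : ρ ∈ F := by
    rw [hρ]
    exact mul_mem (mul_mem (g1.2 1) (g2.2 1)) (hg.2 (-2))
  have hρx : ∀ x, ρ x = e3 (br (Df K c) (br (Df K c) (g (e K a)))) x := by
    intro x
    rw [← com_prod H c hv h0 hφ x, hρ, LinearEquiv.mul_apply, LinearEquiv.mul_apply,
      conj_e3 H hg.1, conj_e3 H g2.1, conj_e3 H g1.1, one_smul, one_smul, Df_long ha]
    rfl
  have hdeg := ComB_deg c (g (e K a))
  have hρQ : ρ ∈ Q2 K c := by
    refine mem_Q2 H c (X.hF hρF) fun k x hx => ?_
    have h1 := FilA_br_fil hdeg hx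
    have h2 := FilA_br_fil hdeg h1
    rw [hρx, Exp2_e3, add_assoc, add_sub_cancel_left]
    exact Submodule.add_mem _ (Fil_anti (by omega) h1)
      (Submodule.smul_mem _ _ (Fil_anti (by omega) h2))
  obtain ⟨τ, hτ⟩ := FQ2 H X.hF X.hT hc hρF hρQ
  refine ⟨τ, exp2_inj H c (br_LF_LF (Df_mem c) (br_LF_LF (Df_mem c) hL)) (ComB_grd c hdeg)
    fun x => ?_⟩
  rw [← hτ, hρx]

private theorem ComB_neg (H : HypW C6 K) [Fact p.Prime] [CharP K p] (X : HB p F) {c a : Rt C6}
    (hc : c ∈ SsF F) (ha : sg a = a) {g : LL C6 K ≃ₗ[K] LL C6 K} (hg : PtF F g a) {d : Rt C6}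
    (hd : dg c d = -2) : (g (e K a)).2 d = 0 := by
  have hL : g (e K a) ∈ LF K := by
    rw [← Df_long ha]
    exact (GF_LF hg.1 _).2 (Df_mem a)
  have hcs : sg c ≠ c := hc.2.1
  by_cases hdl : sg d = d
  · obtain ⟨τ, hτ⟩ := ComB_main H X hc ha hg
    obtain ⟨b, hb⟩ := rfv_root H c (ng d)
    have hcc : ip C6 c.1 c.1 = 2 := c.2
    have hc0 : ip C6 (sg c).1 c.1 = 0 := DBrB_self H hcs
    have hc0' : ip C6 c.1 (sg c).1 = 0 := by
      rw [ip_comm H.symm]
      exact hc0
    have hss : ip C6 (sg c).1 (sg c).1 = 2 := (sg c).2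
    have h1 : ip C6 (sg c).1 d.1 = ip C6 c.1 d.1 := by
      rw [DBrB_sv_comm, hdl]
    have h2 := DBrB_cv c d hcs
    have h3 : ip C6 c.1 (ng d).1 = 1 := by
      rw [ng_val, ip_neg_right]
      omega
    have h4 : ip C6 (sg c).1 (ng d).1 = 1 := by
      rw [ng_val, ip_neg_right]
      omega
    have hb' : b.1 = -d.1 - c.1 - (sg c).1 := by
      rw [hb]
      unfold rfv
      rw [if_neg hcs, h3, h4, one_smul, one_smul, ng_val]
    have h5 : ip C6 c.1 b.1 = -1 := by
      rw [hb', ip_sub_right, ip_sub_right, ip_neg_right, hcc, hc0']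
      omega
    have h6 : ip C6 (sg c).1 b.1 = -1 := by
      rw [hb', ip_sub_right, ip_sub_right, ip_neg_right, hss, hc0]
      omega
    have h7 : dg c b = -2 := by
      rw [DBrB_cv c b hcs, h5, h6]
      norm_num
    have h8 : (ng d).1 = rfv c b := by
      unfold rfv
      rw [if_neg hcs, h5, h6, hb', ng_val, neg_one_smul, neg_one_smul]
      abel
    have hbl : sg b = b := by
      apply Subtype.ext
      have h9 : sv d.1 = d.1 := congrArg Subtype.val hdl
      show sv b.1 = b.1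
      rw [hb']
      have h10 : sv (-d.1 - c.1 - (sg c).1) = -sv d.1 - sv c.1 - sv (sg c).1 := rfl
      have h11 : sv (sg c).1 = c.1 := sv_sv c.1
      have h12 : sv c.1 = (sg c).1 := rfl
      rw [h10, h9, h11, h12]
      abel
    obtain ⟨i1, i2⟩ := ad_inj H c b (ng d) (by omega) h8
    have hmem : e K b ∈ Submodule.span K {e K b, e K (sg b)} :=
      Submodule.subset_span (Set.mem_insert _ _)
    have j1 := i1 _ hmem
    have j2 := i2 _ hmem
    rw [if_neg (by omega)] at j1 j2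
    have hnd : sg (ng d) = ng d := by
      apply Subtype.ext
      have h9 : sv d.1 = d.1 := congrArg Subtype.val hdl
      show sv (-d.1) = -d.1
      have h10 : sv (-d.1) = -sv d.1 := rfl
      rw [h10, h9]
    rw [hnd] at j1
    obtain ⟨k, l, hkl⟩ := Submodule.mem_span_pair.1 j1
    rw [← add_smul] at hkl
    have hkl0 : k + l ≠ 0 := by
      intro h
      rw [h, zero_smul] at hkl
      exact e_ne_zero b (j2 hkl.symm)
    have m1 : fm (e K b) (br (Df K c) (br (Df K c) (g (e K a)))) =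
        fm (br (Df K c) (br (Df K c) (e K b))) (g (e K a)) := by
      rw [fm_inv H, fm_inv H, neg_neg]
    have hneq : ¬ Eq4 c (ng b) := by
      intro h
      apply hcs
      rw [Eq4_len h]
      apply Subtype.ext
      have h9 : sv b.1 = b.1 := congrArg Subtype.val hbl
      show sv (-b.1) = -b.1
      have h10 : sv (-b.1) = -sv b.1 := rfl
      rw [h10, h9]
    rw [hτ, ← hkl, map_smul, map_smul, LinearMap.smul_apply, fm_e_left, fm_e_left, ng_ng, Df_snd,
      if_neg hneq, neg_zero, smul_zero] at m1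
    have m2 := (smul_eq_zero.1 m1.symm).resolve_left hkl0
    exact neg_eq_zero.1 m2
  · have h1 := dg_neg_two c d hd ⟨fun h => absurd h hcs, fun h => absurd h hdl⟩
    have hφ := com_phi H X hc ha hg
    rw [fm_comm H, fm_D H hL c hcs] at hφ
    have h2 := (mul_eq_zero.1 hφ).resolve_left (neg_ne_zero.2 (two_ne H))
    rcases h1 with rfl | rfl
    · exact h2
    · rw [((mem_LF' _).1 hL).2]
      exact h2

theorem com_v2 (H : HypW C6 K) [Fact p.Prime] [CharP K p] (X : HB p F) {c a : Rt C6}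
    (hc : c ∈ SsF F) (ha : sg a = a) {g : LL C6 K ≃ₗ[K] LL C6 K} (hg : PtF F g a) {d : Rt C6}
    (hd : dg c d = 2 ∨ dg c d = -2) : (g (e K a)).2 d = 0 := by
  rcases hd with hd | hd
  · refine ComB_neg H X (SsF_ng H X hc) ha hg ?_
    rw [dg_ng_left, hd]
  · exact ComB_neg H X hc ha hg hd

end Pool.Agent.H31.F4
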