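import Pool.Agent.H31.F4.ComB

/-!
# FF-43: long points commute with good short root groups

`v = g (e a)`, `PtF F g a`; by `com_v2` `v = v_(-1) + v_0 + v_1` (degrees for `cv c`).  `xf c s v` is again of this form
(`PtF_mul`), so its degree 2 part vanishes: it is `s [D, v_0]` (`v_(-2) = 0`), so `[D, v_0] = 0`.
`t = hd (cv c) z`: `t v = z⁻¹ v_(-1) + v_0 + z v_1` is extremal for all units `z`.  Let `x` be arbitrary;
`[t v,[t v,x]] + 2 (fm (t v) x) (t v) = 0`; multiply by `z²`: a polynomial in `z` of degree `≤ 4` (with values in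
`LL`) with at least `|K| - 1 ≥ 6` zeros, so all coefficients vanish; the one of `z⁴` is
`[v_1,[v_1,x]] + 2 (fm v_1 x) v_1`, so `v_1` is extremal; of `z⁰`: `v_(-1)` is extremal.  `v_1 ∈ LF` has only short
coordinates (`dg c d = 1` is odd: `d` short by `dg_SL`), so `v_1 = 0` by `ext_short`, `v_(-1) = 0`.
So `v = v_0`, `[D, v] = 0`.
-/

namespace Pool.Agent.H31.F4

open Pool.Agent.H33.EL (ip cc eps Rt ng zk ek fk LL hh e brf fmf br fm IsExt exl ex xr hd L0 GG T1 TT NN SF cj wt)

variable {K : Type} [Field K]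

variable {p : ℕ} {F : Subgroup (LL C6 K ≃ₗ[K] LL C6 K)}

theorem ComC_scal (H : HypW C6 K) (q : Fin 5 → K)
    (h : ∀ z : Kˣ, ∑ i : Fin 5, (z : K) ^ (i : ℕ) * q i = 0) (i : Fin 5) : q i = 0 := by
  classical
  have hcard : 7 ≤ Nat.card K := by rcases H.card with h | h | h <;> omega
  have hf : Finite K := Nat.finite_of_card_ne_zero (by omega)
  have := Fintype.ofFinite K
  rw [Nat.card_eq_fintype_card] at hcard
  set P : Polynomial K := ∑ i : Fin 5, Polynomial.monomial (i : ℕ) (q i) with hP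
  have hdeg : P.natDegree ≤ 4 :=
    Polynomial.natDegree_sum_le_of_forall_le _ _ fun i _ =>
      (Polynomial.natDegree_monomial_le _).trans (by have := i.2; omega)
  have hP0 : P = 0 := by
    apply Polynomial.eq_zero_of_natDegree_lt_card_of_eval_eq_zero' P (Finset.univ.erase 0)
    · intro z hz
      have hz0 : z ≠ 0 := Finset.ne_of_mem_erase hz
      have h1 := h (Units.mk0 z hz0)
      rw [hP, Polynomial.eval_finset_sum, ← h1]
      refine Finset.sum_congr rfl fun i _ => ?_
      rw [Polynomial.eval_monomial, Units.val_mk0, mul_comm]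
    · rw [Finset.card_erase_of_mem (Finset.mem_univ _), Finset.card_univ]
      omega
  have h2 : P.coeff (i : ℕ) = 0 := by rw [hP0, Polynomial.coeff_zero]
  rw [hP, Polynomial.finsetSum_coeff, Finset.sum_eq_single i] at h2
  · rwa [Polynomial.coeff_monomial, if_pos rfl] at h2
  · intro j _ hj
    rw [Polynomial.coeff_monomial, if_neg fun h3 => hj (Fin.ext h3)]
  · intro h3
    exact absurd (Finset.mem_univ _) h3

theorem ComC_vec (H : HypW C6 K) (q : Fin 5 → LL C6 K)
    (h : ∀ z : Kˣ, ∑ i : Fin 5, ((z : K) ^ (i : ℕ)) • q i = 0) (i : Fin 5) : q i = 0 := by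
  refine Prod.ext (funext fun j => ?_) (funext fun a => ?_)
  · refine ComC_scal H (fun i => (q i).1 j) (fun z => ?_) i
    have h1 := congrFun (congrArg Prod.fst (h z)) j
    rw [Prod.fst_sum, Finset.sum_apply] at h1
    exact h1
  · refine ComC_scal H (fun i => (q i).2 a) (fun z => ?_) i
    have h1 := congrFun (congrArg Prod.snd (h z)) a
    rw [Prod.snd_sum, Finset.sum_apply] at h1
    exact h1

/-- an extremal vector remains extremal in its top degree part -/
theorem com_top (H : HypW C6 K) (c : Rt C6) {v0 v1 w1 : LL C6 K}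
    (h : ∀ z : Kˣ, IsExt ((((z⁻¹ : Kˣ) : K)) • w1 + v0 + (z : K) • v1)) :
    IsExt v1 ∧ IsExt w1 := by
  have key : ∀ x : LL C6 K, br v1 (br v1 x) + (2 * fm v1 x) • v1 = 0 ∧
      br w1 (br w1 x) + (2 * fm w1 x) • w1 = 0 := by
    intro x
    set q : Fin 5 → LL C6 K := ![br w1 (br w1 x) + (2 * fm w1 x) • w1,
      br w1 (br v0 x) + br v0 (br w1 x) + (2 * fm w1 x) • v0 + (2 * fm v0 x) • w1,
      br w1 (br v1 x) + br v0 (br v0 x) + br v1 (br w1 x) + (2 * fm w1 x) • v1 +
        (2 * fm v0 x) • v0 + (2 * fm v1 x) • w1,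
      br v0 (br v1 x) + br v1 (br v0 x) + (2 * fm v0 x) • v1 + (2 * fm v1 x) • v0,
      br v1 (br v1 x) + (2 * fm v1 x) • v1] with hq
    have h1 : ∀ z : Kˣ, ∑ i : Fin 5, ((z : K) ^ (i : ℕ)) • q i = 0 := by
      intro z
      have h2 : (z : K) • ((((z⁻¹ : Kˣ) : K)) • w1 + v0 + (z : K) • v1) =
          w1 + (z : K) • v0 + ((z : K) ^ 2) • v1 := by
        rw [smul_add, smul_add, smul_smul, smul_smul, Units.mul_inv, one_smul, pow_two]
      have h3 := IsExt_smul (h z) (z : K)
      rw [h2] at h3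
      have h4 := h3 x
      have h5 : ∑ i : Fin 5, ((z : K) ^ (i : ℕ)) • q i =
          br (w1 + (z : K) • v0 + ((z : K) ^ 2) • v1)
            (br (w1 + (z : K) • v0 + ((z : K) ^ 2) • v1) x) -
          (-2 * fm (w1 + (z : K) • v0 + ((z : K) ^ 2) • v1) x) •
            (w1 + (z : K) • v0 + ((z : K) ^ 2) • v1) := by
        rw [Fin.sum_univ_five]
        simp only [hq, Matrix.cons_val, Fin.isValue, Fin.coe_ofNat_eq_mod, map_add, map_smul,
          LinearMap.add_apply, LinearMap.smul_apply, smul_eq_mul]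
        norm_num only
        module
      rw [h5, h4, sub_self]
    refine ⟨?_, ?_⟩
    · have := ComC_vec H q h1 4
      simpa [hq] using this
    · have := ComC_vec H q h1 0
      simpa [hq] using this
  refine ⟨fun x => ?_, fun x => ?_⟩
  · rw [eq_neg_of_add_eq_zero_left (key x).1, ← neg_smul]
    congr 1
    ring
  · rw [eq_neg_of_add_eq_zero_left (key x).2, ← neg_smul]
    congr 1
    ring

theorem ComC_snd_zero {d : Fin 6 → ℤ} {k : ℤ} {x : LL C6 K} (hx : x ∈ Grd C6 K d k) {b : Rt C6}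
    (hb : ip C6 d b.1 ≠ k) : x.2 b = 0 := hx.1 b hb

theorem COM4 (H : HypW C6 K) [Fact p.Prime] [CharP K p] (X : HB p F) {c a : Rt C6}
    (hc : c ∈ SsF F) (ha : sg a = a) {g : LL C6 K ≃ₗ[K] LL C6 K} (hg : PtF F g a) :
    br (Df K c) (g (e K a)) = 0 := by
  have hcF : c ∈ SF4 F := hc.1
  have hcs : sg c ≠ c := hc.2.1
  have hv : IsExt (g (e K a)) := IsExt_map (isExt_e H a) (GF_le_GG hg.1)
  have hvL : g (e K a) ∈ LF K := (GF_LF hg.1 _).2 (by rw [← Df_long ha]; exact Df_mem a)
  have hv2 : ∀ d : Rt C6, dg c d = 2 ∨ dg c d = -2 → (g (e K a)).2 d = 0 :=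
    fun d hd => com_v2 H X hc ha hg hd
  have hD : Df K c ∈ Grd C6 K (cv c) 2 := Exp2_Df c c (dg_self c)
  set v := g (e K a) with hvdef
  set w1 := FilA_pr C6 K (cv c) (-1) v with hw1
  set v0 := FilA_pr C6 K (cv c) 0 v with hv0
  set v1 := FilA_pr C6 K (cv c) 1 v with hv1
  have gw1 : w1 ∈ Grd C6 K (cv c) (-1) := FilA_pr_mem _ _ _
  have gv0 : v0 ∈ Grd C6 K (cv c) 0 := FilA_pr_mem _ _ _
  have gv1 : v1 ∈ Grd C6 K (cv c) 1 := FilA_pr_mem _ _ _
  have hdec : v = w1 + v0 + v1 := by
    refine Prod.ext ?_ (funext fun b => ?_)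
    · show v.1 = (if (-1 : ℤ) = 0 then v.1 else 0) + (if (0 : ℤ) = 0 then v.1 else 0) +
        (if (1 : ℤ) = 0 then v.1 else 0)
      rw [if_neg (by norm_num), if_pos rfl, if_neg (by norm_num), zero_add, add_zero]
    · show v.2 b = (if ip C6 (cv c) b.1 = -1 then v.2 b else 0) +
        (if ip C6 (cv c) b.1 = 0 then v.2 b else 0) + (if ip C6 (cv c) b.1 = 1 then v.2 b else 0)
      have h1 : dg c b = ip C6 (cv c) b.1 := rfl
      rw [← h1]
      have h2 := dg_range c b
      have h3 : dg c b = -2 ∨ dg c b = -1 ∨ dg c b = 0 ∨ dg c b = 1 ∨ dg c b = 2 := by omega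
      rcases h3 with h3 | h3 | h3 | h3 | h3
      · rw [hv2 b (Or.inr h3)]
        simp
      · rw [h3]
        simp
      · rw [h3]
        simp
      · rw [h3]
        simp
      · rw [hv2 b (Or.inl h3)]
        simp
  -- the bracket with the part of degree 0
  have hD0 : br (Df K c) v0 = 0 := by
    have g1 : br (Df K c) v0 ∈ Grd C6 K (cv c) (2 + 0) := FilA_br_grd hD gv0
    refine Prod.ext (g1.2 (by norm_num)) (funext fun b => ?_)
    by_cases hb : dg c b = 2
    · have hP : PtF F (xf c 1 * g) a := PtF_mul X.hF (hcF 1) hg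
      have h1 := com_v2 H X hc ha hP (d := b) (Or.inl hb)
      rw [LinearEquiv.mul_apply, ← hvdef, xf_apply H] at h1
      have e1 : br (Df K c) v = br (Df K c) w1 + br (Df K c) v0 + br (Df K c) v1 := by
        rw [hdec, map_add, map_add]
      have hb' : ip C6 (cv c) b.1 = 2 := hb
      have g2 : (br (Df K c) w1).2 b = 0 :=
        ComC_snd_zero (FilA_br_grd hD gw1) (by rw [hb']; norm_num)
      have g3 : (br (Df K c) v1).2 b = 0 :=
        ComC_snd_zero (FilA_br_grd hD gv1) (by rw [hb']; norm_num)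
      have g4 : (br (Df K c) (br (Df K c) w1)).2 b = 0 :=
        ComC_snd_zero (FilA_br_grd hD (FilA_br_grd hD gw1)) (by rw [hb']; norm_num)
      have g5 : (br (Df K c) (br (Df K c) v0)).2 b = 0 :=
        ComC_snd_zero (FilA_br_grd hD (FilA_br_grd hD gv0)) (by rw [hb']; norm_num)
      have g6 : (br (Df K c) (br (Df K c) v1)).2 b = 0 :=
        ComC_snd_zero (FilA_br_grd hD (FilA_br_grd hD gv1)) (by rw [hb']; norm_num)
      rw [e1, map_add, map_add] at h1
      simp only [Prod.snd_add, Pi.add_apply, Prod.smul_snd, Pi.smul_apply, smul_eq_mul, g2, g3,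
        g4, g5, g6, hv2 b (Or.inl hb), mul_zero, add_zero, zero_add, one_mul] at h1
      exact h1
    · exact g1.1 b (by
        have h1 : dg c b = ip C6 (cv c) b.1 := rfl
        rw [← h1]
        omega)
  have htop := com_top H c (v0 := v0) (v1 := v1) (w1 := w1) fun z => by
    have h1 := IsExt_map hv (hd_mem_GG H (cv c) z)
    rw [hdec, map_add, map_add, Fil_hd_grd gw1, Fil_hd_grd gv0, Fil_hd_grd gv1, zpow_neg_one,
      zpow_zero, zpow_one, Units.val_one, one_smul] at h1
    exact h1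
  have hLF : ∀ k : ℤ, k ≠ 0 → FilA_pr C6 K (cv c) k v ∈ LF K := by
    intro k hk
    rw [mem_LF']
    refine ⟨?_, fun b => ?_⟩
    · show sv (if k = 0 then v.1 else 0) = if k = 0 then v.1 else 0
      rw [if_neg hk]
      rfl
    · show (if ip C6 (cv c) (sg b).1 = k then v.2 (sg b) else 0) =
        if ip C6 (cv c) b.1 = k then v.2 b else 0
      have h1 : ip C6 (cv c) (sg b).1 = ip C6 (cv c) b.1 := dg_sg_right c b
      rw [h1, ((mem_LF' v).1 hvL).2 b]
  have hlong : ∀ k : ℤ, Odd k → ∀ d : Rt C6, sg d = d → (FilA_pr C6 K (cv c) k v).2 d = 0 := by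
    intro k hk d hd
    show (if ip C6 (cv c) d.1 = k then v.2 d else 0) = 0
    rw [if_neg]
    intro h1
    have h2 : dg c d = 2 * dg d c := dg_SL c d hcs hd
    have h3 : dg c d = ip C6 (cv c) d.1 := rfl
    rw [h3, h1] at h2
    obtain ⟨m, hm⟩ := hk
    omega
  have z1 : v1 = 0 := ext_short H htop.1 (hLF 1 (by norm_num)) (hlong 1 (by decide))
  have z2 : w1 = 0 := ext_short H htop.2 (hLF (-1) (by norm_num)) (hlong (-1) (by decide))
  rw [hdec, z1, z2, zero_add, add_zero]
  exact hD0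

end Pool.Agent.H31.F4
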