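import Pool.Agent.H31.F4.Enum

/-!
# FF-02: combinatorics of the folding E_6 → F_4

`cb_self`, `cb_SS`, `cb_SL`: kernel computation on the list `P6` (all pairs; use the signs).
(For a short `a`: `ip a (sg a) = 0`.  `dg a b = ip a b + ip (sg a) b` for short `a`, `= ip a b` for
long `a`.)  The rest follows by short case distinctions from these, `ip_cases` and bilinearity.
* `dg_sg_left`, `dg_sg_right`: `cv (sg a) = cv a`, `sv (cv a) = cv a`, `ip_sv`.
* `sm_dg`: `2 dg d c = ip (cv d) (c + sg c)`.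
* `sm_of_neg`: `a`, `b` with `dg a b < 0`, not opposite.  Both short: `dg a b = -1` and by `cb_SS`
  after replacing `b` by `sg b`: `ip a b = -1`, `ip a (sg b) = 0`; `c = a + b` is a root
  (`root_add`), short: `ip c (sg c) = ip a (sg a) + 2 ip a (sg b) + ip b (sg b) = 0`.
  One long: `ip a b = -1` (and `ip a (sg b) = -1`): `c = a + b`; `sg c = c` only if both
  long.  `dg b a ≤ 0` also.
* `sm_of_orth`: short orthogonal: after replacing `b` by `sg b`: `ip a b = -1`, `ip a (sg b) = 1`,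
  `c = a + b`: `ip c (sg c) = 0 + 2·1 + 0 = 2`, so `sg c = c` (`eq_of_ip_two`), long.
* `sm_len`, `sm_cases`: if `Sm a b c`, norms `N(c) = N(a) + N(b) + (a,b)`: with
  `ip (a + sg a) (a + sg a) = 8` (long) or `4` (short) and
  `ip (a + sg a) (b + sg b) = 2 dg a b · (2 or 1)`; so the possible cases are exactly the ones listed.
* `Eq4` follows if `a + sg a = b + sg b`: norms and `ip a b + ip a (sg b) = 2` resp. 4.
-/

namespace Pool.Agent.H31.F4

open Pool.Agent.H33.EL (ip cc eps Rt ng zk ek fk LL hh e brf fmf br fm IsExt exl ex xr hd L0 GG T1 TT NN SF cj wt)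

/-! ### auxiliary facts -/

instance Comb_fact7 : Fact (Nat.Prime 7) := ⟨by norm_num⟩

theorem Comb_H : HypW C6 (ZMod 7) := hypW6 (ZMod 7) (Or.inl (by rw [Nat.card_zmod]))

/-- explicit form of the inner product -/
def Comb_dot (x y : Fin 6 → ℤ) : ℤ :=
  2 * (x 0 * y 0 + x 1 * y 1 + x 2 * y 2 + x 3 * y 3 + x 4 * y 4 + x 5 * y 5) -
    (x 0 * y 1 + x 1 * y 0 + x 0 * y 2 + x 2 * y 0 + x 0 * y 3 + x 3 * y 0 +
      x 2 * y 4 + x 4 * y 2 + x 3 * y 5 + x 5 * y 3)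

theorem Comb_ip (x y : Fin 6 → ℤ) : ip C6 x y = Comb_dot x y := by
  simp only [ip, Fin.sum_univ_six, Comb_dot, C6, Matrix.of_apply, Matrix.cons_val]
  ring

/-- explicit form of the twisted inner product -/
def Comb_dots (x y : Fin 6 → ℤ) : ℤ :=
  2 * (x 0 * y 0 + x 1 * y 1 + x 2 * y 3 + x 3 * y 2 + x 4 * y 5 + x 5 * y 4) -
    (x 0 * y 1 + x 1 * y 0 + x 0 * y 3 + x 2 * y 0 + x 0 * y 2 + x 3 * y 0 +
      x 2 * y 5 + x 4 * y 3 + x 3 * y 4 + x 5 * y 2)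

theorem Comb_ips (x y : Fin 6 → ℤ) : ip C6 x (sv y) = Comb_dots x y := by
  rw [Comb_ip]
  rfl

/-- not fixed by the graph automorphism -/
def Comb_sh (x : Fin 6 → ℤ) : Bool := !(x 2 == x 3 && x 4 == x 5)

theorem Comb_sh_of {a : Rt C6} (h : sg a ≠ a) : Comb_sh a.1 = true := by
  by_contra hc
  apply h
  simp only [Comb_sh, Bool.not_eq_true', Bool.and_eq_true, beq_iff_eq,
    Bool.not_eq_false] at hc
  apply Subtype.ext
  funext i
  obtain ⟨h1, h2⟩ := hc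
  fin_cases i
  · rfl
  · rfl
  · exact h1.symm
  · exact h1
  · exact h2.symm
  · exact h2

/-- the possible pairs of products of short roots -/
def Comb_Q (p q : ℤ) : Prop :=
  (p = 2 ∧ q = 0) ∨ (p = 0 ∧ q = 2) ∨ (p = -2 ∧ q = 0) ∨ (p = 0 ∧ q = -2) ∨ (p = 1 ∧ q = 0) ∨
    (p = 0 ∧ q = 1) ∨ (p = -1 ∧ q = 0) ∨ (p = 0 ∧ q = -1) ∨ (p = 1 ∧ q = -1) ∨ (p = -1 ∧ q = 1)

instance (p q : ℤ) : Decidable (Comb_Q p q) := by
  unfold Comb_Q
  infer_instance

theorem Comb_Q_neg {p q : ℤ} (h : Comb_Q (-p) (-q)) : Comb_Q p q := by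
  unfold Comb_Q at *
  rcases h with ⟨h1, h2⟩ | ⟨h1, h2⟩ | ⟨h1, h2⟩ | ⟨h1, h2⟩ | ⟨h1, h2⟩ | ⟨h1, h2⟩ | ⟨h1, h2⟩ |
    ⟨h1, h2⟩ | ⟨h1, h2⟩ | ⟨h1, h2⟩
  · exact Or.inr (Or.inr (Or.inl ⟨by omega, by omega⟩))
  · exact Or.inr (Or.inr (Or.inr (Or.inl ⟨by omega, by omega⟩)))
  · exact Or.inl ⟨by omega, by omega⟩
  · exact Or.inr (Or.inl ⟨by omega, by omega⟩)
  · exact Or.inr (Or.inr (Or.inr (Or.inr (Or.inr (Or.inr (Or.inl ⟨by omega, by omega⟩))))))
  · exact Or.inr (Or.inr (Or.inr (Or.inr (Or.inr (Or.inr (Or.inr (Or.inl ⟨by omega, by omega⟩)))))))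
  · exact Or.inr (Or.inr (Or.inr (Or.inr (Or.inl ⟨by omega, by omega⟩))))
  · exact Or.inr (Or.inr (Or.inr (Or.inr (Or.inr (Or.inl ⟨by omega, by omega⟩)))))
  · exact
      Or.inr (Or.inr (Or.inr (Or.inr (Or.inr (Or.inr (Or.inr (Or.inr (Or.inr (⟨by omega, by omega⟩)))))))))
  · exact
      Or.inr (Or.inr (Or.inr (Or.inr (Or.inr (Or.inr (Or.inr (Or.inr (Or.inl ⟨by omega, by omega⟩))))))))

theorem Comb_chk1 : (P6.all fun x => !(Comb_sh x) || Comb_dots x x == 0) = true := by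
  decide +kernel

theorem Comb_chk2 : (P6.all fun x => P6.all fun y =>
    !(Comb_sh x) || !(Comb_sh y) || decide (Comb_Q (Comb_dot x y) (Comb_dots x y))) = true := by
  decide +kernel

theorem Comb_sg_val (a : Rt C6) : (sg a).1 = sv a.1 := rfl

theorem Comb_sv_neg (x : Fin 6 → ℤ) : sv (-x) = -sv x := rfl

theorem Comb_sv_add (x y : Fin 6 → ℤ) : sv (x + y) = sv x + sv y := rfl

theorem Comb_comm (x y : Fin 6 → ℤ) : ip C6 x y = ip C6 y x := ip_comm Comb_H.symm x y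

theorem Comb_sv_left (x y : Fin 6 → ℤ) : ip C6 (sv x) y = ip C6 x (sv y) := by
  rw [← ip_sv x (sv y), sv_sv]

theorem sg_ng (a : Rt C6) : sg (ng a) = ng (sg a) := rfl
theorem sg_ne_iff (a : Rt C6) : sg (sg a) ≠ sg a ↔ sg a ≠ a := by
  rw [sg_sg]
  exact ne_comm
theorem sg_ng_iff (a : Rt C6) : sg (ng a) = ng a ↔ sg a = a := by
  rw [sg_ng]
  constructor
  · intro h
    rw [← ng_ng (sg a), h, ng_ng]
  · intro h
    rw [h]

theorem Comb_self1 (a : Rt C6) (h : sg a ≠ a) (hm : a.1 ∈ P6) : ip C6 a.1 (sg a).1 = 0 := by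
  have h1 := List.all_eq_true.1 Comb_chk1 a.1 hm
  rw [Comb_sh_of h] at h1
  rw [Comb_sg_val, Comb_ips]
  simpa using h1

theorem cb_self (a : Rt C6) (h : sg a ≠ a) : ip C6 a.1 (sg a).1 = 0 := by
  rcases P6_complete a with h1 | h1
  · exact Comb_self1 a h h1
  · have h2 := Comb_self1 (ng a) (fun hc => h ((sg_ng_iff a).1 hc)) h1
    rw [sg_ng, ng_val, ng_val, ip_neg_left, ip_neg_right, neg_neg] at h2
    exact h2

theorem Comb_SS1 (a b : Rt C6) (ha : sg a ≠ a) (hb : sg b ≠ b) (h1 : a.1 ∈ P6) (h2 : b.1 ∈ P6) :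
    Comb_Q (ip C6 a.1 b.1) (ip C6 a.1 (sg b).1) := by
  have h3 := List.all_eq_true.1 (List.all_eq_true.1 Comb_chk2 a.1 h1) b.1 h2
  rw [Comb_sh_of ha, Comb_sh_of hb] at h3
  rw [Comb_sg_val, Comb_ips, Comb_ip]
  simpa using h3

theorem Comb_SS2 (a b : Rt C6) (ha : sg a ≠ a) (hb : sg b ≠ b) :
    Comb_Q (ip C6 a.1 b.1) (ip C6 a.1 (sg b).1) := by
  have ha' : sg (ng a) ≠ ng a := fun hc => ha ((sg_ng_iff a).1 hc)
  have hb' : sg (ng b) ≠ ng b := fun hc => hb ((sg_ng_iff b).1 hc)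
  rcases P6_complete a with h1 | h1 <;> rcases P6_complete b with h2 | h2
  · exact Comb_SS1 a b ha hb h1 h2
  · have h3 := Comb_SS1 a (ng b) ha hb' h1 h2
    rw [sg_ng, ng_val, ng_val, ip_neg_right, ip_neg_right] at h3
    exact Comb_Q_neg h3
  · have h3 := Comb_SS1 (ng a) b ha' hb h1 h2
    rw [ng_val, ip_neg_left, ip_neg_left] at h3
    exact Comb_Q_neg h3
  · have h3 := Comb_SS1 (ng a) (ng b) ha' hb' h1 h2
    rw [sg_ng, ng_val, ng_val, ng_val, ip_neg_left, ip_neg_right, ip_neg_left, ip_neg_right,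
      neg_neg, neg_neg] at h3
    exact h3

theorem cb_SS (a b : Rt C6) (ha : sg a ≠ a) (hb : sg b ≠ b) :
    (b = a ∧ ip C6 a.1 b.1 = 2 ∧ ip C6 a.1 (sg b).1 = 0) ∨
    (b = sg a ∧ ip C6 a.1 b.1 = 0 ∧ ip C6 a.1 (sg b).1 = 2) ∨
    (b = ng a ∧ ip C6 a.1 b.1 = -2 ∧ ip C6 a.1 (sg b).1 = 0) ∨
    (b = sg (ng a) ∧ ip C6 a.1 b.1 = 0 ∧ ip C6 a.1 (sg b).1 = -2) ∨
    (ip C6 a.1 b.1 = 1 ∧ ip C6 a.1 (sg b).1 = 0) ∨ (ip C6 a.1 b.1 = 0 ∧ ip C6 a.1 (sg b).1 = 1) ∨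
    (ip C6 a.1 b.1 = -1 ∧ ip C6 a.1 (sg b).1 = 0) ∨ (ip C6 a.1 b.1 = 0 ∧ ip C6 a.1 (sg b).1 = -1) ∨
    (ip C6 a.1 b.1 = 1 ∧ ip C6 a.1 (sg b).1 = -1) ∨ (ip C6 a.1 b.1 = -1 ∧ ip C6 a.1 (sg b).1 = 1) := by
  rcases Comb_SS2 a b ha hb with h | h | h | h | h | h | h | h | h | h
  · exact Or.inl ⟨(eq_of_ip_two Comb_H h.1).symm, h⟩
  · refine Or.inr (Or.inl ⟨?_, h⟩)
    rw [eq_of_ip_two Comb_H h.2, sg_sg]
  · exact Or.inr (Or.inr (Or.inl ⟨eq_ng_of_ip Comb_H h.1, h⟩))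
  · refine Or.inr (Or.inr (Or.inr (Or.inl ⟨?_, h⟩)))
    rw [← eq_ng_of_ip Comb_H h.2, sg_sg]
  · exact Or.inr (Or.inr (Or.inr (Or.inr (Or.inl h))))
  · exact Or.inr (Or.inr (Or.inr (Or.inr (Or.inr (Or.inl h)))))
  · exact Or.inr (Or.inr (Or.inr (Or.inr (Or.inr (Or.inr (Or.inl h))))))
  · exact Or.inr (Or.inr (Or.inr (Or.inr (Or.inr (Or.inr (Or.inr (Or.inl h)))))))
  · exact Or.inr (Or.inr (Or.inr (Or.inr (Or.inr (Or.inr (Or.inr (Or.inr (Or.inl h))))))))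
  · exact Or.inr (Or.inr (Or.inr (Or.inr (Or.inr (Or.inr (Or.inr (Or.inr (Or.inr h))))))))

theorem Comb_sg_left (a b : Rt C6) : ip C6 (sg a).1 b.1 = ip C6 a.1 (sg b).1 :=
  Comb_sv_left a.1 b.1

theorem Comb_L (a b : Rt C6) (ha : sg a = a) : ip C6 a.1 (sg b).1 = ip C6 a.1 b.1 := by
  rw [← Comb_sg_left, ha]

theorem Comb_R (a b : Rt C6) (hb : sg b = b) : ip C6 a.1 (sg b).1 = ip C6 a.1 b.1 := by
  rw [hb]

theorem cb_LS (a b : Rt C6) (ha : sg a = a) (hb : sg b ≠ b) :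
    (ip C6 a.1 b.1 = -1 ∨ ip C6 a.1 b.1 = 0 ∨ ip C6 a.1 b.1 = 1) ∧
    ip C6 a.1 (sg b).1 = ip C6 a.1 b.1 := by
  refine ⟨?_, Comb_L a b ha⟩
  rcases ip_cases Comb_H a b with h | h | h | h | h
  · exact absurd (by rw [h, sg_ng, ha]) hb
  · exact Or.inl h
  · exact Or.inr (Or.inl h)
  · exact Or.inr (Or.inr h)
  · exact absurd (by rw [h, ha]) hb

theorem cv_sg (a : Rt C6) : cv (sg a) = cv a := by
  by_cases h : sg a = a
  · rw [h]
  · have h' : ¬ sg (sg a) = sg a := (sg_ne_iff a).2 h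
    unfold cv
    rw [if_neg h, if_neg h', sg_sg, add_comm]
theorem sv_cv (a : Rt C6) : sv (cv a) = cv a := by
  by_cases h : sg a = a
  · unfold cv
    rw [if_pos h]
    exact congrArg Subtype.val h
  · unfold cv
    rw [if_neg h, Comb_sv_add, ← Comb_sg_val, ← Comb_sg_val, sg_sg, add_comm]
theorem cv_ng (a : Rt C6) : cv (ng a) = -cv a := by
  by_cases h : sg a = a
  · have h' : sg (ng a) = ng a := (sg_ng_iff a).2 h
    unfold cv
    rw [if_pos h, if_pos h', ng_val]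
  · have h' : ¬ sg (ng a) = ng a := fun hc => h ((sg_ng_iff a).1 hc)
    unfold cv
    rw [if_neg h, if_neg h', sg_ng, ng_val, ng_val, neg_add]
theorem dg_sg_left (a b : Rt C6) : dg (sg a) b = dg a b := by
  unfold dg
  rw [cv_sg]
theorem dg_sg_right (a b : Rt C6) : dg a (sg b) = dg a b := by
  unfold dg
  rw [Comb_sg_val, ← Comb_sv_left, sv_cv]
theorem dg_ng_left (a b : Rt C6) : dg (ng a) b = -dg a b := by
  unfold dg
  rw [cv_ng, ip_neg_left]
theorem dg_ng_right (a b : Rt C6) : dg a (ng b) = -dg a b := by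
  unfold dg
  rw [ng_val, ip_neg_right]
theorem dg_long (a b : Rt C6) (ha : sg a = a) : dg a b = ip C6 a.1 b.1 := by
  unfold dg cv
  rw [if_pos ha]
theorem dg_short (a b : Rt C6) (ha : sg a ≠ a) :
    dg a b = ip C6 a.1 b.1 + ip C6 a.1 (sg b).1 := by
  unfold dg cv
  rw [if_neg ha, ip_add_left, Comb_sg_left]
theorem dg_self (a : Rt C6) : dg a a = 2 := by
  have h2 : ip C6 a.1 a.1 = 2 := a.2
  by_cases h : sg a = a
  · rw [dg_long a a h, h2]
  · rw [dg_short a a h, h2, cb_self a h]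
    rfl
theorem dg_range (a b : Rt C6) : -2 ≤ dg a b ∧ dg a b ≤ 2 := by
  by_cases ha : sg a = a
  · rw [dg_long a b ha]
    exact ⟨neg_two_le_ip Comb_H a b, ip_le_two Comb_H a b⟩
  · rw [dg_short a b ha]
    by_cases hb : sg b = b
    · have h1 := (cb_LS b a hb ha).1
      rw [Comb_comm] at h1
      rw [Comb_R a b hb]
      omega
    · have h1 := Comb_SS2 a b ha hb
      unfold Comb_Q at h1
      omega
theorem Comb_symm_s (a b : Rt C6) : ip C6 a.1 (sg b).1 = ip C6 b.1 (sg a).1 := by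
  rw [← Comb_sg_left, Comb_comm]
/-- relation between `dg a b` and `dg b a` -/
theorem dg_symm (a b : Rt C6) : (sg a = a ↔ sg b = b) → dg a b = dg b a := by
  intro h
  by_cases ha : sg a = a
  · rw [dg_long a b ha, dg_long b a (h.1 ha), Comb_comm]
  · rw [dg_short a b ha, dg_short b a (fun hc => ha (h.2 hc)), Comb_symm_s a b,
      Comb_comm a.1 b.1]
theorem dg_SL (a b : Rt C6) (ha : sg a ≠ a) (hb : sg b = b) : dg a b = 2 * dg b a := by
  rw [dg_short a b ha, dg_long b a hb, Comb_R a b hb, Comb_comm a.1 b.1]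
  ring
theorem dg_two (a b : Rt C6) (h : dg a b = 2) (hl : sg a = a ↔ sg b = b) : Eq4 a b := by
  by_cases ha : sg a = a
  · rw [dg_long a b ha] at h
    exact Or.inl (eq_of_ip_two Comb_H h).symm
  · rw [dg_short a b ha] at h
    rcases cb_SS a b ha (fun hc => ha (hl.2 hc)) with h1 | h1 | h1 | h1 | h1 | h1 | h1 | h1 | h1 | h1
    · exact Or.inl h1.1
    · exact Or.inr h1.1
    all_goals
      exfalso
      omega
theorem dg_neg_two (a b : Rt C6) (h : dg a b = -2) (hl : sg a = a ↔ sg b = b) : Eq4 (ng a) b := by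
  refine dg_two (ng a) b ?_ ?_
  · rw [dg_ng_left, h]
    rfl
  · rw [sg_ng_iff]
    exact hl
theorem Eq4_symm {a b : Rt C6} (h : Eq4 a b) : Eq4 b a := by
  rcases h with h | h
  · exact Or.inl h.symm
  · refine Or.inr ?_
    rw [h, sg_sg]
theorem Eq4_len {a b : Rt C6} (h : Eq4 a b) : sg a = a ↔ sg b = b := by
  rcases h with h | h
  · rw [h]
  · rw [h, sg_sg]
    exact eq_comm

theorem Comb_dd (a b : Rt C6) : ip C6 (a.1 + (sg a).1) (b.1 + (sg b).1) =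
    2 * (ip C6 a.1 b.1 + ip C6 a.1 (sg b).1) := by
  have h1 : ip C6 (sg a).1 (sg b).1 = ip C6 a.1 b.1 := ip_sv a.1 b.1
  rw [ip_add_left, ip_add_right, ip_add_right, Comb_sg_left a b, h1]
  ring

theorem Comb_NL (a : Rt C6) (h : sg a = a) : ip C6 (a.1 + (sg a).1) (a.1 + (sg a).1) = 8 := by
  have h2 : ip C6 a.1 a.1 = 2 := a.2
  rw [Comb_dd, h, h2]
  rfl

theorem Comb_NS (a : Rt C6) (h : sg a ≠ a) : ip C6 (a.1 + (sg a).1) (a.1 + (sg a).1) = 4 := by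
  have h2 : ip C6 a.1 a.1 = 2 := a.2
  rw [Comb_dd, cb_self a h, h2]
  rfl

theorem Eq4_iff (a b : Rt C6) : Eq4 a b ↔ a.1 + (sg a).1 = b.1 + (sg b).1 := by
  constructor
  · intro h
    rcases h with h | h
    · rw [h]
    · rw [h, sg_sg, add_comm]
  · intro h
    have h1 := Comb_dd a b
    by_cases ha : sg a = a
    · by_cases hb : sg b = b
      · rw [← h, Comb_NL a ha, Comb_L a b ha] at h1
        exact Or.inl (eq_of_ip_two Comb_H (by omega)).symm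
      · exfalso
        have h2 := Comb_NL a ha
        rw [h, Comb_NS b hb] at h2
        omega
    · by_cases hb : sg b = b
      · exfalso
        have h2 := Comb_NS a ha
        rw [h, Comb_NL b hb] at h2
        omega
      · rw [← h, Comb_NS a ha] at h1
        refine dg_two a b ?_ ⟨fun hc => absurd hc ha, fun hc => absurd hc hb⟩
        rw [dg_short a b ha]
        omega

theorem Sm_symm {a b c : Rt C6} (h : Sm a b c) : Sm b a c := by
  unfold Sm at *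
  rw [h, add_comm]
theorem Sm_sub {a b c : Rt C6} (h : Sm a b c) : Sm (ng a) c b := by
  unfold Sm at *
  rw [h, sg_ng, ng_val, ng_val]
  abel
theorem Sm_ng {a b c : Rt C6} (h : Sm a b c) : Sm (ng a) (ng b) (ng c) := by
  unfold Sm at *
  rw [sg_ng, sg_ng, sg_ng, ng_val, ng_val, ng_val, ng_val, ng_val, ng_val, ← neg_add, h]
  abel
theorem Sm_sg {a b c a' b' c' : Rt C6} (h : Sm a b c) (ha : Eq4 a a') (hb : Eq4 b b')
    (hc : Eq4 c c') : Sm a' b' c' := by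
  unfold Sm at *
  rw [← (Eq4_iff a a').1 ha, ← (Eq4_iff b b').1 hb, ← (Eq4_iff c c').1 hc, h]
theorem sm_ip {a b c : Rt C6} (h : Sm a b c) {d : Fin 6 → ℤ} (hd : sv d = d) :
    ip C6 d c.1 = ip C6 d a.1 + ip C6 d b.1 := by
  have h1 : ∀ x : Rt C6, ip C6 d (x.1 + (sg x).1) = 2 * ip C6 d x.1 := by
    intro x
    rw [ip_add_right, Comb_sg_val, ← Comb_sv_left, hd]
    ring
  have h2 := h1 c
  unfold Sm at h
  rw [h, ip_add_right, h1 a, h1 b] at h2
  omega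
theorem sm_dg {a b c : Rt C6} (h : Sm a b c) (d : Rt C6) : dg d c = dg d a + dg d b :=
  sm_ip h (sv_cv d)
theorem sm_fun {a b c : Rt C6} (h : Sm a b c) (l : (Fin 6 → ℤ) →+ ℤ) (hl : ∀ x, l (sv x) = l x) :
    l c.1 = l a.1 + l b.1 := by
  have h1 : ∀ x : Rt C6, l (x.1 + (sg x).1) = 2 * l x.1 := by
    intro x
    rw [map_add, Comb_sg_val, hl]
    ring
  have h2 := h1 c
  unfold Sm at h
  rw [h, map_add, h1 a, h1 b] at h2
  omega

theorem Comb_mk (a b : Rt C6) (h : ip C6 a.1 b.1 = -1) :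
    ∃ c : Rt C6, c.1 = a.1 + b.1 ∧ Sm a b c ∧
      ip C6 c.1 (sg c).1 = ip C6 a.1 (sg a).1 + 2 * ip C6 a.1 (sg b).1 + ip C6 b.1 (sg b).1 := by
  refine ⟨⟨a.1 + b.1, root_add Comb_H h⟩, rfl, ?_, ?_⟩
  · show (a.1 + b.1) + (sv a.1 + sv b.1) = (a.1 + sv a.1) + (b.1 + sv b.1)
    abel
  · show ip C6 (a.1 + b.1) ((sg a).1 + (sg b).1) = _
    rw [ip_add_left, ip_add_right, ip_add_right, Comb_symm_s b a]
    ring

theorem Comb_ne_of {c : Rt C6} (h : ip C6 c.1 (sg c).1 = 0) : sg c ≠ c := by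
  intro hc
  have h2 : ip C6 c.1 c.1 = 2 := c.2
  rw [hc] at h
  omega

theorem Comb_eq_of {c : Rt C6} (h : ip C6 c.1 (sg c).1 = 2) : sg c = c :=
  (eq_of_ip_two Comb_H h).symm

theorem Comb_Sm_sg {a b c : Rt C6} (h : Sm a (sg b) c) : Sm a b c :=
  Sm_sg h (Or.inl rfl) (Or.inr (sg_sg b).symm) (Or.inl rfl)

theorem sm_of_neg (a b : Rt C6) (h : dg a b < 0) (h' : ¬ Eq4 (ng a) b) :
    ∃ c : Rt C6, Sm a b c ∧ (sg c = c ↔ (sg a = a ∧ sg b = b)) ∧
      ((c.1 = a.1 + b.1) ∨ (c.1 = a.1 + (sg b).1)) := by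
  by_cases ha : sg a = a
  · rw [dg_long a b ha] at h
    by_cases hb : sg b = b
    · have h1 : ip C6 a.1 b.1 = -1 := by
        have h2 := neg_two_le_ip Comb_H a b
        rcases (by omega : ip C6 a.1 b.1 = -2 ∨ ip C6 a.1 b.1 = -1) with h3 | h3
        · exact absurd (Or.inl (eq_ng_of_ip Comb_H h3)) h'
        · exact h3
      obtain ⟨c, hc, hs, hn⟩ := Comb_mk a b h1
      refine ⟨c, hs, ⟨fun _ => ⟨ha, hb⟩, fun _ => ?_⟩, Or.inl hc⟩
      apply Subtype.ext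
      rw [Comb_sg_val, hc, Comb_sv_add, ← Comb_sg_val, ← Comb_sg_val, ha, hb]
    · have h0 := (cb_LS a b ha hb).1
      have h1 : ip C6 a.1 b.1 = -1 := by omega
      obtain ⟨c, hc, hs, hn⟩ := Comb_mk a b h1
      refine ⟨c, hs, ⟨fun h2 => ?_, fun h2 => absurd h2.2 hb⟩, Or.inl hc⟩
      exfalso
      apply hb
      have h3 : (sg c).1 = c.1 := congrArg Subtype.val h2
      rw [Comb_sg_val, hc, Comb_sv_add, ← Comb_sg_val, ← Comb_sg_val, ha] at h3
      exact Subtype.ext (add_left_cancel h3)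
  · rw [dg_short a b ha] at h
    by_cases hb : sg b = b
    · have h0 := (cb_LS b a hb ha).1
      rw [Comb_comm] at h0
      rw [Comb_R a b hb] at h
      have h1 : ip C6 a.1 b.1 = -1 := by omega
      obtain ⟨c, hc, hs, hn⟩ := Comb_mk a b h1
      refine ⟨c, hs, ⟨fun h2 => ?_, fun h2 => absurd h2.1 ha⟩, Or.inl hc⟩
      exfalso
      apply ha
      have h3 : (sg c).1 = c.1 := congrArg Subtype.val h2
      rw [Comb_sg_val, hc, Comb_sv_add, ← Comb_sg_val, ← Comb_sg_val, hb] at h3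
      exact Subtype.ext (add_right_cancel h3)
    · have key : ∀ b : Rt C6, sg b ≠ b → ip C6 a.1 b.1 = -1 → ip C6 a.1 (sg b).1 = 0 →
          ∃ c : Rt C6, Sm a b c ∧ (sg c = c ↔ (sg a = a ∧ sg b = b)) ∧ c.1 = a.1 + b.1 := by
        intro b hb h1 h2
        obtain ⟨c, hc, hs, hn⟩ := Comb_mk a b h1
        rw [cb_self a ha, cb_self b hb, h2] at hn
        exact ⟨c, hs, ⟨fun h3 => absurd h3 (Comb_ne_of hn), fun h3 => absurd h3.1 ha⟩, hc⟩
      rcases cb_SS a b ha hb with h1 | h1 | h1 | h1 | h1 | h1 | h1 | h1 | h1 | h1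
      · exfalso; omega
      · exfalso; omega
      · exact absurd (Or.inl h1.1) h'
      · exact absurd (Or.inr h1.1) h'
      · exfalso; omega
      · exfalso; omega
      · obtain ⟨c, h2, h3, h4⟩ := key b hb h1.1 h1.2
        exact ⟨c, h2, h3, Or.inl h4⟩
      · obtain ⟨c, h2, h3, h4⟩ := key (sg b) ((sg_ne_iff b).2 hb) h1.2 (by rw [sg_sg]; exact h1.1)
        refine ⟨c, Comb_Sm_sg h2, ?_, Or.inr h4⟩
        rw [h3, sg_sg, eq_comm (a := b)]
      · exfalso; omega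
      · exfalso; omega
theorem sm_of_orth (a b : Rt C6) (ha : sg a ≠ a) (hb : sg b ≠ b) (h : dg a b = 0) :
    ∃ c : Rt C6, Sm a b c ∧ sg c = c ∧ ((c.1 = a.1 + b.1) ∨ (c.1 = a.1 + (sg b).1)) := by
  rw [dg_short a b ha] at h
  have key : ∀ b : Rt C6, sg b ≠ b → ip C6 a.1 b.1 = -1 → ip C6 a.1 (sg b).1 = 1 →
      ∃ c : Rt C6, Sm a b c ∧ sg c = c ∧ c.1 = a.1 + b.1 := by
    intro b hb h1 h2
    obtain ⟨c, hc, hs, hn⟩ := Comb_mk a b h1
    rw [cb_self a ha, cb_self b hb, h2] at hn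
    exact ⟨c, hs, Comb_eq_of hn, hc⟩
  rcases cb_SS a b ha hb with h1 | h1 | h1 | h1 | h1 | h1 | h1 | h1 | h1 | h1
  · exfalso; omega
  · exfalso; omega
  · exfalso; omega
  · exfalso; omega
  · exfalso; omega
  · exfalso; omega
  · exfalso; omega
  · exfalso; omega
  · obtain ⟨c, h2, h3, h4⟩ := key (sg b) ((sg_ne_iff b).2 hb) h1.2 (by rw [sg_sg]; exact h1.1)
    exact ⟨c, Comb_Sm_sg h2, h3, Or.inr h4⟩
  · obtain ⟨c, h2, h3, h4⟩ := key b hb h1.1 h1.2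
    exact ⟨c, h2, h3, Or.inl h4⟩
/-- the possible types of a sum -/
theorem sm_cases {a b c : Rt C6} (h : Sm a b c) :
    (sg a = a ∧ sg b = b ∧ sg c = c ∧ dg a b = -1) ∨
    (sg a ≠ a ∧ sg b ≠ b ∧ sg c ≠ c ∧ dg a b = -1) ∨
    (sg a ≠ a ∧ sg b ≠ b ∧ sg c = c ∧ dg a b = 0) ∨
    (sg a = a ∧ sg b ≠ b ∧ sg c ≠ c ∧ dg a b = -1 ∧ dg b a = -2) ∨
    (sg a ≠ a ∧ sg b = b ∧ sg c ≠ c ∧ dg a b = -2 ∧ dg b a = -1) := by
  have h0 : ip C6 (c.1 + (sg c).1) (c.1 + (sg c).1) =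
      ip C6 (a.1 + (sg a).1) (a.1 + (sg a).1) + ip C6 (b.1 + (sg b).1) (b.1 + (sg b).1) +
        4 * (ip C6 a.1 b.1 + ip C6 a.1 (sg b).1) := by
    unfold Sm at h
    have h1 := Comb_dd a b
    rw [h, ip_add_left (a.1 + (sg a).1), ip_add_right _ (a.1 + (sg a).1),
      ip_add_right _ (a.1 + (sg a).1), Comb_comm (b.1 + (sg b).1) (a.1 + (sg a).1), h1]
    ring
  have hc : (sg c = c ∧ ip C6 (c.1 + (sg c).1) (c.1 + (sg c).1) = 8) ∨
      (sg c ≠ c ∧ ip C6 (c.1 + (sg c).1) (c.1 + (sg c).1) = 4) := by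
    by_cases hc : sg c = c
    · exact Or.inl ⟨hc, Comb_NL c hc⟩
    · exact Or.inr ⟨hc, Comb_NS c hc⟩
  by_cases ha : sg a = a
  · by_cases hb : sg b = b
    · rw [Comb_NL a ha, Comb_NL b hb, Comb_R a b hb] at h0
      refine Or.inl ⟨ha, hb, ?_, ?_⟩
      · rcases hc with hc | hc
        · exact hc.1
        · exfalso
          omega
      · rw [dg_long a b ha]
        omega
    · rw [Comb_NL a ha, Comb_NS b hb, Comb_L a b ha] at h0
      have h1 : dg b a = 2 * dg a b := dg_SL b a hb ha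
      rw [dg_long a b ha] at h1
      refine Or.inr (Or.inr (Or.inr (Or.inl ⟨ha, hb, ?_, ?_, ?_⟩)))
      · rcases hc with hc | hc
        · exfalso
          omega
        · exact hc.1
      · rw [dg_long a b ha]
        omega
      · omega
  · by_cases hb : sg b = b
    · rw [Comb_NS a ha, Comb_NL b hb, Comb_R a b hb] at h0
      have h1 : dg a b = 2 * dg b a := dg_SL a b ha hb
      rw [dg_long b a hb, Comb_comm b.1 a.1] at h1
      refine Or.inr (Or.inr (Or.inr (Or.inr ⟨ha, hb, ?_, ?_, ?_⟩)))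
      · rcases hc with hc | hc
        · exfalso
          omega
        · exact hc.1
      · omega
      · rw [dg_long b a hb, Comb_comm b.1 a.1]
        omega
    · rw [Comb_NS a ha, Comb_NS b hb] at h0
      rcases hc with hc | hc
      · refine Or.inr (Or.inr (Or.inl ⟨ha, hb, hc.1, ?_⟩))
        rw [dg_short a b ha]
        omega
      · refine Or.inr (Or.inl ⟨ha, hb, hc.1, ?_⟩)
        rw [dg_short a b ha]
        omega

end Pool.Agent.H31.F4
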