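import Pool.Agent.H31.F4.FlA

/-!
# FF-45: white points orthogonal to `OrbS F` commute with the good short root groups

`z = [D', wf c]`, `D' = g (Df c')`, `c ∈ SsF F`.  `z ∈ VF`, `z ∈ UR (SF4 F)` (`fl_span`, `OrbS_span`), `wf c + t z` white
(`fl_white`), `fm z (wf c) = fm [D', wf c] (wf c) = 0` (`fm_inv`, symmetric form) so `z.2 (ng c) = 0` (`fm_w`): `fl_shape`
applies (`fl1`).
(v) `fl2`: `z.2 d = 0` unless `Eq4 c d`: let `d1 ∈ SF4 F` be short with `dg c d1 = 1`.  `Sm c (ng d1) d2`, so `Sm d1 d2 c`,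
`d2 ∈ SF4 F` (`sym4`, `SF4_closed`), `dg c d2 = 1`, `dg d2 d1 = -1`.  `d1, d2 ∈ SsF F`: let `a ∈ SF4 F` be long with
`dg d1 a ≠ 0`; replacing `a` by `ng a` `dg a d1 = -1`; `Sm a d1 x`, `Sm x d1 y` with `x, y ∈ SF4 F`, `y` long
(`dg d1 x = -2 + 2 = 0`, `sm_of_orth`), `dg c y = dg c a + 2 dg c d1 = 0 + 2 ≠ 0`: contradiction to `c ∈ SsF F`.
Let `u = xf (ng d1) 1 ∈ Fo4 F`.  `PtF F (u g) c'`, `u g (wf c')` is orthogonal to `OrbS F` (`OrbS_Fo4`).  `fl1` for `u g`:
`z'' = [u D', wf c] = u [D', u⁻¹ wf c]` has toral part 0.  `u⁻¹ wf c = wf c - k wf d2` (`br_Dw`, second order term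
zero), `z2 = [D', wf d2]` has no toral part and `z2.2 d1 = 0` (`fl1` for `d2`: `dg d2 d1 = -1`, not `Eq4`).
`z'' = u z - k u z2`; toral part of `u y` for `y ∈ VF` without toral part: first order: `y.2 d1 [Df (ng d1), wf d1] =
y.2 d1 · hh (zk (d1 - sd1))` (`br_D_wng` for `ng d1`), second order: zero unless `y` has a component at
`2 d1`: none (`[Df (ng d1),[Df (ng d1), wf e]]` is toral only for `e = 2 d1`).  So `z.2 d1 • zk (d1 - sd1) = 0`,
`z.2 d1 = 0` (`fk_zz`).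
(vi) So `z = ζ wf c`; `(ad D')³ = 0` (`ex_GD`): `ζ³ = 0`, `z = 0`.
`FL4`: `x(t) = ex (t D')` fixes `wf c`; so it maps `Fil (cv c) i` onto itself (`Fil_w`) and normalises `Q2 c` (`Q2_map`):
`x(t) xf c s x(t)⁻¹ ∈ F ⊓ Q2 c`, `= xf c s'` (`FQ2`), `x(t) (Df c) = k(t) Df c` (`ex_eq_xf`, `s = 1`).  `ad2_V` for `Df c`, transported by
`x(t)`: `k(t)² ad(Df c)² x = -(fm (wf c) x) wf c = ad(Df c)² x` on `VF` (`x = wf (ng c)`: not zero), `k(t)² = 1`.
`x(t) = x(t/2)²`: `k(t) = k(t/2)² = 1`.  So `x(t) (Df c) = Df c` for all `t`; `t = ±1`, difference: `[D', Df c] = 0`.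
-/

namespace Pool.Agent.H31.F4

open Pool.Agent.H33.EL (ip cc eps Rt ng zk ek fk LL hh e brf fmf br fm IsExt exl ex xr hd L0 GG T1 TT NN SF cj wt)

variable {K : Type} [Field K]

variable {p : ℕ} {F : Subgroup (LL C6 K ≃ₗ[K] LL C6 K)}

theorem fl1 (H : HypW C6 K) [Fact p.Prime] [CharP K p] (X : HB p F) {c' : Rt C6}
    (hc' : sg c' ≠ c') {g : LL C6 K ≃ₗ[K] LL C6 K} (hg : PtF F g c')
    (ho : ∀ u ∈ OrbS F, fm (g (wf K c')) u = 0) {c : Rt C6} (hc : c ∈ SsF F) :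
    (br (g (Df K c')) (wf K c)).1 = 0 ∧ ∀ d : Rt C6, (br (g (Df K c')) (wf K c)).2 d ≠ 0 →
      Eq4 c d ∨ (d ∈ SF4 F ∧ sg d ≠ d ∧ dg c d = 1) := by
  have hu : wf K c ∈ OrbS F := wf_mem_OrbS hc
  obtain ⟨hz, hzS⟩ := OrbS_span H (fl_span H X hc' hg ho hu)
  refine fl_shape H hc hz hzS (fun t => (fl_white H X hc' hg ho hu t).1) ?_
  have h1 := fm_w H hz c hc.2.1
  have h2 := fm_inv H (g (Df K c')) (wf K c) (wf K c)
  rw [fm_comm H (br (g (Df K c')) (wf K c)) (wf K c)] at h2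
  have h3 : (2 : K) * fm (wf K c) (br (g (Df K c')) (wf K c)) = 0 := by
    linear_combination h2
  rw [h1] at h3
  have h4 : (4 : K) * (br (g (Df K c')) (wf K c)).2 (ng c) = 0 := by
    linear_combination -h3
  have h5 : (4 : K) ≠ 0 := by
    have := mul_ne_zero (two_ne H) (two_ne H)
    norm_num at this
    exact this
  exact (mul_eq_zero.1 h4).resolve_left h5

theorem FlB_ssf (H : HypW C6 K) [Fact p.Prime] [CharP K p] (X : HB p F) {c : Rt C6}
    (hc : c ∈ SsF F) {d : Rt C6} (hd : d ∈ SF4 F) (hds : sg d ≠ d) (hcd : dg c d = 1) :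
    d ∈ SsF F := by
  refine ⟨hd, hds, fun a ha hal => ?_⟩
  by_contra hne
  obtain ⟨a', ha', hal', hda⟩ : ∃ a' ∈ SF4 F, sg a' = a' ∧ dg d a' = -2 := by
    have h1 := dg_SL d a hds hal
    have h2 := dg_range d a
    rcases lt_trichotomy (dg d a) 0 with h3 | h3 | h3
    · exact ⟨a, ha, hal, by omega⟩
    · exact absurd h3 hne
    · refine ⟨ng a, sym4 H X ha, (sg_ng_iff a).2 hal, ?_⟩
      rw [dg_ng_right]
      omega
  have h1 := dg_SL d a' hds hal'
  have h2 : dg a' d = -1 := by omega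
  obtain ⟨x, hx, hxl, -⟩ := sm_of_neg a' d (by omega) (fun h => by
    have h3 := (Eq4_len h).1 ((sg_ng_iff a').2 hal')
    exact hds h3)
  have hxs : sg x ≠ x := fun h => hds (hxl.1 h).2
  have hxF : x ∈ SF4 F := SF4_closed H F hx ha' hd
  have h3 : dg d x = 0 := by
    rw [sm_dg hx d, hda, dg_self]
    norm_num
  have h4 : dg x d = 0 := by
    rw [dg_symm x d ⟨fun h => absurd h hxs, fun h => absurd h hds⟩, h3]
  obtain ⟨y, hy, hyl, -⟩ := sm_of_orth x d hxs hds h4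
  have hyF : y ∈ SF4 F := SF4_closed H F hy hxF hd
  have h5 := hc.2.2 y hyF hyl
  rw [sm_dg hy c, sm_dg hx c, hc.2.2 a' ha' hal', hcd] at h5
  norm_num at h5

theorem FlB_tor (H : HypW C6 K) {d : Rt C6} (hd : sg d ≠ d) {y : LL C6 K} (hy : y ∈ VF K) (s : K) :
    (xf (ng d) s y).1 = y.1 + (s * y.2 d) • (zk (d.1 - (sg d).1) : Fin 6 → K) := by
  have hnd : sg (ng d) ≠ ng d := fun h => hd ((sg_ng_iff d).1 h)
  rw [xf_apply H, ad2_V H (ng d) hnd hy]
  have h1 : (br (Df K (ng d)) y).1 = y.2 d • (zk (d.1 - (sg d).1) : Fin 6 → K) := by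
    rw [Df_short hnd, map_add, LinearMap.add_apply, Prod.fst_add, br_e_fst H, br_e_fst H, ng_ng,
      sg_ng, ng_ng, ((mem_VF' y).1 hy).2 d, ng_val, ng_val, zk_neg, zk_neg, zk_sub]
    module
  rw [Prod.fst_add, Prod.fst_add, Prod.smul_fst, h1, Prod.smul_fst, Prod.smul_fst, wf_fst,
    smul_zero, smul_zero, add_zero, smul_smul]

theorem fl2 (H : HypW C6 K) [Fact p.Prime] [CharP K p] (X : HB p F) {c' : Rt C6}
    (hc' : sg c' ≠ c') {g : LL C6 K ≃ₗ[K] LL C6 K} (hg : PtF F g c')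
    (ho : ∀ u ∈ OrbS F, fm (g (wf K c')) u = 0) {c : Rt C6} (hc : c ∈ SsF F) :
    br (g (Df K c')) (wf K c) = 0 := by
  obtain ⟨z1, z2⟩ := fl1 H X hc' hg ho hc
  have hDL : g (Df K c') ∈ LF K := (GF_LF hg.1 _).2 (Df_mem c')
  have hzV : br (g (Df K c')) (wf K c) ∈ VF K := br_LF_VF hDL (wf_mem c)
  have hcs := hc.2.1
  have key : ∀ d : Rt C6, (br (g (Df K c')) (wf K c)).2 d ≠ 0 → Eq4 c d := by
    intro d1 hne
    rcases z2 d1 hne with h | ⟨hd1F, hd1s, hcd1⟩
    · exact h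
    exfalso
    have hd1c : dg d1 c = 1 := by
      rw [dg_symm d1 c ⟨fun h => absurd h hd1s, fun h => absurd h hcs⟩, hcd1]
    obtain ⟨d2, hd2, hd2l, -⟩ := sm_of_neg c (ng d1) (by rw [dg_ng_right, hcd1]; norm_num)
      (fun h => by
        have h1 : dg c (ng d1) = dg c (ng c) := by
          rcases h with h | h
          · rw [h]
          · rw [h, dg_sg_right]
        rw [dg_ng_right, dg_ng_right, hcd1, dg_self] at h1
        norm_num at h1)
    have hd2s : sg d2 ≠ d2 := fun h => hcs (hd2l.1 h).1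
    have hnd1F : ng d1 ∈ SF4 F := sym4 H X hd1F
    have hd2F : d2 ∈ SF4 F := SF4_closed H F hd2 hc.1 hnd1F
    have hcd2 : dg c d2 = 1 := by
      rw [sm_dg hd2 c, dg_self, dg_ng_right, hcd1]
      norm_num
    have hd12 : dg d1 d2 = -1 := by
      rw [sm_dg hd2 d1, dg_ng_right, dg_self, hd1c]
      norm_num
    have hd21 : dg d2 d1 = -1 := by
      rw [dg_symm d2 d1 ⟨fun h => absurd h hd2s, fun h => absurd h hd1s⟩, hd12]
    have hd2S : d2 ∈ SsF F := FlB_ssf H X hc hd2F hd2s hcd2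
    -- the element u
    have huF0 : xf (ng d1) (1 : K) ∈ Fo4 F := xf_mem_Fo4 hnd1F 1
    have huF : xf (ng d1) (1 : K) ∈ F := Fo4_le X.hT huF0
    have huG : xf (ng d1) (1 : K) ∈ GF K := xf_mem_GF H _ _
    have hP : PtF F (xf (ng d1) (1 : K) * g) c' := PtF_mul X.hF huF hg
    have hcan : ∀ v, xf (ng d1) (1 : K) ((xf (ng d1) (1 : K))⁻¹ v) = v := fun v =>
      (xf (ng d1) (1 : K)).apply_symm_apply v
    obtain ⟨w1, -⟩ := fl1 H X hc' hP (fun v hv => by
      rw [LinearEquiv.mul_apply, ← hcan v, (GF_le_GG huG).2]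
      exact ho _ (OrbS_Fo4 hv (inv_mem huF0))) hc
    obtain ⟨k, -, hk⟩ := br_Dw H (Sm_symm hd2) hcs hd2s
    have e1 : (xf (ng d1) (1 : K))⁻¹ (wf K c) = wf K c - k • wf K d2 := by
      rw [← xf_neg H, xf_apply H, hk, map_smul, br_Dw_long H (by rw [dg_ng_left, hd12]; norm_num)]
      simp only [smul_zero, add_zero]
      module
    have e2 : br ((xf (ng d1) (1 : K) * g) (Df K c')) (wf K c) =
        xf (ng d1) (1 : K) (br (g (Df K c')) (wf K c)) -
          k • xf (ng d1) (1 : K) (br (g (Df K c')) (wf K d2)) := by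
      rw [LinearEquiv.mul_apply, ← map_smul, ← map_sub, ← map_smul, ← map_sub, ← e1,
        (GF_le_GG huG).1, hcan]
    obtain ⟨v1, v2⟩ := fl1 H X hc' hg ho hd2S
    have v3 : (br (g (Df K c')) (wf K d2)).2 d1 = 0 := by
      by_contra hv
      rcases v2 d1 hv with h | ⟨-, -, h⟩
      · have h1 : dg d2 d1 = dg d2 d2 := by
          rcases h with h | h
          · rw [h]
          · rw [h, dg_sg_right]
        rw [hd21, dg_self] at h1
        norm_num at h1
      · rw [hd21] at h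
        norm_num at h
    rw [e2, Prod.fst_sub, Prod.smul_fst, FlB_tor H hd1s hzV, FlB_tor H hd1s (br_LF_VF hDL (wf_mem d2)),
      z1, v1, v3, mul_zero, zero_smul, zero_add, zero_add, smul_zero, sub_zero, one_mul] at w1
    rcases smul_eq_zero.1 w1 with h | h
    · exact hne h
    · have h1 := fk_zz (K := K) H d1 hd1s
      rw [h, fk_zero_left] at h1
      exact two_ne H h1.symm
  -- the multiple of `wf c`
  have hz : br (g (Df K c')) (wf K c) = (br (g (Df K c')) (wf K c)).2 c • wf K c := by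
    refine Prod.ext ?_ (funext fun d => ?_)
    · rw [z1, Prod.smul_fst, wf_fst, smul_zero]
    · rw [Prod.smul_snd, Pi.smul_apply, smul_eq_mul]
      by_cases hd : Eq4 c d
      · rcases hd with hd | hd
        · rw [hd, (wf_snd_self hcs).1, mul_one]
        · rw [hd, (wf_snd_self hcs).2, ((mem_VF' _).1 hzV).2 c]
          ring
      · rw [wf_snd_ne hd, mul_zero]
        by_contra h
        exact hd (key d h)
  have h3 := (ex_GD H (GF_le_GG hg.1) c' 0).2.2 (wf K c)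
  obtain ⟨ζ, hζ⟩ : ∃ ζ, ζ = (br (g (Df K c')) (wf K c)).2 c := ⟨_, rfl⟩
  rw [← hζ] at hz
  rw [hz, map_smul, hz, smul_smul, map_smul, hz, smul_smul] at h3
  rcases smul_eq_zero.1 h3 with h | h
  · have h4 : ζ = 0 := by
      rcases mul_eq_zero.1 h with h | h
      · rcases mul_eq_zero.1 h with h | h <;> exact h
      · exact h
    rw [hz, h4, zero_smul]
  · exact absurd h (wf_ne_zero H hcs)

theorem FL4 (H : HypW C6 K) [Fact p.Prime] [CharP K p] (X : HB p F) {c' : Rt C6}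
    (hc' : sg c' ≠ c') {g : LL C6 K ≃ₗ[K] LL C6 K} (hg : PtF F g c')
    (ho : ∀ u ∈ OrbS F, fm (g (wf K c')) u = 0) {c : Rt C6} (hc : c ∈ SsF F) :
    br (g (Df K c')) (Df K c) = 0 := by
  have hcs := hc.2.1
  have h0 := fl2 H X hc' hg ho hc
  have hx : ∀ t : K, ∃ k : K, k ^ 2 = 1 ∧ ex (t • g (Df K c')) (Df K c) = k • Df K c := by
    intro t
    have hxF : ex (t • g (Df K c')) ∈ F := PtF_ex hg t
    have hxG : ex (t • g (Df K c')) ∈ GF K := X.hF hxF
    have hxw : ex (t • g (Df K c')) (wf K c) = wf K c := by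
      rw [(ex_GD H (GF_le_GG hg.1) c' t).2.1, h0, map_zero, smul_zero, smul_zero, add_zero,
        add_zero]
    have hF2 : ex (t • g (Df K c')) * xf c (1 : K) * (ex (t • g (Df K c')))⁻¹ ∈ F :=
      mul_mem (mul_mem hxF (hc.1 1)) (inv_mem hxF)
    have hQ : ex (t • g (Df K c')) * xf c (1 : K) * (ex (t • g (Df K c')))⁻¹ ∈ Q2 K c :=
      (Q2_map H hxG (fun i x => Fil_w H (GF_le_GG hxG) hcs hcs one_ne_zero
        (by rw [hxw, one_smul]) i x)).1 (xf_mem_Q2 H (dg_self c) 1)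
    obtain ⟨k, hk⟩ := FQ2 H X.hF X.hT hc hF2 hQ
    have hD := ex_eq_xf H hxG hk
    refine ⟨k, ?_, hD⟩
    have hV := wf_mem (K := K) (ng c)
    have a1 := congrArg (ex (t • g (Df K c'))) (ad2_V H c hcs hV)
    have a0 : ex (t • g (Df K c')) ((-fm (wf K c) (wf K (ng c))) • wf K c) =
        (-fm (wf K c) (wf K (ng c))) • wf K c := by
      rw [map_smul, hxw]
    rw [a0, (GF_le_GG hxG).1, (GF_le_GG hxG).1, hD, map_smul,
      LinearMap.smul_apply, LinearMap.smul_apply, map_smul, ad2_V H c hcs ((GF_VF hxG _).2 hV),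
      smul_smul, smul_smul] at a1
    have a2 : fm (wf K c) (ex (t • g (Df K c')) (wf K (ng c))) = fm (wf K c) (wf K (ng c)) := by
      conv_lhs => rw [← hxw]
      exact (GF_le_GG hxG).2 _ _
    rw [a2] at a1
    have a3 := smul_left_injective K (wf_ne_zero H hcs) a1
    have a4 : fm (wf K c) (wf K (ng c)) ≠ 0 := by
      have h := fm_pv_ng (K := K) H c
      rw [pv_short hcs, pv_short (fun h => hcs ((sg_ng_iff c).1 h))] at h
      exact h
    apply mul_right_cancel₀ (neg_ne_zero.2 a4)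
    linear_combination a3
  have hfix : ∀ t : K, ex (t • g (Df K c')) (Df K c) = Df K c := by
    intro t
    obtain ⟨k, hk, hk2⟩ := hx (t * 2⁻¹)
    have h1 : ex (t • g (Df K c')) = ex ((t * 2⁻¹) • g (Df K c')) * ex ((t * 2⁻¹) • g (Df K c')) := by
      rw [← (ex_GD H (GF_le_GG hg.1) c' t).1, ← (ex_GD H (GF_le_GG hg.1) c' (t * 2⁻¹)).1]
      have h2 : t = t * 2⁻¹ + t * 2⁻¹ := by
        have := two_ne H
        field_simp
        ring
      conv_lhs => rw [h2, xf_add H]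
      group
    rw [h1, LinearEquiv.mul_apply, hk2, map_smul, hk2, smul_smul, ← pow_two, hk, one_smul]
  have p1 := hfix 1
  have p2 := hfix (-1)
  rw [(ex_GD H (GF_le_GG hg.1) c' _).2.1] at p1 p2
  have p3 : (2 : K) • br (g (Df K c')) (Df K c) = 0 := by
    have h1 : (Df K c + (1 : K) • br (g (Df K c')) (Df K c) +
      (2⁻¹ * (1 : K) ^ 2) • br (g (Df K c')) (br (g (Df K c')) (Df K c))) -
      (Df K c + (-1 : K) • br (g (Df K c')) (Df K c) +
      (2⁻¹ * (-1 : K) ^ 2) • br (g (Df K c')) (br (g (Df K c')) (Df K c))) = 0 := by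
      rw [p1, p2, sub_self]
    rw [← h1]
    module
  exact (smul_eq_zero.1 p3).resolve_left (two_ne H)

end Pool.Agent.H31.F4
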