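import Pool.Agent.H31.F4.LL4
import Pool.Agent.H31.F4.ComC
import Pool.Agent.H31.F4.FlB

/-!
# FF-46: without matching components all root groups commute

`F' = cj g F`, `X' : HB p F'` (`HB_cj`).  `NM F g`, `NM F' g⁻¹` (`NM_symm`), `cj g⁻¹ F' = F` (`cj_cj_inv`).
(1) `lla`: `f ∈ Fo4 F`, `f' ∈ Fo4 F'`, `b ∈ SF4 F`, `c ∈ SF4 F'` long: `[g f' e_c, f e_b] = 0`: `LL4` for `f⁻¹ g f'`
(`PtF_cj`, `PtF_mul`), orthogonality from `NM_orthL` (`OrbL_Fo4`).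
(2) `b ∈ SsF F`, `c ∈ SF4 F'` long: `COM4` for `F`: `[Df b, g f' e_c] = 0`; `c ∈ SsF F'`, `b ∈ SF4 F` long: `COM4` for `F'` and the
point `g⁻¹ f e_b` (`PtF_cj'`): `[Df c, g⁻¹ f e_b] = 0`.
(3) `b ∈ SsF F`, `c ∈ SF4 F'` short: `FL4` for `F` and `g`: need `fm (g (wf c)) u = 0` for `u ∈ OrbS F`.  If `c ∈ SsF F'`:
`NM_orthS`.  Otherwise there is a long `a ∈ SF4 F'` with `dg c a ≠ 0`, and we may assume `dg c a = 2` (`sym4`).  If `fm (g (wf c)) u ≠ 0`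
then `g (wf c) ∈ OrbS F` (`OrbS_P`): `g (wf c) = κ f (wf b1)`, `b1 ∈ SsF F`, `f ∈ Fo4 F`.  `g1 = f⁻¹ g` maps `Q2 c` onto `Q2 b1`
(`Fil_w`, `Q2_map`), `g1 xf a 1 g1⁻¹ ∈ F ⊓ Q2 b1` (`xf_mem_Q2`), `= xf b1 s` (`FQ2`), `g1 (e a) = s Df b1` (`ex_eq_xf`),
extremal: contradiction to `not_ext_short` (`s ≠ 0`).  This is `fl_orth`.
The reversed statement (`c ∈ SsF F'`, `b ∈ SF4 F` short) by symmetry: `[g⁻¹ (Df b), Df c] = 0`.
(4) `b ∈ SF4 F` short, not in `SsF F` (there is a long `a ∈ SF4 F` with `dg b a ≠ 0`): `ADJ4` for `F`, `x = g (Df c)`: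
need `[g (Df c), f e_a] = 0` for all `f ∈ Fo4 F`, `a ∈ SF4 F` long: `c` long: (1); `c ∈ SsF F'`: (2);
`c` short not in `SsF F'`: `ADJ4` for `F'`, `x = g⁻¹ f e_a`, and (1).
(5) `c` short not in `SsF F'`: `b` long: `ADJ4` for `F'`, `x = g⁻¹ (e b)`, with (1); `b ∈ SsF F`: (3); otherwise (4).
-/

namespace Pool.Agent.H31.F4

open Pool.Agent.H33.EL (ip cc eps Rt ng zk ek fk LL hh e brf fmf br fm IsExt exl ex xr hd L0 GG T1 TT NN SF cj wt)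

variable {K : Type} [Field K]

variable {p : ℕ} {F : Subgroup (LL C6 K ≃ₗ[K] LL C6 K)}

/-- `cj g F ≤ GF` -/
theorem CommAll_hF (X : HB p F) {g : LL C6 K ≃ₗ[K] LL C6 K} (hg : g ∈ GF K) : cj g F ≤ GF K :=
  cj_le_GF hg X.hF

/-- points of `cj g F` are points of `F` -/
theorem CommAll_pt (X : HB p F) {g : LL C6 K ≃ₗ[K] LL C6 K} (hg : g ∈ GF K)
    {f' : LL C6 K ≃ₗ[K] LL C6 K} (hf' : f' ∈ cj g F) {c : Rt C6} (hc : c ∈ SF4 (cj g F)) :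
    PtF F (g * f') c :=
  PtF_cj hg (PtF_self (CommAll_hF X hg) hf' hc)

theorem CommAll_pt1 (X : HB p F) {g : LL C6 K ≃ₗ[K] LL C6 K} (hg : g ∈ GF K)
    {c : Rt C6} (hc : c ∈ SF4 (cj g F)) : PtF F g c := by
  have h := CommAll_pt X hg (one_mem _) hc
  rwa [mul_one] at h

/-- moving a group element through a vanishing bracket -/
theorem CommAll_mv {g : LL C6 K ≃ₗ[K] LL C6 K} (hg : g ∈ GF K) {x y : LL C6 K}
    (h : br x (g⁻¹ y) = 0) : br (g x) y = 0 := by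
  have h1 := (GF_le_GG hg).1 x (g⁻¹ y)
  rw [h, map_zero, nor_inv_apply] at h1
  exact h1.symm

theorem CommAll_mv' {g : LL C6 K ≃ₗ[K] LL C6 K} (hg : g ∈ GF K) {x y : LL C6 K}
    (h : br (g x) y = 0) : br x (g⁻¹ y) = 0 := by
  have h1 := (GF_le_GG (inv_mem hg)).1 (g x) y
  rw [h, map_zero, nor_apply_inv] at h1
  exact h1.symm

theorem CommAll_sk (H : HypW C6 K) {x y : LL C6 K} (h : br x y = 0) : br y x = 0 := by
  rw [br_skew H, h, neg_zero]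

/-- (1) long against long -/
theorem CommAll_ll (H : HypW C6 K) [Fact p.Prime] [CharP K p] (X : HB p F)
    {g : LL C6 K ≃ₗ[K] LL C6 K} (hg : g ∈ GF K) (hgT : T4 K ≤ cj g F) (h : NM F g)
    {f f' : LL C6 K ≃ₗ[K] LL C6 K} (hf : f ∈ Fo4 F) (hf' : f' ∈ Fo4 (cj g F))
    {b c : Rt C6} (hb : b ∈ SF4 F) (hbl : sg b = b) (hc : c ∈ SF4 (cj g F)) (hcl : sg c = c) :
    br (g (f' (e K c))) (f (e K b)) = 0 := by
  have hfF : f ∈ F := Fo4_le X.hT hf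
  have hfG : f ∈ GF K := X.hF hfF
  have hP : PtF F (f⁻¹ * (g * f')) c :=
    PtF_mul X.hF (inv_mem hfF) (CommAll_pt X hg (Fo4_le hgT hf') hc)
  have ho : ∀ u ∈ OrbL F, fm ((f⁻¹ * (g * f')) (e K c)) u = 0 := by
    intro u hu
    have h1 := NM_orthL H X hg hgT h (f' (e K c)) (OrbL_Fo4 (e_mem_OrbL hc hcl) hf') (f u)
      (OrbL_Fo4 hu hf)
    have h2 := (GF_le_GG (inv_mem hfG)).2 (g (f' (e K c))) (f u)
    rw [nor_apply_inv, h1] at h2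
    exact h2
  have h3 := LL4 H X hcl hP ho hb hbl
  have h4 : br (f⁻¹ (g (f' (e K c)))) (e K b) = 0 := h3
  have h5 := (GF_le_GG hfG).1 (f⁻¹ (g (f' (e K c)))) (e K b)
  rw [h4, map_zero, nor_inv_apply] at h5
  exact h5.symm

/-- (2) good short roots of `F` against long roots of `cj g F` -/
theorem CommAll_sl (H : HypW C6 K) [Fact p.Prime] [CharP K p] (X : HB p F)
    {g : LL C6 K ≃ₗ[K] LL C6 K} (hg : g ∈ GF K)
    {b c : Rt C6} (hb : b ∈ SsF F) (hc : c ∈ SF4 (cj g F)) (hcl : sg c = c) :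
    br (Df K b) (g (e K c)) = 0 :=
  COM4 H X hb hcl (CommAll_pt1 X hg hc)

/-- (2) good short roots of `cj g F` against long roots of `F` -/
theorem CommAll_ls (H : HypW C6 K) [Fact p.Prime] [CharP K p] (X : HB p F)
    {g : LL C6 K ≃ₗ[K] LL C6 K} (hg : g ∈ GF K) (hgT : T4 K ≤ cj g F)
    {f : LL C6 K ≃ₗ[K] LL C6 K} (hf : f ∈ Fo4 F)
    {b c : Rt C6} (hb : b ∈ SF4 F) (hbl : sg b = b) (hc : c ∈ SsF (cj g F)) :
    br (g (Df K c)) (f (e K b)) = 0 := by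
  have h1 : br (Df K c) ((g⁻¹ * f) (e K b)) = 0 :=
    COM4 H (HB_cj X hg hgT) hc hbl (PtF_cj' hg (PtF_self X.hF (Fo4_le X.hT hf) hb))
  exact CommAll_mv hg h1

/-- a short root which is not good has an adjacent long root -/
theorem CommAll_adj {c : Rt C6} (hc : c ∈ SF4 F) (hcs : sg c ≠ c) (hn : c ∉ SsF F) :
    ∃ a ∈ SF4 F, sg a = a ∧ dg c a ≠ 0 := by
  by_contra hcon
  push Not at hcon
  exact hn ⟨hc, hcs, hcon⟩

/-- long roots of `F` against all roots of `cj g F` -/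
theorem CommAll_la (H : HypW C6 K) [Fact p.Prime] [CharP K p] (X : HB p F)
    {g : LL C6 K ≃ₗ[K] LL C6 K} (hg : g ∈ GF K) (hgT : T4 K ≤ cj g F) (h : NM F g)
    {f : LL C6 K ≃ₗ[K] LL C6 K} (hf : f ∈ Fo4 F)
    {b c : Rt C6} (hb : b ∈ SF4 F) (hbl : sg b = b) (hc : c ∈ SF4 (cj g F)) :
    br (g (Df K c)) (f (e K b)) = 0 := by
  by_cases hcl : sg c = c
  · rw [Df_long hcl]
    exact CommAll_ll H X hg hgT h hf (one_mem _) hb hbl hc hcl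
  by_cases hcs : c ∈ SsF (cj g F)
  · exact CommAll_ls H X hg hgT hf hb hbl hcs
  obtain ⟨a, ha, hal, hda⟩ := CommAll_adj hc hcl hcs
  have h1 : br (g⁻¹ (f (e K b))) (Df K c) = 0 := by
    refine ADJ4 H (HB_cj X hg hgT) ?_ hc hcl ha hal hda
    intro f' hf' a' ha' hal'
    refine CommAll_sk H (CommAll_mv' hg ?_)
    exact CommAll_ll H X hg hgT h hf hf' hb hbl ha' hal'
  exact CommAll_mv hg (CommAll_sk H h1)

theorem CommAll_two (c a : Rt C6) (hcs : sg c ≠ c) (hal : sg a = a) (h : dg c a ≠ 0) :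
    dg c a = 2 ∨ dg c a = -2 := by
  have h1 := dg_SL c a hcs hal
  have h2 := dg_range c a
  omega

theorem fl_orth (H : HypW C6 K) [Fact p.Prime] [CharP K p] (X : HB p F)
    {g : LL C6 K ≃ₗ[K] LL C6 K} (hg : g ∈ GF K) (hgT : T4 K ≤ cj g F) (h : NM F g)
    {c : Rt C6} (hc : c ∈ SF4 (cj g F)) (hcs : sg c ≠ c) : ∀ u ∈ OrbS F, fm (g (wf K c)) u = 0 := by
  intro u hu
  by_cases hcS : c ∈ SsF (cj g F)
  · exact NM_orthS H X hg hgT h (wf K c) (wf_mem_OrbS hcS) u hu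
  obtain ⟨a, ha, hal, hda⟩ : ∃ a ∈ SF4 (cj g F), sg a = a ∧ dg c a = 2 := by
    obtain ⟨a, ha, hal, hda⟩ := CommAll_adj hc hcs hcS
    rcases CommAll_two c a hcs hal hda with h1 | h1
    · exact ⟨a, ha, hal, h1⟩
    · refine ⟨ng a, sym4 H (HB_cj X hg hgT) ha, (sg_ng_iff a).2 hal, ?_⟩
      rw [dg_ng_right, h1, neg_neg]
  by_contra hne
  obtain ⟨f, hf, b, hb, κ, hκ, hv⟩ := OrbS_P H X hcs (CommAll_pt1 X hg hc) hu hne
  have hfF : f ∈ F := Fo4_le X.hT hf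
  have hg1 : f⁻¹ * g ∈ GF K := mul_mem (inv_mem (X.hF hfF)) hg
  have h1 : (f⁻¹ * g) (wf K c) = κ • wf K b := by
    show f⁻¹ (g (wf K c)) = κ • wf K b
    rw [hv, map_smul, nor_apply_inv]
  have h2 := Fil_w H (GF_le_GG hg1) hcs hb.2.1 hκ h1
  have h3 : (f⁻¹ * g) * xf a 1 * (f⁻¹ * g)⁻¹ ∈ Q2 K b :=
    (Q2_map H hg1 h2).1 (xf_mem_Q2 H hda 1)
  have h4 : (f⁻¹ * g) * xf a 1 * (f⁻¹ * g)⁻¹ ∈ F := by
    have h5 : f⁻¹ * (g * xf a 1 * g⁻¹) * f ∈ F :=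
      mul_mem (mul_mem (inv_mem hfF) (mem_cj4.1 (ha 1))) hfF
    have h6 : (f⁻¹ * g) * xf a 1 * (f⁻¹ * g)⁻¹ = f⁻¹ * (g * xf a 1 * g⁻¹) * f := by group
    rw [h6]
    exact h5
  obtain ⟨s, hs⟩ := FQ2 H X.hF X.hT hb h4 h3
  have h7 := ex_eq_xf H hg1 hs
  rw [Df_long hal] at h7
  have h8 : IsExt ((f⁻¹ * g) (e K a)) := IsExt_map (isExt_e H a) (GF_le_GG hg1)
  have h9 : s ≠ 0 := by
    rintro rfl
    rw [zero_smul] at h7
    have h10 : e K a = 0 := by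
      have := congrArg (f⁻¹ * g).symm h7
      rwa [LinearEquiv.symm_apply_apply, map_zero] at this
    have h11 := Df_ne_zero (K := K) a
    rw [Df_long hal] at h11
    exact h11 h10
  rw [h7] at h8
  exact not_ext_short H b hb.2.1 h9 h8

theorem comm_all (H : HypW C6 K) [Fact p.Prime] [CharP K p] (X : HB p F)
    {g : LL C6 K ≃ₗ[K] LL C6 K} (hg : g ∈ GF K) (hgT : T4 K ≤ cj g F) (h : NM F g)
    {b c : Rt C6} (hb : b ∈ SF4 F) (hc : c ∈ SF4 (cj g F)) :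
    br (g (Df K c)) (Df K b) = 0 := by
  by_cases hbl : sg b = b
  · rw [Df_long hbl]
    exact CommAll_la H X hg hgT h (one_mem _) hb hbl hc
  by_cases hbS : b ∈ SsF F
  · by_cases hcl : sg c = c
    · rw [Df_long hcl]
      exact CommAll_sk H (CommAll_sl H X hg hbS hc hcl)
    · exact FL4 H X hcl (CommAll_pt1 X hg hc) (fl_orth H X hg hgT h hc hcl) hbS
  obtain ⟨a, ha, hal, hda⟩ := CommAll_adj hb hbl hbS
  refine ADJ4 H X ?_ hb hbl ha hal hda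
  intro f hf a' ha' hal'
  exact CommAll_la H X hg hgT h hf ha' hal' hc

end Pool.Agent.H31.F4
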