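import Pool.Agent.H31.F4.CtxA
import Pool.Agent.H33.EL.CCb

/-!
# FF-52: property (H) (adapt EL/CCb.lean)

`EE4 F` is the group of all `e ∈ T4` with `e² ∈ Z4`.  `Ind4 F`: three elements independent modulo `Z4`.
`hprop4`: as `hprop` in EL/CCb.lean: `CCb_two` (in the quotient of the normaliser …, see there) and `CCb_abs` with
`F := F`, `T := T4`, `N := NN ⊓ GF K` (for `hNT`: `NN4_conj`), `T1 := T4`, `Z := Z4 F`, `c3` from `c3a_4`, `w` from `w1_4`.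
-/

namespace Pool.Agent.H31.F4

open Pool.Agent.H33.EL (ip cc eps Rt ng zk ek fk LL hh e brf fmf br fm IsExt exl ex xr hd L0 GG T1 TT NN SF cj wt)

variable {K : Type} [Field K]

/-- elements of order 2 modulo the centre -/
def EE4 (F : Subgroup (LL C6 K ≃ₗ[K] LL C6 K)) : Set (LL C6 K ≃ₗ[K] LL C6 K) :=
  {e | e ∈ T4 K ∧ e * e ∈ Z4 F}

/-- three independent elements of `EE4 F` modulo the centre -/
def Ind4 (F : Subgroup (LL C6 K ≃ₗ[K] LL C6 K)) : Prop :=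
  ∃ e1 ∈ EE4 F, ∃ e2 ∈ EE4 F, ∃ e3 ∈ EE4 F, e1 ∉ Z4 F ∧ e2 ∉ Z4 F ∧ e3 ∉ Z4 F ∧
    e1 * e2 ∉ Z4 F ∧ e1 * e3 ∉ Z4 F ∧ e2 * e3 ∉ Z4 F ∧ e1 * e2 * e3 ∉ Z4 F

variable {F : Subgroup (LL C6 K ≃ₗ[K] LL C6 K)}

theorem hprop4 (H : HypW C6 K) (X : Ctx4 F) (h3 : Ind4 F) {s x : LL C6 K ≃ₗ[K] LL C6 K}
    (hs : s ∈ EE4 F) (hsZ : s ∉ Z4 F) (hx : x ∈ F) (hb : x * s * x⁻¹ ∈ NN C6 K) :
    x ∈ NN C6 K := by
  by_contra hxN
  have hZT : Z4 F ≤ T4 K := Z4_le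
  have hZc : ∀ z ∈ Z4 F, ∀ f ∈ F, f * z = z * f := fun z hz f hf => Z4_comm hz hf
  have hTF : T4 K ≤ F := X.hT
  have hFG : F ≤ GF K := X.hF
  have hTc : ∀ s ∈ T4 K, ∀ t ∈ T4 K, s * t = t * s := fun s hs t ht => T4_comm H hs ht
  have hbF : x * s * x⁻¹ ∈ F := mul_mem (mul_mem hx (hTF hs.1)) (inv_mem hx)
  have hbb : (x * s * x⁻¹) * (x * s * x⁻¹) ∈ Z4 F := by
    have h1 : (x * s * x⁻¹) * (x * s * x⁻¹) = x * (s * s) * x⁻¹ := by group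
    rw [h1, hZc _ hs.2 _ hx, mul_inv_cancel_right]
    exact hs.2
  let Z' : Subgroup F := (Z4 F).subgroupOf F
  have hnorm : Z'.Normal := by
    constructor
    intro z hz f
    rw [Subgroup.mem_subgroupOf] at hz ⊢
    have h1 : ((f * z * f⁻¹ : F) : LL C6 K ≃ₗ[K] LL C6 K) = (z : LL C6 K ≃ₗ[K] LL C6 K) := by
      show (f : LL C6 K ≃ₗ[K] LL C6 K) * z * (f : LL C6 K ≃ₗ[K] LL C6 K)⁻¹ = z
      rw [hZc _ hz _ f.2, mul_inv_cancel_right]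
    rw [h1]
    exact hz
  let π : F →* F ⧸ Z' := QuotientGroup.mk' Z'
  have hπ : ∀ u : F, π u = 1 ↔ (u : LL C6 K ≃ₗ[K] LL C6 K) ∈ Z4 F := by
    intro u
    show (QuotientGroup.mk u : F ⧸ Z') = 1 ↔ _
    rw [QuotientGroup.eq_one_iff, Subgroup.mem_subgroupOf]
  let E : Subgroup F :=
    { carrier := {e | (e : LL C6 K ≃ₗ[K] LL C6 K) ∈ EE4 F}
      one_mem' := by
        refine ⟨one_mem _, ?_⟩
        show ((1 : F) : LL C6 K ≃ₗ[K] LL C6 K) * ((1 : F) : LL C6 K ≃ₗ[K] LL C6 K) ∈ Z4 F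
        rw [Subgroup.coe_one, mul_one]
        exact one_mem _
      mul_mem' := by
        rintro a b ⟨haT, ha2⟩ ⟨hbT, hb2⟩
        refine ⟨mul_mem haT hbT, ?_⟩
        have h1 : ((a : LL C6 K ≃ₗ[K] LL C6 K) * b) * (a * b) = (a * a) * (b * b) := by
          calc ((a : LL C6 K ≃ₗ[K] LL C6 K) * b) * (a * b) = a * (b * a) * b := by group
            _ = a * (a * b) * b := by rw [hTc _ hbT _ haT]
            _ = (a * a) * (b * b) := by group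
        show ((a : LL C6 K ≃ₗ[K] LL C6 K) * b) * (a * b) ∈ Z4 F
        rw [h1]
        exact mul_mem ha2 hb2
      inv_mem' := by
        rintro a ⟨haT, ha2⟩
        refine ⟨inv_mem haT, ?_⟩
        show (a : LL C6 K ≃ₗ[K] LL C6 K)⁻¹ * (a : LL C6 K ≃ₗ[K] LL C6 K)⁻¹ ∈ Z4 F
        rw [← mul_inv_rev]
        exact inv_mem ha2 }
  let b : F := ⟨x * s * x⁻¹, hbF⟩
  obtain ⟨e1, he1, e2, he2, e3, he3, k1, k2, k3, k12, k13, k23, k123⟩ := h3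
  have hne : ∀ u : F, (u : LL C6 K ≃ₗ[K] LL C6 K) ∉ Z4 F → π u ≠ 1 :=
    fun u hu h => hu ((hπ u).1 h)
  obtain ⟨A1, hA1, A2, hA2, j1, j2, j12, f1, f2⟩ := Pool.Agent.H33.EL.CCb_two (E.map π) (π b)
    (by
      rintro _ ⟨u, hu, rfl⟩ _ ⟨v, hv, rfl⟩
      rw [← map_mul, ← map_mul]
      congr 1
      exact Subtype.ext (hTc _ hu.1 _ hv.1))
    (by
      rintro _ ⟨u, hu, rfl⟩
      rw [← map_mul]
      exact (hπ _).2 hu.2)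
    (by
      rintro _ ⟨u, hu, rfl⟩
      refine ⟨b * u * b⁻¹, ?_, by simp⟩
      refine ⟨NN4_conj H hb (hFG hbF) _ hu.1, ?_⟩
      have h1 : ((b * u * b⁻¹ : F) : LL C6 K ≃ₗ[K] LL C6 K) *
          ((b * u * b⁻¹ : F) : LL C6 K ≃ₗ[K] LL C6 K) = (u : LL C6 K ≃ₗ[K] LL C6 K) * u := by
        have h2 : ((b * u * b⁻¹ : F) : LL C6 K ≃ₗ[K] LL C6 K) *
            ((b * u * b⁻¹ : F) : LL C6 K ≃ₗ[K] LL C6 K)
          = (b : LL C6 K ≃ₗ[K] LL C6 K) * (u * u) * (b : LL C6 K ≃ₗ[K] LL C6 K)⁻¹ := by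
          show (b : LL C6 K ≃ₗ[K] LL C6 K) * u * (b : LL C6 K ≃ₗ[K] LL C6 K)⁻¹ *
            ((b : LL C6 K ≃ₗ[K] LL C6 K) * u * (b : LL C6 K ≃ₗ[K] LL C6 K)⁻¹) = _
          group
        rw [h2, hZc _ hu.2 _ b.2, mul_inv_cancel_right]
      rw [h1]
      exact hu.2)
    (by
      rw [← map_mul]
      exact (hπ _).2 hbb)
    (e1 := π ⟨e1, hTF he1.1⟩) (e2 := π ⟨e2, hTF he2.1⟩) (e3 := π ⟨e3, hTF he3.1⟩)
    ⟨_, he1, rfl⟩ ⟨_, he2, rfl⟩ ⟨_, he3, rfl⟩ (hne _ k1) (hne _ k2) (hne _ k3)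
    (by rw [← map_mul]; exact hne _ k12) (by rw [← map_mul]; exact hne _ k13)
    (by rw [← map_mul]; exact hne _ k23) (by rw [← map_mul, ← map_mul]; exact hne _ k123)
  obtain ⟨a1, ha1, rfl⟩ := hA1
  obtain ⟨a2, ha2, rfl⟩ := hA2
  have hcomm : ∀ a : F, π b * π a * (π b)⁻¹ = π a →
      (a : LL C6 K ≃ₗ[K] LL C6 K) * (x * s * x⁻¹) * (a : LL C6 K ≃ₗ[K] LL C6 K)⁻¹ *
        (x * s * x⁻¹)⁻¹ ∈ Z4 F := by
    intro a h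
    have h1 : π (a * b * a⁻¹ * b⁻¹) = 1 := by
      rw [map_mul, map_mul, map_mul, map_inv, map_inv]
      have h2 : π b * π a = π a * π b := by
        rw [mul_inv_eq_iff_eq_mul] at h
        exact h
      rw [← h2]
      group
    exact (hπ _).1 h1
  have hN1 : x⁻¹ * (a1 : LL C6 K ≃ₗ[K] LL C6 K) * x ∈ NN C6 K :=
    (c3a_4 H X hx hxN hs.1 hsZ hb ha1.1).1 (hcomm a1 f1)
  have hN2 : x⁻¹ * (a2 : LL C6 K ≃ₗ[K] LL C6 K) * x ∈ NN C6 K :=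
    (c3a_4 H X hx hxN hs.1 hsZ hb ha2.1).1 (hcomm a2 f2)
  have hnot : ∀ y ∈ F, y ∉ NN C6 K ⊓ GF K → y ∉ NN C6 K := fun y hy h h' =>
    h ⟨h', hFG hy⟩
  refine Pool.Agent.H33.EL.CCb_abs F (T4 K) (NN C6 K ⊓ GF K) (T4 K) (Z4 F) hTc
    (fun t ht => ⟨Pool.Agent.H33.EL.TT_le_NN (T4_le_TT H ht), T4_le_GF H ht⟩)
    (fun g hg t ht => NN4_conj H hg.1 hg.2 t ht) hZT hZc X.hT le_rfl
    (fun x s t h1 h2 h3 h4 h5 h6 h7 h8 => ?_)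
    (fun x s h1 h2 h3 h4 h5 h6 => w1_4 H X h1 (hnot x h1 h2) h4 h5 h6.1)
    (hTF ha1.1) ha1.1 ha1.2 (fun h => j1 ((hπ _).2 h)) (hTF ha2.1) ha2.1 ha2.2
    (fun h => j2 ((hπ _).2 h)) (fun h => j12 ?_) hx (fun h => hxN h.1)
    ⟨hN1, hFG (mul_mem (mul_mem (inv_mem hx) (hTF ha1.1)) hx)⟩
    ⟨hN2, hFG (mul_mem (mul_mem (inv_mem hx) (hTF ha2.1)) hx)⟩
  · rw [c3a_4 H X h1 (hnot x h1 h2) h4 h5 h6.1 h8]
    exact ⟨fun h => ⟨h, hFG (mul_mem (mul_mem (inv_mem h1) h7) h1)⟩, fun h => h.1⟩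
  · rw [← map_mul]
    exact (hπ _).2 h

end Pool.Agent.H31.F4
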