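import Pool.Agent.H31.F4.CtxB
import Pool.Agent.H33.EL.GrpS

/-!
# FF-53: transitivity (adapt EL/CCc.lean)

`trans4`: as `trans` in EL/CCc.lean: `thmS` for the finite group `F / Z4` (`finite4`), `M` the image of
`F ⊓ NN`, `E` the image of `EE4 F` (a group: `T4` is abelian), with `hprop4`.  `M ≠ F/Z4` since `Z4 ≤ NN` and `F ≰ NN`.
-/

namespace Pool.Agent.H31.F4

open Pool.Agent.H33.EL (ip cc eps Rt ng zk ek fk LL hh e brf fmf br fm IsExt exl ex xr hd L0 GG T1 TT NN SF cj wt)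

variable {K : Type} [Field K]

variable {F : Subgroup (LL C6 K ≃ₗ[K] LL C6 K)}

theorem ctxC_central {z f : LL C6 K ≃ₗ[K] LL C6 K} (hz : z ∈ Z4 F) (hf : f ∈ F) :
    f * z * f⁻¹ = z := by
  rw [Z4_comm hz hf, mul_assoc, mul_inv_cancel, mul_one]

theorem ctxC_normal (F : Subgroup (LL C6 K ≃ₗ[K] LL C6 K)) :
    ((Z4 F).subgroupOf F).Normal := by
  refine ⟨fun z hz f => ?_⟩
  rw [Subgroup.mem_subgroupOf] at hz ⊢
  show (f : LL C6 K ≃ₗ[K] LL C6 K) * z * (f : LL C6 K ≃ₗ[K] LL C6 K)⁻¹ ∈ Z4 F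
  rw [ctxC_central hz f.2]
  exact hz

theorem ctxC_mem {G : Type*} [Group G] (Z A F : Subgroup G) [(Z.subgroupOf F).Normal]
    (hZ : Z ≤ A) (x : F) :
    QuotientGroup.mk' (Z.subgroupOf F) x ∈ (A.subgroupOf F).map
      (QuotientGroup.mk' (Z.subgroupOf F)) ↔ (x : G) ∈ A := by
  constructor
  · rintro ⟨y, hy, hyx⟩
    have hy' : (y : G) ∈ A := hy
    have h1 : (y : F)⁻¹ * x ∈ Z.subgroupOf F := QuotientGroup.eq.1 hyx
    rw [Subgroup.mem_subgroupOf] at h1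
    have h2 : (y : G) * ((y⁻¹ * x : F) : G) ∈ A := A.mul_mem hy' (hZ h1)
    simpa using h2
  · intro hx
    exact ⟨x, hx, rfl⟩

/-- the group of the elements of `EE4 F` -/
def ctxC_E (H : HypW C6 K) (F : Subgroup (LL C6 K ≃ₗ[K] LL C6 K)) :
    Subgroup (LL C6 K ≃ₗ[K] LL C6 K) where
  carrier := EE4 F
  one_mem' := ⟨one_mem _, by rw [mul_one]; exact one_mem _⟩
  mul_mem' := by
    rintro a b ⟨ha', ha2⟩ ⟨hb', hb2⟩
    refine ⟨mul_mem ha' hb', ?_⟩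
    have h1 : a * b * (a * b) = (a * a) * (b * b) := by
      calc a * b * (a * b) = a * (b * a) * b := by group
        _ = a * (a * b) * b := by rw [T4_comm H hb' ha']
        _ = (a * a) * (b * b) := by group
    rw [h1]
    exact mul_mem ha2 hb2
  inv_mem' := by
    rintro a ⟨ha', ha2⟩
    refine ⟨inv_mem ha', ?_⟩
    have h1 : a⁻¹ * a⁻¹ = (a * a)⁻¹ := by group
    rw [h1]
    exact inv_mem ha2

theorem trans4 (H : HypW C6 K) (X : Ctx4 F) (h3 : Ind4 F) {s t : LL C6 K ≃ₗ[K] LL C6 K}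
    (hs : s ∈ EE4 F) (hsZ : s ∉ Z4 F) (ht : t ∈ EE4 F) (htZ : t ∉ Z4 F) :
    ∃ m ∈ F, m ∈ NN C6 K ∧ m * s * m⁻¹ * t⁻¹ ∈ Z4 F := by
  have hfin : Finite (LL C6 K ≃ₗ[K] LL C6 K) := finite4 H
  have hnorm : ((Z4 F).subgroupOf F).Normal := ctxC_normal F
  have hZN : Z4 F ≤ NN C6 K := Z4_le.trans (T4_le_NN H)
  have hZE : Z4 F ≤ ctxC_E H F := fun z hz => ⟨Z4_le hz, mul_mem hz hz⟩
  have hsF : s ∈ F := X.hT hs.1
  have htF : t ∈ F := X.hT ht.1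
  have key := Pool.Agent.H33.EL.thmS (F := ↥F ⧸ (Z4 F).subgroupOf F)
    (((NN C6 K).subgroupOf F).map (QuotientGroup.mk' ((Z4 F).subgroupOf F)))
    (((ctxC_E H F).subgroupOf F).map (QuotientGroup.mk' ((Z4 F).subgroupOf F))) ?_ ?_ ?_ ?_ ?_
  · have hs1 : QuotientGroup.mk' ((Z4 F).subgroupOf F) ⟨s, hsF⟩ ≠ 1 := by
      intro h
      exact hsZ ((QuotientGroup.eq_one_iff (N := (Z4 F).subgroupOf F) _).1 h)
    have ht1 : QuotientGroup.mk' ((Z4 F).subgroupOf F) ⟨t, htF⟩ ≠ 1 := by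
      intro h
      exact htZ ((QuotientGroup.eq_one_iff (N := (Z4 F).subgroupOf F) _).1 h)
    obtain ⟨m, hm, hmst⟩ := key _ ((ctxC_mem (Z4 F) (ctxC_E H F) F hZE ⟨s, hsF⟩).2 hs) hs1
      _ ((ctxC_mem (Z4 F) (ctxC_E H F) F hZE ⟨t, htF⟩).2 ht) ht1
    obtain ⟨m', rfl⟩ := QuotientGroup.mk'_surjective _ m
    rw [ctxC_mem (Z4 F) (NN C6 K) F hZN] at hm
    refine ⟨m', m'.2, hm, ?_⟩
    have h1 : QuotientGroup.mk' ((Z4 F).subgroupOf F)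
        (m' * ⟨s, hsF⟩ * m'⁻¹ * (⟨t, htF⟩ : F)⁻¹) = 1 := by
      rw [map_mul, map_mul, map_mul, map_inv, map_inv, hmst, mul_inv_cancel]
    exact (QuotientGroup.eq_one_iff (N := (Z4 F).subgroupOf F) _).1 h1
  · -- M ≠ ⊤
    intro htop
    apply X.hN
    intro x hx
    rw [← ctxC_mem (Z4 F) (NN C6 K) F hZN ⟨x, hx⟩, htop]
    exact Subgroup.mem_top _
  · -- E ≤ M
    rintro _ ⟨y, hy, rfl⟩
    have hy' : (y : LL C6 K ≃ₗ[K] LL C6 K) ∈ EE4 F := hy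
    exact ⟨y, T4_le_NN H hy'.1, rfl⟩
  · -- normal
    rintro _ ⟨m, hm, rfl⟩ _ ⟨y, hy, rfl⟩
    have hm' : (m : LL C6 K ≃ₗ[K] LL C6 K) ∈ NN C6 K := hm
    have hy' : (y : LL C6 K ≃ₗ[K] LL C6 K) ∈ EE4 F := hy
    rw [← map_inv, ← map_mul, ← map_mul]
    refine ⟨m * y * m⁻¹, ?_, rfl⟩
    show (m : LL C6 K ≃ₗ[K] LL C6 K) * y * (m : LL C6 K ≃ₗ[K] LL C6 K)⁻¹ ∈ EE4 F
    refine ⟨NN4_conj H hm' (X.hF m.2) _ hy'.1, ?_⟩
    have h1 : (m : LL C6 K ≃ₗ[K] LL C6 K) * y * (m : LL C6 K ≃ₗ[K] LL C6 K)⁻¹ *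
        ((m : LL C6 K ≃ₗ[K] LL C6 K) * y * (m : LL C6 K ≃ₗ[K] LL C6 K)⁻¹) =
        (m : LL C6 K ≃ₗ[K] LL C6 K) * (y * y) * (m : LL C6 K ≃ₗ[K] LL C6 K)⁻¹ := by group
    rw [h1, ctxC_central hy'.2 m.2]
    exact hy'.2
  · -- squares
    rintro _ ⟨y, hy, rfl⟩
    have hy' : (y : LL C6 K ≃ₗ[K] LL C6 K) ∈ EE4 F := hy
    rw [← map_mul]
    exact (QuotientGroup.eq_one_iff (N := (Z4 F).subgroupOf F) _).2 hy'.2
  · -- property (H)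
    rintro _ ⟨y, hy, rfl⟩ hy1 x hx
    obtain ⟨x', rfl⟩ := QuotientGroup.mk'_surjective _ x
    have hy' : (y : LL C6 K ≃ₗ[K] LL C6 K) ∈ EE4 F := hy
    have hyZ : (y : LL C6 K ≃ₗ[K] LL C6 K) ∉ Z4 F := fun h =>
      hy1 ((QuotientGroup.eq_one_iff (N := (Z4 F).subgroupOf F) _).2 h)
    rw [← map_inv, ← map_mul, ← map_mul, ctxC_mem (Z4 F) (NN C6 K) F hZN] at hx
    rw [ctxC_mem (Z4 F) (NN C6 K) F hZN]
    exact hprop4 H X h3 hy' hyZ x'.2 hx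

end Pool.Agent.H31.F4
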