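import Pool.Agent.H31.F4.CtxC

/-!
# FF-54: every product of two characters is a root character, for one length (adapt EL/CCd.lean)

`Q ⊆ PZ4 F` is a set of roots invariant under `F ⊓ NN` (for example the long roots, or the short roots of
`PZ4 F`), and some root in `Q` is not trivial on `EE4 F`.  The proof is that of `prod_char` in EL/CCd.lean:
For `e ∈ EE4 F` and `c ∈ PZ4 F`: `wt e c = ±1`; `σ e c ∈ {1,-1} ⊆ ℤ` the sign.  For `e ∉ Z`, the number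
`c0` of `c ∈ Q` with `σ e c = -1` does not depend on `e`: by `trans4` `m e m⁻¹ ∈ e' Z`, and `σ (m e m⁻¹) (w c) = σ e c` for
the permutation `w` of `m` (`NN4_perm`, `wt_conj4`), `w` permutes `Q` (`hQ'`).  `c0 > 0`, since some `e` has `σ e c = -1` for some
`c ∈ Q`.  Let `χ e = σ e a * σ e b` be not trivial and suppose that it is different from all `σ · c`, `c ∈ Q`.  Then
`∑_e χ e * σ e c = 0` for all `c ∈ Q`.  So `0 = ∑_e χ e ∑_(c ∈ Q) σ e c`; the inner sum is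
`N = |Q|` for `e ∈ Z` and `N - 2 c0` otherwise, `∑_e χ e = 0`:
`0 = |Z| N + (N - 2 c0)(0 - |Z|) = 2 c0 |Z| > 0`.  Contradiction.
`prod_char1`: the same with `χ e = σ e a`.
-/

namespace Pool.Agent.H31.F4

open Pool.Agent.H33.EL (ip cc eps Rt ng zk ek fk LL hh e brf fmf br fm IsExt exl ex xr hd L0 GG T1 TT NN SF cj wt)

variable {K : Type} [Field K]

variable {F : Subgroup (LL C6 K ≃ₗ[K] LL C6 K)}

/-- `EE4 F` as a subgroup -/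
def CtxD_E (H : HypW C6 K) (F : Subgroup (LL C6 K ≃ₗ[K] LL C6 K)) :
    Subgroup (LL C6 K ≃ₗ[K] LL C6 K) where
  carrier := EE4 F
  one_mem' := ⟨one_mem _, by rw [one_mul]; exact one_mem _⟩
  mul_mem' := by
    rintro s t ⟨hs2, hs3⟩ ⟨ht2, ht3⟩
    refine ⟨mul_mem hs2 ht2, ?_⟩
    have h1 : s * t * (s * t) = s * s * (t * t) := by
      rw [mul_assoc, ← mul_assoc t s t, T4_comm H ht2 hs2, mul_assoc s t t, ← mul_assoc s s]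
    rw [h1]
    exact mul_mem hs3 ht3
  inv_mem' := by
    rintro s ⟨hs2, hs3⟩
    refine ⟨inv_mem hs2, ?_⟩
    rw [← mul_inv_rev]
    exact inv_mem hs3

theorem CtxD_neg (H : HypW C6 K) : (-1 : K) ≠ 1 := by
  intro h
  have := two_ne H
  apply this
  linear_combination -h

theorem CtxD_sq (H : HypW C6 K) {s : LL C6 K ≃ₗ[K] LL C6 K} (hs : s ∈ EE4 F) {c : Rt C6}
    (hc : c ∈ PZ4 F) : wt s c = 1 ∨ wt s c = -1 := by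
  apply mul_self_eq_one_iff.1
  rw [← wt_mul H (T4_le_TT H hs.1) (T4_le_TT H hs.1)]
  exact hc _ hs.2

open Classical in
/-- the sign character of a root -/
noncomputable def CtxD_s (H : HypW C6 K) (F : Subgroup (LL C6 K ≃ₗ[K] LL C6 K))
    (c : {c : Rt C6 // c ∈ PZ4 F}) : CtxD_E H F →* ℤ where
  toFun s := if wt (s : LL C6 K ≃ₗ[K] LL C6 K) c.1 = 1 then 1 else -1
  map_one' := by
    rw [if_pos]
    exact wt_one _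
  map_mul' := by
    intro s t
    have h2 : (-1 : K) ≠ 1 := CtxD_neg H
    have h1 : wt ((s * t : CtxD_E H F) : LL C6 K ≃ₗ[K] LL C6 K) c.1 =
        wt (s : LL C6 K ≃ₗ[K] LL C6 K) c.1 * wt (t : LL C6 K ≃ₗ[K] LL C6 K) c.1 :=
      wt_mul H (T4_le_TT H s.2.1) (T4_le_TT H t.2.1) _
    rcases CtxD_sq H s.2 c.2 with hs | hs <;> rcases CtxD_sq H t.2 c.2 with ht | ht <;>
      rw [h1, hs, ht] <;> simp [h2]

theorem CtxD_s_one (H : HypW C6 K) (c : {c : Rt C6 // c ∈ PZ4 F}) (s : CtxD_E H F)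
    (h : wt (s : LL C6 K ≃ₗ[K] LL C6 K) c.1 = 1) : CtxD_s H F c s = 1 := if_pos h

theorem CtxD_s_neg (H : HypW C6 K) (c : {c : Rt C6 // c ∈ PZ4 F}) (s : CtxD_E H F)
    (h : wt (s : LL C6 K ≃ₗ[K] LL C6 K) c.1 ≠ 1) : CtxD_s H F c s = -1 := if_neg h

theorem CtxD_s_sq (H : HypW C6 K) (c : {c : Rt C6 // c ∈ PZ4 F}) (s : CtxD_E H F) :
    CtxD_s H F c s * CtxD_s H F c s = 1 := by
  by_cases h : wt (s : LL C6 K ≃ₗ[K] LL C6 K) c.1 = 1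
  · rw [CtxD_s_one H c s h, one_mul]
  · rw [CtxD_s_neg H c s h]
    norm_num

theorem CtxD_key (H : HypW C6 K) (d : {c : Rt C6 // c ∈ PZ4 F}) (s : CtxD_E H F) :
    (wt (s : LL C6 K ≃ₗ[K] LL C6 K) d.1 = 1 ∧ CtxD_s H F d s = 1) ∨
      (wt (s : LL C6 K ≃ₗ[K] LL C6 K) d.1 = -1 ∧ CtxD_s H F d s = -1) := by
  rcases CtxD_sq H s.2 d.2 with hs | hs
  · exact Or.inl ⟨hs, CtxD_s_one H d s hs⟩
  · exact Or.inr ⟨hs, CtxD_s_neg H d s (by rw [hs]; exact CtxD_neg H)⟩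

/-- the sum of the sign characters is constant outside the centre -/
theorem CtxD_const (H : HypW C6 K) (X : Ctx4 F) (h3 : Ind4 F) {Q : Set (Rt C6)}
    (hQ : Q ⊆ PZ4 F)
    (hQ' : ∀ m ∈ F, m ∈ NN C6 K → ∀ a b : Rt C6, ∀ k : K, m (Df K a) = k • Df K b → a ∈ Q → b ∈ Q)
    [Fintype {c : Rt C6 // c ∈ Q}] {s t : CtxD_E H F}
    (hs : (s : LL C6 K ≃ₗ[K] LL C6 K) ∉ Z4 F) (ht : (t : LL C6 K ≃ₗ[K] LL C6 K) ∉ Z4 F) :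
    ∑ c : {c : Rt C6 // c ∈ Q}, CtxD_s H F ⟨c.1, hQ c.2⟩ s =
      ∑ c : {c : Rt C6 // c ∈ Q}, CtxD_s H F ⟨c.1, hQ c.2⟩ t := by
  obtain ⟨m, hm, hmN, hz⟩ := trans4 H X h3 s.2 hs t.2 ht
  have hmG : m ∈ GF K := X.hF hm
  obtain ⟨w, k, hk, -, -, -, hw, -⟩ := NN4_perm H hmN hmG
  have hP : ∀ c, c ∈ Q ↔ w c ∈ Q := by
    intro c
    refine ⟨fun h => hQ' m hm hmN c (w c) (k c) (hw c) h, fun h => ?_⟩
    refine hQ' m⁻¹ (inv_mem hm) (inv_mem hmN) (w c) c (k c)⁻¹ ?_ h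
    have h1 : Df K (w c) = (k c)⁻¹ • m (Df K c) := by
      rw [hw, smul_smul, inv_mul_cancel₀ (hk c), one_smul]
    rw [h1, map_smul]
    congr 1
    exact m.symm_apply_apply _
  rw [← (w.subtypeEquiv hP).sum_comp (fun c => CtxD_s H F ⟨c.1, hQ c.2⟩ t)]
  refine Finset.sum_congr rfl fun c _ => ?_
  have h1 : wt (m * (s : LL C6 K ≃ₗ[K] LL C6 K) * m⁻¹) (w c.1) =
      wt (s : LL C6 K ≃ₗ[K] LL C6 K) c.1 :=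
    wt_conj4 H hmN hmG s.2.1 (hw c.1) (hk c.1)
  have h4 : wt (t : LL C6 K ≃ₗ[K] LL C6 K) (w c.1) = wt (s : LL C6 K ≃ₗ[K] LL C6 K) c.1 := by
    rw [← h1]
    have h5 : m * (s : LL C6 K ≃ₗ[K] LL C6 K) * m⁻¹ =
        (m * (s : LL C6 K ≃ₗ[K] LL C6 K) * m⁻¹ * (t : LL C6 K ≃ₗ[K] LL C6 K)⁻¹) *
        (t : LL C6 K ≃ₗ[K] LL C6 K) := by
      rw [inv_mul_cancel_right]
    rw [h5, wt_mul H (T4_le_TT H (Z4_le hz)) (T4_le_TT H t.2.1),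
      hQ ((hP c.1).1 c.2) _ hz, one_mul]
  have h6 : wt (t : LL C6 K ≃ₗ[K] LL C6 K) ((w.subtypeEquiv hP) c).1 =
      wt (s : LL C6 K ≃ₗ[K] LL C6 K) c.1 := h4
  by_cases h7 : wt (s : LL C6 K ≃ₗ[K] LL C6 K) c.1 = 1
  · rw [CtxD_s_one H _ s h7, CtxD_s_one H _ t (h6.trans h7)]
  · rw [CtxD_s_neg H _ s h7, CtxD_s_neg H _ t (by rw [h6]; exact h7)]

theorem CtxD_core (H : HypW C6 K) (X : Ctx4 F) (h3 : Ind4 F) {Q : Set (Rt C6)}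
    (hQ : Q ⊆ PZ4 F)
    (hQ' : ∀ m ∈ F, m ∈ NN C6 K → ∀ a b : Rt C6, ∀ k : K, m (Df K a) = k • Df K b → a ∈ Q → b ∈ Q)
    (hne : ∃ s ∈ EE4 F, ∃ c ∈ Q, wt s c ≠ 1) (χ : CtxD_E H F →* ℤ)
    (hχZ : ∀ s : CtxD_E H F, (s : LL C6 K ≃ₗ[K] LL C6 K) ∈ Z4 F → χ s = 1)
    {s0 : CtxD_E H F} (hχ0 : χ s0 ≠ 1) :
    ∃ c : Rt C6, ∃ hc : c ∈ Q, ∀ s, χ s = CtxD_s H F ⟨c, hQ hc⟩ s := by
  classical
  by_contra hcon
  push Not at hcon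
  have := finite4 H
  have : Fintype (CtxD_E H F) := Fintype.ofFinite _
  have : Fintype {c : Rt C6 // c ∈ Q} := Fintype.ofFinite _
  have hs0Z : (s0 : LL C6 K ≃ₗ[K] LL C6 K) ∉ Z4 F := fun h => hχ0 (hχZ _ h)
  have hχ1 : ∑ s, χ s = 0 := sum_hom_units_eq_zero χ (fun h => hχ0 (by rw [h]; rfl))
  have hσ : ∀ c : {c : Rt C6 // c ∈ Q}, ∑ s, χ s * CtxD_s H F ⟨c.1, hQ c.2⟩ s = 0 := by
    intro c
    refine sum_hom_units_eq_zero (χ * CtxD_s H F ⟨c.1, hQ c.2⟩) (fun h => ?_)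
    obtain ⟨s, h4⟩ := hcon c.1 c.2
    apply h4
    have h5 : χ s * CtxD_s H F ⟨c.1, hQ c.2⟩ s = 1 := by
      have := DFunLike.congr_fun h s
      exact this
    have h6 := CtxD_s_sq H ⟨c.1, hQ c.2⟩ s
    symm
    calc CtxD_s H F ⟨c.1, hQ c.2⟩ s
        = (χ s * CtxD_s H F ⟨c.1, hQ c.2⟩ s) * CtxD_s H F ⟨c.1, hQ c.2⟩ s := by
          rw [h5, one_mul]
      _ = χ s := by rw [mul_assoc, h6, mul_one]
  have hsum : ∑ s, χ s * ∑ c : {c : Rt C6 // c ∈ Q}, CtxD_s H F ⟨c.1, hQ c.2⟩ s = 0 := by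
    simp_rw [Finset.mul_sum]
    rw [Finset.sum_comm]
    exact Finset.sum_eq_zero fun c _ => hσ c
  obtain ⟨M, hM⟩ : ∃ M : ℤ, M = ∑ c : {c : Rt C6 // c ∈ Q}, CtxD_s H F ⟨c.1, hQ c.2⟩ s0 :=
    ⟨_, rfl⟩
  have hsum2 : ∑ s, χ s * (∑ c : {c : Rt C6 // c ∈ Q}, CtxD_s H F ⟨c.1, hQ c.2⟩ s - M) = 0 := by
    simp_rw [mul_sub]
    rw [Finset.sum_sub_distrib, hsum, ← Finset.sum_mul, hχ1]
    ring
  have hMlt : M < ∑ c : {c : Rt C6 // c ∈ Q}, (1 : ℤ) := by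
    obtain ⟨s1, hs1, c, hc, h4⟩ := hne
    have hs1Z : s1 ∉ Z4 F := fun h => h4 (hQ hc _ h)
    rw [hM, CtxD_const H X h3 hQ hQ' (s := s0) (t := ⟨s1, hs1⟩) hs0Z hs1Z]
    refine Finset.sum_lt_sum (fun d _ => ?_) ⟨⟨c, hc⟩, Finset.mem_univ _, ?_⟩
    · by_cases h5 : wt ((⟨s1, hs1⟩ : CtxD_E H F) : LL C6 K ≃ₗ[K] LL C6 K) d.1 = 1
      · rw [CtxD_s_one H _ _ h5]
      · rw [CtxD_s_neg H _ _ h5]
        norm_num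
    · rw [CtxD_s_neg H ⟨c, hQ hc⟩ _ h4]
      norm_num
  have hpos : 0 < ∑ s, χ s *
      (∑ c : {c : Rt C6 // c ∈ Q}, CtxD_s H F ⟨c.1, hQ c.2⟩ s - M) := by
    have hZc : ∀ s : CtxD_E H F, (s : LL C6 K ≃ₗ[K] LL C6 K) ∈ Z4 F →
        0 < χ s * (∑ c : {c : Rt C6 // c ∈ Q}, CtxD_s H F ⟨c.1, hQ c.2⟩ s - M) := by
      intro s hs
      rw [hχZ s hs, one_mul]
      have h5 : ∑ c : {c : Rt C6 // c ∈ Q}, CtxD_s H F ⟨c.1, hQ c.2⟩ s =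
          ∑ c : {c : Rt C6 // c ∈ Q}, (1 : ℤ) :=
        Finset.sum_congr rfl fun c _ => CtxD_s_one H _ s (hQ c.2 _ hs)
      rw [h5]
      linarith
    refine Finset.sum_pos' (fun s _ => ?_) ⟨1, Finset.mem_univ _, hZc 1 (one_mem _)⟩
    by_cases hs : (s : LL C6 K ≃ₗ[K] LL C6 K) ∈ Z4 F
    · exact (hZc s hs).le
    · have h5 := CtxD_const H X h3 hQ hQ' (s := s) (t := s0) hs hs0Z
      rw [h5, ← hM, sub_self, mul_zero]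
  exact absurd hsum2 (ne_of_gt hpos)

theorem prod_char4 (H : HypW C6 K) (X : Ctx4 F) (h3 : Ind4 F) (Q : Set (Rt C6))
    (hQ : Q ⊆ PZ4 F)
    (hQ' : ∀ m ∈ F, m ∈ NN C6 K → ∀ a b : Rt C6, ∀ k : K, m (Df K a) = k • Df K b → a ∈ Q → b ∈ Q)
    (hne : ∃ s ∈ EE4 F, ∃ c ∈ Q, wt s c ≠ 1) {a b : Rt C6} (ha : a ∈ PZ4 F)
    (hb : b ∈ PZ4 F) (hab : ∃ s ∈ EE4 F, wt s a * wt s b ≠ 1) :
    ∃ c ∈ Q, ∀ s ∈ EE4 F, wt s c = wt s a * wt s b := by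
  obtain ⟨s0, hs0, h0⟩ := hab
  obtain ⟨χ, hχ⟩ : ∃ χ : CtxD_E H F →* ℤ, χ = CtxD_s H F ⟨a, ha⟩ * CtxD_s H F ⟨b, hb⟩ :=
    ⟨_, rfl⟩
  have hχv : ∀ s, χ s = CtxD_s H F ⟨a, ha⟩ s * CtxD_s H F ⟨b, hb⟩ s := fun s => by
    rw [hχ]
    rfl
  have hχZ : ∀ s : CtxD_E H F, (s : LL C6 K ≃ₗ[K] LL C6 K) ∈ Z4 F → χ s = 1 := by
    intro s hs
    rw [hχv, CtxD_s_one H _ s (ha _ hs), CtxD_s_one H _ s (hb _ hs), one_mul]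
  have hχ0 : χ ⟨s0, hs0⟩ ≠ 1 := by
    intro h
    apply h0
    rw [hχv] at h
    rcases CtxD_key H ⟨a, ha⟩ ⟨s0, hs0⟩ with ⟨ha1, ha2⟩ | ⟨ha1, ha2⟩ <;>
      rcases CtxD_key H ⟨b, hb⟩ ⟨s0, hs0⟩ with ⟨hb1, hb2⟩ | ⟨hb1, hb2⟩ <;>
      rw [ha2, hb2] at h <;> simp only at ha1 hb1 <;> rw [ha1, hb1] <;>
      first | (norm_num at h; done) | norm_num
  obtain ⟨c, hc, h4⟩ := CtxD_core H X h3 hQ hQ' hne χ hχZ hχ0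
  refine ⟨c, hc, fun s hs => ?_⟩
  have h5 := h4 ⟨s, hs⟩
  rw [hχv] at h5
  rcases CtxD_key H ⟨a, ha⟩ ⟨s, hs⟩ with ⟨ha1, ha2⟩ | ⟨ha1, ha2⟩ <;>
    rcases CtxD_key H ⟨b, hb⟩ ⟨s, hs⟩ with ⟨hb1, hb2⟩ | ⟨hb1, hb2⟩ <;>
    rcases CtxD_key H ⟨c, hQ hc⟩ ⟨s, hs⟩ with ⟨hc1, hc2⟩ | ⟨hc1, hc2⟩ <;>
    rw [ha2, hb2, hc2] at h5 <;> simp only at ha1 hb1 hc1 <;> rw [ha1, hb1, hc1] <;>
    first | (norm_num at h5; done) | norm_num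

theorem prod_char1 (H : HypW C6 K) (X : Ctx4 F) (h3 : Ind4 F) (Q : Set (Rt C6))
    (hQ : Q ⊆ PZ4 F)
    (hQ' : ∀ m ∈ F, m ∈ NN C6 K → ∀ a b : Rt C6, ∀ k : K, m (Df K a) = k • Df K b → a ∈ Q → b ∈ Q)
    (hne : ∃ s ∈ EE4 F, ∃ c ∈ Q, wt s c ≠ 1) {a : Rt C6} (ha : a ∈ PZ4 F)
    (hab : ∃ s ∈ EE4 F, wt s a ≠ 1) :
    ∃ c ∈ Q, ∀ s ∈ EE4 F, wt s c = wt s a := by
  obtain ⟨s0, hs0, h0⟩ := hab
  have hχZ : ∀ s : CtxD_E H F, (s : LL C6 K ≃ₗ[K] LL C6 K) ∈ Z4 F →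
      CtxD_s H F ⟨a, ha⟩ s = 1 := fun s hs => CtxD_s_one H _ s (ha _ hs)
  have hχ0 : CtxD_s H F ⟨a, ha⟩ ⟨s0, hs0⟩ ≠ 1 := by
    rw [CtxD_s_neg H ⟨a, ha⟩ ⟨s0, hs0⟩ h0]
    norm_num
  obtain ⟨c, hc, h4⟩ := CtxD_core H X h3 hQ hQ' hne _ hχZ hχ0
  refine ⟨c, hc, fun s hs => ?_⟩
  have h5 := h4 ⟨s, hs⟩
  rcases CtxD_key H ⟨a, ha⟩ ⟨s, hs⟩ with ⟨ha1, ha2⟩ | ⟨ha1, ha2⟩ <;>
    rcases CtxD_key H ⟨c, hQ hc⟩ ⟨s, hs⟩ with ⟨hc1, hc2⟩ | ⟨hc1, hc2⟩ <;>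
    rw [ha2, hc2] at h5 <;> simp only at ha1 hc1 <;> rw [ha1, hc1] <;>
    first | (norm_num at h5; done) | norm_num

end Pool.Agent.H31.F4
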