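import Pool.Agent.H31.F4.B.Fil

/-!
# Type F_4 by folding E_6: definitions (helper31, MP_a408f4_al)

Paper proof: note 1325 (team database, notes on `MP_a408f4_al`), notation of note 1270.

`C6` is the Gram matrix of type E_6 with the nodes numbered so that the graph automorphism
`tau = (2 3)(4 5)` preserves the order of adjacent nodes (so the sign cocycle is invariant).
`LL C6 K` is the Lie algebra of type E_6; `Sg K` the graph automorphism; `LF K` its fixed space
(the Lie algebra of type F_4, dimension 52) and `VF K` its `-1`-space (the module of dimension 26).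
The roots of F_4 are the orbits of `sg` on the roots of E_6, represented by the roots
of E_6: `a` is long if `sg a = a`.
* `cv a` the coroot, `dg a b = ⟨b, cv a⟩` the Cartan integer of F_4.
* `Df a = e_a` or `e_a + e_(sg a)` the root vector of F_4, `wf a = e_a - e_(sg a)`,
  `pv a` the point vector: `e_a` (long) or `wf a` (short); `xf a s` the root element.
* `Sm a b c`: `c = a + b` as roots of F_4.
* `Eq4 a b`: `a`, `b` represent the same root of F_4.
* `GF` the group, `T4` its torus, `SF4 F` the roots with root group in `F`,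
  `Fo4 F` the group generated by `T4` and these root groups.
-/

namespace Pool.Agent.H31.F4

open Pool.Agent.H33.EL (ip cc eps Rt ng zk ek fk LL hh e brf fmf br fm IsExt exl ex xr hd L0 GG T1 TT NN SF cj wt)

/-- Gram matrix of type E_6, node 0 is the branch node, arms 0-1, 0-2-4, 0-3-5 -/
def C6 : Matrix (Fin 6) (Fin 6) ℤ :=
  !![2, -1, -1, -1, 0, 0;
    -1, 2, 0, 0, 0, 0;
    -1, 0, 2, 0, -1, 0;
    -1, 0, 0, 2, 0, -1;
    0, 0, -1, 0, 2, 0;
    0, 0, 0, -1, 0, 2]

/-- the graph automorphism on the nodes -/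
def tau : Fin 6 → Fin 6 := ![0, 1, 3, 2, 5, 4]

theorem tau_tau (i : Fin 6) : tau (tau i) = i := by
  fin_cases i <;> rfl

theorem C6_tau (i j : Fin 6) : C6 (tau i) (tau j) = C6 i j := by
  fin_cases i <;> fin_cases j <;> rfl

/-- `tau` as a permutation -/
def tauE : Equiv.Perm (Fin 6) := ⟨tau, tau, tau_tau, tau_tau⟩

/-- the graph automorphism on vectors -/
def sv {R : Type} (x : Fin 6 → R) : Fin 6 → R := fun i => x (tau i)

theorem sv_sv {R : Type} (x : Fin 6 → R) : sv (sv x) = x := by
  funext i
  simp [sv, tau_tau]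

theorem ip_sv (x y : Fin 6 → ℤ) : ip C6 (sv x) (sv y) = ip C6 x y := by
  unfold ip
  rw [← Equiv.sum_comp tauE]
  refine Finset.sum_congr rfl fun i _ => ?_
  rw [← Equiv.sum_comp tauE]
  refine Finset.sum_congr rfl fun j _ => ?_
  show sv x (tau i) * C6 (tau i) (tau j) * sv y (tau j) = _
  rw [C6_tau]
  simp only [sv, tau_tau]

/-- the graph automorphism on roots -/
def sg (a : Rt C6) : Rt C6 := ⟨sv a.1, by rw [ip_sv]; exact a.2⟩

theorem sg_sg (a : Rt C6) : sg (sg a) = a := Subtype.ext (sv_sv a.1)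

/-- the coroot of the root of F_4 represented by `a`, as a vector of the lattice -/
def cv (a : Rt C6) : Fin 6 → ℤ := if sg a = a then a.1 else a.1 + (sg a).1

/-- the Cartan integer of F_4: value of the coroot of `a` on `b` -/
def dg (a b : Rt C6) : ℤ := ip C6 (cv a) b.1

/-- `c = a + b` as roots of F_4 -/
def Sm (a b c : Rt C6) : Prop := c.1 + (sg c).1 = (a.1 + (sg a).1) + (b.1 + (sg b).1)

/-- the same root of F_4 -/
def Eq4 (a b : Rt C6) : Prop := b = a ∨ b = sg a

instance (a b : Rt C6) : Decidable (Eq4 a b) := inferInstanceAs (Decidable (_ ∨ _))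

section
variable (K : Type) [Field K]

/-- the graph automorphism of the Lie algebra of type E_6 -/
def Sg : LL C6 K ≃ₗ[K] LL C6 K where
  toFun x := (sv x.1, fun a => x.2 (sg a))
  invFun x := (sv x.1, fun a => x.2 (sg a))
  map_add' x y := rfl
  map_smul' c x := rfl
  left_inv x := by
    refine Prod.ext (sv_sv x.1) (funext fun a => ?_)
    show x.2 (sg (sg a)) = x.2 a
    rw [sg_sg]
  right_inv x := by
    refine Prod.ext (sv_sv x.1) (funext fun a => ?_)
    show x.2 (sg (sg a)) = x.2 a
    rw [sg_sg]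

/-- the Lie algebra of type F_4 -/
def LF : Submodule K (LL C6 K) := LinearMap.ker ((Sg K : LL C6 K →ₗ[K] LL C6 K) - LinearMap.id)

/-- the 26-dimensional module -/
def VF : Submodule K (LL C6 K) := LinearMap.ker ((Sg K : LL C6 K →ₗ[K] LL C6 K) + LinearMap.id)

/-- the root vector of F_4 -/
def Df (a : Rt C6) : LL C6 K := if sg a = a then e K a else e K a + e K (sg a)

/-- the white vector (zero for long roots) -/
def wf (a : Rt C6) : LL C6 K := e K a - e K (sg a)

/-- the point vector: `e_a` for a long root, the white vector for a short root -/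
def pv (a : Rt C6) : LL C6 K := if sg a = a then e K a else wf K a

end

section
variable {K : Type} [Field K] [Fintype (Rt C6)]

/-- the root element of F_4 -/
noncomputable def xf (a : Rt C6) (s : K) : LL C6 K ≃ₗ[K] LL C6 K := ex (s • Df K a)

variable (K) in
/-- the group: automorphisms of bracket and form commuting with the graph automorphism -/
def GF : Subgroup (LL C6 K ≃ₗ[K] LL C6 K) := GG C6 K ⊓ Subgroup.centralizer {Sg K}

variable (K) in
/-- the split torus of F_4 -/
def T4 : Subgroup (LL C6 K ≃ₗ[K] LL C6 K) :=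
  Subgroup.closure {g | ∃ (y : Fin 6 → ℤ) (c : Kˣ), sv y = y ∧ g = hd C6 y c}

/-- the roots with root group in `F` -/
def SF4 (F : Subgroup (LL C6 K ≃ₗ[K] LL C6 K)) : Set (Rt C6) := {a | ∀ s : K, xf a s ∈ F}

/-- the group generated by the torus and the root groups in `F` -/
def Fo4 (F : Subgroup (LL C6 K ≃ₗ[K] LL C6 K)) : Subgroup (LL C6 K ≃ₗ[K] LL C6 K) :=
  Subgroup.closure {g | g ∈ T4 K ∨ ∃ a ∈ SF4 F, ∃ s : K, g = xf a s}

/-- the statement (D) -/
def Dst4 (F : Subgroup (LL C6 K ≃ₗ[K] LL C6 K)) : Prop :=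
  ∀ g ∈ GF K, T4 K ≤ cj g F → ∃ c ∈ Fo4 F, c⁻¹ * g ∈ NN C6 K

/-- white vectors -/
def IsW (w : LL C6 K) : Prop := ∀ x ∈ VF K, br w (br w x) = (-fm w x) • w

/-- the multiplicity of the weight `a` in a subspace -/
noncomputable def mu (n : Submodule K (LL C6 K)) (a : Rt C6) : ℕ :=
  Module.finrank K (n ⊓ Submodule.span K {e K a, e K (sg a)} : Submodule K (LL C6 K))

/-- twice the sum of the weights of a subspace -/
noncomputable def dn (n : Submodule K (LL C6 K)) : Fin 6 → ℤ :=
  ∑ a : Rt C6, ((if sg a = a then 2 else 1) * (mu n a : ℤ)) • a.1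

/-- `n` is invariant under `T4` and the graph automorphism -/
def Hom4 (n : Submodule K (LL C6 K)) : Prop :=
  (∀ t ∈ T4 K, ∀ x ∈ n, t x ∈ n) ∧ ∀ x ∈ n, Sg K x ∈ n

/-- the image of `a` under the reflection of F_4 in `b` -/
def rfv (b a : Rt C6) : Fin 6 → ℤ :=
  if sg b = b then a.1 - ip C6 b.1 a.1 • b.1
  else a.1 - ip C6 b.1 a.1 • b.1 - ip C6 (sg b).1 a.1 • (sg b).1

end

end Pool.Agent.H31.F4
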