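import Pool.Agent.H31.F4.Par4

/-!
# FF-25: positivity of `dn n`

`n` is invariant under `ad (Df b)`: `xf b 1 x - xf b (-1) x = 2 [Df b, x]` (`xf_apply`, char ≠ 2).
For a root `a` with `dg b a < 0` and `c.1 = rfv b a` (exists: `rfv_root`): `ad_inj` gives an injective
linear map from `n ⊓ span{e a, e (sg a)}` to `n ⊓ span{e c, e (sg c)}`, so `mu n a ≤ mu n c` (`mu_le`).
`ip (cv b) (dn n) = ∑_a mult(a) mu(a) dg b a`; `a ↦ s_b a` (`c.1 = rfv b a`) is an involution of the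
roots with `dg b (s_b a) = - dg b a` which preserves the length (`mult`) and `sg`-orbits; so the sum is
`∑_(a, dg b a > 0) mult(a) dg b a (mu a - mu (s_b a)) ≥ 0`, and `> 0` if one term is positive.
`ip (cv b) δ` is `ip δ b` or `2 ip δ b` for `sv δ = δ` (`sv_dn`).
-/

namespace Pool.Agent.H31.F4

open Pool.Agent.H33.EL (ip cc eps Rt ng zk ek fk LL hh e brf fmf br fm IsExt exl ex xr hd L0 GG T1 TT NN SF cj wt)

variable {K : Type} [Field K]

theorem inv_ad (H : HypW C6 K) {n : Submodule K (LL C6 K)} {b : Rt C6}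
    (hb : ∀ s : K, ∀ x ∈ n, xf b s x ∈ n) : ∀ x ∈ n, br (Df K b) x ∈ n := by
  intro x hx
  have h1 := n.sub_mem (hb 1 x hx) (hb (-1) x hx)
  rw [xf_apply H, xf_apply H] at h1
  have h2 := two_ne H
  have h3 : (2⁻¹ : K) • (x + (1 : K) • br (Df K b) x + (2⁻¹ * 1 ^ 2 : K) • br (Df K b) (br (Df K b) x) -
      (x + (-1 : K) • br (Df K b) x +
        (2⁻¹ * (-1) ^ 2 : K) • br (Df K b) (br (Df K b) x))) = br (Df K b) x := by
    match_scalars
    · ring
    · field_simp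
      ring
    · ring
  rw [← h3]
  exact n.smul_mem _ h1

theorem mu_le (H : HypW C6 K) {n : Submodule K (LL C6 K)} {b : Rt C6}
    (hb : ∀ s : K, ∀ x ∈ n, xf b s x ∈ n) {a c : Rt C6} (hc : c.1 = rfv b a) (ha : dg b a < 0) :
    mu n a ≤ mu n c := by
  obtain ⟨h1, h2⟩ := ad_inj H b a c ha hc
  have h3 := inv_ad H hb
  obtain ⟨M, hM⟩ : ∃ M : LL C6 K →ₗ[K] LL C6 K,
      ∀ x, M x = if dg b a = -1 then br (Df K b) x else br (Df K b) (br (Df K b) x) := by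
    by_cases hd : dg b a = -1
    · exact ⟨br (Df K b), fun x => by rw [if_pos hd]⟩
    · exact ⟨(br (Df K b)).comp (br (Df K b)), fun x => by rw [if_neg hd]; rfl⟩
  have h4 : ∀ x ∈ n, M x ∈ n := by
    intro x hx
    rw [hM]
    split_ifs
    · exact h3 x hx
    · exact h3 _ (h3 x hx)
  unfold mu
  have h5 : ∀ x ∈ (n ⊓ Submodule.span K {e K a, e K (sg a)} : Submodule K (LL C6 K)),
      M x ∈ (n ⊓ Submodule.span K {e K c, e K (sg c)} : Submodule K (LL C6 K)) := by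
    rintro x ⟨hx1, hx2⟩
    refine ⟨h4 x hx1, ?_⟩
    have h6 := h1 x hx2
    rw [← hM] at h6
    exact h6
  refine LinearMap.finrank_le_finrank_of_injective (f := M.restrict h5) ?_
  rw [← LinearMap.ker_eq_bot, LinearMap.ker_eq_bot']
  rintro ⟨x, hx1, hx2⟩ h7
  have h8 : M x = 0 := congrArg Subtype.val h7
  rw [hM] at h8
  exact Subtype.ext (h2 x hx2 h8)

/-! ### the reflection as a permutation -/

theorem Dn4_dg (H : HypW C6 K) (b a : Rt C6) : dg b (Fi4_rf H b a) = -dg b a := by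
  obtain ⟨h1, h2⟩ := Fi4_ip_rfv H b a
  have h3 : (Fi4_rf H b a).1 = rfv b a := rfl
  unfold dg cv
  split_ifs with hb
  · rw [h3, h1]
  · rw [ip_add_left, ip_add_left, h3, h1, h2]
    ring

theorem Dn4_rf_rf (H : HypW C6 K) (b a : Rt C6) : Fi4_rf H b (Fi4_rf H b a) = a := by
  obtain ⟨h1, h2⟩ := Fi4_ip_rfv H b a
  apply Subtype.ext
  show rfv b (Fi4_rf H b a) = a.1
  have h3 : (Fi4_rf H b a).1 = rfv b a := rfl
  have h4 : rfv b (Fi4_rf H b a) = if sg b = b then rfv b a - ip C6 b.1 (rfv b a) • b.1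
      else rfv b a - ip C6 b.1 (rfv b a) • b.1 - ip C6 (sg b).1 (rfv b a) • (sg b).1 := rfl
  rw [h4, h1, h2]
  unfold rfv
  split_ifs with hb
  · module
  · module

theorem Dn4_sg (H : HypW C6 K) (b a : Rt C6) : sg (Fi4_rf H b a) = Fi4_rf H b (sg a) :=
  Subtype.ext (Fi4_sv_rfv b a)

theorem Dn4_fix (H : HypW C6 K) (b a : Rt C6) :
    sg (Fi4_rf H b a) = Fi4_rf H b a ↔ sg a = a := by
  rw [Dn4_sg]
  constructor
  · intro h
    rw [← Dn4_rf_rf H b (sg a), h, Dn4_rf_rf]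
  · intro h
    rw [h]

/-- the multiplicity in `dn` -/
def Dn4_m (a : Rt C6) : ℤ := if sg a = a then 2 else 1

theorem Dn4_m_pos (a : Rt C6) : 0 < Dn4_m a := by
  unfold Dn4_m
  split_ifs <;> norm_num

theorem Dn4_m_rf (H : HypW C6 K) (b a : Rt C6) : Dn4_m (Fi4_rf H b a) = Dn4_m a := by
  unfold Dn4_m
  rw [if_congr (Dn4_fix H b a) rfl rfl]

theorem Dn4_sum (H : HypW C6 K) (n : Submodule K (LL C6 K)) (x : Fin 6 → ℤ) :
    ip C6 x (dn n) = ∑ a : Rt C6, Dn4_m a * (mu n a : ℤ) * ip C6 x a.1 := by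
  unfold dn
  rw [ip_comm H.symm, ip_sum_left]
  refine Finset.sum_congr rfl fun a _ => ?_
  rw [ip_smul_left, ip_comm H.symm a.1 x]
  rfl

theorem Dn4_two (H : HypW C6 K) (n : Submodule K (LL C6 K)) (b : Rt C6) :
    2 * ip C6 (cv b) (dn n) =
      ∑ a : Rt C6, Dn4_m a * dg b a * ((mu n a : ℤ) - (mu n (Fi4_rf H b a) : ℤ)) := by
  have h1 : ip C6 (cv b) (dn n) = ∑ a : Rt C6, Dn4_m a * dg b a * (mu n a : ℤ) := by
    rw [Dn4_sum H]
    refine Finset.sum_congr rfl fun a _ => ?_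
    show Dn4_m a * (mu n a : ℤ) * dg b a = _
    ring
  have h2 : ip C6 (cv b) (dn n) =
      ∑ a : Rt C6, Dn4_m a * (-dg b a) * (mu n (Fi4_rf H b a) : ℤ) := by
    have h3 : Function.Involutive (Fi4_rf H b) := Dn4_rf_rf H b
    rw [h1, ← Equiv.sum_comp h3.toPerm]
    refine Finset.sum_congr rfl fun a _ => ?_
    show Dn4_m (Fi4_rf H b a) * dg b (Fi4_rf H b a) * (mu n (Fi4_rf H b a) : ℤ) = _
    rw [Dn4_m_rf, Dn4_dg]
  rw [two_mul]
  have h4 : ip C6 (cv b) (dn n) + ip C6 (cv b) (dn n) =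
      (∑ a : Rt C6, Dn4_m a * dg b a * (mu n a : ℤ)) +
        ∑ a : Rt C6, Dn4_m a * (-dg b a) * (mu n (Fi4_rf H b a) : ℤ) := by
    rw [← h1, ← h2]
  rw [h4, ← Finset.sum_add_distrib]
  refine Finset.sum_congr rfl fun a _ => ?_
  ring

theorem Dn4_term (H : HypW C6 K) {n : Submodule K (LL C6 K)} {b : Rt C6}
    (hb : ∀ s : K, ∀ x ∈ n, xf b s x ∈ n) (a : Rt C6) :
    0 ≤ Dn4_m a * dg b a * ((mu n a : ℤ) - (mu n (Fi4_rf H b a) : ℤ)) := by
  rw [mul_assoc]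
  refine mul_nonneg (Dn4_m_pos a).le ?_
  rcases lt_trichotomy (dg b a) 0 with h | h | h
  · have h1 : mu n a ≤ mu n (Fi4_rf H b a) := mu_le H hb rfl h
    refine mul_nonneg_of_nonpos_of_nonpos h.le ?_
    have h2 : (mu n a : ℤ) ≤ (mu n (Fi4_rf H b a) : ℤ) := by exact_mod_cast h1
    linarith
  · rw [h, zero_mul]
  · have h1 : mu n (Fi4_rf H b a) ≤ mu n a := by
      refine mu_le H hb (congrArg Subtype.val (Dn4_rf_rf H b a)).symm ?_
      rw [Dn4_dg]
      omega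
    refine mul_nonneg h.le ?_
    have h2 : (mu n (Fi4_rf H b a) : ℤ) ≤ (mu n a : ℤ) := by exact_mod_cast h1
    linarith

theorem Dn4_cv (H : HypW C6 K) (n : Submodule K (LL C6 K)) (b : Rt C6) :
    ip C6 (cv b) (dn n) = ip C6 (dn n) b.1 ∨ ip C6 (cv b) (dn n) = 2 * ip C6 (dn n) b.1 := by
  unfold cv
  split_ifs with hb
  · left
    rw [ip_comm H.symm]
  · right
    have h1 : ip C6 (sg b).1 (dn n) = ip C6 b.1 (dn n) := by
      have h2 := ip_sv b.1 (dn n)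
      rw [sv_dn] at h2
      exact h2
    rw [ip_add_left, h1, ip_comm H.symm]
    ring

theorem dn_nonneg (H : HypW C6 K) {n : Submodule K (LL C6 K)} {b : Rt C6}
    (hb : ∀ s : K, ∀ x ∈ n, xf b s x ∈ n) : 0 ≤ ip C6 (dn n) b.1 := by
  have h1 : 0 ≤ 2 * ip C6 (cv b) (dn n) := by
    rw [Dn4_two H]
    exact Finset.sum_nonneg fun a _ => Dn4_term H hb a
  rcases Dn4_cv H n b with h2 | h2 <;> omega

theorem dn_pos (H : HypW C6 K) {n : Submodule K (LL C6 K)} {b : Rt C6}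
    (hb : ∀ s : K, ∀ x ∈ n, xf b s x ∈ n) {a c : Rt C6} (hc : c.1 = rfv b a) (ha : 0 < dg b a)
    (h : mu n c < mu n a) : 0 < ip C6 (dn n) b.1 := by
  have h1 : 0 < 2 * ip C6 (cv b) (dn n) := by
    rw [Dn4_two H]
    refine Finset.sum_pos' (fun a _ => Dn4_term H hb a) ⟨a, Finset.mem_univ a, ?_⟩
    have h3 : Fi4_rf H b a = c := Subtype.ext hc.symm
    have h4 : (mu n c : ℤ) < (mu n a : ℤ) := by exact_mod_cast h
    rw [h3]
    exact mul_pos (mul_pos (Dn4_m_pos a) ha) (by linarith)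
  rcases Dn4_cv H n b with h2 | h2 <;> omega

end Pool.Agent.H31.F4
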