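import Pool.Agent.H31.F4.Defs

/-!
# FF-01: the 72 roots of E_6 and the hypotheses

`ip C6 x x` in squares: completing the square (or `12 * ip C6 x x` as a sum of squares) gives
`pos` and bounds the coordinates of a root by 3 in absolute value.  Make a list `R6` of the
72 roots (36 positive ones and the negatives; simple root coordinates), prove completeness and then
`rt6`: every statement about all roots or all pairs of roots can be checked on the list.
For completeness: successive completion of squares, with the order of variables chosen so that the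
leaves are eliminated first:
`2 ip x x = (2 x4 - x2)^2 + (2 x5 - x3)^2 + (2 x1 - x0)^2 + …` :
`ip x x = 2(x0² + … + x5²) - 2(x0x1 + x0x2 + x0x3 + x2x4 + x3x5)`
`= (1/2)(2x1 - x0)² + (1/2)(2x4 - x2)² + (1/2)(2x5 - x3)² + (3/2) x2² + (3/2) x3² + (3/2) x0²
   - 2 x0 x2 - 2 x0 x3`,
`(3/2) x2² - 2 x0 x2 = (1/6)(3 x2 - 2 x0)² - (2/3) x0²` and the same for `x3`; remainder
`(3/2 - 4/3) x0² = (1/6) x0²`.  So
`6 ip x x = 3(2x1-x0)² + 3(2x4-x2)² + 3(2x5-x3)² + (3x2-2x0)² + (3x3-2x0)² + x0²`, `= 12` for a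
root: `|x0| ≤ 3`, `|3x2-2x0| ≤ 3`, etc.: a small finite search.
`one`, `ra`, `rb`: kernel computation on the list (for `ra`, `rb` a search for the witness for each
of the 72² pairs).
-/

namespace Pool.Agent.H31.F4

open Pool.Agent.H33.EL (ip cc eps Rt ng zk ek fk LL hh e brf fmf br fm IsExt exl ex xr hd L0 GG T1 TT NN SF cj wt)

/-- the 36 positive roots in simple root coordinates -/
def P6 : List (Fin 6 → ℤ) :=
  [![0, 0, 0, 0, 0, 1], ![0, 0, 0, 0, 1, 0], ![0, 0, 0, 1, 0, 0],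
    ![0, 0, 1, 0, 0, 0], ![0, 1, 0, 0, 0, 0], ![1, 0, 0, 0, 0, 0],
    ![0, 0, 0, 1, 0, 1], ![0, 0, 1, 0, 1, 0], ![1, 0, 0, 1, 0, 0],
    ![1, 0, 1, 0, 0, 0], ![1, 1, 0, 0, 0, 0], ![1, 0, 0, 1, 0, 1],
    ![1, 0, 1, 0, 1, 0], ![1, 0, 1, 1, 0, 0], ![1, 1, 0, 1, 0, 0],
    ![1, 1, 1, 0, 0, 0], ![1, 0, 1, 1, 0, 1], ![1, 0, 1, 1, 1, 0],
    ![1, 1, 0, 1, 0, 1], ![1, 1, 1, 0, 1, 0], ![1, 1, 1, 1, 0, 0],
    ![1, 0, 1, 1, 1, 1], ![1, 1, 1, 1, 0, 1], ![1, 1, 1, 1, 1, 0],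
    ![2, 1, 1, 1, 0, 0], ![1, 1, 1, 1, 1, 1], ![2, 1, 1, 1, 0, 1],
    ![2, 1, 1, 1, 1, 0], ![2, 1, 1, 1, 1, 1], ![2, 1, 1, 2, 0, 1],
    ![2, 1, 2, 1, 1, 0], ![2, 1, 1, 2, 1, 1], ![2, 1, 2, 1, 1, 1],
    ![2, 1, 2, 2, 1, 1], ![3, 1, 2, 2, 1, 1], ![3, 2, 2, 2, 1, 1]]

/-- tuples -/
abbrev EnumT := ℤ × ℤ × ℤ × ℤ × ℤ × ℤ

/-- the vector of a tuple -/
def EnumVec (t : EnumT) : Fin 6 → ℤ :=
  ![t.1, t.2.1, t.2.2.1, t.2.2.2.1, t.2.2.2.2.1, t.2.2.2.2.2]

/-- the tuple of a vector -/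
def EnumTup (x : Fin 6 → ℤ) : EnumT := (x 0, x 1, x 2, x 3, x 4, x 5)

theorem Enum_vec_tup (x : Fin 6 → ℤ) : EnumVec (EnumTup x) = x := by
  funext i
  fin_cases i <;> rfl

/-- the negative tuple -/
def EnumNeg : EnumT → EnumT
  | (a, b, c, d, e, f) => (-a, -b, -c, -d, -e, -f)

theorem Enum_vec_neg (t : EnumT) : EnumVec (EnumNeg t) = -EnumVec t := by
  funext i
  fin_cases i <;> rfl

/-- the image under the Cartan matrix -/
def EnumPre : EnumT → EnumT
  | (a, b, c, d, e, f) => (2 * a - b - c - d, 2 * b - a, 2 * c - a - e, 2 * d - a - f,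
      2 * e - c, 2 * f - d)

/-- the standard product -/
def EnumDot : EnumT → EnumT → ℤ
  | (a, b, c, d, e, f), (a', b', c', d', e', f') =>
    a * a' + b * b' + c * c' + d * d' + e * e' + f * f'

theorem Enum_ip (x y : Fin 6 → ℤ) :
    ip C6 x y = EnumDot (EnumTup x) (EnumPre (EnumTup y)) := by
  simp only [ip, EnumDot, EnumPre, EnumTup, C6, Fin.sum_univ_succ]
  simp
  ring

/-- the positive roots as tuples -/
def EnumP : List EnumT :=
  [(0, 0, 0, 0, 0, 1), (0, 0, 0, 0, 1, 0), (0, 0, 0, 1, 0, 0), (0, 0, 1, 0, 0, 0),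
    (0, 1, 0, 0, 0, 0), (1, 0, 0, 0, 0, 0), (0, 0, 0, 1, 0, 1), (0, 0, 1, 0, 1, 0),
    (1, 0, 0, 1, 0, 0), (1, 0, 1, 0, 0, 0), (1, 1, 0, 0, 0, 0), (1, 0, 0, 1, 0, 1),
    (1, 0, 1, 0, 1, 0), (1, 0, 1, 1, 0, 0), (1, 1, 0, 1, 0, 0), (1, 1, 1, 0, 0, 0),
    (1, 0, 1, 1, 0, 1), (1, 0, 1, 1, 1, 0), (1, 1, 0, 1, 0, 1), (1, 1, 1, 0, 1, 0),
    (1, 1, 1, 1, 0, 0), (1, 0, 1, 1, 1, 1), (1, 1, 1, 1, 0, 1), (1, 1, 1, 1, 1, 0),
    (2, 1, 1, 1, 0, 0), (1, 1, 1, 1, 1, 1), (2, 1, 1, 1, 0, 1), (2, 1, 1, 1, 1, 0),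
    (2, 1, 1, 1, 1, 1), (2, 1, 1, 2, 0, 1), (2, 1, 2, 1, 1, 0), (2, 1, 1, 2, 1, 1),
    (2, 1, 2, 1, 1, 1), (2, 1, 2, 2, 1, 1), (3, 1, 2, 2, 1, 1), (3, 2, 2, 2, 1, 1)]

/-- the roots as tuples -/
def EnumL : List EnumT := EnumP ++ EnumP.map EnumNeg

theorem Enum_P6 : EnumP.map EnumVec = P6 := rfl

theorem Enum_two : (EnumL.all fun t => EnumDot t (EnumPre t) == 2) = true := by
  decide +kernel

/-- check for the rule `ra` -/
def EnumRa (L : List EnumT) : Bool :=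
  L.all fun a => let a' := EnumPre a; L.all fun b => let b' := EnumPre b
    let k := EnumDot a b'
    !(k == 0 || k == 1 || k == -1) || L.any fun y => EnumDot y a' == 1 && EnumDot y b' == 0

/-- check for the rule `rb` -/
def EnumRb (L : List EnumT) : Bool :=
  L.all fun a => let a' := EnumPre a; L.all fun b => let b' := EnumPre b
    let k := EnumDot a b'
    !(k == 0) || L.any fun y => EnumDot y a' == 1 && EnumDot y b' == -1

/-- check for the rule `one` -/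
def EnumOne (L : List EnumT) : Bool :=
  L.all fun a => let a' := EnumPre a; L.any fun y => EnumDot y a' == 1

theorem Enum_ra : EnumRa EnumL = true := by
  decide +kernel

theorem Enum_rb : EnumRb EnumL = true := by
  decide +kernel

theorem Enum_one : EnumOne EnumL = true := by
  decide +kernel

/-- completeness check -/
def EnumCmp : Bool :=
  ([-3, -2, -1, 0, 1, 2, 3] : List ℤ).all fun a =>
  ([-3, -2, -1, 0, 1, 2, 3] : List ℤ).all fun c =>
    !(decide (-3 ≤ 3 * c - 2 * a) && decide (3 * c - 2 * a ≤ 3)) ||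
  ([-3, -2, -1, 0, 1, 2, 3] : List ℤ).all fun d =>
    !(decide (-3 ≤ 3 * d - 2 * a) && decide (3 * d - 2 * a ≤ 3)) ||
  ([-2, -1, 0, 1, 2] : List ℤ).all fun b =>
  ([-2, -1, 0, 1, 2] : List ℤ).all fun e => ([-2, -1, 0, 1, 2] : List ℤ).all fun f =>
    !(EnumDot (a, b, c, d, e, f) (EnumPre (a, b, c, d, e, f)) == 2) ||
      EnumL.contains (a, b, c, d, e, f)

theorem Enum_cmp : EnumCmp = true := by
  decide +kernel

theorem Enum_mem5 {y : ℤ} (h1 : -2 ≤ y) (h2 : y ≤ 2) : y ∈ ([-2, -1, 0, 1, 2] : List ℤ) := by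
  have : y = -2 ∨ y = -1 ∨ y = 0 ∨ y = 1 ∨ y = 2 := by omega
  simpa using this

theorem Enum_mem7 {y : ℤ} (h1 : -3 ≤ y) (h2 : y ≤ 3) :
    y ∈ ([-3, -2, -1, 0, 1, 2, 3] : List ℤ) := by
  have : y = -3 ∨ y = -2 ∨ y = -1 ∨ y = 0 ∨ y = 1 ∨ y = 2 ∨ y = 3 := by omega
  simpa using this

theorem Enum_bd {y s k N : ℤ} (hk : 0 ≤ k) (h : y * y + s = N) (hs : 0 ≤ s)
    (hN : N < (k + 1) * (k + 1)) : -k ≤ y ∧ y ≤ k := by
  constructor
  · by_contra hc
    push Not at hc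
    nlinarith
  · by_contra hc
    push Not at hc
    nlinarith

theorem Enum_mem (x : Fin 6 → ℤ) (h : ip C6 x x = 2) : EnumTup x ∈ EnumL := by
  rw [Enum_ip] at h
  generalize EnumTup x = t0 at *
  obtain ⟨a, b, c, d, e, f⟩ := t0
  have h' := h
  simp only [EnumDot, EnumPre] at h
  have hq : 3 * ((2 * b - a) * (2 * b - a)) + 3 * ((2 * e - c) * (2 * e - c)) +
      3 * ((2 * f - d) * (2 * f - d)) + (3 * c - 2 * a) * (3 * c - 2 * a) +
      (3 * d - 2 * a) * (3 * d - 2 * a) + a * a = 12 := by linear_combination 6 * h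
  have n1 := mul_self_nonneg (2 * b - a)
  have n2 := mul_self_nonneg (2 * e - c)
  have n3 := mul_self_nonneg (2 * f - d)
  have n4 := mul_self_nonneg (3 * c - 2 * a)
  have n5 := mul_self_nonneg (3 * d - 2 * a)
  have n6 := mul_self_nonneg a
  have b1 : -2 ≤ 2 * b - a ∧ 2 * b - a ≤ 2 :=
    Enum_bd (N := 4) (s := 4 - (2 * b - a) * (2 * b - a)) (by norm_num) (by ring) (by linarith)
      (by norm_num)
  have b2 : -2 ≤ 2 * e - c ∧ 2 * e - c ≤ 2 :=
    Enum_bd (N := 4) (s := 4 - (2 * e - c) * (2 * e - c)) (by norm_num) (by ring) (by linarith)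
      (by norm_num)
  have b3 : -2 ≤ 2 * f - d ∧ 2 * f - d ≤ 2 :=
    Enum_bd (N := 4) (s := 4 - (2 * f - d) * (2 * f - d)) (by norm_num) (by ring) (by linarith)
      (by norm_num)
  have b4 : -3 ≤ 3 * c - 2 * a ∧ 3 * c - 2 * a ≤ 3 :=
    Enum_bd (N := 12) (s := 12 - (3 * c - 2 * a) * (3 * c - 2 * a)) (by norm_num) (by ring)
      (by linarith) (by norm_num)
  have b5 : -3 ≤ 3 * d - 2 * a ∧ 3 * d - 2 * a ≤ 3 :=
    Enum_bd (N := 12) (s := 12 - (3 * d - 2 * a) * (3 * d - 2 * a)) (by norm_num) (by ring)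
      (by linarith) (by norm_num)
  have b6 : -3 ≤ a ∧ a ≤ 3 :=
    Enum_bd (N := 12) (s := 12 - a * a) (by norm_num) (by ring) (by linarith) (by norm_num)
  have hc := Enum_cmp
  unfold EnumCmp at hc
  have hc1 := List.all_eq_true.1 hc a (Enum_mem7 b6.1 b6.2)
  have hc2 := List.all_eq_true.1 hc1 c (Enum_mem7 (by omega) (by omega))
  rw [decide_eq_true b4.1, decide_eq_true b4.2] at hc2
  have hc3 := List.all_eq_true.1 hc2 d (Enum_mem7 (by omega) (by omega))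
  rw [decide_eq_true b5.1, decide_eq_true b5.2] at hc3
  have hc4 := List.all_eq_true.1 hc3 b (Enum_mem5 (by omega) (by omega))
  have hc5 := List.all_eq_true.1 hc4 e (Enum_mem5 (by omega) (by omega))
  have hc6 := List.all_eq_true.1 hc5 f (Enum_mem5 (by omega) (by omega))
  rw [h'] at hc6
  simpa using hc6

theorem Enum_of_mem {t : EnumT} (ht : t ∈ EnumL) : ip C6 (EnumVec t) (EnumVec t) = 2 := by
  rw [Enum_ip]
  have h := List.all_eq_true.1 Enum_two t ht
  have h2 : EnumTup (EnumVec t) = t := rfl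
  rw [h2]
  simpa using h

theorem P6_complete (a : Rt C6) : a.1 ∈ P6 ∨ -a.1 ∈ P6 := by
  have h := Enum_mem a.1 a.2
  rw [EnumL, List.mem_append] at h
  rcases h with h | h
  · left
    rw [← Enum_P6, ← Enum_vec_tup a.1]
    exact List.mem_map_of_mem h
  · right
    obtain ⟨t, ht, h1⟩ := List.mem_map.1 h
    have h2 : -a.1 = EnumVec t := by
      rw [← Enum_vec_tup a.1, ← h1, Enum_vec_neg, neg_neg]
    rw [← Enum_P6, h2]
    exact List.mem_map_of_mem ht

theorem finite_R6 : Finite (Rt C6) := by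
  have h : Function.Injective (fun a : Rt C6 =>
      (⟨EnumTup a.1, by
        rw [List.mem_toFinset]
        exact Enum_mem a.1 a.2⟩ : {t : EnumT // t ∈ EnumL.toFinset})) := by
    intro a b hab
    have h1 : EnumTup a.1 = EnumTup b.1 := congrArg Subtype.val hab
    apply Subtype.ext
    rw [← Enum_vec_tup a.1, h1, Enum_vec_tup]
  exact Finite.of_injective _ h

noncomputable instance instFintypeR6 : Fintype (Rt C6) :=
  haveI := finite_R6
  Fintype.ofFinite _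

theorem Enum_exists {t : EnumT} (ht : t ∈ EnumL) (a : Rt C6) {k : ℤ}
    (h : EnumDot t (EnumPre (EnumTup a.1)) = k) :
    ip C6 (⟨EnumVec t, Enum_of_mem ht⟩ : Rt C6).1 a.1 = k := by
  rw [Enum_ip]
  exact h

theorem hypW6 (K : Type) [Field K] (hK : Nat.card K = 7 ∨ Nat.card K = 9 ∨ Nat.card K = 11) :
    HypW C6 K := by
  refine ⟨?_, ?_, ?_, ?_, ?_, ?_, hK⟩
  · intro i j
    fin_cases i <;> fin_cases j <;> rfl
  · intro i
    fin_cases i <;> rfl
  · intro x hx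
    rw [Enum_ip]
    have hx' : EnumTup x ≠ (0, 0, 0, 0, 0, 0) := by
      intro h
      apply hx
      rw [← Enum_vec_tup x, h]
      funext i
      fin_cases i <;> rfl
    generalize EnumTup x = t0 at *
    obtain ⟨a, b, c, d, e, f⟩ := t0
    simp only [EnumDot, EnumPre]
    by_contra hcon
    push Not at hcon
    have hq : 3 * (2 * b - a) ^ 2 + 3 * (2 * e - c) ^ 2 + 3 * (2 * f - d) ^ 2 +
      (3 * c - 2 * a) ^ 2 + (3 * d - 2 * a) ^ 2 + a ^ 2 ≤ 0 := by linarith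
    have s1 := sq_nonneg (2 * b - a)
    have s2 := sq_nonneg (2 * e - c)
    have s3 := sq_nonneg (2 * f - d)
    have s4 := sq_nonneg (3 * c - 2 * a)
    have s5 := sq_nonneg (3 * d - 2 * a)
    have s6 := sq_nonneg a
    have z6 : a ^ 2 = 0 := by linarith
    have z1 : (2 * b - a) ^ 2 = 0 := by linarith
    have z2 : (2 * e - c) ^ 2 = 0 := by linarith
    have z3 : (2 * f - d) ^ 2 = 0 := by linarith
    have z4 : (3 * c - 2 * a) ^ 2 = 0 := by linarith
    have z5 : (3 * d - 2 * a) ^ 2 = 0 := by linarith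
    have w0 : a = 0 := (pow_eq_zero_iff (two_ne_zero)).1 z6
    have w1 := pow_eq_zero_iff (two_ne_zero) |>.1 z1
    have w2 := pow_eq_zero_iff (two_ne_zero) |>.1 z2
    have w3 := pow_eq_zero_iff (two_ne_zero) |>.1 z3
    have w4 := pow_eq_zero_iff (two_ne_zero) |>.1 z4
    have w5 := pow_eq_zero_iff (two_ne_zero) |>.1 z5
    apply hx'
    have e1 : b = 0 := by omega
    have e2 : c = 0 := by omega
    have e3 : d = 0 := by omega
    have e4 : e = 0 := by omega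
    have e5 : f = 0 := by omega
    rw [w0, e1, e2, e3, e4, e5]
  · intro a
    have h1 := List.all_eq_true.1 Enum_one (EnumTup a.1) (Enum_mem a.1 a.2)
    obtain ⟨t, ht, h4⟩ := List.any_eq_true.1 h1
    simp only [beq_iff_eq] at h4
    exact ⟨⟨EnumVec t, Enum_of_mem ht⟩, Enum_exists ht a h4⟩
  · intro a b hab
    have h1 := List.all_eq_true.1 Enum_ra (EnumTup a.1) (Enum_mem a.1 a.2)
    have h2 := List.all_eq_true.1 h1 (EnumTup b.1) (Enum_mem b.1 b.2)
    rw [Enum_ip] at hab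
    have h3 : EnumL.any (fun y => EnumDot y (EnumPre (EnumTup a.1)) == 1 &&
        EnumDot y (EnumPre (EnumTup b.1)) == 0) = true := by
      rcases hab with h | h | h <;> · simp only [h] at h2; simpa using h2
    obtain ⟨t, ht, h4⟩ := List.any_eq_true.1 h3
    simp only [Bool.and_eq_true, beq_iff_eq] at h4
    exact ⟨⟨EnumVec t, Enum_of_mem ht⟩, Enum_exists ht a h4.1, Enum_exists ht b h4.2⟩
  · intro a b hab
    have h1 := List.all_eq_true.1 Enum_rb (EnumTup a.1) (Enum_mem a.1 a.2)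
    have h2 := List.all_eq_true.1 h1 (EnumTup b.1) (Enum_mem b.1 b.2)
    rw [Enum_ip] at hab
    have h3 : EnumL.any (fun y => EnumDot y (EnumPre (EnumTup a.1)) == 1 &&
        EnumDot y (EnumPre (EnumTup b.1)) == -1) = true := by
      simp only [hab] at h2
      simpa using h2
    obtain ⟨t, ht, h4⟩ := List.any_eq_true.1 h3
    simp only [Bool.and_eq_true, beq_iff_eq] at h4
    exact ⟨⟨EnumVec t, Enum_of_mem ht⟩, Enum_exists ht a h4.1, Enum_exists ht b h4.2⟩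

end Pool.Agent.H31.F4
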