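import Pool.Agent.H31.F4.Min4

/-!
# FF-23: the dimension inequality (compare EL/CAc.lean)

`filt_dim_abs`: by downward induction on `m` (from `F m = ⊥`): `finrank (A ⊓ F m) ≤ finrank (C ⊓ F m)`.
`finrank (A ⊓ F m) = finrank (A ⊓ F (m+1)) + finrank (image of A ⊓ F m in V ⧸ F (m+1))` (rank-nullity
for the restriction of `mkQ` to `A ⊓ F m`), the same for `C`, and by `h` the image of `A ⊓ F m` is
contained in the image of `C ⊓ F m`.

`tri_dim4`: apply it to `F m = Wl K l m`, `A = n ⊓ (Fil …).map r`, `C = n ⊓ Fil …`.  Let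
`x ∈ A ⊓ Wl l m`, `x = r b`, `b ∈ Fil (cv c) i`.  `Gn_pos`: `b ∈ Wl l m`, `x - b ∈ Wl l (m+1)`.
If `m + 1 = l d` for a root `d`: `y` = component of `x` at `d`, `sg d` (= the component of `b`, since
`x - b ∈ Wl l (m+1)` has zero coordinates there): in `n` by `comp4`, in `Fil (cv c) i` since `b` is
(and `dg c (sg d) = dg c d`).  If `m + 1 = 0`: `y = hh x.1` (`= hh b.1`).  Otherwise `y = 0`.
`x - y ∈ Wl l (m+1)`: `Inj4`: the only roots with `l`-value `m+1` are `d`, `sg d`.
The functional is bounded on the finitely many roots, so `Wl l m = ⊤` for `m` very negative and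
`⊥` for `m` large.

`cnt4`: for a `T4`-invariant `n`: `n = (n ⊓ L0) ⊕ ⨁ (n ⊓ span{e a, e (sg a)})` over the orbits `{a, sg a}`
(`comp4`), so `finrank n = finrank (n ⊓ L0) + ∑_a mult(a)/2 * mu n a` over all 72 roots, where
`mult = 2` (long) or `1` (short).  The same for `n ⊓ Fil (cv c) i`, which is `T4`-invariant
(`T4 ≤ TT ≤ Par`): its part at `a` is the part of `n` if `i ≤ dg c a` and zero otherwise, its toral
part is that of `n` if `i ≤ 0` and zero otherwise.  Sum over `i = -1, 0, 1, 2`: the number of these `i`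
with `i ≤ dg c a` is `dg c a + 2` (`dg_range`).  Total:
`∑_i finrank (n ⊓ Fil i) = 2 finrank (n ⊓ L0) + ∑_a (mult(a)/2) mu(a) (dg c a + 2)
  = 2 finrank n + (1/2) ∑_a mult(a) mu(a) dg c a = 2 finrank n + (1/2) ip (cv c) (dn n)`.
-/

namespace Pool.Agent.H31.F4

open Pool.Agent.H33.EL (ip cc eps Rt ng zk ek fk LL hh e brf fmf br fm IsExt exl ex xr hd L0 GG T1 TT NN SF cj wt)

variable {K : Type} [Field K]

/-- rank-nullity for a submodule -/
private theorem FD_rank {V W : Type*} [AddCommGroup V] [Module K V] [FiniteDimensional K V]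
    [AddCommGroup W] [Module K W] (f : V →ₗ[K] W) (P : Submodule K V) :
    Module.finrank K (P.map f) + Module.finrank K (P ⊓ LinearMap.ker f : Submodule K V) =
      Module.finrank K P := by
  have h1 := LinearMap.finrank_range_add_finrank_ker (f.domRestrict P)
  rw [LinearMap.range_domRestrict, LinearMap.ker_domRestrict] at h1
  rw [← h1]
  congr 1
  have h2 : (LinearMap.ker f).comap P.subtype = (P ⊓ LinearMap.ker f).comap P.subtype := by
    ext x
    simp
  rw [h2]
  exact (LinearEquiv.finrank_eq (Submodule.comapSubtypeEquivOfLe inf_le_left)).symm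

theorem filt_dim_abs {V : Type*} [AddCommGroup V] [Module K V] [FiniteDimensional K V]
    (F : ℤ → Submodule K V) (hlo : ∃ m, F m = ⊤) (hhi : ∃ m, F m = ⊥)
    (hanti : ∀ m, F (m + 1) ≤ F m) (A C : Submodule K V)
    (h : ∀ m, ∀ x ∈ A ⊓ F m, ∃ y ∈ C ⊓ F m, x - y ∈ F (m + 1)) :
    Module.finrank K A ≤ Module.finrank K C := by
  obtain ⟨m0, hm0⟩ := hlo
  obtain ⟨m1, hm1⟩ := hhi
  have step : ∀ m : ℤ, Module.finrank K (A ⊓ F (m + 1) : Submodule K V) ≤
      Module.finrank K (C ⊓ F (m + 1) : Submodule K V) →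
      Module.finrank K (A ⊓ F m : Submodule K V) ≤ Module.finrank K (C ⊓ F m : Submodule K V) := by
    intro m hm
    have hA := FD_rank (F (m + 1)).mkQ (A ⊓ F m)
    have hC := FD_rank (F (m + 1)).mkQ (C ⊓ F m)
    rw [Submodule.ker_mkQ, inf_assoc, inf_eq_right.2 (hanti m)] at hA hC
    have hle : (A ⊓ F m).map (F (m + 1)).mkQ ≤ (C ⊓ F m).map (F (m + 1)).mkQ := by
      rintro _ ⟨x, hx, rfl⟩
      obtain ⟨y, hy, hxy⟩ := h m x hx
      refine ⟨y, hy, ?_⟩
      rw [← sub_eq_zero, ← map_sub, ← LinearMap.mem_ker, Submodule.ker_mkQ]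
      have h1 : y - x = -(x - y) := by abel
      rw [h1]
      exact neg_mem hxy
    have h2 := Submodule.finrank_mono hle
    omega
  have hall : ∀ k : ℕ, Module.finrank K (A ⊓ F (m1 - k) : Submodule K V) ≤
      Module.finrank K (C ⊓ F (m1 - k) : Submodule K V) := by
    intro k
    induction k with
    | zero =>
      have h1 : m1 - ((0 : ℕ) : ℤ) = m1 := by simp
      rw [h1, hm1, inf_bot_eq, inf_bot_eq]
    | succ k ih =>
      apply step
      have h1 : m1 - ((k + 1 : ℕ) : ℤ) + 1 = m1 - k := by
        push_cast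
        ring
      rw [h1]
      exact ih
  have htop : ∀ k : ℕ, F (m0 - k) = ⊤ := by
    intro k
    induction k with
    | zero =>
      have h1 : m0 - ((0 : ℕ) : ℤ) = m0 := by simp
      rw [h1, hm0]
    | succ k ih =>
      have h1 : m0 - ((k + 1 : ℕ) : ℤ) + 1 = m0 - k := by
        push_cast
        ring
      have h2 := hanti (m0 - ((k + 1 : ℕ) : ℤ))
      rw [h1, ih] at h2
      exact top_le_iff.1 h2
  have h1 := hall ((m1 - m0).toNat + (m0 - m1).toNat)
  have h2 := htop (((m1 - m0).toNat + (m0 - m1).toNat) - (m1 - m0).toNat + (m0 - m1).toNat)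
  have h3 := htop ((m0 - m1 + ((m1 - m0).toNat + (m0 - m1).toNat)).toNat)
  have h4 : m0 - (((m0 - m1 + ((m1 - m0).toNat + (m0 - m1).toNat)).toNat : ℕ) : ℤ) =
      m1 - ((((m1 - m0).toNat + (m0 - m1).toNat) : ℕ) : ℤ) := by
    push_cast
    omega
  rw [h4] at h3
  rw [h3, inf_top_eq, inf_top_eq] at h1
  exact h1

/-- a bound for a functional on the roots -/
private theorem FD_bound [Fintype (Rt C6)] (l : (Fin 6 → ℤ) →+ ℤ) :
    ∃ M : ℕ, ∀ a : Rt C6, -(M : ℤ) < l a.1 ∧ l a.1 < M := by
  have h1 : ∀ a : Rt C6, (l a.1).natAbs ≤ ∑ a : Rt C6, (l a.1).natAbs := fun a =>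
    Finset.single_le_sum (f := fun a : Rt C6 => (l a.1).natAbs)
      (fun _ _ => Nat.zero_le _) (Finset.mem_univ a)
  generalize (∑ a : Rt C6, (l a.1).natAbs) = S at h1
  refine ⟨S + 1, fun a => ?_⟩
  have h2 := h1 a
  omega

theorem tri_dim4 (H : HypW C6 K) (n : Submodule K (LL C6 K))
    (hn : ∀ t ∈ T4 K, ∀ x ∈ n, t x ∈ n) (c : Rt C6) (i : ℤ) {l : (Fin 6 → ℤ) →+ ℤ} (hl : Inj4 l)
    {r : LL C6 K ≃ₗ[K] LL C6 K} (hr : r ∈ Gn K {y | 0 < l y.1}) :
    Module.finrank K (n ⊓ (Fil C6 K (cv c) i).map (r : LL C6 K →ₗ[K] LL C6 K) :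
      Submodule K (LL C6 K)) ≤ Module.finrank K (n ⊓ Fil C6 K (cv c) i : Submodule K (LL C6 K)) := by
  obtain ⟨M, hM⟩ := FD_bound l
  obtain ⟨g1, g2, -, -⟩ := Gn_pos H l hl.1 hr
  refine filt_dim_abs (fun m => Wl K l m) ⟨-(M : ℤ) - 1, ?_⟩ ⟨(M : ℤ), ?_⟩ ?_ _ _ ?_
  · rw [eq_top_iff]
    rintro x -
    refine ⟨fun b hb => ?_, fun h => ?_⟩
    · have := (hM b).1
      omega
    · omega
  · rw [eq_bot_iff]
    rintro x ⟨h1, h2⟩
    rw [Submodule.mem_bot]
    refine Prod.ext (h2 (by omega)) (funext fun b => h1 b ?_)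
    have := (hM b).2
    omega
  · intro m x hx
    exact Lpos_anti (by omega) hx
  · rintro m x ⟨⟨hxn, ⟨b, hb, hbx⟩⟩, hxW⟩
    have hbx' : r b = x := hbx
    have hbW : b ∈ Wl K l m := by
      rw [← g1, hbx']
      exact hxW
    have hd := g2 m b hbW
    rw [hbx'] at hd
    obtain ⟨k1, k2⟩ := comp4 H n hn hxn
    by_cases hex : ∃ d : Rt C6, l d.1 = m + 1
    · obtain ⟨d, hdl⟩ := hex
      have hsd : l (sg d).1 = m + 1 := (hl.1 d.1).trans hdl
      have hco : ∀ f : Rt C6, l f.1 = m + 1 → x.2 f = b.2 f := fun f hf =>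
        sub_eq_zero.1 (hd.1 f hf.le)
      set y : LL C6 K := if sg d = d then x.2 d • e K d else
        x.2 d • e K d + x.2 (sg d) • e K (sg d) with hy
      have hy1 : y.1 = 0 := by
        rw [hy]
        split_ifs
        · show x.2 d • (e K d).1 = 0
          rw [e_fst, smul_zero]
        · show x.2 d • (e K d).1 + x.2 (sg d) • (e K (sg d)).1 = 0
          rw [e_fst, e_fst, smul_zero, smul_zero, add_zero]
      have hy2 : ∀ f, f ≠ d → f ≠ sg d → y.2 f = 0 := by
        intro f h1 h2
        rw [hy]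
        split_ifs
        · show x.2 d * (e K d).2 f = 0
          rw [e_snd_ne h1, mul_zero]
        · show x.2 d * (e K d).2 f + x.2 (sg d) * (e K (sg d)).2 f = 0
          rw [e_snd_ne h1, e_snd_ne h2, mul_zero, mul_zero, add_zero]
      have hy3 : y.2 d = x.2 d := by
        rw [hy]
        split_ifs with h
        · show x.2 d * (e K d).2 d = x.2 d
          rw [e_snd_self, mul_one]
        · show x.2 d * (e K d).2 d + x.2 (sg d) * (e K (sg d)).2 d = x.2 d
          rw [e_snd_self, e_snd_ne (Ne.symm h), mul_one, mul_zero, add_zero]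
      have hy4 : y.2 (sg d) = x.2 (sg d) := by
        by_cases h : sg d = d
        · rw [h]
          exact hy3
        · rw [hy, if_neg h]
          show x.2 d * (e K d).2 (sg d) + x.2 (sg d) * (e K (sg d)).2 (sg d) = x.2 (sg d)
          rw [e_snd_self, e_snd_ne h, mul_one, mul_zero, zero_add]
      have hyf : ∀ f, y.2 f ≠ 0 → l f.1 = m + 1 ∧ y.2 f = x.2 f := by
        intro f hf
        by_cases h1 : f = d
        · rw [h1]
          exact ⟨hdl, hy3⟩
        · by_cases h2 : f = sg d
          · rw [h2]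
            exact ⟨hsd, hy4⟩
          · exact absurd (hy2 f h1 h2) hf
      refine ⟨y, ⟨⟨k2 d, ?_⟩, ?_⟩, ?_⟩
      · refine ⟨fun f hf => ?_, fun _ => hy1⟩
        by_contra h0
        obtain ⟨h1, h2⟩ := hyf f h0
        rw [h2, hco f h1, hb.1 f hf] at h0
        exact h0 rfl
      · refine ⟨fun f hf => ?_, fun _ => hy1⟩
        by_contra h0
        have := (hyf f h0).1
        omega
      · refine ⟨fun f hf => ?_, fun h0 => ?_⟩
        · show x.2 f - y.2 f = 0
          by_cases h1 : l f.1 = m + 1
          · rcases hl.2.2 d f (hdl.trans h1.symm) with h2 | h2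
            · rw [h2, hy3, sub_self]
            · rw [h2, hy4, sub_self]
          · have h2 : x.2 f = 0 := hxW.1 f (by omega)
            have h3 : y.2 f = 0 := by
              by_contra h4
              exact h1 (hyf f h4).1
            rw [h2, h3, sub_self]
        · show x.1 - y.1 = 0
          have h1 := hl.2.1 d
          rw [hy1, hxW.2 (by omega), sub_self]
    · have hnex : ∀ f : Rt C6, l f.1 ≠ m + 1 := fun f hf => hex ⟨f, hf⟩
      by_cases hm : m + 1 = 0
      · refine ⟨hh C6 x.1, ⟨⟨k1, ?_⟩, ?_⟩, ?_⟩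
        · refine ⟨fun _ _ => rfl, fun hi => ?_⟩
          show x.1 = 0
          have h1 : x.1 - b.1 = 0 := hd.2 (by omega)
          rw [hb.2 hi, sub_zero] at h1
          exact h1
        · exact ⟨fun _ _ => rfl, fun h0 => by omega⟩
        · refine ⟨fun f hf => ?_, fun _ => ?_⟩
          · show x.2 f - (hh C6 x.1).2 f = 0
            have h1 := hnex f
            rw [hh_snd, sub_zero]
            exact hxW.1 f (by omega)
          · show x.1 - x.1 = 0
            exact sub_self _
      · refine ⟨0, zero_mem _, ?_⟩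
        rw [sub_zero]
        refine ⟨fun f hf => ?_, fun h0 => ?_⟩
        · have h1 := hnex f
          exact hxW.1 f (by omega)
        · exact hxW.2 (by omega)

/-! ### the count -/

/-- the orbits -/
private def FD_S : Setoid (Rt C6) where
  r := Eq4
  iseqv :=
    { refl := fun a => Or.inl rfl
      symm := fun h => Eq4_symm h
      trans := by
        rintro a b c (h | h) (h' | h')
        · exact Or.inl (by rw [h', h])
        · exact Or.inr (by rw [h', h])
        · exact Or.inr (by rw [h', h])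
        · exact Or.inl (by rw [h', h, sg_sg]) }

private def FD_q (a : Rt C6) : Quotient FD_S := Quotient.mk FD_S a

private theorem FD_q_eq (a b : Rt C6) : FD_q b = FD_q a ↔ b = a ∨ b = sg a := by
  unfold FD_q
  rw [Quotient.eq]
  constructor
  · intro h
    exact FD_S.symm h
  · intro h
    exact FD_S.symm h

/-- the blocks -/
private def FD_B (K : Type) [Field K] (j : Option (Quotient FD_S)) : Submodule K (LL C6 K) where
  carrier := {x | (j ≠ none → x.1 = 0) ∧ ∀ f : Rt C6, some (FD_q f) ≠ j → x.2 f = 0}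
  add_mem' := by
    rintro x y ⟨h1, h2⟩ ⟨h3, h4⟩
    exact ⟨fun h => by simp [h1 h, h3 h], fun f hf => by simp [h2 f hf, h4 f hf]⟩
  zero_mem' := ⟨fun _ => rfl, fun _ _ => rfl⟩
  smul_mem' := by
    rintro c x ⟨h1, h2⟩
    exact ⟨fun h => by simp [h1 h], fun f hf => by simp [h2 f hf]⟩

open Classical in
/-- the projections -/
private noncomputable def FD_P (K : Type) [Field K] (j : Option (Quotient FD_S)) :
    LL C6 K →ₗ[K] LL C6 K where
  toFun x := (if j = none then x.1 else 0, fun f => if some (FD_q f) = j then x.2 f else 0)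
  map_add' x y := by
    refine Prod.ext ?_ (funext fun f => ?_)
    · show (if j = none then x.1 + y.1 else 0) = (if j = none then x.1 else 0) +
        (if j = none then y.1 else 0)
      split_ifs <;> simp
    · show (if some (FD_q f) = j then x.2 f + y.2 f else 0) =
        (if some (FD_q f) = j then x.2 f else 0) + (if some (FD_q f) = j then y.2 f else 0)
      split_ifs <;> simp
  map_smul' c x := by
    refine Prod.ext ?_ (funext fun f => ?_)
    · show (if j = none then c • x.1 else 0) = c • (if j = none then x.1 else 0)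
      split_ifs <;> simp
    · show (if some (FD_q f) = j then c * x.2 f else 0) =
        c * (if some (FD_q f) = j then x.2 f else 0)
      split_ifs <;> simp

open Classical in
private theorem FD_P_fst (j : Option (Quotient FD_S)) (x : LL C6 K) :
    (FD_P K j x).1 = if j = none then x.1 else 0 := rfl

open Classical in
private theorem FD_P_snd (j : Option (Quotient FD_S)) (x : LL C6 K) (f : Rt C6) :
    (FD_P K j x).2 f = if some (FD_q f) = j then x.2 f else 0 := rfl

private theorem FD_P_mem (j : Option (Quotient FD_S)) (x : LL C6 K) : FD_P K j x ∈ FD_B K j := by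
  classical
  refine ⟨fun h => ?_, fun f hf => ?_⟩
  · rw [FD_P_fst, if_neg h]
  · rw [FD_P_snd, if_neg hf]

private theorem FD_P_self {j : Option (Quotient FD_S)} {x : LL C6 K} (hx : x ∈ FD_B K j) :
    FD_P K j x = x := by
  classical
  refine Prod.ext ?_ (funext fun f => ?_)
  · rw [FD_P_fst]
    split_ifs with h
    · rfl
    · exact (hx.1 h).symm
  · rw [FD_P_snd]
    split_ifs with h
    · rfl
    · exact (hx.2 f h).symm

private theorem FD_P_ne {j k : Option (Quotient FD_S)} (hjk : j ≠ k) {x : LL C6 K}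
    (hx : x ∈ FD_B K j) : FD_P K k x = 0 := by
  classical
  refine Prod.ext ?_ (funext fun f => ?_)
  · rw [FD_P_fst]
    split_ifs with h
    · exact hx.1 (fun h' => hjk (h'.trans h.symm))
    · rfl
  · rw [FD_P_snd]
    split_ifs with h
    · exact hx.2 f (fun h' => hjk (h'.symm.trans h))
    · rfl

private theorem FD_P_sum [Fintype (Quotient FD_S)] (x : LL C6 K) :
    ∑ j : Option (Quotient FD_S), FD_P K j x = x := by
  classical
  refine Prod.ext ?_ (funext fun f => ?_)
  · rw [Prod.fst_sum]
    simp only [FD_P_fst]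
    rw [Finset.sum_ite_eq' Finset.univ none (fun _ => x.1), if_pos (Finset.mem_univ _)]
  · rw [Prod.snd_sum, Finset.sum_apply]
    simp only [FD_P_snd]
    rw [Finset.sum_ite_eq Finset.univ (some (FD_q f)) (fun _ => x.2 f),
      if_pos (Finset.mem_univ _)]

/-- the dimension of an invariant subspace is the sum of the dimensions of its blocks -/
private theorem FD_dim [Fintype (Quotient FD_S)] (U : Submodule K (LL C6 K))
    (hU : ∀ j, ∀ x ∈ U, FD_P K j x ∈ U) :
    Module.finrank K U = ∑ j : Option (Quotient FD_S),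
      Module.finrank K (U ⊓ FD_B K j : Submodule K (LL C6 K)) := by
  classical
  let E : U ≃ₗ[K] (∀ j : Option (Quotient FD_S), (U ⊓ FD_B K j : Submodule K (LL C6 K))) :=
    { toFun := fun x j => ⟨FD_P K j x.1, hU j x.1 x.2, FD_P_mem j x.1⟩
      map_add' := fun x y => by
        funext j
        apply Subtype.ext
        exact map_add (FD_P K j) x.1 y.1
      map_smul' := fun c x => by
        funext j
        apply Subtype.ext
        exact map_smul (FD_P K j) c x.1
      invFun := fun v => ⟨∑ j, (v j).1, Submodule.sum_mem _ fun j _ => (v j).2.1⟩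
      left_inv := fun x => Subtype.ext (FD_P_sum x.1)
      right_inv := fun v => by
        funext k
        apply Subtype.ext
        show FD_P K k (∑ j, (v j).1) = (v k).1
        rw [map_sum, Finset.sum_eq_single k]
        · exact FD_P_self (v k).2.2
        · intro j _ hjk
          exact FD_P_ne hjk (v j).2.2
        · intro h
          exact absurd (Finset.mem_univ k) h }
  rw [LinearEquiv.finrank_eq E, Module.finrank_pi_fintype]

private theorem FD_B_span (a : Rt C6) :
    FD_B K (some (FD_q a)) = Submodule.span K {e K a, e K (sg a)} := by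
  classical
  apply le_antisymm
  · rintro x ⟨h1, h2⟩
    have h3 : x = x.2 a • e K a + (if sg a = a then 0 else x.2 (sg a)) • e K (sg a) := by
      refine Prod.ext ?_ (funext fun f => ?_)
      · rw [h1 (by simp)]
        show 0 = x.2 a • (e K a).1 + _ • (e K (sg a)).1
        rw [e_fst, e_fst, smul_zero, smul_zero, add_zero]
      · show x.2 f = x.2 a * (e K a).2 f + (if sg a = a then 0 else x.2 (sg a)) *
          (e K (sg a)).2 f
        by_cases hf : f = a
        · rw [hf, e_snd_self]
          split_ifs with h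
          · ring
          · rw [e_snd_ne (Ne.symm h)]
            ring
        · rw [e_snd_ne hf]
          by_cases hf' : f = sg a
          · rw [hf', e_snd_self, if_neg (fun h => hf (hf'.trans h))]
            ring
          · rw [e_snd_ne hf', h2 f (fun h => ?_)]
            · ring
            · have h4 : FD_q f = FD_q a := Option.some.inj h
              rcases (FD_q_eq a f).1 h4 with h5 | h5
              · exact hf h5
              · exact hf' h5
    rw [h3]
    exact add_mem (Submodule.smul_mem _ _ (Submodule.subset_span (Or.inl rfl)))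
      (Submodule.smul_mem _ _ (Submodule.subset_span (Or.inr rfl)))
  · rw [Submodule.span_le]
    rintro x (rfl | rfl)
    · refine ⟨fun _ => rfl, fun f hf => e_snd_ne fun h => hf ?_⟩
      rw [h]
    · refine ⟨fun _ => rfl, fun f hf => e_snd_ne fun h => hf ?_⟩
      rw [h, (FD_q_eq a (sg a)).2 (Or.inr rfl)]

private theorem FD_inv (H : HypW C6 K) (n : Submodule K (LL C6 K))
    (hn : ∀ t ∈ T4 K, ∀ x ∈ n, t x ∈ n) (j : Option (Quotient FD_S)) (x : LL C6 K)
    (hx : x ∈ n) : FD_P K j x ∈ n := by
  classical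
  obtain ⟨k1, k2⟩ := comp4 H n hn hx
  rcases j with _ | q
  · have h1 : FD_P K none x = hh C6 x.1 := by
      refine Prod.ext ?_ (funext fun f => ?_)
      · rw [FD_P_fst, if_pos rfl]
        rfl
      · rw [FD_P_snd, if_neg (by simp), hh_snd]
    rw [h1]
    exact k1
  · induction q using Quotient.inductionOn with
    | h a =>
      have h1 : FD_P K (some (FD_q a)) x =
          (if sg a = a then x.2 a • e K a else x.2 a • e K a + x.2 (sg a) • e K (sg a)) := by
        refine Prod.ext ?_ (funext fun f => ?_)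
        · rw [FD_P_fst, if_neg (by simp)]
          split_ifs
          · show 0 = x.2 a • (e K a).1
            rw [e_fst, smul_zero]
          · show 0 = x.2 a • (e K a).1 + x.2 (sg a) • (e K (sg a)).1
            rw [e_fst, e_fst, smul_zero, smul_zero, add_zero]
        · rw [FD_P_snd]
          have hq : (some (FD_q f) = some (FD_q a)) ↔ f = a ∨ f = sg a := by
            rw [Option.some_inj, FD_q_eq]
          rw [if_congr hq rfl rfl]
          by_cases h : sg a = a
          · rw [if_pos h]
            show _ = x.2 a * (e K a).2 f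
            by_cases hf : f = a
            · rw [if_pos (Or.inl hf), hf, e_snd_self, mul_one]
            · rw [if_neg (fun h' => h'.elim hf (fun h'' => hf (h''.trans h))), e_snd_ne hf,
                mul_zero]
          · rw [if_neg h]
            show _ = x.2 a * (e K a).2 f + x.2 (sg a) * (e K (sg a)).2 f
            by_cases hf : f = a
            · rw [if_pos (Or.inl hf), hf, e_snd_self, e_snd_ne (Ne.symm h)]
              ring
            · by_cases hf' : f = sg a
              · rw [if_pos (Or.inr hf'), hf', e_snd_self, e_snd_ne h]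
                ring
              · rw [if_neg (by tauto), e_snd_ne hf, e_snd_ne hf']
                ring
      have h2 := k2 a
      rw [← h1] at h2
      exact h2

private theorem FD_Fil_inv (c : Rt C6) (i : ℤ) (j : Option (Quotient FD_S)) (x : LL C6 K)
    (hx : x ∈ Fil C6 K (cv c) i) : FD_P K j x ∈ Fil C6 K (cv c) i := by
  classical
  refine ⟨fun b hb => ?_, fun hi => ?_⟩
  · rw [FD_P_snd, hx.1 b hb]
    split_ifs <;> rfl
  · rw [FD_P_fst, hx.2 hi]
    split_ifs <;> rfl

private theorem FD_ip_q (c : Rt C6) {a f : Rt C6} (h : FD_q f = FD_q a) :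
    ip C6 (cv c) f.1 = dg c a := by
  rcases (FD_q_eq a f).1 h with h1 | h1
  · rw [h1]
    rfl
  · rw [h1]
    exact dg_sg_right c a

/-- the part of the filtration in a block -/
private theorem FD_part_some (n : Submodule K (LL C6 K)) (c : Rt C6) (i : ℤ) (a : Rt C6) :
    Module.finrank K (n ⊓ Fil C6 K (cv c) i ⊓ FD_B K (some (FD_q a)) :
      Submodule K (LL C6 K)) = if i ≤ dg c a then mu n a else 0 := by
  split_ifs with h
  · unfold mu
    have h2 : Fil C6 K (cv c) i ⊓ FD_B K (some (FD_q a)) = FD_B K (some (FD_q a)) := by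
      apply inf_eq_right.2
      intro x hx
      refine ⟨fun b hb => hx.2 b fun h1 => ?_, fun _ => hx.1 (by simp)⟩
      rw [FD_ip_q c (Option.some.inj h1)] at hb
      omega
    rw [← FD_B_span, inf_assoc, h2]
  · have h1 : (n ⊓ Fil C6 K (cv c) i ⊓ FD_B K (some (FD_q a)) : Submodule K (LL C6 K)) = ⊥ := by
      rw [eq_bot_iff]
      rintro x ⟨⟨-, h2⟩, h3⟩
      rw [Submodule.mem_bot]
      refine Prod.ext (h3.1 (by simp)) (funext fun f => ?_)
      by_cases hf : some (FD_q f) = some (FD_q a)
      · apply h2.1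
        rw [FD_ip_q c (Option.some.inj hf)]
        omega
      · exact h3.2 f hf
    rw [h1, finrank_bot]

private theorem FD_part_none (n : Submodule K (LL C6 K)) (c : Rt C6) (i : ℤ) :
    Module.finrank K (n ⊓ Fil C6 K (cv c) i ⊓ FD_B K none : Submodule K (LL C6 K)) =
      if i ≤ 0 then Module.finrank K (n ⊓ FD_B K none : Submodule K (LL C6 K)) else 0 := by
  split_ifs with h
  · have h2 : Fil C6 K (cv c) i ⊓ FD_B K none = FD_B K none := by
      apply inf_eq_right.2
      intro x hx
      exact ⟨fun b hb => hx.2 b (by simp), fun h1 => by omega⟩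
    rw [inf_assoc, h2]
  · have h1 : (n ⊓ Fil C6 K (cv c) i ⊓ FD_B K none : Submodule K (LL C6 K)) = ⊥ := by
      rw [eq_bot_iff]
      rintro x ⟨⟨-, h2⟩, h3⟩
      rw [Submodule.mem_bot]
      exact Prod.ext (h2.2 (by omega)) (funext fun f => h3.2 f (by simp))
    rw [h1, finrank_bot]

private theorem FD_mu_sg (n : Submodule K (LL C6 K)) (a : Rt C6) : mu n (sg a) = mu n a := by
  unfold mu
  rw [sg_sg, Set.pair_comm]

private theorem FD_cnt1 {d : ℤ} (h1 : -2 ≤ d) (h2 : d ≤ 2) (k : ℕ) :
    2 * ∑ i ∈ ({-1, 0, 1, 2} : Finset ℤ), ((if i ≤ d then k else 0 : ℕ) : ℤ) - 4 * (k : ℤ) =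
      2 * (k : ℤ) * d := by
  have h3 : d = -2 ∨ d = -1 ∨ d = 0 ∨ d = 1 ∨ d = 2 := by omega
  rcases h3 with rfl | rfl | rfl | rfl | rfl
  all_goals
    rw [Finset.sum_insert (by decide), Finset.sum_insert (by decide),
      Finset.sum_insert (by decide), Finset.sum_singleton]
    norm_num
    try ring

theorem cnt4 (H : HypW C6 K) (n : Submodule K (LL C6 K))
    (hn : ∀ t ∈ T4 K, ∀ x ∈ n, t x ∈ n) (c : Rt C6) :
    2 * ∑ i ∈ ({-1, 0, 1, 2} : Finset ℤ),
        (Module.finrank K (n ⊓ Fil C6 K (cv c) i : Submodule K (LL C6 K)) : ℤ) -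
      4 * (Module.finrank K n : ℤ) = ip C6 (cv c) (dn n) := by
  classical
  let _i : Fintype (Quotient FD_S) := Fintype.ofFinite _
  -- the right hand side
  have hR : ip C6 (cv c) (dn n) = ∑ q : Quotient FD_S, 2 * (mu n q.out : ℤ) * dg c q.out := by
    unfold dn
    rw [ip_comm H.symm, ip_sum_left]
    have h1 : ∀ a : Rt C6, ip C6 (((if sg a = a then 2 else 1) * (mu n a : ℤ)) • a.1) (cv c) =
        (if sg a = a then 2 else 1) * (mu n a : ℤ) * dg c a := by
      intro a
      rw [ip_smul_left, ip_comm H.symm]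
      rfl
    rw [Finset.sum_congr rfl fun a _ => h1 a, ← Finset.sum_fiberwise Finset.univ FD_q]
    refine Finset.sum_congr rfl fun q _ => ?_
    have hq : FD_q q.out = q := Quotient.out_eq q
    have h3 : Finset.univ.filter (fun b : Rt C6 => FD_q b = q) = {q.out, sg q.out} := by
      ext b
      rw [Finset.mem_filter, Finset.mem_insert, Finset.mem_singleton, ← FD_q_eq, hq]
      simp
    rw [h3]
    by_cases h : sg q.out = q.out
    · rw [h, Finset.pair_eq_singleton, Finset.sum_singleton, if_pos h]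
    · have h4 : sg (sg q.out) ≠ sg q.out := by
        rw [sg_sg]
        exact fun h5 => h h5.symm
      rw [Finset.sum_pair (fun h5 => h h5.symm), if_neg h, if_neg h4, FD_mu_sg, dg_sg_right]
      ring
  rw [hR]
  -- dimensions
  have hD := FD_dim n (FD_inv H n hn)
  have hDi : ∀ i : ℤ, Module.finrank K (n ⊓ Fil C6 K (cv c) i : Submodule K (LL C6 K)) =
      (if i ≤ 0 then Module.finrank K (n ⊓ FD_B K none : Submodule K (LL C6 K)) else 0) +
        ∑ q : Quotient FD_S, if i ≤ dg c q.out then mu n q.out else 0 := by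
    intro i
    rw [FD_dim (n ⊓ Fil C6 K (cv c) i) (fun j x hx =>
      ⟨FD_inv H n hn j x hx.1, FD_Fil_inv c i j x hx.2⟩), Fintype.sum_option, FD_part_none]
    congr 1
    refine Finset.sum_congr rfl fun q _ => ?_
    have hq : FD_q q.out = q := Quotient.out_eq q
    rw [← FD_part_some n c i q.out, hq]
  have hD' : Module.finrank K n = Module.finrank K (n ⊓ FD_B K none : Submodule K (LL C6 K)) +
      ∑ q : Quotient FD_S, mu n q.out := by
    rw [hD, Fintype.sum_option]
    congr 1
    refine Finset.sum_congr rfl fun q _ => ?_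
    have hq : FD_q q.out = q := Quotient.out_eq q
    unfold mu
    rw [← FD_B_span, hq]
  have hS : ∑ i ∈ ({-1, 0, 1, 2} : Finset ℤ),
      (Module.finrank K (n ⊓ Fil C6 K (cv c) i : Submodule K (LL C6 K)) : ℤ) =
      (∑ i ∈ ({-1, 0, 1, 2} : Finset ℤ), ((if i ≤ 0 then
        Module.finrank K (n ⊓ FD_B K none : Submodule K (LL C6 K)) else 0 : ℕ) : ℤ)) +
      ∑ q : Quotient FD_S, ∑ i ∈ ({-1, 0, 1, 2} : Finset ℤ),
        ((if i ≤ dg c q.out then mu n q.out else 0 : ℕ) : ℤ) := by
    rw [Finset.sum_comm, ← Finset.sum_add_distrib]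
    refine Finset.sum_congr rfl fun i _ => ?_
    rw [hDi i, Nat.cast_add, Nat.cast_sum]
  have h0 := FD_cnt1 (d := 0) (by norm_num) (by norm_num)
    (Module.finrank K (n ⊓ FD_B K none : Submodule K (LL C6 K)))
  have h1 : ∀ q : Quotient FD_S, 2 * (mu n q.out : ℤ) * dg c q.out =
      2 * ∑ i ∈ ({-1, 0, 1, 2} : Finset ℤ),
        ((if i ≤ dg c q.out then mu n q.out else 0 : ℕ) : ℤ) - 4 * (mu n q.out : ℤ) := fun q =>
    (FD_cnt1 (dg_range c q.out).1 (dg_range c q.out).2 (mu n q.out)).symm
  rw [hD', hS, Finset.sum_congr rfl fun q _ => h1 q, Finset.sum_sub_distrib, ← Finset.mul_sum,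
    ← Finset.mul_sum, Nat.cast_add, Nat.cast_sum]
  linarith [h0]

end Pool.Agent.H31.F4
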