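import Pool.Agent.H31.F4.Orb4

/-!
# FF-44: white points orthogonal to `OrbS F`, first part

`c'` short, `PtF F g c'`, `D' = g (Df c')`, `w' = g (wf c')` orthogonal to `OrbS F`.
`fl_white`: `[D',[D',u]] = -(fm w' u) w' = 0` (`ad2_V` transported by `g`), so `x(t) = ex (t D') ∈ F` (`PtF_ex`) acts on
`u ∈ OrbS F` as `u + t [D',u]`; `u` is white (`OrbS_VF`), so is `x(t) u` (`isW_map`).
`fl_span`: `u = κ f (wf b)`, partner `u' = f (wf (ng b)) ∈ OrbS F` (`SsF_ng`), `fm u u' ≠ 0` (`fm_pv_ng`).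
`fm (x(t) u) u' = fm u u' + t fm [D',u] u'` is non zero for `t = 1` or for `t = -1` or …: there is `t ≠ 0` with non zero
value (at most one `t` is bad).  `x(t) u = κ (x(t) f)(wf b)`, `PtF F (x(t) f) b`, so `x(t) u ∈ OrbS F` by `OrbS_P`, and
`t [D',u] = x(t) u - u`.
`fl_shape`: pure computation with the white condition: for `x ∈ VF` and all `t`:
`[wc + t z,[wc + t z, x]] = -(fm (wc + t z) x)(wc + t z)`, `wc = wf c`; coefficients (three values of `t`: `0, 1, -1`):
(t) `[wc,[z,x]] + [z,[wc,x]] = -(fm wc x) z - (fm z x) wc`, (t²) `[z,[z,x]] = -(fm z x) z`.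
(ii) `d` short, `z.2 d ≠ 0`, `dg c d = -1`: `Sm c d f`; `x = wf (ng f)`, toral part of (t): the component of `z` at `d`:
`[wd, wf (ng f)] = k Df (ng c)`, `[wc, Df (ng c)] = -hh (zk (c - sc))` (`br_w_Dng`), `[wc, wf (ng f)] = k' Df (ng d)`,
`[wd, Df (ng d)] = -hh (zk (d - sd))`; other components of `z` do not contribute to weight 0; right side: `fm wc x = 0`,
`wc` has no toral part.  So `z.2 d (k hh z_c + k' hh z_d) = 0` (with `k, k' ≠ 0`): contradiction to `zz_indep`.
(iii) `dg c d = 0`, `d` short, `z.2 d ≠ 0`: `d ∈ SF4 F` (`hzS`), `Sm c d f`, `f` long (`sm_of_orth`), `f ∈ SF4 F`,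
`dg c f = 2 ≠ 0`: contradiction to `c ∈ SsF F`.  `dg c d = -2`: `Eq4 (ng c) d` (`dg_neg_two`), `hzc`.  `dg c d = 2`: `Eq4 c d`.
(`d` long: `VF_long`.)
(iv) toral part `z.1 = z0` (`sv z0 = -z0`).  All root weights of `z` have `dg c d > 0`.  (t²) with `x = wf b`, `b` short, coordinate
at `b`: `[z,[z,wf b]]`: contributions `[z_μ,[z_ν, wf b]]` with `μ + ν = 0`, so `μ = ν = 0`: `(z0,b)² wf b`; right side
`-(fm z (wf b)) z.2 b`, `fm z (wf b) = -2 z.2 (ng b)`: `z.2 b z.2 (ng b) = 0` (not both `dg c > 0`).  So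
`fk z0 (zk b) = 0`; for `b = c`: `fk z0 (zk c) = 0`.  (t) with `x = wf (ng c)`, toral part: `[wc,[hh z0, wf (ng c)]] +
[hh z0, [wc, wf (ng c)]]` = `(z0,c) hh z_c + 0 = 0` (`br_k_w`, `br_w_Dng`, `br_hh_hh`), right side `-(-2) z0 = 2 z0`.
So `z0 = 0`.
-/

namespace Pool.Agent.H31.F4

open Pool.Agent.H33.EL (ip cc eps Rt ng zk ek fk LL hh e brf fmf br fm IsExt exl ex xr hd L0 GG T1 TT NN SF cj wt)

variable {K : Type} [Field K]

variable {p : ℕ} {F : Subgroup (LL C6 K ≃ₗ[K] LL C6 K)}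

theorem FlA_coef (H : HypW C6 K) {w z : LL C6 K} (hw : ∀ t : K, IsW (w + t • z)) {x : LL C6 K}
    (hx : x ∈ VF K) :
    br w (br z x) + br z (br w x) = (-fm w x) • z + (-fm z x) • w ∧
    br z (br z x) = (-fm z x) • z := by
  have h0 := hw 0 x hx
  have h1 := hw 1 x hx
  have h2 := hw (-1) x hx
  simp only [zero_smul, add_zero, one_smul, neg_smul, map_add, map_neg, LinearMap.add_apply,
    LinearMap.neg_apply] at h0 h1 h2
  constructor
  · apply SigB_cancel (two_ne H)
    linear_combination (norm := module) h1 - h2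
  · apply SigB_cancel (two_ne H)
    linear_combination (norm := module) h1 + h2 - (2 : K) • h0

theorem FlA_w_fst {a : Rt C6} {y : LL C6 K} (H : HypW C6 K) (hy : y ∈ LF K) :
    (br (wf K a) y).1 = -(y.2 (ng a)) • zk (a.1 - (sg a).1) := by
  have h1 := ((mem_LF' y).1 hy).2 (ng a)
  show (br (e K a - e K (sg a)) y).1 = _
  rw [map_sub, LinearMap.sub_apply, Prod.fst_sub, br_e_fst H, br_e_fst H, ← sg_ng, h1, zk_sub,
    smul_sub]

theorem FlA_D_fst {a : Rt C6} {y : LL C6 K} (H : HypW C6 K) (ha : sg a ≠ a) (hy : y ∈ VF K) :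
    (br (Df K a) y).1 = -(y.2 (ng a)) • zk (a.1 - (sg a).1) := by
  have h1 := ((mem_VF' y).1 hy).2 (ng a)
  rw [Df_short ha, map_add, LinearMap.add_apply, Prod.fst_add, br_e_fst H, br_e_fst H, ← sg_ng,
    h1, zk_sub, smul_sub, neg_neg, neg_smul, sub_eq_add_neg]
  congr 1
  rw [neg_smul, neg_neg]

/-- the component of degree `-1` vanishes -/
theorem FlA_ii (H : HypW C6 K) {c d : Rt C6} (hc : sg c ≠ c) (hd : sg d ≠ d) {z : LL C6 K}
    (hz : z ∈ VF K) (hw : ∀ t : K, IsW (wf K c + t • z)) (h1 : ip C6 c.1 d.1 = -1)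
    (h2 : ip C6 c.1 (sg d).1 = 0) : z.2 d = 0 := by
  obtain ⟨f, hf, hSm, hff⟩ := Comb_mk c d h1
  rw [cb_self c hc, cb_self d hd, h2] at hff
  have hfs : sg f ≠ f := Comb_ne_of (by rw [hff]; norm_num)
  have hcf : ip C6 c.1 f.1 = 1 := by
    rw [hf, ip_add_right, c.2, h1]
    norm_num
  have hsf : (sg f).1 = (sg c).1 + (sg d).1 := by
    rw [Comb_sg_val, hf]
    exact Comb_sv_add c.1 d.1
  have hcsf : ip C6 c.1 (sg f).1 = 0 := by
    rw [hsf, ip_add_right, cb_self c hc, h2]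
    norm_num
  have hne1 : ¬ Eq4 (ng c) (ng f) := by
    rintro (h | h)
    · have h3 : f = c := by
        have := congrArg ng h
        rwa [ng_ng, ng_ng] at this
      rw [h3, c.2] at hcf
      norm_num at hcf
    · have h3 : f = sg c := by
        have := congrArg ng h
        rwa [ng_ng, sg_ng, ng_ng] at this
      have h4 : sg f = c := by rw [h3, sg_sg]
      rw [h4, c.2] at hcsf
      norm_num at hcsf
  obtain ⟨k, -, hk⟩ := br_ww (K := K) H (a := c) (b := ng f) (c := ng d) (by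
    have h3 := Sm_ng (Sm_sub hSm)
    rwa [ng_ng] at h3) hc (fun h => hfs ((sg_ng_iff f).1 h))
  have ht := (FlA_coef H hw (wf_mem (K := K) (ng f))).1
  rw [DBrB_fm_w_w H hc hne1, neg_zero, zero_smul, zero_add, hk] at ht
  have ht1 := congrArg Prod.fst ht
  rw [Prod.fst_add, Prod.smul_fst, wf_fst, smul_zero, FlA_w_fst H (br_VF_VF hz (wf_mem _)),
    map_smul, br_skew H z (Df K (ng d)), Prod.smul_fst, Prod.fst_neg,
    FlA_D_fst H (fun h => hd ((sg_ng_iff d).1 h)) hz, ng_ng, br_skew H z (wf K (ng f))] at ht1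
  have hcoef : (br (wf K (ng f)) z).2 (ng c) = ek K C6 (ng f).1 d.1 * z.2 d := by
    show (br (e K (ng f) - e K (sg (ng f))) z).2 (ng c) = _
    rw [map_sub, LinearMap.sub_apply, Prod.snd_sub, Pi.sub_apply,
      br_e_snd H (ng f) z (ng c) (by
        rw [ng_val, ng_val, ip_neg_left, ip_neg_right, neg_neg, hcf]) d (by
        rw [ng_val, ng_val, hf]
        abel),
      br_e_snd_zero H (sg (ng f)) z (ng c) (by
        rw [sg_ng, ng_val, ng_val, ip_neg_left, ip_neg_right, neg_neg, hcsf]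
        norm_num) (by
        intro h
        have h3 : c = sg f := by
          have := congrArg ng h
          rwa [ng_ng, sg_ng, ng_ng] at this
        rw [← h3, c.2] at hcsf
        norm_num at hcsf), sub_zero]
  rw [Prod.snd_neg, Pi.neg_apply, hcoef, neg_neg] at ht1
  have hD : (zk ((ng d).1 - (sg (ng d)).1) : Fin 6 → K) = -zk (d.1 - (sg d).1) := by
    rw [sg_ng, ng_val, ng_val, ← zk_neg]
    congr 1
    abel
  rw [hD] at ht1
  have hdg : dg c d = -1 := by
    rw [dg_short c d hc, h1, h2]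
    norm_num
  have hfin := (zz_indep c d hc hd (Or.inr hdg) (ek K C6 (ng f).1 d.1 * z.2 d) (-(k * z.2 d)) (by
    rw [← ht1]
    simp only [smul_neg, neg_neg, smul_smul, neg_smul])).1
  exact (mul_eq_zero.1 hfin).resolve_left (ek_ne_zero _ _)

/-- the toral part vanishes -/
theorem FlA_iv (H : HypW C6 K) {c : Rt C6} (hc : sg c ≠ c) {z : LL C6 K}
    (hz : z ∈ VF K) (hw : ∀ t : K, IsW (wf K c + t • z))
    (hpos : ∀ d : Rt C6, z.2 d ≠ 0 → 1 ≤ dg c d) : z.1 = 0 := by
  have hself : dg c c = 2 := dg_self c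
  have hcs : (1 : ℤ) ≠ ip C6 c.1 (sg c).1 := by
    rw [cb_self c hc]
    norm_num
  -- the coordinates of `[z, wf c]` and `[z, wf (ng c)]`
  have hco : (br z (wf K c)).2 c = fk C6 z.1 (zk c.1) := by
    rw [br_skew H, Prod.snd_neg, Pi.neg_apply]
    show -(br (e K c - e K (sg c)) z).2 c = _
    rw [map_sub, LinearMap.sub_apply, Prod.snd_sub, Pi.sub_apply, br_e_snd_self H,
      br_e_snd_zero H (sg c) z c (fun h => hcs h.symm) (fun h => hc h.symm), sub_zero, neg_neg]
  have hcn : (br z (wf K (ng c))).2 (ng c) = -fk C6 z.1 (zk c.1) := by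
    rw [br_skew H, Prod.snd_neg, Pi.neg_apply]
    show -(br (e K (ng c) - e K (sg (ng c))) z).2 (ng c) = _
    rw [map_sub, LinearMap.sub_apply, Prod.snd_sub, Pi.sub_apply, br_e_snd_self H,
      br_e_snd_zero H (sg (ng c)) z (ng c) (by
        rw [sg_ng, ng_val, ng_val, ip_neg_left, ip_neg_right, neg_neg]
        exact fun h => hcs h.symm) (by
        intro h
        exact hc ((sg_ng_iff c).1 h.symm)), sub_zero, neg_neg, ng_val, zk_neg, fk_neg_right]
  -- second coefficient for `wf c`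
  have hz0 : z.2 (ng c) = 0 := by
    by_contra h
    have := hpos _ h
    rw [dg_ng_right] at this
    omega
  have h0 : fk C6 z.1 (zk c.1) = 0 := by
    have ht := (FlA_coef H hw (wf_mem (K := K) c)).2
    rw [fm_comm H, fm_w H hz c hc, hz0, mul_zero, neg_zero, zero_smul] at ht
    have hz' : z = hh C6 z.1 + (z - hh C6 z.1) := by abel
    have hF0 : z ∈ Fil C6 K (cv c) 0 := by
      refine ⟨fun b hb => ?_, fun h => absurd h (lt_irrefl _)⟩
      by_contra h
      have h3 := hpos b h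
      have h4 : dg c b < 0 := hb
      omega
    have hF1 : z - hh C6 z.1 ∈ Fil C6 K (cv c) 1 := by
      refine ⟨fun b hb => ?_, fun _ => ?_⟩
      · have h5 : (z - hh C6 z.1).2 b = z.2 b := by
          rw [Prod.snd_sub, Pi.sub_apply, hh_snd, sub_zero]
        rw [h5]
        by_contra h
        have h3 := hpos b h
        have h4 : dg c b < 1 := hb
        omega
      · rw [Prod.fst_sub, hh_fst, sub_self]
    have hF2 : wf K c ∈ Fil C6 K (cv c) 2 := by
      refine Submodule.sub_mem _ (Fil_e_fil _ _ ?_) (Fil_e_fil _ _ ?_)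
      · exact hself.ge
      · have h3 := dg_sg_right c c
        rw [hself] at h3
        exact h3.ge
    have hy2 : br z (wf K c) ∈ Fil C6 K (cv c) 2 := by
      have := FilA_br_fil hF0 hF2
      rwa [zero_add] at this
    have h3 : br (z - hh C6 z.1) (br z (wf K c)) = 0 :=
      Exp2_bot c (by norm_num) (FilA_br_fil hF1 hy2)
    have h4 : br z (br z (wf K c)) = br (hh C6 z.1) (br z (wf K c)) := by
      have h5 : br z (br z (wf K c)) = br (hh C6 z.1 + (z - hh C6 z.1)) (br z (wf K c)) := by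
        rw [← hz']
      rw [h5, map_add, LinearMap.add_apply, h3, add_zero]
    rw [h4] at ht
    have h6 := congrFun (congrArg Prod.snd ht) c
    rw [br_hh_snd, hco] at h6
    exact mul_self_eq_zero.1 h6
  -- first coefficient for `wf (ng c)`
  have ht := (FlA_coef H hw (wf_mem (K := K) (ng c))).1
  have ht1 := congrArg Prod.fst ht
  rw [Prod.fst_add, Prod.fst_add, FlA_w_fst H (br_VF_VF hz (wf_mem _)), hcn, h0, neg_zero,
    neg_zero, zero_smul, zero_add, br_w_wng H c hc, map_neg, br_skew H z, neg_neg, br_hh_fst,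
    Prod.smul_fst, Prod.smul_fst, wf_fst, smul_zero, add_zero, fm_w H (wf_mem _) c hc,
    (wf_snd_self (fun h => hc ((sg_ng_iff c).1 h))).1] at ht1
  have h5 : (-(-2 * 1) : K) ≠ 0 := by
    rw [mul_one, neg_neg]
    exact two_ne H
  exact (smul_eq_zero.1 ht1.symm).resolve_left h5

theorem FlA_ad2 (H : HypW C6 K) {c' : Rt C6} (hc' : sg c' ≠ c') {g : LL C6 K ≃ₗ[K] LL C6 K}
    (hg : g ∈ GF K) {u : LL C6 K} (hu : u ∈ VF K) (h0 : fm (g (wf K c')) u = 0) :
    br (g (Df K c')) (br (g (Df K c')) u) = 0 := by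
  have hgG : g ∈ GG C6 K := hg.1
  have h1 : g (g⁻¹ u) = u := g.apply_symm_apply u
  have h2 : g⁻¹ u ∈ VF K := (GF_VF (inv_mem hg) u).2 hu
  have h3 := ad2_V H c' hc' h2
  have h4 := congrArg g h3
  rw [hgG.1, hgG.1, h1, map_smul] at h4
  have h5 := hgG.2 (wf K c') (g⁻¹ u)
  rw [h1] at h5
  rw [h4, ← h5, h0, neg_zero, zero_smul]

theorem FlA_ex (H : HypW C6 K) {c' : Rt C6} (hc' : sg c' ≠ c') {g : LL C6 K ≃ₗ[K] LL C6 K}
    (hg : g ∈ GF K) {u : LL C6 K} (hu : u ∈ VF K) (h0 : fm (g (wf K c')) u = 0) (t : K) :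
    ex (t • g (Df K c')) u = u + t • br (g (Df K c')) u := by
  rw [(ex_GD H (GF_le_GG hg) c' t).2.1 u, FlA_ad2 H hc' hg hu h0, smul_zero, add_zero]

theorem fl_white (H : HypW C6 K) [Fact p.Prime] [CharP K p] (X : HB p F) {c' : Rt C6}
    (hc' : sg c' ≠ c') {g : LL C6 K ≃ₗ[K] LL C6 K} (hg : PtF F g c')
    (ho : ∀ u ∈ OrbS F, fm (g (wf K c')) u = 0) {u : LL C6 K} (hu : u ∈ OrbS F) (t : K) :
    IsW (u + t • br (g (Df K c')) u) ∧ ex (t • g (Df K c')) u = u + t • br (g (Df K c')) u := by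
  obtain ⟨huV, huW, -⟩ := OrbS_VF H hu
  have h1 := FlA_ex H hc' hg.1 huV (ho u hu) t
  refine ⟨?_, h1⟩
  rw [← h1]
  exact isW_map huW (X.hF (PtF_ex hg t))

theorem fl_span (H : HypW C6 K) [Fact p.Prime] [CharP K p] (X : HB p F) {c' : Rt C6}
    (hc' : sg c' ≠ c') {g : LL C6 K ≃ₗ[K] LL C6 K} (hg : PtF F g c')
    (ho : ∀ u ∈ OrbS F, fm (g (wf K c')) u = 0) {u : LL C6 K} (hu : u ∈ OrbS F) :
    br (g (Df K c')) u ∈ Submodule.span K (OrbS F) := by
  have hu0 := hu
  obtain ⟨f, hf, b, hb, κ, hκ, rfl⟩ := hu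
  have hbs : sg b ≠ b := hb.2.1
  have hnb := SsF_ng H X hb
  have hu' : f (wf K (ng b)) ∈ OrbS F := ⟨f, hf, ng b, hnb, 1, one_ne_zero, by rw [one_smul]⟩
  have hfG : f ∈ GG C6 K := GF_le_GG (Fo4_le_GF H hf)
  set D := g (Df K c') with hD
  set u := κ • f (wf K b) with hu
  have hne0 : fm (f (wf K b)) (f (wf K (ng b))) ≠ 0 := by
    rw [hfG.2]
    have h1 := fm_pv_ng (K := K) H b
    rwa [pv_short hbs, pv_short (fun h => hbs ((sg_ng_iff b).1 h))] at h1
  have hne1 : fm u (f (wf K (ng b))) ≠ 0 := by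
    rw [hu, map_smul, LinearMap.smul_apply, smul_eq_mul]
    exact mul_ne_zero hκ hne0
  have hex : ∃ t : K, t ≠ 0 ∧ fm (u + t • br D u) (f (wf K (ng b))) ≠ 0 := by
    by_contra hcon
    push Not at hcon
    have h1 := hcon 1 one_ne_zero
    have h2 := hcon (-1) (neg_ne_zero.2 one_ne_zero)
    simp only [map_add, map_smul, LinearMap.add_apply, LinearMap.smul_apply, smul_eq_mul] at h1 h2
    have h3 : (2 : K) * fm u (f (wf K (ng b))) = 0 := by linear_combination h1 + h2
    exact hne1 ((mul_eq_zero.1 h3).resolve_left (two_ne H))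
  obtain ⟨t, ht, hne2⟩ := hex
  have hxt := (fl_white H X hc' hg ho hu0 t).2
  rw [← hD] at hxt
  set r := ex (t • D) with hr
  have hrF : r ∈ F := PtF_ex hg t
  have hfF : f ∈ F := Fo4_le X.hT hf
  have hP : PtF F (r * f) b := PtF_self X.hF (F.mul_mem hrF hfF) hb.1
  have hru : r u = κ • (r * f) (wf K b) := by
    rw [hu, map_smul]
    rfl
  have hmem1 : (r * f) (wf K b) ∈ OrbS F := by
    refine OrbS_P H X hbs hP hu' ?_
    intro h0
    apply hne2
    rw [← hxt, hru, map_smul, LinearMap.smul_apply, h0, smul_zero]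
  have hmem2 : r u ∈ OrbS F := by
    rw [hru]
    exact OrbS_smul hmem1 hκ
  have h1 : t • br D u ∈ Submodule.span K (OrbS F) := by
    have h2 : t • br D u = r u - u := by
      rw [hxt]
      abel
    rw [h2]
    exact Submodule.sub_mem _ (Submodule.subset_span hmem2) (Submodule.subset_span hu0)
  have h3 := Submodule.smul_mem _ t⁻¹ h1
  rwa [smul_smul, inv_mul_cancel₀ ht, one_smul] at h3

theorem fl_shape (H : HypW C6 K) {c : Rt C6} (hc : c ∈ SsF F) {z : LL C6 K} (hz : z ∈ VF K)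
    (hzS : z ∈ UR K (SF4 F)) (hw : ∀ t : K, IsW (wf K c + t • z)) (hzc : z.2 (ng c) = 0) :
    z.1 = 0 ∧ ∀ d : Rt C6, z.2 d ≠ 0 → Eq4 c d ∨ (d ∈ SF4 F ∧ sg d ≠ d ∧ dg c d = 1) := by
  obtain ⟨hcS, hcs, hcl⟩ := hc
  have hsym := ((mem_VF' z).1 hz).2
  have key : ∀ d : Rt C6, z.2 d ≠ 0 → Eq4 c d ∨ (d ∈ SF4 F ∧ sg d ≠ d ∧ dg c d = 1) := by
    intro d hd
    have hdS : d ∈ SF4 F := by
      by_contra h
      exact hd (hzS d h)
    have hds : sg d ≠ d := fun h => hd (VF_long H hz h)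
    have hlen : sg c = c ↔ sg d = d := ⟨fun h => absurd h hcs, fun h => absurd h hds⟩
    have hr := dg_range c d
    have h5 : dg c d = -2 ∨ dg c d = -1 ∨ dg c d = 0 ∨ dg c d = 1 ∨ dg c d = 2 := by omega
    rcases h5 with h | h | h | h | h
    · exfalso
      rcases dg_neg_two c d h hlen with h1 | h1
      · exact hd (by rw [h1]; exact hzc)
      · exact hd (by rw [h1, hsym, hzc, neg_zero])
    · exfalso
      have h1 := dg_short c d hcs
      rw [h] at h1
      rcases cb_SS c d hcs hds with h3 | h3 | h3 | h3 | h3 | h3 | h3 | h3 | h3 | h3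
      · omega
      · omega
      · omega
      · omega
      · omega
      · omega
      · exact hd (FlA_ii H hcs hds hz hw h3.1 h3.2)
      · have h4 := FlA_ii H hcs ((sg_ne_iff d).2 hds) hz hw h3.2
          (by rw [sg_sg]; exact h3.1)
        rw [hsym, neg_eq_zero] at h4
        exact hd h4
      · omega
      · omega
    · exfalso
      obtain ⟨f, hSm, hfl, -⟩ := sm_of_orth c d hcs hds h
      have h1 := hcl f (SF4_closed H F hSm hcS hdS) hfl
      have h2 := sm_dg hSm c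
      rw [h1, h, dg_self] at h2
      norm_num at h2
    · exact Or.inr ⟨hdS, hds, h⟩
    · exact Or.inl (dg_two c d h hlen)
  refine ⟨FlA_iv H hcs hz hw ?_, key⟩
  intro d hd
  rcases key d hd with h | h
  · have h1 : dg c d = 2 := by
      rcases h with h | h
      · rw [h, dg_self]
      · rw [h, dg_sg_right, dg_self]
    omega
  · exact h.2.2.ge

end Pool.Agent.H31.F4
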