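import Pool.Agent.H31.F4.Comb

/-!
# FF-61: orthogonal frames of short roots

All statements are finite checks on the roots (list `P6`, `P6_complete` in Enum.lean), or by hand: coordinates of F_4:
short roots `± e_i`, `(± 1/2, ± 1/2, ± 1/2, ± 1/2)`, long roots `± e_i ± e_j`; `ā = (a + sg a)/2`.
By hand: `frame_exists`: among the roots take representatives; the other three: there are short `d` with `dg c d = 0`,
not `Eq4` to `± c` (six of them), …; the sign condition can be achieved by replacing `k i` by `sg (k i)`: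
for orthogonal short `a, b` (`dg a b = 0`) `ip a b = 1, ip a (sg b) = -1` or reversed (`cb_SS`), so
`ip (a - sa) (b - sb) = ± 4`, and `a - sa`, `b - sb` have norm 4 (`cb_self`), so `b - sb = ± (a - sa)`.
Probably the quickest way is `decide`-like kernel computation over the 72 roots for `frame_exists`
(give the frame explicitly for each of the 48 short `c` by a search function) and for the others short arguments with the
linear independence of `k i + sg (k i)` (Gram matrix `4 * 1`: `ip (k i + sg (k i)) (k j + sg (k j)) = 4 δ_ij`):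
for `x = b + sg b` and `y_i = k i + sg (k i)`: `x = ∑ (ip x y_i / 4) y_i` (over ℚ: the `y_i` are an orthogonal basis of the
4-dimensional space of `sv`-invariant vectors), `ip x y_i = 2 dg (k i) b`; norms: `ip x x = 4` (short) gives
`∑ (dg (k i) b)² = 4`, long: `ip x x = 8`: `∑ (dg (k i) b)² = 8`, with `dg (k i) b` even for long `b` (`dg_SL`).
-/

namespace Pool.Agent.H31.F4

open Pool.Agent.H33.EL (ip cc eps Rt ng zk ek fk LL hh e brf fmf br fm IsExt exl ex xr hd L0 GG T1 TT NN SF cj wt)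

variable {K : Type} [Field K]

/-- an orthogonal frame of short roots -/
structure Fr (k : Fin 4 → Rt C6) : Prop where
  sh : ∀ i, sg (k i) ≠ k i
  orth : ∀ i j, i ≠ j → dg (k i) (k j) = 0
  sgn : ∀ i j, (k i).1 - (sg (k i)).1 = (k j).1 - (sg (k j)).1

/-- the short roots in the frame -/
def FrS (k : Fin 4 → Rt C6) : Set (Rt C6) := {d | ∃ i, Eq4 (k i) d ∨ Eq4 (ng (k i)) d}

/-! ### kernel computations -/

/-- the graph automorphism on tuples -/
def fr4_sv : EnumT → EnumT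
  | (a, b, c, d, e, f) => (a, b, d, c, f, e)

/-- the product of F_4 of short roots as tuples -/
def fr4_ds (t s : EnumT) : ℤ := EnumDot t (EnumPre s) + EnumDot t (EnumPre (fr4_sv s))

/-- the coordinates of the difference of a tuple and its image -/
def fr4_df : EnumT → ℤ × ℤ
  | (_, _, c, d, e, f) => (c - d, e - f)

/-- `t + sv t - s` -/
def fr4_sub : EnumT → EnumT → EnumT
  | (a, b, c, d, e, f), (a', b', c', d', e', f') =>
    (a + a - a', b + b - b', c + d - c', d + c - d', e + f - e', f + e - f')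

def fr4_chk : Bool :=
  EnumL.all fun t => fr4_df t == (0, 0) || EnumL.any fun t1 =>
    (fr4_df t1 == fr4_df t && fr4_ds t t1 == 0) && EnumL.any fun t2 =>
      (fr4_df t2 == fr4_df t && (fr4_ds t t2 == 0 && fr4_ds t1 t2 == 0)) && EnumL.any fun t3 =>
        fr4_df t3 == fr4_df t && (fr4_ds t t3 == 0 && (fr4_ds t1 t3 == 0 && fr4_ds t2 t3 == 0))

def fr4_chk2 : Bool :=
  EnumL.all fun t => fr4_df t == (0, 0) || EnumL.any fun s =>
    fr4_df s == (0, 0) && (EnumDot (fr4_sub t s) (EnumPre (fr4_sub t s)) == 2 &&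
      fr4_df (fr4_sub t s) == (0, 0))

theorem fr4_chk_true : fr4_chk = true := by
  decide +kernel

theorem fr4_chk2_true : fr4_chk2 = true := by
  decide +kernel

theorem fr4_vec_sub (t s : EnumT) :
    EnumVec (fr4_sub t s) = EnumVec t + sv (EnumVec t) - EnumVec s := by
  funext i
  fin_cases i <;> rfl

theorem fr4_df_eq {x y : Fin 6 → ℤ} (h : fr4_df (EnumTup x) = fr4_df (EnumTup y)) :
    x - sv x = y - sv y := by
  have h1 : x 2 - x 3 = y 2 - y 3 := congrArg Prod.fst h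
  have h2 : x 4 - x 5 = y 4 - y 5 := congrArg Prod.snd h
  funext i
  fin_cases i
  · show x 0 - x 0 = y 0 - y 0
    rw [sub_self, sub_self]
  · show x 1 - x 1 = y 1 - y 1
    rw [sub_self, sub_self]
  · exact h1
  · show x 3 - x 2 = y 3 - y 2
    linarith
  · exact h2
  · show x 5 - x 4 = y 5 - y 4
    linarith

theorem fr4_df_zero {x : Fin 6 → ℤ} (h : fr4_df (EnumTup x) = (0, 0)) : sv x = x := by
  have h1 : fr4_df (EnumTup x) = fr4_df (EnumTup 0) := h
  have h2 := fr4_df_eq h1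
  have h3 : (0 : Fin 6 → ℤ) - sv 0 = 0 := by
    funext i
    rfl
  rw [h3, sub_eq_zero] at h2
  exact h2.symm

theorem fr4_sg_ne {d : Rt C6} (h : sg d ≠ d) : ¬ fr4_df (EnumTup d.1) = (0, 0) :=
  fun h1 => h (Subtype.ext (fr4_df_zero h1))

theorem fr4_sh {c d : Rt C6} (hc : sg c ≠ c) (h : d.1 - (sg d).1 = c.1 - (sg c).1) :
    sg d ≠ d := by
  intro h1
  rw [h1, sub_self] at h
  exact hc (Subtype.ext (sub_eq_zero.1 h.symm).symm)

theorem fr4_dg {a : Rt C6} (ha : sg a ≠ a) (b : Rt C6) :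
    dg a b = fr4_ds (EnumTup a.1) (EnumTup b.1) := by
  rw [dg_short a b ha, Enum_ip, Enum_ip]
  rfl

/-- the root of a tuple -/
def fr4_rt {t : EnumT} (ht : t ∈ EnumL) : Rt C6 := ⟨EnumVec t, Enum_of_mem ht⟩

theorem frame_exists (c : Rt C6) (hc : sg c ≠ c) : ∃ k, Fr k ∧ k 0 = c := by
  have h0 := List.all_eq_true.1 fr4_chk_true (EnumTup c.1) (Enum_mem c.1 c.2)
  rw [Bool.or_eq_true] at h0
  have h1 := h0.resolve_left (fun h => fr4_sg_ne hc (by simpa using h))
  obtain ⟨t1, ht1, h1⟩ := List.any_eq_true.1 h1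
  rw [Bool.and_eq_true] at h1
  obtain ⟨h1, h2⟩ := h1
  obtain ⟨t2, ht2, h2⟩ := List.any_eq_true.1 h2
  rw [Bool.and_eq_true] at h2
  obtain ⟨h2, h3⟩ := h2
  obtain ⟨t3, ht3, h3⟩ := List.any_eq_true.1 h3
  simp only [Bool.and_eq_true, beq_iff_eq] at h1 h2 h3
  obtain ⟨a1, a2⟩ := h1
  obtain ⟨b1, b2, b3⟩ := h2
  obtain ⟨c1, c2, c3, c4⟩ := h3
  have e1 : (fr4_rt ht1).1 - (sg (fr4_rt ht1)).1 = c.1 - (sg c).1 := fr4_df_eq a1
  have e2 : (fr4_rt ht2).1 - (sg (fr4_rt ht2)).1 = c.1 - (sg c).1 := fr4_df_eq b1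
  have e3 : (fr4_rt ht3).1 - (sg (fr4_rt ht3)).1 = c.1 - (sg c).1 := fr4_df_eq c1
  have s1 := fr4_sh hc e1
  have s2 := fr4_sh hc e2
  have s3 := fr4_sh hc e3
  have o1 : dg c (fr4_rt ht1) = 0 := by rw [fr4_dg hc]; exact a2
  have o2 : dg c (fr4_rt ht2) = 0 := by rw [fr4_dg hc]; exact b2
  have o3 : dg c (fr4_rt ht3) = 0 := by rw [fr4_dg hc]; exact c2
  have o4 : dg (fr4_rt ht1) (fr4_rt ht2) = 0 := by rw [fr4_dg s1]; exact b3
  have o5 : dg (fr4_rt ht1) (fr4_rt ht3) = 0 := by rw [fr4_dg s1]; exact c3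
  have o6 : dg (fr4_rt ht2) (fr4_rt ht3) = 0 := by rw [fr4_dg s2]; exact c4
  have hsy : ∀ a b : Rt C6, sg a ≠ a → sg b ≠ b → dg a b = 0 → dg b a = 0 := by
    intro a b ha hb h
    rw [dg_symm b a ⟨fun h => absurd h hb, fun h => absurd h ha⟩, h]
  refine ⟨![c, fr4_rt ht1, fr4_rt ht2, fr4_rt ht3], ⟨?_, ?_, ?_⟩, rfl⟩
  · intro i
    fin_cases i
    · exact hc
    · exact s1
    · exact s2
    · exact s3
  · intro i j hij
    fin_cases i <;> fin_cases j
    · exact absurd rfl hij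
    · exact o1
    · exact o2
    · exact o3
    · exact hsy _ _ hc s1 o1
    · exact absurd rfl hij
    · exact o4
    · exact o5
    · exact hsy _ _ hc s2 o2
    · exact hsy _ _ s1 s2 o4
    · exact absurd rfl hij
    · exact o6
    · exact hsy _ _ hc s3 o3
    · exact hsy _ _ s1 s3 o5
    · exact hsy _ _ s2 s3 o6
    · exact absurd rfl hij
  · have key : ∀ i : Fin 4, ((![c, fr4_rt ht1, fr4_rt ht2, fr4_rt ht3] : Fin 4 → Rt C6) i).1 -
        (sg ((![c, fr4_rt ht1, fr4_rt ht2, fr4_rt ht3] : Fin 4 → Rt C6) i)).1 =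
          c.1 - (sg c).1 := by
      intro i
      fin_cases i
      · rfl
      · exact e1
      · exact e2
      · exact e3
    intro i j
    rw [key i, key j]

/-! ### the expansion in the frame -/

/-- the coordinates of invariant vectors -/
def fr4_co : Fin 4 → Fin 6 := ![0, 1, 2, 4]

theorem fr4_ext {x : Fin 6 → ℤ} (hx : sv x = x) (h : ∀ i, x (fr4_co i) = 0) : x = 0 := by
  have h0 : x 0 = 0 := h 0
  have h1 : x 1 = 0 := h 1
  have h2 : x 2 = 0 := h 2
  have h4 : x 4 = 0 := h 3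
  have h3 : x 3 = x 2 := congrFun hx 2
  have h5 : x 5 = x 4 := congrFun hx 4
  funext i
  fin_cases i
  · exact h0
  · exact h1
  · exact h2
  · exact h3.trans h2
  · exact h4
  · exact h5.trans h4

theorem fr4_complete {y : Fin 4 → Fin 6 → ℤ} (hy : ∀ i, sv (y i) = y i)
    (ho : ∀ i j, ip C6 (y i) (y j) = if i = j then 4 else 0) {z : Fin 6 → ℤ} (hz : sv z = z)
    (hzy : ∀ j, ip C6 z (y j) = 0) : z = 0 := by
  let vec : Option (Fin 4) → Fin 6 → ℤ := fun o => o.elim z y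
  let M : Matrix (Option (Fin 4)) (Option (Fin 4)) ℤ :=
    fun i j => i.elim 0 (fun c => vec j (fr4_co c))
  have hdet : M.det = 0 := Matrix.det_eq_zero_of_row_eq_zero none fun _ => rfl
  obtain ⟨v, hv, hMv⟩ := Matrix.exists_mulVec_eq_zero_iff.2 hdet
  have hsum : v none • z + ∑ i, v (some i) • y i = 0 := by
    apply fr4_ext
    · have h1 : ∀ (a b : Fin 6 → ℤ), sv (a + b) = sv a + sv b := fun _ _ => rfl
      have h2 : sv (v none • z + ∑ i, v (some i) • y i) =
          v none • sv z + ∑ i, v (some i) • sv (y i) := by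
        funext l
        show (v none • z + ∑ i, v (some i) • y i) (tau l) =
          (v none • sv z + ∑ i, v (some i) • sv (y i)) l
        simp only [Pi.add_apply, Pi.smul_apply, Finset.sum_apply]
        rfl
      rw [h2, hz]
      simp only [hy]
    · intro c
      have h1 := congrFun hMv (some c)
      rw [Matrix.mulVec, dotProduct, Fintype.sum_option] at h1
      have h2 : M (some c) none * v none = v none * z (fr4_co c) := mul_comm _ _
      have h3 : ∀ i : Fin 4, M (some c) (some i) * v (some i) =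
          v (some i) * y i (fr4_co c) := fun i => mul_comm _ _
      rw [h2, Finset.sum_congr rfl fun i _ => h3 i] at h1
      simp only [Pi.add_apply, Pi.smul_apply, Finset.sum_apply, smul_eq_mul]
      exact h1
  have hvi : ∀ j, v (some j) = 0 := by
    intro j
    have h1 : ip C6 (v none • z + ∑ i, v (some i) • y i) (y j) = 0 := by
      rw [hsum, ip_zero_left]
    rw [ip_add_left, ip_smul_left, hzy, mul_zero, zero_add, ip_sum_left,
      Finset.sum_eq_single j] at h1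
    · rw [ip_smul_left, ho, if_pos rfl] at h1
      omega
    · intro i _ hij
      rw [ip_smul_left, ho, if_neg hij, mul_zero]
    · intro h
      exact absurd (Finset.mem_univ j) h
  have hv0 : v none ≠ 0 := by
    intro h0
    apply hv
    funext o
    cases o with
    | none => exact h0
    | some i => exact hvi i
  rw [Finset.sum_eq_zero fun i _ => by rw [hvi i, zero_smul], add_zero] at hsum
  exact (smul_eq_zero.1 hsum).resolve_left hv0

/-- the invariant vector of a root -/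
def fr4_y (d : Rt C6) : Fin 6 → ℤ := d.1 + (sg d).1

theorem fr4_y_sv (d : Rt C6) : sv (fr4_y d) = fr4_y d := by
  show sv (d.1 + sv d.1) = d.1 + sv d.1
  have h1 : sv (d.1 + sv d.1) = sv d.1 + sv (sv d.1) := rfl
  rw [h1, sv_sv, add_comm]

theorem fr4_y_ip {a : Rt C6} (ha : sg a ≠ a) (b : Rt C6) :
    ip C6 (fr4_y b) (fr4_y a) = 2 * dg a b := by
  rw [Comb_comm]
  unfold fr4_y
  rw [Comb_dd, dg_short a b ha]

theorem fr4_orth {k : Fin 4 → Rt C6} (hk : Fr k) (i j : Fin 4) :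
    ip C6 (fr4_y (k i)) (fr4_y (k j)) = if i = j then 4 else 0 := by
  rw [fr4_y_ip (hk.sh j)]
  by_cases h : i = j
  · rw [if_pos h, h, dg_self]
    norm_num
  · rw [if_neg h, hk.orth j i (Ne.symm h), mul_zero]

theorem fr4_C {k : Fin 4 → Rt C6} (hk : Fr k) (d : Rt C6) :
    (2 : ℤ) • fr4_y d = ∑ i, dg (k i) d • fr4_y (k i) := by
  have h1 : (2 : ℤ) • fr4_y d - ∑ i, dg (k i) d • fr4_y (k i) = 0 := by
    refine fr4_complete (fun i => fr4_y_sv (k i)) (fr4_orth hk) ?_ ?_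
    · funext l
      show ((2 : ℤ) • fr4_y d - ∑ i, dg (k i) d • fr4_y (k i)) (tau l) =
        ((2 : ℤ) • fr4_y d - ∑ i, dg (k i) d • fr4_y (k i)) l
      have e1 : ∀ (b : Rt C6), fr4_y b (tau l) = fr4_y b l := fun b => congrFun (fr4_y_sv b) l
      simp only [Pi.sub_apply, Pi.smul_apply, Finset.sum_apply, e1]
    · intro j
      rw [ip_sub_left, ip_smul_left, fr4_y_ip (hk.sh j), ip_sum_left, Finset.sum_eq_single j]
      · rw [ip_smul_left, fr4_orth hk, if_pos rfl]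
        ring
      · intro i _ hij
        rw [ip_smul_left, fr4_orth hk, if_neg hij, mul_zero]
      · intro h
        exact absurd (Finset.mem_univ j) h
  exact sub_eq_zero.1 h1

theorem fr4_norm {k : Fin 4 → Rt C6} (hk : Fr k) (d : Rt C6) :
    ip C6 (fr4_y d) (fr4_y d) = ∑ i, dg (k i) d * dg (k i) d := by
  have h1 : 2 * ip C6 (fr4_y d) (fr4_y d) = 2 * ∑ i, dg (k i) d * dg (k i) d := by
    rw [← ip_smul_left, fr4_C hk, ip_sum_left, Finset.mul_sum]
    refine Finset.sum_congr rfl fun i _ => ?_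
    rw [ip_smul_left, Comb_comm, fr4_y_ip (hk.sh i)]
    ring
  linarith

theorem fr4_sq {p : ℤ} (h : -2 ≤ p ∧ p ≤ 2) :
    (p = 0 ∧ p * p = 0) ∨ ((p = 1 ∨ p = -1) ∧ p * p = 1) ∨ ((p = 2 ∨ p = -2) ∧ p * p = 4) := by
  obtain ⟨h1, h2⟩ := h
  interval_cases p <;> simp

theorem fr4_fin (P : Fin 4 → Prop) (h : P 0 ∨ P 1 ∨ P 2 ∨ P 3) : ∃ i, P i := by
  rcases h with h | h | h | h
  · exact ⟨0, h⟩
  · exact ⟨1, h⟩
  · exact ⟨2, h⟩
  · exact ⟨3, h⟩

theorem fr4_mem {k : Fin 4 → Rt C6} (hk : Fr k) {d : Rt C6} (hd : sg d ≠ d) {i : Fin 4}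
    (h : dg (k i) d = 2 ∨ dg (k i) d = -2) : d ∈ FrS k := by
  have hl : sg (k i) = k i ↔ sg d = d := ⟨fun h => absurd h (hk.sh i), fun h => absurd h hd⟩
  rcases h with h | h
  · exact ⟨i, Or.inl (dg_two _ _ h hl)⟩
  · exact ⟨i, Or.inr (dg_neg_two _ _ h hl)⟩

theorem fr4_short {k : Fin 4 → Rt C6} (hk : Fr k) {d : Rt C6} (hd : sg d ≠ d) :
    (∃ i, dg (k i) d = 2 ∨ dg (k i) d = -2) ∨ ∀ i, dg (k i) d = 1 ∨ dg (k i) d = -1 := by
  have h1 := fr4_norm hk d
  have h2 : ip C6 (fr4_y d) (fr4_y d) = 4 := Comb_NS d hd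
  rw [h2, Fin.sum_univ_four] at h1
  have q0 := fr4_sq (dg_range (k 0) d)
  have q1 := fr4_sq (dg_range (k 1) d)
  have q2 := fr4_sq (dg_range (k 2) d)
  have q3 := fr4_sq (dg_range (k 3) d)
  generalize dg (k 0) d * dg (k 0) d = m0 at *
  generalize dg (k 1) d * dg (k 1) d = m1 at *
  generalize dg (k 2) d * dg (k 2) d = m2 at *
  generalize dg (k 3) d * dg (k 3) d = m3 at *
  by_cases h : (dg (k 0) d = 2 ∨ dg (k 0) d = -2) ∨ (dg (k 1) d = 2 ∨ dg (k 1) d = -2) ∨
      (dg (k 2) d = 2 ∨ dg (k 2) d = -2) ∨ (dg (k 3) d = 2 ∨ dg (k 3) d = -2)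
  · exact Or.inl (fr4_fin (fun i => dg (k i) d = 2 ∨ dg (k i) d = -2) h)
  · right
    have r0 : dg (k 0) d = 1 ∨ dg (k 0) d = -1 := by omega
    have r1 : dg (k 1) d = 1 ∨ dg (k 1) d = -1 := by omega
    have r2 : dg (k 2) d = 1 ∨ dg (k 2) d = -1 := by omega
    have r3 : dg (k 3) d = 1 ∨ dg (k 3) d = -1 := by omega
    intro i
    fin_cases i
    · exact r0
    · exact r1
    · exact r2
    · exact r3

theorem fr4_dg_mem {k : Fin 4 → Rt C6} (hk : Fr k) {d : Rt C6} (h : d ∈ FrS k) (j : Fin 4) :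
    dg (k j) d = 0 ∨ dg (k j) d = 2 ∨ dg (k j) d = -2 := by
  obtain ⟨i, h | h⟩ := h
  · have h1 : dg (k j) d = dg (k j) (k i) := by
      rcases h with rfl | rfl
      · rfl
      · rw [dg_sg_right]
    rw [h1]
    by_cases hij : j = i
    · rw [hij, dg_self]
      exact Or.inr (Or.inl rfl)
    · exact Or.inl (hk.orth j i hij)
  · have h1 : dg (k j) d = -dg (k j) (k i) := by
      rcases h with rfl | rfl
      · rw [dg_ng_right]
      · rw [dg_sg_right, dg_ng_right]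
    rw [h1]
    by_cases hij : j = i
    · rw [hij, dg_self]
      exact Or.inr (Or.inr rfl)
    · left
      rw [hk.orth j i hij, neg_zero]

theorem frame_even {k : Fin 4 → Rt C6} (hk : Fr k) (d : Rt C6) (hd : sg d ≠ d) :
    Even (dg (k 0) d) ↔ d ∈ FrS k := by
  constructor
  · intro h
    rcases fr4_short hk hd with ⟨i, h1⟩ | h1
    · exact fr4_mem hk hd h1
    · exfalso
      rw [Int.even_iff] at h
      rcases h1 0 with h2 | h2 <;> omega
  · intro h
    rw [Int.even_iff]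
    rcases fr4_dg_mem hk h 0 with h1 | h1 | h1 <;> omega

/-- short roots outside the frame have odd products with all members -/
theorem frame_odd {k : Fin 4 → Rt C6} (hk : Fr k) (d : Rt C6) (hd : sg d ≠ d) (hd' : d ∉ FrS k)
    (i : Fin 4) : dg (k i) d = 1 ∨ dg (k i) d = -1 := by
  rcases fr4_short hk hd with ⟨j, h1⟩ | h1
  · exact absurd (fr4_mem hk hd h1) hd'
  · exact h1 i

/-- the products with the frame determine the root of F_4 -/
theorem frame_inj {k : Fin 4 → Rt C6} (hk : Fr k) (d e : Rt C6)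
    (h : ∀ i, dg (k i) d = dg (k i) e) : Eq4 d e := by
  rw [Eq4_iff]
  have h1 := fr4_C hk d
  have h2 := fr4_C hk e
  simp only [h] at h1
  rw [← h2] at h1
  exact smul_right_injective (Fin 6 → ℤ) (two_ne_zero : (2 : ℤ) ≠ 0) h1

theorem fr4_half {x y z : Fin 6 → ℤ} {p q : ℤ} (h : (2 : ℤ) • x = p • y + q • z)
    {p' q' : ℤ} (hp : p = 2 * p') (hq : q = 2 * q') : x = p' • y + q' • z := by
  apply smul_right_injective (Fin 6 → ℤ) (two_ne_zero : (2 : ℤ) ≠ 0)
  show (2 : ℤ) • x = (2 : ℤ) • (p' • y + q' • z)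
  rw [h, hp, hq, smul_add, smul_smul, smul_smul]

theorem fr4_pair (p : Fin 4 → ℤ) (hp : ∀ i, p i = 0 ∧ p i * p i = 0 ∨
    (p i = 2 ∨ p i = -2) ∧ p i * p i = 4) (h : ∑ i, p i * p i = 8) :
    ∃ i j, i ≠ j ∧ (p i = 2 ∨ p i = -2) ∧ (p j = 2 ∨ p j = -2) ∧
      ∀ l, l ≠ i ∧ l ≠ j → p l = 0 := by
  rw [Fin.sum_univ_four] at h
  have q0 := hp 0
  have q1 := hp 1
  have q2 := hp 2
  have q3 := hp 3
  generalize p 0 * p 0 = m0 at h q0
  generalize p 1 * p 1 = m1 at h q1
  generalize p 2 * p 2 = m2 at h q2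
  generalize p 3 * p 3 = m3 at h q3
  have key : ∀ i j : Fin 4, (∀ l, l ≠ i ∧ l ≠ j → p l = 0) ↔
      ((0 ≠ i ∧ 0 ≠ j → p 0 = 0) ∧ (1 ≠ i ∧ 1 ≠ j → p 1 = 0) ∧ (2 ≠ i ∧ 2 ≠ j → p 2 = 0) ∧
        (3 ≠ i ∧ 3 ≠ j → p 3 = 0)) := by
    intro i j
    constructor
    · intro h
      exact ⟨h 0, h 1, h 2, h 3⟩
    · rintro ⟨h0, h1, h2, h3⟩ l
      fin_cases l
      · exact h0
      · exact h1
      · exact h2
      · exact h3
  rcases q0 with ⟨z0, w0⟩ | ⟨z0, w0⟩ <;> rcases q1 with ⟨z1, w1⟩ | ⟨z1, w1⟩ <;>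
    rcases q2 with ⟨z2, w2⟩ | ⟨z2, w2⟩ <;> rcases q3 with ⟨z3, w3⟩ | ⟨z3, w3⟩ <;>
    first
    | (exfalso; omega)
    | exact ⟨0, 1, by decide, z0, z1, (key 0 1).2 ⟨fun h => absurd rfl h.1,
        fun h => absurd rfl h.2, fun _ => z2, fun _ => z3⟩⟩
    | exact ⟨0, 2, by decide, z0, z2, (key 0 2).2 ⟨fun h => absurd rfl h.1,
        fun _ => z1, fun h => absurd rfl h.2, fun _ => z3⟩⟩
    | exact ⟨0, 3, by decide, z0, z3, (key 0 3).2 ⟨fun h => absurd rfl h.1,
        fun _ => z1, fun _ => z2, fun h => absurd rfl h.2⟩⟩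
    | exact ⟨1, 2, by decide, z1, z2, (key 1 2).2 ⟨fun _ => z0,
        fun h => absurd rfl h.1, fun h => absurd rfl h.2, fun _ => z3⟩⟩
    | exact ⟨1, 3, by decide, z1, z3, (key 1 3).2 ⟨fun _ => z0,
        fun h => absurd rfl h.1, fun _ => z2, fun h => absurd rfl h.2⟩⟩
    | exact ⟨2, 3, by decide, z2, z3, (key 2 3).2 ⟨fun _ => z0, fun _ => z1,
        fun h => absurd rfl h.1, fun h => absurd rfl h.2⟩⟩

theorem fr4_long {k : Fin 4 → Rt C6} (hk : Fr k) (a : Rt C6) (ha : sg a = a) :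
    ∃ i j, i ≠ j ∧ (fr4_y a = fr4_y (k i) + fr4_y (k j) ∨ fr4_y a = fr4_y (k i) - fr4_y (k j) ∨
      fr4_y a = -fr4_y (k i) - fr4_y (k j)) := by
  have h1 := fr4_norm hk a
  have h2 : ip C6 (fr4_y a) (fr4_y a) = 8 := Comb_NL a ha
  rw [h2] at h1
  have hp : ∀ i, dg (k i) a = 0 ∧ dg (k i) a * dg (k i) a = 0 ∨
      (dg (k i) a = 2 ∨ dg (k i) a = -2) ∧ dg (k i) a * dg (k i) a = 4 := by
    intro i
    have e1 := dg_SL (k i) a (hk.sh i) ha
    rcases fr4_sq (dg_range (k i) a) with h | h | h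
    · exact Or.inl h
    · exfalso
      have e2 := h.1
      omega
    · exact Or.inr h
  obtain ⟨i, j, hij, hi, hj, hl⟩ := fr4_pair (fun i => dg (k i) a) hp h1.symm
  have h3 := fr4_C hk a
  rw [Fintype.sum_eq_add i j hij fun l hl' => by rw [hl l hl', zero_smul]] at h3
  have hi' : dg (k i) a = 2 ∨ dg (k i) a = -2 := hi
  have hj' : dg (k j) a = 2 ∨ dg (k j) a = -2 := hj
  rcases hi' with hi' | hi' <;> rcases hj' with hj' | hj'
  · refine ⟨i, j, hij, Or.inl ?_⟩
    have h4 := fr4_half h3 (p' := 1) (q' := 1) (by rw [hi']; norm_num) (by rw [hj']; norm_num)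
    rw [h4]
    module
  · refine ⟨i, j, hij, Or.inr (Or.inl ?_)⟩
    have h4 := fr4_half h3 (p' := 1) (q' := -1) (by rw [hi']; norm_num) (by rw [hj']; norm_num)
    rw [h4]
    module
  · refine ⟨j, i, hij.symm, Or.inr (Or.inl ?_)⟩
    have h4 := fr4_half h3 (p' := -1) (q' := 1) (by rw [hi']; norm_num) (by rw [hj']; norm_num)
    rw [h4]
    module
  · refine ⟨i, j, hij, Or.inr (Or.inr ?_)⟩
    have h4 := fr4_half h3 (p' := -1) (q' := -1) (by rw [hi']; norm_num) (by rw [hj']; norm_num)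
    rw [h4]
    module

theorem fr4_y_ng (a : Rt C6) : fr4_y (ng a) = -fr4_y a := by
  unfold fr4_y
  rw [sg_ng, ng_val, ng_val]
  abel

theorem frame_long {k : Fin 4 → Rt C6} (hk : Fr k) (a : Rt C6) (ha : sg a = a) :
    ∃ i j, i ≠ j ∧ (Sm (k i) (k j) a ∨ Sm (k i) (ng (k j)) a ∨ Sm (ng (k i)) (ng (k j)) a) := by
  obtain ⟨i, j, hij, h⟩ := fr4_long hk a ha
  refine ⟨i, j, hij, ?_⟩
  rcases h with h | h | h
  · exact Or.inl h
  · right
    left
    show fr4_y a = fr4_y (k i) + fr4_y (ng (k j))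
    rw [h, fr4_y_ng]
    abel
  · right
    right
    show fr4_y a = fr4_y (ng (k i)) + fr4_y (ng (k j))
    rw [h, fr4_y_ng, fr4_y_ng]
    abel

/-- the coroot of a short root is the sum of two long roots -/
theorem cv_short (d : Rt C6) (hd : sg d ≠ d) : ∃ a b : Rt C6, sg a = a ∧ sg b = b ∧
    cv d = a.1 + b.1 := by
  have h0 := List.all_eq_true.1 fr4_chk2_true (EnumTup d.1) (Enum_mem d.1 d.2)
  rw [Bool.or_eq_true] at h0
  have h1 := h0.resolve_left (fun h => fr4_sg_ne hd (by simpa using h))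
  obtain ⟨s, hs, h1⟩ := List.any_eq_true.1 h1
  simp only [Bool.and_eq_true, beq_iff_eq] at h1
  obtain ⟨a1, a2, a3⟩ := h1
  have h2 : ip C6 (EnumVec (fr4_sub (EnumTup d.1) s)) (EnumVec (fr4_sub (EnumTup d.1) s)) = 2 := by
    rw [Enum_ip]
    exact a2
  refine ⟨fr4_rt hs, ⟨EnumVec (fr4_sub (EnumTup d.1) s), h2⟩,
    Subtype.ext (fr4_df_zero (x := EnumVec s) a1),
    Subtype.ext (fr4_df_zero (x := EnumVec (fr4_sub (EnumTup d.1) s)) a3), ?_⟩
  show cv d = EnumVec s + EnumVec (fr4_sub (EnumTup d.1) s)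
  rw [fr4_vec_sub, Enum_vec_tup]
  have h3 : cv d = d.1 + sv d.1 := if_neg hd
  rw [h3]
  abel

/-- the coroot of a long root is half the sum of two coroots of the frame, up to sign -/
theorem cv_long {k : Fin 4 → Rt C6} (hk : Fr k) (a : Rt C6) (ha : sg a = a) :
    ∃ i j, i ≠ j ∧ (a.1 + a.1 = cv (k i) + cv (k j) ∨ a.1 + a.1 = cv (k i) - cv (k j) ∨
      a.1 + a.1 = -cv (k i) - cv (k j)) := by
  obtain ⟨i, j, hij, h⟩ := fr4_long hk a ha
  have h1 : fr4_y a = a.1 + a.1 := by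
    unfold fr4_y
    rw [ha]
  have h2 : ∀ i, fr4_y (k i) = cv (k i) := fun i => (if_neg (hk.sh i)).symm
  rw [h1, h2, h2] at h
  exact ⟨i, j, hij, h⟩

end Pool.Agent.H31.F4
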