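import Pool.Agent.H31.F4.Orb4

/-!
# FF-40: long points orthogonal to `OrbL F` commute with the long root groups

`U` = span of `OrbL F`.  `v = g (e c)`, `w = e b`, `z = [v, w]`.  `v` is extremal, `fm v w = 0`:
`ex (t • v) w = w + t z` (`[v,[v,w]] = 0`), and it is `(ex (t v)) (e b)` with `ex (t v) ∈ F` (`PtF_ex`), so
`PtF F (ex (t v)) b`.  `fm z (e (ng b)) = -fm … = ± fm v [w, e (ng b)] = ± fm v (h_b)`, and
`h_b = hh (zk b) ∈ U` (`xf b 1 (e (ng b)) = e (ng b) - h_b + e b`, all in `OrbL F`), so it is 0 and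
`fm (w + t z) (e (ng b)) = -1 ≠ 0` (`sym4`); `OrbL_P`: `w + t z ∈ OrbL F`, `z ∈ U`.
For `w' ∈ OrbL F`: `fm z w' = ± fm v [w, w']` and `[w, w'] ∈ U`: `xf b s w' ∈ OrbL F`, and
`xf b s w' = w' + s [e_b, w'] + s² (…)`: three values of `s` (or `s = ±1`: difference is `2 [e_b, w']`).
So `fm z w' = 0`: `z ∈ U ⊓ U^⊥ =: R`, `T4`-invariant.  Root coordinates of `z`: if `z.2 d ≠ 0` then
`Df d ∈ R` (`comp4_LF`), `d ∈ SF4 F` (`OrbL_span`).  `Df (ng d) ∈ U`: apply the Weyl element `w ∈ Fo4 F` of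
`weyl H F (d, ng d ∈ SF4 F)` with `rfv d d = -d`: `w (Df d) = k Df (ng d)` (`span_Fo4`).
`fm (Df d) (Df (ng d)) ≠ 0` contradicts `Df d ∈ U^⊥`.  So `z = hh h`, `sv h = h`.
`w + t z` extremal (`t = 1`): apply the definition to `x = hh h'`: `[y,[y,hh h']]`, `y = e_b + hh h`:
`[y, hh h'] = -(h',b) e_b`, `[y, e_b] = (h,b) e_b`; right side `-2 (h,h') (e_b + hh h)`; toral part:
`(h,h') h = 0` for all `h'`; if `h ≠ 0` then `(h,h') = 0` for all `h'`, `h = 0` by `nds`.

`ADJ4`: replace `a` by `ng a` (`sym4`) such that `dg d a < 0`, so `dg d a = -2`, `dg a d = -1`; `Sm a d d'` (`sm_of_neg`),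
`d' ∈ SF4 F` short (`SF4_closed`), `Sm d' (ng a) d`.  `hx` for `f = xf d' s` and `ng a` (`s = ±1`, difference):
`[x, [Df d', e (ng a)]] = 0`, and `[Df d', e (ng a)] = k Df d`, `k ≠ 0` (`br_DD`).
-/

namespace Pool.Agent.H31.F4

open Pool.Agent.H33.EL (ip cc eps Rt ng zk ek fk LL hh e brf fmf br fm IsExt exl ex xr hd L0 GG T1 TT NN SF cj wt)

variable {K : Type} [Field K]

variable {p : ℕ} {F : Subgroup (LL C6 K ≃ₗ[K] LL C6 K)}

theorem LL4_mv (H : HypW C6 K) (u x y : LL C6 K) : fm (br u x) y = fm u (br x y) := by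
  rw [br_skew H u x, map_neg, LinearMap.neg_apply, fm_inv H, neg_neg]

/-- `e_b + hh h` is extremal only for `h = 0` -/
theorem LL4_hh (H : HypW C6 K) {c : Rt C6} {h : Fin 6 → K} (hs : sv h = h)
    (hy : IsExt (e K c + hh C6 h)) : h = 0 := by
  by_contra hne
  apply hne
  refine nds H hs fun a => ?_
  have h1 := hy (hh C6 (zk a.1))
  have h2 : br (e K c + hh C6 h) (hh C6 (zk a.1 : Fin 6 → K)) =
      -(fk C6 (zk a.1 : Fin 6 → K) (zk c.1)) • e K c := by
    rw [map_add, LinearMap.add_apply, br_e_hh, br_hh_hh, add_zero]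
  rw [h2, map_smul, map_add, LinearMap.add_apply, br_self H, br_hh_e, zero_add] at h1
  have h3 := congrArg Prod.fst h1
  simp only [Prod.smul_fst, e_fst, Prod.fst_add, hh_fst, smul_zero, zero_add] at h3
  have h4 := h3.symm
  rw [smul_eq_zero] at h4
  rcases h4 with h4 | h4
  · rw [fm_hh_right] at h4
    simp only [Prod.fst_add, e_fst, hh_fst, zero_add] at h4
    rcases mul_eq_zero.1 h4 with h5 | h5
    · exact absurd (neg_eq_zero.1 h5) (two_ne H)
    · exact h5
  · exact absurd h4 hne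

/-- the form vanishes on the span -/
theorem LL4_span {A : Set (LL C6 K)} {u : LL C6 K} (h : ∀ v ∈ A, fm u v = 0) {x : LL C6 K}
    (hx : x ∈ Submodule.span K A) : fm u x = 0 := by
  have h1 : Submodule.span K A ≤ LinearMap.ker (fm u) := by
    rw [Submodule.span_le]
    intro v hv
    exact LinearMap.mem_ker.2 (h v hv)
  exact LinearMap.mem_ker.1 (h1 hx)

/-- values at `1` and `-1` -/
theorem LL4_pm (H : HypW C6 K) (a : Rt C6) (x : LL C6 K) :
    (2 : K) • br (Df K a) x = xf a 1 x - xf a (-1) x := by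
  rw [xf_apply H, xf_apply H]
  module

theorem LL4_br_mem (H : HypW C6 K) {b : Rt C6} (hb : b ∈ SF4 F) {U : Submodule K (LL C6 K)}
    {x : LL C6 K} (hx : ∀ s : K, xf b s x ∈ U) : br (Df K b) x ∈ U := by
  have h1 : (2 : K) • br (Df K b) x ∈ U := by
    rw [LL4_pm H]
    exact U.sub_mem (hx 1) (hx (-1))
  have h2 := U.smul_mem (2⁻¹ : K) h1
  rwa [smul_smul, inv_mul_cancel₀ (two_ne H), one_smul] at h2

/-- the orthogonal space of a subspace -/
def LL4_perp (U : Submodule K (LL C6 K)) : Submodule K (LL C6 K) where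
  carrier := {x | ∀ u ∈ U, fm x u = 0}
  zero_mem' := fun u _ => by rw [map_zero, LinearMap.zero_apply]
  add_mem' := by
    intro x y hx hy u hu
    rw [map_add, LinearMap.add_apply, hx u hu, hy u hu, add_zero]
  smul_mem' := by
    intro k x hx u hu
    rw [map_smul, LinearMap.smul_apply, hx u hu, smul_zero]

/-- the opposite root of `F` has its root vector in the span -/
theorem LL4_opp (H : HypW C6 K) [Fact p.Prime] [CharP K p] (X : HB p F) {d : Rt C6}
    (hd : d ∈ SF4 F) (hU : Df K d ∈ Submodule.span K (OrbL F)) :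
    Df K (ng d) ∈ Submodule.span K (OrbL F) := by
  obtain ⟨w, hw, -, -, h⟩ := weyl H F hd (sym4 H X hd)
  have h1 : (ng d).1 = rfv d d := by
    rw [ng_val]
    unfold rfv
    have h2 : ip C6 d.1 d.1 = 2 := d.2
    by_cases hs : sg d = d
    · rw [if_pos hs, h2]
      module
    · rw [if_neg hs, h2, Comb_sg_left, cb_self d hs]
      module
  obtain ⟨⟨k, hk, h2⟩, -⟩ := h d (ng d) h1
  have h3 : w (Df K d) ∈ Submodule.span K (OrbL F) := (span_Fo4 hw).1 _ hU
  rw [h2] at h3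
  have h4 := Submodule.smul_mem _ k⁻¹ h3
  rwa [smul_smul, inv_mul_cancel₀ hk, one_smul] at h4

theorem LL4_D_self (d : Rt C6) : (Df K d).2 d = 1 := by
  have h : Eq4 d d := Or.inl rfl
  rw [Df_snd, if_pos h]

theorem LL4_fm_D (H : HypW C6 K) (d : Rt C6) : fm (Df K d) (Df K (ng d)) ≠ 0 := by
  by_cases hs : sg d = d
  · rw [Df_long hs, Df_long ((sg_ng_iff d).2 hs), fm_e_left, e_snd_self]
    exact neg_ne_zero.2 one_ne_zero
  · rw [fm_D H (Df_mem (ng d)) d hs, LL4_D_self, mul_one]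
    exact neg_ne_zero.2 (two_ne H)

theorem LL4 (H : HypW C6 K) [Fact p.Prime] [CharP K p] (X : HB p F) {c : Rt C6} (hc : sg c = c)
    {g : LL C6 K ≃ₗ[K] LL C6 K} (hg : PtF F g c) (ho : ∀ u ∈ OrbL F, fm (g (e K c)) u = 0)
    {b : Rt C6} (hb : b ∈ SF4 F) (hbl : sg b = b) : br (g (e K c)) (e K b) = 0 := by
  have hgG : g ∈ GG C6 K := GF_le_GG hg.1
  have hcL : e K c ∈ LF K := by
    rw [← Df_long hc]
    exact Df_mem c
  have hvL : g (e K c) ∈ LF K := (GF_LF hg.1 _).2 hcL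
  have hv : IsExt (g (e K c)) := IsExt_map (isExt_e H c) hgG
  have hvF : ∀ s : K, ex (s • g (e K c)) ∈ F := by
    intro s
    have h1 := PtF_ex hg s
    rwa [Df_long hc] at h1
  have hbO : e K b ∈ OrbL F := e_mem_OrbL hb hbl
  have hnb : ng b ∈ SF4 F := sym4 H X hb
  have hnbl : sg (ng b) = ng b := (sg_ng_iff b).2 hbl
  have hnbO : e K (ng b) ∈ OrbL F := e_mem_OrbL hnb hnbl
  generalize hve : g (e K c) = v at *
  have hsp : ∀ x ∈ Submodule.span K (OrbL F), fm v x = 0 := fun x hx => LL4_span ho hx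
  have hxf : ∀ {x : LL C6 K}, x ∈ OrbL F → ∀ s : K, xf b s x ∈ Submodule.span K (OrbL F) :=
    fun hx s => Submodule.subset_span (OrbL_Fo4 hx (xf_mem_Fo4 hb s))
  -- brackets with the root vector
  have hbr : ∀ w' ∈ OrbL F, br (e K b) w' ∈ Submodule.span K (OrbL F) := by
    intro w' hw'
    rw [← Df_long hbl]
    exact LL4_br_mem H hb (hxf hw')
  have hzperp : ∀ w' ∈ OrbL F, fm (br v (e K b)) w' = 0 := by
    intro w' hw'
    rw [LL4_mv H]
    exact hsp _ (hbr w' hw')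
  -- the element of the orbit
  have hf1 : ex v ∈ F := by
    have := hvF 1
    rwa [one_smul] at this
  have hfG : ex v ∈ GG C6 K := ex_mem_GG H hv
  have hy : ex v (e K b) = e K b + br v (e K b) := by
    rw [ex_apply' H hv, ho _ hbO, zero_smul, sub_zero]
  have hyO : e K b + br v (e K b) ∈ OrbL F := by
    rw [← hy]
    refine OrbL_P H X hbl (PtF_self X.hF hf1 hb) hnbO ?_
    rw [hy, map_add, LinearMap.add_apply, hzperp _ hnbO, add_zero, fm_e_left, e_snd_self]
    exact neg_ne_zero.2 one_ne_zero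
  have hyE : IsExt (e K b + br v (e K b)) := by
    rw [← hy]
    exact IsExt_map (isExt_e H b) hfG
  have hzU : br v (e K b) ∈ Submodule.span K (OrbL F) := by
    have h1 : br v (e K b) = (e K b + br v (e K b)) - e K b := by abel
    rw [h1]
    exact Submodule.sub_mem _ (Submodule.subset_span hyO) (Submodule.subset_span hbO)
  have hbL : e K b ∈ LF K := (OrbL_LF H hbO).1
  have hzL : br v (e K b) ∈ LF K := br_LF_LF hvL hbL
  generalize hz : br v (e K b) = z at *
  -- the root coordinates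
  have hR : ∀ t ∈ T4 K, ∀ x ∈ Submodule.span K (OrbL F) ⊓ LL4_perp (Submodule.span K (OrbL F)),
      t x ∈ Submodule.span K (OrbL F) ⊓ LL4_perp (Submodule.span K (OrbL F)) := by
    intro t ht x hx
    have ht1 : t ∈ Fo4 F := T4_le_Fo4 F ht
    have ht2 : t⁻¹ ∈ Fo4 F := inv_mem ht1
    have htG : t ∈ GG C6 K := GF_le_GG (Fo4_le_GF H ht1)
    refine ⟨(span_Fo4 ht1).1 _ hx.1, ?_⟩
    intro u hu
    have h1 := hx.2 (t⁻¹ u) ((span_Fo4 ht2).1 _ hu)
    rw [← htG.2, nor_inv_apply] at h1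
    exact h1
  have hzR : z ∈ Submodule.span K (OrbL F) ⊓ LL4_perp (Submodule.span K (OrbL F)) :=
    ⟨hzU, fun u hu => LL4_span hzperp hu⟩
  have hz2 : ∀ d : Rt C6, z.2 d = 0 := by
    intro d
    by_contra hd
    have h1 := comp4_LF H _ hR hzR hzL d
    have h2 := Submodule.smul_mem _ (z.2 d)⁻¹ h1
    rw [smul_smul, inv_mul_cancel₀ hd, one_smul] at h2
    have hdF : d ∈ SF4 F := by
      by_contra hnd
      have h3 := (OrbL_span H h2.1).2 d hnd
      rw [LL4_D_self] at h3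
      exact one_ne_zero h3
    exact LL4_fm_D H d (h2.2 _ (LL4_opp H X hdF h2.1))
  have hz3 : z = hh C6 z.1 := eq_hh_of_mem ((mem_L0 _).2 (funext hz2))
  have hs : sv z.1 = z.1 := ((mem_LF' z).1 hzL).1
  rw [hz3] at hyE
  rw [hz3, LL4_hh H hs hyE, hh_zero]

/-- short roots adjacent to long roots -/
theorem ADJ4 (H : HypW C6 K) [Fact p.Prime] [CharP K p] (X : HB p F) {x : LL C6 K}
    (hx : ∀ f ∈ Fo4 F, ∀ a ∈ SF4 F, sg a = a → br x (f (e K a)) = 0) {d a : Rt C6}
    (hd : d ∈ SF4 F) (hds : sg d ≠ d) (ha : a ∈ SF4 F) (hal : sg a = a) (hda : dg d a ≠ 0) :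
    br x (Df K d) = 0 := by
  -- we may assume that the value is negative
  have key : ∀ a : Rt C6, a ∈ SF4 F → sg a = a → dg d a < 0 → br x (Df K d) = 0 := by
    clear hda hal ha a
    intro a ha hal hda
    have h1 := dg_SL d a hds hal
    have h2 : dg a d < 0 := by omega
    have h3 : ¬ Eq4 (ng a) d := by
      intro h4
      exact hds ((Eq4_len h4).1 ((sg_ng_iff a).2 hal))
    obtain ⟨d', h4, h5, -⟩ := sm_of_neg a d h2 h3
    have hd' : d' ∈ SF4 F := SF4_closed H F h4 ha hd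
    obtain ⟨k, hk, h6⟩ := br_DD H (Sm_symm (Sm_sub h4))
    have hna : ng a ∈ SF4 F := sym4 H X ha
    have hnal : sg (ng a) = ng a := (sg_ng_iff a).2 hal
    rw [Df_long hnal] at h6
    have h7 : (2 : K) • br x (br (Df K d') (e K (ng a))) = 0 := by
      rw [← map_smul, LL4_pm H, map_sub, hx _ (xf_mem_Fo4 hd' 1) _ hna hnal,
        hx _ (xf_mem_Fo4 hd' (-1)) _ hna hnal, sub_zero]
    rw [h6, map_smul, smul_smul] at h7
    exact (smul_eq_zero.1 h7).resolve_left (mul_ne_zero (two_ne H) hk)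
  rcases lt_or_gt_of_ne hda with h | h
  · exact key a ha hal h
  · refine key (ng a) (sym4 H X ha) ((sg_ng_iff a).2 hal) ?_
    rw [dg_ng_right]
    omega

end Pool.Agent.H31.F4
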