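import Pool.Agent.H31.F4.Nor4

/-!
# FF-09: Lemma C', first part: three weights in arithmetic progression

`g ∈ GF`, `g T4 g⁻¹ ≤ NN` and some `g t g⁻¹` does not fix the line `K Df a`.  `wq t γ` is the weight of
`t` at `γ : Option (Rt C6)` (`none` is the zero weight).
As in `Pool.Agent.H33.EL.LemCa` (header of `LemCd`): `A = T4`, acting through `ρ t = g t g⁻¹`
on `LF`; `ρ t (Df b) = k Df (w b)` (`NN4_perm`).  Let `S = {t ∈ T4 : ρ t (Df a) ∈ K Df a}`, a
proper subgroup.  There are a prime `r ∣ q - 1` and a character `η : T4 → K^*`, trivial on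
`S`, of order `r` (`K` contains the roots of unity of order `q - 1`, `T4_pow`; in EL this is the
private lemma `lca_char`, copy it).  `P_ψ x = ∑_(t ∈ T4) ψ(t)⁻¹ ρ t x` projects to the
`ψ`-weight space of `ρ`; some `P_ψ (Df a) ≠ 0` (sum over all characters); its coordinate at
`d` with `ρ s (Df a) ∈ K Df d` gets multiplied by `η(s)⁻¹` when `ψ` is replaced by `ψη`, so `P_(ψη^i) (Df a) ≠ 0`
for all `i`.  For `x = P_ψ (Df a) ∈ LF`, `g⁻¹ x` is a non zero weight vector of `T4` of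
weight `ψ` in `LF`: it is in `L0` (weight trivial) or has a root coordinate at some `c`, and then
`ψ t = wt t c` (`comp4`, `T4_sep`).  So `ψ, ψη, ψη²` are the weights of `γ0, γ1, γ2`:
`γ0 γ2 = γ1²`, `γ1^r = γ0^r`, and `γ0 ≠ γ1` as functions on `T4`, since `η ≠ 1`.
-/

namespace Pool.Agent.H31.F4

open Pool.Agent.H33.EL (ip cc eps Rt ng zk ek fk LL hh e brf fmf br fm IsExt exl ex xr hd L0 GG T1 TT NN SF cj wt)

variable {K : Type} [Field K]

/-- the weight of `t` at a root or zero -/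
def wq (t : LL C6 K ≃ₗ[K] LL C6 K) : Option (Rt C6) → K
  | none => 1
  | some a => wt t a

private theorem lma_apply (H : HypW C6 K) {t : LL C6 K ≃ₗ[K] LL C6 K} (ht : t ∈ TT C6 K)
    (y : LL C6 K) : (t y).1 = y.1 ∧ ∀ b, (t y).2 b = wt t b * y.2 b := by
  classical
  have h2 : t y = hh C6 y.1 + ∑ a : Rt C6, (y.2 a * wt t a) • e K a := by
    conv_lhs => rw [decomp y]
    rw [map_add, map_sum, ht.2 _ (hh_mem_L0 _)]
    congr 1
    refine Finset.sum_congr rfl fun a _ => ?_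
    rw [map_smul, TT_e H ht, smul_smul]
  rw [h2]
  constructor
  · simp [hh, e, Prod.fst_sum]
  · intro b
    simp [hh, e, Prod.snd_sum, Finset.sum_apply, Pi.single_apply, mul_comm]

private theorem lma_weight (H : HypW C6 K) {y : LL C6 K} (hy : y ≠ 0) (ψ : T4 K → K)
    (h : ∀ t : T4 K, (t : LL C6 K ≃ₗ[K] LL C6 K) y = ψ t • y) :
    ∃ γ : Option (Rt C6), ∀ t : T4 K, wq (t : LL C6 K ≃ₗ[K] LL C6 K) γ = ψ t := by
  by_cases h1 : y.1 = 0
  · have h2 : ∃ b, y.2 b ≠ 0 := by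
      by_contra hc
      push Not at hc
      exact hy (Prod.ext h1 (funext hc))
    obtain ⟨b, hb⟩ := h2
    refine ⟨some b, fun t => ?_⟩
    have h3 := (lma_apply H (T4_le_TT H t.2) y).2 b
    rw [h t] at h3
    exact (mul_right_cancel₀ hb h3).symm
  · refine ⟨none, fun t => ?_⟩
    have h3 := (lma_apply H (T4_le_TT H t.2) y).1
    rw [h t] at h3
    have h4 : ψ t • y.1 = (1 : K) • y.1 := by
      rw [one_smul]
      exact h3
    exact (smul_left_injective K h1 h4).symm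

private theorem lma_line {a b : Rt C6} {c d : K} (h : c • e K a = d • e K b) (hc : c ≠ 0) :
    a = b := by
  by_contra hab
  have h1 := congrFun (congrArg Prod.snd h) a
  simp only [Prod.smul_snd, Pi.smul_apply, e_snd_self, e_snd_ne hab, smul_eq_mul, mul_one,
    mul_zero] at h1
  exact hc h1

private theorem lma_enough (H : HypW C6 K) : HasEnoughRootsOfUnity K (Nat.card K - 1) := by
  have hfin : Finite K := by
    apply Nat.finite_of_card_ne_zero
    rcases H.card with h | h | h <;> omega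
  have : Fintype K := Fintype.ofFinite K
  have : NeZero (Nat.card K - 1) := ⟨by rcases H.card with h | h | h <;> omega⟩
  apply HasEnoughRootsOfUnity.of_card_le
  have h1 : rootsOfUnity (Nat.card K - 1) K = ⊤ := by
    rw [eq_top_iff]
    intro u _
    rw [mem_rootsOfUnity]
    ext
    rw [Units.val_pow_eq_pow_val, Nat.card_eq_fintype_card, Units.val_one]
    exact FiniteField.pow_card_sub_one_eq_one _ u.ne_zero
  rw [h1, Subgroup.card_top, Nat.card_units]

/-- a character of prime order, trivial on a proper subgroup -/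
private theorem lma_char (H : HypW C6 K) (S : Subgroup (T4 K)) {t0 : T4 K} (h0 : t0 ∉ S) :
    ∃ (r : ℕ) (η : T4 K →* Kˣ), r.Prime ∧ r ∣ Nat.card K - 1 ∧ (∀ t ∈ S, η t = 1) ∧
      (∀ t, η t ^ r = 1) ∧ ∀ i j : ℕ, i < r → j < r → (∀ t, η t ^ i = η t ^ j) → i = j := by
  classical
  have hfin : Finite K := by
    apply Nat.finite_of_card_ne_zero
    rcases H.card with h | h | h <;> omega
  have : Fintype K := Fintype.ofFinite K
  have hm0 : 0 < Nat.card K - 1 := by rcases H.card with h | h | h <;> omega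
  have : Finite (LL C6 K ≃ₗ[K] LL C6 K) := finite4 H
  let _ : CommGroup (T4 K) :=
    { (inferInstance : Group (T4 K)) with
      mul_comm := fun a b => Subtype.ext (T4_comm H a.2 b.2) }
  have := lma_enough H
  have hexp : Monoid.exponent (T4 K) ∣ Nat.card K - 1 := by
    apply Monoid.exponent_dvd_of_forall_pow_eq_one
    intro t
    apply Subtype.ext
    exact T4_pow H t.2
  have : NeZero (Nat.card K - 1) := ⟨hm0.ne'⟩
  have : HasEnoughRootsOfUnity K (Monoid.exponent (T4 K)) :=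
    HasEnoughRootsOfUnity.of_dvd K hexp
  have h1 := (CommGroup.forall_monoidHom_apply_eq_one_iff K S t0).not.2 h0
  push Not at h1
  obtain ⟨φ, hφS, hφ⟩ := h1
  have hpow : ∀ u : Kˣ, u ^ (Nat.card K - 1) = 1 := by
    intro u
    ext
    rw [Units.val_pow_eq_pow_val, Nat.card_eq_fintype_card, Units.val_one]
    exact FiniteField.pow_card_sub_one_eq_one _ u.ne_zero
  have hφm : φ ^ (Nat.card K - 1) = 1 :=
    MonoidHom.ext fun t => by rw [MonoidHom.pow_apply, hpow, MonoidHom.one_apply]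
  have hN : orderOf φ ∣ Nat.card K - 1 := orderOf_dvd_of_pow_eq_one hφm
  have hN0 : orderOf φ ≠ 0 := fun h => by
    rw [h] at hN
    exact hm0.ne' (Nat.eq_zero_of_zero_dvd hN)
  have hN1 : orderOf φ ≠ 1 := by
    intro h
    rw [orderOf_eq_one_iff] at h
    rw [h] at hφ
    exact hφ rfl
  have hr : (orderOf φ).minFac.Prime := Nat.minFac_prime hN1
  have hrN : (orderOf φ).minFac ∣ orderOf φ := Nat.minFac_dvd _
  have hord : orderOf (φ ^ (orderOf φ / (orderOf φ).minFac)) = (orderOf φ).minFac := by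
    rw [orderOf_pow_of_dvd (Nat.div_ne_zero_iff.2 ⟨hr.ne_zero, Nat.minFac_le (Nat.pos_of_ne_zero hN0)⟩)
      (Nat.div_dvd_of_dvd hrN), Nat.div_div_self hrN hN0]
  obtain ⟨η, hη⟩ : ∃ η, η = φ ^ (orderOf φ / (orderOf φ).minFac) := ⟨_, rfl⟩
  rw [← hη] at hord
  refine ⟨(orderOf φ).minFac, η, hr, hrN.trans hN, ?_, ?_, ?_⟩
  · intro t ht
    rw [hη, MonoidHom.pow_apply, hφS t ht, one_pow]
  · intro t
    have h2 : η ^ orderOf η = 1 := pow_orderOf_eq_one η
    rw [← hord, ← MonoidHom.pow_apply, h2, MonoidHom.one_apply]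
  · intro i j hi hj hij
    have h2 : η ^ i = η ^ j :=
      MonoidHom.ext fun t => by rw [MonoidHom.pow_apply, MonoidHom.pow_apply, hij t]
    exact pow_injOn_Iio_orderOf (by rw [Set.mem_Iio, hord]; exact hi)
      (by rw [Set.mem_Iio, hord]; exact hj) h2

theorem three_weights (H : HypW C6 K) {g : LL C6 K ≃ₗ[K] LL C6 K} (hg : g ∈ GF K)
    (h : ∀ t ∈ T4 K, g * t * g⁻¹ ∈ NN C6 K)
    (hmove : ∃ t ∈ T4 K, ∃ a : Rt C6, ∀ k : K, (g * t * g⁻¹) (Df K a) ≠ k • Df K a) :
    ∃ r : ℕ, r.Prime ∧ r ∣ Nat.card K - 1 ∧ ∃ γ0 γ1 γ2 : Option (Rt C6),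
      (∀ t ∈ T4 K, wq t γ0 * wq t γ2 = wq t γ1 ^ 2) ∧
      (∀ t ∈ T4 K, wq t γ1 ^ r = wq t γ0 ^ r) ∧ ∃ t ∈ T4 K, wq t γ0 ≠ wq t γ1 := by
  classical
  obtain ⟨t0, ht0, α, hmove⟩ := hmove
  have hGF : ∀ t : T4 K, g * t.1 * g⁻¹ ∈ GF K := fun t =>
    (GF K).mul_mem ((GF K).mul_mem hg (T4_le_GF H t.2)) ((GF K).inv_mem hg)
  choose w k hk hw1 hw2 hw hwD hw3 hw4 hw5 hw6 hw7 using
    fun t : T4 K => NN4_perm H (h t.1 t.2) (hGF t)
  -- composition
  have hg1 : ∀ z, g (g⁻¹ z) = z := fun z => g.apply_symm_apply z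
  have hg2 : ∀ z, g⁻¹ (g z) = z := fun z => g.symm_apply_apply z
  have hcomp : ∀ (s t : T4 K) (z : LL C6 K), (g * ((s * t : T4 K) : LL C6 K ≃ₗ[K] LL C6 K) * g⁻¹) z =
      (g * (s : LL C6 K ≃ₗ[K] LL C6 K) * g⁻¹) ((g * (t : LL C6 K ≃ₗ[K] LL C6 K) * g⁻¹) z) := by
    intro s t z
    simp only [LinearEquiv.mul_apply, Subgroup.coe_mul, hg2]
  have hwmul : ∀ (s t : T4 K) (a : Rt C6), w (s * t) a = w s (w t a) := by
    intro s t a
    have h1 := hcomp s t (e K a)
    rw [hw, hw t, map_smul, hw s, smul_smul] at h1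
    exact lma_line h1 (hk _ _)
  have hwone : ∀ a : Rt C6, w 1 a = a := by
    intro a
    have h1 := hw 1 a
    have h2 : (g * ((1 : T4 K) : LL C6 K ≃ₗ[K] LL C6 K) * g⁻¹) (e K a) = (1 : K) • e K a := by
      simp only [LinearEquiv.mul_apply, Subgroup.coe_one, LinearEquiv.coe_one, id_eq, hg1, one_smul]
    rw [h2] at h1
    exact (lma_line h1 one_ne_zero).symm
  have hwinv : ∀ (t : T4 K) (a : Rt C6), w t⁻¹ (w t a) = a := by
    intro t a
    rw [← hwmul, inv_mul_cancel, hwone]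
  -- the stabiliser
  let S : Subgroup (T4 K) :=
    { carrier := {t | w t α = α}
      one_mem' := hwone α
      mul_mem' := fun {a b} ha hb => by
        show w (a * b) α = α
        rw [hwmul]
        rw [show w b α = α from hb]
        exact ha
      inv_mem' := fun {a} ha => by
        show w a⁻¹ α = α
        conv_lhs => rw [← show w a α = α from ha]
        exact hwinv a α }
  have hS : (⟨t0, ht0⟩ : T4 K) ∉ S := by
    intro hmem
    have h1 := hwD ⟨t0, ht0⟩ α
    rw [show w ⟨t0, ht0⟩ α = α from hmem] at h1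
    exact hmove _ h1
  obtain ⟨r, η, hr, hrm, hηS, hηr, hηi⟩ := lma_char H S hS
  -- the function θ on the orbit
  let O : Set (Rt C6) := {b | ∃ t : T4 K, w t α = b}
  obtain ⟨θ, hθ⟩ : ∃ θ : Rt C6 → Kˣ, ∀ t : T4 K, θ (w t α) = η t := by
    refine ⟨fun b => if hb : ∃ t : T4 K, w t α = b then η hb.choose else 1, fun t => ?_⟩
    have hb : ∃ s : T4 K, w s α = w t α := ⟨t, rfl⟩
    simp only [hb, dif_pos]
    have hgen : ∀ s : T4 K, w s α = w t α → η s = η t := by
      intro s hs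
      have h1 : s⁻¹ * t ∈ S := by
        show w (s⁻¹ * t) α = α
        rw [hwmul, ← hs]
        exact hwinv _ _
      have h2 := hηS _ h1
      rw [map_mul, map_inv, inv_mul_eq_one] at h2
      exact h2
    exact hgen _ hb.choose_spec
  have hθO : ∀ (t : T4 K) (b : Rt C6), b ∈ O → w t b ∈ O ∧ θ (w t b) = η t * θ b := by
    rintro t b ⟨s, rfl⟩
    rw [← hwmul]
    exact ⟨⟨t * s, rfl⟩, by rw [hθ, hθ, map_mul]⟩
  have hOiff : ∀ (t : T4 K) (b : Rt C6), w t b ∈ O → b ∈ O := by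
    rintro t b ⟨s, hs⟩
    exact ⟨t⁻¹ * s, by rw [hwmul, hs, hwinv]⟩
  have hαO : α ∈ O := ⟨1, hwone α⟩
  -- coordinates
  have hL0 : ∀ (t : T4 K) (z : Fin 6 → K) (b : Rt C6),
      ((g * (t : LL C6 K ≃ₗ[K] LL C6 K) * g⁻¹) (hh C6 z)).2 b = 0 := by
    intro t z b
    have h1 := ((h t.1 t.2).2 (hh C6 z)).2 (hh_mem_L0 z)
    rw [mem_L0] at h1
    rw [h1]
    rfl
  have hexp : ∀ (t : T4 K) (u : LL C6 K), (g * (t : LL C6 K ≃ₗ[K] LL C6 K) * g⁻¹) u =
      (g * (t : LL C6 K ≃ₗ[K] LL C6 K) * g⁻¹) (hh C6 u.1) +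
        ∑ a : Rt C6, (u.2 a * k t a) • e K (w t a) := by
    intro t u
    conv_lhs => rw [decomp u]
    rw [map_add, map_sum]
    congr 1
    refine Finset.sum_congr rfl fun a _ => ?_
    rw [map_smul, hw, smul_smul]
  have hco : ∀ (t : T4 K) (u : LL C6 K) (b : Rt C6),
      ((g * (t : LL C6 K ≃ₗ[K] LL C6 K) * g⁻¹) u).2 (w t b) = k t b * u.2 b := by
    intro t u b
    rw [hexp t u, Prod.snd_add, Pi.add_apply, hL0, zero_add, Prod.snd_sum, Finset.sum_apply]
    rw [Finset.sum_eq_single b]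
    · rw [Prod.smul_snd, Pi.smul_apply, e_snd_self, smul_eq_mul, mul_one, mul_comm]
    · intro a _ hab
      have : w t b ≠ w t a := fun h => hab ((w t).injective h).symm
      rw [Prod.smul_snd, Pi.smul_apply, e_snd_ne this, smul_zero]
    · intro hb
      exact absurd (Finset.mem_univ b) hb
  have hfst : ∀ (t : T4 K) (u : LL C6 K), u.1 = 0 →
      ((g * (t : LL C6 K ≃ₗ[K] LL C6 K) * g⁻¹) u).1 = 0 := by
    intro t u hu
    rw [hexp t u, hu, hh_zero, map_zero, zero_add, Prod.fst_sum]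
    refine Finset.sum_eq_zero fun a _ => ?_
    rw [Prod.smul_fst, e_fst, smul_zero]
  -- an eigenvector with non-zero coordinate at α
  have hgt : ∀ (t : T4 K) (z : LL C6 K), (g * (t : LL C6 K ≃ₗ[K] LL C6 K) * g⁻¹) (g z) =
      g ((t : LL C6 K ≃ₗ[K] LL C6 K) z) := by
    intro t z
    simp only [LinearEquiv.mul_apply, hg2]
  obtain ⟨γ0, x, hxα, hx⟩ : ∃ (γ0 : Option (Rt C6)) (x : LL C6 K), x.2 α ≠ 0 ∧
      ∀ t : T4 K, (g * (t : LL C6 K ≃ₗ[K] LL C6 K) * g⁻¹) x =
        wq (t : LL C6 K ≃ₗ[K] LL C6 K) γ0 • x := by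
    by_contra hcon
    push Not at hcon
    have hA : (g (hh C6 (g⁻¹ (e K α)).1)).2 α = 0 := by
      by_contra hne
      obtain ⟨t, ht⟩ := hcon none _ hne
      apply ht
      rw [hgt, (T4_le_TT H t.2).2 _ (hh_mem_L0 _)]
      exact (one_smul K _).symm
    have hB : ∀ b : Rt C6, (g (e K b)).2 α = 0 := by
      intro b
      by_contra hne
      obtain ⟨t, ht⟩ := hcon (some b) _ hne
      apply ht
      rw [hgt, TT_e H (T4_le_TT H t.2), map_smul]
      rfl
    have h1 : e K α = g (hh C6 (g⁻¹ (e K α)).1) +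
        ∑ a : Rt C6, (g⁻¹ (e K α)).2 a • g (e K a) := by
      conv_lhs => rw [← hg1 (e K α), decomp (g⁻¹ (e K α))]
      rw [map_add, map_sum]
      congr 1
      exact Finset.sum_congr rfl fun a _ => map_smul _ _ _
    have h2 : (e K α).2 α = 0 := by
      rw [h1, Prod.snd_add, Pi.add_apply, hA, zero_add, Prod.snd_sum, Finset.sum_apply]
      refine Finset.sum_eq_zero fun a _ => ?_
      rw [Prod.smul_snd, Pi.smul_apply, hB, smul_zero]
    rw [e_snd_self] at h2
    exact one_ne_zero h2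
  have hwt0 : ∀ t : T4 K, wq (t : LL C6 K ≃ₗ[K] LL C6 K) γ0 ≠ 0 := by
    intro t
    cases γ0 with
    | none => exact one_ne_zero
    | some b => exact wt_ne_zero H (T4_le_TT H t.2) b
  -- the twisted eigenvectors
  have hγ : ∀ i : ℕ, ∃ γ : Option (Rt C6), ∀ t : T4 K,
      wq (t : LL C6 K ≃ₗ[K] LL C6 K) γ =
        wq (t : LL C6 K ≃ₗ[K] LL C6 K) γ0 * ((((η t)⁻¹) ^ i : Kˣ) : K) := by
    intro i
    let u : LL C6 K := (0, fun b => if b ∈ O then ((θ b ^ i : Kˣ) : K) * x.2 b else 0)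
    have hu : ∀ t : T4 K, (g * (t : LL C6 K ≃ₗ[K] LL C6 K) * g⁻¹) u =
        (wq (t : LL C6 K ≃ₗ[K] LL C6 K) γ0 * ((((η t)⁻¹) ^ i : Kˣ) : K)) • u := by
      intro t
      refine Prod.ext ?_ (funext fun b' => ?_)
      · rw [hfst t u rfl]
        simp [u]
      · obtain ⟨b, rfl⟩ := (w t).surjective b'
        rw [hco]
        rw [Prod.smul_snd, Pi.smul_apply, smul_eq_mul]
        by_cases hb : b ∈ O
        · obtain ⟨h1, h2⟩ := hθO t b hb
          have h3 : k t b * x.2 b = wq (t : LL C6 K ≃ₗ[K] LL C6 K) γ0 * x.2 (w t b) := by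
            rw [← hco, hx t]
            rfl
          simp only [u, hb, h1, if_true]
          rw [h2]
          have h4 : ((((η t)⁻¹) ^ i : Kˣ) : K) * (((η t * θ b) ^ i : Kˣ) : K) =
              ((θ b ^ i : Kˣ) : K) := by
            rw [← Units.val_mul, ← mul_pow, inv_mul_cancel_left]
          calc k t b * (((θ b ^ i : Kˣ) : K) * x.2 b)
              = ((θ b ^ i : Kˣ) : K) * (k t b * x.2 b) := by ring
            _ = ((θ b ^ i : Kˣ) : K) *
                (wq (t : LL C6 K ≃ₗ[K] LL C6 K) γ0 * x.2 (w t b)) := by rw [h3]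
            _ = _ := by
                rw [← h4]
                ring
        · have h1 : w t b ∉ O := fun h => hb (hOiff t b h)
          simp only [u, hb, h1, if_false, mul_zero]
    have hu0 : g⁻¹ u ≠ 0 := by
      intro h0
      have h1 : u = 0 := by
        rw [← hg1 u, h0, map_zero]
      have h2 : u.2 α = 0 := by rw [h1]; rfl
      simp only [u, hαO, if_true] at h2
      exact (mul_ne_zero (Units.ne_zero _) hxα) h2
    refine lma_weight H hu0 (fun t => wq (t : LL C6 K ≃ₗ[K] LL C6 K) γ0 *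
      ((((η t)⁻¹) ^ i : Kˣ) : K)) fun t => ?_
    apply g.injective
    rw [← hgt, hg1, hu, map_smul, hg1]
  obtain ⟨γ1, h1⟩ := hγ 1
  obtain ⟨γ2, h2⟩ := hγ 2
  refine ⟨r, hr, hrm, γ0, γ1, γ2, ?_, ?_, ?_⟩
  · intro t ht
    have e1 := h1 ⟨t, ht⟩
    have e2 := h2 ⟨t, ht⟩
    simp only at e1 e2
    rw [e1, e2, pow_one, pow_two, Units.val_mul]
    ring
  · intro t ht
    have e1 := h1 ⟨t, ht⟩
    simp only at e1
    rw [e1, mul_pow, ← Units.val_pow_eq_pow_val, pow_one, inv_pow, hηr, inv_one, Units.val_one,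
      mul_one]
  · by_contra hcon
    push Not at hcon
    have h01 : (0 : ℕ) = 1 := by
      apply hηi 0 1 hr.pos hr.one_lt
      intro t
      have e1 := h1 t
      rw [← hcon t.1 t.2] at e1
      have e3 := mul_left_cancel₀ (hwt0 t) ((mul_one _).trans e1)
      have e4 : ((1 : Kˣ) : K) = (((η t)⁻¹ ^ 1 : Kˣ) : K) := by
        rw [Units.val_one]
        exact e3
      have e5 := Units.ext e4
      rw [pow_one] at e5
      rw [pow_zero, pow_one]
      have e6 := congrArg (fun z => z⁻¹) e5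
      simpa using e6
    omega

end Pool.Agent.H31.F4
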