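import Pool.Agent.H31.F4.LemA

/-!
# FF-10: Lemma C', second part: there is no such progression

Put `G γ = γ + sg γ ∈ ℤ^6` (`0` for `none`), norm 0, 4 or 8 (`norm_root`).  Evaluate at
`t = hd y c`, `y` invariant, `c` a generator of `K^*` (order `m = q - 1 ∈ {6,8,10}`):
`m ∣ ip y (γ0 + γ2 - 2 γ1)` and `m ∣ r ip y (γ1 - γ0)`, i.e. `(m/r) ∣ ip y (γ1 - γ0)`.
`lat_dual`: `G1 - G0 = (m/r) (u + sv u)`, `G0 + G2 - 2 G1 = m (u' + sv u')` (`r ∣ m`).
`lat_norm`: non zero vectors `u + sv u` have norm `≥ 4`.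
* `r = 2`: `m/2 ≥ 3`: the norm of `G1 - G0` is `≥ 36` or 0; it is at most
  `2 (8 + 8) = 32` (`|x-y|² ≤ 2|x|² + 2|y|²`).  So `G1 = G0`, the weights agree: contradiction.
* `r` odd: `(m,r) = (6,3)` or `(10,5)`, `m/r = 2`.  `G1 ≠ G0` (otherwise the weights agree: if
  `G1 = G0` then `Eq4`, `wt_sg`; or both `none`), so `G1 - G0 = 2(u + sv u)` has norm `≥ 16`.
  `G0 + G2 - 2 G1` has norm `≤ 2(|G0 + G2|² + 4|G1|²) ≤ 2 (32 + 32) = 128 < 36·4 = 144`, so it is 0.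
  Parallelogram: `|G0|² + |G2|² = 2 |G1|² + 2 |G1 - G0|² ≥ 32` (as `G2 = 2 G1 - G0`), but it is
  `≤ 16`: contradiction.
-/

namespace Pool.Agent.H31.F4

open Pool.Agent.H33.EL (ip cc eps Rt ng zk ek fk LL hh e brf fmf br fm IsExt exl ex xr hd L0 GG T1 TT NN SF cj wt)

variable {K : Type} [Field K]

/-- the vector of a weight -/
def LemB_v : Option (Rt C6) → (Fin 6 → ℤ)
  | none => 0
  | some a => a.1

/-- the symmetrised vector of a weight -/
def LemB_G (γ : Option (Rt C6)) : Fin 6 → ℤ := LemB_v γ + sv (LemB_v γ)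

theorem LemB_none : LemB_G none = 0 := by
  funext i
  simp [LemB_G, LemB_v, sv]

theorem LemB_some (a : Rt C6) : LemB_G (some a) = a.1 + (sg a).1 := rfl

theorem LemB_wq (y : Fin 6 → ℤ) (c : Kˣ) (γ : Option (Rt C6)) :
    wq (hd C6 y c : LL C6 K ≃ₗ[K] LL C6 K) γ = ((c ^ (ip C6 y (LemB_v γ)) : Kˣ) : K) := by
  cases γ with
  | none =>
    show (1 : K) = ((c ^ (ip C6 y 0) : Kˣ) : K)
    rw [ip_zero_right]
    simp
  | some a => exact wt_hd y c a

theorem LemB_norm (γ : Option (Rt C6)) : ip C6 (LemB_G γ) (LemB_G γ) ≤ 8 := by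
  cases γ with
  | none =>
    rw [LemB_none, ip_zero_left]
    norm_num
  | some a =>
    rw [LemB_some, norm_root]
    split_ifs <;> norm_num

theorem LemB_ne (a : Rt C6) : LemB_G (some a) ≠ 0 := by
  intro h
  have h1 := norm_root a
  rw [← LemB_some, h, ip_zero_left] at h1
  split_ifs at h1 <;> omega

theorem LemB_same (H : HypW C6 K) {γ0 γ1 : Option (Rt C6)} (h : LemB_G γ0 = LemB_G γ1)
    {t : LL C6 K ≃ₗ[K] LL C6 K} (ht : t ∈ T4 K) : wq t γ0 = wq t γ1 := by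
  cases γ0 with
  | none =>
    cases γ1 with
    | none => rfl
    | some b => exact absurd (h.symm.trans LemB_none) (LemB_ne b)
  | some a =>
    cases γ1 with
    | none => exact absurd (h.trans LemB_none) (LemB_ne a)
    | some b =>
      rw [LemB_some, LemB_some] at h
      rcases (Eq4_iff a b).2 h with h' | h'
      · rw [h']
      · rw [h']
        exact (wt_sg H ht a).symm

theorem LemB_lin (x y z : Fin 6 → ℤ) :
    (x + z - (2 : ℤ) • y) + sv (x + z - (2 : ℤ) • y) =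
      (x + sv x) + (z + sv z) - (2 : ℤ) • (y + sv y) := by
  funext i
  simp only [sv, Pi.add_apply, Pi.sub_apply, Pi.smul_apply, smul_eq_mul]
  ring

theorem LemB_lin2 (x y : Fin 6 → ℤ) : (x - y) + sv (x - y) = (x + sv x) - (y + sv y) := by
  funext i
  simp only [sv, Pi.add_apply, Pi.sub_apply]
  ring

theorem LemB_gen (H : HypW C6 K) : ∃ c : Kˣ, orderOf c = Nat.card K - 1 := by
  have hc : Nat.card K ≠ 0 := by
    rcases H.card with h | h | h <;> rw [h] <;> norm_num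
  have : Finite K := Nat.finite_of_card_ne_zero hc
  have : Fintype K := Fintype.ofFinite K
  obtain ⟨c, hc⟩ := IsCyclic.exists_generator (α := Kˣ)
  refine ⟨c, ?_⟩
  rw [orderOf_eq_card_of_forall_mem_zpowers hc, Nat.card_units]

theorem LemB_dvd (H : HypW C6 K) {r : ℕ} (hm : r ∣ Nat.card K - 1) (hr0 : r ≠ 0)
    (γ0 γ1 γ2 : Option (Rt C6)) (h1 : ∀ t ∈ T4 K, wq t γ0 * wq t γ2 = wq t γ1 ^ 2)
    (h2 : ∀ t ∈ T4 K, wq t γ1 ^ r = wq t γ0 ^ r) :
    (∃ u : Fin 6 → ℤ, LemB_G γ0 + LemB_G γ2 - (2 : ℤ) • LemB_G γ1 =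
      ((Nat.card K - 1 : ℕ) : ℤ) • (u + sv u)) ∧
    ∃ u : Fin 6 → ℤ, LemB_G γ1 - LemB_G γ0 = (((Nat.card K - 1) / r : ℕ) : ℤ) • (u + sv u) := by
  obtain ⟨c, hc⟩ := LemB_gen H
  constructor
  · obtain ⟨u, hu⟩ := lat_dual (M := ((Nat.card K - 1 : ℕ) : ℤ))
      (LemB_v γ0 + LemB_v γ2 - (2 : ℤ) • LemB_v γ1) (by
        intro y hy
        have h := h1 _ (hd_mem_T4 hy c)
        rw [LemB_wq, LemB_wq, LemB_wq] at h
        have h' : c ^ (ip C6 y (LemB_v γ0)) * c ^ (ip C6 y (LemB_v γ2)) =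
            (c ^ (ip C6 y (LemB_v γ1))) ^ 2 := by
          apply Units.ext
          push_cast
          push_cast at h
          exact h
        rw [ip_sub_right, ip_add_right, ip_smul_right, ← hc, orderOf_dvd_iff_zpow_eq_one,
          zpow_sub, zpow_add, h', ← zpow_natCast, ← zpow_mul, mul_comm (2 : ℤ)]
        simp)
    exact ⟨u, by rw [← hu, LemB_lin]; rfl⟩
  · obtain ⟨u, hu⟩ := lat_dual (M := (((Nat.card K - 1) / r : ℕ) : ℤ))
      (LemB_v γ1 - LemB_v γ0) (by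
        intro y hy
        have h := h2 _ (hd_mem_T4 hy c)
        rw [LemB_wq, LemB_wq] at h
        have h' : (c ^ (ip C6 y (LemB_v γ1))) ^ r = (c ^ (ip C6 y (LemB_v γ0))) ^ r := by
          apply Units.ext
          push_cast
          push_cast at h
          exact h
        have h4 : ((orderOf c : ℕ) : ℤ) ∣ ip C6 y (LemB_v γ1 - LemB_v γ0) * r := by
          rw [ip_sub_right, orderOf_dvd_iff_zpow_eq_one, sub_mul, zpow_sub, zpow_mul, zpow_mul,
            zpow_natCast, zpow_natCast, h', mul_inv_cancel]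
        rw [hc] at h4
        obtain ⟨k, hk⟩ := hm
        rw [hk] at h4 ⊢
        rw [Nat.mul_div_cancel_left k (Nat.pos_of_ne_zero hr0)]
        push_cast at h4
        have hr' : (r : ℤ) ≠ 0 := by exact_mod_cast hr0
        rw [mul_comm (r : ℤ) (k : ℤ)] at h4
        exact Int.dvd_of_mul_dvd_mul_right hr' h4)
    exact ⟨u, by rw [← hu, LemB_lin2]; rfl⟩

theorem LemB_q2 (x y : Fin 6 → ℤ) (H : HypW C6 K) :
    ip C6 (x - y) (x - y) = ip C6 x x + ip C6 y y - 2 * ip C6 x y := by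
  rw [ip_sub_left, ip_sub_right, ip_sub_right, ip_comm H.symm y x]
  ring

theorem LemB_q2' (x y : Fin 6 → ℤ) (H : HypW C6 K) :
    ip C6 (x + y) (x + y) = ip C6 x x + ip C6 y y + 2 * ip C6 x y := by
  rw [ip_add_left, ip_add_right, ip_add_right, ip_comm H.symm y x]
  ring

/-- a vector `M (u + sv u)` is zero or has norm at least `4 M²` -/
theorem LemB_big (H : HypW C6 K) (M : ℤ) (u : Fin 6 → ℤ) :
    M • (u + sv u) = 0 ∨ 4 * M ^ 2 ≤ ip C6 (M • (u + sv u)) (M • (u + sv u)) := by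
  obtain ⟨⟨k, hk⟩, h0⟩ := lat_norm H u
  by_cases h : ip C6 (u + sv u) (u + sv u) = 0
  · left
    rw [h0 h, smul_zero]
  · right
    have h1 := Ip_nonneg H (u + sv u)
    rw [ip_smul_left, ip_smul_right]
    have h2 : 1 ≤ k := by omega
    rw [hk]
    nlinarith [sq_nonneg M]

theorem LemB_eq (H : HypW C6 K) {r : ℕ} (hr : r.Prime) (hm : r ∣ Nat.card K - 1)
    (γ0 γ1 γ2 : Option (Rt C6)) (h1 : ∀ t ∈ T4 K, wq t γ0 * wq t γ2 = wq t γ1 ^ 2)
    (h2 : ∀ t ∈ T4 K, wq t γ1 ^ r = wq t γ0 ^ r) : LemB_G γ0 = LemB_G γ1 := by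
  obtain ⟨⟨u', hu'⟩, u, hu⟩ := LemB_dvd H hm hr.ne_zero γ0 γ1 γ2 h1 h2
  have n0 := LemB_norm γ0
  have n1 := LemB_norm γ1
  have n2 := LemB_norm γ2
  have p0 := Ip_nonneg H (LemB_G γ0)
  have p1 := Ip_nonneg H (LemB_G γ1)
  have p2 := Ip_nonneg H (LemB_G γ2)
  have d10 := LemB_q2 (LemB_G γ1) (LemB_G γ0) H
  have s10 := LemB_q2' (LemB_G γ1) (LemB_G γ0) H
  have s10' := Ip_nonneg H (LemB_G γ1 + LemB_G γ0)
  have hb := LemB_big H (((Nat.card K - 1) / r : ℕ) : ℤ) u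
  rw [← hu] at hb
  rcases hb with hb | hb
  · exact (sub_eq_zero.1 hb).symm
  exfalso
  have hcase : (3 : ℤ) ≤ (((Nat.card K - 1) / r : ℕ) : ℤ) ∨
      ((2 : ℤ) = (((Nat.card K - 1) / r : ℕ) : ℤ) ∧ (6 : ℤ) ≤ ((Nat.card K - 1 : ℕ) : ℤ)) := by
    rcases H.card with h | h | h
    · rw [h] at hm ⊢
      have hr6 : r ∣ 2 * 3 := hm
      rcases (Nat.Prime.dvd_mul hr).1 hr6 with h5 | h5
      · have := (Nat.prime_dvd_prime_iff_eq hr Nat.prime_two).1 h5
        subst this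
        left
        norm_num
      · have := (Nat.prime_dvd_prime_iff_eq hr Nat.prime_three).1 h5
        subst this
        right
        norm_num
    · rw [h] at hm ⊢
      have hr8 : r ∣ 2 ^ 3 := hm
      have := (Nat.prime_dvd_prime_iff_eq hr Nat.prime_two).1 (hr.dvd_of_dvd_pow hr8)
      subst this
      left
      norm_num
    · rw [h] at hm ⊢
      have hr10 : r ∣ 2 * 5 := hm
      rcases (Nat.Prime.dvd_mul hr).1 hr10 with h5 | h5
      · have := (Nat.prime_dvd_prime_iff_eq hr Nat.prime_two).1 h5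
        subst this
        left
        norm_num
      · have := (Nat.prime_dvd_prime_iff_eq hr Nat.prime_five).1 h5
        subst this
        right
        norm_num
  rcases hcase with h3 | ⟨h3, h6⟩
  · nlinarith
  · rw [← h3] at hb
    have e1 := LemB_q2 (LemB_G γ0 + LemB_G γ2) ((2 : ℤ) • LemB_G γ1) H
    have e2 := LemB_q2' (LemB_G γ0 + LemB_G γ2) ((2 : ℤ) • LemB_G γ1) H
    have e2' := Ip_nonneg H (LemB_G γ0 + LemB_G γ2 + (2 : ℤ) • LemB_G γ1)
    have e3 := LemB_q2' (LemB_G γ0) (LemB_G γ2) H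
    have e4 := LemB_q2 (LemB_G γ0) (LemB_G γ2) H
    have e4' := Ip_nonneg H (LemB_G γ0 - LemB_G γ2)
    have e5 : ip C6 ((2 : ℤ) • LemB_G γ1) ((2 : ℤ) • LemB_G γ1) =
        4 * ip C6 (LemB_G γ1) (LemB_G γ1) := by
      rw [ip_smul_left, ip_smul_right]
      ring
    have hz := LemB_big H ((Nat.card K - 1 : ℕ) : ℤ) u'
    rw [← hu'] at hz
    rcases hz with hz | hz
    · have e6 : LemB_G γ2 = LemB_G γ1 + (LemB_G γ1 - LemB_G γ0) := by
        have h7 : LemB_G γ0 + LemB_G γ2 = (2 : ℤ) • LemB_G γ1 := sub_eq_zero.1 hz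
        have h8 : LemB_G γ2 = (2 : ℤ) • LemB_G γ1 - LemB_G γ0 := eq_sub_of_add_eq' h7
        rw [h8, two_smul]
        abel
      have e7 : LemB_G γ0 = LemB_G γ1 - (LemB_G γ1 - LemB_G γ0) := by abel
      have e8 := LemB_q2' (LemB_G γ1) (LemB_G γ1 - LemB_G γ0) H
      have e9 := LemB_q2 (LemB_G γ1) (LemB_G γ1 - LemB_G γ0) H
      rw [← e6] at e8
      rw [← e7] at e9
      nlinarith
    · nlinarith

theorem no_progression (H : HypW C6 K) {r : ℕ} (hr : r.Prime) (hm : r ∣ Nat.card K - 1)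
    (γ0 γ1 γ2 : Option (Rt C6)) (h1 : ∀ t ∈ T4 K, wq t γ0 * wq t γ2 = wq t γ1 ^ 2)
    (h2 : ∀ t ∈ T4 K, wq t γ1 ^ r = wq t γ0 ^ r) (h3 : ∃ t ∈ T4 K, wq t γ0 ≠ wq t γ1) : False := by
  obtain ⟨t, ht, h4⟩ := h3
  exact h4 (LemB_same H (LemB_eq H hr hm γ0 γ1 γ2 h1 h2) ht)

end Pool.Agent.H31.F4
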