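import Pool.Agent.H31.F4.LemB

/-!
# FF-11: Lemma C' for F_4

By `three_weights`, `no_progression` every `g t g⁻¹`, `t ∈ T4`, fixes all lines `K Df a`.  Being in
`NN` and `GF` it fixes (`NN4_perm`: `w a = a` or `w a = sg a`) the weight spaces.  So it fixes the
`hh (zk (cv a))` up to... precisely: `g t g⁻¹ (Df a) = k Df a`, `(Df (ng a)) ↦ k' Df (ng a)`, `k k' = 1`
by the form, so the bracket `hh (zk (cv a))` is fixed; these span the invariant toral vectors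
(`zk_cv_span`).  So `L0 ∩ LF ≤ Fix(g T4 g⁻¹) = g (Fix T4) = g L0`.  `g⁻¹` maps `L0 ∩ LF` into
`L0 ∩ LF`, so onto (dimension); `L0` is the centraliser of `L0 ∩ LF` (`(hh k, b) ≠ 0` for
`k = zk (cv b)`), so `g⁻¹ L0 = L0`.
-/

namespace Pool.Agent.H31.F4

open Pool.Agent.H33.EL (ip cc eps Rt ng zk ek fk LL hh e brf fmf br fm IsExt exl ex xr hd L0 GG T1 TT NN SF cj wt)

variable {K : Type} [Field K]

/-- the conjugates of the torus elements fix all lines `K Df a` -/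
theorem lc4_line (H : HypW C6 K) {g : LL C6 K ≃ₗ[K] LL C6 K} (hg : g ∈ GF K)
    (h : ∀ t ∈ T4 K, g * t * g⁻¹ ∈ NN C6 K) {t : LL C6 K ≃ₗ[K] LL C6 K} (ht : t ∈ T4 K)
    (a : Rt C6) : ∃ k : K, (g * t * g⁻¹) (Df K a) = k • Df K a := by
  by_contra hcon
  push Not at hcon
  obtain ⟨r, hr, hm, γ0, γ1, γ2, h1, h2, h3⟩ := three_weights H hg h ⟨t, ht, a, hcon⟩
  exact no_progression H hr hm γ0 γ1 γ2 h1 h2 h3

/-- so do they fix the coroot vectors -/
theorem lc4_cv (H : HypW C6 K) {s : LL C6 K ≃ₗ[K] LL C6 K} (hs : s ∈ NN C6 K) (hs' : s ∈ GF K)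
    (h : ∀ a : Rt C6, ∃ k : K, s (Df K a) = k • Df K a) (a : Rt C6) :
    s (hh C6 (zk (cv a))) = hh C6 (zk (cv a)) := by
  obtain ⟨w, k, hk, hw1, -, -, hD, -, -, -, -, hh1⟩ := NN4_perm H hs hs'
  obtain ⟨l, hl⟩ := h a
  have h1 : Eq4 a (w a) := by
    by_contra hne
    have h2 : k a • Df K (w a) = l • Df K a := by rw [← hD a, hl]
    have h3 := congrArg (fun x : LL C6 K => x.2 (w a)) h2
    change k a * (Df K (w a)).2 (w a) = l * (Df K a).2 (w a) at h3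
    have h4 : Eq4 (w a) (w a) := Or.inl rfl
    rw [Df_snd, Df_snd, if_pos h4, if_neg hne, mul_one, mul_zero] at h3
    exact hk a h3
  by_cases ha : sg a = a
  · have h2 : w a = a := by
      rcases h1 with h1 | h1
      · exact h1
      · rw [h1, ha]
    have h3 : cv a = a.1 := if_pos ha
    rw [h3, hh1 a, h2]
  · have h3 : cv a = a.1 + (sg a).1 := if_neg ha
    rw [h3, zk_add, hh_add, map_add, hh1 a, hh1 (sg a), hw1 a]
    rcases h1 with h1 | h1
    · rw [h1]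
    · rw [h1, sg_sg, add_comm]

theorem lc4_fix (H : HypW C6 K) {s : LL C6 K ≃ₗ[K] LL C6 K} (hs : s ∈ NN C6 K) (hs' : s ∈ GF K)
    (h : ∀ a : Rt C6, ∃ k : K, s (Df K a) = k • Df K a) (k : Fin 6 → K) (hk : sv k = k) :
    s (hh C6 k) = hh C6 k := by
  have h1 := zk_cv_span H hk
  clear hk
  induction h1 using Submodule.span_induction with
  | mem x hx =>
    obtain ⟨a, rfl⟩ := hx
    exact lc4_cv H hs hs' h a
  | zero =>
    rw [hh_zero, map_zero]
  | add x y _ _ hx hy =>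
    rw [hh_add, map_add, hx, hy]
  | smul c x _ hx =>
    rw [hh_smul, map_smul, hx]

theorem lemC4 (H : HypW C6 K) {g : LL C6 K ≃ₗ[K] LL C6 K} (hg : g ∈ GF K)
    (h : ∀ t ∈ T4 K, g * t * g⁻¹ ∈ NN C6 K) : g ∈ NN C6 K := by
  have hgi : g⁻¹ ∈ GF K := inv_mem hg
  -- the conjugates fix the invariant toral vectors
  have hfix : ∀ t ∈ T4 K, ∀ k : Fin 6 → K, sv k = k → (g * t * g⁻¹) (hh C6 k) = hh C6 k := by
    intro t ht k hk
    refine lc4_fix H (h t ht) ?_ (fun a => lc4_line H hg h ht a) k hk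
    exact mul_mem (mul_mem hg (T4_le_GF H ht)) hgi
  set U : Submodule K (LL C6 K) := L0 C6 K ⊓ LF K with hU
  have hU1 : ∀ x ∈ U, g⁻¹ x ∈ U := by
    rintro x ⟨hx0, hxL⟩
    refine ⟨?_, (GF_LF hgi x).2 hxL⟩
    show g⁻¹ x ∈ L0 C6 K
    rw [mem_L0_iff4 H]
    intro t ht
    have h1 : x = hh C6 x.1 := eq_hh_of_mem hx0
    have h2 : (g * t * g⁻¹) x = x := by
      rw [h1]
      exact hfix t ht _ ((mem_LF' x).1 hxL).1
    apply g.injective
    have h3 : g (t (g⁻¹ x)) = x := h2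
    rw [h3, nor_inv_apply]
  have hU2 : U.map (g⁻¹ : LL C6 K ≃ₗ[K] LL C6 K).toLinearMap = U := by
    apply Submodule.eq_of_le_of_finrank_eq
    · rintro _ ⟨x, hx, rfl⟩
      exact hU1 x hx
    · exact LinearEquiv.finrank_map_eq _ _
  have h1 : ∀ y ∈ L0 C6 K, g⁻¹ y ∈ L0 C6 K := by
    intro y hy
    rw [mem_L0]
    funext b
    -- an invariant toral vector not killed by `b`
    have hb : hh C6 (zk (cv b) : Fin 6 → K) ∈ U := by
      refine ⟨hh_mem_L0 _, ?_⟩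
      show hh C6 (zk (cv b) : Fin 6 → K) ∈ LF K
      rw [mem_LF, Sg_hh, ← zk_sv, sv_cv]
    rw [← hU2] at hb
    obtain ⟨x, hx, hxb⟩ := hb
    have h2 : br x y = 0 := by
      rw [eq_hh_of_mem hx.1, eq_hh_of_mem hy, br_hh_hh]
    have h3 : br (g⁻¹ x) (g⁻¹ y) = 0 := by
      rw [← hgi.1.1, h2, map_zero]
    have h4 : g⁻¹ x = hh C6 (zk (cv b) : Fin 6 → K) := hxb
    rw [h4] at h3
    have h5 := congrArg (fun z : LL C6 K => z.2 b) h3
    change (br (hh C6 (zk (cv b) : Fin 6 → K)) (g⁻¹ y)).2 b = 0 at h5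
    rw [br_hh_snd, fk_zk_zk] at h5
    have h6 : ip C6 (cv b) b.1 = 2 := dg_self b
    rw [h6] at h5
    rcases mul_eq_zero.1 h5 with h7 | h7
    · exfalso
      apply two_ne H
      exact_mod_cast h7
    · exact h7
  have h3 : (L0 C6 K).map (g⁻¹ : LL C6 K ≃ₗ[K] LL C6 K).toLinearMap = L0 C6 K := by
    apply Submodule.eq_of_le_of_finrank_eq
    · rintro _ ⟨x, hx, rfl⟩
      exact h1 x hx
    · exact LinearEquiv.finrank_map_eq _ _
  refine ⟨hg.1, fun x => ⟨fun hx => ?_, fun hx => ?_⟩⟩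
  · have h4 := h1 _ hx
    rw [nor_apply_inv] at h4
    exact h4
  · rw [← h3] at hx
    obtain ⟨y, hy, hyx⟩ := hx
    have h5 : g x = y := by
      rw [← hyx]
      exact nor_inv_apply g y
    rw [h5]
    exact hy

end Pool.Agent.H31.F4
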