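import Pool.Agent.H31.F4.CaseA4
import Pool.Agent.H31.F4.CaseB4
import Pool.Agent.H31.F4.Case1F
import Pool.Agent.H31.F4.CCj4
import Pool.Agent.H31.F4.Cls4

/-!
# FF-74: the main theorem: (D) for all overgroups of `T4`
-/

namespace Pool.Agent.H31.F4

open Pool.Agent.H33.EL (ip cc eps Rt ng zk ek fk LL hh e brf fmf br fm IsExt exl ex xr hd L0 GG T1 TT NN SF cj wt)

variable {K : Type} [Field K]

variable {F : Subgroup (LL C6 K ≃ₗ[K] LL C6 K)}

theorem no_ctx4 (H : HypW C6 K) {p : ℕ} [Fact p.Prime] [CharP K p] (X : Ctx4 F) : False := by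
  rcases classify4 H X with ⟨c, hc, hz⟩ | ⟨a, b, c, ha, hb, hc, hab, hc', h⟩
  · exact case1_4 H X hc hz
  · exact case2_4 H (p := p) X ⟨ha, hb, hc, hab, hc'⟩ (Set.ext fun d => h d)

/-- Proposition C -/
theorem propC4 (H : HypW C6 K) {p : ℕ} [Fact p.Prime] [CharP K p]
    (F : Subgroup (LL C6 K ≃ₗ[K] LL C6 K)) (hF : F ≤ GF K) (hT : T4 K ≤ F)
    (hS : ∀ a : Rt C6, a ∉ SF4 F)
    (IH : ∀ F' : Subgroup (LL C6 K ≃ₗ[K] LL C6 K), F' ≤ GF K → T4 K ≤ F' →
      Nat.card F' < Nat.card F → Dst4 F') : F ≤ NN C6 K := by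
  by_contra hN
  have hfin : Finite (LL C6 K ≃ₗ[K] LL C6 K) := finite4 H
  refine no_ctx4 H (p := p) (F := F) ⟨hF, hT, hS, ?_, hN⟩
  intro F' hle hT' hne f hf
  have hcard : Nat.card F' < Nat.card F := by
    have h1 : (F' : Set (LL C6 K ≃ₗ[K] LL C6 K)) ⊂ F :=
      SetLike.coe_ssubset_coe.2 (lt_of_le_of_ne hle hne)
    exact Set.ncard_lt_ncard h1 (Set.toFinite _)
  have hD := IH F' (hle.trans hF) hT' hcard
  obtain ⟨c, hc, hc'⟩ := hD f (hF (hle hf)) (by
    intro t ht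
    exact mul_mem (mul_mem hf (hT' ht)) (inv_mem hf))
  have hFo : Fo4 F' ≤ NN C6 K := by
    unfold Fo4
    rw [Subgroup.closure_le]
    rintro x (hx | ⟨a, ha, -⟩)
    · exact T4_le_NN H hx
    · exact (hS a fun s => hle (ha s)).elim
  have := mul_mem (hFo hc) hc'
  simpa using this

/-- the main theorem -/
theorem main4 (H : HypW C6 K) {p : ℕ} [Fact p.Prime] [CharP K p] :
    ∀ (N : ℕ) (F : Subgroup (LL C6 K ≃ₗ[K] LL C6 K)), Nat.card F = N → F ≤ GF K →
      T4 K ≤ F → Dst4 F := by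
  intro N
  induction N using Nat.strong_induction_on with
  | _ N ih =>
    intro F hN hF hT
    have IH : ∀ F' : Subgroup (LL C6 K ≃ₗ[K] LL C6 K), F' ≤ GF K → T4 K ≤ F' →
        Nat.card F' < Nat.card F → Dst4 F' :=
      fun F' h1 h2 h3 => ih _ (hN ▸ h3) F' rfl h1 h2
    by_cases hO : ∀ P : Subgroup (LL C6 K ≃ₗ[K] LL C6 K), P ≤ F →
        (∀ f ∈ F, ∀ u ∈ P, f * u * f⁻¹ ∈ P) → IsPGroup p P → P = ⊥
    swap
    · push Not at hO
      obtain ⟨P, h1, h2, h3, h4⟩ := hO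
      obtain ⟨d, hd, hP, hR⟩ := caseA_par H F P hF hT h1 h2 h3 h4
      exact par_case H (p := p) F hF hT hd hP hR IH
    by_cases hS : ∀ g ∈ GF K, T4 K ≤ cj g F → (SF4 (cj g F)).Nonempty
    · have h1 : cj 1 F = F := by
        ext x
        simp [mem_cj4]
      have hS0 : (SF4 F).Nonempty := by
        have := hS 1 (one_mem _) (by rw [h1]; exact hT)
        rwa [h1] at this
      exact caseB4 H (p := p) ⟨hF, hT, hO⟩ hS0 hS IH
    · push Not at hS
      obtain ⟨g, hg, hgT, hgS⟩ := hS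
      have hgS' : ∀ a : Rt C6, a ∉ SF4 (cj g F) := by
        intro a ha
        rw [Set.eq_empty_iff_forall_notMem] at hgS
        exact hgS a ha
      have hle : cj g F ≤ NN C6 K := propC4 H (p := p) (cj g F) (cj_le_GF hg hF) hgT hgS'
        (fun F' h1 h2 h3 => IH F' h1 h2 (by rwa [card_cj4] at h3))
      have hgN : g⁻¹ ∈ NN C6 K := by
        refine lemC4 H (inv_mem hg) fun t ht => hle ?_
        rw [mem_cj4]
        simpa [mul_assoc] using hT ht
      have hgN' : g ∈ NN C6 K := by simpa using inv_mem hgN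
      intro g' hg' hgT'
      refine ⟨1, one_mem _, ?_⟩
      have h2 : g⁻¹ * g' ∈ NN C6 K := by
        refine lemC4 H (mul_mem (inv_mem hg) hg') fun t ht => hle ?_
        rw [mem_cj4]
        have := hgT' ht
        rw [mem_cj4] at this
        simpa [mul_assoc] using this
      have := mul_mem hgN' h2
      simpa using this

theorem dst_all4 (H : HypW C6 K) {p : ℕ} [Fact p.Prime] [CharP K p]
    (F : Subgroup (LL C6 K ≃ₗ[K] LL C6 K)) (hF : F ≤ GF K) (hT : T4 K ≤ F) : Dst4 F :=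
  main4 H (p := p) _ F rfl hF hT

end Pool.Agent.H31.F4
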