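import Pool.Agent.H31.F4.Sym4

/-!
# FF-38: the orbits of the point vectors of `F`

`PtF F g c`: the root group `g X_c g⁻¹` is contained in `F` (so `g (pv c)` is a point of `F`).
`OrbL F`, `OrbS F`: the non zero multiples of the `f (e b)`, `b ∈ SF4 F` long, resp. of the `f (wf b)`, `b ∈ SsF F`,
`f ∈ Fo4 F`.
* `OrbL_P`: `u = κ f (e b)`; `Pl` for `f⁻¹ g` (`PtF F (f⁻¹ g) c`, `Fo4_le`): `fm (f⁻¹ g e_c) (e b) ≠ 0`, so the
  coordinate at `ng b` is non zero: `f⁻¹ g e_c = κ' r (e (ng b))`, `r ∈ Fo4 F`.  `OrbS_P`: the same with `Ps`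
  (`fm_w`; `ng b ∈ SsF F` by `SsF_ng`).
* `OrbL_conn`: say `x ~ y` for `x, y ∈ OrbL F` if `fm x y ≠ 0`; `≈` the generated equivalence relation; it is
  invariant under `Fo4 F`.  `k • x ≈ x` (both `~ y` for a common `y`: for `x = κ f (e b)` take `f (e (ng b))`,
  `fm_pv_ng`).  `e b ≈ e (ng b)`.  Claim: `f (e b) ≈ e b` for `f ∈ Fo4 F`: closure induction; for a
  generator `u` it is enough that `u (e b) ≈ e b` (then `f u (e b) ≈ f (e b)`).  `u = t ∈ T4`: multiple.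
  `u = xf d s`, `d ∈ SF4 F`: if `0 ≤ dg d b`: `u (e b) = e b` (`xf_pv_fix`); otherwise `0 ≤ dg d (ng b)`, `u (e (ng b)) = e (ng b)`
  and `u (e b) ≈ u (e (ng b)) = e (ng b) ≈ e b`.  The set `A` is closed under `~`, so under `≈`.
* `OrbS_conn`: the same with `wf b`.
* `OrbL_span`, `OrbS_span`: `UR K (SF4 F)` is invariant under `T4` and under `xf d s`, `d ∈ SF4 F` (`Gn_UR`, `Cl4_SF4`).
* `NM_orthL`: `x = k f' (e c) ∈ OrbL (cj g F)`; `PtF F (g f') c`.  If `fm (g x) u ≠ 0` then `g (f' e_c) ∈ OrbL F` by `OrbL_P`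
  so `x ∈ A = {x ∈ OrbL (cj g F) : g x ∈ OrbL F}`.  `A` is closed under `~`: `x' ∈ A`, `y ∈ OrbL (cj g F)`,
  `fm x' y ≠ 0`: `fm (g y) (g x') ≠ 0`, so `g y ∈ OrbL F` by `OrbL_P` (for `u = g x'`).  `OrbL_conn` for `cj g F`:
  `e c ∈ A`: contradiction to `NM`.  `NM_orthS` the same.
* `NM_symm`: `cj g⁻¹ (cj g F) = F`; if `g⁻¹ (e b) ∈ OrbL (cj g F)`, `b ∈ SF4 F` long: `x = g⁻¹ (e b) ∈ A` and as
  before `e c ∈ A` for the `c` with `x = k f' (e c)`.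
-/

namespace Pool.Agent.H31.F4

open Pool.Agent.H33.EL (ip cc eps Rt ng zk ek fk LL hh e brf fmf br fm IsExt exl ex xr hd L0 GG T1 TT NN SF cj wt)

variable {K : Type} [Field K]

variable {p : ℕ} {F : Subgroup (LL C6 K ≃ₗ[K] LL C6 K)}

/-- the root group `g X_c g⁻¹` is contained in `F` -/
def PtF (F : Subgroup (LL C6 K ≃ₗ[K] LL C6 K)) (g : LL C6 K ≃ₗ[K] LL C6 K) (c : Rt C6) : Prop :=
  g ∈ GF K ∧ ∀ s : K, g * xf c s * g⁻¹ ∈ F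

/-- the orbits of the long root vectors of `F` -/
def OrbL (F : Subgroup (LL C6 K ≃ₗ[K] LL C6 K)) : Set (LL C6 K) :=
  {v | ∃ f ∈ Fo4 F, ∃ b ∈ SF4 F, sg b = b ∧ ∃ κ : K, κ ≠ 0 ∧ v = κ • f (e K b)}

/-- the orbits of the good white vectors of `F` -/
def OrbS (F : Subgroup (LL C6 K ≃ₗ[K] LL C6 K)) : Set (LL C6 K) :=
  {v | ∃ f ∈ Fo4 F, ∃ b ∈ SsF F, ∃ κ : K, κ ≠ 0 ∧ v = κ • f (wf K b)}

/-- no match between the points of `F` and of `cj g F` -/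
def NM (F : Subgroup (LL C6 K ≃ₗ[K] LL C6 K)) (g : LL C6 K ≃ₗ[K] LL C6 K) : Prop :=
  (∀ c ∈ SF4 (cj g F), sg c = c → g (e K c) ∉ OrbL F) ∧
    ∀ c ∈ SsF (cj g F), g (wf K c) ∉ OrbS F

theorem PtF_mul (hF : F ≤ GF K) {f g : LL C6 K ≃ₗ[K] LL C6 K} {c : Rt C6} (hf : f ∈ F)
    (h : PtF F g c) : PtF F (f * g) c := by
  refine ⟨mul_mem (hF hf) h.1, fun s => ?_⟩
  have h1 := mul_mem (mul_mem hf (h.2 s)) (inv_mem hf)
  have h2 : f * g * xf c s * (f * g)⁻¹ = f * (g * xf c s * g⁻¹) * f⁻¹ := by group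
  rw [h2]
  exact h1
theorem PtF_self (hF : F ≤ GF K) {f : LL C6 K ≃ₗ[K] LL C6 K} {c : Rt C6} (hf : f ∈ F)
    (hc : c ∈ SF4 F) : PtF F f c :=
  ⟨hF hf, fun s => mul_mem (mul_mem hf (hc s)) (inv_mem hf)⟩
theorem PtF_cj {f g : LL C6 K ≃ₗ[K] LL C6 K} {c : Rt C6} (hg : g ∈ GF K)
    (h : PtF (cj g F) f c) : PtF F (g * f) c := by
  refine ⟨mul_mem hg h.1, fun s => ?_⟩
  have h1 := mem_cj4.1 (h.2 s)
  have h2 : g * f * xf c s * (g * f)⁻¹ = g * (f * xf c s * f⁻¹) * g⁻¹ := by group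
  rw [h2]
  exact h1
theorem PtF_cj' {f g : LL C6 K ≃ₗ[K] LL C6 K} {c : Rt C6} (hg : g ∈ GF K)
    (h : PtF F f c) : PtF (cj g F) (g⁻¹ * f) c := by
  refine ⟨mul_mem (inv_mem hg) h.1, fun s => mem_cj4.2 ?_⟩
  have h2 : g * (g⁻¹ * f * xf c s * (g⁻¹ * f)⁻¹) * g⁻¹ = f * xf c s * f⁻¹ := by group
  rw [h2]
  exact h.2 s
theorem PtF_ex {g : LL C6 K ≃ₗ[K] LL C6 K} {c : Rt C6} (h : PtF F g c) (s : K) :
    ex (s • g (Df K c)) ∈ F := by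
  have h1 : g * xf c s * g⁻¹ = ex (s • g (Df K c)) := by
    unfold xf
    rw [conj_ex4 (GF_le_GG h.1), map_smul]
  rw [← h1]
  exact h.2 s
theorem e_mem_OrbL {b : Rt C6} (hb : b ∈ SF4 F) (hl : sg b = b) : e K b ∈ OrbL F :=
  ⟨1, one_mem _, b, hb, hl, 1, one_ne_zero, by rw [one_smul]; rfl⟩
theorem wf_mem_OrbS {b : Rt C6} (hb : b ∈ SsF F) : wf K b ∈ OrbS F :=
  ⟨1, one_mem _, b, hb, 1, one_ne_zero, by rw [one_smul]; rfl⟩
theorem OrbL_smul {v : LL C6 K} (hv : v ∈ OrbL F) {k : K} (hk : k ≠ 0) : k • v ∈ OrbL F := by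
  obtain ⟨f, hf, b, hb, hl, κ, hκ, rfl⟩ := hv
  exact ⟨f, hf, b, hb, hl, k * κ, mul_ne_zero hk hκ, by rw [smul_smul]⟩
theorem OrbS_smul {v : LL C6 K} (hv : v ∈ OrbS F) {k : K} (hk : k ≠ 0) : k • v ∈ OrbS F := by
  obtain ⟨f, hf, b, hb, κ, hκ, rfl⟩ := hv
  exact ⟨f, hf, b, hb, k * κ, mul_ne_zero hk hκ, by rw [smul_smul]⟩
theorem OrbL_Fo4 {v : LL C6 K} (hv : v ∈ OrbL F) {f : LL C6 K ≃ₗ[K] LL C6 K} (hf : f ∈ Fo4 F) :
    f v ∈ OrbL F := by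
  obtain ⟨f', hf', b, hb, hl, κ, hκ, rfl⟩ := hv
  exact ⟨f * f', mul_mem hf hf', b, hb, hl, κ, hκ, by rw [map_smul, LinearEquiv.mul_apply]⟩
theorem OrbS_Fo4 {v : LL C6 K} (hv : v ∈ OrbS F) {f : LL C6 K ≃ₗ[K] LL C6 K} (hf : f ∈ Fo4 F) :
    f v ∈ OrbS F := by
  obtain ⟨f', hf', b, hb, κ, hκ, rfl⟩ := hv
  exact ⟨f * f', mul_mem hf hf', b, hb, κ, hκ, by rw [map_smul, LinearEquiv.mul_apply]⟩
theorem OrbL_LF (H : HypW C6 K) {v : LL C6 K} (hv : v ∈ OrbL F) :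
    v ∈ LF K ∧ IsExt v ∧ v ≠ 0 := by
  obtain ⟨f, hf, b, hb, hl, κ, hκ, rfl⟩ := hv
  have hG := Fo4_le_GF H hf
  refine ⟨Submodule.smul_mem _ _ ((GF_LF hG _).2 ?_), IsExt_smul (IsExt_map (isExt_e H b)
    (GF_le_GG hG)) κ, smul_ne_zero hκ fun h => e_ne_zero (K := K) b (f.map_eq_zero_iff.1 h)⟩
  rw [← Df_long hl]
  exact Df_mem b
theorem OrbS_VF (H : HypW C6 K) {v : LL C6 K} (hv : v ∈ OrbS F) :
    v ∈ VF K ∧ IsW v ∧ v ≠ 0 := by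
  obtain ⟨f, hf, b, hb, κ, hκ, rfl⟩ := hv
  have hG := Fo4_le_GF H hf
  exact ⟨Submodule.smul_mem _ _ ((GF_VF hG _).2 (wf_mem b)), isW_smul (isW_map
    (isW_wf H b hb.2.1) hG) κ, smul_ne_zero hκ fun h => wf_ne_zero H hb.2.1
      (f.map_eq_zero_iff.1 h)⟩
theorem Orb4_span {f : LL C6 K ≃ₗ[K] LL C6 K} {S : Set (LL C6 K)} (h : ∀ v ∈ S, f v ∈ S) :
    ∀ v ∈ Submodule.span K S, f v ∈ Submodule.span K S := by
  intro v hv
  induction hv using Submodule.span_induction with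
  | mem x hx => exact Submodule.subset_span (h x hx)
  | zero =>
    rw [map_zero]
    exact Submodule.zero_mem _
  | add x y _ _ hx hy =>
    rw [map_add]
    exact Submodule.add_mem _ hx hy
  | smul c x _ hx =>
    rw [map_smul]
    exact Submodule.smul_mem _ _ hx
theorem span_Fo4 {f : LL C6 K ≃ₗ[K] LL C6 K} (hf : f ∈ Fo4 F) :
    (∀ v ∈ Submodule.span K (OrbL F), f v ∈ Submodule.span K (OrbL F)) ∧
    ∀ v ∈ Submodule.span K (OrbS F), f v ∈ Submodule.span K (OrbS F) :=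
  ⟨Orb4_span fun _ hv => OrbL_Fo4 hv hf, Orb4_span fun _ hv => OrbS_Fo4 hv hf⟩

theorem Orb4_fm {f : LL C6 K ≃ₗ[K] LL C6 K} (hf : f ∈ GG C6 K) (x y : LL C6 K) :
    fm (f⁻¹ x) y = fm x (f y) := by
  have h := hf.2 (f⁻¹ x) y
  rw [← h, nor_inv_apply]

theorem OrbL_P (H : HypW C6 K) [Fact p.Prime] [CharP K p] (X : HB p F) {c : Rt C6}
    (hc : sg c = c) {g : LL C6 K ≃ₗ[K] LL C6 K} (hg : PtF F g c) {u : LL C6 K} (hu : u ∈ OrbL F)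
    (hne : fm (g (e K c)) u ≠ 0) : g (e K c) ∈ OrbL F := by
  obtain ⟨f, hf, b, hb, hl, κ, hκ, rfl⟩ := hu
  have hfF : f ∈ F := Fo4_le X.hT hf
  have hg' : PtF F (f⁻¹ * g) c := PtF_mul X.hF (inv_mem hfF) hg
  have h1 : ((f⁻¹ * g) (e K c)).2 (ng b) ≠ 0 := by
    intro h0
    apply hne
    rw [map_smul, ← Orb4_fm (GF_le_GG (X.hF hfF))]
    have h2 := fm_e_right b ((f⁻¹ * g) (e K c))
    rw [h0, neg_zero] at h2
    rw [LinearEquiv.mul_apply] at h2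
    rw [h2, smul_zero]
  obtain ⟨h2, r, hr, -, κ', hκ', h3⟩ := Pl H (p := p) X.hF X.hT hb hl hc hg'.1 hg'.2 h1
  refine ⟨f * r, mul_mem hf hr, ng b, h2, (sg_ng_iff b).2 hl, κ', hκ', ?_⟩
  have h4 := congrArg f h3
  rw [LinearEquiv.mul_apply, nor_inv_apply, map_smul] at h4
  rw [h4, LinearEquiv.mul_apply]

theorem OrbS_P (H : HypW C6 K) [Fact p.Prime] [CharP K p] (X : HB p F) {c : Rt C6}
    (hc : sg c ≠ c) {g : LL C6 K ≃ₗ[K] LL C6 K} (hg : PtF F g c) {u : LL C6 K} (hu : u ∈ OrbS F)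
    (hne : fm (g (wf K c)) u ≠ 0) : g (wf K c) ∈ OrbS F := by
  obtain ⟨f, hf, b, hb, κ, hκ, rfl⟩ := hu
  have hfF : f ∈ F := Fo4_le X.hT hf
  have hg' : PtF F (f⁻¹ * g) c := PtF_mul X.hF (inv_mem hfF) hg
  have h1 : ((f⁻¹ * g) (wf K c)).2 (ng b) ≠ 0 := by
    intro h0
    apply hne
    rw [map_smul, ← Orb4_fm (GF_le_GG (X.hF hfF)), fm_comm H]
    have h2 := fm_w H ((GF_VF hg'.1 _).2 (wf_mem c)) b hb.2.1
    rw [h0, mul_zero] at h2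
    rw [LinearEquiv.mul_apply] at h2
    rw [h2, smul_zero]
  obtain ⟨h2, r, hr, -, ⟨κ', hκ', h3⟩, -⟩ := Ps H (p := p) X.hF X.hT hb hc hg'.1 hg'.2 h1
  refine ⟨f * r, mul_mem hf hr, ng b, SsF_ng H (p := p) X hb, κ', hκ', ?_⟩
  have h4 := congrArg f h3
  rw [LinearEquiv.mul_apply, nor_inv_apply, map_smul] at h4
  rw [h4, LinearEquiv.mul_apply]

/-- common properties of the two kinds of point vectors -/
structure Orb4D (F : Subgroup (LL C6 K ≃ₗ[K] LL C6 K)) (q : Rt C6 → LL C6 K)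
    (S : Set (Rt C6)) : Prop where
  hng : ∀ b ∈ S, ng b ∈ S
  fix : ∀ b ∈ S, ∀ (d : Rt C6) (s : K), 0 ≤ dg d b → xf d s (q b) = q b
  tor : ∀ b ∈ S, ∀ t ∈ T4 K, ∃ c : K, c ≠ 0 ∧ t (q b) = c • q b
  pair : ∀ b ∈ S, fm (q b) (q (ng b)) ≠ 0

/-- the orbit -/
def Orb4O (F : Subgroup (LL C6 K ≃ₗ[K] LL C6 K)) (q : Rt C6 → LL C6 K) (S : Set (Rt C6)) :
    Set (LL C6 K) :=
  {v | ∃ f ∈ Fo4 F, ∃ b ∈ S, ∃ κ : K, κ ≠ 0 ∧ v = κ • f (q b)}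

/-- adjacency -/
def Orb4R (F : Subgroup (LL C6 K ≃ₗ[K] LL C6 K)) (q : Rt C6 → LL C6 K) (S : Set (Rt C6))
    (x y : LL C6 K) : Prop := x ∈ Orb4O F q S ∧ y ∈ Orb4O F q S ∧ fm x y ≠ 0

theorem Orb4O_Fo4 {q : Rt C6 → LL C6 K} {S : Set (Rt C6)} {v : LL C6 K} (hv : v ∈ Orb4O F q S)
    {f : LL C6 K ≃ₗ[K] LL C6 K} (hf : f ∈ Fo4 F) : f v ∈ Orb4O F q S := by
  obtain ⟨f', hf', b, hb, κ, hκ, rfl⟩ := hv
  exact ⟨f * f', mul_mem hf hf', b, hb, κ, hκ, by rw [map_smul, LinearEquiv.mul_apply]⟩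

theorem Orb4O_self {q : Rt C6 → LL C6 K} {S : Set (Rt C6)} {b : Rt C6} (hb : b ∈ S) {k : K}
    (hk : k ≠ 0) : k • q b ∈ Orb4O F q S :=
  ⟨1, one_mem _, b, hb, k, hk, rfl⟩

theorem Orb4_gen_map (H : HypW C6 K) {q : Rt C6 → LL C6 K} {S : Set (Rt C6)} {x y : LL C6 K}
    (h : Relation.EqvGen (Orb4R F q S) x y) {f : LL C6 K ≃ₗ[K] LL C6 K} (hf : f ∈ Fo4 F) :
    Relation.EqvGen (Orb4R F q S) (f x) (f y) := by
  induction h with
  | rel x y h =>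
    refine Relation.EqvGen.rel _ _ ⟨Orb4O_Fo4 h.1 hf, Orb4O_Fo4 h.2.1 hf, ?_⟩
    rw [(GF_le_GG (Fo4_le_GF H hf)).2]
    exact h.2.2
  | refl x => exact Relation.EqvGen.refl _
  | symm x y _ ih => exact Relation.EqvGen.symm _ _ ih
  | trans x y z _ _ ih1 ih2 => exact Relation.EqvGen.trans _ _ _ ih1 ih2

theorem Orb4_ng {q : Rt C6 → LL C6 K} {S : Set (Rt C6)} (Z : Orb4D F q S) {b : Rt C6}
    (hb : b ∈ S) {k : K} (hk : k ≠ 0) :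
    Relation.EqvGen (Orb4R F q S) (k • q b) (q (ng b)) := by
  have h1 := Orb4O_self (F := F) (q := q) (Z.hng b hb) (one_ne_zero (α := K))
  rw [one_smul] at h1
  refine Relation.EqvGen.rel _ _ ⟨Orb4O_self hb hk, h1, ?_⟩
  rw [map_smul, LinearMap.smul_apply, smul_eq_mul]
  exact mul_ne_zero hk (Z.pair b hb)

theorem Orb4_smul {q : Rt C6 → LL C6 K} {S : Set (Rt C6)} (Z : Orb4D F q S) {b : Rt C6}
    (hb : b ∈ S) {k : K} (hk : k ≠ 0) :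
    Relation.EqvGen (Orb4R F q S) (k • q b) (q b) := by
  have h1 := Orb4_ng Z hb (one_ne_zero (α := K))
  rw [one_smul] at h1
  exact Relation.EqvGen.trans _ _ _ (Orb4_ng Z hb hk) (Relation.EqvGen.symm _ _ h1)

theorem Orb4_all (H : HypW C6 K) {q : Rt C6 → LL C6 K} {S : Set (Rt C6)} (Z : Orb4D F q S)
    {f : LL C6 K ≃ₗ[K] LL C6 K} (hf : f ∈ Fo4 F) :
    ∀ b ∈ S, Relation.EqvGen (Orb4R F q S) (f (q b)) (q b) := by
  have key : f ∈ Fo4 F ∧ ∀ b ∈ S, Relation.EqvGen (Orb4R F q S) (f (q b)) (q b) := by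
    unfold Fo4 at hf
    induction hf using Subgroup.closure_induction with
    | mem u hu =>
      have huF : u ∈ Fo4 F := Subgroup.subset_closure hu
      refine ⟨huF, fun b hb => ?_⟩
      rcases hu with hu | ⟨d, hd, s, rfl⟩
      · obtain ⟨c, hc, h1⟩ := Z.tor b hb u hu
        rw [h1]
        exact Orb4_smul Z hb hc
      · by_cases h : 0 ≤ dg d b
        · rw [Z.fix b hb d s h]
          exact Relation.EqvGen.refl _
        · have h2 : 0 ≤ dg d (ng b) := by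
            rw [dg_ng_right]
            omega
          have h1 := Orb4_ng Z hb (one_ne_zero (α := K))
          rw [one_smul] at h1
          have h3 := Orb4_gen_map H h1 huF
          rw [Z.fix _ (Z.hng b hb) d s h2] at h3
          exact Relation.EqvGen.trans _ _ _ h3 (Relation.EqvGen.symm _ _ h1)
    | one => exact ⟨one_mem _, fun b _ => Relation.EqvGen.refl _⟩
    | mul u v _ _ hu hv =>
      refine ⟨mul_mem hu.1 hv.1, fun b hb => ?_⟩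
      rw [LinearEquiv.mul_apply]
      exact Relation.EqvGen.trans _ _ _ (Orb4_gen_map H (hv.2 b hb) hu.1) (hu.2 b hb)
    | inv u _ hu =>
      refine ⟨inv_mem hu.1, fun b hb => ?_⟩
      have h1 := Orb4_gen_map H (hu.2 b hb) (inv_mem hu.1)
      have h2 : u⁻¹ (u (q b)) = q b := u.symm_apply_apply _
      rw [h2] at h1
      exact Relation.EqvGen.symm _ _ h1
  exact key.2

theorem Orb4_conn (H : HypW C6 K) {q : Rt C6 → LL C6 K} {S : Set (Rt C6)} (Z : Orb4D F q S)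
    (A : Set (LL C6 K)) (hA : ∀ x ∈ A, ∀ y ∈ Orb4O F q S, fm x y ≠ 0 → y ∈ A)
    {f : LL C6 K ≃ₗ[K] LL C6 K} (hf : f ∈ Fo4 F) {b : Rt C6} (hb : b ∈ S) {k : K} (hk : k ≠ 0)
    (h : k • f (q b) ∈ A) : q b ∈ A := by
  have h1 : ∀ x y, Relation.EqvGen (Orb4R F q S) x y → (x ∈ A ↔ y ∈ A) := by
    intro x y hxy
    induction hxy with
    | rel x y h =>
      exact ⟨fun hx => hA x hx y h.2.1 h.2.2, fun hy => hA y hy x h.1
        (by rw [fm_comm H]; exact h.2.2)⟩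
    | refl x => exact Iff.rfl
    | symm x y _ ih => exact ih.symm
    | trans x y z _ _ ih1 ih2 => exact ih1.trans ih2
  have h2 := Orb4_gen_map H (Orb4_smul Z hb hk) hf
  rw [map_smul] at h2
  exact (h1 _ _ (Relation.EqvGen.trans _ _ _ h2 (Orb4_all H Z hf b hb))).1 h

theorem Orb4D_L (H : HypW C6 K) [Fact p.Prime] [CharP K p] (X : HB p F) :
    Orb4D F (fun b => e K b) {b | b ∈ SF4 F ∧ sg b = b} where
  hng := fun b hb => ⟨sym4 H X hb.1, (sg_ng_iff b).2 hb.2⟩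
  fix := fun b hb d s h => by
    have h1 := xf_pv_fix H d b h s
    rw [pv_long hb.2] at h1
    exact h1
  tor := fun b hb t ht => ⟨wt t b, wt_ne_zero H (T4_le_TT H ht) b, TT_e H (T4_le_TT H ht) b⟩
  pair := fun b hb => by
    have h1 := fm_pv_ng H (K := K) b
    rw [pv_long hb.2, pv_long ((sg_ng_iff b).2 hb.2)] at h1
    exact h1

theorem Orb4D_S (H : HypW C6 K) [Fact p.Prime] [CharP K p] (X : HB p F) :
    Orb4D F (fun b => wf K b) (SsF F) where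
  hng := fun b hb => SsF_ng H X hb
  fix := fun b hb d s h => xf_wf_fix H d b h s
  tor := fun b hb t ht => ⟨wt t b, wt_ne_zero H (T4_le_TT H ht) b, (T4_Df H ht b).2.1⟩
  pair := fun b hb => by
    have h1 := fm_pv_ng H (K := K) b
    rw [pv_short hb.2.1, pv_short (fun h => hb.2.1 ((sg_ng_iff b).1 h))] at h1
    exact h1

theorem Orb4_OL : OrbL F = Orb4O F (fun b => e K b) {b | b ∈ SF4 F ∧ sg b = b} := by
  ext v
  constructor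
  · rintro ⟨f, hf, b, hb, hl, κ, hκ, rfl⟩
    exact ⟨f, hf, b, ⟨hb, hl⟩, κ, hκ, rfl⟩
  · rintro ⟨f, hf, b, ⟨hb, hl⟩, κ, hκ, rfl⟩
    exact ⟨f, hf, b, hb, hl, κ, hκ, rfl⟩

theorem Orb4_OS : OrbS F = Orb4O F (fun b => wf K b) (SsF F) := rfl

theorem OrbL_conn (H : HypW C6 K) [Fact p.Prime] [CharP K p] (X : HB p F) (A : Set (LL C6 K))
    (hA : ∀ x ∈ A, ∀ y ∈ OrbL F, fm x y ≠ 0 → y ∈ A) {f : LL C6 K ≃ₗ[K] LL C6 K} (hf : f ∈ Fo4 F)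
    {b : Rt C6} (hb : b ∈ SF4 F) (hl : sg b = b) {k : K} (hk : k ≠ 0) (h : k • f (e K b) ∈ A) :
    e K b ∈ A := by
  rw [Orb4_OL] at hA
  exact Orb4_conn H (Orb4D_L H (p := p) X) A hA hf (b := b) ⟨hb, hl⟩ hk h

theorem OrbS_conn (H : HypW C6 K) [Fact p.Prime] [CharP K p] (X : HB p F) (A : Set (LL C6 K))
    (hA : ∀ x ∈ A, ∀ y ∈ OrbS F, fm x y ≠ 0 → y ∈ A) {f : LL C6 K ≃ₗ[K] LL C6 K} (hf : f ∈ Fo4 F)
    {b : Rt C6} (hb : b ∈ SsF F) {k : K} (hk : k ≠ 0) (h : k • f (wf K b) ∈ A) :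
    wf K b ∈ A :=
  Orb4_conn H (Orb4D_S H (p := p) X) A hA hf hb hk h

theorem Orb4_snd (H : HypW C6 K) {t : LL C6 K ≃ₗ[K] LL C6 K} (ht : t ∈ T4 K) (x : LL C6 K)
    (hx : x ∈ UR K (SF4 F)) : t x ∈ UR K (SF4 F) := by
  rw [decomp x, map_add, map_sum, (T4_le_TT H ht).2 _ (hh_mem_L0 _)]
  refine add_mem (Lpos_UR_hh _ _) (Submodule.sum_mem _ fun b _ => ?_)
  rw [map_smul, TT_e H (T4_le_TT H ht)]
  by_cases hb : b ∈ SF4 F
  · exact Submodule.smul_mem _ _ (Submodule.smul_mem _ _ (Lpos_UR_e hb))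
  · rw [hx b hb, zero_smul]
    exact Submodule.zero_mem _

theorem Orb4_UR (H : HypW C6 K) {f : LL C6 K ≃ₗ[K] LL C6 K} (hf : f ∈ Fo4 F) :
    ∀ x ∈ UR K (SF4 F), f x ∈ UR K (SF4 F) := by
  have key : (∀ x ∈ UR K (SF4 F), f x ∈ UR K (SF4 F)) ∧
      ∀ x ∈ UR K (SF4 F), f⁻¹ x ∈ UR K (SF4 F) := by
    unfold Fo4 at hf
    induction hf using Subgroup.closure_induction with
    | mem u hu =>
      rcases hu with hu | ⟨d, hd, s, rfl⟩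
      · exact ⟨fun x hx => Orb4_snd H hu x hx, fun x hx => Orb4_snd H (inv_mem hu) x hx⟩
      · rw [← xf_neg H]
        exact ⟨fun x hx => Lpos_UR_xf H (Cl4_SF4 H F) hd s hx,
          fun x hx => Lpos_UR_xf H (Cl4_SF4 H F) hd (-s) hx⟩
    | one =>
      rw [inv_one]
      exact ⟨fun x hx => hx, fun x hx => hx⟩
    | mul u v _ _ hu hv =>
      rw [mul_inv_rev]
      exact ⟨fun x hx => hu.1 _ (hv.1 x hx), fun x hx => hv.2 _ (hu.2 x hx)⟩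
    | inv u _ hu =>
      rw [inv_inv]
      exact ⟨hu.2, hu.1⟩
  exact key.1

theorem OrbL_span (H : HypW C6 K) {v : LL C6 K} (hv : v ∈ Submodule.span K (OrbL F)) :
    v ∈ LF K ∧ v ∈ UR K (SF4 F) := by
  have h1 : Submodule.span K (OrbL F) ≤ LF K ⊓ UR K (SF4 F) := by
    rw [Submodule.span_le]
    rintro u hu
    refine ⟨(OrbL_LF H hu).1, ?_⟩
    obtain ⟨f, hf, b, hb, hl, κ, hκ, rfl⟩ := hu
    exact Submodule.smul_mem _ _ (Orb4_UR H hf _ (Lpos_UR_e hb))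
  exact h1 hv

theorem OrbS_span (H : HypW C6 K) {v : LL C6 K} (hv : v ∈ Submodule.span K (OrbS F)) :
    v ∈ VF K ∧ v ∈ UR K (SF4 F) := by
  have h1 : Submodule.span K (OrbS F) ≤ VF K ⊓ UR K (SF4 F) := by
    rw [Submodule.span_le]
    rintro u hu
    refine ⟨(OrbS_VF H hu).1, ?_⟩
    obtain ⟨f, hf, b, hb, κ, hκ, rfl⟩ := hu
    refine Submodule.smul_mem _ _ (Orb4_UR H hf _ ?_)
    exact Submodule.sub_mem _ (Lpos_UR_e hb.1) (Lpos_UR_e (SF4_Eq4 (Or.inr rfl) hb.1))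
  exact h1 hv

theorem Orb4_PL (H : HypW C6 K) [Fact p.Prime] [CharP K p] (X : HB p F)
    {g : LL C6 K ≃ₗ[K] LL C6 K} (hg : g ∈ GF K) (hgT : T4 K ≤ cj g F) :
    ∀ x ∈ OrbL (cj g F), ∀ u ∈ OrbL F, fm (g x) u ≠ 0 → g x ∈ OrbL F := by
  rintro x ⟨f, hf, c, hc, hl, κ, hκ, rfl⟩ u hu hne
  have hf' : f ∈ cj g F := Fo4_le hgT hf
  have h1 : PtF F (g * f) c := PtF_cj hg (PtF_self (cj_le_GF hg X.hF) hf' hc)
  rw [map_smul] at hne ⊢
  refine OrbL_smul ?_ hκ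
  have h2 := OrbL_P H X hl h1 hu (fun h => hne ?_)
  · rw [LinearEquiv.mul_apply] at h2
    exact h2
  · rw [LinearEquiv.mul_apply] at h
    rw [map_smul, LinearMap.smul_apply, h, smul_zero]

theorem Orb4_PS (H : HypW C6 K) [Fact p.Prime] [CharP K p] (X : HB p F)
    {g : LL C6 K ≃ₗ[K] LL C6 K} (hg : g ∈ GF K) (hgT : T4 K ≤ cj g F) :
    ∀ x ∈ OrbS (cj g F), ∀ u ∈ OrbS F, fm (g x) u ≠ 0 → g x ∈ OrbS F := by
  rintro x ⟨f, hf, c, hc, κ, hκ, rfl⟩ u hu hne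
  have hf' : f ∈ cj g F := Fo4_le hgT hf
  have h1 : PtF F (g * f) c := PtF_cj hg (PtF_self (cj_le_GF hg X.hF) hf' hc.1)
  rw [map_smul] at hne ⊢
  refine OrbS_smul ?_ hκ
  have h2 := OrbS_P H X hc.2.1 h1 hu (fun h => hne ?_)
  · rw [LinearEquiv.mul_apply] at h2
    exact h2
  · rw [LinearEquiv.mul_apply] at h
    rw [map_smul, LinearMap.smul_apply, h, smul_zero]

/-- if one point of the orbit is matched then a base point is matched -/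
theorem Orb4_matchL (H : HypW C6 K) [Fact p.Prime] [CharP K p] (X : HB p F)
    {g : LL C6 K ≃ₗ[K] LL C6 K} (hg : g ∈ GF K) (hgT : T4 K ≤ cj g F) (h : NM F g) :
    ∀ x ∈ OrbL (cj g F), g x ∉ OrbL F := by
  intro x hx hgx
  have hx' := hx
  obtain ⟨f, hf, c, hc, hl, κ, hκ, rfl⟩ := hx'
  have h1 := OrbL_conn H (p := p) (HB_cj X hg hgT) {x | x ∈ OrbL (cj g F) ∧ g x ∈ OrbL F}
    (fun x hx y hy hxy => ⟨hy, Orb4_PL H (p := p) X hg hgT y hy (g x) hx.2 (by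
      rw [fm_comm H, (GF_le_GG hg).2]
      exact hxy)⟩) hf hc hl hκ ⟨hx, hgx⟩
  exact h.1 c hc hl h1.2

theorem Orb4_matchS (H : HypW C6 K) [Fact p.Prime] [CharP K p] (X : HB p F)
    {g : LL C6 K ≃ₗ[K] LL C6 K} (hg : g ∈ GF K) (hgT : T4 K ≤ cj g F) (h : NM F g) :
    ∀ x ∈ OrbS (cj g F), g x ∉ OrbS F := by
  intro x hx hgx
  have hx' := hx
  obtain ⟨f, hf, c, hc, κ, hκ, rfl⟩ := hx'
  have h1 := OrbS_conn H (p := p) (HB_cj X hg hgT) {x | x ∈ OrbS (cj g F) ∧ g x ∈ OrbS F}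
    (fun x hx y hy hxy => ⟨hy, Orb4_PS H (p := p) X hg hgT y hy (g x) hx.2 (by
      rw [fm_comm H, (GF_le_GG hg).2]
      exact hxy)⟩) hf hc hκ ⟨hx, hgx⟩
  exact h.2 c hc h1.2

theorem NM_orthL (H : HypW C6 K) [Fact p.Prime] [CharP K p] (X : HB p F)
    {g : LL C6 K ≃ₗ[K] LL C6 K} (hg : g ∈ GF K) (hgT : T4 K ≤ cj g F) (h : NM F g) :
    ∀ x ∈ OrbL (cj g F), ∀ u ∈ OrbL F, fm (g x) u = 0 := by
  intro x hx u hu
  by_contra hne
  exact Orb4_matchL H X hg hgT h x hx (Orb4_PL H X hg hgT x hx u hu hne)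

theorem NM_orthS (H : HypW C6 K) [Fact p.Prime] [CharP K p] (X : HB p F)
    {g : LL C6 K ≃ₗ[K] LL C6 K} (hg : g ∈ GF K) (hgT : T4 K ≤ cj g F) (h : NM F g) :
    ∀ x ∈ OrbS (cj g F), ∀ u ∈ OrbS F, fm (g x) u = 0 := by
  intro x hx u hu
  by_contra hne
  exact Orb4_matchS H X hg hgT h x hx (Orb4_PS H X hg hgT x hx u hu hne)

theorem cj_cj_inv (g : LL C6 K ≃ₗ[K] LL C6 K) : cj g⁻¹ (cj g F) = F := by
  ext x
  rw [mem_cj4, mem_cj4]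
  have h : g * (g⁻¹ * x * g⁻¹⁻¹) * g⁻¹ = x := by group
  rw [h]

theorem NM_symm (H : HypW C6 K) [Fact p.Prime] [CharP K p] (X : HB p F)
    {g : LL C6 K ≃ₗ[K] LL C6 K} (hg : g ∈ GF K) (hgT : T4 K ≤ cj g F) (h : NM F g) :
    NM (cj g F) g⁻¹ := by
  refine ⟨fun b hb hl hx => ?_, fun b hb hx => ?_⟩
  · rw [cj_cj_inv] at hb
    refine Orb4_matchL H X hg hgT h _ hx ?_
    rw [nor_inv_apply]
    exact e_mem_OrbL hb hl
  · rw [cj_cj_inv] at hb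
    refine Orb4_matchS H X hg hgT h _ hx ?_
    rw [nor_inv_apply]
    exact wf_mem_OrbS hb

end Pool.Agent.H31.F4
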