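import Pool.Agent.H31.F4.Nor4
import Pool.Agent.H33.EL.GrpC

/-!
# FF-12, FF-13, FF-14: `T4`-invariant `p`-subgroups are generated by root groups

FF-12 (`pg_rk1_4`): `B ≤ T4`, `z ∈ T4`, `T4 = ⟨z⟩ B`, roots `a`, `b` trivial on `B`.  `α = wt z a` has
order `m = q - 1` (`T4_surj`: some `t` has weight a generator of `K^*` at `a`; `t = z^i` mod
`B`), so `wt z b = α^k` for some `k`, i.e. `wt t b = (wt t a)^k` for all `t ∈ T4`, and `k` is prime to
`m` (`m` is even, so `k` is odd).  Take `t = hd (cv a) c`, `c` a generator: `c^(dg a b) = c^(2k)`: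
`m ∣ dg a b - 2k`: `dg a b` is even, and `dg a b ≠ 0` (else `m ∣ 2k`, `m ∣ 2`).  By symmetry `dg b a`
is even and not 0.  `dg_symm`, `dg_SL`, `dg_range`: `a`, `b` have the same length
(otherwise one of the two is `±1`: if `a` is short, `b` long, `dg a b = 2 dg b a`, `|dg a b| ≤ 2`),
and `dg a b = ±2`: `dg_two`, `dg_neg_two`.

`pg_zero4`: `P ≤ NN` a `T4`-invariant `p`-group is trivial: for `u ∈ P`, `t ∈ T4`:
`t u t⁻¹ u⁻¹ ∈ P ∩ T4 = 1` (`NN4_conj`, `T4_order`), `NN4_comm_trivial`.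

FF-13 (`pg_sl2_4`), see `Pool.Agent.H33.EL.PGa`, `PGb`: `P` a `T4`-invariant `p`-group, `P ≤ GF`, mapping
`m = {x : x.2 d = 0 unless Eq4 a d or Eq4 (ng a) d}` to itself.  `P` preserves `m ∩ LF = (L0 ∩ LF) +
K Df a + K Df (ng a)` and its derived algebra `s = K Df a + K Df (ng a) + K h`, `h = hh (zk (cv a))`.
The isotropic lines of `s` for `fm`: `fm (Df a) (Df (ng a)) = -ν`, `fm h h = 2ν`, `ν = 1` or 2
(long, short): `x = α Df a + β Df (ng a) + γ h` isotropic iff `γ² = αβ`: these are the `q + 1`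
lines `K Df a`, `K xf a t (Df (ng a))` (`xf a t (Df (ng a)) = Df (ng a) - t h + t² Df a`).  `P` acts on
this set `X`; `T4` permutes the fixed points of `P` in `X`, has the fixed points
`K Df a`, `K Df (ng a)` in `X` and is transitive on the other `q - 1`.  The number of
fixed points of `P` is congruent to 1 mod `p` and one of `0,1,2,q-1,q,q+1`: so 1 or `q + 1` and `P` fixes
`K Df a` or `K Df (ng a)`, say the first.  `g ∈ P`: `g = xf a t * g'` with `g'` fixing both lines;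
`g'` fixes `h`, and maps `m` to itself, `L0 = {x ∈ m : [h,x] = 0}` (`dg a a = 2`), so `g' ∈ NN`.
`P' = P X_a` is a `p`-group (`conj_xf`), `T4`-invariant, and `P' ⊓ NN = 1` by `pg_zero4`: `g' = 1`.

FF-14 (`pg4`): `cop_gen` (`Pool.Agent.H33.EL.GrpC`) with `A = T4`, as in `EL.PG`; `Fix(B)` for
`B ≤ T4` is spanned by `L0` and the `e_b` with `b` trivial on `B`; by `pg_rk1_4` at most two
classes `a`, `ng a`.
-/

namespace Pool.Agent.H31.F4

open Pool.Agent.H33.EL (ip cc eps Rt ng zk ek fk LL hh e brf fmf br fm IsExt exl ex xr hd L0 GG T1 TT NN SF cj wt)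

variable {K : Type} [Field K]

/-- the cyclic group `K^*`: weights of `z` at a root trivial on `B` generate -/
private theorem pga4_gen (H : HypW C6 K) (B : Subgroup (LL C6 K ≃ₗ[K] LL C6 K))
    {z : LL C6 K ≃ₗ[K] LL C6 K} (hz : z ∈ T4 K)
    (hcyc : ∀ t ∈ T4 K, ∃ k : ℤ, z ^ k * t ∈ B) {a : Rt C6}
    (ha : ∀ x ∈ B, wt x a = 1) (x : Kˣ) :
    x ∈ Subgroup.zpowers (Units.mk0 (wt z a) (wt_ne_zero H (T4_le_TT H hz) a)) := by
  obtain ⟨t, ht, hta⟩ := T4_surj H a (c := (x : K)) x.ne_zero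
  obtain ⟨k, hk⟩ := hcyc t ht
  have hzT := T4_le_TT H hz
  have hzk : z ^ k ∈ TT C6 K := (TT C6 K).zpow_mem hzT k
  have e1 : wt z a ^ k * (x : K) = 1 := by
    have := ha _ hk
    rwa [wt_mul H hzk (T4_le_TT H ht), wt_zpow H hzT, hta] at this
  have f1 : (Units.mk0 (wt z a) (wt_ne_zero H (T4_le_TT H hz) a)) ^ k * x = 1 := by
    apply Units.ext
    simpa using e1
  have : x = ((Units.mk0 (wt z a) (wt_ne_zero H (T4_le_TT H hz) a)) ^ k)⁻¹ := by
    rw [eq_comm, inv_eq_iff_mul_eq_one]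
    exact f1
  rw [this]
  exact Subgroup.inv_mem _ ⟨k, rfl⟩

private theorem pga4_order {x : Kˣ} (hx : ∀ y : Kˣ, y ∈ Subgroup.zpowers x) :
    orderOf x = Nat.card Kˣ := by
  rw [← Nat.card_zpowers]
  have : Subgroup.zpowers x = ⊤ := by
    rw [eq_top_iff]
    intro y _
    exact hx y
  rw [this]
  exact Subgroup.card_top

/-- the Cartan integer is `2` or `-2` -/
private theorem pga4_dg (H : HypW C6 K) (B : Subgroup (LL C6 K ≃ₗ[K] LL C6 K))
    {z : LL C6 K ≃ₗ[K] LL C6 K} (hz : z ∈ T4 K)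
    (hcyc : ∀ t ∈ T4 K, ∃ k : ℤ, z ^ k * t ∈ B) {a b : Rt C6}
    (ha : ∀ x ∈ B, wt x a = 1) (hb : ∀ x ∈ B, wt x b = 1) : dg a b = 2 ∨ dg a b = -2 := by
  haveI : Finite K := by
    apply Nat.finite_of_card_ne_zero
    rcases H.card with h | h | h <;> omega
  have hzT := T4_le_TT H hz
  set α : Kˣ := Units.mk0 (wt z a) (wt_ne_zero H hzT a) with hα
  set β : Kˣ := Units.mk0 (wt z b) (wt_ne_zero H hzT b) with hβ
  have hgα : ∀ x : Kˣ, x ∈ Subgroup.zpowers α := fun x => pga4_gen H B hz hcyc ha x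
  have hgβ : ∀ x : Kˣ, x ∈ Subgroup.zpowers β := fun x => pga4_gen H B hz hcyc hb x
  have hoα := pga4_order hgα
  have hoβ := pga4_order hgβ
  have hcard : Nat.card Kˣ = 6 ∨ Nat.card Kˣ = 8 ∨ Nat.card Kˣ = 10 := by
    rw [Nat.card_units]
    rcases H.card with h | h | h <;> omega
  obtain ⟨k, hk⟩ := hgα β
  have hk' : α ^ k = β := hk
  have ht : (hd C6 (cv a) α : LL C6 K ≃ₗ[K] LL C6 K) ∈ T4 K := hd_mem_T4 (sv_cv a) α
  obtain ⟨i, hi⟩ := hcyc _ ht
  have hzi : z ^ i ∈ TT C6 K := (TT C6 K).zpow_mem hzT i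
  have e1 : α ^ i * α ^ (dg a a) = 1 := by
    have := ha _ hi
    rw [wt_mul H hzi (T4_le_TT H ht), wt_zpow H hzT, wt_hd_cv] at this
    apply Units.ext
    simpa [hα] using this
  have e2 : β ^ i * α ^ (dg a b) = 1 := by
    have := hb _ hi
    rw [wt_mul H hzi (T4_le_TT H ht), wt_zpow H hzT, wt_hd_cv] at this
    apply Units.ext
    simpa [hβ] using this
  rw [dg_self] at e1
  have hdvd1 : (Nat.card Kˣ : ℤ) ∣ i + 2 := by
    rw [← hoα]
    apply orderOf_dvd_iff_zpow_eq_one.mpr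
    rw [zpow_add]
    exact e1
  have hdvd2 : (Nat.card Kˣ : ℤ) ∣ k * i + dg a b := by
    rw [← hoα]
    apply orderOf_dvd_iff_zpow_eq_one.mpr
    rw [zpow_add, zpow_mul, hk']
    exact e2
  have hne : dg a b ≠ 0 := by
    intro h0
    rw [h0, zpow_zero, mul_one] at e2
    have h3 : (Nat.card Kˣ : ℤ) ∣ i := by
      rw [← hoβ]
      exact orderOf_dvd_iff_zpow_eq_one.mpr e2
    have h4 : (Nat.card Kˣ : ℤ) ∣ 2 := by
      have := dvd_sub hdvd1 h3
      rwa [add_sub_cancel_left] at this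
    rcases hcard with h | h | h <;> rw [h] at h4 <;> norm_num at h4
  have heven : (2 : ℤ) ∣ dg a b := by
    have h2 : (2 : ℤ) ∣ (Nat.card Kˣ : ℤ) := by
      rcases hcard with h | h | h <;> rw [h] <;> norm_num
    have h3 : (2 : ℤ) ∣ i := by
      have := dvd_trans h2 hdvd1
      omega
    have h4 : (2 : ℤ) ∣ k * i := dvd_mul_of_dvd_right h3 k
    have h5 := dvd_trans h2 hdvd2
    exact (dvd_add_right h4).mp h5
  have hr := dg_range a b
  omega

theorem pg_rk1_4 (H : HypW C6 K) (B : Subgroup (LL C6 K ≃ₗ[K] LL C6 K)) (hB : B ≤ T4 K)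
    {z : LL C6 K ≃ₗ[K] LL C6 K} (hz : z ∈ T4 K)
    (hcyc : ∀ t ∈ T4 K, ∃ k : ℤ, z ^ k * t ∈ B) {a b : Rt C6}
    (ha : ∀ x ∈ B, wt x a = 1) (hb : ∀ x ∈ B, wt x b = 1) : Eq4 a b ∨ Eq4 (ng a) b := by
  have h1 := pga4_dg H B hz hcyc ha hb
  have h2 := pga4_dg H B hz hcyc hb ha
  by_cases hsa : sg a = a
  · by_cases hsb : sg b = b
    · rcases h1 with h | h
      · exact Or.inl (dg_two a b h ⟨fun _ => hsb, fun _ => hsa⟩)
      · exact Or.inr (dg_neg_two a b h ⟨fun _ => hsb, fun _ => hsa⟩)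
    · exfalso
      have h3 := dg_SL b a hsb hsa
      omega
  · by_cases hsb : sg b = b
    · exfalso
      have h3 := dg_SL a b hsa hsb
      omega
    · rcases h1 with h | h
      · exact Or.inl (dg_two a b h ⟨fun h => absurd h hsa, fun h => absurd h hsb⟩)
      · exact Or.inr (dg_neg_two a b h ⟨fun h => absurd h hsa, fun h => absurd h hsb⟩)

theorem pg_zero4 (H : HypW C6 K) {p : ℕ} [Fact p.Prime] [CharP K p]
    (P : Subgroup (LL C6 K ≃ₗ[K] LL C6 K)) (hP : IsPGroup p P) (hPG : P ≤ GF K)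
    (hPN : P ≤ NN C6 K) (hT : ∀ t ∈ T4 K, ∀ u ∈ P, t * u * t⁻¹ ∈ P) : P = ⊥ := by
  rw [eq_bot_iff]
  intro u hu
  rw [Subgroup.mem_bot]
  have hcomm : ∀ t ∈ T4 K, u * t = t * u := by
    intro t ht
    have h1 : t * u * t⁻¹ * u⁻¹ ∈ P := P.mul_mem (hT t ht u hu) (P.inv_mem hu)
    have h2 : t * u * t⁻¹ * u⁻¹ ∈ T4 K := by
      have h3 := NN4_conj H (hPN hu) (hPG hu) t⁻¹ ((T4 K).inv_mem ht)
      have h4 := (T4 K).mul_mem ht h3
      have h5 : t * (u * t⁻¹ * u⁻¹) = t * u * t⁻¹ * u⁻¹ := by group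
      rw [h5] at h4
      exact h4
    obtain ⟨k, hk⟩ := hP ⟨_, h1⟩
    have h6 : (t * u * t⁻¹ * u⁻¹) ^ p ^ k = 1 := by
      have := congrArg Subtype.val hk
      simpa using this
    have h7 := T4_order H h2 k h6
    have h8 : t * u * t⁻¹ = u := mul_inv_eq_one.mp h7
    have h9 : t * u = u * t := by
      calc t * u = (t * u * t⁻¹) * t := by group
        _ = u * t := by rw [h8]
    exact h9.symm
  obtain ⟨k, hk⟩ := hP ⟨u, hu⟩
  have h6 : u ^ p ^ k = 1 := by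
    have := congrArg Subtype.val hk
    simpa using this
  exact NN4_comm_trivial H (hPG hu) hcomm k h6

end Pool.Agent.H31.F4
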