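import Pool.Agent.H31.F4.PGa4

/-!
# FF-13: rank one, see the header of `PGa4`
-/

namespace Pool.Agent.H31.F4

open Pool.Agent.H33.EL (ip cc eps Rt ng zk ek fk LL hh e brf fmf br fm IsExt exl ex xr hd L0 GG T1 TT NN SF cj wt)

variable {K : Type} [Field K]

/-! ### the subspace `m` -/

/-- the root support is contained in the classes of `a` and `ng a` -/
private def Pgb4M (a : Rt C6) (x : LL C6 K) : Prop :=
  ∀ d, ¬ Eq4 a d → ¬ Eq4 (ng a) d → x.2 d = 0

private theorem pgb4_dg1 {a d : Rt C6} (h : Eq4 a d) : dg a d = 2 := by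
  rcases h with rfl | rfl
  · exact dg_self _
  · rw [dg_sg_right, dg_self]

private theorem pgb4_dg2 {a d : Rt C6} (h : Eq4 (ng a) d) : dg a d = -2 := by
  rcases h with rfl | rfl
  · rw [dg_ng_right, dg_self]
  · rw [dg_sg_right, dg_ng_right, dg_self]

private theorem pgb4_disj {a d : Rt C6} (h : Eq4 a d) : ¬ Eq4 (ng a) d := by
  intro h2
  have h3 := pgb4_dg1 h
  rw [pgb4_dg2 h2] at h3
  norm_num at h3

private theorem pgb4_ip (H : HypW C6 K) {a b d : Rt C6} (hb : Eq4 a b ∨ Eq4 (ng a) b)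
    (hd : Eq4 a d ∨ Eq4 (ng a) d) : ip C6 d.1 b.1 ≠ -1 := by
  have h0 : ip C6 a.1 a.1 = 2 := a.2
  have h1 : ip C6 (sg a).1 (sg a).1 = 2 := (sg a).2
  have h2 : ip C6 a.1 (sg a).1 = 2 ∨ ip C6 a.1 (sg a).1 = 0 := by
    by_cases h : sg a = a
    · left
      rw [h]
      exact h0
    · right
      exact cb_self a h
  have h3 : ip C6 (sg a).1 a.1 = ip C6 a.1 (sg a).1 := ip_comm H.symm _ _
  rcases hb with (rfl | rfl) | (rfl | rfl) <;> rcases hd with (rfl | rfl) | (rfl | rfl) <;>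
    (try simp only [sg_ng, ng_val, ip_neg_left, ip_neg_right, h3, neg_neg]) <;>
    omega

private theorem pgb4_e_br (H : HypW C6 K) {a b : Rt C6} (hb : Eq4 a b ∨ Eq4 (ng a) b)
    {x : LL C6 K} (hx : Pgb4M a x) : Pgb4M a (br (e K b) x) := by
  intro r hr hr'
  by_cases h1 : ip C6 r.1 b.1 = 1
  · have h2 : ip C6 (r.1 - b.1) (r.1 - b.1) = 2 := root_sub H h1
    have hd : (⟨r.1 - b.1, h2⟩ : Rt C6).1 = r.1 - b.1 := rfl
    rw [br_e_snd H b x r h1 ⟨r.1 - b.1, h2⟩ hd]
    have h3 : ip C6 (⟨r.1 - b.1, h2⟩ : Rt C6).1 b.1 = -1 := by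
      rw [hd, ip_sub_left, h1]
      have h4 : ip C6 b.1 b.1 = 2 := b.2
      rw [h4]
      norm_num
    rw [hx ⟨r.1 - b.1, h2⟩ (fun h => pgb4_ip H hb (Or.inl h) h3)
      (fun h => pgb4_ip H hb (Or.inr h) h3), mul_zero]
  · have hrb : r ≠ b := by
      rintro rfl
      rcases hb with h | h
      · exact hr h
      · exact hr' h
    exact br_e_snd_zero H b x r h1 hrb

private theorem pgb4_add {a : Rt C6} {x y : LL C6 K} (hx : Pgb4M a x) (hy : Pgb4M a y) :
    Pgb4M a (x + y) := by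
  intro d h1 h2
  rw [Prod.snd_add, Pi.add_apply, hx d h1 h2, hy d h1 h2, add_zero]

private theorem pgb4_smul {a : Rt C6} {x : LL C6 K} (hx : Pgb4M a x) (c : K) :
    Pgb4M a (c • x) := by
  intro d h1 h2
  rw [Prod.smul_snd, Pi.smul_apply, hx d h1 h2, smul_zero]

private theorem pgb4_D_br (H : HypW C6 K) {a b : Rt C6} (hb : b = a ∨ b = ng a)
    {x : LL C6 K} (hx : Pgb4M a x) : Pgb4M a (br (Df K b) x) := by
  have h1 : Eq4 a b ∨ Eq4 (ng a) b := by
    rcases hb with h | h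
    · exact Or.inl (Or.inl h)
    · exact Or.inr (Or.inl h)
  have h2 : Eq4 a (sg b) ∨ Eq4 (ng a) (sg b) := by
    rcases hb with h | h
    · exact Or.inl (Or.inr (by rw [h]))
    · exact Or.inr (Or.inr (by rw [h]))
  by_cases h : sg b = b
  · rw [Df_long h]
    exact pgb4_e_br H h1 hx
  · rw [Df_short h, map_add, LinearMap.add_apply]
    exact pgb4_add (pgb4_e_br H h1 hx) (pgb4_e_br H h2 hx)

/-- the root elements of `a` preserve `m` -/
private theorem pgb4_xf_m (H : HypW C6 K) (a : Rt C6) (s : K) {x : LL C6 K}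
    (hx : Pgb4M a x) : Pgb4M a (xf a s x) := by
  rw [xf_apply H]
  exact pgb4_add (pgb4_add hx (pgb4_smul (pgb4_D_br H (Or.inl rfl) hx) _))
    (pgb4_smul (pgb4_D_br H (Or.inl rfl) (pgb4_D_br H (Or.inl rfl) hx)) _)

private theorem pgb4_D_m {a b : Rt C6} (hb : b = a ∨ b = ng a) : Pgb4M a (Df K b) := by
  intro d h1 h2
  rw [Df_snd]
  apply if_neg
  rcases hb with rfl | rfl
  · exact h1
  · exact h2

private theorem pgb4_hh_m (a : Rt C6) (h : Fin 6 → K) : Pgb4M a (hh C6 h) := by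
  intro d _ _
  exact hh_snd h d

/-- the elements of `m` in `LF` -/
private theorem pgb4_dec {a : Rt C6} {x : LL C6 K} (hL : x ∈ LF K) (hx : Pgb4M a x) :
    x = hh C6 x.1 + x.2 a • Df K a + x.2 (ng a) • Df K (ng a) := by
  obtain ⟨-, h2⟩ := (mem_LF' x).1 hL
  refine Prod.ext ?_ (funext fun d => ?_)
  · rw [Prod.fst_add, Prod.fst_add, Prod.smul_fst, Prod.smul_fst, Df_fst, Df_fst, hh_fst,
      smul_zero, smul_zero, add_zero, add_zero]
  · rw [Prod.snd_add, Prod.snd_add, Pi.add_apply, Pi.add_apply, hh_snd, Prod.smul_snd,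
      Prod.smul_snd, Pi.smul_apply, Pi.smul_apply, Df_snd, Df_snd, zero_add]
    by_cases h3 : Eq4 a d
    · rw [if_pos h3, if_neg (pgb4_disj h3), smul_zero, add_zero, smul_eq_mul, mul_one]
      rcases h3 with rfl | rfl
      · rfl
      · exact h2 a
    · by_cases h4 : Eq4 (ng a) d
      · rw [if_neg h3, if_pos h4, smul_zero, zero_add, smul_eq_mul, mul_one]
        rcases h4 with rfl | rfl
        · rfl
        · exact h2 (ng a)
      · rw [if_neg h3, if_neg h4, smul_zero, smul_zero, add_zero]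
        exact hx d h3 h4

private theorem pgb4_sv {x : LL C6 K} (hL : x ∈ LF K) : sv x.1 = x.1 :=
  ((mem_LF' x).1 hL).1

private theorem pgb4_fk (a b : Rt C6) :
    fk C6 (zk (cv a) : Fin 6 → K) (zk b.1) = ((dg a b : ℤ) : K) := by
  rw [fk_zk_zk]
  rfl

private theorem pgb4_sv_zk (a : Rt C6) : sv (zk (cv a) : Fin 6 → K) = zk (cv a) := by
  rw [← zk_sv, sv_cv]

private theorem pgb4_h_D (a b : Rt C6) :
    br (hh C6 (zk (cv a))) (Df K b) = ((dg a b : ℤ) : K) • Df K b := by
  rw [br_h_D _ (pgb4_sv_zk a), pgb4_fk]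

private theorem pgb4_D_h (H : HypW C6 K) (a b : Rt C6) :
    br (Df K b) (hh C6 (zk (cv a))) = -(((dg a b : ℤ) : K) • Df K b) := by
  rw [br_skew H, pgb4_h_D]

private theorem pgb4_D_ng' (H : HypW C6 K) (a : Rt C6) :
    br (Df K (ng a)) (Df K a) = hh C6 (zk (cv a)) := by
  rw [br_skew H, br_D_ng H, neg_neg]

/-- the toral part of the bracket of two elements of `m ∩ LF` -/
private theorem pgb4_br_fst (H : HypW C6 K) {a : Rt C6} {x y : LL C6 K} (hx : x ∈ LF K)
    (hxm : Pgb4M a x) (hy : y ∈ LF K) (hym : Pgb4M a y) :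
    (br x y).1 = (x.2 (ng a) * y.2 a - x.2 a * y.2 (ng a)) • (zk (cv a) : Fin 6 → K) := by
  have hsx := pgb4_sv hx
  have hsy := pgb4_sv hy
  have ex := pgb4_dec hx hxm
  have ey := pgb4_dec hy hym
  have key : br (hh C6 x.1 + x.2 a • Df K a + x.2 (ng a) • Df K (ng a))
      (hh C6 y.1 + y.2 a • Df K a + y.2 (ng a) • Df K (ng a)) =
      (x.2 (ng a) * y.2 a - x.2 a * y.2 (ng a)) • hh C6 (zk (cv a)) +
      (fk C6 x.1 (zk a.1) * y.2 a - x.2 a * fk C6 y.1 (zk a.1)) • Df K a +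
      (fk C6 x.1 (zk (ng a).1) * y.2 (ng a) - x.2 (ng a) * fk C6 y.1 (zk (ng a).1)) •
        Df K (ng a) := by
    simp only [map_add, LinearMap.add_apply, map_smul, LinearMap.smul_apply]
    rw [br_hh_hh, br_h_D _ hsx, br_h_D _ hsx, br_self H, br_self H, br_D_ng H, pgb4_D_ng' H,
      br_skew H (Df K a) (hh C6 y.1), br_skew H (Df K (ng a)) (hh C6 y.1), br_h_D _ hsy,
      br_h_D _ hsy]
    module
  rw [← ex, ← ey] at key
  rw [key]
  simp only [Prod.fst_add, Prod.smul_fst, Df_fst, hh_fst, smul_zero, add_zero]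

/-- the norm of an element of `m ∩ LF` with toral part a multiple of the coroot -/
private theorem pgb4_fm (H : HypW C6 K) {a : Rt C6} {x : LL C6 K} (hx : x ∈ LF K)
    (hxm : Pgb4M a x) {c : K} (hc : x.1 = c • (zk (cv a) : Fin 6 → K)) (h0 : fm x x = 0) :
    c ^ 2 = x.2 a * x.2 (ng a) := by
  have h2 := two_ne H
  have ex := pgb4_dec hx hxm
  have h1 : fm x x = fk C6 x.1 x.1 + x.2 a * fm (Df K a) x + x.2 (ng a) * fm (Df K (ng a)) x := by
    calc fm x x = fm (hh C6 x.1 + x.2 a • Df K a + x.2 (ng a) • Df K (ng a)) x := by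
          rw [← ex]
      _ = _ := by
          simp only [map_add, LinearMap.add_apply, map_smul, LinearMap.smul_apply, fm_hh_left,
            smul_eq_mul]
  have hfk : fk C6 x.1 x.1 = c ^ 2 * ((ip C6 (cv a) (cv a) : ℤ) : K) := by
    rw [hc, fk_smul_left, fk_smul_right, fk_zk_zk]
    ring
  rw [h0, hfk] at h1
  by_cases hl : sg a = a
  · have hl' : sg (ng a) = ng a := by rw [sg_ng, hl]
    have hcv : ip C6 (cv a) (cv a) = 2 := by
      unfold cv
      rw [if_pos hl]
      exact a.2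
    rw [Df_long hl, Df_long hl', fm_e_left, fm_e_left, ng_ng, hcv] at h1
    push_cast at h1
    have h3 : (2 : K) * (c ^ 2 - x.2 a * x.2 (ng a)) = 0 := by
      linear_combination -h1
    rcases mul_eq_zero.1 h3 with h4 | h4
    · exact absurd h4 h2
    · exact sub_eq_zero.1 h4
  · have hl' : sg (ng a) ≠ ng a := fun h => hl ((sg_ng_iff a).1 h)
    have hcv : ip C6 (cv a) (cv a) = 4 := by
      unfold cv
      rw [if_neg hl, ip_add_left, ip_add_right, ip_add_right, ip_comm H.symm (sg a).1 a.1,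
        cb_self a hl]
      have e1 : ip C6 a.1 a.1 = 2 := a.2
      have e2 : ip C6 (sg a).1 (sg a).1 = 2 := (sg a).2
      rw [e1, e2]
      norm_num
    rw [fm_D H hx a hl, fm_D H hx (ng a) hl', ng_ng, hcv] at h1
    push_cast at h1
    have h3 : (2 : K) * (2 * (c ^ 2 - x.2 a * x.2 (ng a))) = 0 := by
      linear_combination -h1
    rcases mul_eq_zero.1 h3 with h4 | h4
    · exact absurd h4 h2
    · rcases mul_eq_zero.1 h4 with h5 | h5
      · exact absurd h5 h2
      · exact sub_eq_zero.1 h5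

private theorem pgb4_fm_D (H : HypW C6 K) (b : Rt C6) : fm (Df K b) (Df K b) = 0 := by
  by_cases hl : sg b = b
  · rw [Df_long hl, fm_e_left, e_snd_ne (ng_ne H b), neg_zero]
  · rw [fm_D H (Df_mem b) b hl, Df_snd, if_neg, mul_zero]
    intro h
    have h1 := pgb4_dg1 h
    rw [dg_ng_right, dg_self] at h1
    norm_num at h1

private theorem pgb4_xf_ng (H : HypW C6 K) (a : Rt C6) (t : K) :
    xf a t (Df K (ng a)) = Df K (ng a) - t • hh C6 (zk (cv a)) + t ^ 2 • Df K a := by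
  have h2 := two_ne H
  rw [xf_apply H, br_D_ng H, map_neg, pgb4_D_h H, dg_self, neg_neg, smul_smul]
  have h3 : (2⁻¹ : K) * t ^ 2 * (((2 : ℤ)) : K) = t ^ 2 := by
    push_cast
    field_simp
  rw [h3, smul_neg, ← sub_eq_add_neg]

private theorem pgb4_xf_self (H : HypW C6 K) (a : Rt C6) (t : K) :
    xf a t (Df K a) = Df K a := by
  rw [xf_apply H, br_self H, map_zero, smul_zero, smul_zero, add_zero, add_zero]

/-- the image of a root vector -/
private theorem pgb4_ext (H : HypW C6 K) {a : Rt C6} {g : LL C6 K ≃ₗ[K] LL C6 K}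
    (hg : g ∈ GF K) (hm : ∀ x : LL C6 K, Pgb4M a x → Pgb4M a (g x)) {b : Rt C6}
    (hb : b = a ∨ b = ng a) :
    (∃ k : K, k ≠ 0 ∧ g (Df K b) = k • Df K a) ∨
      ∃ k t : K, k ≠ 0 ∧ g (Df K b) = k • xf a t (Df K (ng a)) := by
  have h2 := two_ne H
  have hv : g (Df K b) ∈ LF K := (GF_LF hg _).2 (Df_mem b)
  have hvm : Pgb4M a (g (Df K b)) := hm _ (pgb4_D_m hb)
  have hv0 : g (Df K b) ≠ 0 := by
    intro h
    exact Df_ne_zero b ((map_eq_zero_iff g g.injective).1 h)
  have hhm : Pgb4M a (g (hh C6 (zk (cv a)))) := hm _ (pgb4_hh_m a _)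
  have hhL : g (hh C6 (zk (cv a))) ∈ LF K := by
    rw [GF_LF hg, mem_LF, Sg_hh, pgb4_sv_zk]
  obtain ⟨c, hc⟩ : ∃ c : K, (g (Df K b)).1 = c • (zk (cv a) : Fin 6 → K) := by
    have hd : ((dg a b : ℤ) : K) ≠ 0 := by
      rcases hb with rfl | rfl
      · rw [dg_self]
        exact_mod_cast h2
      · rw [dg_ng_right, dg_self]
        push_cast
        exact neg_ne_zero.2 h2
    have h3 := pgb4_br_fst H hhL hhm hv hvm
    rw [← hg.1.1, pgb4_h_D, map_smul, Prod.smul_fst] at h3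
    refine ⟨((dg a b : ℤ) : K)⁻¹ * ((g (hh C6 (zk (cv a)))).2 (ng a) * (g (Df K b)).2 a -
      (g (hh C6 (zk (cv a)))).2 a * (g (Df K b)).2 (ng a)), ?_⟩
    rw [mul_smul, ← h3, smul_smul, inv_mul_cancel₀ hd, one_smul]
  have hq := pgb4_fm H hv hvm hc (by rw [hg.1.2, pgb4_fm_D H])
  have hdec := pgb4_dec hv hvm
  rw [hc] at hdec
  generalize hα : (g (Df K b)).2 a = α at hq hdec
  generalize hβ : (g (Df K b)).2 (ng a) = β at hq hdec
  by_cases hβ0 : β = 0
  · left
    rw [hβ0, mul_zero] at hq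
    have hc0 : c = 0 := by
      exact pow_eq_zero_iff (two_ne_zero) |>.1 hq
    rw [hβ0, hc0, zero_smul, zero_smul, hh_zero, zero_add, add_zero] at hdec
    refine ⟨α, ?_, hdec⟩
    rintro rfl
    rw [zero_smul] at hdec
    exact hv0 hdec
  · right
    refine ⟨β, -(c / β), hβ0, ?_⟩
    rw [pgb4_xf_ng H]
    have h4 : β * (c / β) = c := by field_simp
    have h5 : β * (-(c / β)) ^ 2 = α := by
      field_simp
      linear_combination hq
    rw [hdec, hh_smul, smul_add, smul_sub, smul_smul, smul_smul, h5, mul_neg, h4]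
    module

/-! ### the action on the lines -/

private theorem pgb4_inj {g : LL C6 K ≃ₗ[K] LL C6 K} {x : LL C6 K} (hx : x ≠ 0) : g x ≠ 0 := by
  intro h
  apply hx
  apply g.injective
  rw [h, map_zero]

/-- the representatives of the lines -/
private noncomputable def pgb4V (a : Rt C6) : Option K → LL C6 K
  | none => Df K a
  | some t => xf a t (Df K (ng a))

private theorem pgb4V_ne (a : Rt C6) (x : Option K) : pgb4V a x ≠ 0 := by
  cases x with
  | none => exact Df_ne_zero a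
  | some t => exact pgb4_inj (Df_ne_zero _)

private theorem pgb4_D_snd_self (a : Rt C6) : (Df K a).2 a = 1 := by
  rw [Df_snd]
  exact if_pos (Or.inl rfl)

private theorem pgb4_D_snd_ng (a : Rt C6) : (Df K a).2 (ng a) = 0 := by
  rw [Df_snd, if_neg]
  intro h
  have h1 := pgb4_dg1 h
  rw [dg_ng_right, dg_self] at h1
  norm_num at h1

private theorem pgb4_Dng_snd (a : Rt C6) : (Df K (ng a)).2 a = 0 := by
  have h := pgb4_D_snd_ng (K := K) (ng a)
  rwa [ng_ng] at h

private theorem pgb4_coord (H : HypW C6 K) (a : Rt C6) (t : K) :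
    (xf a t (Df K (ng a))).2 (ng a) = 1 := by
  rw [pgb4_xf_ng H]
  simp only [Prod.snd_add, Prod.snd_sub, Prod.smul_snd, Pi.add_apply, Pi.sub_apply,
    Pi.smul_apply, hh_snd, smul_zero, sub_zero]
  rw [pgb4_D_snd_self, pgb4_D_snd_ng, smul_zero, add_zero]

private theorem pgb4_line_inj (H : HypW C6 K) (a : Rt C6) {s t k : K}
    (h : xf a s (Df K (ng a)) = k • xf a t (Df K (ng a))) : s = t := by
  have h2 := two_ne H
  have h1 : k = 1 := by
    have h3 := congrArg (fun u : LL C6 K => u.2 (ng a)) h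
    simp only [Prod.smul_snd, Pi.smul_apply] at h3
    rw [pgb4_coord H, pgb4_coord H, smul_eq_mul, mul_one] at h3
    exact h3.symm
  rw [h1, one_smul, pgb4_xf_ng H, pgb4_xf_ng H] at h
  have h3 := congrArg (fun u : LL C6 K => fk C6 u.1 (zk a.1)) h
  simp only [Prod.fst_add, Prod.fst_sub, Prod.smul_fst, Df_fst, hh_fst, smul_zero, zero_sub,
    add_zero] at h3
  rw [← neg_smul, ← neg_smul, fk_smul_left, fk_smul_left, pgb4_fk, dg_self] at h3
  push_cast at h3
  have h4 := mul_right_cancel₀ h2 h3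
  exact neg_injective h4

private theorem pgb4V_inj (H : HypW C6 K) (a : Rt C6) {x y : Option K} {k l : K} (hk : k ≠ 0)
    (hl : l ≠ 0) (h : k • pgb4V a x = l • pgb4V a y) : x = y := by
  cases x with
  | none =>
    cases y with
    | none => rfl
    | some t =>
      exfalso
      have h1 := congrFun (congrArg Prod.snd h) (ng a)
      change k * (Df K a).2 (ng a) = l * (xf a t (Df K (ng a))).2 (ng a) at h1
      rw [pgb4_coord H, pgb4_D_snd_ng, mul_zero, mul_one] at h1
      exact hl h1.symm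
  | some s =>
    cases y with
    | none =>
      exfalso
      have h1 := congrFun (congrArg Prod.snd h) (ng a)
      change k * (xf a s (Df K (ng a))).2 (ng a) = l * (Df K a).2 (ng a) at h1
      rw [pgb4_coord H, pgb4_D_snd_ng, mul_zero, mul_one] at h1
      exact hk h1
    | some t =>
      have h1 : xf a s (Df K (ng a)) = (k⁻¹ * l) • xf a t (Df K (ng a)) := by
        have h2 : k • xf a s (Df K (ng a)) = l • xf a t (Df K (ng a)) := h
        rw [mul_smul, ← h2, smul_smul, inv_mul_cancel₀ hk, one_smul]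
      rw [pgb4_line_inj H a h1]

/-- `g` maps the line `x` to the line `y` -/
private def Pgb4R (a : Rt C6) (g : LL C6 K ≃ₗ[K] LL C6 K) (x y : Option K) : Prop :=
  ∃ k : K, k ≠ 0 ∧ g (pgb4V a x) = k • pgb4V a y

private theorem pgb4R_uniq (H : HypW C6 K) (a : Rt C6) {g : LL C6 K ≃ₗ[K] LL C6 K}
    {x y z : Option K} (h1 : Pgb4R a g x y) (h2 : Pgb4R a g x z) : y = z := by
  obtain ⟨k, hk, e1⟩ := h1
  obtain ⟨l, hl, e2⟩ := h2
  exact pgb4V_inj H a hk hl (e1.symm.trans e2)

private theorem pgb4R_one (a : Rt C6) (x : Option K) :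
    Pgb4R a (1 : LL C6 K ≃ₗ[K] LL C6 K) x x := ⟨1, one_ne_zero, by rw [one_smul]; rfl⟩

private theorem pgb4R_mul (a : Rt C6) {g h : LL C6 K ≃ₗ[K] LL C6 K} {x y z : Option K}
    (h1 : Pgb4R a h x y) (h2 : Pgb4R a g y z) : Pgb4R a (g * h) x z := by
  obtain ⟨k, hk, e1⟩ := h1
  obtain ⟨l, hl, e2⟩ := h2
  refine ⟨k * l, mul_ne_zero hk hl, ?_⟩
  rw [LinearEquiv.mul_apply, e1, map_smul, e2, smul_smul]

private theorem pgb4R_ex (H : HypW C6 K) (a : Rt C6) {g : LL C6 K ≃ₗ[K] LL C6 K}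
    (hg : g ∈ GF K) (hm : ∀ x : LL C6 K, Pgb4M a x → Pgb4M a (g x)) (x : Option K) :
    ∃ y, Pgb4R a g x y := by
  cases x with
  | none =>
    rcases pgb4_ext H hg hm (b := a) (Or.inl rfl) with ⟨k, hk, h⟩ | ⟨k, t, hk, h⟩
    · exact ⟨none, k, hk, h⟩
    · exact ⟨some t, k, hk, h⟩
  | some s =>
    have hg2 : g * xf a s ∈ GF K := mul_mem hg (xf_mem_GF H a s)
    rcases pgb4_ext H hg2 (a := a) (fun x hx => hm _ (pgb4_xf_m H a s hx)) (b := ng a)
      (Or.inr rfl) with ⟨k, hk, h⟩ | ⟨k, t, hk, h⟩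
    · exact ⟨none, k, hk, h⟩
    · exact ⟨some t, k, hk, h⟩

/-- the action on the lines -/
@[reducible] private noncomputable def pgb4Act (H : HypW C6 K) (a : Rt C6)
    (P : Subgroup (LL C6 K ≃ₗ[K] LL C6 K))
    (hex : ∀ g ∈ P, ∀ x : Option K, ∃ y, Pgb4R a g x y) : MulAction P (Option K) where
  smul g x := Classical.choose (hex g.1 g.2 x)
  one_smul x := by
    have h := Classical.choose_spec (hex (1 : P).1 (1 : P).2 x)
    exact (pgb4R_uniq H a (pgb4R_one a x) h).symm
  mul_smul g h x := by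
    have h1 := Classical.choose_spec (hex (g * h).1 (g * h).2 x)
    have h2 := Classical.choose_spec (hex h.1 h.2 x)
    have h3 := Classical.choose_spec (hex g.1 g.2 (Classical.choose (hex h.1 h.2 x)))
    exact pgb4R_uniq H a h1 (pgb4R_mul a h2 h3)

private theorem pgb4_tor (H : HypW C6 K) (a : Rt C6) {t : LL C6 K ≃ₗ[K] LL C6 K}
    (ht : t ∈ T4 K) (s : K) : Pgb4R a t (some s) (some (wt t a * s)) := by
  refine ⟨wt t (ng a), wt_ne_zero H (T4_le_TT H ht) _, ?_⟩
  change t (xf a s (Df K (ng a))) = wt t (ng a) • xf a (wt t a * s) (Df K (ng a))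
  have h2 : xf a (wt t a * s) * t = t * xf a s := by
    rw [← T4_conj_xf H ht a s, inv_mul_cancel_right]
  calc t (xf a s (Df K (ng a))) = (t * xf a s) (Df K (ng a)) := rfl
    _ = xf a (wt t a * s) (t (Df K (ng a))) := by rw [← h2, LinearEquiv.mul_apply]
    _ = wt t (ng a) • xf a (wt t a * s) (Df K (ng a)) := by
      rw [(T4_Df H ht (ng a)).1, map_smul]

private theorem pgb4_fix (H : HypW C6 K) {p : ℕ} [Fact p.Prime] [CharP K p]
    (P : Subgroup (LL C6 K ≃ₗ[K] LL C6 K)) (hP : IsPGroup p P) (hPG : P ≤ GF K)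
    (hT : ∀ t ∈ T4 K, ∀ u ∈ P, t * u * t⁻¹ ∈ P) (a : Rt C6)
    (hm : ∀ u ∈ P, ∀ x : LL C6 K, Pgb4M a x → Pgb4M a (u x)) :
    (∀ u ∈ P, ∃ k : K, u (Df K a) = k • Df K a) ∨
      ∀ u ∈ P, ∃ k : K, u (Df K (ng a)) = k • Df K (ng a) := by
  have hex : ∀ g ∈ P, ∀ x : Option K, ∃ y, Pgb4R a g x y := fun g hg x =>
    pgb4R_ex H a (hPG hg) (hm g hg) x
  have hfin : Finite K := by
    apply Nat.finite_of_card_ne_zero
    rcases H.card with h | h | h <;> rw [h] <;> norm_num
  let _ : MulAction P (Option K) := pgb4Act H a P hex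
  have hspec : ∀ (g : P) (x : Option K), Pgb4R a g.1 x (g • x) := fun g x =>
    Classical.choose_spec (hex g.1 g.2 x)
  have hfixed : ∀ x : Option K, x ∈ MulAction.fixedPoints P (Option K) ↔
      ∀ u ∈ P, Pgb4R a u x x := by
    intro x
    rw [MulAction.mem_fixedPoints]
    constructor
    · intro h u hu
      have h1 := hspec ⟨u, hu⟩ x
      rw [h ⟨u, hu⟩] at h1
      exact h1
    · intro h g
      exact pgb4R_uniq H a (hspec g x) (h g.1 g.2)
  have hcard := hP.card_modEq_card_fixedPoints (Option K)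
  have hpq : p ∣ Nat.card K := by
    have := Fintype.ofFinite K
    obtain ⟨m, -, hm⟩ := FiniteField.card K p
    rw [Nat.card_eq_fintype_card, hm]
    exact dvd_pow_self p m.ne_zero
  have hcO : Nat.card (Option K) = Nat.card K + 1 := Finite.card_option
  rw [hcO] at hcard
  have h2 : ¬ p ∣ 2 := by
    intro h
    exact two_ne H (by exact_mod_cast (CharP.cast_eq_zero_iff K p 2).mpr h)
  have hp1 : ¬ p ∣ 1 := by
    intro h
    exact (Fact.out : p.Prime).one_lt.ne' (Nat.dvd_one.mp h)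
  by_cases hn : (none : Option K) ∈ MulAction.fixedPoints P (Option K)
  · left
    intro u hu
    obtain ⟨k, -, hk⟩ := (hfixed none).1 hn u hu
    exact ⟨k, hk⟩
  by_cases h0 : (some 0 : Option K) ∈ MulAction.fixedPoints P (Option K)
  · right
    intro u hu
    obtain ⟨k, -, hk⟩ := (hfixed (some 0)).1 h0 u hu
    refine ⟨k, ?_⟩
    have e1 : pgb4V a (some (0 : K)) = Df K (ng a) := by
      change xf a 0 (Df K (ng a)) = _
      rw [xf_zero H a]
      rfl
    rw [e1] at hk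
    exact hk
  exfalso
  by_cases hs : ∃ s : K, (some s : Option K) ∈ MulAction.fixedPoints P (Option K)
  · obtain ⟨s, hs⟩ := hs
    have hs0 : s ≠ 0 := by
      rintro rfl
      exact h0 hs
    have hall : ∀ r : K, r ≠ 0 → (some r : Option K) ∈ MulAction.fixedPoints P (Option K) := by
      intro r hr
      obtain ⟨t, ht, hwt⟩ := T4_surj H a (c := r / s) (div_ne_zero hr hs0)
      have h1 := pgb4_tor H a ht s
      have hrs : wt t a * s = r := by
        rw [hwt]
        field_simp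
      rw [hrs] at h1
      rw [hfixed]
      intro u hu
      have hu' : t⁻¹ * u * t ∈ P := by
        have := hT t⁻¹ (inv_mem ht) u hu
        rwa [inv_inv] at this
      obtain ⟨k, hk, hk2⟩ := (hfixed (some s)).1 hs _ hu'
      obtain ⟨l, hl, hl2⟩ := h1
      refine ⟨k, hk, ?_⟩
      have h3 : u (t (pgb4V a (some s))) = t ((t⁻¹ * u * t) (pgb4V a (some s))) := by
        rw [LinearEquiv.mul_apply, LinearEquiv.mul_apply]
        exact (t.apply_symm_apply _).symm
      rw [hk2, map_smul, hl2, map_smul, smul_smul, mul_comm k l, mul_smul] at h3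
      exact smul_right_injective _ hl h3
    have hset : MulAction.fixedPoints P (Option K) = Option.some '' ({0}ᶜ : Set K) := by
      ext x
      cases x with
      | none =>
        constructor
        · intro h
          exact absurd h hn
        · rintro ⟨y, -, hy⟩
          cases hy
      | some r =>
        constructor
        · intro h
          refine ⟨r, ?_, rfl⟩
          rintro hr
          have hr' : r = 0 := hr
          rw [hr'] at h
          exact h0 h
        · rintro ⟨y, hy, hyr⟩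
          rw [← hyr]
          exact hall y hy
    have hcf : Nat.card (MulAction.fixedPoints P (Option K)) = Nat.card K - 1 := by
      rw [hset, Nat.card_coe_set_eq, Set.ncard_image_of_injective _ (Option.some_injective K),
        Set.ncard_compl, Set.ncard_singleton]
    rw [hcf] at hcard
    have hpos : 1 ≤ Nat.card K := Nat.card_pos
    have h3 : p ∣ (Nat.card K + 1) - (Nat.card K - 1) := (Nat.modEq_iff_dvd' (by omega)).1 hcard.symm
    have h4 : (Nat.card K + 1) - (Nat.card K - 1) = 2 := by omega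
    rw [h4] at h3
    exact h2 h3
  · have hset : MulAction.fixedPoints P (Option K) = ∅ := by
      rw [Set.eq_empty_iff_forall_notMem]
      intro x hx
      cases x with
      | none => exact hn hx
      | some r => exact hs ⟨r, hx⟩
    have hcf : Nat.card (MulAction.fixedPoints P (Option K)) = 0 := by
      rw [hset, Nat.card_coe_set_eq, Set.ncard_empty]
    rw [hcf] at hcard
    have h3 : p ∣ Nat.card K + 1 := (Nat.modEq_zero_iff_dvd).1 hcard
    exact hp1 ((Nat.dvd_add_right hpq).1 h3)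

/-! ### the stabiliser of the two lines -/

/-- an element of `GF` which preserves `m` and the lines `K Df a`, `K Df (ng a)` is in `NN` -/
private theorem pgb4_mem_NN (H : HypW C6 K) {a : Rt C6} {g : LL C6 K ≃ₗ[K] LL C6 K}
    (hg : g ∈ GF K) (hm : ∀ x : LL C6 K, Pgb4M a x → Pgb4M a (g x)) {k l : K}
    (h1 : g (Df K a) = k • Df K a) (h2 : g (Df K (ng a)) = l • Df K (ng a)) :
    g ∈ NN C6 K := by
  have ht := two_ne H
  have hk : k ≠ 0 := by
    rintro rfl
    rw [zero_smul] at h1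
    exact pgb4_inj (Df_ne_zero a) h1
  have hgh : g (hh C6 (zk (cv a))) = (k * l) • hh C6 (zk (cv a)) := by
    have h3 := hg.1.1 (Df K (ng a)) (Df K a)
    rw [h1, h2, map_smul, map_smul, LinearMap.smul_apply, pgb4_D_ng' H, smul_smul] at h3
    exact h3
  have hkl : k * l = 1 := by
    have h3 := hg.1.1 (hh C6 (zk (cv a))) (Df K a)
    rw [pgb4_h_D, dg_self, map_smul, h1, hgh, map_smul, map_smul, LinearMap.smul_apply, pgb4_h_D,
      dg_self, smul_smul, smul_smul, smul_smul] at h3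
    have h4 := congrArg (fun u : LL C6 K => u.2 a) h3
    simp only [Prod.smul_snd, Pi.smul_apply] at h4
    rw [pgb4_D_snd_self, smul_eq_mul, smul_eq_mul, mul_one, mul_one] at h4
    push_cast at h4
    have h5 : (2 * k) * (k * l - 1) = 0 := by
      linear_combination -h4
    rcases mul_eq_zero.1 h5 with h6 | h6
    · exact absurd h6 (mul_ne_zero ht hk)
    · exact sub_eq_zero.1 h6
  rw [hkl, one_smul] at hgh
  have key : ∀ x ∈ L0 C6 K, g x ∈ L0 C6 K := by
    intro x hx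
    have hx2 : x.2 = 0 := hx
    have hxm : Pgb4M a x := by
      intro d _ _
      rw [hx2]
      rfl
    have h3 : br (hh C6 (zk (cv a))) (g x) = 0 := by
      have h4 := hg.1.1 (hh C6 (zk (cv a))) x
      rw [hgh, eq_hh_of_mem hx, br_hh_hh, map_zero] at h4
      rw [eq_hh_of_mem hx]
      exact h4.symm
    rw [mem_L0]
    funext d
    show (g x).2 d = 0
    have h5 := congrArg (fun u : LL C6 K => u.2 d) h3
    simp only [br_hh_snd, pgb4_fk] at h5
    change ((dg a d : ℤ) : K) * (g x).2 d = 0 at h5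
    by_cases h6 : Eq4 a d
    · rw [pgb4_dg1 h6] at h5
      push_cast at h5
      exact (mul_eq_zero.1 h5).resolve_left ht
    · by_cases h7 : Eq4 (ng a) d
      · rw [pgb4_dg2 h7] at h5
        push_cast at h5
        exact (mul_eq_zero.1 h5).resolve_left (neg_ne_zero.2 ht)
      · exact hm x hxm d h6 h7
  have hle : (L0 C6 K).map (g : LL C6 K →ₗ[K] LL C6 K) ≤ L0 C6 K := by
    rintro _ ⟨x, hx, rfl⟩
    exact key x hx
  have heq : (L0 C6 K).map (g : LL C6 K →ₗ[K] LL C6 K) = L0 C6 K :=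
    Submodule.eq_of_le_of_finrank_eq hle (LinearEquiv.finrank_map_eq g _)
  refine ⟨hg.1, fun x => ⟨fun hx => ?_, key x⟩⟩
  rw [← heq] at hx
  obtain ⟨y, hy, hyx⟩ := hx
  rwa [← g.injective hyx]

/-- the root group -/
private noncomputable def pgb4X (H : HypW C6 K) (a : Rt C6) :
    Subgroup (LL C6 K ≃ₗ[K] LL C6 K) where
  carrier := {g | ∃ s : K, g = xf a s}
  one_mem' := ⟨0, (xf_zero H a).symm⟩
  mul_mem' := by
    rintro x y ⟨s, rfl⟩ ⟨t, rfl⟩
    exact ⟨s + t, (xf_add H a s t).symm⟩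
  inv_mem' := by
    rintro x ⟨s, rfl⟩
    exact ⟨-s, (xf_neg H a s).symm⟩

private theorem pgb4_core (H : HypW C6 K) {p : ℕ} [Fact p.Prime] [CharP K p]
    (P : Subgroup (LL C6 K ≃ₗ[K] LL C6 K)) (hP : IsPGroup p P) (hPG : P ≤ GF K)
    (hT : ∀ t ∈ T4 K, ∀ u ∈ P, t * u * t⁻¹ ∈ P) (a : Rt C6)
    (hm : ∀ u ∈ P, ∀ x : LL C6 K, Pgb4M a x → Pgb4M a (u x))
    (hfix : ∀ u ∈ P, ∃ k : K, u (Df K a) = k • Df K a) :
    P ≤ Subgroup.closure {g | ∃ b ∈ SF4 P, ∃ s : K, g = xf b s} := by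
  have hXp : IsPGroup p (pgb4X H a) := by
    rintro ⟨g, s, rfl⟩
    refine ⟨1, ?_⟩
    apply Subtype.ext
    change xf a s ^ p ^ 1 = 1
    rw [pow_one, xf_pow H, CharP.cast_eq_zero, zero_mul, xf_zero H]
  have hnorm : P ≤ Subgroup.normalizer (pgb4X H a : Set (LL C6 K ≃ₗ[K] LL C6 K)) := by
    intro u hu
    rw [Subgroup.mem_normalizer_iff]
    obtain ⟨k, hk⟩ := hfix u hu
    have hk0 : k ≠ 0 := by
      rintro rfl
      rw [zero_smul] at hk
      exact pgb4_inj (Df_ne_zero a) hk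
    intro g
    constructor
    · rintro ⟨s, rfl⟩
      exact ⟨k * s, conj_xf (hPG hu).1 hk s⟩
    · rintro ⟨s, hs⟩
      refine ⟨k⁻¹ * s, ?_⟩
      have h1 := conj_xf (hPG hu).1 hk (k⁻¹ * s)
      rw [mul_inv_cancel_left₀ hk0, ← hs] at h1
      exact (mul_left_cancel (mul_right_cancel h1)).symm
  have hQ : IsPGroup p (P ⊔ pgb4X H a : Subgroup (LL C6 K ≃ₗ[K] LL C6 K)) :=
    hP.to_sup_of_normal_right' hXp hnorm
  have hXG : pgb4X H a ≤ GF K := by
    rintro u ⟨s, rfl⟩
    exact xf_mem_GF H a s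
  have hQG : P ⊔ pgb4X H a ≤ GF K := sup_le hPG hXG
  have hQT : ∀ t ∈ T4 K, ∀ u ∈ P ⊔ pgb4X H a, t * u * t⁻¹ ∈ P ⊔ pgb4X H a := by
    intro t ht
    have h1 : P ⊔ pgb4X H a ≤ (P ⊔ pgb4X H a).comap (MulAut.conj t).toMonoidHom := by
      refine sup_le ?_ ?_
      · intro u hu
        exact Subgroup.mem_sup_left (hT t ht u hu)
      · rintro u ⟨s, rfl⟩
        refine Subgroup.mem_sup_right ⟨wt t a * s, ?_⟩
        exact T4_conj_xf H ht a s
    intro u hu
    exact h1 hu
  have hQ0 : (P ⊔ pgb4X H a) ⊓ NN C6 K = ⊥ := by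
    apply pg_zero4 H (p := p) _ (hQ.to_le inf_le_left) (le_trans inf_le_left hQG) inf_le_right
    intro t ht u hu
    obtain ⟨hu1, hu2⟩ := Subgroup.mem_inf.1 hu
    have htN : t ∈ NN C6 K := T4_le_NN H ht
    exact Subgroup.mem_inf.2 ⟨hQT t ht u hu1, mul_mem (mul_mem htN hu2) (inv_mem htN)⟩
  have hgx : ∀ g ∈ P, ∃ t : K, g = xf a t := by
    intro g hg
    obtain ⟨k, hk⟩ := hfix g hg
    rcases pgb4_ext H (hPG hg) (hm g hg) (b := ng a) (Or.inr rfl) with
      ⟨k', hk', h⟩ | ⟨l, t, hl, h⟩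
    · exfalso
      have h1 : g (k • Df K (ng a)) = g (k' • Df K a) := by
        rw [map_smul, map_smul, h, hk, smul_comm]
      have h2 := congrFun (congrArg Prod.snd (g.injective h1)) a
      change k * (Df K (ng a)).2 a = k' * (Df K a).2 a at h2
      rw [pgb4_Dng_snd, pgb4_D_snd_self, mul_zero, mul_one] at h2
      exact hk' h2.symm
    · have f1 : (xf a (-t) * g) (Df K a) = k • Df K a := by
        rw [LinearEquiv.mul_apply, hk, map_smul, pgb4_xf_self H]
      have f2 : (xf a (-t) * g) (Df K (ng a)) = l • Df K (ng a) := by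
        rw [LinearEquiv.mul_apply, h, map_smul, xf_neg H]
        congr 1
        exact (xf a t).symm_apply_apply _
      have hG : xf a (-t) * g ∈ GF K := mul_mem (xf_mem_GF H a _) (hPG hg)
      have hN : xf a (-t) * g ∈ NN C6 K :=
        pgb4_mem_NN H hG (fun x hx => pgb4_xf_m H a (-t) (hm g hg x hx)) f1 f2
      have hmem : xf a (-t) * g ∈ (P ⊔ pgb4X H a) ⊓ NN C6 K :=
        Subgroup.mem_inf.2 ⟨mul_mem (Subgroup.mem_sup_right ⟨-t, rfl⟩) (Subgroup.mem_sup_left hg),
          hN⟩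
      rw [hQ0, Subgroup.mem_bot] at hmem
      refine ⟨t, ?_⟩
      rw [xf_neg H] at hmem
      exact (inv_mul_eq_one.1 hmem).symm
  intro g hg
  obtain ⟨t, rfl⟩ := hgx g hg
  by_cases ht : t = 0
  · rw [ht, xf_zero H]
    exact one_mem _
  · exact Subgroup.subset_closure ⟨a, xf_all H hT ht hg, t, rfl⟩

theorem pg_sl2_4 (H : HypW C6 K) {p : ℕ} [Fact p.Prime] [CharP K p]
    (P : Subgroup (LL C6 K ≃ₗ[K] LL C6 K)) (hP : IsPGroup p P) (hPG : P ≤ GF K)
    (hT : ∀ t ∈ T4 K, ∀ u ∈ P, t * u * t⁻¹ ∈ P) (a : Rt C6)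
    (hm : ∀ u ∈ P, ∀ x : LL C6 K, (∀ d, ¬ Eq4 a d → ¬ Eq4 (ng a) d → x.2 d = 0) →
      ∀ d, ¬ Eq4 a d → ¬ Eq4 (ng a) d → (u x).2 d = 0) :
    P ≤ Subgroup.closure {g | ∃ b ∈ SF4 P, ∃ s : K, g = xf b s} := by
  rcases pgb4_fix H P hP hPG hT a hm with h | h
  · exact pgb4_core H P hP hPG hT a hm h
  · refine pgb4_core H P hP hPG hT (ng a) ?_ h
    intro u hu x hx d hd hd'
    rw [ng_ng] at hd'
    refine hm u hu x ?_ d hd' hd
    intro d h1 h2
    exact hx d h2 (by rw [ng_ng]; exact h1)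

end Pool.Agent.H31.F4
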