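import Pool.Agent.H31.F4.PsA
import Pool.Agent.H31.F4.Opp4

/-!
# FF-36: the basic lemma for good short roots

`xd4'`: `g (wf c) = κ r (wf (ng b))`, `r ∈ Gn {0 < dg b y}`, `κ = (g (wf c)).2 (ng b) ≠ 0`.  `g1 = r⁻¹ g`:
`g1 (wf c) = κ wf (ng b)`; by `Fil_w` `g1` maps `Fil (cv c) i` onto `Fil (cv (ng b)) i`, so
`n = g1 (Df c) ∈ Fil (cv (ng b)) 2 = Grd (cv b) (-2)`, `n ∈ LF`.  `ps_rel` gives `n0`; by `ad2_V` (transported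
by `g1`) `ad(n)² x = -(w', x) w'`, `w' = κ wf (ng b)`, `x ∈ VF`; for `x = wf b`:
`fm (wf (ng b)) (wf b) = -2` (`fm_w`), so `ad(n)² (wf b) = 2 κ² wf (ng b)` and `n0 = κ² ≠ 0`.
For `s ≠ 0`, `s' = -(2 α) - s ≠ 0` (`α = n.2 (ng b)`), `t = -(s s')⁻¹`:
`y = (g1 xf c s g1⁻¹) (xf b t) (g1 xf c s' g1⁻¹)`; by `conj_e3`, `xf_e3`, `ps_id`:
`y (Df b) = n0² e3 u_s (Df (ng b)) = n0² ρ_s (Df (ng b))`, `u_s = n0⁻¹ (Df b + (1/(2s)) [D,[D,n]])` of degree 2 in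
`LF`, `ρ_s ∈ Gn {dg b y = 2}` from `exp2`.  So `ρ_s xf (ng b) (n0² τ) ρ_s⁻¹ = y xf b τ y⁻¹` (`conj_ex4`).
`r y r⁻¹ = (g xf c s g⁻¹)(xf b t)(g xf c s' g⁻¹) ∈ F` (`Gn_comm`).  So
`(r ρ_s) xf (ng b) τ (r ρ_s)⁻¹ = (r y r⁻¹)(r xf b (τ/n0²) r⁻¹)(r y r⁻¹)⁻¹ ∈ F` and by `opp4` `r ρ_s ∈ Fo4 F ≤ F`.
Take two values `s1 ≠ s2` (at least 6 units, one excluded): `ρ_(s1)⁻¹ ρ_(s2) ∈ F ⊓ Q2 b` (`Gn_Q2`), `= xf b τ` (`FQ2`).
It acts as `e3 (u_(s2) - u_(s1))` (`e3_add`, `exp2`), so `u_(s2) - u_(s1) = τ Df b` (`exp2_inj`), a non zero multiple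
of `[D,[D,n]]`; `ps_end`: `n = α Df (ng b)`, `α ≠ 0` (`n ≠ 0`).  Then `r xf (ng b) s r⁻¹ = g xf c (s/α) g⁻¹ ∈ F`
and `opp4` for `r`.
-/

namespace Pool.Agent.H31.F4

open Pool.Agent.H33.EL (ip cc eps Rt ng zk ek fk LL hh e brf fmf br fm IsExt exl ex xr hd L0 GG T1 TT NN SF cj wt)

variable {K : Type} [Field K]

private theorem Ps4_ng_ng (a : Rt C6) : ng (ng a) = a := by
  apply Subtype.ext
  show -(-a.1) = a.1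
  exact neg_neg _

private theorem Ps4_ad (H : HypW C6 K) {c b : Rt C6} (hcs : sg c ≠ c) (hbs : sg b ≠ b)
    {g : LL C6 K ≃ₗ[K] LL C6 K} (hg : g ∈ GF K) {κ : K} (hκ : g (wf K c) = κ • wf K (ng b)) :
    br (g (Df K c)) (br (g (Df K c)) (wf K b)) = (2 * κ ^ 2) • wf K (ng b) := by
  have hgG : g ∈ GG C6 K := GF_le_GG hg
  have hnb : sg (ng b) ≠ ng b := fun h => hbs ((sg_ng_iff b).1 h)
  obtain ⟨x, hx⟩ : ∃ x, g x = wf K b := ⟨g.symm (wf K b), g.apply_symm_apply _⟩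
  have hxV : x ∈ VF K := (GF_VF hg x).1 (by rw [hx]; exact wf_mem b)
  have h1 := ad2_V H c hcs hxV
  have h2 : br (g (Df K c)) (br (g (Df K c)) (wf K b)) = g (br (Df K c) (br (Df K c) x)) := by
    rw [← hx, hgG.1, hgG.1]
  have h3 : fm (wf K c) x = κ * (-2) := by
    rw [← hgG.2, hκ, hx, map_smul, LinearMap.smul_apply, smul_eq_mul,
      fm_w H (wf_mem b) (ng b) hnb, Ps4_ng_ng, (wf_snd_self hbs).1, mul_one]
  rw [h2, h1, map_smul, hκ, h3, smul_smul]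
  congr 1
  ring

private theorem Ps4_grd (H : HypW C6 K) {b : Rt C6} {x : LL C6 K}
    (hx : x ∈ Fil C6 K (cv (ng b)) 2) : x ∈ Grd C6 K (cv b) (-2) := by
  have h1 := Fi4_top2 (Fi4_JM H (ng b)) hx
  refine ⟨fun f hf => h1.1 f fun h2 => hf ?_, fun _ => h1.2 (by norm_num)⟩
  have h3 : ip C6 (cv (ng b)) f.1 = -ip C6 (cv b) f.1 := by
    rw [cv_ng]
    unfold ip
    simp [Finset.sum_neg_distrib]
  rw [h3] at h2
  linarith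

private theorem Ps4_two (H : HypW C6 K) (m : K) : ∃ s1 s2 : K, s1 ≠ s2 ∧ s1 ≠ 0 ∧ m - s1 ≠ 0 ∧
    s2 ≠ 0 ∧ m - s2 ≠ 0 := by
  classical
  have h7 : 7 ≤ Nat.card K := by rcases H.card with h | h | h <;> omega
  have hfin : Finite K := Nat.finite_of_card_ne_zero (by omega)
  have := Fintype.ofFinite K
  have h1 : 1 < ((Finset.univ : Finset K) \ {0, m}).card := by
    have h2 := Finset.le_card_sdiff ({0, m} : Finset K) Finset.univ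
    have h3 : ({0, m} : Finset K).card ≤ 2 := Finset.card_le_two
    rw [Finset.card_univ, ← Nat.card_eq_fintype_card] at h2
    omega
  obtain ⟨s1, hs1, s2, hs2, h12⟩ := Finset.one_lt_card.1 h1
  simp only [Finset.mem_sdiff, Finset.mem_univ, true_and, Finset.mem_insert,
    Finset.mem_singleton, not_or] at hs1 hs2
  exact ⟨s1, s2, h12, hs1.1, sub_ne_zero.2 (Ne.symm hs1.2), hs2.1, sub_ne_zero.2 (Ne.symm hs2.2)⟩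

private theorem Ps4_u (b : Rt C6) {n : LL C6 K} (hn : n ∈ LF K)
    (hn2 : n ∈ Grd C6 K (cv b) (-2)) (n0 s : K) :
    n0⁻¹ • (Df K b + (2⁻¹ * s⁻¹) • br (Df K b) (br (Df K b) n)) ∈ LF K ∧
    n0⁻¹ • (Df K b + (2⁻¹ * s⁻¹) • br (Df K b) (br (Df K b) n)) ∈ Grd C6 K (cv b) 2 := by
  have h1 := Fi4_Df_grd (K := K) b
  have h2 : br (Df K b) (br (Df K b) n) ∈ Grd C6 K (cv b) 2 := by
    have := FilA_br_grd h1 (FilA_br_grd h1 hn2)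
    simpa using this
  exact ⟨Submodule.smul_mem _ _ (add_mem (Df_mem b) (Submodule.smul_mem _ _
    (br_LF_LF (Df_mem b) (br_LF_LF (Df_mem b) hn)))),
    Submodule.smul_mem _ _ (add_mem h1 (Submodule.smul_mem _ _ h2))⟩

private theorem Ps4_step (H : HypW C6 K) {F : Subgroup (LL C6 K ≃ₗ[K] LL C6 K)}
    {b c : Rt C6} (hbs : sg b ≠ b) (hb : b ∈ SF4 F) {r g1 : LL C6 K ≃ₗ[K] LL C6 K}
    (hr : r ∈ Gn K {y | 0 < dg b y}) (hg1 : g1 ∈ GF K)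
    (hgF : ∀ s : K, (r * g1) * xf c s * (r * g1)⁻¹ ∈ F) {n0 : K} (hn0 : n0 ≠ 0)
    (hnL : g1 (Df K c) ∈ LF K) (hn2 : g1 (Df K c) ∈ Grd C6 K (cv b) (-2))
    (hrel : br (g1 (Df K c)) (br (g1 (Df K c)) (Df K b)) =
      (4 * (g1 (Df K c)).2 (ng b)) • g1 (Df K c) - (2 * n0) • Df K (ng b))
    {s : K} (hs : s ≠ 0) (hs' : -(2 * (g1 (Df K c)).2 (ng b)) - s ≠ 0) :
    ∃ ρ ∈ Gn K {y | dg b y = 2}, (∀ x, ρ x =
      e3 (n0⁻¹ • (Df K b + (2⁻¹ * s⁻¹) • br (Df K b) (br (Df K b) (g1 (Df K c))))) x) ∧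
      ∀ τ : K, (r * ρ) * xf (ng b) τ * (r * ρ)⁻¹ ∈ F := by
  obtain ⟨hu, hu2⟩ := Ps4_u b hnL hn2 n0 s
  obtain ⟨ρ, hρ, hρ2⟩ := exp2 H b hu hu2
  refine ⟨ρ, hρ, hρ2, fun τ => ?_⟩
  obtain ⟨s', hs'e⟩ : ∃ s', s' = -(2 * (g1 (Df K c)).2 (ng b)) - s := ⟨_, rfl⟩
  rw [← hs'e] at hs'
  obtain ⟨t, ht⟩ : ∃ t, t = -(s * s')⁻¹ := ⟨_, rfl⟩
  have ht' : t * (s * s') = -1 := by
    rw [ht, neg_mul, inv_mul_cancel₀ (mul_ne_zero hs hs')]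
  have hid := ps_id H hbs hnL hn2 hn0 hrel hs hs' (by rw [hs'e]; ring) ht'
  obtain ⟨y, hy⟩ : ∃ y, y = (g1 * xf c s * g1⁻¹) * xf b t * (g1 * xf c s' * g1⁻¹) := ⟨_, rfl⟩
  have hyD : y (Df K b) = (n0 ^ 2) • ρ (Df K (ng b)) := by
    rw [hρ2, ← hid, hy, LinearEquiv.mul_apply, LinearEquiv.mul_apply, conj_e3 H hg1,
      conj_e3 H hg1, xf_e3 H]
  have hyG : y ∈ GG C6 K := by
    apply GF_le_GG
    rw [hy]
    exact mul_mem (mul_mem (mul_mem (mul_mem hg1 (xf_mem_GF H _ _)) (inv_mem hg1))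
      (xf_mem_GF H _ _)) (mul_mem (mul_mem hg1 (xf_mem_GF H _ _)) (inv_mem hg1))
  have hρG : ρ ∈ GG C6 K := GF_le_GG (Gn_le_GF H _ hρ)
  have hcomm : ∀ σ : K, r * xf b σ * r⁻¹ = xf b σ := by
    intro σ
    rw [Gn_comm H b hr σ]
    group
  have hyF : r * y * r⁻¹ ∈ F := by
    have e1 : r * y * r⁻¹ = ((r * g1) * xf c s * (r * g1)⁻¹) * (r * xf b t * r⁻¹) *
        ((r * g1) * xf c s' * (r * g1)⁻¹) := by
      rw [hy]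
      group
    rw [e1, hcomm]
    exact mul_mem (mul_mem (hgF s) (hb t)) (hgF s')
  have hn0' : n0 ^ 2 ≠ 0 := pow_ne_zero _ hn0
  have hconj : ρ * xf (ng b) τ * ρ⁻¹ = y * xf b (τ * (n0 ^ 2)⁻¹) * y⁻¹ := by
    unfold xf
    rw [conj_ex4 hρG, conj_ex4 hyG, map_smul, map_smul, hyD, smul_smul,
      inv_mul_cancel_right₀ hn0']
  have e2 : (r * ρ) * xf (ng b) τ * (r * ρ)⁻¹ = (r * y * r⁻¹) *
      (r * xf b (τ * (n0 ^ 2)⁻¹) * r⁻¹) * (r * y * r⁻¹)⁻¹ := by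
    have e3 : (r * ρ) * xf (ng b) τ * (r * ρ)⁻¹ = r * (ρ * xf (ng b) τ * ρ⁻¹) * r⁻¹ := by group
    rw [e3, hconj]
    group
  rw [e2, hcomm]
  exact mul_mem (mul_mem hyF (hb _)) (inv_mem hyF)

private theorem Ps4_zero (x : LL C6 K) : e3 (0 : LL C6 K) x = x := by
  show x + br 0 x + (2⁻¹ : K) • br 0 (br 0 x) = x
  simp

/-- the basic lemma for good short roots -/
theorem Ps (H : HypW C6 K) {p : ℕ} [Fact p.Prime] [CharP K p]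
    {F : Subgroup (LL C6 K ≃ₗ[K] LL C6 K)} (hF : F ≤ GF K) (hT : T4 K ≤ F) {b c : Rt C6}
    (hb : b ∈ SsF F) (hcs : sg c ≠ c) {g : LL C6 K ≃ₗ[K] LL C6 K} (hg : g ∈ GF K)
    (hgF : ∀ s : K, g * xf c s * g⁻¹ ∈ F) (hne : (g (wf K c)).2 (ng b) ≠ 0) :
    ng b ∈ SF4 F ∧ ∃ r ∈ Fo4 F, r ∈ Gn K {y | 0 < dg b y} ∧ (∃ κ : K, κ ≠ 0 ∧
      g (wf K c) = κ • r (wf K (ng b))) ∧ ∃ κ : K, κ ≠ 0 ∧
      g (Df K c) = κ • r (Df K (ng b)) := by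
  have hbs : sg b ≠ b := hb.2.1
  have hnb : sg (ng b) ≠ ng b := fun h => hbs ((sg_ng_iff b).1 h)
  have hx := xd4' H hg (c := c) (a := b) ⟨fun h => absurd h hcs, fun h => absurd h hbs⟩
    (by rw [pv_short hcs]; exact hne)
  rw [pv_short hcs, pv_short hnb] at hx
  obtain ⟨r, hr, hgr⟩ := hx
  obtain ⟨κ, hκ⟩ : ∃ κ, κ = (g (wf K c)).2 (ng b) := ⟨_, rfl⟩
  rw [← hκ] at hgr hne
  have hrG : r ∈ GF K := Gn_le_GF H _ hr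
  obtain ⟨g1, hg1⟩ : ∃ g1, g1 = r⁻¹ * g := ⟨_, rfl⟩
  have hg1G : g1 ∈ GF K := by
    rw [hg1]
    exact mul_mem (inv_mem hrG) hg
  have hrg : r * g1 = g := by
    rw [hg1]
    group
  have hg1w : g1 (wf K c) = κ • wf K (ng b) := by
    rw [hg1, LinearEquiv.mul_apply, hgr, map_smul]
    congr 1
    exact r.symm_apply_apply _
  have hn2 : g1 (Df K c) ∈ Grd C6 K (cv b) (-2) :=
    Ps4_grd H ((Fil_w H (GF_le_GG hg1G) hcs hnb hne hg1w 2 _).2 (Fil_of_Grd (Fi4_Df_grd c)))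
  have hnL : g1 (Df K c) ∈ LF K := (GF_LF hg1G _).2 (Df_mem c)
  obtain ⟨n0, hr1, hr2⟩ := ps_rel H hbs hnL hn2
  have hr3 := Ps4_ad H hcs hbs hg1G hg1w
  have h2K : (2 : K) ≠ 0 := two_ne H
  have hn0 : n0 ≠ 0 := by
    rw [hr2] at hr3
    have h5 := congrArg (fun x : LL C6 K => x.2 (ng b)) hr3
    have h6 : (2 * n0) * (wf K (ng b)).2 (ng b) = (2 * κ ^ 2) * (wf K (ng b)).2 (ng b) := h5
    rw [(wf_snd_self hnb).1, mul_one, mul_one] at h6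
    have h7 : n0 = κ ^ 2 := mul_left_cancel₀ h2K h6
    rw [h7]
    exact pow_ne_zero _ hne
  have hgF' : ∀ s : K, (r * g1) * xf c s * (r * g1)⁻¹ ∈ F := by
    rw [hrg]
    exact hgF
  obtain ⟨s1, s2, h12, h1, h1', h2, h2'⟩ := Ps4_two H (-(2 * (g1 (Df K c)).2 (ng b)))
  obtain ⟨ρ1, hρ1, e1, m1⟩ := Ps4_step H hbs hb.1 hr hg1G hgF' hn0 hnL hn2 hr1 h1 h1'
  obtain ⟨ρ2, hρ2, e2, m2⟩ := Ps4_step H hbs hb.1 hr hg1G hgF' hn0 hnL hn2 hr1 h2 h2'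
  have hpos : Gn K {y | dg b y = 2} ≤ Gn K {y | 0 < dg b y} := by
    refine Subgroup.closure_mono ?_
    rintro u ⟨y, hy, s, rfl⟩
    refine ⟨y, ?_, s, rfl⟩
    have hy' : dg b y = 2 := hy
    show 0 < dg b y
    omega
  obtain ⟨f1, -⟩ := opp4 H (p := p) hF hT hb.1 (r := r * ρ1) (mul_mem hr (hpos hρ1)) m1
  obtain ⟨f2, -⟩ := opp4 H (p := p) hF hT hb.1 (r := r * ρ2) (mul_mem hr (hpos hρ2)) m2
  have hFo : Fo4 F ≤ F := Fo4_le hT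
  have hu : ρ1⁻¹ * ρ2 ∈ F := by
    have h3 := mul_mem (inv_mem (hFo f1)) (hFo f2)
    have h4 : (r * ρ1)⁻¹ * (r * ρ2) = ρ1⁻¹ * ρ2 := by group
    rwa [h4] at h3
  have hu2 : ρ1⁻¹ * ρ2 ∈ Q2 K b := Gn_Q2 H b (mul_mem (inv_mem hρ1) hρ2)
  obtain ⟨τ, hτ⟩ := FQ2 H (p := p) hF hT hb hu hu2
  obtain ⟨n, hn⟩ : ∃ n, n = g1 (Df K c) := ⟨_, rfl⟩
  rw [← hn] at hn2 hnL e1 e2
  obtain ⟨l1, g1'⟩ := Ps4_u b hnL hn2 n0 s1
  obtain ⟨l2, g2'⟩ := Ps4_u b hnL hn2 n0 s2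
  obtain ⟨u1, hu1⟩ : ∃ u1, u1 = n0⁻¹ • (Df K b + (2⁻¹ * s1⁻¹) • br (Df K b) (br (Df K b) n)) :=
    ⟨_, rfl⟩
  obtain ⟨u2, hu2e⟩ : ∃ u2, u2 = n0⁻¹ • (Df K b + (2⁻¹ * s2⁻¹) • br (Df K b) (br (Df K b) n)) :=
    ⟨_, rfl⟩
  rw [← hu1] at e1 l1 g1'
  rw [← hu2e] at e2 l2 g2'
  have he : ∀ x, e3 u1 (xf b τ x) = e3 u2 x := by
    intro x
    rw [← e1, ← hτ, LinearEquiv.mul_apply, ← e2]
    exact ρ1.apply_symm_apply _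
  have he' : ∀ x, xf b τ x = e3 (u2 - u1) x := by
    intro x
    rw [sub_eq_neg_add, e3_add H b (neg_mem g1') g2', ← he, ← e3_add H b (neg_mem g1') g1',
      neg_add_cancel, Ps4_zero]
  have hE := exp2_inj H b (sub_mem l2 l1) (sub_mem g2' g1') he'
  have hE2 : u2 - u1 = (n0⁻¹ * (2⁻¹ * (s2⁻¹ - s1⁻¹))) • br (Df K b) (br (Df K b) n) := by
    rw [hu1, hu2e]
    module
  have hk : n0⁻¹ * (2⁻¹ * (s2⁻¹ - s1⁻¹)) ≠ 0 := by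
    refine mul_ne_zero (inv_ne_zero hn0) (mul_ne_zero (inv_ne_zero h2K) (sub_ne_zero.2 ?_))
    intro h
    exact h12 (inv_injective h).symm
  have hE3 : br (Df K b) (br (Df K b) n) = ((n0⁻¹ * (2⁻¹ * (s2⁻¹ - s1⁻¹)))⁻¹ * τ) • Df K b := by
    rw [mul_smul, ← hE, hE2, smul_smul, inv_mul_cancel₀ hk, one_smul]
  have hend := ps_end H hbs hnL hn2 hE3
  have hα : n.2 (ng b) ≠ 0 := by
    intro h0
    rw [h0, zero_smul, hn] at hend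
    exact Df_ne_zero c ((LinearEquiv.map_eq_zero_iff g1).1 hend)
  obtain ⟨α, hαe⟩ : ∃ α, α = n.2 (ng b) := ⟨_, rfl⟩
  rw [← hαe] at hend hα
  have hgD : g (Df K c) = α • r (Df K (ng b)) := by
    rw [← hrg, LinearEquiv.mul_apply, ← hn, hend, map_smul]
  have hconj : ∀ s : K, r * xf (ng b) s * r⁻¹ ∈ F := by
    intro s
    have h3 : r * xf (ng b) s * r⁻¹ = g * xf c (s * α⁻¹) * g⁻¹ := by
      unfold xf
      rw [conj_ex4 (GF_le_GG hrG), conj_ex4 (GF_le_GG hg), map_smul, map_smul, hgD, smul_smul,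
        inv_mul_cancel_right₀ hα]
    rw [h3]
    exact hgF _
  obtain ⟨h3, h4⟩ := opp4 H (p := p) hF hT hb.1 hr hconj
  exact ⟨h4, r, h3, hr, ⟨κ, hne, hgr⟩, ⟨α, hα, hgD⟩⟩

end Pool.Agent.H31.F4
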