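import Pool.Agent.H31.F4.Defs

/-!
# FF-34: an identity in a quotient of `sl_2(K[κ])`

Abstract linear algebra: `A = ad D`, `B = ad n`, `U = ad E` on the span of `D, n, G, h, X, E`.
All terms are explicit: rewrite both sides with the 17 relations (`map_add`, `map_smul`, `map_neg`), then
compare the coefficients of `D, n, G, h, X, E` (`module`, or `match_scalars` and `field_simp`, `ring`), with
`c = s + s'`, `t = -(s s')⁻¹`.  (Verified numerically; in `sl_2(R)`, `R = K[κ]/(κ² - c κ + n0)`,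
`D = E_0`, `E = κ E_0`, `n = κ F_0`, `G = -…`: the product
`lower(s κ) upper(t) lower(s' κ)` is the matrix `(1 - κ/s, t; n0, 1 - κ/s')`.)
-/

namespace Pool.Agent.H31.F4

open Pool.Agent.H33.EL (ip cc eps Rt ng zk ek fk LL hh e brf fmf br fm IsExt exl ex xr hd L0 GG T1 TT NN SF cj wt)

variable {K : Type} [Field K]

theorem sl2R {L : Type*} [AddCommGroup L] [Module K L] (A B U : L →ₗ[K] L) (D n G h X E : L)
    (c n0 : K) (h2 : (2 : K) ≠ 0) (hn0 : n0 ≠ 0)
    (A1 : A D = 0) (A2 : A n = X) (A3 : A G = -h) (A4 : A h = -(2 : K) • D)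
    (A5 : A X = -(2 : K) • E) (A6 : A E = 0)
    (B1 : B D = -X) (B2 : B n = 0) (B3 : B G = 0) (B4 : B h = (2 : K) • n)
    (B5 : B X = (2 * c) • n + (2 * n0) • G) (B6 : B E = -c • X + n0 • h)
    (U1 : U D = 0) (U2 : U G = -X) (U3 : U h = -(2 : K) • E)
    (U4 : U X = -(2 * c) • E + (2 * n0) • D) (U5 : U E = 0)
    {s s' t : K} (hs : s ≠ 0) (hs' : s' ≠ 0) (hc : s + s' = c) (ht : t * (s * s') = -1)
    (y1 y2 y3 w : L) (hy1 : y1 = D + s' • B D + (2⁻¹ * s' ^ 2) • B (B D))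
    (hy2 : y2 = y1 + t • A y1 + (2⁻¹ * t ^ 2) • A (A y1))
    (hy3 : y3 = y2 + s • B y2 + (2⁻¹ * s ^ 2) • B (B y2))
    (W : L →ₗ[K] L) (hW : W = n0⁻¹ • (A - s⁻¹ • U))
    (hw : w = G + W G + (2⁻¹ : K) • W (W G)) : y3 = (n0 ^ 2) • w := by
  have ht' : t = -(s * s')⁻¹ := by
    have hss : s * s' ≠ 0 := mul_ne_zero hs hs'
    field_simp
    linear_combination ht
  subst hc
  rw [hy3, hy2, hy1, hw, hW]
  simp only [LinearMap.smul_apply, LinearMap.sub_apply, map_add, map_sub, map_smul, map_neg,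
    A1, A2, A3, A4, A5, A6, B1, B2, B3, B4, B5, B6, U1, U2, U3, U4, U5, smul_zero, smul_add,
    smul_sub, smul_neg, neg_smul, neg_zero, add_zero, zero_add, sub_zero, zero_sub, ht']
  match_scalars <;> field_simp <;> ring

end Pool.Agent.H31.F4
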