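import Pool.Agent.H31.F4.Exp2
import Pool.Agent.H31.F4.Sl2R

/-!
# FF-35: the relations for an element of degree -2

`b` short, `n ∈ LF` of degree `-2` for `cv b`: `n = α G + n'`, `G = Df (ng b)`, `α = n.2 (ng b)`, and `n'` is a
combination of `e_d`, `d` long, `dg b d = -2` (`dg_neg_two`: a short `d` with `dg b d = -2` is `Eq4 (ng b) d`).
Write `D = Df b`, `h = hh (zk (cv b))`, `zb = hh (zk (b - sb))`; `[D,G] = -h` (`br_D_ng`), `[G,D] = h`.
`ps_rel`, first part: `[n,D] = α h + ∑ n_d [e_d, D]`, `[n, α h] = 2 α n` (`[h, n] = -2 n`);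
`[G,[e_d,D]] = [e_d,[G,D]] = [e_d, h] = 2 e_d` (`[G,e_d] = 0`: degree -4);
`[e_f,[e_d,D]]` has weight `f + d + b` and degree `-2`: `|f + d + b|² = 1 + 2 (f,d)` (roots of F_4; long
norm 2), so it is zero unless `(f,d) = 0` and then `f + d + b = -b`: a multiple of `G` (`f = d`:
`ad(e_d)² D = 0`).  Total: `[n,[n,D]] = 4 α n - 2 α² G + β G`; put `n0 = α² - β/2`.
Second part: `wf b = -(1/2) [D, zb]` (`br_k_D`, `fk_zz`).
`ad(n)² [D,zb] = [ad(n)² D, zb] + 2 [[n,D],[n,zb]] + [D, ad(n)² zb]`; `[n,zb] = 2 α wf (ng b)` (`fk_anti_long` for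
the long part), `ad(n)² zb = 0` (degree), `[h, wf (ng b)] = -2 wf (ng b)`,
`[[e_d,D], wf (ng b)] = [e_d,[D,wf (ng b)]] = [e_d, -zb] = 0`; so the middle term is
`2 · (-4 α²)/2 …`: `2 [[n,D],[n,zb]] = 2 · 2 α · α · (-2) wf (ng b) = -8 α² wf (ng b)`, first term
`4 α · 2 α wf (ng b) - 2 n0 · 2 wf (ng b) = (8 α² - 4 n0) wf (ng b)`.  Sum `-4 n0 wf (ng b)`; divide by `-2`.
(`[G, zb] = 2 wf (ng b)`.)
`ps_id`: `sl2R` with `A = ad D`, `B = ad n`, `U = ad E`, `X = [D,n]`, `E = -(1/2)[D,X]`, `c = -2 α`.  The relations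
(all by Jacobi from the first part and degrees): `[D,h] = -2 D`, `[n,h] = 2 n`, `[D,E] = 0` (degree 4),
`[n,G] = 0` (degree -4), `[n,X] = -[n,[n,D]]`, `[G,X] = [[G,D],n] + [D,[G,n]] = [h,n] = -2 n`,
`[h,X] = 0` (degree 0: `[h,X] = [[h,D],n] + [D,[h,n]] = 0`),
`[n,E] = -(1/2)([[n,D],X] + [D,[n,X]]) = -(1/2)[D, 2 c n + 2 n0 G] = -c X + n0 h`,
`[E,G] = -[G,E] = (1/2)([[G,D],X] + [D,[G,X]]) = (1/2)[D,-2n] = -X`, `[E,h] = -2 E` (degree 2: `h` acts on
`Grd k` by `k`), `[E,D] = 0`, `[E,X] = [[E,D],n] + [D,[E,n]] = [D, c X - n0 h] = -2 c E + 2 n0 D`.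
`e3 (s • n) y = y + s [n,y] + (s²/2) [n,[n,y]]`.
-/

namespace Pool.Agent.H31.F4

open Pool.Agent.H33.EL (ip cc eps Rt ng zk ek fk LL hh e brf fmf br fm IsExt exl ex xr hd L0 GG T1 TT NN SF cj wt)

variable {K : Type} [Field K]

/-! ### degrees -/

private theorem psa_e_grd (b y : Rt C6) : e K y ∈ Grd C6 K (cv b) (dg b y) := Fil_e_grd _ _

private theorem psa_D_grd (b y : Rt C6) : Df K y ∈ Grd C6 K (cv b) (dg b y) := by
  by_cases hy : sg y = y
  · rw [Df_long hy]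
    exact psa_e_grd b y
  · rw [Df_short hy]
    have h := psa_e_grd (K := K) b (sg y)
    rw [dg_sg_right] at h
    exact Submodule.add_mem _ (psa_e_grd b y) h

private theorem psa_w_grd (b y : Rt C6) : wf K y ∈ Grd C6 K (cv b) (dg b y) := by
  unfold wf
  have h := psa_e_grd (K := K) b (sg y)
  rw [dg_sg_right] at h
  exact Submodule.sub_mem _ (psa_e_grd b y) h

/-- there is nothing in the degrees greater than 2 or smaller than -2 -/
private theorem psa_zero {b : Rt C6} {k : ℤ} (hk : k < -2 ∨ 2 < k) {x : LL C6 K}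
    (hx : x ∈ Grd C6 K (cv b) k) : x = 0 := by
  refine Prod.ext (hx.2 (by omega)) (funext fun r => hx.1 r ?_)
  have h1 := dg_range b r
  have h2 : ip C6 (cv b) r.1 = dg b r := rfl
  omega

/-- the coroot element acts on degree `k` by `k` -/
private theorem psa_h {b : Rt C6} {k : ℤ} {x : LL C6 K} (hx : x ∈ Grd C6 K (cv b) k) :
    br (hh C6 (zk (cv b))) x = (k : K) • x := by
  refine Prod.ext ?_ (funext fun r => ?_)
  · rw [br_hh_fst, Prod.smul_fst]
    by_cases hk : k = 0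
    · rw [hk, Int.cast_zero, zero_smul]
    · rw [hx.2 hk, smul_zero]
  · rw [br_hh_snd, Prod.smul_snd, Pi.smul_apply, smul_eq_mul, fk_zk_zk]
    by_cases hr : ip C6 (cv b) r.1 = k
    · rw [hr]
    · rw [hx.1 r hr, mul_zero, mul_zero]

/-! ### vectors without toral part and long coordinates -/

private def PsaZ (y : LL C6 K) : Prop := y.1 = 0 ∧ ∀ s : Rt C6, sg s = s → y.2 s = 0

private theorem psa_sub_root {r d : Rt C6} (h : ip C6 (r.1 - d.1) (r.1 - d.1) = 2)
    (hr : sg r = r) (hd : sg d = d) : ∃ u : Rt C6, u.1 = r.1 - d.1 ∧ sg u = u := by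
  refine ⟨⟨r.1 - d.1, h⟩, rfl, ?_⟩
  apply Subtype.ext
  have h1 : sv r.1 = r.1 := congrArg Subtype.val hr
  have h2 : sv d.1 = d.1 := congrArg Subtype.val hd
  change sv (r.1 - d.1) = r.1 - d.1
  have h3 : sv (r.1 - d.1) = sv r.1 - sv d.1 := rfl
  rw [h3, h1, h2]

private theorem psa_Z_e (H : HypW C6 K) {d : Rt C6} (hd : sg d = d) {y : LL C6 K}
    (hy : PsaZ y) : PsaZ (br (e K d) y) := by
  refine ⟨?_, fun r hr => ?_⟩
  · rw [br_e_fst H, hy.2 (ng d) ((sg_ng_iff d).2 hd), neg_zero, zero_smul]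
  · by_cases hrd : r = d
    · rw [hrd, br_e_snd_self H, hy.1, fk_zero_left, neg_zero]
    · by_cases h1 : ip C6 r.1 d.1 = 1
      · obtain ⟨u, hu, hu'⟩ := psa_sub_root (root_sub H h1) hr hd
        rw [br_e_snd H d y r h1 u hu, hy.2 u hu', mul_zero]
      · exact br_e_snd_zero H d y r h1 hrd

private theorem psa_Z_add {x y : LL C6 K} (hx : PsaZ x) (hy : PsaZ y) : PsaZ (x + y) :=
  ⟨by rw [Prod.fst_add, hx.1, hy.1, add_zero], fun s hs => by
    rw [Prod.snd_add, Pi.add_apply, hx.2 s hs, hy.2 s hs, add_zero]⟩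

private theorem psa_Z_smul {x : LL C6 K} (hx : PsaZ x) (c : K) : PsaZ (c • x) :=
  ⟨by rw [Prod.smul_fst, hx.1, smul_zero], fun s hs => by
    rw [Prod.smul_snd, Pi.smul_apply, hx.2 s hs, smul_zero]⟩

private theorem psa_Z_zero : PsaZ (0 : LL C6 K) := ⟨rfl, fun _ _ => rfl⟩

private theorem psa_Z_sum {ι : Type*} (t : Finset ι) (f : ι → LL C6 K)
    (h : ∀ i ∈ t, PsaZ (f i)) : PsaZ (∑ i ∈ t, f i) := by
  classical
  induction t using Finset.induction_on with
  | empty =>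
    rw [Finset.sum_empty]
    exact psa_Z_zero
  | insert a t ha ih =>
    rw [Finset.sum_insert ha]
    exact psa_Z_add (h a (Finset.mem_insert_self a t))
      (ih fun i hi => h i (Finset.mem_insert_of_mem hi))

private theorem psa_Z_br (H : HypW C6 K) {m y : LL C6 K} (hm : m.1 = 0)
    (hm' : ∀ d : Rt C6, sg d ≠ d → m.2 d = 0) (hy : PsaZ y) : PsaZ (br m y) := by
  have h1 : br m y = ∑ a : Rt C6, m.2 a • br (e K a) y := by
    conv_lhs => rw [decomp m]
    have h2 : hh C6 m.1 = 0 := by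
      rw [hm]
      rfl
    rw [h2, zero_add, map_sum, LinearMap.sum_apply]
    refine Finset.sum_congr rfl fun a _ => ?_
    rw [map_smul, LinearMap.smul_apply]
  rw [h1]
  refine psa_Z_sum _ _ fun a _ => ?_
  by_cases ha : sg a = a
  · exact psa_Z_smul (psa_Z_e H ha hy) _
  · rw [hm' a ha, zero_smul]
    exact psa_Z_zero

private theorem psa_Z_D {b : Rt C6} (hb : sg b ≠ b) : PsaZ (Df K b) := by
  refine ⟨Df_fst b, fun s hs => ?_⟩
  rw [Df_snd, if_neg]
  intro h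
  exact hb ((Eq4_len h).2 hs)

private theorem psa_D_snd_self (b : Rt C6) : (Df K b).2 b = 1 := by
  have hE : Eq4 b b := Or.inl rfl
  rw [Df_snd, if_pos hE]

/-- the elements of degree -2 without long coordinates -/
private theorem psa_Z_G {b : Rt C6} (hb : sg b ≠ b) {y : LL C6 K} (hL : y ∈ LF K)
    (hy2 : y ∈ Grd C6 K (cv b) (-2)) (hy : PsaZ y) : y = y.2 (ng b) • Df K (ng b) := by
  refine Prod.ext ?_ (funext fun r => ?_)
  · rw [hy.1, Prod.smul_fst, Df_fst, smul_zero]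
  · rw [Prod.smul_snd, Pi.smul_apply, smul_eq_mul, Df_snd]
    by_cases h : Eq4 (ng b) r
    · rw [if_pos h, mul_one]
      rcases h with rfl | rfl
      · rfl
      · exact ((mem_LF' y).1 hL).2 (ng b)
    · rw [if_neg h, mul_zero]
      by_cases hr : sg r = r
      · exact hy.2 r hr
      · by_cases h1 : dg b r = -2
        · exact absurd (dg_neg_two b r h1 ⟨fun h => absurd h hb, fun h => absurd h hr⟩) h
        · exact hy2.1 r h1

private theorem psa_z_br (H : HypW C6 K) {b : Rt C6} (hb : sg b ≠ b) :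
    br (Df K b) (hh C6 (zk (b.1 - (sg b).1))) = (-2 : K) • wf K b := by
  rw [br_skew H, br_k_D _ (DBrB_sv_anti b) b hb, fk_zz H b hb, neg_smul]

private theorem psa_br_h (H : HypW C6 K) {b : Rt C6} {k : ℤ} {x : LL C6 K}
    (hx : x ∈ Grd C6 K (cv b) k) : br x (hh C6 (zk (cv b))) = (-(k : K)) • x := by
  rw [br_skew H, psa_h hx, neg_smul]

private theorem psa_nn_b (b : Rt C6) : dg b (ng b) = -2 := by
  rw [dg_ng_right, dg_self]

theorem ps_rel (H : HypW C6 K) {b : Rt C6} (hb : sg b ≠ b) {n : LL C6 K} (hn : n ∈ LF K)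
    (hn2 : n ∈ Grd C6 K (cv b) (-2)) : ∃ n0 : K,
    br n (br n (Df K b)) = (4 * n.2 (ng b)) • n - (2 * n0) • Df K (ng b) ∧
    br n (br n (wf K b)) = (2 * n0) • wf K (ng b) := by
  have two := two_ne H
  have hDg : Df K b ∈ Grd C6 K (cv b) 2 := Fi4_Df_grd b
  have hGg : Df K (ng b) ∈ Grd C6 K (cv b) (-2) := by
    have h := psa_D_grd (K := K) b (ng b)
    rwa [psa_nn_b] at h
  have hWg : wf K (ng b) ∈ Grd C6 K (cv b) (-2) := by
    have h := psa_w_grd (K := K) b (ng b)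
    rwa [psa_nn_b] at h
  obtain ⟨α, hα⟩ : ∃ α, α = n.2 (ng b) := ⟨_, rfl⟩
  rw [← hα]
  obtain ⟨m, hm⟩ : ∃ m, m = n - α • Df K (ng b) := ⟨_, rfl⟩
  have hnm : n = α • Df K (ng b) + m := by rw [hm]; abel
  have hmL : m ∈ LF K := by
    rw [hm]
    exact Submodule.sub_mem _ hn (Submodule.smul_mem _ _ (Df_mem _))
  have hm2 : m ∈ Grd C6 K (cv b) (-2) := by
    rw [hm]
    exact Submodule.sub_mem _ hn2 (Submodule.smul_mem _ _ hGg)
  have hm1 : m.1 = 0 := hm2.2 (by norm_num)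
  have hms : ∀ d : Rt C6, sg d ≠ d → m.2 d = 0 := by
    intro d hd
    by_cases h1 : dg b d = -2
    · have h2 := dg_neg_two b d h1 ⟨fun h => absurd h hb, fun h => absurd h hd⟩
      rw [hm, Prod.snd_sub, Pi.sub_apply, Prod.smul_snd, Pi.smul_apply, Df_snd, if_pos h2, hα]
      rcases h2 with rfl | rfl
      · simp
      · rw [((mem_LF' n).1 hn).2 (ng b)]
        simp
    · exact hm2.1 d h1
  -- the brackets
  have hGD : br (Df K (ng b)) (Df K b) = hh C6 (zk (cv b)) := by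
    rw [br_skew H, br_D_ng H, neg_neg]
  have hGm : br (Df K (ng b)) m = 0 := psa_zero (Or.inl (by norm_num)) (FilA_br_grd hGg hm2)
  have hGh : br (Df K (ng b)) (hh C6 (zk (cv b))) = (2 : K) • Df K (ng b) := by
    rw [psa_br_h H hGg]
    norm_num
  have hmh : br m (hh C6 (zk (cv b))) = (2 : K) • m := by
    rw [psa_br_h H hm2]
    norm_num
  have hmGD : br (Df K (ng b)) (br m (Df K b)) = (2 : K) • m := by
    rw [jac H, hGm, hGD, hmh, map_zero, LinearMap.zero_apply, zero_add]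
  have hmm : br m (br m (Df K b)) =
      (br m (br m (Df K b))).2 (ng b) • Df K (ng b) := by
    refine psa_Z_G hb (br_LF_LF hmL (br_LF_LF hmL (Df_mem b))) ?_ ?_
    · have h1 := FilA_br_grd hm2 (FilA_br_grd hm2 hDg)
      have h2 : (-2 : ℤ) + (-2 + 2) = -2 := by norm_num
      rwa [h2] at h1
    · exact psa_Z_br H hm1 hms (psa_Z_br H hm1 hms (psa_Z_D hb))
  obtain ⟨β, hβ⟩ : ∃ β, β = (br m (br m (Df K b))).2 (ng b) := ⟨_, rfl⟩
  rw [← hβ] at hmm
  have first : br n (br n (Df K b)) =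
      (4 * α) • n - (2 * (α ^ 2 - 2⁻¹ * β)) • Df K (ng b) := by
    have h1 : br n (Df K b) = α • hh C6 (zk (cv b)) + br m (Df K b) := by
      rw [hnm, map_add, LinearMap.add_apply, map_smul, LinearMap.smul_apply, hGD]
    rw [h1, hnm]
    simp only [map_add, LinearMap.add_apply, map_smul, LinearMap.smul_apply]
    rw [hGh, hmh, hmGD, hmm]
    have h2 : (2 : K) * (2⁻¹ * β) = β := by field_simp
    have h3 : (2 : K) * (α ^ 2 - 2⁻¹ * β) = 2 * α ^ 2 - β := by
      rw [mul_sub, h2]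
    rw [h3]
    module
  refine ⟨α ^ 2 - 2⁻¹ * β, first, ?_⟩
  obtain ⟨n0, hn0⟩ : ∃ n0, n0 = α ^ 2 - 2⁻¹ * β := ⟨_, rfl⟩
  rw [← hn0] at first ⊢
  -- second part
  obtain ⟨z, hz⟩ : ∃ z : LL C6 K, z = hh C6 (zk (b.1 - (sg b).1)) := ⟨_, rfl⟩
  have hDz : br (Df K b) z = (-2 : K) • wf K b := by rw [hz]; exact psa_z_br H hb
  have hnb : sg (ng b) ≠ ng b := fun h => hb ((sg_ng_iff b).1 h)
  have hGz : br (Df K (ng b)) z = (2 : K) • wf K (ng b) := by
    rw [hz, br_skew H, br_k_D _ (DBrB_sv_anti b) (ng b) hnb]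
    have h1 : (zk (ng b).1 : Fin 6 → K) = -zk b.1 := by
      rw [ng_val, zk_neg]
    rw [h1, fk_neg_right, fk_zz H b hb, neg_smul, neg_neg]
  have hmz : br m z = 0 := by
    rw [br_skew H, hz]
    have h1 : br (hh C6 (zk (b.1 - (sg b).1))) m = 0 := by
      refine Prod.ext (br_hh_fst _ _) (funext fun r => ?_)
      rw [br_hh_snd]
      by_cases hr : sg r = r
      · rw [fk_anti_long H _ (DBrB_sv_anti b) r hr, zero_mul]
        rfl
      · rw [hms r hr, mul_zero]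
        rfl
    rw [h1, neg_zero]
  have hnz : br n z = (2 * α) • wf K (ng b) := by
    rw [hnm, map_add, LinearMap.add_apply, map_smul, LinearMap.smul_apply, hGz, hmz, add_zero,
      smul_smul, mul_comm]
  have hnW : br n (wf K (ng b)) = 0 := psa_zero (Or.inl (by norm_num)) (FilA_br_grd hn2 hWg)
  have hDW : br (Df K b) (wf K (ng b)) = -z := by rw [hz]; exact br_D_wng H b hb
  have hnDW : br (br n (Df K b)) (wf K (ng b)) = -((2 * α) • wf K (ng b)) := by
    have h1 := jac H n (Df K b) (wf K (ng b))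
    rw [hnW, map_zero, add_zero, hDW, map_neg, hnz] at h1
    exact h1.symm
  have key : br n (br n (br (Df K b) z)) = (-(4 * n0)) • wf K (ng b) := by
    have h1 : br n (br (Df K b) z) = br (br n (Df K b)) z + (2 * α) • br (Df K b) (wf K (ng b)) := by
      rw [jac H, hnz, map_smul]
    have h2 : br n (br (br n (Df K b)) z) = br (br n (br n (Df K b))) z +
        (2 * α) • br (br n (Df K b)) (wf K (ng b)) := by
      rw [jac H n (br n (Df K b)) z, hnz, map_smul]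
    rw [h1, map_add, map_smul, h2, hDW, map_neg, hnz, hnDW, first, map_sub, LinearMap.sub_apply,
      map_smul, map_smul, LinearMap.smul_apply, LinearMap.smul_apply, hnz, hGz]
    module
  rw [hDz, map_smul, map_smul] at key
  have h1 : (2 : K) • br n (br n (wf K b)) = (2 : K) • ((2 * n0) • wf K (ng b)) := by
    have h2 : (2 : K) • br n (br n (wf K b)) = -((-2 : K) • br n (br n (wf K b))) := by
      rw [neg_smul, neg_neg]
    rw [h2, key]
    module
  exact SigB_cancel two h1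

private theorem psa_e3 (v : LL C6 K) (s : K) (x : LL C6 K) :
    e3 (s • v) x = x + s • br v x + (2⁻¹ * s ^ 2) • br v (br v x) := XfA_exl_smul v s x

theorem ps_id (H : HypW C6 K) {b : Rt C6} (hb : sg b ≠ b) {n : LL C6 K} (hn : n ∈ LF K)
    (hn2 : n ∈ Grd C6 K (cv b) (-2)) {n0 : K} (hn0 : n0 ≠ 0)
    (hr : br n (br n (Df K b)) = (4 * n.2 (ng b)) • n - (2 * n0) • Df K (ng b))
    {s s' t : K} (hs : s ≠ 0) (hs' : s' ≠ 0) (hc : s + s' = -(2 * n.2 (ng b)))
    (ht : t * (s * s') = -1) :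
    e3 (s • n) (e3 (t • Df K b) (e3 (s' • n) (Df K b))) =
      (n0 ^ 2) • e3 (n0⁻¹ • (Df K b + (2⁻¹ * s⁻¹) • br (Df K b) (br (Df K b) n))) (Df K (ng b)) := by
  have two := two_ne H
  have hDg : Df K b ∈ Grd C6 K (cv b) 2 := Fi4_Df_grd b
  have hGg : Df K (ng b) ∈ Grd C6 K (cv b) (-2) := by
    have h := psa_D_grd (K := K) b (ng b)
    rwa [psa_nn_b] at h
  obtain ⟨α, hα⟩ : ∃ α, α = n.2 (ng b) := ⟨_, rfl⟩
  rw [← hα] at hr hc
  obtain ⟨D, hD⟩ : ∃ D, D = Df K b := ⟨_, rfl⟩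
  obtain ⟨G, hG⟩ : ∃ G, G = Df K (ng b) := ⟨_, rfl⟩
  obtain ⟨h, hh'⟩ : ∃ h : LL C6 K, h = hh C6 (zk (cv b)) := ⟨_, rfl⟩
  rw [← hD, ← hG] at hr ⊢
  rw [← hD] at hDg
  rw [← hG] at hGg
  obtain ⟨X, hX⟩ : ∃ X, X = br D n := ⟨_, rfl⟩
  obtain ⟨E, hE⟩ : ∃ E : LL C6 K, E = (-2⁻¹ : K) • br D X := ⟨_, rfl⟩
  have hXg : X ∈ Grd C6 K (cv b) 0 := by
    rw [hX]
    exact FilA_br_grd hDg hn2
  have hDX : br D X ∈ Grd C6 K (cv b) 2 := by
    have h1 := FilA_br_grd hDg hXg
    rwa [add_zero] at h1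
  have hEg : E ∈ Grd C6 K (cv b) 2 := by
    rw [hE]
    exact Submodule.smul_mem _ _ hDX
  have A1 : br D D = 0 := br_self H D
  have A3 : br D G = -h := by rw [hD, hG, hh']; exact br_D_ng H b
  have A4 : br D h = -(2 : K) • D := by
    rw [hh', psa_br_h H hDg]
    norm_num
  have A5 : br D X = -(2 : K) • E := by
    rw [hE, smul_smul]
    have : (-(2 : K)) * (-2⁻¹) = 1 := by
      rw [neg_mul_neg, mul_inv_cancel₀ two]
    rw [this, one_smul]
  have A6 : br D E = 0 := psa_zero (Or.inr (by norm_num)) (FilA_br_grd hDg hEg)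
  have B1 : br n D = -X := by rw [hX, br_skew H]
  have B2 : br n n = 0 := br_self H n
  have B3 : br n G = 0 := psa_zero (Or.inl (by norm_num)) (FilA_br_grd hn2 hGg)
  have B4 : br n h = (2 : K) • n := by
    rw [hh', psa_br_h H hn2]
    norm_num
  have B5 : br n X = (2 * (-(2 * α))) • n + (2 * n0) • G := by
    have h1 : X = -br n D := by rw [B1, neg_neg]
    rw [h1, map_neg, hr]
    module
  have B6 : br n E = -(-(2 * α)) • X + n0 • h := by
    rw [hE, map_smul, jac H, B1, map_neg, LinearMap.neg_apply, br_self H, neg_zero, zero_add, B5,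
      map_add, map_smul, map_smul, ← hX, A3]
    have h1 : (-2⁻¹ : K) * (2 * (-(2 * α))) = 2 * α := by field_simp
    have h2 : (-2⁻¹ : K) * (2 * n0) = -n0 := by field_simp
    rw [smul_add, smul_smul, smul_smul, h1, h2]
    module
  have U1 : br E D = 0 := psa_zero (Or.inr (by norm_num)) (FilA_br_grd hEg hDg)
  have hGD : br G D = h := by rw [br_skew H, A3, neg_neg]
  have hGn : br G n = 0 := psa_zero (Or.inl (by norm_num)) (FilA_br_grd hGg hn2)
  have hhn : br h n = -(2 : K) • n := by rw [br_skew H, B4, neg_smul]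
  have hhX : br h X = 0 := by
    rw [hh', psa_h hXg, Int.cast_zero, zero_smul]
  have hGX : br G X = -(2 : K) • n := by
    rw [hX, jac H, hGD, hGn, map_zero, add_zero, hhn]
  have U2 : br E G = -X := by
    have h1 : br G E = X := by
      rw [hE, map_smul, jac H, hGD, hhX, zero_add, hGX, map_smul, ← hX, smul_smul]
      have : (-2⁻¹ : K) * (-(2 : K)) = 1 := by
        rw [neg_mul_neg, inv_mul_cancel₀ two]
      rw [this, one_smul]
    rw [br_skew H, h1]
  have U3 : br E h = -(2 : K) • E := by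
    rw [hh', psa_br_h H hEg]
    norm_num
  have U4 : br E X = -(2 * (-(2 * α))) • E + (2 * n0) • D := by
    have h1 : br E n = -(br n E) := br_skew H _ _
    rw [hX, jac H, U1, map_zero, LinearMap.zero_apply, zero_add, h1, B6, map_neg, map_add,
      map_smul, map_smul, A5, A4]
    module
  have U5 : br E E = 0 := br_self H E
  have hW : br (n0⁻¹ • (D + (2⁻¹ * s⁻¹) • br D (br D n))) = n0⁻¹ • (br D - s⁻¹ • br E) := by
    have h1 : (2⁻¹ * s⁻¹ : K) * (-(2 : K)) = -s⁻¹ := by field_simp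
    rw [← hX, A5, map_smul, map_add, smul_smul, map_smul, h1]
    refine LinearMap.ext fun y => ?_
    rw [LinearMap.smul_apply, LinearMap.add_apply, LinearMap.smul_apply, LinearMap.smul_apply,
      LinearMap.sub_apply, LinearMap.smul_apply, neg_smul, sub_eq_add_neg]
  have hfin := sl2R (br D) (br n) (br E) D n G h X E (-(2 * α)) n0 two hn0 A1 hX.symm A3 A4 A5 A6
    B1 B2 B3 B4 B5 B6 U1 U2 U3 U4 U5 hs hs' hc ht (e3 (s' • n) D) (e3 (t • D) (e3 (s' • n) D))
    (e3 (s • n) (e3 (t • D) (e3 (s' • n) D)))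
    (e3 (n0⁻¹ • (D + (2⁻¹ * s⁻¹) • br D (br D n))) G) (psa_e3 _ _ _) (psa_e3 _ _ _)
    (psa_e3 _ _ _) _ hW rfl
  exact hfin

/-- if `[D,[D,n]]` is a multiple of `D` then `n` is a multiple of `Df (ng b)` -/
theorem ps_end (H : HypW C6 K) {b : Rt C6} (hb : sg b ≠ b) {n : LL C6 K} (hn : n ∈ LF K)
    (hn2 : n ∈ Grd C6 K (cv b) (-2)) {k : K}
    (h : br (Df K b) (br (Df K b) n) = k • Df K b) : n = n.2 (ng b) • Df K (ng b) := by
  have two := two_ne H
  have hDg : Df K b ∈ Grd C6 K (cv b) 2 := Fi4_Df_grd b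
  have hGg : Df K (ng b) ∈ Grd C6 K (cv b) (-2) := by
    have h := psa_D_grd (K := K) b (ng b)
    rwa [psa_nn_b] at h
  have h1 : br (Df K b) (br (Df K b) (Df K (ng b))) = (2 : K) • Df K b := by
    rw [br_D_ng H, map_neg, psa_br_h H hDg]
    norm_num
  have h2 : n - (2⁻¹ * k) • Df K (ng b) = 0 := by
    refine (Fi4_JM H (K := K) b).inj2 _ (Submodule.sub_mem _ hn2 (Submodule.smul_mem _ _ hGg)) ?_
    rw [map_sub, map_sub, map_smul, map_smul, h, h1, smul_smul]
    have h3 : (2⁻¹ * k : K) * 2 = k := by field_simp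
    rw [h3, sub_self]
  have h3 : n = (2⁻¹ * k) • Df K (ng b) := sub_eq_zero.1 h2
  have h4 : n.2 (ng b) = 2⁻¹ * k := by
    rw [h3, Prod.smul_snd, Pi.smul_apply, psa_D_snd_self, smul_eq_mul, mul_one]
  rw [h4]
  exact h3

end Pool.Agent.H31.F4
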