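import Pool.Agent.H31.F4.Fil4
import Pool.Agent.H31.F4.Lpos
import Pool.Agent.H31.F4.PG4

/-!
# FF-31: the subgroups `Q2 c`, good short roots

`Q2 K c`: elements of `GF` which raise the filtration of `cv c` by 2.
* `mem_Q2`: `g x - x ∈ Fil (k+2)` for `x ∈ Fil k` gives `g (Fil k) ≤ Fil k`, so `=` by dimension; then
  `g⁻¹ x - x = -(g (g⁻¹ x) - g⁻¹ x)`.
* `Q2_le_Rad`: `mem_Par`, `mem_Rad`, `Fil_gr_unique` with `f = 1`.
* `xf_mem_Q2`: `xf_apply`, `Df y ∈ Grd (cv c) 2` (`dg c y = 2`), `FilA_br_fil`.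
* `Q2_deg`: `xf y 1 x - x` for `x = hh h`, `sv h = h`, `fk h (zk y) ≠ 0` (e.g. `h = zk (cv y)`): `xf_hh`:
  `Df y ∈ Fil (cv c) 2`, so `2 ≤ dg c y` (`Df_snd`), `dg_range`.
* `Q2_map`: both directions of `h`; `u x' - x'` with `x' = g⁻¹ x`.
* `FQ2`: `F ⊓ Q2 b` is a `T4`-invariant `p`-group (`Q2_le_Rad`, `Rad_pgroup`); by `pg4` it is generated by
  `xf a s`, `a ∈ SF4 (F ⊓ Q2 b)`; `dg b a = 2` (`Q2_deg`), so `a` is not long (`b ∈ SsF F`), so `Eq4 b a`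
  (`dg_two`), `xf a s = xf b s` (`xf_Eq4`); and `{xf b s}` is a subgroup (`xf_add`, `xf_zero`, `xf_neg`).
-/

namespace Pool.Agent.H31.F4

open Pool.Agent.H33.EL (ip cc eps Rt ng zk ek fk LL hh e brf fmf br fm IsExt exl ex xr hd L0 GG T1 TT NN SF cj wt)

variable {K : Type} [Field K]

/-- elements of `GF` raising the filtration of `cv c` by 2 -/
def Q2 (K : Type) [Field K] (c : Rt C6) : Subgroup (LL C6 K ≃ₗ[K] LL C6 K) where
  carrier := {g | g ∈ GF K ∧ (∀ k, ∀ x ∈ Fil C6 K (cv c) k, g x - x ∈ Fil C6 K (cv c) (k + 2)) ∧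
    ∀ k, ∀ x ∈ Fil C6 K (cv c) k, g⁻¹ x - x ∈ Fil C6 K (cv c) (k + 2)}
  mul_mem' := by
    rintro g h ⟨g1, g2, g3⟩ ⟨h1, h2, h3⟩
    have hle : ∀ k, ∀ x ∈ Fil C6 K (cv c) (k + 2), x ∈ Fil C6 K (cv c) k := fun k x hx =>
      Fil_anti (by omega) hx
    refine ⟨mul_mem g1 h1, fun k x hx => ?_, fun k x hx => ?_⟩
    · have e1 : h x ∈ Fil C6 K (cv c) k := by
        have := add_mem (hle k _ (h2 k x hx)) hx
        simpa using this
      have := add_mem (g2 k _ e1) (h2 k x hx)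
      have e2 : (g * h) x - x = (g (h x) - h x) + (h x - x) := by
        rw [LinearEquiv.mul_apply]; abel
      rw [e2]; exact this
    · have e1 : g⁻¹ x ∈ Fil C6 K (cv c) k := by
        have := add_mem (hle k _ (g3 k x hx)) hx
        simpa using this
      have := add_mem (h3 k _ e1) (g3 k x hx)
      have e2 : (g * h)⁻¹ x - x = (h⁻¹ (g⁻¹ x) - g⁻¹ x) + (g⁻¹ x - x) := by
        rw [mul_inv_rev, LinearEquiv.mul_apply]; abel
      rw [e2]; exact this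
  one_mem' := ⟨one_mem _, fun k x _ => by simp, fun k x _ => by simp⟩
  inv_mem' := by
    rintro g ⟨g1, g2, g3⟩
    exact ⟨inv_mem g1, g3, by simpa using g2⟩

/-- the exponential of `ad v`, truncated after the square -/
noncomputable def e3 (v y : LL C6 K) : LL C6 K := y + br v y + (2⁻¹ : K) • br v (br v y)

/-- short roots of `F` without adjacent long roots of `F` -/
def SsF (F : Subgroup (LL C6 K ≃ₗ[K] LL C6 K)) : Set (Rt C6) :=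
  {b | b ∈ SF4 F ∧ sg b ≠ b ∧ ∀ a ∈ SF4 F, sg a = a → dg b a = 0}

private theorem q2a_e3 (v x : LL C6 K) : e3 v x = exl v x := rfl

theorem xf_e3 (H : HypW C6 K) (a : Rt C6) (s : K) (x : LL C6 K) :
    xf a s x = e3 (s • Df K a) x := by
  rw [xf_apply H, q2a_e3, XfA_exl_smul]

theorem conj_e3 (H : HypW C6 K) {g : LL C6 K ≃ₗ[K] LL C6 K} (hg : g ∈ GF K) (a : Rt C6) (s : K)
    (x : LL C6 K) : (g * xf a s * g⁻¹) x = e3 (s • g (Df K a)) x := by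
  obtain ⟨h1, h2, -⟩ := ex_GD H (GF_le_GG hg) a s
  rw [h1, h2, q2a_e3, XfA_exl_smul]

private theorem q2a_par (H : HypW C6 K) (c : Rt C6) {g : LL C6 K ≃ₗ[K] LL C6 K} (hg : g ∈ GF K)
    (h : ∀ k, ∀ x ∈ Fil C6 K (cv c) k, g x - x ∈ Fil C6 K (cv c) (k + 2)) :
    g ∈ Par C6 K (cv c) := by
  refine mem_Par H (GF_le_GG hg) fun k x hx => ?_
  have h1 := Fil_anti (by omega : k ≤ k + 2) (h k x hx)
  have h2 := Submodule.add_mem _ h1 hx
  rwa [sub_add_cancel] at h2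

theorem mem_Q2 (H : HypW C6 K) (c : Rt C6) {g : LL C6 K ≃ₗ[K] LL C6 K} (hg : g ∈ GF K)
    (h : ∀ k, ∀ x ∈ Fil C6 K (cv c) k, g x - x ∈ Fil C6 K (cv c) (k + 2)) : g ∈ Q2 K c := by
  have hP := q2a_par H c hg h
  refine ⟨hg, h, fun k x hx => ?_⟩
  have h1 : g⁻¹ x ∈ Fil C6 K (cv c) k := ((inv_mem hP).2 k x).2 hx
  have h2 := h k _ h1
  have h3 : g (g⁻¹ x) = x := g.apply_symm_apply x
  rw [h3] at h2
  have h4 := Submodule.neg_mem _ h2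
  rwa [neg_sub] at h4

theorem Q2_le_GF (c : Rt C6) : Q2 K c ≤ GF K := fun _ hg => hg.1

private theorem q2a_one_le (c : Rt C6) {k : ℤ} {x : LL C6 K} (hx : x ∈ Fil C6 K (cv c) (k + 2)) :
    x ∈ Fil C6 K (cv c) (k + 1) := Fil_anti (by omega) hx

theorem Q2_le_Rad (H : HypW C6 K) (c : Rt C6) : Q2 K c ≤ Rad H (cv c) := by
  intro g hg
  have hP : g ∈ Par C6 K (cv c) := q2a_par H c hg.1 hg.2.1
  refine (mem_Rad H (⟨g, hP⟩ : Par C6 K (cv c))).2 ?_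
  refine Fil_gr_unique H _ 1 (fun h => Fil_hh_grd _ h) (fun a => Fil_e_grd _ a) (fun h => ?_)
    (fun a => ?_)
  · have h1 := hg.2.1 0 _ (Fil_hh_fil (cv c) h le_rfl)
    exact q2a_one_le c h1
  · have h1 := hg.2.1 (ip C6 (cv c) a.1) _ (Fil_e_fil (cv c) a le_rfl)
    exact q2a_one_le c h1

private theorem q2a_D (c y : Rt C6) (h : dg c y = 2) : Df K y ∈ Fil C6 K (cv c) 2 := by
  have h1 : e K y ∈ Fil C6 K (cv c) 2 := Fil_e_fil (cv c) y (by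
    have : ip C6 (cv c) y.1 = dg c y := rfl
    omega)
  by_cases hy : sg y = y
  · rw [Df_long hy]
    exact h1
  · rw [Df_short hy]
    refine Submodule.add_mem _ h1 (Fil_e_fil (cv c) (sg y) ?_)
    have h2 : ip C6 (cv c) (sg y).1 = dg c (sg y) := rfl
    rw [h2, dg_sg_right]
    omega

theorem xf_mem_Q2 (H : HypW C6 K) {c y : Rt C6} (h : dg c y = 2) (s : K) : xf y s ∈ Q2 K c := by
  refine mem_Q2 H c (xf_mem_GF H y s) fun k x hx => ?_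
  have h1 := FilA_br_fil (q2a_D (K := K) c y h) hx
  have h2 := FilA_br_fil (q2a_D (K := K) c y h) h1
  have h3 : xf y s x - x = s • br (Df K y) x + (2⁻¹ * s ^ 2) • br (Df K y) (br (Df K y) x) := by
    rw [xf_apply H]
    module
  rw [h3]
  exact Submodule.add_mem _ (Submodule.smul_mem _ _ (Fil_anti (by omega) h1))
    (Submodule.smul_mem _ _ (Fil_anti (by omega) h2))

theorem Gn_Q2 (H : HypW C6 K) (c : Rt C6) : Gn K {y | dg c y = 2} ≤ Q2 K c := by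
  unfold Gn
  rw [Subgroup.closure_le]
  rintro g ⟨y, hy, s, rfl⟩
  exact xf_mem_Q2 H hy s

theorem Q2_deg (H : HypW C6 K) {c y : Rt C6} (h : ∀ s : K, xf y s ∈ Q2 K c) : dg c y = 2 := by
  have h0 := dg_range c y
  by_contra hc
  have hlt : ip C6 (cv c) y.1 < 2 := by
    have : ip C6 (cv c) y.1 = dg c y := rfl
    omega
  have h1 : sv (zk (cv y) : Fin 6 → K) = zk (cv y) := by
    rw [← zk_sv, sv_cv]
  have h2 := (h 1).2.1 0 _ (Fil_hh_fil (cv c) (zk (cv y)) le_rfl)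
  rw [xf_hh H y 1 _ h1] at h2
  have h3 := h2.1 y (by omega)
  have h4 : (hh C6 (zk (cv y) : Fin 6 → K) -
      ((1 : K) * fk C6 (zk (cv y) : Fin 6 → K) (zk y.1)) • Df K y - hh C6 (zk (cv y))).2 y =
      0 - ((1 : K) * fk C6 (zk (cv y) : Fin 6 → K) (zk y.1)) * (Df K y).2 y - 0 := rfl
  have hE : Eq4 y y := Or.inl rfl
  rw [h4, Df_snd, if_pos hE, fk_zk_zk, mul_one, one_mul, zero_sub, sub_zero, neg_eq_zero] at h3
  have h5 : ip C6 (cv y) y.1 = 2 := dg_self y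
  rw [h5] at h3
  exact two_ne H (by exact_mod_cast h3)

theorem Q2_Eq4 {c c' : Rt C6} (h : Eq4 c c') : Q2 K c' = Q2 K c := by
  have h1 : cv c' = cv c := by
    rcases h with rfl | rfl
    · rfl
    · exact cv_sg c
  ext g
  show (g ∈ GF K ∧ (∀ k, ∀ x ∈ Fil C6 K (cv c') k, g x - x ∈ Fil C6 K (cv c') (k + 2)) ∧
    ∀ k, ∀ x ∈ Fil C6 K (cv c') k, g⁻¹ x - x ∈ Fil C6 K (cv c') (k + 2)) ↔
    (g ∈ GF K ∧ (∀ k, ∀ x ∈ Fil C6 K (cv c) k, g x - x ∈ Fil C6 K (cv c) (k + 2)) ∧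
    ∀ k, ∀ x ∈ Fil C6 K (cv c) k, g⁻¹ x - x ∈ Fil C6 K (cv c) (k + 2))
  rw [h1]

private theorem q2a_map1 (H : HypW C6 K) {g : LL C6 K ≃ₗ[K] LL C6 K} (hg : g ∈ GF K)
    {c c' : Rt C6} (h : ∀ i x, g x ∈ Fil C6 K (cv c) i ↔ x ∈ Fil C6 K (cv c') i)
    {u : LL C6 K ≃ₗ[K] LL C6 K} (hu : u ∈ Q2 K c') : g * u * g⁻¹ ∈ Q2 K c := by
  refine mem_Q2 H c (mul_mem (mul_mem hg hu.1) (inv_mem hg)) fun k x hx => ?_
  have h0 : g (g⁻¹ x) = x := g.apply_symm_apply x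
  have h1 : g⁻¹ x ∈ Fil C6 K (cv c') k := (h k _).1 (by rw [h0]; exact hx)
  have h2 := (h (k + 2) _).2 (hu.2.1 k _ h1)
  rw [map_sub, h0] at h2
  exact h2

theorem Q2_map (H : HypW C6 K) {g : LL C6 K ≃ₗ[K] LL C6 K} (hg : g ∈ GF K) {c c' : Rt C6}
    (h : ∀ i x, g x ∈ Fil C6 K (cv c) i ↔ x ∈ Fil C6 K (cv c') i) {u : LL C6 K ≃ₗ[K] LL C6 K} :
    u ∈ Q2 K c' ↔ g * u * g⁻¹ ∈ Q2 K c := by
  refine ⟨q2a_map1 H hg h, fun hu => ?_⟩
  have h1 : ∀ i x, g⁻¹ x ∈ Fil C6 K (cv c') i ↔ x ∈ Fil C6 K (cv c) i := by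
    intro i x
    have h0 : g (g⁻¹ x) = x := g.apply_symm_apply x
    rw [← h i, h0]
  have h2 := q2a_map1 H (inv_mem hg) h1 hu
  have h3 : g⁻¹ * (g * u * g⁻¹) * g⁻¹⁻¹ = u := by group
  rwa [h3] at h2

theorem Q2_T4 (H : HypW C6 K) (c : Rt C6) {t u : LL C6 K ≃ₗ[K] LL C6 K} (ht : t ∈ T4 K)
    (hu : u ∈ Q2 K c) : t * u * t⁻¹ ∈ Q2 K c :=
  (Q2_map H (T4_le_GF H ht) (TT_le_Par H (cv c) (T4_le_TT H ht)).2).1 hu

theorem FQ2 (H : HypW C6 K) {p : ℕ} [Fact p.Prime] [CharP K p]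
    {F : Subgroup (LL C6 K ≃ₗ[K] LL C6 K)} (hF : F ≤ GF K) (hT : T4 K ≤ F) {b : Rt C6}
    (hb : b ∈ SsF F) {u : LL C6 K ≃ₗ[K] LL C6 K} (hu : u ∈ F) (hu2 : u ∈ Q2 K b) :
    ∃ s : K, u = xf b s := by
  obtain ⟨hb1, hb2, hb3⟩ := hb
  let R : Subgroup (LL C6 K ≃ₗ[K] LL C6 K) := F ⊓ Q2 K b
  have hRF : R ≤ F := inf_le_left
  have hRQ : R ≤ Q2 K b := inf_le_right
  have hRp : IsPGroup p R := (Rad_pgroup H (cv b)).to_le (hRQ.trans (Q2_le_Rad H b))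
  have hRT : ∀ t ∈ T4 K, ∀ u ∈ R, t * u * t⁻¹ ∈ R := by
    intro t ht u hu
    refine Subgroup.mem_inf.2 ⟨?_, Q2_T4 H b ht (hRQ hu)⟩
    exact mul_mem (mul_mem (hT ht) (hRF hu)) (inv_mem (hT ht))
  have hpg := pg4 H R hRp (hRF.trans hF) hRT
  have hgen : ∀ a ∈ SF4 R, ∀ s : K, xf a s = xf b s := by
    intro a ha s
    have h1 : dg b a = 2 := Q2_deg H fun s => hRQ (ha s)
    have h2 : sg a ≠ a := by
      intro h2
      have h3 := hb3 a (fun s => hRF (ha s)) h2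
      omega
    have h3 := dg_two b a h1 ⟨fun h => absurd h hb2, fun h => absurd h h2⟩
    exact xf_Eq4 h3 s
  have huR : u ∈ R := Subgroup.mem_inf.2 ⟨hu, hu2⟩
  have key : ∀ v ∈ Subgroup.closure {g : LL C6 K ≃ₗ[K] LL C6 K | ∃ a ∈ SF4 R, ∃ s : K,
      g = xf a s}, ∃ s : K, v = xf b s := by
    intro v hv
    induction hv using Subgroup.closure_induction with
    | mem x hx =>
      obtain ⟨a, ha, s, rfl⟩ := hx
      exact ⟨s, hgen a ha s⟩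
    | one => exact ⟨0, (xf_zero H b).symm⟩
    | mul x y _ _ hx hy =>
      obtain ⟨s, hs⟩ := hx
      obtain ⟨t, ht⟩ := hy
      exact ⟨s + t, by rw [xf_add H, hs, ht]⟩
    | inv x _ hx =>
      obtain ⟨s, hs⟩ := hx
      exact ⟨-s, by rw [xf_neg H, hs]⟩
  exact key u (hpg huR)

end Pool.Agent.H31.F4
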