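import Pool.Agent.H31.F4.Comb

/-!
# FF-03: the graph automorphism, the spaces `LF`, `VF`

`cc C6 (sv x) (sv y) = cc C6 x y`: `tau` preserves the order of adjacent nodes (check the table:
for `C6 i j ≠ 0`, `i ≠ j`: `j < i ↔ tau j < tau i`), so `eps`, `ek` are invariant.
`Sg` preserves `brf` and `fmf`: reindex the sums by `sg` (a permutation of `Rt C6`).
`nds`: with `h = (h0,h1,h2,h2,h4,h4)` and the simple roots `Pi.single i 1`:
`2 h1 = h0`, `2 h4 = h2`, `2 h2 = h0 + h4`, `2 h0 = h1 + 2 h2`: `h2 = 2 h4`, `h0 = 3 h4`,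
`h1 = 2 h4`, `2 h1 - h0 = h4 = 0`.
`ext_LF`, `ext_VF`: an element of `LF` is `hh x.1 + ∑ x.2 a • e a` with invariant coordinates;
group the sum by orbits, `= hh x.1 + (1/2) ∑_(a short) x.2 a • Df a + ∑_(a long) x.2 a • Df a`.
-/

namespace Pool.Agent.H31.F4

open Pool.Agent.H33.EL (ip cc eps Rt ng zk ek fk LL hh e brf fmf br fm IsExt exl ex xr hd L0 GG T1 TT NN SF cj wt)

variable {K : Type} [Field K]

private def cM (i j : Fin 6) : ℤ := if j < i then C6 i j else if i = j then C6 i i / 2 else 0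

private theorem cM_tau (i j : Fin 6) : cM (tau i) (tau j) = cM i j := by
  fin_cases i <;> fin_cases j <;> rfl

theorem cc_sv (x y : Fin 6 → ℤ) : cc C6 (sv x) (sv y) = cc C6 x y := by
  show ∑ i, ∑ j, sv x i * cM i j * sv y j = ∑ i, ∑ j, x i * cM i j * y j
  rw [← Equiv.sum_comp tauE]
  refine Finset.sum_congr rfl fun i _ => ?_
  rw [← Equiv.sum_comp tauE]
  refine Finset.sum_congr rfl fun j _ => ?_
  show sv x (tau i) * cM (tau i) (tau j) * sv y (tau j) = _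
  rw [cM_tau]
  simp only [sv, tau_tau]

/-- `sg` as a permutation -/
def sgE : Equiv.Perm (Rt C6) := ⟨sg, sg, sg_sg, sg_sg⟩

private theorem sg_ng' (a : Rt C6) : sg (ng a) = ng (sg a) := Subtype.ext rfl

theorem ek_sv (x y : Fin 6 → ℤ) : ek K C6 (sv x) (sv y) = ek K C6 x y := by
  unfold ek eps
  rw [cc_sv]
theorem fk_sv (h k : Fin 6 → K) : fk C6 (sv h) (sv k) = fk C6 h k := by
  unfold fk
  rw [← Equiv.sum_comp tauE]
  refine Finset.sum_congr rfl fun i _ => ?_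
  rw [← Equiv.sum_comp tauE]
  refine Finset.sum_congr rfl fun j _ => ?_
  show sv h (tau i) * ((C6 (tau i) (tau j) : ℤ) : K) * sv k (tau j) = _
  rw [C6_tau]
  simp only [sv, tau_tau]
theorem zk_sv (x : Fin 6 → ℤ) : (zk (sv x) : Fin 6 → K) = sv (zk x) := rfl
theorem Sg_hh (h : Fin 6 → K) : Sg K (hh C6 h) = hh C6 (sv h) := rfl
theorem Sg_e (a : Rt C6) : Sg K (e K a) = e K (sg a) := by
  refine Prod.ext rfl (funext fun b => ?_)
  show (Pi.single a (1 : K) : Rt C6 → K) (sg b) = (Pi.single (sg a) (1 : K) : Rt C6 → K) b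
  by_cases h : b = sg a
  · subst h
    rw [sg_sg, Pi.single_eq_same, Pi.single_eq_same]
  · have h' : sg b ≠ a := fun h1 => h (by rw [← h1, sg_sg])
    rw [Pi.single_eq_of_ne h', Pi.single_eq_of_ne h]
theorem Sg_Sg (x : LL C6 K) : Sg K (Sg K x) = x := (Sg K).left_inv x
theorem Sg_br (x y : LL C6 K) : Sg K (br x y) = br (Sg K x) (Sg K y) := by
  show Sg K (brf x y) = brf (Sg K x) (Sg K y)
  refine Prod.ext ?_ (funext fun r => ?_)
  · show sv (-∑ a : Rt C6, (x.2 a * y.2 (ng a)) • (zk a.1 : Fin 6 → K))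
      = -∑ a : Rt C6, (x.2 (sg a) * y.2 (sg (ng a))) • (zk a.1 : Fin 6 → K)
    have h1 : ∑ a : Rt C6, (x.2 (sg a) * y.2 (sg (ng a))) • (zk a.1 : Fin 6 → K)
        = ∑ a : Rt C6, (x.2 a * y.2 (ng a)) • sv (zk a.1 : Fin 6 → K) := by
      rw [← Equiv.sum_comp sgE]
      refine Finset.sum_congr rfl fun a _ => ?_
      show (x.2 (sg (sg a)) * y.2 (sg (ng (sg a)))) • (zk (sg a).1 : Fin 6 → K) = _
      rw [sg_ng', sg_sg]
      rfl
    rw [h1]
    funext i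
    simp only [sv, Pi.neg_apply, Finset.sum_apply, Pi.smul_apply]
  · show fk C6 x.1 (zk (sg r).1) * y.2 (sg r) - fk C6 y.1 (zk (sg r).1) * x.2 (sg r)
        + (∑ a : Rt C6, if h : ip C6 ((sg r).1 - a.1) ((sg r).1 - a.1) = 2 then
            ek K C6 a.1 ((sg r).1 - a.1) * (x.2 a * y.2 ⟨(sg r).1 - a.1, h⟩) else 0)
      = fk C6 (sv x.1) (zk r.1) * y.2 (sg r) - fk C6 (sv y.1) (zk r.1) * x.2 (sg r)
        + (∑ a : Rt C6, if h : ip C6 (r.1 - a.1) (r.1 - a.1) = 2 then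
            ek K C6 a.1 (r.1 - a.1) * (x.2 (sg a) * y.2 (sg ⟨r.1 - a.1, h⟩)) else 0)
    have hf : ∀ z : Fin 6 → K, fk C6 (sv z) (zk r.1) = fk C6 z (zk (sg r).1) := by
      intro z
      rw [← fk_sv, sv_sv]
      rfl
    rw [hf, hf]
    congr 1
    refine Fintype.sum_equiv sgE _ _ fun a => ?_
    show _ = (if h : ip C6 (r.1 - (sg a).1) (r.1 - (sg a).1) = 2 then
            ek K C6 (sg a).1 (r.1 - (sg a).1) * (x.2 (sg (sg a)) * y.2 (sg ⟨r.1 - (sg a).1, h⟩))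
            else 0)
    have hv : r.1 - (sg a).1 = sv ((sg r).1 - a.1) := by
      funext i
      show r.1 i - a.1 (tau i) = r.1 (tau (tau i)) - a.1 (tau i)
      rw [tau_tau]
    by_cases h : ip C6 ((sg r).1 - a.1) ((sg r).1 - a.1) = 2
    · have h' : ip C6 (r.1 - (sg a).1) (r.1 - (sg a).1) = 2 := by
        rw [hv, ip_sv]
        exact h
      rw [dif_pos h, dif_pos h', sg_sg]
      have hy : sg ⟨r.1 - (sg a).1, h'⟩ = ⟨(sg r).1 - a.1, h⟩ := by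
        refine Subtype.ext ?_
        show sv (r.1 - (sg a).1) = _
        rw [hv, sv_sv]
      rw [hy]
      congr 1
      rw [hv]
      exact (ek_sv a.1 ((sg r).1 - a.1)).symm
    · have h' : ¬ ip C6 (r.1 - (sg a).1) (r.1 - (sg a).1) = 2 := by
        rw [hv, ip_sv]
        exact h
      rw [dif_neg h, dif_neg h']
theorem Sg_fm (x y : LL C6 K) : fm (Sg K x) (Sg K y) = fm x y := by
  show fk C6 (sv x.1) (sv y.1) - ∑ a : Rt C6, x.2 (sg a) * y.2 (sg (ng a))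
    = fk C6 x.1 y.1 - ∑ a : Rt C6, x.2 a * y.2 (ng a)
  rw [fk_sv]
  congr 1
  refine Fintype.sum_equiv sgE _ _ fun a => ?_
  show x.2 (sg a) * y.2 (sg (ng a)) = x.2 (sg a) * y.2 (ng (sg a))
  rw [sg_ng']
theorem Sg_mem_GF : Sg K ∈ GF K := by
  refine ⟨⟨Sg_br, Sg_fm⟩, ?_⟩
  intro g hg
  rw [Set.mem_singleton_iff.1 hg]
theorem mem_LF (x : LL C6 K) : x ∈ LF K ↔ Sg K x = x := by
  unfold LF
  rw [LinearMap.mem_ker, LinearMap.sub_apply, sub_eq_zero]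
  rfl
theorem mem_VF (x : LL C6 K) : x ∈ VF K ↔ Sg K x = -x := by
  unfold VF
  rw [LinearMap.mem_ker, LinearMap.add_apply, add_eq_zero_iff_eq_neg]
  rfl
theorem mem_LF' (x : LL C6 K) : x ∈ LF K ↔ sv x.1 = x.1 ∧ ∀ a, x.2 (sg a) = x.2 a := by
  rw [mem_LF, Prod.ext_iff, funext_iff (f := (Sg K x).2)]
  rfl
theorem mem_VF' (x : LL C6 K) : x ∈ VF K ↔ sv x.1 = -x.1 ∧ ∀ a, x.2 (sg a) = -x.2 a := by
  rw [mem_VF, Prod.ext_iff, funext_iff (f := (Sg K x).2)]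
  rfl
theorem VF_long (H : HypW C6 K) {x : LL C6 K} (hx : x ∈ VF K) {a : Rt C6} (ha : sg a = a) :
    x.2 a = 0 := by
  have h1 := ((mem_VF' x).1 hx).2 a
  rw [ha] at h1
  have h2 : (2 : K) * x.2 a = 0 := by
    rw [two_mul]
    nth_rewrite 1 [h1]
    exact neg_add_cancel _
  exact (mul_eq_zero.1 h2).resolve_left (two_ne H)
theorem LF_add_VF (H : HypW C6 K) (x : LL C6 K) : ∃ y ∈ LF K, ∃ z ∈ VF K, x = y + z := by
  refine ⟨(2⁻¹ : K) • (x + Sg K x), ?_, (2⁻¹ : K) • (x - Sg K x), ?_, ?_⟩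
  · rw [mem_LF, map_smul, map_add, Sg_Sg, add_comm]
  · rw [mem_VF, map_smul, map_sub, Sg_Sg, ← smul_neg, neg_sub]
  · rw [← smul_add, add_add_sub_cancel, ← two_smul K x, smul_smul, inv_mul_cancel₀ (two_ne H),
      one_smul]
theorem br_LF_LF {x y : LL C6 K} (hx : x ∈ LF K) (hy : y ∈ LF K) : br x y ∈ LF K := by
  rw [mem_LF] at *
  rw [Sg_br, hx, hy]
theorem br_LF_VF {x y : LL C6 K} (hx : x ∈ LF K) (hy : y ∈ VF K) : br x y ∈ VF K := by
  rw [mem_VF] at *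
  rw [mem_LF] at hx
  rw [Sg_br, hx, hy, map_neg]
theorem br_VF_LF {x y : LL C6 K} (hx : x ∈ VF K) (hy : y ∈ LF K) : br x y ∈ VF K := by
  rw [mem_VF] at *
  rw [mem_LF] at hy
  rw [Sg_br, hx, hy, map_neg, LinearMap.neg_apply]
theorem br_VF_VF {x y : LL C6 K} (hx : x ∈ VF K) (hy : y ∈ VF K) : br x y ∈ LF K := by
  rw [mem_VF] at hx hy
  rw [mem_LF, Sg_br, hx, hy, map_neg, map_neg, LinearMap.neg_apply, neg_neg]
theorem fm_LF_VF (H : HypW C6 K) {x y : LL C6 K} (hx : x ∈ LF K) (hy : y ∈ VF K) : fm x y = 0 := by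
  rw [mem_LF] at hx
  rw [mem_VF] at hy
  have h1 := Sg_fm x y
  rw [hx, hy, map_neg] at h1
  have h2 : (2 : K) * fm x y = 0 := by
    rw [two_mul]
    nth_rewrite 1 [← h1]
    exact neg_add_cancel _
  exact (mul_eq_zero.1 h2).resolve_left (two_ne H)

theorem GF_le_GG : GF K ≤ GG C6 K := fun _ h => h.1
theorem GF_Sg {g : LL C6 K ≃ₗ[K] LL C6 K} (hg : g ∈ GF K) (x : LL C6 K) :
    g (Sg K x) = Sg K (g x) := by
  have h1 : Sg K * g = g * Sg K := Subgroup.mem_centralizer_iff.1 hg.2 (Sg K) rfl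
  exact (LinearEquiv.congr_fun h1 x).symm
theorem mem_GF {g : LL C6 K ≃ₗ[K] LL C6 K} (hg : g ∈ GG C6 K)
    (h : ∀ x, g (Sg K x) = Sg K (g x)) : g ∈ GF K := by
  refine ⟨hg, ?_⟩
  intro s hs
  rw [Set.mem_singleton_iff.1 hs]
  exact LinearEquiv.ext fun x => (h x).symm
theorem GF_LF {g : LL C6 K ≃ₗ[K] LL C6 K} (hg : g ∈ GF K) (x : LL C6 K) :
    g x ∈ LF K ↔ x ∈ LF K := by
  rw [mem_LF, mem_LF, ← GF_Sg hg]
  exact g.injective.eq_iff
theorem GF_VF {g : LL C6 K ≃ₗ[K] LL C6 K} (hg : g ∈ GF K) (x : LL C6 K) :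
    g x ∈ VF K ↔ x ∈ VF K := by
  rw [mem_VF, mem_VF, ← GF_Sg hg, ← map_neg]
  exact g.injective.eq_iff

end Pool.Agent.H31.F4
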