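import Pool.Agent.H31.F4.Sig

/-!
# FF-03b: the vectors `Df`, `wf`, `pv`; generators of `LF` and `VF`

See the header of `Sig`.
`zk_cv_span`: for invariant `h = ∑ c_a zk a` (`zk_span`), `2 h = h + sv h = ∑ c_a zk (a + sg a)`, and
`a + sg a = cv a` or `2 cv a`.  `zk_anti_span`: `2 h = h - sv h`.
-/

namespace Pool.Agent.H31.F4

open Pool.Agent.H33.EL (ip cc eps Rt ng zk ek fk LL hh e brf fmf br fm IsExt exl ex xr hd L0 GG T1 TT NN SF cj wt)

variable {K : Type} [Field K]

theorem Df_long {a : Rt C6} (h : sg a = a) : Df K a = e K a := if_pos h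
theorem Df_short {a : Rt C6} (h : sg a ≠ a) : Df K a = e K a + e K (sg a) := if_neg h
theorem pv_long {a : Rt C6} (h : sg a = a) : pv K a = e K a := if_pos h
theorem pv_short {a : Rt C6} (h : sg a ≠ a) : pv K a = wf K a := if_neg h
theorem SigB_e_snd (a d : Rt C6) : (e K a).2 d = if d = a then 1 else 0 := by
  by_cases h : d = a
  · rw [if_pos h, h]
    exact e_snd_self a
  · rw [if_neg h]
    exact e_snd_ne h

theorem SigB_cancel {M : Type} [AddCommGroup M] [Module K M] (h2 : (2 : K) ≠ 0) {x y : M}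
    (h : (2 : K) • x = (2 : K) • y) : x = y := by
  have h3 := congrArg (fun z => (2⁻¹ : K) • z) h
  simpa only [smul_smul, inv_mul_cancel₀ h2, one_smul] using h3

/-- `sg` as a permutation of the roots -/
def SigB_sgE : Equiv.Perm (Rt C6) := ⟨sg, sg, sg_sg, sg_sg⟩

theorem SigB_reindex (x : LL C6 K) :
    ∑ a : Rt C6, x.2 a • e K (sg a) = ∑ a : Rt C6, x.2 (sg a) • e K a := by
  rw [← Equiv.sum_comp SigB_sgE]
  refine Finset.sum_congr rfl fun a _ => ?_
  show x.2 (sg a) • e K (sg (sg a)) = _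
  rw [sg_sg]

theorem SigB_dbl_LF (x : LL C6 K) (h : ∀ a, x.2 (sg a) = x.2 a) :
    (2 : K) • x = (2 : K) • hh C6 x.1 + ∑ a : Rt C6, x.2 a • (e K a + e K (sg a)) := by
  have h1 := SigB_reindex x
  simp only [h] at h1
  simp only [smul_add, Finset.sum_add_distrib]
  rw [h1]
  conv_lhs => rw [decomp x]
  rw [smul_add, two_smul K (∑ a : Rt C6, x.2 a • e K a)]

theorem SigB_dbl_VF (x : LL C6 K) (h : ∀ a, x.2 (sg a) = -x.2 a) :
    (2 : K) • x = (2 : K) • hh C6 x.1 + ∑ a : Rt C6, x.2 a • (e K a - e K (sg a)) := by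
  have h1 := SigB_reindex x
  simp only [h, neg_smul, Finset.sum_neg_distrib] at h1
  simp only [smul_sub, Finset.sum_sub_distrib]
  rw [h1, sub_neg_eq_add]
  conv_lhs => rw [decomp x]
  rw [smul_add, two_smul K (∑ a : Rt C6, x.2 a • e K a)]

theorem Df_mem (a : Rt C6) : Df K a ∈ LF K := by
  rw [mem_LF]
  by_cases h : sg a = a
  · rw [Df_long h, Sg_e, h]
  · rw [Df_short h, map_add, Sg_e, Sg_e, sg_sg, add_comm]
theorem wf_mem (a : Rt C6) : wf K a ∈ VF K := by
  rw [mem_VF]
  unfold wf
  rw [map_sub, Sg_e, Sg_e, sg_sg, neg_sub]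
theorem Df_sg (a : Rt C6) : Df K (sg a) = Df K a := by
  by_cases h : sg a = a
  · rw [h]
  · rw [Df_short h, Df_short ((sg_ne_iff a).2 h), sg_sg, add_comm]
theorem wf_sg (a : Rt C6) : wf K (sg a) = -wf K a := by
  unfold wf
  rw [sg_sg, neg_sub]
theorem Df_Eq4 {a b : Rt C6} (h : Eq4 a b) : Df K b = Df K a := by
  rcases h with h | h
  · rw [h]
  · rw [h, Df_sg]
/-- the point vector of another representative -/
theorem pv_Eq4 {a b : Rt C6} (h : Eq4 a b) : pv K b = pv K a ∨ pv K b = -pv K a := by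
  rcases h with h | h
  · left
    rw [h]
  · by_cases h1 : sg a = a
    · left
      rw [h, h1]
    · right
      rw [h, pv_short h1, pv_short ((sg_ne_iff a).2 h1), wf_sg]
theorem Df_ne_zero (a : Rt C6) : Df K a ≠ 0 := by
  intro h
  have h1 := congrArg (fun u : LL C6 K => u.2 a) h
  by_cases h2 : sg a = a
  · rw [Df_long h2] at h1
    exact one_ne_zero ((e_snd_self (K := K) a).symm.trans h1)
  · rw [Df_short h2] at h1
    have h3 : (e K a).2 a + (e K (sg a)).2 a = (0 : K) := h1
    rw [e_snd_self, e_snd_ne (Ne.symm h2), add_zero] at h3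
    exact one_ne_zero h3
theorem wf_ne_zero (H : HypW C6 K) {a : Rt C6} (h : sg a ≠ a) : wf K a ≠ 0 := by
  intro h0
  have h1 := congrArg (fun u : LL C6 K => u.2 a) h0
  have h3 : (e K a).2 a - (e K (sg a)).2 a = (0 : K) := h1
  rw [e_snd_self, e_snd_ne (Ne.symm h), sub_zero] at h3
  exact one_ne_zero h3
theorem pv_ne_zero (H : HypW C6 K) (a : Rt C6) : pv K a ≠ 0 := by
  by_cases h : sg a = a
  · rw [pv_long h]
    exact e_ne_zero a
  · rw [pv_short h]
    exact wf_ne_zero H h
theorem e_eq_half (H : HypW C6 K) {a : Rt C6} (h : sg a ≠ a) :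
    e K a = (2⁻¹ : K) • (Df K a + wf K a) := by
  have h2 := two_ne H
  rw [Df_short h]
  unfold wf
  have h3 : e K a + e K (sg a) + (e K a - e K (sg a)) = (2 : K) • e K a := by
    rw [two_smul]
    abel
  rw [h3, smul_smul, inv_mul_cancel₀ h2, one_smul]
theorem Df_snd (a d : Rt C6) : (Df K a).2 d = if Eq4 a d then 1 else 0 := by
  by_cases h : sg a = a
  · rw [Df_long h, SigB_e_snd]
    refine if_congr ?_ rfl rfl
    unfold Eq4
    rw [h, or_self_iff]
  · rw [Df_short h]
    show (e K a).2 d + (e K (sg a)).2 d = _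
    rw [SigB_e_snd, SigB_e_snd]
    by_cases h1 : d = a
    · have h2 : Eq4 a d := Or.inl h1
      have h3 : d ≠ sg a := fun h4 => h (h4.symm.trans h1)
      rw [if_pos h1, if_neg h3, if_pos h2, add_zero]
    · by_cases h3 : d = sg a
      · have h2 : Eq4 a d := Or.inr h3
        rw [if_neg h1, if_pos h3, if_pos h2, zero_add]
      · have h2 : ¬ Eq4 a d := fun h4 => h4.elim h1 h3
        rw [if_neg h1, if_neg h3, if_neg h2, add_zero]
theorem Df_fst (a : Rt C6) : (Df K a).1 = 0 := by
  by_cases h : sg a = a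
  · rw [Df_long h]
    rfl
  · rw [Df_short h]
    show (e K a).1 + (e K (sg a)).1 = 0
    rw [e_fst, e_fst, add_zero]
theorem wf_snd_self {a : Rt C6} (h : sg a ≠ a) : (wf K a).2 a = 1 ∧ (wf K a).2 (sg a) = -1 := by
  constructor
  · show (e K a).2 a - (e K (sg a)).2 a = 1
    rw [e_snd_self, e_snd_ne (Ne.symm h), sub_zero]
  · show (e K a).2 (sg a) - (e K (sg a)).2 (sg a) = -1
    rw [e_snd_self, e_snd_ne h, zero_sub]
theorem wf_snd_ne {a d : Rt C6} (h : ¬ Eq4 a d) : (wf K a).2 d = 0 := by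
  show (e K a).2 d - (e K (sg a)).2 d = 0
  rw [e_snd_ne (fun h1 => h (Or.inl h1)), e_snd_ne (fun h1 => h (Or.inr h1)), sub_zero]
theorem wf_fst (a : Rt C6) : (wf K a).1 = 0 := by
  show (e K a).1 - (e K (sg a)).1 = 0
  rw [e_fst, e_fst, sub_zero]
theorem pv_snd_self (a : Rt C6) : (pv K a).2 a = 1 := by
  by_cases h : sg a = a
  · rw [pv_long h]
    exact e_snd_self a
  · rw [pv_short h]
    exact (wf_snd_self h).1
theorem pv_snd_ne {a d : Rt C6} (h : ¬ Eq4 a d) : (pv K a).2 d = 0 := by
  by_cases h1 : sg a = a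
  · rw [pv_long h1]
    exact e_snd_ne (fun h2 => h (Or.inl h2))
  · rw [pv_short h1]
    exact wf_snd_ne h
theorem pv_fst (a : Rt C6) : (pv K a).1 = 0 := by
  by_cases h1 : sg a = a
  · rw [pv_long h1]
    exact e_fst a
  · rw [pv_short h1]
    exact wf_fst a

/-- nondegeneracy for invariant toral vectors -/
theorem nds (H : HypW C6 K) {h : Fin 6 → K} (hs : sv h = h)
    (h0 : ∀ a : Rt C6, fk C6 h (zk a.1) = 0) : h = 0 := by
  have h3 : h 3 = h 2 := congrFun hs 2
  have h5 : h 5 = h 4 := congrFun hs 4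
  have key : ∀ i : Fin 6, fk C6 h (zk (Pi.single i 1)) = 0 :=
    fun i => h0 ⟨Pi.single i 1, ip_simple H i⟩
  have e0 := key 0
  have e1 := key 1
  have e2 := key 2
  have e4 := key 4
  have hk : ∀ (i : Fin 6), fk C6 h (zk (Pi.single i 1)) = ∑ j, h j * ((C6 j i : ℤ) : K) := by
    intro i
    unfold fk
    refine Finset.sum_congr rfl fun j _ => ?_
    rw [Finset.sum_eq_single i]
    · simp [zk]
    · intro l _ hl
      simp [zk, Pi.single_eq_of_ne hl]
    · intro hi
      exact absurd (Finset.mem_univ i) hi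
  rw [hk] at e0 e1 e2 e4
  simp only [Fin.sum_univ_six, C6] at e0 e1 e2 e4
  simp at e0 e1 e2 e4
  have g4 : h 4 = 0 := by
    linear_combination 2 * e0 + e1 + 3 * e2 + 2 * e4 + 2 * h3
  have g2 : h 2 = 0 := by
    linear_combination 2 * g4 - e4
  have g0 : h 0 = 0 := by
    linear_combination 2 * g2 - g4 - e2
  have g1 : h 1 = 0 := by
    linear_combination 2 * g0 - e0 - g2 - (h3.trans g2)
  funext i
  fin_cases i
  · exact g0
  · exact g1
  · exact g2
  · exact h3.trans g2
  · exact g4
  · exact h5.trans g4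

theorem ext_LF (H : HypW C6 K) {M : Type} [AddCommGroup M] [Module K M] {f g : LL C6 K →ₗ[K] M}
    (h1 : ∀ h : Fin 6 → K, sv h = h → f (hh C6 h) = g (hh C6 h))
    (h2 : ∀ a : Rt C6, f (Df K a) = g (Df K a)) : ∀ x ∈ LF K, f x = g x := by
  intro x hx
  have h2' := two_ne H
  have h3 := SigB_dbl_LF x ((mem_LF' x).1 hx).2
  have h4 : (2 : K) • f x = (2 : K) • g x := by
    rw [← map_smul, ← map_smul, h3, map_add, map_add, map_smul, map_smul, map_sum, map_sum,
      h1 _ ((mem_LF' x).1 hx).1]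
    refine congrArg _ (Finset.sum_congr rfl fun a _ => ?_)
    rw [map_smul, map_smul]
    refine congrArg _ ?_
    by_cases h : sg a = a
    · have h5 := h2 a
      rw [Df_long h] at h5
      rw [h, map_add, map_add, h5]
    · have h5 := h2 a
      rw [Df_short h] at h5
      exact h5
  exact SigB_cancel h2' h4

theorem ext_VF (H : HypW C6 K) {M : Type} [AddCommGroup M] [Module K M] {f g : LL C6 K →ₗ[K] M}
    (h1 : ∀ h : Fin 6 → K, sv h = -h → f (hh C6 h) = g (hh C6 h))
    (h2 : ∀ a : Rt C6, sg a ≠ a → f (wf K a) = g (wf K a)) : ∀ x ∈ VF K, f x = g x := by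
  intro x hx
  have h2' := two_ne H
  have h3 := SigB_dbl_VF x ((mem_VF' x).1 hx).2
  have h4 : (2 : K) • f x = (2 : K) • g x := by
    rw [← map_smul, ← map_smul, h3, map_add, map_add, map_smul, map_smul, map_sum, map_sum,
      h1 _ ((mem_VF' x).1 hx).1]
    refine congrArg _ (Finset.sum_congr rfl fun a _ => ?_)
    rw [map_smul, map_smul]
    refine congrArg _ ?_
    by_cases h : sg a = a
    · rw [h, sub_self, map_zero, map_zero]
    · exact h2 a h
  exact SigB_cancel h2' h4

/-- invariant toral vectors are spanned by the coroots -/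
theorem zk_cv_span (H : HypW C6 K) {h : Fin 6 → K} (hs : sv h = h) :
    h ∈ Submodule.span K {k : Fin 6 → K | ∃ a : Rt C6, k = zk (cv a)} := by
  have h2 := two_ne H
  have h3 : ∀ k ∈ Submodule.span K {k : Fin 6 → K | ∃ a : Rt C6, k = zk a.1},
      k + sv k ∈ Submodule.span K {k : Fin 6 → K | ∃ a : Rt C6, k = zk (cv a)} := by
    intro k hk
    induction hk using Submodule.span_induction with
    | mem k hk =>
      obtain ⟨a, rfl⟩ := hk
      rw [← zk_sv]
      by_cases h : sg a = a
      · have h4 : sv a.1 = a.1 := congrArg Subtype.val h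
        have h5 : cv a = a.1 := if_pos h
        rw [h4]
        refine Submodule.add_mem _ ?_ ?_
        · exact Submodule.subset_span ⟨a, by rw [h5]⟩
        · exact Submodule.subset_span ⟨a, by rw [h5]⟩
      · have h5 : cv a = a.1 + (sg a).1 := if_neg h
        refine Submodule.subset_span ⟨a, ?_⟩
        rw [h5, zk_add]
        rfl
    | zero =>
      have h4 : (0 : Fin 6 → K) + sv 0 = 0 := by
        funext i
        simp [sv]
      rw [h4]
      exact Submodule.zero_mem _
    | add x y _ _ hx hy =>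
      have h4 : x + y + sv (x + y) = (x + sv x) + (y + sv y) := by
        funext i
        simp only [sv, Pi.add_apply]
        ring
      rw [h4]
      exact Submodule.add_mem _ hx hy
    | smul c x _ hx =>
      have h4 : c • x + sv (c • x) = c • (x + sv x) := by
        funext i
        simp only [sv, Pi.add_apply, Pi.smul_apply, smul_eq_mul]
        ring
      rw [h4]
      exact Submodule.smul_mem _ _ hx
  have h6 := h3 h (zk_span H h)
  rw [hs] at h6
  have h7 : h = (2⁻¹ : K) • (h + h) := by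
    rw [← two_smul K h, smul_smul, inv_mul_cancel₀ h2, one_smul]
  rw [h7]
  exact Submodule.smul_mem _ _ h6

/-- anti-invariant toral vectors -/
theorem zk_anti_span (H : HypW C6 K) {h : Fin 6 → K} (hs : sv h = -h) :
    h ∈ Submodule.span K {k : Fin 6 → K | ∃ a : Rt C6, k = zk (a.1 - (sg a).1)} := by
  have h2 := two_ne H
  have h3 : ∀ k ∈ Submodule.span K {k : Fin 6 → K | ∃ a : Rt C6, k = zk a.1},
      k - sv k ∈ Submodule.span K {k : Fin 6 → K | ∃ a : Rt C6, k = zk (a.1 - (sg a).1)} := by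
    intro k hk
    induction hk using Submodule.span_induction with
    | mem k hk =>
      obtain ⟨a, rfl⟩ := hk
      rw [← zk_sv]
      refine Submodule.subset_span ⟨a, ?_⟩
      rw [zk_sub]
      rfl
    | zero =>
      have h4 : (0 : Fin 6 → K) - sv 0 = 0 := by
        funext i
        simp [sv]
      rw [h4]
      exact Submodule.zero_mem _
    | add x y _ _ hx hy =>
      have h4 : x + y - sv (x + y) = (x - sv x) + (y - sv y) := by
        funext i
        simp only [sv, Pi.add_apply, Pi.sub_apply]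
        ring
      rw [h4]
      exact Submodule.add_mem _ hx hy
    | smul c x _ hx =>
      have h4 : c • x - sv (c • x) = c • (x - sv x) := by
        funext i
        simp only [sv, Pi.sub_apply, Pi.smul_apply, smul_eq_mul]
        ring
      rw [h4]
      exact Submodule.smul_mem _ _ hx
  have h6 := h3 h (zk_span H h)
  rw [hs, sub_neg_eq_add] at h6
  have h7 : h = (2⁻¹ : K) • (h + h) := by
    rw [← two_smul K h, smul_smul, inv_mul_cancel₀ h2, one_smul]
  rw [h7]
  exact Submodule.smul_mem _ _ h6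

end Pool.Agent.H31.F4
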