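import Pool.Agent.H31.F4.Enum
import Pool.Agent.H31.F4.Lpos

/-!
# Definitions for the final statement in type F_4 (helper31, MP_a408f4_al)

The Chevalley group of type F_4 as a group of permutations of the Chevalley Lie algebra of type E_6 over `K`
(as a module for F_4 this is the sum of the adjoint module, of dimension 52, and a module of dimension 26):
it is generated by the root groups `exp(s ad D_a)`, `D_a = e_a` for a root `a` of E_6 fixed by the graph
automorphism (long roots of F_4), and `D_a = e_a + e_(sg a)` for the other orbits of the graph automorphism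
(short roots of F_4).  For F_4 the root lattice is the weight lattice, so this is the Chevalley group `G(F_4, K)`.
The roots of F_4 are the orbits of `sg` on `Rt C6`; a set of roots of F_4 is an `sg`-invariant subset.
-/

namespace Pool.Agent.H31.F4

open Pool.Agent.H33.EL (ip cc eps Rt ng zk ek fk LL hh e brf fmf br fm IsExt exl ex xr hd L0 GG T1 TT NN SF cj wt)

variable {K : Type} [Field K]

/-- `⟨T, X_a : a ∈ S⟩` in any group -/
def GS4 {G : Type} [Group G] (T : Subgroup G) (X : Rt C6 → Subgroup G) (S : Set (Rt C6)) :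
    Subgroup G := T ⊔ ⨆ a ∈ S, X a

/-- `G(S) ≤ F ≤ N(S)` for exactly one closed set `S` of roots of F_4 -/
def StdDesc4 {G : Type} [Group G] (T : Subgroup G) (X : Rt C6 → Subgroup G) (F : Subgroup G) :
    Prop :=
  ∃! S : Set (Rt C6), Cl4 S ∧ GS4 T X S ≤ F ∧ ∀ f ∈ F, ∀ x, x ∈ GS4 T X S ↔
    f * x * f⁻¹ ∈ GS4 T X S

/-- `exp(s ad D_a) x = x + s [D_a,x] + (s²/2) [D_a,[D_a,x]]` -/
noncomputable def xfP {K : Type} [Field K] (a : Rt C6) (s : K) (x : LL C6 K) : LL C6 K :=
  x + s • brf (Df K a) x + (s ^ 2 / 2) • brf (Df K a) (brf (Df K a) x)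

/-- `h_a(c)`: multiplication by `c^⟨b,a^∨⟩` on `e_b`, identity on the toral part -/
def tfP {K : Type} [Field K] (a : Rt C6) (c : K) (x : LL C6 K) : LL C6 K :=
  (x.1, fun b => c ^ dg a b * x.2 b)

/-- the root subgroup -/
def XP4 (K : Type) [Field K] (a : Rt C6) : Subgroup (Equiv.Perm (LL C6 K)) :=
  Subgroup.closure {g | ∃ s : K, ∀ x, g x = xfP a s x}

/-- the split torus -/
def TP4 (K : Type) [Field K] : Subgroup (Equiv.Perm (LL C6 K)) :=
  Subgroup.closure {g | ∃ (a : Rt C6) (c : K), c ≠ 0 ∧ ∀ x, g x = tfP a c x}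

/-- the Chevalley group of type F_4 -/
def GP4 (K : Type) [Field K] : Subgroup (Equiv.Perm (LL C6 K)) := ⨆ a : Rt C6, XP4 K a

/-- every overgroup of the torus has a standard description, for all groups `G` over `GP4 K` -/
def AllStd4 (K : Type) [Field K] : Prop :=
  TP4 K ≤ GP4 K ∧
  ∀ (G : Type) [Group G] (π : G →* Equiv.Perm (LL C6 K)), π.range = GP4 K →
    ∀ (T : Subgroup G) (X : Rt C6 → Subgroup G), T.map π = TP4 K → π.ker ≤ T →
      (∀ a, (X a).map π = XP4 K a) → ∀ F : Subgroup G, T ≤ F → StdDesc4 T X F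

end Pool.Agent.H31.F4
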