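import Pool.Agent.H31.F4.Main4
import Pool.Agent.H31.F4.StdD4

/-!
# FF-75: the standard description in the group `GF` (adapt EL/Std0.lean)

`T4 ≤ F ≤ GF`.  `S = SF4 F`, `Cl4` (`Cl4_SF4`), `GS4 T4 Xg4 S ≤ F`.
Normality: let `f ∈ F`.  `dst_all4` with `g = f`: `c ∈ Fo4 F`, `m = c⁻¹ f ∈ NN`.  `Fo4 F ≤ F` (`Fo4_le`), so `m ∈ F`.  `m`
normalises `T4` (`NN4_conj`) and for `a ∈ S` `m (xf a s) m⁻¹ = xf (w a) (k s) ∈ F` for all `s`, so `w a ∈ S` (`NN4_perm`, `conj_xf`).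
`Fo4 F = GS4 T4 Xg4 S` normalises itself.  So `f` (and `f⁻¹`) normalises `GS4`.
Uniqueness: let `S2` be another one.  `S2 ⊆ SF4 F` clear.  Let `a ∈ SF4 F`, `x = xf a 1`, `t ∈ T4` with `wt t a ≠ 1` (`T4_sep0`).
`x t x⁻¹ ∈ GS4 S2`, so `x t x⁻¹ t⁻¹ = xf a (1 - wt t a)` (`T4_conj_xf`) is in `GS4 S2`.  `GS4 S2` maps `UR K S2` to itself
(`Gn_UR` with `Gn K S2`, `Cl4 S2`; `T4` diagonal).  `xf a u (hh h) = hh h - u (h,a) Df a` (`xf_hh`) with `h = zk (cv a)`,
`(h,a) = 2`, `u ≠ 0`, so `a ∈ S2`.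
`T4_cv`: `T4 K` is generated by the `hd C6 (cv a) c`: for `sv y = y`: `y = y0 e0 + y1 e1 + y2 (e2 + e3) + y4 (e4 + e5)`, a sum of
multiples of `cv` of the simple roots 0, 1, 2, 4; `hd (y + y') c = hd y c * hd y' c`.
-/

namespace Pool.Agent.H31.F4

open Pool.Agent.H33.EL (ip cc eps Rt ng zk ek fk LL hh e brf fmf br fm IsExt exl ex xr hd L0 GG T1 TT NN SF cj wt)

variable {K : Type} [Field K]

/-- the root subgroup in `GL(LL)` -/
def Xg4 (K : Type) [Field K] (a : Rt C6) : Subgroup (LL C6 K ≃ₗ[K] LL C6 K) :=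
  Subgroup.closure {g | ∃ s : K, g = xf a s}

theorem T4_cv (H : HypW C6 K) : T4 K = Subgroup.closure {g : LL C6 K ≃ₗ[K] LL C6 K |
    ∃ (a : Rt C6) (c : Kˣ), g = hd C6 (cv a) c} := by
  apply le_antisymm
  · unfold T4
    rw [Subgroup.closure_le]
    rintro _ ⟨y, c, hy, rfl⟩
    let G : AddSubgroup (Fin 6 → ℤ) :=
      { carrier := {y | hd C6 y c ∈ Subgroup.closure {g : LL C6 K ≃ₗ[K] LL C6 K |
          ∃ (a : Rt C6) (c : Kˣ), g = hd C6 (cv a) c}}
        add_mem' := by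
          intro y z hy hz
          show hd C6 (y + z) c ∈ Subgroup.closure {g : LL C6 K ≃ₗ[K] LL C6 K |
            ∃ (a : Rt C6) (c : Kˣ), g = hd C6 (cv a) c}
          rw [hd_add]
          exact mul_mem hy hz
        zero_mem' := by
          show hd C6 0 c ∈ Subgroup.closure {g : LL C6 K ≃ₗ[K] LL C6 K |
            ∃ (a : Rt C6) (c : Kˣ), g = hd C6 (cv a) c}
          rw [TorA_hd_zero]
          exact one_mem _
        neg_mem' := by
          intro y hy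
          show hd C6 (-y) c ∈ Subgroup.closure {g : LL C6 K ≃ₗ[K] LL C6 K |
            ∃ (a : Rt C6) (c : Kˣ), g = hd C6 (cv a) c}
          have h : (hd C6 (-y) c : LL C6 K ≃ₗ[K] LL C6 K) = (hd C6 y c)⁻¹ := by
            apply eq_inv_of_mul_eq_one_left
            rw [← hd_add, neg_add_cancel, TorA_hd_zero]
          rw [h]
          exact inv_mem hy }
    have h1 : ∀ a : Rt C6, cv a ∈ G := fun a => Subgroup.subset_closure ⟨a, c, rfl⟩
    -- the simple roots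
    have h2 : ∀ i : Fin 6, (if sv (Pi.single i 1 : Fin 6 → ℤ) = Pi.single i 1 then
        (Pi.single i 1 : Fin 6 → ℤ) else Pi.single i 1 + sv (Pi.single i 1)) ∈ G := by
      intro i
      have h3 := h1 ⟨Pi.single i 1, ip_simple H i⟩
      have h4 : cv ⟨Pi.single i 1, ip_simple H i⟩ =
          if sv (Pi.single i 1 : Fin 6 → ℤ) = Pi.single i 1 then
            (Pi.single i 1 : Fin 6 → ℤ) else Pi.single i 1 + sv (Pi.single i 1) := by
        unfold cv
        exact if_congr Subtype.ext_iff rfl rfl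
      rwa [h4] at h3
    have e0 : (Pi.single 0 1 : Fin 6 → ℤ) ∈ G := by
      have h3 := h2 0
      rwa [if_pos (by decide)] at h3
    have e1 : (Pi.single 1 1 : Fin 6 → ℤ) ∈ G := by
      have h3 := h2 1
      rwa [if_pos (by decide)] at h3
    have e2 : (Pi.single 2 1 + Pi.single 3 1 : Fin 6 → ℤ) ∈ G := by
      have h3 := h2 2
      rw [if_neg (by decide)] at h3
      have h4 : sv (Pi.single 2 1 : Fin 6 → ℤ) = Pi.single 3 1 := by decide
      rwa [h4] at h3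
    have e4 : (Pi.single 4 1 + Pi.single 5 1 : Fin 6 → ℤ) ∈ G := by
      have h3 := h2 4
      rw [if_neg (by decide)] at h3
      have h4 : sv (Pi.single 4 1 : Fin 6 → ℤ) = Pi.single 5 1 := by decide
      rwa [h4] at h3
    have y3 : y 3 = y 2 := congrFun hy 2
    have y5 : y 5 = y 4 := congrFun hy 4
    have h5 : y = y 0 • (Pi.single 0 1 : Fin 6 → ℤ) + y 1 • (Pi.single 1 1 : Fin 6 → ℤ) +
        y 2 • (Pi.single 2 1 + Pi.single 3 1 : Fin 6 → ℤ) +
        y 4 • (Pi.single 4 1 + Pi.single 5 1 : Fin 6 → ℤ) := by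
      funext i
      fin_cases i <;> simp [y3, y5]
    have h6 : y ∈ G := by
      rw [h5]
      exact G.add_mem (G.add_mem (G.add_mem (G.zsmul_mem e0 _) (G.zsmul_mem e1 _))
        (G.zsmul_mem e2 _)) (G.zsmul_mem e4 _)
    exact h6
  · rw [Subgroup.closure_le]
    rintro _ ⟨a, c, rfl⟩
    exact hd_mem_T4 (sv_cv a) c

/-- generators of `GS4` -/
theorem Std04_le {S : Set (Rt C6)} {D : Subgroup (LL C6 K ≃ₗ[K] LL C6 K)} (h1 : T4 K ≤ D)
    (h2 : ∀ a ∈ S, ∀ s : K, xf a s ∈ D) : GS4 (T4 K) (Xg4 K) S ≤ D := by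
  unfold GS4
  refine sup_le h1 (iSup₂_le fun a ha => ?_)
  show Subgroup.closure {g | ∃ s : K, g = xf a s} ≤ D
  rw [Subgroup.closure_le]
  rintro _ ⟨s, rfl⟩
  exact h2 a ha s

theorem Std04_T {S : Set (Rt C6)} : T4 K ≤ GS4 (T4 K) (Xg4 K) S := le_sup_left

theorem Std04_xf {S : Set (Rt C6)} {a : Rt C6} (ha : a ∈ S) (s : K) :
    xf a s ∈ GS4 (T4 K) (Xg4 K) S := by
  have h1 : Xg4 K a ≤ GS4 (T4 K) (Xg4 K) S := by
    unfold GS4
    refine le_trans ?_ le_sup_right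
    exact le_iSup₂ (f := fun (a : Rt C6) (_ : a ∈ S) => Xg4 K a) a ha
  exact h1 (Subgroup.subset_closure ⟨s, rfl⟩)

/-- elements of `NN ⊓ F` conjugate `GS4 (SF4 F)` into itself -/
theorem Std04_conj (H : HypW C6 K) (F : Subgroup (LL C6 K ≃ₗ[K] LL C6 K)) (hF : F ≤ GF K)
    {m : LL C6 K ≃ₗ[K] LL C6 K} (hm : m ∈ NN C6 K) (hmF : m ∈ F) :
    ∀ x ∈ GS4 (T4 K) (Xg4 K) (SF4 F), m * x * m⁻¹ ∈ GS4 (T4 K) (Xg4 K) (SF4 F) := by
  have key : GS4 (T4 K) (Xg4 K) (SF4 F) ≤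
      (GS4 (T4 K) (Xg4 K) (SF4 F)).comap (MulAut.conj m).toMonoidHom := by
    refine Std04_le ?_ ?_
    · intro t ht
      show m * t * m⁻¹ ∈ GS4 (T4 K) (Xg4 K) (SF4 F)
      exact Std04_T (NN4_conj H hm (hF hmF) t ht)
    · intro a ha s
      show m * xf a s * m⁻¹ ∈ GS4 (T4 K) (Xg4 K) (SF4 F)
      obtain ⟨w, k, hk, -, -, -, hw, -⟩ := NN4_perm H hm (hF hmF)
      rw [conj_xf hm.1 (hw a)]
      refine Std04_xf ?_ _
      intro s'
      have h1 : xf (w a) s' = m * xf a ((k a)⁻¹ * s') * m⁻¹ := by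
        rw [conj_xf hm.1 (hw a), mul_inv_cancel_left₀ (hk a)]
      rw [h1]
      exact F.mul_mem (F.mul_mem hmF (ha _)) (F.inv_mem hmF)
  intro x hx
  exact key hx

theorem Std04_norm (H : HypW C6 K) (F : Subgroup (LL C6 K ≃ₗ[K] LL C6 K)) (hF : F ≤ GF K)
    {m : LL C6 K ≃ₗ[K] LL C6 K} (hm : m ∈ NN C6 K) (hmF : m ∈ F) :
    m ∈ Subgroup.normalizer
      (GS4 (T4 K) (Xg4 K) (SF4 F) : Set (LL C6 K ≃ₗ[K] LL C6 K)) := by
  rw [Subgroup.mem_normalizer_iff]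
  intro x
  constructor
  · exact Std04_conj H F hF hm hmF x
  · intro hx
    have h1 := Std04_conj H F hF ((NN C6 K).inv_mem hm) (F.inv_mem hmF) _ hx
    have h2 : m⁻¹ * (m * x * m⁻¹) * m⁻¹⁻¹ = x := by group
    rw [h2] at h1
    exact h1

theorem Std04_Fo_norm (F : Subgroup (LL C6 K ≃ₗ[K] LL C6 K)) :
    Fo4 F ≤ Subgroup.normalizer
      (GS4 (T4 K) (Xg4 K) (SF4 F) : Set (LL C6 K ≃ₗ[K] LL C6 K)) := by
  unfold Fo4
  rw [Subgroup.closure_le]
  rintro x (hx | ⟨a, ha, s, rfl⟩)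
  · exact Subgroup.le_normalizer (Std04_T hx)
  · exact Subgroup.le_normalizer (Std04_xf ha s)

/-- the stabiliser of the vectors supported on `S` -/
def Std04_stab (K : Type) [Field K] (S : Set (Rt C6)) : Subgroup (LL C6 K ≃ₗ[K] LL C6 K) where
  carrier := {g | ∀ x, g x ∈ UR K S ↔ x ∈ UR K S}
  one_mem' := fun _ => Iff.rfl
  mul_mem' := by
    intro a b ha hb x
    rw [LinearEquiv.mul_apply, ha, hb]
  inv_mem' := by
    intro a ha x
    rw [← ha]
    have h1 : a (a⁻¹ x) = x := a.apply_symm_apply x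
    rw [h1]

theorem Std04_TU (H : HypW C6 K) {S : Set (Rt C6)} {t : LL C6 K ≃ₗ[K] LL C6 K} (ht : t ∈ TT C6 K) :
    ∀ x ∈ UR K S, t x ∈ UR K S := by
  intro x hx d hd
  rw [nor_coord H ht x]
  show wt t d * x.2 d = 0
  rw [hx d hd, mul_zero]

theorem Std04_le_stab (H : HypW C6 K) {S : Set (Rt C6)} (hS : Cl4 S) :
    GS4 (T4 K) (Xg4 K) S ≤ Std04_stab K S := by
  refine Std04_le ?_ ?_
  · intro t ht x
    have h1 := T4_le_TT H ht
    constructor
    · intro hx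
      have h3 := Std04_TU H (S := S) ((TT C6 K).inv_mem h1) _ hx
      have h4 : t⁻¹ (t x) = x := t.symm_apply_apply x
      rw [h4] at h3
      exact h3
    · exact Std04_TU H h1 x
  · intro b hb s
    exact Gn_UR H hS (Subgroup.subset_closure ⟨b, hb, s, rfl⟩)

theorem std04 (H : HypW C6 K) {p : ℕ} [Fact p.Prime] [CharP K p]
    (F : Subgroup (LL C6 K ≃ₗ[K] LL C6 K)) (hF : F ≤ GF K) (hT : T4 K ≤ F) :
    StdDesc4 (T4 K) (Xg4 K) F := by
  have hD := dst_all4 H (p := p) F hF hT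
  refine ⟨SF4 F, ⟨Cl4_SF4 H F, ?_, ?_⟩, ?_⟩
  · exact Std04_le hT fun a ha s => ha s
  · intro f hf
    obtain ⟨c, hc, hm⟩ := hD f (hF hf) (by
      intro t ht
      rw [mem_cj4]
      exact F.mul_mem (F.mul_mem hf (hT ht)) (F.inv_mem hf))
    have hcF := Fo4_le hT hc
    have h1 : f ∈ Subgroup.normalizer
        (GS4 (T4 K) (Xg4 K) (SF4 F) : Set (LL C6 K ≃ₗ[K] LL C6 K)) := by
      have h2 : f = c * (c⁻¹ * f) := by group
      rw [h2]
      exact Subgroup.mul_mem _ (Std04_Fo_norm F hc)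
        (Std04_norm H F hF hm (F.mul_mem (F.inv_mem hcF) hf))
    exact Subgroup.mem_normalizer_iff.1 h1
  · rintro S2 ⟨hS2, hle, hn⟩
    apply Set.Subset.antisymm
    · intro a ha s
      exact hle (Std04_xf ha s)
    · intro a ha
      obtain ⟨t, ht, hta⟩ := T4_sep0 H a
      have h1 : xf a 1 * t * (xf a 1)⁻¹ ∈ GS4 (T4 K) (Xg4 K) S2 :=
        (hn _ (ha 1) t).1 (Std04_T ht)
      have h2 : xf a (1 - wt t a) ∈ GS4 (T4 K) (Xg4 K) S2 := by
        have h3 : xf a (1 - wt t a) = xf a 1 * t * (xf a 1)⁻¹ * t⁻¹ := by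
          have h4 := T4_conj_xf H ht a (-1 : K)
          rw [mul_neg_one, xf_neg H a 1] at h4
          rw [sub_eq_add_neg, xf_add H, ← h4]
          group
        rw [h3]
        exact Subgroup.mul_mem _ h1 (Subgroup.inv_mem _ (Std04_T ht))
      have hs : sv (zk (cv a) : Fin 6 → K) = zk (cv a) := by rw [← zk_sv, sv_cv]
      have h5 : (hh C6 (zk (cv a)) : LL C6 K) ∈ UR K S2 := fun d _ => rfl
      have h6 := (Std04_le_stab H hS2 h2 _).2 h5
      by_contra haS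
      have h7 := h6 a haS
      have h9 : fk C6 (zk (cv a) : Fin 6 → K) (zk a.1) = 2 := by
        rw [fk_zk_zk]
        have h3 : ip C6 (cv a) a.1 = 2 := dg_self a
        rw [h3]
        norm_num
      rw [xf_hh H a _ _ hs, h9] at h7
      have h8 : (hh C6 (zk (cv a)) - ((1 - wt t a) * 2) • Df K a : LL C6 K).2 a =
          (hh C6 (zk (cv a)) : LL C6 K).2 a - ((1 - wt t a) * 2) * (Df K a).2 a := rfl
      have h10 : Eq4 a a := Or.inl rfl
      rw [h8, hh_snd, Df_snd, if_pos h10, mul_one, zero_sub, neg_eq_zero] at h7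
      rcases mul_eq_zero.1 h7 with h11 | h11
      · exact hta (sub_eq_zero.1 h11).symm
      · exact two_ne H h11

end Pool.Agent.H31.F4
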