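import Pool.Agent.H31.F4.Std04

/-!
# FF-76: the final statement (adapt EL/Std.lean and EL/StdP.lean)

`std_gen4`: pull back along `π : G → GL(LL)` with kernel in `T` (copy of `std_gen`).  `T4_le_Gr4`: `T4_cv` and
`hd_cv_mem_of` for `F = ⨆ a, Xg4 K a`.
`allStd4`: copy of `allStd` (EL/StdP.lean) with `xf_apply`, `T4_cv`.
-/

namespace Pool.Agent.H31.F4

open Pool.Agent.H33.EL (ip cc eps Rt ng zk ek fk LL hh e brf fmf br fm IsExt exl ex xr hd L0 GG T1 TT NN SF cj wt)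

variable {K : Type} [Field K]

/-- the group generated by the root groups in `GL(LL)` -/
def Gr4 (K : Type) [Field K] : Subgroup (LL C6 K ≃ₗ[K] LL C6 K) := ⨆ a : Rt C6, Xg4 K a

theorem stdP4_xf_mem (a : Rt C6) (s : K) : xf a s ∈ Gr4 K :=
  (le_iSup (fun a : Rt C6 => Xg4 K a) a) (Subgroup.subset_closure ⟨s, rfl⟩)

theorem Gr4_le (H : HypW C6 K) : Gr4 K ≤ GF K := by
  refine iSup_le fun a => (Subgroup.closure_le _).2 ?_
  rintro g ⟨s, rfl⟩
  exact xf_mem_GF H a s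

theorem T4_le_Gr4 (H : HypW C6 K) : T4 K ≤ Gr4 K := by
  rw [T4_cv H]
  refine (Subgroup.closure_le _).2 ?_
  rintro g ⟨a, c, rfl⟩
  exact hd_cv_mem_of H (Gr4 K) (fun s => stdP4_xf_mem a s) (fun s => stdP4_xf_mem (ng a) s) c

theorem std_gen4 (H : HypW C6 K) {G : Type} [Group G] (π : G →* (LL C6 K ≃ₗ[K] LL C6 K))
    (hπ : π.range ≤ Gr4 K) (T : Subgroup G) (hT : T.map π = T4 K) (hk : π.ker ≤ T)
    (X : Rt C6 → Subgroup G) (hX : ∀ a, (X a).map π = Xg4 K a) (F : Subgroup G)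
    (hF : T ≤ F) : StdDesc4 T X F := by
  have hfin : Finite K := Nat.finite_of_card_ne_zero (by rcases H.card with h | h | h <;> omega)
  obtain ⟨p, hp⟩ := CharP.exists K
  have hpp : Fact p.Prime := ⟨CharP.char_is_prime K p⟩
  have h0 := std04 H (p := p) (F.map π)
    (((Subgroup.map_le_range π F).trans hπ).trans (Gr4_le H))
    (by rw [← hT]; exact Subgroup.map_mono hF)
  -- the groups `G(S)` in `G` and in `GL(L)`
  have hm : ∀ S : Set (Rt C6), (GS4 T X S).map π = GS4 (T4 K) (Xg4 K) S := by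
    intro S
    unfold GS4
    rw [Subgroup.map_sup, hT, Subgroup.map_iSup]
    have e1 : ∀ a : Rt C6, (⨆ _ : a ∈ S, X a).map π = ⨆ _ : a ∈ S, Xg4 K a := by
      intro a
      rw [Subgroup.map_iSup]
      exact iSup_congr fun _ => hX a
    rw [iSup_congr e1]
  have hc : ∀ S : Set (Rt C6), ∀ x : G, x ∈ GS4 T X S ↔
      π x ∈ GS4 (T4 K) (Xg4 K) S := by
    intro S x
    have h1 : GS4 T X S ⊔ π.ker = GS4 T X S := sup_eq_left.2 (hk.trans le_sup_left)
    rw [← hm S, ← Subgroup.mem_comap, Subgroup.comap_map_eq, h1]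
  have hcF : ∀ x : G, x ∈ F ↔ π x ∈ F.map π := by
    intro x
    rw [← Subgroup.mem_comap, Subgroup.comap_map_eq, sup_eq_left.2 (hk.trans hF)]
  have key : ∀ S : Set (Rt C6),
      (Cl4 S ∧ GS4 T X S ≤ F ∧ ∀ f ∈ F, ∀ x, x ∈ GS4 T X S ↔ f * x * f⁻¹ ∈ GS4 T X S) ↔
      (Cl4 S ∧ GS4 (T4 K) (Xg4 K) S ≤ F.map π ∧ ∀ f ∈ F.map π, ∀ x,
        x ∈ GS4 (T4 K) (Xg4 K) S ↔ f * x * f⁻¹ ∈ GS4 (T4 K) (Xg4 K) S) := by
    intro S
    refine and_congr_right fun _ => ⟨?_, ?_⟩
    · rintro ⟨h1, h2⟩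
      refine ⟨by rw [← hm S]; exact Subgroup.map_mono h1, ?_⟩
      rintro f ⟨g, hg, rfl⟩ x
      constructor
      · intro hx
        rw [← hm S] at hx
        obtain ⟨y, hy, rfl⟩ := hx
        have := (hc S _).1 ((h2 g hg y).1 hy)
        rwa [map_mul, map_mul, map_inv] at this
      · intro hx
        rw [← hm S] at hx
        obtain ⟨y, hy, hyx⟩ := hx
        have h3 : g⁻¹ * y * g ∈ GS4 T X S := by
          rw [h2 g hg]
          have : g * (g⁻¹ * y * g) * g⁻¹ = y := by group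
          rw [this]
          exact hy
        have h4 := (hc S _).1 h3
        have h5 : π (g⁻¹ * y * g) = x := by
          rw [map_mul, map_mul, map_inv, hyx]
          group
        rwa [h5] at h4
    · rintro ⟨h1, h2⟩
      refine ⟨fun x hx => (hcF x).2 (h1 ((hc S x).1 hx)), fun f hf x => ?_⟩
      rw [hc S, hc S, map_mul, map_mul, map_inv]
      exact h2 (π f) ((hcF f).1 hf) (π x)
  unfold StdDesc4 at h0 ⊢
  simp only [key]
  exact h0

/-- linear automorphisms as permutations -/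
def toP4 (K : Type) [Field K] : (LL C6 K ≃ₗ[K] LL C6 K) →* Equiv.Perm (LL C6 K) where
  toFun g := g.toEquiv
  map_one' := rfl
  map_mul' _ _ := rfl

theorem toP4_apply (g : LL C6 K ≃ₗ[K] LL C6 K) (x : LL C6 K) : toP4 K g x = g x := rfl

theorem toP4_inj : Function.Injective (toP4 K) := by
  intro g h hgh
  ext1 x
  rw [← toP4_apply, hgh, toP4_apply]

theorem xfP_eq (H : HypW C6 K) (a : Rt C6) (s : K) (x : LL C6 K) : xfP a s x = xf a s x := by
  rw [xf_apply H]
  unfold xfP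
  have h1 : ∀ y z : LL C6 K, brf y z = br y z := fun _ _ => rfl
  rw [h1, h1, div_eq_mul_inv, mul_comm (s ^ 2) (2⁻¹ : K)]

theorem XP4_eq (H : HypW C6 K) (a : Rt C6) : XP4 K a = (Xg4 K a).map (toP4 K) := by
  unfold XP4 Xg4
  rw [MonoidHom.map_closure]
  congr 1
  ext g
  constructor
  · rintro ⟨s, hs⟩
    refine ⟨xf a s, ⟨s, rfl⟩, ?_⟩
    ext1 x
    rw [toP4_apply, hs, xfP_eq H]
  · rintro ⟨_, ⟨s, rfl⟩, rfl⟩
    exact ⟨s, fun x => by rw [toP4_apply, xfP_eq H]⟩

theorem GP4_eq (H : HypW C6 K) : GP4 K = (Gr4 K).map (toP4 K) := by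
  unfold GP4 Gr4
  rw [Subgroup.map_iSup]
  exact iSup_congr fun a => XP4_eq H a

theorem TP4_eq (H : HypW C6 K) : TP4 K = (T4 K).map (toP4 K) := by
  rw [T4_cv H]
  unfold TP4
  rw [MonoidHom.map_closure]
  congr 1
  ext g
  constructor
  · rintro ⟨a, c, hc, hs⟩
    refine ⟨hd C6 (cv a) (Units.mk0 c hc), ⟨a, _, rfl⟩, ?_⟩
    ext1 x
    rw [toP4_apply, hs]
    refine Prod.ext rfl (funext fun b => ?_)
    show (((Units.mk0 c hc) ^ (dg a b) : Kˣ) : K) * x.2 b = c ^ dg a b * x.2 b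
    rw [Units.val_zpow_eq_zpow_val, Units.val_mk0]
  · rintro ⟨_, ⟨a, c, rfl⟩, rfl⟩
    refine ⟨a, (c : K), c.ne_zero, fun x => ?_⟩
    rw [toP4_apply]
    refine Prod.ext rfl (funext fun b => ?_)
    show ((c ^ (dg a b) : Kˣ) : K) * x.2 b = (c : K) ^ dg a b * x.2 b
    rw [Units.val_zpow_eq_zpow_val]

theorem allStd4 (H : HypW C6 K) : AllStd4 K := by
  refine ⟨?_, ?_⟩
  · rw [TP4_eq H, GP4_eq H]
    exact Subgroup.map_mono (T4_le_Gr4 H)
  · intro G _ π hπ T X hT hk hX F hF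
    -- lift `π` to the linear group
    have hr : ∀ g : G, π g ∈ (toP4 K).range := by
      intro g
      have h1 : π g ∈ GP4 K := hπ ▸ ⟨g, rfl⟩
      rw [GP4_eq H] at h1
      obtain ⟨y, -, hy⟩ := h1
      exact ⟨y, hy⟩
    let π' : G →* (LL C6 K ≃ₗ[K] LL C6 K) :=
      ((MonoidHom.ofInjective (toP4_inj (K := K))).symm.toMonoidHom).comp
        (π.codRestrict (toP4 K).range hr)
    have hπ' : ∀ g, toP4 K (π' g) = π g := by
      intro g
      have := (MonoidHom.ofInjective (toP4_inj (K := K))).apply_symm_apply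
        ⟨π g, hr g⟩
      exact congrArg Subtype.val this
    have hcomp : (toP4 K).comp π' = π := MonoidHom.ext hπ'
    have hmap : ∀ D : Subgroup G, (D.map π').map (toP4 K) = D.map π := by
      intro D
      rw [Subgroup.map_map, hcomp]
    have hinj := Subgroup.map_injective (toP4_inj (K := K))
    refine std_gen4 H π' ?_ T ?_ ?_ X ?_ F hF
    · rintro x ⟨g, rfl⟩
      have h1 : π g ∈ GP4 K := hπ ▸ ⟨g, rfl⟩
      rw [GP4_eq H] at h1
      obtain ⟨y, hy, hy'⟩ := h1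
      have h2 : π' g = y := toP4_inj (by rw [hπ', hy'])
      rw [h2]
      exact hy
    · apply hinj
      show (T.map π').map (toP4 K) = (T4 K).map (toP4 K)
      rw [hmap, hT, TP4_eq H]
    · intro g hg
      apply hk
      rw [MonoidHom.mem_ker] at hg ⊢
      rw [← hπ' g, hg, map_one]
    · intro a
      apply hinj
      show ((X a).map π').map (toP4 K) = (Xg4 K a).map (toP4 K)
      rw [hmap, hX, XP4_eq H]

/-- the final theorem -/
theorem allStd_F4 (K : Type) [Field K] (hK : Nat.card K = 7 ∨ Nat.card K = 9 ∨ Nat.card K = 11) :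
    AllStd4 K := allStd4 (hypW6 K hK)

end Pool.Agent.H31.F4
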