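import Pool.Agent.H31.F4.Ps4
import Pool.Agent.H31.F4.Dn4

/-!
# FF-37: the roots of `F` are symmetric (Case B)

(a) `b ∈ SF4 F` long, or `b ∈ SsF F`.  `n` = span of `{f (pv b) : f ∈ F}`; it is `T4`-, `F`-invariant, contained in
`LF` resp. `VF`, so `Sg`-invariant: `Hom4 n`.  Suppose `fm (f (pv b)) (pv b) = 0` for all `f ∈ F`: then
`n ⊥ pv b` (`fm` bilinear) and (`F`-invariance) `n ⊥ n`.  `mu n (ng b) = 0` (`mu_eq_zero`: an element of
`n ⊓ span{e (ng b), e (sg (ng b))}` is `k pv (ng b)`, orthogonal to `pv b`, so `k = 0` by `fm_pv_ng`), `0 < mu n b`.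
`rfv b b = -b` (`(ng b).1 = rfv b b`), `dg b b = 2`: `dn_pos`: `0 < ip (dn n) b`.  `F ≤ Par (dn n)` (`inv_Par4`),
`xf b 1 ∈ F ⊓ Rad (dn n)`; `P = F ⊓ Rad (dn n)` is a normal `p`-subgroup of `F` (`Rad_normal`, `Rad_pgroup`):
contradiction to `hO`.  So `fm (f (pv b)) (pv b) ≠ 0` for some `f ∈ F`, so `(f (pv b)).2 (ng b) ≠ 0` (`fm_pv`), and
`Pl` / `Ps` with `g = f`, `c = b` give `ng b ∈ SF4 F`.
(b) `b ∈ SF4 F` short with a long `a ∈ SF4 F`, `dg b a ≠ 0`; `ng a ∈ SF4 F` by (a), so we may assume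
`dg b a < 0`, so `dg b a = -2`, `dg a b = -1` (`dg_SL`).  `sm_of_neg`: `Sm a b c`, `c ∈ SF4 F` short;
`dg b c = dg b a + 2 = 0`: `sm_of_orth b c`: `Sm b c f`, `f ∈ SF4 F` long (`SF4_closed`); `ng f ∈ SF4 F` by (a);
`Sm (ng f) c (ng b)` (from `Sm b c f`), so `ng b ∈ SF4 F`.
-/

namespace Pool.Agent.H31.F4

open Pool.Agent.H33.EL (ip cc eps Rt ng zk ek fk LL hh e brf fmf br fm IsExt exl ex xr hd L0 GG T1 TT NN SF cj wt)

variable {K : Type} [Field K]

/-- hypotheses of Case B -/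
structure HB (p : ℕ) (F : Subgroup (LL C6 K ≃ₗ[K] LL C6 K)) : Prop where
  hF : F ≤ GF K
  hT : T4 K ≤ F
  hO : ∀ P : Subgroup (LL C6 K ≃ₗ[K] LL C6 K), P ≤ F →
    (∀ f ∈ F, ∀ u ∈ P, f * u * f⁻¹ ∈ P) → IsPGroup p P → P = ⊥

variable {p : ℕ} {F : Subgroup (LL C6 K ≃ₗ[K] LL C6 K)}

theorem HB_cj (X : HB p F) {g : LL C6 K ≃ₗ[K] LL C6 K} (hg : g ∈ GF K) (hgT : T4 K ≤ cj g F) :
    HB p (cj g F) := by
  refine ⟨cj_le_GF hg X.hF, hgT, fun P hP hN hp => ?_⟩
  have h1 : P.map (MulAut.conj g).toMonoidHom = ⊥ := by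
    refine X.hO _ ?_ ?_ (hp.map _)
    · rintro _ ⟨u, hu, rfl⟩
      exact mem_cj4.1 (hP hu)
    · rintro f hf _ ⟨u, hu, rfl⟩
      have h2 : g⁻¹ * f * g ∈ cj g F := by
        rw [mem_cj4]
        have h3 : g * (g⁻¹ * f * g) * g⁻¹ = f := by group
        rw [h3]
        exact hf
      refine ⟨(g⁻¹ * f * g) * u * (g⁻¹ * f * g)⁻¹, hN _ h2 u hu, ?_⟩
      show g * ((g⁻¹ * f * g) * u * (g⁻¹ * f * g)⁻¹) * g⁻¹ = f * (g * u * g⁻¹) * f⁻¹
      group
  exact (Subgroup.map_eq_bot_iff_of_injective P (MulAut.conj g).injective).1 h1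

private theorem sym4_PF_Sg {a : Rt C6} {x : LL C6 K} (hx : x ∈ PF K a) :
    Sg K x = x ∨ Sg K x = -x := by
  unfold PF at hx
  split_ifs at hx with h
  · exact Or.inl ((mem_LF x).1 hx)
  · exact Or.inr ((mem_VF x).1 hx)

private theorem sym4_PF_snd {a : Rt C6} {x : LL C6 K} (hx : x ∈ PF K a) (d : Rt C6)
    (h0 : x.2 d = 0) : x.2 (sg d) = 0 := by
  unfold PF at hx
  split_ifs at hx with h
  · rw [((mem_LF' x).1 hx).2 d, h0]
  · rw [((mem_VF' x).1 hx).2 d, h0, neg_zero]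

private theorem sym4_fm (H : HypW C6 K) (b : Rt C6) : ∃ k : K, k ≠ 0 ∧ ∀ x ∈ PF K b,
    fm x (pv K b) = k * x.2 (ng b) := by
  obtain ⟨k, hk, h⟩ := fm_pv H b
  refine ⟨k, hk, fun x hx => ?_⟩
  rw [fm_comm H]
  apply h
  unfold PF at hx
  split_ifs at hx ⊢ with h1
  · exact hx
  · exact hx

private theorem sym4_key (H : HypW C6 K) [Fact p.Prime] [CharP K p] (X : HB p F) {b : Rt C6}
    (hb : b ∈ SF4 F) : ∃ f ∈ F, (f (pv K b)).2 (ng b) ≠ 0 := by
  by_contra hcon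
  push Not at hcon
  obtain ⟨k, hk, hfm⟩ := sym4_fm H b
  set n : Submodule K (LL C6 K) := Submodule.span K {x | ∃ f ∈ F, x = f (pv K b)} with hn
  have hinv : ∀ g ∈ F, ∀ x ∈ n, g x ∈ n := by
    intro g hg x hx
    have h1 : n ≤ n.comap (g : LL C6 K →ₗ[K] LL C6 K) := by
      conv_lhs => rw [hn]
      rw [Submodule.span_le]
      rintro _ ⟨f, hf, rfl⟩
      exact Submodule.subset_span ⟨g * f, mul_mem hg hf, rfl⟩
    exact h1 hx
  have hPF : n ≤ PF K b := by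
    rw [hn, Submodule.span_le]
    rintro _ ⟨f, hf, rfl⟩
    exact pv_mem_PF H (X.hF hf) Iff.rfl
  have horth : ∀ x ∈ n, x.2 (ng b) = 0 := by
    intro x hx
    rw [hn] at hx
    induction hx using Submodule.span_induction with
    | mem x hx =>
      obtain ⟨f, hf, rfl⟩ := hx
      exact hcon f hf
    | zero => rfl
    | add x y _ _ h1 h2 =>
      show x.2 (ng b) + y.2 (ng b) = 0
      rw [h1, h2, add_zero]
    | smul c x _ h1 =>
      show c * x.2 (ng b) = 0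
      rw [h1, mul_zero]
  have hHom : Hom4 n := by
    refine ⟨fun t ht x hx => hinv t (X.hT ht) x hx, fun x hx => ?_⟩
    rcases sym4_PF_Sg (hPF hx) with h | h
    · rw [h]
      exact hx
    · rw [h]
      exact n.neg_mem hx
  have hmu0 : mu n (ng b) = 0 := by
    refine mu_eq_zero fun x hx hx' => ?_
    obtain ⟨s, t, rfl⟩ := Submodule.mem_span_pair.1 hx'
    have h1 := horth _ hx
    have h2 := sym4_PF_snd (hPF hx) _ h1
    refine Prod.ext ?_ (funext fun d => ?_)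
    · show s • (e K (ng b)).1 + t • (e K (sg (ng b))).1 = 0
      rw [e_fst, e_fst, smul_zero, smul_zero, add_zero]
    · by_cases hd1 : d = ng b
      · rw [hd1]
        exact h1
      · by_cases hd2 : d = sg (ng b)
        · rw [hd2]
          exact h2
        · show s * (e K (ng b)).2 d + t * (e K (sg (ng b))).2 d = 0
          rw [e_snd_ne hd1, e_snd_ne hd2, mul_zero, mul_zero, add_zero]
  have hpn : pv K b ∈ n := Submodule.subset_span ⟨1, one_mem F, rfl⟩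
  have hmu1 : 0 < mu n b := mu_pos hpn (pv_mem_span b).1 (pv_ne_zero H b)
  have hrf : (ng b).1 = rfv b b := by
    have hbb : ip C6 b.1 b.1 = 2 := b.2
    unfold rfv
    rw [ng_val]
    split_ifs with h
    · rw [hbb]
      module
    · have h1 : ip C6 (sg b).1 b.1 = 0 := by
        rw [ip_comm H.symm]
        exact cb_self b h
      rw [hbb, h1]
      module
  have hpos : 0 < ip C6 (dn n) b.1 := by
    refine dn_pos H (b := b) (a := b) (c := ng b) (fun s x hx => hinv _ (hb s) x hx) hrf ?_ ?_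
    · rw [dg_self]
      norm_num
    · rw [hmu0]
      exact hmu1
  have hPar : F ≤ Par C6 K (dn n) := by
    intro f hf
    refine inv_Par4 H hHom (X.hF hf) fun x => ⟨fun h => ?_, hinv f hf x⟩
    have h1 := hinv f⁻¹ (inv_mem hf) _ h
    have h2 : f⁻¹ (f x) = x := f.symm_apply_apply x
    rwa [h2] at h1
  have hP : F ⊓ Rad H (dn n) = ⊥ := by
    refine X.hO _ inf_le_left ?_ ((Rad_pgroup (p := p) H (dn n)).to_le inf_le_right)
    intro f hf u hu
    exact ⟨F.mul_mem (F.mul_mem hf hu.1) (F.inv_mem hf), Rad_normal H (hPar hf) hu.2⟩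
  have hx : xf b (1 : K) ∈ F ⊓ Rad H (dn n) := ⟨hb 1, xf_mem_Rad H (sv_dn n) 1 hpos⟩
  rw [hP, Subgroup.mem_bot, ← xf_zero H b] at hx
  exact one_ne_zero (xf_inj H b hx)

private theorem sym4_long (H : HypW C6 K) [Fact p.Prime] [CharP K p] (X : HB p F) {b : Rt C6}
    (hb : b ∈ SF4 F) (hl : sg b = b) : ng b ∈ SF4 F := by
  obtain ⟨f, hf, hne⟩ := sym4_key H X hb
  rw [pv_long hl] at hne
  exact (Pl H X.hF X.hT hb hl hl (X.hF hf)
    (fun s => mul_mem (mul_mem hf (hb s)) (inv_mem hf)) hne).1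

private theorem sym4_good (H : HypW C6 K) [Fact p.Prime] [CharP K p] (X : HB p F) {b : Rt C6}
    (hb : b ∈ SsF F) : ng b ∈ SF4 F := by
  obtain ⟨f, hf, hne⟩ := sym4_key H X hb.1
  rw [pv_short hb.2.1] at hne
  exact (Ps H X.hF X.hT hb hb.2.1 (X.hF hf)
    (fun s => mul_mem (mul_mem hf (hb.1 s)) (inv_mem hf)) hne).1

private theorem sym4_adj (H : HypW C6 K) [Fact p.Prime] [CharP K p] (X : HB p F) {b a : Rt C6}
    (hb : b ∈ SF4 F) (hs : sg b ≠ b) (ha : a ∈ SF4 F) (hal : sg a = a) (hlt : dg b a < 0) :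
    ng b ∈ SF4 F := by
  have h1 := dg_SL b a hs hal
  have h2 := dg_range b a
  have h3 : dg a b < 0 := by omega
  have hnE : ¬ Eq4 (ng a) b := fun h => hs ((Eq4_len h).1 ((sg_ng_iff a).2 hal))
  obtain ⟨c, hc, hcl, -⟩ := sm_of_neg a b h3 hnE
  have hcF : c ∈ SF4 F := SF4_closed H F hc ha hb
  have hcs : sg c ≠ c := fun h => hs (hcl.1 h).2
  have h4 : dg b c = 0 := by
    rw [sm_dg hc b, dg_self]
    omega
  obtain ⟨f, hf, hfl, -⟩ := sm_of_orth b c hs hcs h4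
  have hfF : f ∈ SF4 F := SF4_closed H F hf hb hcF
  have hnf := sym4_long H X hfF hfl
  have h5 : Sm (ng f) c (ng b) := by
    have h6 := Sm_ng (Sm_sub (Sm_symm hf))
    rw [ng_ng] at h6
    exact Sm_symm h6
  exact SF4_closed H F h5 hnf hcF

theorem sym4 (H : HypW C6 K) [Fact p.Prime] [CharP K p] (X : HB p F) {b : Rt C6}
    (hb : b ∈ SF4 F) : ng b ∈ SF4 F := by
  by_cases hl : sg b = b
  · exact sym4_long H X hb hl
  · by_cases hgood : ∀ a ∈ SF4 F, sg a = a → dg b a = 0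
    · exact sym4_good H X ⟨hb, hl, hgood⟩
    · push Not at hgood
      obtain ⟨a, ha, hal, hne⟩ := hgood
      rcases lt_or_gt_of_ne hne with h | h
      · exact sym4_adj H X hb hl ha hal h
      · refine sym4_adj H X hb hl (sym4_long H X ha hal) ((sg_ng_iff a).2 hal) ?_
        rw [dg_ng_right]
        omega

theorem SsF_ng (H : HypW C6 K) [Fact p.Prime] [CharP K p] (X : HB p F) {b : Rt C6}
    (hb : b ∈ SsF F) : ng b ∈ SsF F := by
  refine ⟨sym4 H X hb.1, fun h => hb.2.1 ((sg_ng_iff b).1 h), fun a ha hal => ?_⟩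
  rw [dg_ng_left, hb.2.2 a ha hal, neg_zero]

theorem Cl4_SF4 (H : HypW C6 K) (F : Subgroup (LL C6 K ≃ₗ[K] LL C6 K)) : Cl4 (SF4 F) :=
  ⟨fun _ ha => SF4_Eq4 (Or.inr rfl) ha, fun _ ha _ hb _ hc => SF4_closed H F hc ha hb⟩

end Pool.Agent.H31.F4
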