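import Pool.Agent.H31.F4.TorL

/-!
# FF-07b: the torus `T4`, weight spaces

See the header of `TorL`.  `T4_Df`: `t (e a) = wt t a • e a` (`TT_e`), `wt_sg`.
`T4_pow`, `T4_order`: `TT_pow_card`, `TT_order` of `B`.  `T4_card`: every element has order dividing
`q - 1`, prime to `p`; Cauchy.  `exists_sq_ne`: `|K^*| ≥ 6`.
`comp4_LF`: `x.2 (sg a) = x.2 a`.  `mem_L0_iff4`: `T4_sep0`.
-/

namespace Pool.Agent.H31.F4

open Pool.Agent.H33.EL (ip cc eps Rt ng zk ek fk LL hh e brf fmf br fm IsExt exl ex xr hd L0 GG T1 TT NN SF cj wt)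

variable {K : Type} [Field K]

private theorem tor4_e (H : HypW C6 K) {t : LL C6 K ≃ₗ[K] LL C6 K} (ht : t ∈ T4 K) (a : Rt C6) :
    t (e K a) = wt t a • e K a ∧ t (e K (sg a)) = wt t a • e K (sg a) := by
  refine ⟨TT_e H (T4_le_TT H ht) a, ?_⟩
  rw [TT_e H (T4_le_TT H ht) (sg a), wt_sg H ht]

theorem T4_Df (H : HypW C6 K) {t : LL C6 K ≃ₗ[K] LL C6 K} (ht : t ∈ T4 K) (a : Rt C6) :
    t (Df K a) = wt t a • Df K a ∧ t (wf K a) = wt t a • wf K a ∧ t (pv K a) = wt t a • pv K a := by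
  obtain ⟨h1, h2⟩ := tor4_e H ht a
  have hw : t (wf K a) = wt t a • wf K a := by
    unfold wf
    rw [map_sub, h1, h2, smul_sub]
  by_cases ha : sg a = a
  · refine ⟨?_, hw, ?_⟩
    · rw [Df_long ha]; exact h1
    · rw [pv_long ha]; exact h1
  · refine ⟨?_, hw, ?_⟩
    · rw [Df_short ha, map_add, h1, h2, smul_add]
    · rw [pv_short ha]; exact hw

/-- components of a vector in an invariant subspace -/
private theorem tor4_comp {I T M : Type*} [AddCommGroup M] [Module K M] (U : Submodule K M)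
    (op : T → M →ₗ[K] M) (hU : ∀ t, ∀ x ∈ U, op t x ∈ U) (χ : I → T → K)
    (hχ : ∀ i j, i ≠ j → ∃ t, χ i t ≠ χ j t) (s : Finset I) :
    ∀ y : I → M, (∀ i t, op t (y i) = χ i t • y i) → ∑ i ∈ s, y i ∈ U → ∀ i ∈ s, y i ∈ U := by
  classical
  induction s using Finset.induction_on with
  | empty =>
    intro y _ _ i hi
    exact absurd hi (Finset.notMem_empty i)
  | insert j s hj ih =>
    intro y hy hs
    have h1 : ∀ i ∈ s, y i ∈ U := by
      intro i hi
      obtain ⟨t, ht⟩ := hχ i j (fun h => hj (h ▸ hi))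
      have h2 : ∑ l ∈ s, (χ l t - χ j t) • y l ∈ U := by
        have h3 : op t (∑ l ∈ insert j s, y l) - χ j t • ∑ l ∈ insert j s, y l
            = ∑ l ∈ s, (χ l t - χ j t) • y l := by
          rw [map_sum, Finset.smul_sum, ← Finset.sum_sub_distrib, Finset.sum_insert hj, hy,
            sub_self, zero_add]
          refine Finset.sum_congr rfl fun l _ => ?_
          rw [hy, sub_smul]
        rw [← h3]
        exact U.sub_mem (hU t _ hs) (U.smul_mem _ hs)
      have h4 := ih (fun l => (χ l t - χ j t) • y l) (fun l t' => by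
        rw [map_smul, hy, smul_comm]) h2 i hi
      have h5 := U.smul_mem (χ i t - χ j t)⁻¹ h4
      rw [smul_smul, inv_mul_cancel₀ (sub_ne_zero.2 ht), one_smul] at h5
      exact h5
    intro i hi
    rcases Finset.mem_insert.1 hi with rfl | hi
    · rw [Finset.sum_insert hj] at hs
      have h2 : ∑ l ∈ s, y l ∈ U := U.sum_mem h1
      have h3 := U.sub_mem hs h2
      rwa [add_sub_cancel_right] at h3
    · exact h1 i hi

/-- the setoid of roots of F_4 -/
private def tor4S : Setoid (Rt C6) where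
  r := Eq4
  iseqv :=
    { refl := fun _ => Or.inl rfl
      symm := by
        rintro a b (h | h)
        · exact Or.inl h.symm
        · exact Or.inr (by rw [h, sg_sg])
      trans := by
        rintro a b c (h | h) (h' | h')
        · exact Or.inl (by rw [h', h])
        · exact Or.inr (by rw [h', h])
        · exact Or.inr (by rw [h', h])
        · exact Or.inl (by rw [h', h, sg_sg]) }

private theorem tor4_wt (H : HypW C6 K) {t : LL C6 K ≃ₗ[K] LL C6 K} (ht : t ∈ T4 K) {a b : Rt C6}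
    (h : Eq4 a b) : wt t a = wt t b := by
  rcases h with h | h
  · rw [h]
  · rw [h, wt_sg H ht]

theorem comp4 (H : HypW C6 K) (U : Submodule K (LL C6 K)) (hU : ∀ t ∈ T4 K, ∀ x ∈ U, t x ∈ U)
    {x : LL C6 K} (hx : x ∈ U) : hh C6 x.1 ∈ U ∧
    ∀ a : Rt C6, (if sg a = a then x.2 a • e K a else x.2 a • e K a + x.2 (sg a) • e K (sg a)) ∈ U := by
  classical
  have hL : ∀ t ∈ T4 K, ∀ h : Fin 6 → K, t (hh C6 h) = hh C6 h := fun t ht h =>
    (T4_le_TT H ht).2 _ (hh_mem_L0 h)
  have key := tor4_comp (I := Option (Quotient tor4S)) (T := T4 K) U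
    (fun t => ((t : LL C6 K ≃ₗ[K] LL C6 K) : LL C6 K →ₗ[K] LL C6 K)) (fun t x hx => hU t.1 t.2 x hx)
    (fun i t => Option.elim i 1 (fun q => Quotient.lift
      (fun a => wt (t : LL C6 K ≃ₗ[K] LL C6 K) a) (fun a b h => tor4_wt H t.2 h) q)) ?_
    Finset.univ
    (fun i => Option.elim i (hh C6 x.1) (fun q =>
      ∑ a ∈ Finset.univ.filter (fun a : Rt C6 => Quotient.mk tor4S a = q), x.2 a • e K a)) ?_ ?_
  · refine ⟨key none (Finset.mem_univ _), fun a => ?_⟩
    have h1 := key (some (Quotient.mk tor4S a)) (Finset.mem_univ _)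
    have h2 : (∑ b ∈ Finset.univ.filter
        (fun b : Rt C6 => Quotient.mk tor4S b = Quotient.mk tor4S a), x.2 b • e K b) ∈ U := h1
    have h3 : Finset.univ.filter
        (fun b : Rt C6 => Quotient.mk tor4S b = Quotient.mk tor4S a) = {a, sg a} := by
      ext b
      rw [Finset.mem_filter, Finset.mem_insert, Finset.mem_singleton, Quotient.eq]
      constructor
      · rintro ⟨_, h⟩
        exact tor4S.symm h
      · intro h
        exact ⟨Finset.mem_univ _, tor4S.symm h⟩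
    rw [h3] at h2
    split_ifs with ha
    · rw [ha, Finset.pair_eq_singleton, Finset.sum_singleton] at h2
      exact h2
    · rw [Finset.sum_pair (fun h => ha h.symm)] at h2
      exact h2
  · rintro (_ | q) (_ | q') hij
    · exact absurd rfl hij
    · induction q' using Quotient.inductionOn with
      | h b =>
        obtain ⟨t, ht, h1⟩ := T4_sep0 H b
        exact ⟨⟨t, ht⟩, fun h => h1 h.symm⟩
    · induction q using Quotient.inductionOn with
      | h a =>
        obtain ⟨t, ht, h1⟩ := T4_sep0 H a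
        exact ⟨⟨t, ht⟩, h1⟩
    · induction q using Quotient.inductionOn with
      | h a =>
        induction q' using Quotient.inductionOn with
        | h b =>
          obtain ⟨t, ht, h1⟩ := T4_sep H (a := a) (b := b)
            (fun h => hij (congrArg some (Quotient.sound h)))
          exact ⟨⟨t, ht⟩, h1⟩
  · rintro (_ | q) t
    · show (t : LL C6 K ≃ₗ[K] LL C6 K) (hh C6 x.1) = (1 : K) • hh C6 x.1
      rw [hL t.1 t.2, one_smul]
    · show (t : LL C6 K ≃ₗ[K] LL C6 K) (∑ a ∈ Finset.univ.filter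
        (fun a : Rt C6 => Quotient.mk tor4S a = q), x.2 a • e K a) =
        (Quotient.lift (fun a => wt (t : LL C6 K ≃ₗ[K] LL C6 K) a)
          (fun a b h => tor4_wt H t.2 h) q : K) • ∑ a ∈ Finset.univ.filter
        (fun a : Rt C6 => Quotient.mk tor4S a = q), x.2 a • e K a
      rw [map_sum, Finset.smul_sum]
      refine Finset.sum_congr rfl fun a ha => ?_
      rw [Finset.mem_filter] at ha
      obtain ⟨_, rfl⟩ := ha
      show _ = wt (t : LL C6 K ≃ₗ[K] LL C6 K) a • x.2 a • e K a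
      rw [map_smul, TT_e H (T4_le_TT H t.2), smul_comm]
  · rw [Fintype.sum_option]
    show hh C6 x.1 + ∑ q : Quotient tor4S, ∑ a ∈ Finset.univ.filter
        (fun a : Rt C6 => Quotient.mk tor4S a = q), x.2 a • e K a ∈ U
    rw [Finset.sum_fiberwise, ← decomp]
    exact hx

/-- in `LF` and `VF` -/
theorem comp4_LF (H : HypW C6 K) (U : Submodule K (LL C6 K)) (hU : ∀ t ∈ T4 K, ∀ x ∈ U, t x ∈ U)
    {x : LL C6 K} (hx : x ∈ U) (hL : x ∈ LF K) (a : Rt C6) : x.2 a • Df K a ∈ U := by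
  have h1 := (comp4 H U hU hx).2 a
  have h2 := ((mem_LF' x).1 hL).2 a
  by_cases ha : sg a = a
  · rw [if_pos ha] at h1
    rw [Df_long ha]
    exact h1
  · rw [if_neg ha, h2] at h1
    rw [Df_short ha, smul_add]
    exact h1

theorem comp4_VF (H : HypW C6 K) (U : Submodule K (LL C6 K)) (hU : ∀ t ∈ T4 K, ∀ x ∈ U, t x ∈ U)
    {x : LL C6 K} (hx : x ∈ U) (hL : x ∈ VF K) (a : Rt C6) : x.2 a • wf K a ∈ U := by
  have h1 := (comp4 H U hU hx).2 a
  have h2 := ((mem_VF' x).1 hL).2 a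
  by_cases ha : sg a = a
  · rw [VF_long H hL ha, zero_smul]
    exact U.zero_mem
  · rw [if_neg ha, h2] at h1
    unfold wf
    rw [smul_sub, sub_eq_add_neg, ← neg_smul]
    exact h1

private theorem tor4_snd (H : HypW C6 K) {t : LL C6 K ≃ₗ[K] LL C6 K} (ht : t ∈ TT C6 K)
    (x : LL C6 K) (a : Rt C6) : (t x).2 a = wt t a * x.2 a := by
  have h1 : t x = hh C6 x.1 + ∑ b : Rt C6, x.2 b • wt t b • e K b := by
    conv_lhs => rw [decomp x]
    rw [map_add, map_sum, ht.2 _ (hh_mem_L0 _)]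
    congr 1
    refine Finset.sum_congr rfl fun b _ => ?_
    rw [map_smul, TT_e H ht]
  rw [h1, Prod.snd_add, Prod.snd_sum, Pi.add_apply, Finset.sum_apply, hh_snd, zero_add,
    Finset.sum_eq_single a]
  · rw [Prod.smul_snd, Prod.smul_snd, Pi.smul_apply, Pi.smul_apply, e_snd_self, smul_eq_mul,
      smul_eq_mul, mul_one, mul_comm]
  · intro b _ hb
    rw [Prod.smul_snd, Prod.smul_snd, Pi.smul_apply, Pi.smul_apply, e_snd_ne hb.symm, smul_zero,
      smul_zero]
  · intro h
    exact absurd (Finset.mem_univ a) h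

theorem mem_L0_iff4 (H : HypW C6 K) (x : LL C6 K) : x ∈ L0 C6 K ↔ ∀ t ∈ T4 K, t x = x := by
  constructor
  · intro hx t ht
    exact (T4_le_TT H ht).2 x hx
  · intro h
    rw [mem_L0]
    funext a
    obtain ⟨t, ht, h1⟩ := T4_sep0 H a
    have h2 := tor4_snd H (T4_le_TT H ht) x a
    rw [h t ht] at h2
    have h3 : (wt t a - 1) * x.2 a = 0 := by
      rw [sub_mul, one_mul, ← h2, sub_self]
    exact (mul_eq_zero.1 h3).resolve_left (sub_ne_zero.2 h1)

theorem T4_comm (H : HypW C6 K) {s t : LL C6 K ≃ₗ[K] LL C6 K} (hs : s ∈ T4 K) (ht : t ∈ T4 K) :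
    s * t = t * s := TT_comm H (T4_le_TT H hs) (T4_le_TT H ht)

theorem T4_conj_xf (H : HypW C6 K) {t : LL C6 K ≃ₗ[K] LL C6 K} (ht : t ∈ T4 K) (a : Rt C6)
    (s : K) : t * xf a s * t⁻¹ = xf a (wt t a * s) :=
  conj_xf (TT_le_GG (T4_le_TT H ht)) (T4_Df H ht a).1 s

theorem xf_all (H : HypW C6 K) {F : Subgroup (LL C6 K ≃ₗ[K] LL C6 K)}
    (hF : ∀ t ∈ T4 K, ∀ f ∈ F, t * f * t⁻¹ ∈ F) {a : Rt C6} {s : K} (hs : s ≠ 0)
    (h : xf a s ∈ F) : a ∈ SF4 F := by
  intro s'
  by_cases h0 : s' = 0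
  · rw [h0, xf_zero H]
    exact one_mem F
  · obtain ⟨t, ht, h1⟩ := T4_surj H a (div_ne_zero h0 hs)
    have h2 := hF t ht _ h
    rw [T4_conj_xf H ht, h1, div_mul_cancel₀ _ hs] at h2
    exact h2

theorem T4_pow (H : HypW C6 K) {t : LL C6 K ≃ₗ[K] LL C6 K} (ht : t ∈ T4 K) :
    t ^ (Nat.card K - 1) = 1 := TT_pow_card H (T4_le_TT H ht)

theorem T4_order (H : HypW C6 K) {p : ℕ} [Fact p.Prime] [CharP K p]
    {t : LL C6 K ≃ₗ[K] LL C6 K} (ht : t ∈ T4 K) (k : ℕ) (h : t ^ p ^ k = 1) : t = 1 :=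
  TT_order H (T4_le_TT H ht) k h

theorem T4_card (H : HypW C6 K) {p : ℕ} [Fact p.Prime] [CharP K p] :
    ¬ p ∣ Nat.card (T4 K) := by
  intro hdvd
  have hp : p.Prime := Fact.out
  have hpos : 0 < Nat.card K := by
    rcases H.card with h | h | h <;> omega
  have hfin : Finite K := (Nat.card_pos_iff.1 hpos).2
  have hfin2 : Finite (LL C6 K ≃ₗ[K] LL C6 K) :=
    Finite.of_injective (fun f : LL C6 K ≃ₗ[K] LL C6 K => (f : LL C6 K → LL C6 K))
      DFunLike.coe_injective
  obtain ⟨x, hx⟩ := exists_prime_orderOf_dvd_card' p hdvd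
  have h1 : x ^ p = 1 := by
    rw [← hx]
    exact pow_orderOf_eq_one x
  have h2 : (x : LL C6 K ≃ₗ[K] LL C6 K) ^ p ^ 1 = 1 := by
    rw [pow_one, ← Subgroup.coe_pow, h1, Subgroup.coe_one]
  have h3 := T4_order H x.2 1 h2
  have h4 : x = 1 := Subtype.ext h3
  rw [h4, orderOf_one] at hx
  exact hp.one_lt.ne hx

/-- an element `c` of `K^*` with `c² ≠ 1` -/
theorem exists_sq_ne (H : HypW C6 K) : ∃ c : Kˣ, ((c : K) ^ 2 ≠ 1) := by
  by_contra hcon
  push Not at hcon
  have h1 : (Set.univ : Set K) ⊆ {0, 1, -1} := by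
    intro c _
    by_cases h0 : c = 0
    · exact Or.inl h0
    · have h2 := hcon (Units.mk0 c h0)
      rw [Units.val_mk0, sq, mul_self_eq_one_iff] at h2
      rcases h2 with h2 | h2
      · exact Or.inr (Or.inl h2)
      · exact Or.inr (Or.inr h2)
  have h2 : (Set.univ : Set K).ncard ≤ ({0, 1, -1} : Set K).ncard :=
    Set.ncard_le_ncard h1 (Set.toFinite _)
  have h3 : ({0, 1, -1} : Set K).ncard ≤ 3 := by
    refine (Set.ncard_insert_le _ _).trans ?_
    have := Set.ncard_insert_le (1 : K) {-1}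
    rw [Set.ncard_singleton] at this
    omega
  rw [Set.ncard_univ] at h2
  rcases H.card with h | h | h <;> omega

end Pool.Agent.H31.F4
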