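import Pool.Agent.H31.F4.Cor

/-!
# FF-07a: the torus `T4`, lattice part (and header of FF-07b)

* `lat_dual`: let `v` with `M ∣ ip y v` for all invariant `y` (`sv y = y`).  Apply it to a basis
  of the invariant vectors: `y = α0, α1, α2+α3, α4+α5`; with `(v1,v2,v3,v4,v5,v6)` put
  `f0 = ip α0 v`, `f1 = ip α1 v`, `f2 = ip (α2+α3) v`, `f4 = ip (α4+α5) v`.  The vector
  `V = v + sv v = (V0,V1,V2,V2,V4,V4)` has `ip y V = 2 ip y v`, `V0`, `V1` even, and the unknown `u` with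
  `u + sv u = V/M`: solve the system with the Cartan matrix of F_4 (determinant 1): the numbers
  `V0/2, V1/2, V2, V4` are integer combinations of `f0, f1, f2, f4`:
  `f0 = 2(V0/2)·... ` precisely `f0 = V0 - V1/2 - V2`, `f1 = V1 - V0/2`, `f2 = 2 V2 - V0 - V4`,
  `f4 = 2 V4 - V2`; solve.  So all four are divisible by `M`: `V = M • (u + sv u)` with
  `u = (V0/2M, V1/2M, V2/M, 0, V4/M, 0)`.
* `lat_norm`: `ip (u + sv u) (u + sv u) = 2 ip u u + 2 ip u (sv u)`, `ip u u` is even and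
  `ip u (sv u) = 2 (u0² + u1²) + 2(…)` is even: coefficients: `ip u (sv u) = ∑ C i j u_i u_(tau j)`; the
  terms with `(i, tau j)` and `(tau j, i)` are equal (`C6_tau`) and the terms `j = tau i`: `C i (tau i) u_i²`
  is even.  So the norm is divisible by 4, and 0 only for the zero vector (`H.pos`).
* `T4_eq`: `t ∈ TT ⊓ GF`: weights `c_i = wt t α_i`, `c_2 = c_3`, `c_4 = c_5` (commutes with `Sg`).
  The Cartan matrix of F_4 has determinant 1: there are `y` invariant combos: find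
  `t' = hd α0 x0 * hd α1 x1 * hd (α2+α3) x2 * hd (α4+α5) x4` with the same weights at the simple roots:
  `c0 = x0² x1⁻¹ x2⁻²`, `c1 = x1² x0⁻¹`, `c2 = x2² x0⁻¹ x4⁻¹`, `c4 = x4² x2⁻¹`, solve; two elements of
  `TT` with the same weights at the simple roots are equal (weights are multiplicative on sums:
  every root is a combination of simple roots; use `wt_hd`-type argument: the ratio `r` of the
  weights satisfies `r(a+b) = r(a) r(b)`; induct on the height; or show that for a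
  root `a` there is a simple root `b` with `ip a b = 1` unless `a` is negative…; alternative:
  kernel check that every positive root of `P6` is simple or a sum of a simple and a smaller root
  in the list).
* `T4_surj`: `a` has `y` invariant with `ip y a = 1`: kernel check on `P6` (or: `ip · a` on
  invariant vectors has gcd 1 by `lat_dual`).
* `T4_sep`: take `t = hd y c`, `c` a generator of `K^*` (order `m = q - 1 ≥ 6`): if `wt t a = wt t b` for
  all these, `m ∣ ip y (a - b)` for all invariant `y`; `lat_dual`: `a - b + sv (a - b) = m • …` has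
  norm `≥ 4 m² ≥ 144` or 0; but the norm is `≤ (√8 + √8)² = 32` (norm of `a + sg a` is 8 or 4).
  So `Eq4 a b` (`Eq4_iff`).  `T4_sep2`: `m ∣ 2 ip y (a-b)`: `(m/2)² · 4 ≥ 36 > 32`.
* `T4_surj2`: `a`, `b` short, `dg a b = -1`: invariant `y`, `z` with `(ip y a, ip y b) = (1,0)`,
  `(ip z a, ip z b) = (0,1)`: kernel check on pairs (candidates: `cv d` for roots `d`, or small
  vectors).
* `comp4`: the weight spaces of `T4` on `LL` are `L0` and the spans of `e_a, e_(sg a)`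
  (`T4_sep`, `T4_sep0`); operators `∏ (t_b - wt t_b b)/(wt t_b a - wt t_b b)` as in
  `B.Tor`, `comp_mem` (a general lemma `tor_comp` is private there; copy it).
* `xf_all`: as `xr_all` in `B.Tor` with `T4_surj`.
-/

namespace Pool.Agent.H31.F4

open Pool.Agent.H33.EL (ip cc eps Rt ng zk ek fk LL hh e brf fmf br fm IsExt exl ex xr hd L0 GG T1 TT NN SF cj wt)

variable {K : Type} [Field K]

theorem TorL_symm (i j : Fin 6) : C6 i j = C6 j i := by
  fin_cases i <;> fin_cases j <;> rfl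

theorem TorL_ip (x y : Fin 6 → ℤ) : ip C6 x y =
    x 0 * (2 * y 0 - y 1 - y 2 - y 3) + x 1 * (2 * y 1 - y 0) + x 2 * (2 * y 2 - y 0 - y 4) +
      x 3 * (2 * y 3 - y 0 - y 5) + x 4 * (2 * y 4 - y 2) + x 5 * (2 * y 5 - y 3) := by
  simp only [ip, C6, Fin.sum_univ_six, Matrix.of_apply, Matrix.cons_val', Matrix.cons_val_zero,
    Matrix.cons_val_one, Matrix.cons_val]
  ring

theorem TorL_sv (x : Fin 6 → ℤ) : sv x = ![x 0, x 1, x 3, x 2, x 5, x 4] := by
  funext i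
  fin_cases i <;> rfl

theorem TorL_sv_add (x y : Fin 6 → ℤ) : sv (x + y) = sv x + sv y := rfl
theorem TorL_sv_sub (x y : Fin 6 → ℤ) : sv (x - y) = sv x - sv y := rfl
theorem TorL_sv_smul (k : ℤ) (x : Fin 6 → ℤ) : sv (k • x) = k • sv x := rfl

theorem lat_dual {M : ℤ} (v : Fin 6 → ℤ) (h : ∀ y : Fin 6 → ℤ, sv y = y → M ∣ ip C6 y v) :
    ∃ u : Fin 6 → ℤ, v + sv v = M • (u + sv u) := by
  have h0 := h ![1, 0, 0, 0, 0, 0] (by rw [TorL_sv]; rfl)
  have h1 := h ![0, 1, 0, 0, 0, 0] (by rw [TorL_sv]; rfl)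
  have h2 := h ![0, 0, 1, 1, 0, 0] (by rw [TorL_sv]; rfl)
  have h4 := h ![0, 0, 0, 0, 1, 1] (by rw [TorL_sv]; rfl)
  rw [TorL_ip] at h0 h1 h2 h4
  obtain ⟨k0, h0⟩ := h0
  obtain ⟨k1, h1⟩ := h1
  obtain ⟨k2, h2⟩ := h2
  obtain ⟨k4, h4⟩ := h4
  simp only [Matrix.cons_val_zero, Matrix.cons_val_one, Matrix.cons_val, one_mul, zero_mul,
    add_zero, zero_add] at h0 h1 h2 h4
  refine ⟨![2 * k4 + 3 * k1 + 6 * k0 + 4 * k2, k4 + 2 * k1 + 3 * k0 + 2 * k2,
    3 * k4 + 4 * k1 + 8 * k0 + 6 * k2, 0, 2 * k4 + 2 * k1 + 4 * k0 + 3 * k2, 0], ?_⟩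
  rw [TorL_sv, TorL_sv]
  funext i
  fin_cases i <;>
    simp [Pi.add_apply, Pi.smul_apply] <;> linarith

theorem lat_norm (H : HypW C6 K) (u : Fin 6 → ℤ) :
    (∃ k : ℤ, ip C6 (u + sv u) (u + sv u) = 4 * k) ∧
    (ip C6 (u + sv u) (u + sv u) = 0 → u + sv u = 0) := by
  refine ⟨⟨2 * u 0 ^ 2 + 2 * u 1 ^ 2 + (u 2 + u 3) ^ 2 + (u 4 + u 5) ^ 2 - 2 * u 0 * u 1 -
    2 * u 0 * (u 2 + u 3) - (u 2 + u 3) * (u 4 + u 5), ?_⟩, fun h => ?_⟩
  · rw [TorL_ip, TorL_sv]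
    simp [Pi.add_apply]
    ring
  · by_contra h0
    exact absurd h (H.pos _ h0).ne'

theorem norm_root (a : Rt C6) :
    ip C6 (a.1 + (sg a).1) (a.1 + (sg a).1) = if sg a = a then 8 else 4 := by
  have h1 : ip C6 a.1 a.1 = 2 := a.2
  have h2 : ip C6 (sg a).1 (sg a).1 = 2 := (sg a).2
  rw [ip_add_left, ip_add_right, ip_add_right, h1, h2, ip_comm TorL_symm (sg a).1 a.1]
  split_ifs with h
  · rw [h, h1]
    norm_num
  · rw [cb_self a h]
    norm_num

/-- `M`-divisibility for a vector of small norm -/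
theorem TorL_small (H : HypW C6 K) {M : ℤ} (v : Fin 6 → ℤ)
    (h : ∀ y : Fin 6 → ℤ, sv y = y → M ∣ ip C6 y v) :
    ∃ k : ℤ, 0 ≤ k ∧ ip C6 (v + sv v) (v + sv v) = M ^ 2 * (4 * k) ∧
      (k = 0 → v + sv v = 0) := by
  obtain ⟨u, hu⟩ := lat_dual v h
  obtain ⟨⟨k, hk⟩, h0⟩ := lat_norm H u
  have h1 : ip C6 (v + sv v) (v + sv v) = M ^ 2 * (4 * k) := by
    rw [hu, ip_smul_left, ip_smul_right, hk]
    ring
  have h2 := Ip_nonneg H (u + sv u)
  refine ⟨k, by omega, h1, fun hk0 => ?_⟩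
  rw [hu, h0 (by rw [hk, hk0, mul_zero]), smul_zero]

theorem TorL_hd_Sg {y : Fin 6 → ℤ} (hy : sv y = y) (c : Kˣ) (x : LL C6 K) :
    hd C6 y c (Sg K x) = Sg K (hd C6 y c x) := by
  refine Prod.ext rfl (funext fun b => ?_)
  show ((c ^ (ip C6 y b.1) : Kˣ) : K) * x.2 (sg b) =
    ((c ^ (ip C6 y (sg b).1) : Kˣ) : K) * x.2 (sg b)
  have h1 : ip C6 y (sg b).1 = ip C6 y b.1 := by
    nth_rewrite 1 [← hy]
    exact ip_sv y b.1
  rw [h1]

theorem T4_le_TT (H : HypW C6 K) : T4 K ≤ TT C6 K := by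
  unfold T4
  rw [Subgroup.closure_le]
  rintro _ ⟨y, c, _, rfl⟩
  exact hd_mem_TT H _ _
theorem T4_le_GF (H : HypW C6 K) : T4 K ≤ GF K := by
  unfold T4
  rw [Subgroup.closure_le]
  rintro _ ⟨y, c, hy, rfl⟩
  exact mem_GF (hd_mem_GG H _ _) (fun x => TorL_hd_Sg hy c x)

theorem hd_mem_T4 {y : Fin 6 → ℤ} (hy : sv y = y) (c : Kˣ) : hd C6 y c ∈ T4 K :=
  Subgroup.subset_closure ⟨y, c, hy, rfl⟩

theorem wt_sg (H : HypW C6 K) {t : LL C6 K ≃ₗ[K] LL C6 K} (ht : t ∈ T4 K) (a : Rt C6) :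
    wt t (sg a) = wt t a := by
  have h1 := GF_Sg (T4_le_GF H ht) (e K a)
  rw [Sg_e] at h1
  unfold wt
  rw [h1]
  show (t (e K a)).2 (sg (sg a)) = (t (e K a)).2 a
  rw [sg_sg]

theorem wt_sm (H : HypW C6 K) {t : LL C6 K ≃ₗ[K] LL C6 K} (ht : t ∈ T4 K) {a b c : Rt C6}
    (h : Sm a b c) : wt t c = wt t a * wt t b := by
  have key : t ∈ TT C6 K ∧ wt t c = wt t a * wt t b := by
    unfold T4 at ht
    induction ht using Subgroup.closure_induction with
    | mem g hg =>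
      obtain ⟨y, d, hy, rfl⟩ := hg
      refine ⟨hd_mem_TT H _ _, ?_⟩
      rw [wt_hd, wt_hd, wt_hd, sm_ip h hy, zpow_add, Units.val_mul]
    | one =>
      refine ⟨one_mem _, ?_⟩
      rw [wt_one, wt_one, wt_one, mul_one]
    | mul g g' _ _ hg hg' =>
      refine ⟨mul_mem hg.1 hg'.1, ?_⟩
      rw [wt_mul H hg.1 hg'.1, wt_mul H hg.1 hg'.1, wt_mul H hg.1 hg'.1, hg.2, hg'.2]
      ring
    | inv g _ hg =>
      refine ⟨inv_mem hg.1, ?_⟩
      rw [wt_inv H hg.1, wt_inv H hg.1, wt_inv H hg.1, hg.2, mul_inv]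
  exact key.2

theorem wt_hd_cv (a b : Rt C6) (c : Kˣ) :
    wt (hd C6 (cv a) c : LL C6 K ≃ₗ[K] LL C6 K) b = ((c ^ (dg a b) : Kˣ) : K) :=
  wt_hd (cv a) c b

theorem TorL_one (H : HypW C6 K) (a : Rt C6) : ∃ y : Fin 6 → ℤ, sv y = y ∧ ip C6 y a.1 = 1 := by
  obtain ⟨y, hy, h1⟩ : ∃ y : Fin 6 → ℤ, sv y = y ∧ ¬ (2 : ℤ) ∣ ip C6 y a.1 := by
    by_contra hcon
    push Not at hcon
    obtain ⟨k, _, h1, _⟩ := TorL_small H a.1 hcon
    have h2 : ip C6 (a.1 + sv a.1) (a.1 + sv a.1) = if sg a = a then 8 else 4 := norm_root a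
    rw [h2] at h1
    split_ifs at h1 <;> omega
  have h2 : ip C6 (cv a) a.1 = 2 := dg_self a
  refine ⟨y - (ip C6 y a.1 / 2) • cv a, ?_, ?_⟩
  · rw [TorL_sv_sub, TorL_sv_smul, hy, sv_cv]
  · rw [ip_sub_left, ip_smul_left, h2]
    omega

theorem TorL_two (H : HypW C6 K) {a b : Rt C6} (ha : sg a ≠ a) (hb : sg b ≠ b)
    (h : dg a b = -1) : ∃ y : Fin 6 → ℤ, sv y = y ∧ ip C6 y a.1 = 1 ∧ ip C6 y b.1 = 0 := by
  have haa : ip C6 (cv a) a.1 = 2 := dg_self a
  have hbb : ip C6 (cv b) b.1 = 2 := dg_self b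
  have hab : ip C6 (cv a) b.1 = -1 := h
  have hba : ip C6 (cv b) a.1 = -1 := by
    have h1 := dg_symm a b ⟨fun h => absurd h ha, fun h => absurd h hb⟩
    rw [h] at h1
    exact h1.symm
  have hca : cv a = a.1 + (sg a).1 := if_neg ha
  have hcb : cv b = b.1 + (sg b).1 := if_neg hb
  obtain ⟨y, hy, h1⟩ : ∃ y : Fin 6 → ℤ, sv y = y ∧ ¬ (3 : ℤ) ∣ ip C6 y (a.1 - b.1) := by
    by_contra hcon
    push Not at hcon
    obtain ⟨k, _, h1, _⟩ := TorL_small H (a.1 - b.1) hcon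
    have h2 : a.1 - b.1 + sv (a.1 - b.1) = cv a - cv b := by
      rw [hca, hcb, TorL_sv_sub]
      show a.1 - b.1 + (sv a.1 - sv b.1) = a.1 + sv a.1 - (b.1 + sv b.1)
      abel
    have h3 : ip C6 (cv a) (cv a) = 4 := by
      have h4 := norm_root a
      rw [if_neg ha, ← hca] at h4
      exact h4
    have h4 : ip C6 (cv b) (cv b) = 4 := by
      have h5 := norm_root b
      rw [if_neg hb, ← hcb] at h5
      exact h5
    have h5 : ip C6 (cv a) (cv b) = -2 := by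
      have h6 : ip C6 (cv a) (sg b).1 = -1 := (dg_sg_right a b).trans h
      rw [hcb, ip_add_right, hab, h6]
      norm_num
    rw [h2, ip_sub_left, ip_sub_right, ip_sub_right, ip_comm TorL_symm (cv b) (cv a), h3, h4,
      h5] at h1
    omega
  rw [ip_sub_right] at h1
  set p := ip C6 y a.1 with hp
  set q := ip C6 y b.1 with hq
  have h2 : (p - q) % 3 = 1 ∨ (p - q) % 3 = 2 := by omega
  rcases h2 with h2 | h2
  · refine ⟨y + ((2 * (1 - p) - q) / 3) • cv a + ((1 - p - 2 * q) / 3) • cv b, ?_, ?_, ?_⟩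
    · rw [TorL_sv_add, TorL_sv_add, TorL_sv_smul, TorL_sv_smul, hy, sv_cv, sv_cv]
    · rw [ip_add_left, ip_add_left, ip_smul_left, ip_smul_left, haa, hba, ← hp]
      omega
    · rw [ip_add_left, ip_add_left, ip_smul_left, ip_smul_left, hab, hbb, ← hq]
      omega
  · refine ⟨-y + ((2 * (1 + p) + q) / 3) • cv a + ((1 + p + 2 * q) / 3) • cv b, ?_, ?_, ?_⟩
    · rw [TorL_sv_add, TorL_sv_add, TorL_sv_smul, TorL_sv_smul, sv_cv, sv_cv]
      congr 2
      show -(sv y) = -y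
      rw [hy]
    · rw [ip_add_left, ip_add_left, ip_smul_left, ip_smul_left, haa, hba, ip_neg_left, ← hp]
      omega
    · rw [ip_add_left, ip_add_left, ip_smul_left, ip_smul_left, hab, hbb, ip_neg_left, ← hq]
      omega

theorem T4_surj (H : HypW C6 K) (a : Rt C6) {c : K} (hc : c ≠ 0) : ∃ t ∈ T4 K, wt t a = c := by
  obtain ⟨y, hy, h1⟩ := TorL_one H a
  refine ⟨hd C6 y (Units.mk0 c hc), hd_mem_T4 hy _, ?_⟩
  rw [wt_hd, h1, zpow_one, Units.val_mk0]

theorem T4_surj2 (H : HypW C6 K) {a b : Rt C6} (ha : sg a ≠ a) (hb : sg b ≠ b) (h : dg a b = -1)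
    {c d : K} (hc : c ≠ 0) (hd : d ≠ 0) : ∃ t ∈ T4 K, wt t a = c ∧ wt t b = d := by
  obtain ⟨y, hy, hy1, hy2⟩ := TorL_two H ha hb h
  have h' : dg b a = -1 := by
    rw [← dg_symm a b ⟨fun h => absurd h ha, fun h => absurd h hb⟩, h]
  obtain ⟨z, hz, hz1, hz2⟩ := TorL_two H hb ha h'
  refine ⟨Pool.Agent.H33.EL.hd C6 y (Units.mk0 c hc) * Pool.Agent.H33.EL.hd C6 z (Units.mk0 d hd),
    mul_mem (hd_mem_T4 hy _) (hd_mem_T4 hz _), ?_, ?_⟩
  · rw [wt_mul H (hd_mem_TT H _ _) (hd_mem_TT H _ _), wt_hd, wt_hd, hy1, hz2, zpow_one, zpow_zero,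
      Units.val_mk0, Units.val_one, mul_one]
  · rw [wt_mul H (hd_mem_TT H _ _) (hd_mem_TT H _ _), wt_hd, wt_hd, hy2, hz1, zpow_one, zpow_zero,
      Units.val_mk0, Units.val_one, one_mul]

theorem TorL_exists (H : HypW C6 K) : ∃ c : K, c ≠ 0 ∧ c ≠ 1 ∧ c ≠ -1 := by
  by_contra hcon
  push Not at hcon
  have h1 : (Set.univ : Set K) ⊆ {0, 1, -1} := by
    intro c _
    by_cases h0 : c = 0
    · exact Or.inl h0
    · by_cases h1 : c = 1
      · exact Or.inr (Or.inl h1)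
      · exact Or.inr (Or.inr (hcon c h0 h1))
  have h2 : (Set.univ : Set K).ncard ≤ ({0, 1, -1} : Set K).ncard :=
    Set.ncard_le_ncard h1 (Set.toFinite _)
  have h3 : ({0, 1, -1} : Set K).ncard ≤ 3 := by
    refine (Set.ncard_insert_le _ _).trans ?_
    have := Set.ncard_insert_le (1 : K) {-1}
    rw [Set.ncard_singleton] at this
    omega
  rw [Set.ncard_univ] at h2
  rcases H.card with h | h | h <;> omega

theorem TorL_norm_le (H : HypW C6 K) (a b : Rt C6) :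
    ip C6 (a.1 - b.1 + sv (a.1 - b.1)) (a.1 - b.1 + sv (a.1 - b.1)) ≤ 32 := by
  have h2 : a.1 - b.1 + sv (a.1 - b.1) = (a.1 + (sg a).1) - (b.1 + (sg b).1) := by
    rw [TorL_sv_sub]
    show a.1 - b.1 + (sv a.1 - sv b.1) = a.1 + sv a.1 - (b.1 + sv b.1)
    abel
  have h3 := norm_root a
  have h4 := norm_root b
  have h5 := neg_two_le_ip H a b
  have h6 := neg_two_le_ip H a (sg b)
  have h7 := neg_two_le_ip H (sg a) b
  have h8 := neg_two_le_ip H (sg a) (sg b)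
  rw [h2, ip_sub_left, ip_sub_right, ip_sub_right, ip_comm TorL_symm (b.1 + (sg b).1)
    (a.1 + (sg a).1), h3, h4]
  have h9 : ip C6 (a.1 + (sg a).1) (b.1 + (sg b).1) = ip C6 a.1 b.1 + ip C6 a.1 (sg b).1 +
      (ip C6 (sg a).1 b.1 + ip C6 (sg a).1 (sg b).1) := by
    rw [ip_add_left, ip_add_right, ip_add_right]
  rw [h9]
  split_ifs <;> omega

theorem T4_sep2 (H : HypW C6 K) {a b : Rt C6} (h : ¬ Eq4 a b) :
    ∃ t ∈ T4 K, wt t a ^ 2 ≠ wt t b ^ 2 := by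
  by_contra hcon
  push Not at hcon
  have hfin : Finite K := by
    apply Nat.finite_of_card_ne_zero
    rcases H.card with h | h | h <;> omega
  obtain ⟨g, hg⟩ := IsCyclic.exists_ofOrder_eq_natCard (α := Kˣ)
  rw [Nat.card_units] at hg
  have h1 : ∀ y : Fin 6 → ℤ, sv y = y →
      (((Nat.card K - 1 : ℕ) : ℤ)) ∣ 2 * ip C6 y (a.1 - b.1) := by
    intro y hy
    have h2 := hcon _ (hd_mem_T4 hy g)
    rw [wt_hd, wt_hd, ← Units.val_pow_eq_pow_val, ← Units.val_pow_eq_pow_val, Units.val_inj,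
      ← zpow_natCast, ← zpow_natCast, ← zpow_mul, ← zpow_mul] at h2
    rw [← hg, orderOf_dvd_iff_zpow_eq_one, ip_sub_right, mul_sub, zpow_sub, mul_comm 2,
      mul_comm 2, mul_inv_eq_one]
    exact h2
  have h3 : ∀ M : ℤ, 3 ≤ M → ((Nat.card K - 1 : ℕ) : ℤ) = 2 * M → False := by
    intro M hM h4
    obtain ⟨k, hk, h5, h6⟩ := TorL_small H (M := M) (a.1 - b.1) (fun y hy => by
      have h7 := h1 y hy
      rw [h4] at h7
      exact (mul_dvd_mul_iff_left (by norm_num)).1 h7)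
    have h8 := TorL_norm_le H a b
    rw [h5] at h8
    have h9 : k = 0 := by
      by_contra h10
      have h11 : 1 ≤ k := by omega
      nlinarith [mul_le_mul hM hM (by norm_num) (by linarith : (0 : ℤ) ≤ M)]
    have h10 := h6 h9
    apply h
    rw [Eq4_iff]
    rw [TorL_sv_sub] at h10
    have h11 : a.1 + sv a.1 - (b.1 + sv b.1) = 0 := by
      rw [← h10]
      abel
    exact sub_eq_zero.1 h11
  rcases H.card with h | h | h
  · exact h3 3 (by norm_num) (by rw [h]; rfl)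
  · exact h3 4 (by norm_num) (by rw [h]; rfl)
  · exact h3 5 (by norm_num) (by rw [h]; rfl)

theorem T4_sep (H : HypW C6 K) {a b : Rt C6} (h : ¬ Eq4 a b) : ∃ t ∈ T4 K, wt t a ≠ wt t b := by
  obtain ⟨t, ht, h1⟩ := T4_sep2 H h
  exact ⟨t, ht, fun h2 => h1 (by rw [h2])⟩

theorem T4_sep02 (H : HypW C6 K) (a : Rt C6) : ∃ t ∈ T4 K, wt t a ^ 2 ≠ 1 := by
  obtain ⟨c, h0, h1, h2⟩ := TorL_exists H
  obtain ⟨t, ht, h3⟩ := T4_surj H a h0
  refine ⟨t, ht, fun h4 => ?_⟩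
  rw [h3, pow_two] at h4
  rcases mul_self_eq_one_iff.1 h4 with h5 | h5
  · exact h1 h5
  · exact h2 h5

theorem T4_sep0 (H : HypW C6 K) (a : Rt C6) : ∃ t ∈ T4 K, wt t a ≠ 1 := by
  obtain ⟨t, ht, h1⟩ := T4_sep02 H a
  exact ⟨t, ht, fun h2 => h1 (by rw [h2, one_pow])⟩

/-- induction over the roots, starting with the simple roots -/
theorem TorL_ind (H : HypW C6 K) {P : Rt C6 → Prop}
    (h0 : ∀ (i : Fin 6) (a : Rt C6), a.1 = Pi.single i 1 → P a)
    (hneg : ∀ a, P a → P (ng a)) (hadd : ∀ a b c : Rt C6, c.1 = a.1 + b.1 → P a → P b → P c) :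
    ∀ a, P a := by
  have key : ∀ N : ℕ, ∀ a : Rt C6, (∑ i, (a.1 i).natAbs) ≤ N → P a := by
    intro N
    induction N with
    | zero =>
      intro a ha
      exfalso
      have h1 : ip C6 a.1 a.1 = 2 := a.2
      have h2 : a.1 = 0 := by
        funext i
        have h3 := Finset.sum_eq_zero_iff.1 (Nat.le_zero.1 ha) i (Finset.mem_univ i)
        exact Int.natAbs_eq_zero.1 h3
      rw [h2, ip_zero_left] at h1
      omega
    | succ N ih =>
      intro a ha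
      have hsum : ∀ (i : Fin 6) (s : ℤ), (a.1 i - s).natAbs < (a.1 i).natAbs →
          ∀ b : Rt C6, b.1 = a.1 - s • Pi.single i 1 → (∑ j, (b.1 j).natAbs) ≤ N := by
        intro i s hs b hb
        have h1 : (∑ j, (b.1 j).natAbs) < ∑ j, (a.1 j).natAbs := by
          refine Finset.sum_lt_sum (fun j _ => ?_) ⟨i, Finset.mem_univ i, ?_⟩
          · rw [hb]
            by_cases hj : j = i
            · subst hj
              simp only [Pi.sub_apply, Pi.smul_apply, Pi.single_eq_same, smul_eq_mul, mul_one]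
              exact hs.le
            · simp only [Pi.sub_apply, Pi.smul_apply, Pi.single_eq_of_ne hj, smul_eq_mul,
                mul_zero, sub_zero]
              exact le_rfl
          · rw [hb]
            simp only [Pi.sub_apply, Pi.smul_apply, Pi.single_eq_same, smul_eq_mul, mul_one]
            exact hs
        omega
      obtain ⟨i, hi⟩ : ∃ i, 0 < a.1 i * ip C6 (Pi.single i 1) a.1 := by
        by_contra hcon
        push Not at hcon
        have h1 : ip C6 a.1 a.1 = 2 := a.2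
        have h2 : ip C6 a.1 a.1 = ∑ i, a.1 i * ip C6 (Pi.single i 1) a.1 := by
          unfold ip
          refine Finset.sum_congr rfl fun i _ => ?_
          have h3 := ip_single_left (C := C6) i a.1
          unfold ip at h3
          rw [h3, Finset.mul_sum]
          refine Finset.sum_congr rfl fun j _ => ?_
          ring
        have h3 := Finset.sum_nonpos (fun i (_ : i ∈ Finset.univ) => hcon i)
        rw [← h2, h1] at h3
        omega
      let s : Rt C6 := ⟨Pi.single i 1, ip_simple H i⟩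
      have hs : s.1 = Pi.single i 1 := rfl
      have hPs : P s := h0 i s hs
      have hi' : 0 < a.1 i * ip C6 s.1 a.1 := hi
      rcases ip_cases H s a with h | h | h | h | h
      · rw [h]
        exact hneg s hPs
      · rw [h] at hi'
        have hb : ip C6 (s.1 + a.1) (s.1 + a.1) = 2 := root_add H h
        let b : Rt C6 := ⟨s.1 + a.1, hb⟩
        have hPb : P b := ih b (hsum i (-1) (by omega) b (by
          show s.1 + a.1 = _
          rw [hs]
          module))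
        refine hadd b (ng s) a ?_ hPb (hneg s hPs)
        show a.1 = s.1 + a.1 + -s.1
        abel
      · rw [h, mul_zero] at hi'
        exact absurd hi' (lt_irrefl _)
      · rw [h] at hi'
        have hb : ip C6 (a.1 - s.1) (a.1 - s.1) = 2 := by
          apply root_sub H
          rw [ip_comm TorL_symm, h]
        let b : Rt C6 := ⟨a.1 - s.1, hb⟩
        have hPb : P b := ih b (hsum i 1 (by omega) b (by
          show a.1 - s.1 = _
          rw [hs]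
          module))
        refine hadd b s a ?_ hPb hPs
        show a.1 = a.1 - s.1 + s.1
        abel
      · rw [h]
        exact hPs
  intro a
  exact key _ a le_rfl

theorem TorL_add {A : Type} [AddCommGroup A] (a b c d : A) (n0 n1 n2 n4 : ℤ) :
    n0 • (6 • a + 3 • b + 8 • c + 4 • d) + n1 • (3 • a + 2 • b + 4 • c + 2 • d) +
      n2 • (4 • a + 2 • b + 6 • c + 3 • d) + n4 • (2 • a + 1 • b + 3 • c + 2 • d) =
    (6 * n0 + 3 * n1 + 4 * n2 + 2 * n4) • a + (3 * n0 + 2 * n1 + 2 * n2 + n4) • b +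
      (8 * n0 + 4 * n1 + 6 * n2 + 3 * n4) • c + (4 * n0 + 2 * n1 + 3 * n2 + 2 * n4) • d := by
  module

theorem TorL_mul {A : Type} [CommGroup A] (a b c d : A) (n0 n1 n2 n4 : ℤ) :
    (a ^ 6 * b ^ 3 * c ^ 8 * d ^ 4) ^ n0 * (a ^ 3 * b ^ 2 * c ^ 4 * d ^ 2) ^ n1 *
      (a ^ 4 * b ^ 2 * c ^ 6 * d ^ 3) ^ n2 * (a ^ 2 * b ^ 1 * c ^ 3 * d ^ 2) ^ n4 =
    a ^ (6 * n0 + 3 * n1 + 4 * n2 + 2 * n4) * b ^ (3 * n0 + 2 * n1 + 2 * n2 + n4) *
      c ^ (8 * n0 + 4 * n1 + 6 * n2 + 3 * n4) * d ^ (4 * n0 + 2 * n1 + 3 * n2 + 2 * n4) :=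
  TorL_add (A := Additive A) a b c d n0 n1 n2 n4

theorem T4_eq (H : HypW C6 K) {t : LL C6 K ≃ₗ[K] LL C6 K} (h1 : t ∈ TT C6 K) (h2 : t ∈ GF K) :
    t ∈ T4 K := by
  let al : Fin 6 → Rt C6 := fun i => ⟨Pi.single i 1, ip_simple H i⟩
  have hal : ∀ i, (al i).1 = Pi.single i 1 := fun i => rfl
  have hsg : ∀ a : Rt C6, wt t (sg a) = wt t a := by
    intro a
    have h1 := GF_Sg h2 (e K a)
    rw [Sg_e] at h1
    unfold wt
    rw [h1]
    show (t (e K a)).2 (sg (sg a)) = (t (e K a)).2 a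
    rw [sg_sg]
  have hsv : ∀ i, sv (Pi.single i 1 : Fin 6 → ℤ) = Pi.single (tau i) 1 := by
    intro i
    fin_cases i <;> (funext j; fin_cases j <;> rfl)
  have hsa : ∀ i, sg (al i) = al (tau i) := fun i => Subtype.ext (hsv i)
  have hc : ∀ i, wt t (al i) ≠ 0 := fun i => wt_ne_zero H h1 _
  let c : Fin 6 → Kˣ := fun i => Units.mk0 (wt t (al i)) (hc i)
  have hcv : ∀ i, ((c i : Kˣ) : K) = wt t (al i) := fun i => rfl
  have hct : ∀ i, c (tau i) = c i := by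
    intro i
    apply Units.ext
    rw [hcv, hcv, ← hsa, hsg]
  let x0 : Kˣ := c 0 ^ 6 * c 1 ^ 3 * c 2 ^ 8 * c 4 ^ 4
  let x1 : Kˣ := c 0 ^ 3 * c 1 ^ 2 * c 2 ^ 4 * c 4 ^ 2
  let x2 : Kˣ := c 0 ^ 4 * c 1 ^ 2 * c 2 ^ 6 * c 4 ^ 3
  let x4 : Kˣ := c 0 ^ 2 * c 1 ^ 1 * c 2 ^ 3 * c 4 ^ 2
  let t' : LL C6 K ≃ₗ[K] LL C6 K := hd C6 ![1, 0, 0, 0, 0, 0] x0 * hd C6 ![0, 1, 0, 0, 0, 0] x1 *
    hd C6 ![0, 0, 1, 1, 0, 0] x2 * hd C6 ![0, 0, 0, 0, 1, 1] x4
  have ht' : t' ∈ T4 K := by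
    refine mul_mem (mul_mem (mul_mem ?_ ?_) ?_) ?_
    all_goals exact hd_mem_T4 (by rw [TorL_sv]; rfl) _
  have hw : ∀ a : Rt C6, wt t' a =
      ((x0 ^ (ip C6 ![1, 0, 0, 0, 0, 0] a.1) * x1 ^ (ip C6 ![0, 1, 0, 0, 0, 0] a.1) *
        x2 ^ (ip C6 ![0, 0, 1, 1, 0, 0] a.1) * x4 ^ (ip C6 ![0, 0, 0, 0, 1, 1] a.1) : Kˣ) : K) := by
    intro a
    show wt (_ * _ * _ * _) a = _
    rw [wt_mul H (mul_mem (mul_mem (hd_mem_TT H _ _) (hd_mem_TT H _ _)) (hd_mem_TT H _ _))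
      (hd_mem_TT H _ _), wt_mul H (mul_mem (hd_mem_TT H _ _) (hd_mem_TT H _ _)) (hd_mem_TT H _ _),
      wt_mul H (hd_mem_TT H _ _) (hd_mem_TT H _ _), wt_hd, wt_hd, wt_hd, wt_hd]
    simp only [Units.val_mul]
  have hsimp : ∀ i, wt t' (al i) = wt t (al i) := by
    intro i
    rw [hw, ← hcv]
    congr 1
    have hc3 : c 3 = c 2 := hct 2
    have hc5 : c 5 = c 4 := hct 4
    have hip : ∀ (y : Fin 6 → ℤ), ip C6 y (al i).1 = ∑ j, C6 i j * y j := by
      intro y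
      rw [ip_comm TorL_symm, hal, ip_single_left]
    rw [hip, hip, hip, hip]
    show (c 0 ^ 6 * c 1 ^ 3 * c 2 ^ 8 * c 4 ^ 4) ^ _ * (c 0 ^ 3 * c 1 ^ 2 * c 2 ^ 4 * c 4 ^ 2) ^ _ *
      (c 0 ^ 4 * c 1 ^ 2 * c 2 ^ 6 * c 4 ^ 3) ^ _ * (c 0 ^ 2 * c 1 ^ 1 * c 2 ^ 3 * c 4 ^ 2) ^ _ = c i
    rw [TorL_mul]
    simp only [Fin.sum_univ_six]
    fin_cases i <;> simp [C6, hc3, hc5]
  have hall : ∀ a : Rt C6, wt t' a = wt t a := by
    have hT' := T4_le_TT H ht'
    refine TorL_ind H ?_ ?_ ?_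
    · intro i a ha
      have : a = al i := Subtype.ext ha
      rw [this]
      exact hsimp i
    · intro a ha
      rw [wt_ng H hT', wt_ng H h1, ha]
    · intro a b d hd ha hb
      rw [wt_add H hT' hd, wt_add H h1 hd, ha, hb]
  rw [← TT_ext H (T4_le_TT H ht') h1 hall]
  exact ht'

end Pool.Agent.H31.F4
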