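import Pool.Agent.H31.F4.Fr4
import Pool.Agent.H31.F4.Tor4
import Pool.Agent.H31.F4.DBrB
import Pool.Agent.H33.TO.Defs

/-!
# FF-62: the 9-dimensional module of a frame: form and torus

`bt k none = (1/2) hh (zk (k 0 - sg (k 0)))`, `bt k (i,true) = wf (k i)`, `bt k (i,false) = -(1/2) wf (ng (k i))`.
`Phi_fm`: `fm (bt a) (bt b) = 1` if `b = ng a`, else 0: `fm (wf a) (wf (ng a)) = -2` (`fm_w`), other pairs are
orthogonal (not opposite), `fk (zk (a - sa)) (zk (a - sa)) = 4` (`cb_self`).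
`Phi_inj`: the form `bl` is non degenerate.
`V9_tor`: `hd a.1 c`, `a` long with `Sm (k 0) (k i) a` (`sm_of_orth`), has weight `c` at `k 0`, `k i` and 1 at the other
`k j` (`dg a (k j)` from `sm_dg`: `dg (k j) a = dg (k j) (k 0) + dg (k j) (k i)`, `dg_SL`); `hd (cv (k 0)) c` has weight `c²` at `k 0`
and 1 at the others.  With `∏ τ = σ²`, `ρ = τ 1 * τ 2 * τ 3`:
`t = hd a1 (τ 1) * hd a2 (τ 2) * hd a3 (τ 3) * hd (cv (k 0)) (σ ρ⁻¹)`.
-/

namespace Pool.Agent.H31.F4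

open Pool.Agent.H33.EL (ip cc eps Rt ng zk ek fk LL hh e brf fmf br fm IsExt exl ex xr hd L0 GG T1 TT NN SF cj wt)

variable {K : Type} [Field K]

/-- the basis of the 9-dimensional module -/
def bt (K : Type) [Field K] (k : Fin 4 → Rt C6) : Pool.Agent.H33.TO.Ix 4 → LL C6 K
  | none => (2⁻¹ : K) • hh C6 (zk ((k 0).1 - (sg (k 0)).1))
  | some (i, true) => wf K (k i)
  | some (i, false) => (-2⁻¹ : K) • wf K (ng (k i))

/-- the embedding of the 9-dimensional module -/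
def Phi (K : Type) [Field K] (k : Fin 4 → Rt C6) :
    (Pool.Agent.H33.TO.Ix 4 → K) →ₗ[K] LL C6 K where
  toFun u := ∑ a, u a • bt K k a
  map_add' u v := by simp only [Pi.add_apply, add_smul, Finset.sum_add_distrib]
  map_smul' c u := by simp only [Pi.smul_apply, smul_eq_mul, mul_smul, Finset.smul_sum,
    RingHom.id_apply]

variable {k : Fin 4 → Rt C6}

theorem V9a_sum (u : Pool.Agent.H33.TO.Ix 4 → K) : Phi K k u = ∑ a, u a • bt K k a := rfl

theorem Phi_ev (a : Pool.Agent.H33.TO.Ix 4) :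
    Phi K k (Pool.Agent.H33.TO.ev a) = bt K k a := by
  classical
  rw [V9a_sum, Finset.sum_eq_single a]
  · unfold Pool.Agent.H33.TO.ev
    rw [Pi.single_eq_same, one_smul]
  · intro b _ hb
    unfold Pool.Agent.H33.TO.ev
    rw [Pi.single_eq_of_ne hb, zero_smul]
  · intro h
    exact absurd (Finset.mem_univ a) h

theorem V9a_hh_mem (a : Rt C6) : hh C6 (zk (a.1 - (sg a).1) : Fin 6 → K) ∈ VF K := by
  rw [mem_VF, Sg_hh, DBrB_sv_anti, hh_neg]

theorem V9a_bt_mem (a : Pool.Agent.H33.TO.Ix 4) : bt K k a ∈ VF K := by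
  match a with
  | none => exact Submodule.smul_mem _ _ (V9a_hh_mem _)
  | some (i, true) => exact wf_mem _
  | some (i, false) => exact Submodule.smul_mem _ _ (wf_mem _)

theorem Phi_VF (u : Pool.Agent.H33.TO.Ix 4 → K) : Phi K k u ∈ VF K := by
  rw [V9a_sum]
  exact Submodule.sum_mem _ fun a _ => Submodule.smul_mem _ _ (V9a_bt_mem a)

theorem V9a_dg (hk : Fr k) (i j : Fin 4) : 0 ≤ dg (k i) (k j) := by
  by_cases h : i = j
  · subst h
    rw [dg_self]
    norm_num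
  · rw [hk.orth i j h]

theorem V9a_ww (H : HypW C6 K) (hk : Fr k) (i j : Fin 4) :
    fm (wf K (k i)) (wf K (k j)) = 0 :=
  DBrB_fm_w_w H (hk.sh i) (DBrB_not_eq4 (V9a_dg hk i j))

theorem V9a_nn (H : HypW C6 K) (hk : Fr k) (i j : Fin 4) :
    fm (wf K (ng (k i))) (wf K (ng (k j))) = 0 := by
  refine DBrB_fm_w_w H (fun h => hk.sh i ((sg_ng_iff _).1 h)) (DBrB_not_eq4 ?_)
  rw [dg_ng_left, dg_ng_right, neg_neg]
  exact V9a_dg hk i j

theorem V9a_wn (H : HypW C6 K) (hk : Fr k) (i j : Fin 4) :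
    fm (wf K (k i)) (wf K (ng (k j))) = if i = j then -2 else 0 := by
  split_ifs with h
  · subst h
    rw [fm_w H (wf_mem _) (k i) (hk.sh i),
      (wf_snd_self (fun h => hk.sh i ((sg_ng_iff _).1 h))).1, mul_one]
  · refine DBrB_fm_w_w H (hk.sh i) (DBrB_not_eq4 ?_)
    rw [dg_ng_right, hk.orth i j h, neg_zero]

theorem V9a_zz (_H : HypW C6 K) (hk : Fr k) :
    fk C6 (zk ((k 0).1 - (sg (k 0)).1) : Fin 6 → K) (zk ((k 0).1 - (sg (k 0)).1)) = 4 := by
  have h1 := cb_self (k 0) (hk.sh 0)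
  rw [fk_zk_zk]
  have h2 : ip C6 ((k 0).1 - (sg (k 0)).1) ((k 0).1 - (sg (k 0)).1) = 4 := by
    rw [ip_sub_left, ip_sub_right, ip_sub_right, (k 0).2, (sg (k 0)).2, h1,
      DBrB_sv_comm, h1]
    norm_num
  rw [h2]
  norm_num

theorem V9a_half (H : HypW C6 K) : (2⁻¹ : K) * 2 = 1 := inv_mul_cancel₀ (two_ne H)

theorem V9a_w_hh (a : Rt C6) (h : Fin 6 → K) : fm (hh C6 h) (wf K a) = 0 := by
  rw [fm_hh_left, wf_fst, fk_zero_right]

theorem V9a_bb (H : HypW C6 K) (hk : Fr k) (a b : Pool.Agent.H33.TO.Ix 4) :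
    fm (bt K k a) (bt K k b) = if b = Pool.Agent.H33.TO.ng a then 1 else 0 := by
  have h2 := V9a_half H
  match a, b with
  | none, none =>
    show fm ((2⁻¹ : K) • hh C6 (zk ((k 0).1 - (sg (k 0)).1)))
      ((2⁻¹ : K) • hh C6 (zk ((k 0).1 - (sg (k 0)).1))) = _
    rw [if_pos (show (none : Pool.Agent.H33.TO.Ix 4) = Pool.Agent.H33.TO.ng none from rfl),
      map_smul, map_smul, LinearMap.smul_apply, smul_eq_mul, smul_eq_mul,
      fm_hh_left, hh_fst, V9a_zz H hk]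
    linear_combination ((2⁻¹ : K) * 2 + 1) * h2
  | none, some (j, true) =>
    show fm ((2⁻¹ : K) • hh C6 (zk ((k 0).1 - (sg (k 0)).1))) (wf K (k j)) = _
    rw [if_neg (by simp [Pool.Agent.H33.TO.ng]), map_smul, LinearMap.smul_apply, V9a_w_hh,
      smul_zero]
  | none, some (j, false) =>
    show fm ((2⁻¹ : K) • hh C6 (zk ((k 0).1 - (sg (k 0)).1))) ((-2⁻¹ : K) • wf K (ng (k j))) = _
    rw [if_neg (by simp [Pool.Agent.H33.TO.ng]), map_smul, map_smul, LinearMap.smul_apply,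
      V9a_w_hh, smul_zero, smul_zero]
  | some (i, true), none =>
    show fm (wf K (k i)) ((2⁻¹ : K) • hh C6 (zk ((k 0).1 - (sg (k 0)).1))) = _
    rw [if_neg (by simp [Pool.Agent.H33.TO.ng]), map_smul, DBrB_fm_w_hh, smul_zero]
  | some (i, false), none =>
    show fm ((-2⁻¹ : K) • wf K (ng (k i))) ((2⁻¹ : K) • hh C6 (zk ((k 0).1 - (sg (k 0)).1))) = _
    rw [if_neg (by simp [Pool.Agent.H33.TO.ng]), map_smul, map_smul, LinearMap.smul_apply,
      DBrB_fm_w_hh, smul_zero, smul_zero]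
  | some (i, true), some (j, true) =>
    show fm (wf K (k i)) (wf K (k j)) = _
    rw [if_neg (by simp [Pool.Agent.H33.TO.ng]), V9a_ww H hk]
  | some (i, false), some (j, false) =>
    show fm ((-2⁻¹ : K) • wf K (ng (k i))) ((-2⁻¹ : K) • wf K (ng (k j))) = _
    rw [if_neg (by simp [Pool.Agent.H33.TO.ng]), map_smul, map_smul, LinearMap.smul_apply,
      V9a_nn H hk, smul_zero, smul_zero]
  | some (i, true), some (j, false) =>
    show fm (wf K (k i)) ((-2⁻¹ : K) • wf K (ng (k j))) = _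
    rw [map_smul, V9a_wn H hk, smul_eq_mul]
    by_cases h : i = j
    · subst h
      rw [if_pos rfl, if_pos (show (some (i, false) : Pool.Agent.H33.TO.Ix 4) =
        Pool.Agent.H33.TO.ng (some (i, true)) from rfl)]
      linear_combination h2
    · rw [if_neg h, if_neg (fun h' => h (by
        have := Option.some.inj h'
        exact (congrArg Prod.fst this).symm)), mul_zero]
  | some (i, false), some (j, true) =>
    show fm ((-2⁻¹ : K) • wf K (ng (k i))) (wf K (k j)) = _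
    rw [map_smul, LinearMap.smul_apply, fm_comm H, V9a_wn H hk, smul_eq_mul]
    by_cases h : i = j
    · subst h
      rw [if_pos rfl, if_pos (show (some (i, true) : Pool.Agent.H33.TO.Ix 4) =
        Pool.Agent.H33.TO.ng (some (i, false)) from rfl)]
      linear_combination h2
    · rw [if_neg (fun h' => h h'.symm), if_neg (fun h' => h (by
        have := Option.some.inj h'
        exact (congrArg Prod.fst this).symm)), mul_zero]

theorem V9a_bl (u v : Pool.Agent.H33.TO.Ix 4 → K) :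
    Pool.Agent.H33.TO.bl 4 K u v = ∑ a, u a * v (Pool.Agent.H33.TO.ng a) := rfl

theorem Phi_fm (H : HypW C6 K) (hk : Fr k) (u v : Pool.Agent.H33.TO.Ix 4 → K) :
    fm (Phi K k u) (Phi K k v) = Pool.Agent.H33.TO.bl 4 K u v := by
  classical
  have h0 : fm (∑ a, u a • bt K k a) = ∑ a, u a • fm (bt K k a) := by
    rw [map_sum]
    exact Finset.sum_congr rfl fun a _ => map_smul _ _ _
  rw [V9a_sum, V9a_sum, V9a_bl, h0, LinearMap.sum_apply]
  refine Finset.sum_congr rfl fun a _ => ?_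
  rw [LinearMap.smul_apply, map_sum,
    Finset.sum_eq_single (Pool.Agent.H33.TO.ng a)]
  · rw [map_smul, V9a_bb H hk, if_pos rfl, smul_eq_mul, smul_eq_mul, mul_one]
  · intro b _ hb
    rw [map_smul, V9a_bb H hk, if_neg hb, smul_zero]
  · intro h
    exact absurd (Finset.mem_univ _) h

theorem V9a_ngng (a : Pool.Agent.H33.TO.Ix 4) :
    Pool.Agent.H33.TO.ng (Pool.Agent.H33.TO.ng a) = a := by
  match a with
  | none => rfl
  | some (i, true) => rfl
  | some (i, false) => rfl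

theorem V9a_bl_ev (u : Pool.Agent.H33.TO.Ix 4 → K) (a : Pool.Agent.H33.TO.Ix 4) :
    Pool.Agent.H33.TO.bl 4 K u (Pool.Agent.H33.TO.ev (Pool.Agent.H33.TO.ng a)) = u a := by
  classical
  rw [V9a_bl, Finset.sum_eq_single a]
  · unfold Pool.Agent.H33.TO.ev
    rw [Pi.single_eq_same, mul_one]
  · intro b _ hb
    unfold Pool.Agent.H33.TO.ev
    rw [Pi.single_eq_of_ne, mul_zero]
    intro h
    exact hb (by rw [← V9a_ngng b, h, V9a_ngng])
  · intro h
    exact absurd (Finset.mem_univ a) h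

theorem Phi_inj (H : HypW C6 K) (hk : Fr k) {u v : Pool.Agent.H33.TO.Ix 4 → K}
    (h : Phi K k u = Phi K k v) : u = v := by
  funext a
  rw [← V9a_bl_ev u a, ← V9a_bl_ev v a, ← Phi_fm H hk, ← Phi_fm H hk, h]

/-- the action of a torus element on the basis -/
theorem V9a_act (H : HypW C6 K) {t : LL C6 K ≃ₗ[K] LL C6 K} (ht : t ∈ T4 K) :
    t (bt K k none) = bt K k none ∧ ∀ i, t (bt K k (some (i, true))) = wt t (k i) •
      bt K k (some (i, true)) ∧ t (bt K k (some (i, false))) = (wt t (k i))⁻¹ •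
      bt K k (some (i, false)) := by
  refine ⟨?_, fun i => ⟨?_, ?_⟩⟩
  · show t ((2⁻¹ : K) • hh C6 (zk ((k 0).1 - (sg (k 0)).1))) = _
    rw [map_smul, (T4_le_TT H ht).2 _ (hh_mem_L0 _)]
    rfl
  · exact (T4_Df H ht (k i)).2.1
  · show t ((-2⁻¹ : K) • wf K (ng (k i))) = _
    rw [map_smul, (T4_Df H ht (ng (k i))).2.1, wt_ng H (T4_le_TT H ht), smul_comm]
    rfl

theorem V9a_tor_of (H : HypW C6 K) {t : LL C6 K ≃ₗ[K] LL C6 K} (ht : t ∈ T4 K)
    (τ : Fin 4 → Kˣ) (h : ∀ i, wt t (k i) = (τ i : K)) (u : Pool.Agent.H33.TO.Ix 4 → K) :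
    t (Phi K k u) = Phi K k (Pool.Agent.H33.TO.tor τ u) := by
  obtain ⟨h1, h2⟩ := V9a_act (k := k) H ht
  rw [V9a_sum, V9a_sum, map_sum]
  refine Finset.sum_congr rfl fun a _ => ?_
  rw [map_smul]
  match a with
  | none =>
    show u none • t (bt K k none) = (1 * u none) • bt K k none
    rw [h1, one_mul]
  | some (i, true) =>
    show u (some (i, true)) • t (bt K k (some (i, true))) =
      ((τ i : K) * u (some (i, true))) • bt K k (some (i, true))
    rw [(h2 i).1, h, smul_smul, mul_comm]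
  | some (i, false) =>
    show u (some (i, false)) • t (bt K k (some (i, false))) =
      ((((τ i)⁻¹ : Kˣ) : K) * u (some (i, false))) • bt K k (some (i, false))
    rw [(h2 i).2, h, smul_smul, mul_comm, Units.val_inv_eq_inv_val]

/-- the long root `a` with `Sm (k 0) (k i) a` -/
theorem V9a_long (hk : Fr k) (i : Fin 4) (hi : i ≠ 0) : ∃ a : Rt C6, ∀ j,
    dg a (k j) = (if j = 0 then 1 else 0) + (if j = i then 1 else 0) := by
  obtain ⟨a, h1, h2, _⟩ := sm_of_orth (k 0) (k i) (hk.sh 0) (hk.sh i) (hk.orth 0 i hi.symm)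
  refine ⟨a, fun j => ?_⟩
  have h3 := sm_dg h1 (k j)
  have h4 := dg_SL (k j) a (hk.sh j) h2
  have h5 : ∀ l : Fin 4, dg (k j) (k l) = if j = l then 2 else 0 := by
    intro l
    split_ifs with h
    · rw [h, dg_self]
    · exact hk.orth j l h
  rw [h5, h5] at h3
  split_ifs at h3 ⊢ <;> omega

theorem V9_tor (H : HypW C6 K) (hk : Fr k) (τ : Fin 4 → Kˣ) (hτ : IsSquare (∏ i, τ i)) :
    ∃ t ∈ T4 K, ∀ u, t (Phi K k u) = Phi K k (Pool.Agent.H33.TO.tor τ u) := by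
  obtain ⟨σ, hσ⟩ := hτ
  obtain ⟨a1, h1⟩ := V9a_long hk 1 (by decide)
  obtain ⟨a2, h2⟩ := V9a_long hk 2 (by decide)
  obtain ⟨a3, h3⟩ := V9a_long hk 3 (by decide)
  have m1 := hd_mem_T4 (K := K) (sv_cv a1) (τ 1)
  have m2 := hd_mem_T4 (K := K) (sv_cv a2) (τ 2)
  have m3 := hd_mem_T4 (K := K) (sv_cv a3) (τ 3)
  have m0 := hd_mem_T4 (K := K) (sv_cv (k 0)) (σ * (τ 1 * τ 2 * τ 3)⁻¹)
  have hm := mul_mem (mul_mem (mul_mem m1 m2) m3) m0
  refine ⟨_, hm, fun u => V9a_tor_of H hm τ (fun i => ?_) u⟩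
  rw [wt_mul H (T4_le_TT H (mul_mem (mul_mem m1 m2) m3)) (T4_le_TT H m0),
    wt_mul H (T4_le_TT H (mul_mem m1 m2)) (T4_le_TT H m3),
    wt_mul H (T4_le_TT H m1) (T4_le_TT H m2), wt_hd_cv, wt_hd_cv, wt_hd_cv, wt_hd_cv,
    h1, h2, h3, ← Units.val_mul, ← Units.val_mul, ← Units.val_mul]
  congr 1
  rw [Fin.prod_univ_four] at hσ
  have h5 : ∀ l : Fin 4, dg (k 0) (k l) = if 0 = l then 2 else 0 := by
    intro l
    split_ifs with h
    · rw [← h, dg_self]
    · exact hk.orth 0 l h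
  rw [h5]
  have h6 : (σ * (τ 1 * τ 2 * τ 3)⁻¹) ^ (2 : ℤ) = τ 0 * (τ 1 * τ 2 * τ 3)⁻¹ := by
    rw [show (2 : ℤ) = ((2 : ℕ) : ℤ) from rfl, zpow_natCast, mul_pow, sq σ, ← hσ, sq]
    group
  fin_cases i
  · show τ 1 ^ (1 + 0 : ℤ) * τ 2 ^ (1 + 0 : ℤ) * τ 3 ^ (1 + 0 : ℤ) *
      (σ * (τ 1 * τ 2 * τ 3)⁻¹) ^ (2 : ℤ) = τ 0
    rw [h6, add_zero, zpow_one, zpow_one, zpow_one, mul_comm (τ 0), mul_inv_cancel_left]
  · simp
  · simp
  · simp

/-- the torus acts diagonally -/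
theorem V9_T4 (H : HypW C6 K) (hk : Fr k) {t : LL C6 K ≃ₗ[K] LL C6 K} (ht : t ∈ T4 K)
    (a : Pool.Agent.H33.TO.Ix 4) : ∃ c : K, t (bt K k a) = c • bt K k a := by
  obtain ⟨h1, h2⟩ := V9a_act (k := k) H ht
  match a with
  | none => exact ⟨1, by rw [h1, one_smul]⟩
  | some (i, true) => exact ⟨_, (h2 i).1⟩
  | some (i, false) => exact ⟨_, (h2 i).2⟩

end Pool.Agent.H31.F4
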