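import Pool.Agent.H31.F4.V9a

/-!
# FF-63: the bracket identity on the 9-dimensional module

`V9_br`: both sides are trilinear: check basis vectors.  Write `x0 = bt none`, `w_a = wf a` for `a = ± k i`.
Facts: (W) `[w,[w,x]] = -(fm w x) w` for `w = w_a` (`isW_wf`).
(i) `u = v = w_a`: (W).  (ii) `v = x0` and `w = x0`: 0 = ok (`br_hh_hh`: `[x0,x0] = 0`, right: `(u,x0) x0 - (u,x0) x0`).
(iii) `[x0, w_a] = ± Df a` (`br_k_w`, `fk (zk (k 0 - sg k 0)) (zk a) = ± 2` for `a = ± k i` by `Fr.sgn`, `fk_zz`), `[x0, Df a] = ± w_a`;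
`[x0,[x0,w_a]] = w_a = (x0,x0) w_a - (x0,w_a) x0`.
(iv) `[w_a,[x0,w_b]] = ± [w_a, Df b]`: for `b = ng a`: a multiple of `x0` (`br_w_Dng`), for `b ≠ ± a` orthogonal: zero (no short root
`a + b`; `br_Dw_long` with `dg = 0`), for `b = a`: 0.  Right side `(w_a, x0) w_b - (w_a,w_b) x0`.
(v) `[w_a,[w_b,x0]]` is minus (iv).  (vi) `[x0,[w_a,w_b]]`: `b = ± a`: `[w_a,w_(-a)] = - hh (zk (cv a))`, commutes with `x0`; `a, b`
orthogonal: `[w_a,w_b]` is a multiple of a long root vector (`br_ww`), killed by `x0` (`fk_anti_long`); right side 0.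
(vii) `[w_a,[w_b,w_c]]`: `b, c` orthogonal, `a = ng b`: use (W) polarised and Jacobi: `[w_b,w_c] = k e_d`, `d = b + c` long,
`[w_(-b), e_d]` is a multiple of `w_c`; the factor: `[w_(-b),[w_b,w_c]] = [[w_(-b),w_b],w_c] + [w_b,[w_(-b),w_c]]`, the first term is
`± [hh (zk (cv b)), w_c] = 0` (orthogonal), so `P = [w_(-b),[w_b,w_c]] = [w_b,[w_(-b),w_c]]`; and the white identity for `w_b + w_(-b)`?
it is not white; instead use that `w_b + w_c` is white (`= xf`-image? no): use `ad2_V` : compute with structure constants directly: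
`[e_b - e_(sb), e_c - e_(sc)]` has two non zero terms: with `ip b c = -1`, `ip b (sc) = 1` (`cb_SS`; or reversed) `b + c = d`,
`sb + sc = d` in the E_6 lattice (both sums are the long root): `[w_b,w_c] = ε(b,c) e_d + ε(sb,sc) e_d = 2 ε(b,c) e_d` (`ek_sv`), and
`[w_(-b), e_d] = ε(-b,d) e_c - ε(-sb,d) e_(sc) = ε(b,d) w_c` (`d = b + c`; `ε(b, b + c) = ε(b,b) ε(b,c) = -ε(b,c)`, and
`ε(sb, d) = ε(b, d)`), so `P = -2 w_c`; right side `(w_(-b),w_b) w_c = -2 w_c`.  If `ip b c = 1`, replace `c` by `sc` (sign).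
Other triples: `a` orthogonal to `b, c`, and `b, c` orthogonal: `[w_a, e_d] = 0`; right side 0.  `c = ng b`: `[w_b,w_(-b)] = -hh (zk (cv b))`,
`[w_a, hh (zk (cv b))] = -dg b a w_a`; right side `(w_a,w_b) w_(-b) - (w_a,w_(-b)) w_b`.  `c = b`: 0 and right side 0 (`b = c`).
`a = b`: (W).  `a = c`, `b` orthogonal: `[w_c,[w_b,w_c]] = -[w_c,[w_c,w_b]] = 0`.  `a = ng c`: `-[w_(-c),[w_c,w_b]]`, by the above.
-/

namespace Pool.Agent.H31.F4

open Pool.Agent.H33.EL (ip cc eps Rt ng zk ek fk LL hh e brf fmf br fm IsExt exl ex xr hd L0 GG T1 TT NN SF cj wt)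

variable {K : Type} [Field K]

variable {k : Fin 4 → Rt C6}

theorem V9b_sgd {b c d : Rt C6} (hd : d.1 = b.1 + c.1) : (sg d).1 = (sg b).1 + (sg c).1 := by
  show sv d.1 = sv b.1 + sv c.1
  rw [hd]
  rfl

/-- orthogonal short roots: the bracket of the white vectors is twice a structure constant -/
theorem V9_orth (H : HypW C6 K) {b c d : Rt C6} (hb : sg b ≠ b) (hc : sg c ≠ c)
    (hd : d.1 = b.1 + c.1) (hl : sg d = d) :
    br (wf K b) (wf K c) = (2 * ek K C6 b.1 c.1) • e K d := by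
  have h1 : ip C6 (sg d).1 d.1 = 2 := by rw [hl]; exact d.2
  have h2 : 0 ≤ ip C6 b.1 (sg c).1 := by
    rw [V9b_sgd hd, hd, ip_add_left, ip_add_right, ip_add_right, DBrB_self H hb, DBrB_self H hc,
      DBrB_sv_comm b c, ip_comm H.symm (sg c).1 b.1] at h1
    omega
  have h3 : 0 ≤ ip C6 (sg b).1 c.1 := by rw [DBrB_sv_comm]; exact h2
  have e1 : br (e K b) (e K c) = ek K C6 b.1 c.1 • e K d := br_e_e_add H hd
  have e2 : br (e K b) (e K (sg c)) = 0 := br_e_e_zero H h2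
  have e3 : br (e K (sg b)) (e K c) = 0 := br_e_e_zero H h3
  have e4 : br (e K (sg b)) (e K (sg c)) = ek K C6 b.1 c.1 • e K d := by
    have h5 := br_e_e_add (K := K) H (V9b_sgd hd)
    have h6 : ek K C6 (sg b).1 (sg c).1 = ek K C6 b.1 c.1 := ek_sv _ _
    rw [h5, h6, hl]
  unfold wf
  simp only [map_sub, LinearMap.sub_apply]
  rw [e1, e2, e3, e4]
  module

/-- the identity for three vectors -/
def V9b_P (u v w : LL C6 K) : Prop := br u (br v w) = fm u v • w - fm u w • v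

theorem V9b_swap (H : HypW C6 K) {u v w : LL C6 K} (h : V9b_P u v w) : V9b_P u w v := by
  unfold V9b_P at h ⊢
  rw [br_skew H w v, map_neg, h]
  abel

theorem V9b_self (H : HypW C6 K) (u v : LL C6 K) : V9b_P u v v := by
  unfold V9b_P
  rw [br_self H, map_zero, sub_self]

theorem V9b_add1 {u u' v w : LL C6 K} (h : V9b_P u v w) (h' : V9b_P u' v w) :
    V9b_P (u + u') v w := by
  unfold V9b_P at h h' ⊢
  simp only [map_add, LinearMap.add_apply]
  rw [h, h']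
  module

theorem V9b_add2 {u v v' w : LL C6 K} (h : V9b_P u v w) (h' : V9b_P u v' w) :
    V9b_P u (v + v') w := by
  unfold V9b_P at h h' ⊢
  simp only [map_add, LinearMap.add_apply]
  rw [h, h']
  module

theorem V9b_add3 {u v w w' : LL C6 K} (h : V9b_P u v w) (h' : V9b_P u v w') :
    V9b_P u v (w + w') := by
  unfold V9b_P at h h' ⊢
  simp only [map_add]
  rw [h, h']
  module

theorem V9b_smul1 {u v w : LL C6 K} (c : K) (h : V9b_P u v w) : V9b_P (c • u) v w := by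
  unfold V9b_P at h ⊢
  simp only [map_smul, LinearMap.smul_apply]
  rw [h, smul_sub, smul_assoc, smul_assoc]

theorem V9b_smul2 {u v w : LL C6 K} (c : K) (h : V9b_P u v w) : V9b_P u (c • v) w := by
  unfold V9b_P at h ⊢
  simp only [map_smul, LinearMap.smul_apply]
  rw [h, smul_sub, smul_assoc, smul_comm c (fm u w) v]

theorem V9b_smul3 {u v w : LL C6 K} (c : K) (h : V9b_P u v w) : V9b_P u v (c • w) := by
  unfold V9b_P at h ⊢
  simp only [map_smul]
  rw [h, smul_sub, smul_assoc, smul_comm c (fm u v) w]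

theorem V9b_zero1 (v w : LL C6 K) : V9b_P 0 v w := by
  unfold V9b_P
  simp only [map_zero, LinearMap.zero_apply, zero_smul, sub_self]

theorem V9b_zero2 (u w : LL C6 K) : V9b_P u 0 w := by
  unfold V9b_P
  simp only [map_zero, LinearMap.zero_apply, zero_smul, smul_zero, sub_self]

theorem V9b_zero3 (u v : LL C6 K) : V9b_P u v 0 := by
  unfold V9b_P
  simp only [map_zero, zero_smul, smul_zero, sub_self]

theorem V9b_sum {ι : Type} [Fintype ι] (x : ι → LL C6 K) (h : ∀ a b c, V9b_P (x a) (x b) (x c))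
    (u v w : ι → K) : V9b_P (∑ a, u a • x a) (∑ a, v a • x a) (∑ a, w a • x a) := by
  refine Finset.sum_induction _ (fun y => V9b_P y _ _) (fun _ _ => V9b_add1) (V9b_zero1 _ _)
    fun a _ => V9b_smul1 _ ?_
  refine Finset.sum_induction _ (fun y => V9b_P _ y _) (fun _ _ => V9b_add2) (V9b_zero2 _ _)
    fun b _ => V9b_smul2 _ ?_
  exact Finset.sum_induction _ (fun y => V9b_P _ _ y) (fun _ _ => V9b_add3) (V9b_zero3 _ _)
    fun c _ => V9b_smul3 _ (h a b c)

/-- the roots of the frame and their negatives -/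
def V9b_R (k : Fin 4 → Rt C6) (a : Rt C6) : Prop := ∃ i, a = k i ∨ a = ng (k i)

theorem V9b_R_sh (hk : Fr k) {a : Rt C6} (ha : V9b_R k a) : sg a ≠ a := by
  obtain ⟨i, rfl | rfl⟩ := ha
  · exact hk.sh i
  · exact fun h => hk.sh i ((sg_ng_iff _).1 h)

theorem V9b_R_rel (hk : Fr k) {a b : Rt C6} (ha : V9b_R k a) (hb : V9b_R k b) :
    b = a ∨ b = ng a ∨ dg a b = 0 := by
  obtain ⟨i, hi⟩ := ha
  obtain ⟨j, hj⟩ := hb
  by_cases hij : i = j
  · subst hij
    rcases hi with rfl | rfl <;> rcases hj with rfl | rfl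
    · exact Or.inl rfl
    · exact Or.inr (Or.inl rfl)
    · exact Or.inr (Or.inl (ng_ng _).symm)
    · exact Or.inl rfl
  · right; right
    have h := hk.orth i j hij
    rcases hi with rfl | rfl <;> rcases hj with rfl | rfl
    · exact h
    · rw [dg_ng_right, h, neg_zero]
    · rw [dg_ng_left, h, neg_zero]
    · rw [dg_ng_left, dg_ng_right, h, neg_zero, neg_zero]

/-- the toral vector of the frame -/
def V9b_z (K : Type) [Field K] (k : Fin 4 → Rt C6) : Fin 6 → K := zk ((k 0).1 - (sg (k 0)).1)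

theorem V9b_R_z (hk : Fr k) {a : Rt C6} (ha : V9b_R k a) :
    ∃ s : K, s * s = 1 ∧ V9b_z K k = s • (zk (a.1 - (sg a).1) : Fin 6 → K) := by
  obtain ⟨i, rfl | rfl⟩ := ha
  · refine ⟨1, one_mul 1, ?_⟩
    rw [one_smul, V9b_z, hk.sgn 0 i]
  · refine ⟨-1, by ring, ?_⟩
    have h : (ng (k i)).1 - (sg (ng (k i))).1 = -((k i).1 - (sg (k i)).1) := by
      rw [sg_ng, ng_val, ng_val]
      abel
    rw [h, zk_neg, smul_neg, neg_smul, neg_neg, one_smul, V9b_z, hk.sgn 0 i]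

theorem V9b_z_anti (k : Fin 4 → Rt C6) : sv (V9b_z K k) = -V9b_z K k := DBrB_sv_anti _

/-- the facts about one root and the toral vector -/
theorem V9b_zw (H : HypW C6 K) (hk : Fr k) {b : Rt C6} (hb : V9b_R k b) {s : K} (hs : s * s = 1)
    (hz : V9b_z K k = s • (zk (b.1 - (sg b).1) : Fin 6 → K)) :
    br (hh C6 (V9b_z K k)) (wf K b) = (2 * s) • Df K b ∧
    br (hh C6 (V9b_z K k)) (Df K b) = (2 * s) • wf K b ∧
    br (wf K b) (Df K b) = 0 ∧
    br (wf K (ng b)) (Df K b) = s • hh C6 (V9b_z K k) := by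
  have hsh := V9b_R_sh hk hb
  have hf : fk C6 (V9b_z K k) (zk b.1) = 2 * s := by
    rw [hz, fk_smul_left, fk_zz H b hsh]
    ring
  refine ⟨?_, ?_, ?_, ?_⟩
  · rw [br_k_w _ (V9b_z_anti k) b hsh, hf]
  · rw [br_k_D _ (V9b_z_anti k) b hsh, hf]
  · rw [br_skew H, br_Dw_long H (by rw [dg_self]; norm_num), neg_zero]
  · have hn : sg (ng b) ≠ ng b := fun h => hsh ((sg_ng_iff _).1 h)
    have h1 := br_w_Dng (K := K) H (ng b) hn
    rw [ng_ng] at h1
    have h : (ng b).1 - (sg (ng b)).1 = -(b.1 - (sg b).1) := by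
      rw [sg_ng, ng_val, ng_val]
      abel
    rw [h1, h, zk_neg, hh_neg, neg_neg, hz, hh_smul, smul_smul, hs, one_smul]

theorem V9b_fm_ww (H : HypW C6 K) {a b : Rt C6} (ha : sg a ≠ a) (hab : 0 ≤ dg a b) :
    fm (wf K a) (wf K b) = 0 := DBrB_fm_w_w H ha (DBrB_not_eq4 hab)

theorem V9b_fm_wn (H : HypW C6 K) {a : Rt C6} (ha : sg a ≠ a) :
    fm (wf K a) (wf K (ng a)) = -2 := by
  have hn : sg (ng a) ≠ ng a := fun h => ha ((sg_ng_iff _).1 h)
  rw [fm_w H (wf_mem _) a ha, (wf_snd_self hn).1, mul_one]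

theorem V9b_fm_nw (H : HypW C6 K) {a : Rt C6} (ha : sg a ≠ a) :
    fm (wf K (ng a)) (wf K a) = -2 := by
  have hn : sg (ng a) ≠ ng a := fun h => ha ((sg_ng_iff _).1 h)
  have h := V9b_fm_wn (K := K) H hn
  rwa [ng_ng] at h

theorem V9b_fm_zw (h : Fin 6 → K) (a : Rt C6) : fm (hh C6 h) (wf K a) = 0 := by
  rw [fm_hh_left, wf_fst, fk_zero_right]

theorem V9b_fm_zz (H : HypW C6 K) (hk : Fr k) :
    fm (hh C6 (V9b_z K k)) (hh C6 (V9b_z K k)) = 4 := by
  have h1 : fk C6 (V9b_z K k) (zk (k 0).1) = 2 := fk_zz H (k 0) (hk.sh 0)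
  have h2 : fk C6 (V9b_z K k) (zk (sg (k 0)).1) = -2 := by
    have h3 : fk C6 (sv (V9b_z K k)) (sv (zk (k 0).1)) = fk C6 (V9b_z K k) (zk (k 0).1) :=
      fk_sv _ _
    rw [V9b_z_anti, h1, fk_neg_left, ← zk_sv] at h3
    have h4 : fk C6 (V9b_z K k) (zk (sg (k 0)).1) = fk C6 (V9b_z K k) (zk (sv (k 0).1)) := rfl
    rw [h4]
    linear_combination -h3
  have h5 : fk C6 (V9b_z K k) (V9b_z K k) = 4 := by
    have h6 : fk C6 (V9b_z K k) (V9b_z K k) =
        fk C6 (V9b_z K k) (zk (k 0).1 - zk (sg (k 0)).1) := by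
      conv_lhs => arg 3; rw [V9b_z, zk_sub]
    rw [h6, sub_eq_add_neg, fk_add_right, fk_neg_right, h1, h2]
    norm_num
  rw [fm_hh_left]
  exact h5

/-- the toral vector and a white vector -/
theorem V9b_P1 (H : HypW C6 K) (hk : Fr k) {b : Rt C6} (hb : V9b_R k b) (u : LL C6 K)
    (hu : u = hh C6 (V9b_z K k) ∨ ∃ a, V9b_R k a ∧ u = wf K a) :
    V9b_P u (hh C6 (V9b_z K k)) (wf K b) := by
  obtain ⟨s, hs, hz⟩ := V9b_R_z (K := K) hk hb
  obtain ⟨f1, f2, f3, f4⟩ := V9b_zw H hk hb hs hz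
  unfold V9b_P
  rw [f1, map_smul]
  rcases hu with rfl | ⟨a, ha, rfl⟩
  · rw [f2, V9b_fm_zz H hk, V9b_fm_zw, zero_smul, sub_zero, smul_smul]
    congr 1
    linear_combination 4 * hs
  · have hsa := V9b_R_sh hk ha
    rw [DBrB_fm_w_hh, zero_smul, zero_sub]
    rcases V9b_R_rel hk ha hb with rfl | rfl | h0
    · rw [f3, smul_zero, V9b_fm_ww H hsa (by rw [dg_self]; norm_num), zero_smul, neg_zero]
    · rw [ng_ng] at f4
      rw [f4, V9b_fm_wn H hsa, smul_smul]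
      have h2 : 2 * s * s = 2 := by linear_combination 2 * hs
      rw [h2, neg_smul, neg_neg]
    · have h1 : dg b a = 0 := by
        rw [dg_symm b a ⟨fun h => absurd h (V9b_R_sh hk hb), fun h => absurd h hsa⟩]
        exact h0
      rw [br_skew H, br_Dw_long H h1.ge, neg_zero, smul_zero, V9b_fm_ww H hsa h0.ge, zero_smul,
        neg_zero]

theorem V9b_num (t : K) (h : t * t = 1) : 2 * t * -t = -2 := by
  linear_combination (-2) * h

/-- orthogonal white vectors -/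
theorem V9b_core (H : HypW C6 K) {b c : Rt C6} (hb : sg b ≠ b) (hc : sg c ≠ c)
    (h : ip C6 b.1 c.1 = -1) (h' : ip C6 b.1 (sg c).1 = 1) :
    br (wf K (ng b)) (br (wf K b) (wf K c)) = (-2 : K) • wf K c := by
  obtain ⟨d, hd⟩ : ∃ d : Rt C6, d.1 = b.1 + c.1 := ⟨⟨_, root_add H h⟩, rfl⟩
  have hl : sg d = d := by
    have h2 : ip C6 (sg d).1 d.1 = 2 := by
      rw [V9b_sgd hd, hd, ip_add_left, ip_add_right, ip_add_right, DBrB_self H hb, DBrB_self H hc,
        DBrB_sv_comm b c, ip_comm H.symm (sg c).1 b.1, h']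
      norm_num
    exact eq_of_ip_two H h2
  rw [V9_orth H hb hc hd hl, map_smul]
  have hdc : c.1 = (ng b).1 + d.1 := by
    rw [ng_val, hd]
    abel
  have hdc' : (sg c).1 = (sg (ng b)).1 + d.1 := by
    have h3 := V9b_sgd hdc
    rw [hl] at h3
    exact h3
  have k1 : ek K C6 (ng b).1 d.1 = -ek K C6 b.1 c.1 := by
    rw [ng_val, ek_neg_left, hd, ek_add_right, ek_self H, neg_one_mul]
  have k2 : ek K C6 (sg (ng b)).1 d.1 = -ek K C6 b.1 c.1 := by
    have h5 : ek K C6 (sg (ng b)).1 (sg d).1 = ek K C6 (ng b).1 d.1 :=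
      ek_sv (ng b).1 d.1
    rw [hl] at h5
    rw [h5, k1]
  have e1 : br (e K (ng b)) (e K d) = -ek K C6 b.1 c.1 • e K c := by
    rw [br_e_e_add H hdc, k1]
  have e2 : br (e K (sg (ng b))) (e K d) = -ek K C6 b.1 c.1 • e K (sg c) := by
    rw [br_e_e_add H hdc', k2]
  have e3 : br (wf K (ng b)) (e K d) = -ek K C6 b.1 c.1 • wf K c := by
    unfold wf
    rw [map_sub, LinearMap.sub_apply, e1, e2, smul_sub]
  rw [e3, smul_smul, V9b_num _ (ek_mul_self _ _)]

theorem V9b_core' (H : HypW C6 K) {b c : Rt C6} (hb : sg b ≠ b) (hc : sg c ≠ c)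
    (h : dg b c = 0) :
    br (wf K (ng b)) (br (wf K b) (wf K c)) = (-2 : K) • wf K c := by
  rw [dg_short b c hb] at h
  have key : (ip C6 b.1 c.1 = -1 ∧ ip C6 b.1 (sg c).1 = 1) ∨
      (ip C6 b.1 c.1 = 1 ∧ ip C6 b.1 (sg c).1 = -1) := by
    rcases cb_SS b c hb hc with h1 | h1 | h1 | h1 | h1 | h1 | h1 | h1 | h1 | h1 <;> omega
  rcases key with ⟨h1, h2⟩ | ⟨h1, h2⟩
  · exact V9b_core H hb hc h1 h2
  · have h3 := V9b_core (K := K) H (c := sg c) hb ((sg_ne_iff c).2 hc) h2 (by rw [sg_sg]; exact h1)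
    rw [wf_sg, map_neg, map_neg, smul_neg, neg_inj] at h3
    exact h3

/-- two orthogonal white vectors -/
theorem V9b_P2 (H : HypW C6 K) (hk : Fr k) {b c : Rt C6} (hb : V9b_R k b) (hc : V9b_R k c)
    (h0 : dg b c = 0) (u : LL C6 K)
    (hu : u = hh C6 (V9b_z K k) ∨ ∃ a, V9b_R k a ∧ u = wf K a) :
    V9b_P u (wf K b) (wf K c) := by
  have hsb := V9b_R_sh hk hb
  have hsc := V9b_R_sh hk hc
  obtain ⟨d, hd, hl, -⟩ := sm_of_orth b c hsb hsc h0
  obtain ⟨t, -, ht⟩ := br_ww (K := K) H hd hsb hsc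
  have hcb : dg c b = 0 := by
    rw [dg_symm c b ⟨fun h => absurd h hsc, fun h => absurd h hsb⟩]
    exact h0
  have hd2 : ∀ a, dg d a = 0 ∨ dg d a = 1 → br (wf K a) (br (wf K b) (wf K c)) = 0 := by
    intro a ha
    rw [ht, map_smul, br_skew H, br_Dw_long H (by omega), neg_zero, smul_zero]
  unfold V9b_P
  rcases hu with rfl | ⟨a, ha, rfl⟩
  · rw [V9b_fm_zw, V9b_fm_zw, zero_smul, zero_smul, sub_self, ht, map_smul, Df_long hl, br_hh_e,
      fk_anti_long H _ (V9b_z_anti k) d hl, zero_smul, smul_zero]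
  · have hsa := V9b_R_sh hk ha
    have hda : dg a d = 2 * dg d a := dg_SL a d hsa hl
    have hda' : dg a d = dg a b + dg a c := sm_dg hd a
    rcases V9b_R_rel hk ha hb with hab | hab | hab
    · subst hab
      rw [hd2 b (by rw [dg_self] at hda'; omega), V9b_fm_ww H hsa (by rw [dg_self]; norm_num),
        V9b_fm_ww H hsa h0.ge, zero_smul, zero_smul, sub_self]
    · subst hab
      have h1 : dg a c = 0 := by rw [dg_ng_left] at h0; omega
      have h2 := V9b_core' (K := K) H hsb hsc h0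
      rw [ng_ng] at h2
      rw [h2, V9b_fm_wn H hsa, V9b_fm_ww H hsa h1.ge, zero_smul, sub_zero]
    · rcases V9b_R_rel hk ha hc with hac | hac | hac
      · subst hac
        rw [hd2 c (by rw [dg_self] at hda'; omega), V9b_fm_ww H hsa hab.ge,
          V9b_fm_ww H hsa (by rw [dg_self]; norm_num), zero_smul, zero_smul, sub_self]
      · subst hac
        have h2 := V9b_core' (K := K) H hsc hsb hcb
        rw [ng_ng] at h2
        rw [br_skew H (wf K b), map_neg, h2, V9b_fm_wn H hsa, V9b_fm_ww H hsa hab.ge, zero_smul,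
          zero_sub]
      · rw [hd2 a (by omega), V9b_fm_ww H hsa hab.ge, V9b_fm_ww H hsa hac.ge, zero_smul,
          zero_smul, sub_self]

/-- opposite white vectors -/
theorem V9b_P3 (H : HypW C6 K) (hk : Fr k) {b : Rt C6} (hb : V9b_R k b) (u : LL C6 K)
    (hu : u = hh C6 (V9b_z K k) ∨ ∃ a, V9b_R k a ∧ u = wf K a) :
    V9b_P u (wf K b) (wf K (ng b)) := by
  have hsb := V9b_R_sh hk hb
  unfold V9b_P
  rw [br_w_wng H b hsb, map_neg]
  rcases hu with rfl | ⟨a, ha, rfl⟩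
  · rw [V9b_fm_zw, V9b_fm_zw, zero_smul, zero_smul, sub_self, br_hh_hh, neg_zero]
  · have hsa := V9b_R_sh hk ha
    have hcv : (sv (zk (cv b)) : Fin 6 → K) = zk (cv b) := by
      rw [← zk_sv, sv_cv]
    rw [br_skew H, neg_neg, br_h_w _ hcv, DBrB_fk_cv]
    rcases V9b_R_rel hk ha hb with rfl | rfl | h0
    · rw [dg_self, V9b_fm_ww H hsa (by rw [dg_self]; norm_num), V9b_fm_wn H hsa, zero_smul,
        zero_sub, neg_smul, neg_neg]
      norm_num
    · rw [dg_ng_left, dg_self, V9b_fm_wn H hsa, ng_ng, V9b_fm_ww H hsa (by rw [dg_self]; norm_num),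
        zero_smul, sub_zero]
      norm_num
    · have h1 : dg b a = 0 := by
        rw [dg_symm b a ⟨fun h => absurd h hsb, fun h => absurd h hsa⟩]
        exact h0
      rw [h1, V9b_fm_ww H hsa h0.ge, V9b_fm_ww H hsa (by rw [dg_ng_right, h0, neg_zero])]
      simp

/-- the identity on the generators -/
theorem V9b_gen (H : HypW C6 K) (hk : Fr k) (u v w : LL C6 K)
    (hu : u = hh C6 (V9b_z K k) ∨ ∃ a, V9b_R k a ∧ u = wf K a)
    (hv : v = hh C6 (V9b_z K k) ∨ ∃ a, V9b_R k a ∧ v = wf K a)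
    (hw : w = hh C6 (V9b_z K k) ∨ ∃ a, V9b_R k a ∧ w = wf K a) : V9b_P u v w := by
  rcases hv with rfl | ⟨b, hb, rfl⟩ <;> rcases hw with rfl | ⟨c, hc, rfl⟩
  · exact V9b_self H _ _
  · exact V9b_P1 H hk hc u hu
  · exact V9b_swap H (V9b_P1 H hk hb u hu)
  · rcases V9b_R_rel hk hb hc with rfl | rfl | h0
    · exact V9b_self H _ _
    · exact V9b_P3 H hk hb u hu
    · exact V9b_P2 H hk hb hc h0 u hu

theorem V9b_bt (k : Fin 4 → Rt C6) (a : Pool.Agent.H33.TO.Ix 4) :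
    ∃ (c : K) (x : LL C6 K), bt K k a = c • x ∧
      (x = hh C6 (V9b_z K k) ∨ ∃ a, V9b_R k a ∧ x = wf K a) := by
  rcases a with _ | ⟨i, b⟩
  · exact ⟨2⁻¹, _, rfl, Or.inl rfl⟩
  · cases b
    · exact ⟨-2⁻¹, _, rfl, Or.inr ⟨ng (k i), ⟨i, Or.inr rfl⟩, rfl⟩⟩
    · exact ⟨1, _, (one_smul _ _).symm, Or.inr ⟨k i, ⟨i, Or.inl rfl⟩, rfl⟩⟩

theorem V9_br (H : HypW C6 K) (hk : Fr k) (u v w : Pool.Agent.H33.TO.Ix 4 → K) :
    br (Phi K k u) (br (Phi K k v) (Phi K k w)) =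
      Pool.Agent.H33.TO.bl 4 K u v • Phi K k w - Pool.Agent.H33.TO.bl 4 K u w • Phi K k v := by
  have h : V9b_P (Phi K k u) (Phi K k v) (Phi K k w) := by
    refine V9b_sum (bt K k) (fun a b c => ?_) u v w
    obtain ⟨c1, x1, h1, g1⟩ := V9b_bt (K := K) k a
    obtain ⟨c2, x2, h2, g2⟩ := V9b_bt (K := K) k b
    obtain ⟨c3, x3, h3, g3⟩ := V9b_bt (K := K) k c
    rw [h1, h2, h3]
    exact V9b_smul1 _ (V9b_smul2 _ (V9b_smul3 _ (V9b_gen H hk _ _ _ g1 g2 g3)))
  unfold V9b_P at h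
  rw [Phi_fm H hk, Phi_fm H hk] at h
  exact h

end Pool.Agent.H31.F4
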