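import Pool.Agent.H31.F4.Lpos

/-!
# FF-18: decomposition of point vectors, step 1 (both lengths)

`Sup l a v`: `l` is smallest at the weight `-a` on the support of `v` (weight 0 included).
Let `v ∈ LF` (`a` long) or `v ∈ VF` (`a` short), `c = v.2 (ng a) ≠ 0`; degree `dg a ·`.
Step 1: kill the coordinates of degree `-1`.  Let `d` be a root with `dg a d = -1`, `v.2 d ≠ 0`.
`sm_of_neg a d` gives `y` with `Sm a d y`; `y ∈ R`, `dg a y = 1`, `l y = l a + l d > 0` (`sm_fun`,
`l (ng a) < l d`; `d` is not opposite to `a` since `dg a d = -1`).  `Sm (ng a) y d` (`Sm_sub`), so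
`[Df y, pv (ng a)] = k • Df d` (`a` long, `br_DD`) resp. `k • wf d` (`a` short: `br_Dw`; `d` is short
as `v.2 d ≠ 0`, `VF_long`), `k ≠ 0`.  For `xf y s`: the coordinates of `xf y s v` of degree `-1`
are those of `v + s c [Df y, pv (ng a)]` (`v` has in degree `-2` only the weight space of `ng a`:
`dg_neg_two`: in `LF` with `a` long, `dg a d = -2` only for `d = ng a`; in `VF` with `a` short:
short `d` with `dg a d = -2` are `Eq4 (ng a) d`; second order terms have degree `≥ 0`).  So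
choose `s` to kill the coordinates at `d` and `sg d`.  Induction on the number of roots `d` with
`dg a d = -1` and non zero coordinate.  `Sup` and the support in `R` are preserved: `Gn_pos`
(`v - c pv (ng a) ∈ Wl l (l (ng a))`, ...), `Gn_UR`.
-/

namespace Pool.Agent.H31.F4

open Pool.Agent.H33.EL (ip cc eps Rt ng zk ek fk LL hh e brf fmf br fm IsExt exl ex xr hd L0 GG T1 TT NN SF cj wt)

variable {K : Type} [Field K]

/-- `l` is minimal at `-a` on the support of `v` -/
def Sup (l : (Fin 6 → ℤ) →+ ℤ) (a : Rt C6) (v : LL C6 K) : Prop :=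
  (∀ d : Rt C6, v.2 d ≠ 0 → Eq4 (ng a) d ∨ l (ng a).1 < l d.1) ∧ (v.1 ≠ 0 → l (ng a).1 < 0)

/-- the space of point vectors of the length of `a` -/
def PF (K : Type) [Field K] (a : Rt C6) : Submodule K (LL C6 K) :=
  if sg a = a then LF K else VF K

private theorem xda4_fst (v : LL C6 K) (a : Rt C6) :
    (v - v.2 (ng a) • pv K (ng a)).1 = v.1 := by
  show v.1 - v.2 (ng a) • (pv K (ng a)).1 = v.1
  rw [pv_fst, smul_zero, sub_zero]

private theorem xda4_off (a : Rt C6) (v : LL C6 K) (hv : v ∈ PF K a) (d : Rt C6) :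
    (v - v.2 (ng a) • pv K (ng a)).2 d = if Eq4 (ng a) d then 0 else v.2 d := by
  by_cases h : Eq4 (ng a) d
  · rw [if_pos h]
    show v.2 d - v.2 (ng a) * (pv K (ng a)).2 d = 0
    by_cases ha : sg a = a
    · have h1 : sg (ng a) = ng a := (sg_ng_iff a).2 ha
      have h2 : d = ng a := by
        rcases h with h | h
        · exact h
        · rw [h, h1]
      rw [h2, pv_snd_self, mul_one, sub_self]
    · have hna : sg (ng a) ≠ ng a := fun h => ha ((sg_ng_iff a).1 h)
      rcases h with h | h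
      · rw [h, pv_snd_self, mul_one, sub_self]
      · have hv' : v ∈ VF K := by
          simpa only [PF, if_neg ha] using hv
        rw [h, pv_short hna, (wf_snd_self hna).2, ((mem_VF' v).1 hv').2 (ng a)]
        ring
  · rw [if_neg h]
    show v.2 d - v.2 (ng a) * (pv K (ng a)).2 d = v.2 d
    rw [pv_snd_ne h, mul_zero, sub_zero]

private theorem xda4_GF {a : Rt C6} {v : LL C6 K} (hv : v ∈ PF K a)
    {r : LL C6 K ≃ₗ[K] LL C6 K} (hr : r ∈ GF K) : r v ∈ PF K a := by
  by_cases ha : sg a = a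
  · simp only [PF, if_pos ha] at hv ⊢
    exact (GF_LF hr v).2 hv
  · simp only [PF, if_neg ha] at hv ⊢
    exact (GF_VF hr v).2 hv

theorem Sup_iff (H : HypW C6 K) (l : (Fin 6 → ℤ) →+ ℤ) (hl : ∀ x, l (sv x) = l x) (a : Rt C6)
    (v : LL C6 K) (hv : v ∈ PF K a) :
    Sup l a v ↔ v - v.2 (ng a) • pv K (ng a) ∈ Wl K l (l (ng a).1) := by
  constructor
  · rintro ⟨h1, h2⟩
    refine ⟨fun b hb => ?_, fun hm => ?_⟩
    · rw [xda4_off a v hv b]
      split_ifs with h
      · rfl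
      · by_contra hne
        rcases h1 b hne with h3 | h3
        · exact h h3
        · omega
    · rw [xda4_fst]
      by_contra hne
      have h3 := h2 hne
      omega
  · rintro ⟨h1, h2⟩
    refine ⟨fun d hd => ?_, fun h => ?_⟩
    · by_contra hcon
      rw [not_or] at hcon
      have h3 := h1 d (not_lt.1 hcon.2)
      rw [xda4_off a v hv d, if_neg hcon.1] at h3
      exact hd h3
    · by_contra hcon
      have h3 := h2 (not_lt.1 hcon)
      rw [xda4_fst] at h3
      exact h h3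

theorem Sup_map (H : HypW C6 K) (l : (Fin 6 → ℤ) →+ ℤ) (hl : ∀ x, l (sv x) = l x) (a : Rt C6)
    {v : LL C6 K} (hv : v ∈ PF K a) (hs : Sup l a v) {r : LL C6 K ≃ₗ[K] LL C6 K}
    (hr : r ∈ Gn K {y | 0 < l y.1}) :
    Sup l a (r v) ∧ (r v).2 (ng a) = v.2 (ng a) ∧ r v ∈ PF K a := by
  have hGF : r ∈ GF K := Gn_le_GF H _ hr
  have hPF : r v ∈ PF K a := xda4_GF hv hGF
  obtain ⟨g1, -, g3, -⟩ := Gn_pos H l hl hr
  have h1 := (Sup_iff H l hl a v hv).1 hs
  have h2 : r (pv K (ng a)) - pv K (ng a) ∈ Wl K l (l (ng a).1) := by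
    by_cases hna : sg (ng a) = ng a
    · rw [pv_long hna]
      exact g3 (ng a)
    · rw [pv_short hna]
      have h4 := g3 (sg (ng a))
      have h5 : l (sg (ng a)).1 = l (ng a).1 := hl (ng a).1
      rw [h5] at h4
      have h6 : r (wf K (ng a)) - wf K (ng a) =
          (r (e K (ng a)) - e K (ng a)) - (r (e K (sg (ng a))) - e K (sg (ng a))) := by
        show r (e K (ng a) - e K (sg (ng a))) - (e K (ng a) - e K (sg (ng a))) = _
        rw [map_sub]
        abel
      rw [h6]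
      exact Submodule.sub_mem _ (g3 (ng a)) h4
  have h3 : r v - v.2 (ng a) • pv K (ng a) ∈ Wl K l (l (ng a).1) := by
    have h4 := (g1 _ _).2 h1
    have h5 : r v - v.2 (ng a) • pv K (ng a) = r (v - v.2 (ng a) • pv K (ng a)) +
        v.2 (ng a) • (r (pv K (ng a)) - pv K (ng a)) := by
      rw [map_sub, map_smul, smul_sub]
      abel
    rw [h5]
    exact Submodule.add_mem _ h4 (Submodule.smul_mem _ _ h2)
  have h5 : (r v).2 (ng a) = v.2 (ng a) := by
    have h6 := h3.1 (ng a) le_rfl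
    have h7 : (r v).2 (ng a) - v.2 (ng a) * (pv K (ng a)).2 (ng a) = 0 := h6
    rw [pv_snd_self, mul_one] at h7
    exact sub_eq_zero.1 h7
  refine ⟨(Sup_iff H l hl a (r v) hPF).2 ?_, h5, hPF⟩
  rw [h5]
  exact h3

/-- the degree -/
private def xda4_l (a : Rt C6) : (Fin 6 → ℤ) →+ ℤ :=
  AddMonoidHom.mk' (fun x => ip C6 (cv a) x) (fun x y => ip_add_right _ _ _)

omit K in
private theorem xda4_l_apply (a d : Rt C6) : xda4_l a d.1 = dg a d := rfl

omit K in
private theorem xda4_hl (a : Rt C6) (x : Fin 6 → ℤ) : xda4_l a (sv x) = xda4_l a x := by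
  show ip C6 (cv a) (sv x) = ip C6 (cv a) x
  have h := ip_sv (cv a) x
  rw [sv_cv] at h
  exact h

omit K in
private theorem xda4_dga (a : Rt C6) : dg a (ng a) = -2 := by
  rw [dg_ng_right, dg_self]

omit K in
private theorem xda4_ne (a d : Rt C6) (hd : dg a d = -1) : ¬ Eq4 (ng a) d := by
  rintro (h | h)
  · rw [h, xda4_dga] at hd
    omega
  · rw [h, dg_sg_right, xda4_dga] at hd
    omega

private theorem xda4_sup (H : HypW C6 K) (a : Rt C6) (v : LL C6 K) (hv : v ∈ PF K a) :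
    Sup (xda4_l a) a v := by
  refine ⟨fun d hd => ?_, fun _ => ?_⟩
  · by_cases h : Eq4 (ng a) d
    · exact Or.inl h
    · refine Or.inr ?_
      rw [xda4_l_apply, xda4_l_apply, xda4_dga]
      have h1 := (dg_range a d).1
      have h2 : dg a d ≠ -2 := by
        intro h3
        apply h
        by_cases ha : sg a = a
        · rw [dg_long a d ha] at h3
          exact Or.inl (eq_ng_of_ip H h3)
        · have hv' : v ∈ VF K := by
            simpa only [PF, if_neg ha] using hv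
          have hd' : sg d ≠ d := fun h4 => hd (VF_long H hv' h4)
          exact dg_neg_two a d h3 ⟨fun h4 => absurd h4 ha, fun h4 => absurd h4 hd'⟩
      omega
  · rw [xda4_l_apply, xda4_dga]
    norm_num

/-- the image of the point vector -/
private theorem xda4_P (H : HypW C6 K) (a : Rt C6) (v : LL C6 K) (hv : v ∈ PF K a)
    (d : Rt C6) (hvd : v.2 d ≠ 0) (y : Rt C6) (hy : Sm a d y) :
    ∃ (P : LL C6 K) (k : K), k ≠ 0 ∧ br (Df K y) (pv K (ng a)) = k • P ∧ P.2 d = 1 ∧
      (∀ d', ¬ Eq4 d d' → P.2 d' = 0) := by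
  have hsm : Sm y (ng a) d := Sm_symm (Sm_sub hy)
  by_cases ha : sg a = a
  · have hna : sg (ng a) = ng a := (sg_ng_iff a).2 ha
    obtain ⟨k, hk, h1⟩ := br_DD (K := K) H hsm
    refine ⟨Df K d, k, hk, ?_, ?_, fun d' hd' => ?_⟩
    · rw [pv_long hna, ← Df_long hna]
      exact h1
    · have h5 : Eq4 d d := Or.inl rfl
      rw [Df_snd, if_pos h5]
    · rw [Df_snd, if_neg hd']
  · have hna : sg (ng a) ≠ ng a := fun h => ha ((sg_ng_iff a).1 h)
    have hv' : v ∈ VF K := by
      simpa only [PF, if_neg ha] using hv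
    have hd : sg d ≠ d := fun h4 => hvd (VF_long H hv' h4)
    obtain ⟨k, hk, h1⟩ := br_Dw (K := K) H hsm hna hd
    refine ⟨wf K d, k, hk, ?_, (wf_snd_self hd).1, fun d' hd' => wf_snd_ne hd'⟩
    rw [pv_short hna]
    exact h1

private theorem xda4_step (H : HypW C6 K) (a : Rt C6) (v : LL C6 K) (hv : v ∈ PF K a)
    (hc : v.2 (ng a) ≠ 0) (d : Rt C6) (hd : dg a d = -1) (hvd : v.2 d ≠ 0) (y : Rt C6)
    (hy : Sm a d y) : ∃ s : K, (xf y s v).2 d = 0 ∧
      ∀ d', dg a d' = -1 → ¬ Eq4 d d' → (xf y s v).2 d' = v.2 d' := by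
  have hy1 : dg a y = 1 := by
    rw [sm_dg hy a, dg_self, hd]
    norm_num
  have hmem : ∀ s : K, xf y s ∈ Gn K {y | 0 < xda4_l a y.1} := fun s =>
    Subgroup.subset_closure ⟨y, by
      show 0 < xda4_l a y.1
      rw [xda4_l_apply, hy1]
      norm_num, s, rfl⟩
  have hw := (Sup_iff H (xda4_l a) (xda4_hl a) a v hv).1 (xda4_sup H a v hv)
  rw [xda4_l_apply, xda4_dga] at hw
  obtain ⟨P, k, hk, hP1, hP2, hP3⟩ := xda4_P H a v hv d hvd y hy
  have hPW : P ∈ Wl K (xda4_l a) (-2) := by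
    refine ⟨fun b hb => hP3 b ?_, fun h => by omega⟩
    rintro (h | h)
    · rw [h, xda4_l_apply, hd] at hb
      omega
    · rw [h, xda4_l_apply, dg_sg_right, hd] at hb
      omega
  have h2 : (2 : K) ≠ 0 := two_ne H
  have hB : br (Df K y) P ∈ Wl K (xda4_l a) (-1) := by
    have h3 := (Gn_pos H (xda4_l a) (xda4_hl a) (hmem 1)).2.1 (-2) P hPW
    have h4 := (Gn_pos H (xda4_l a) (xda4_hl a) (hmem (-1))).2.1 (-2) P hPW
    have h5 := Submodule.smul_mem _ (2⁻¹ : K) (Submodule.sub_mem _ h3 h4)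
    rw [xf_apply H, xf_apply H] at h5
    have h6 : (2⁻¹ : K) • (P + (1 : K) • br (Df K y) P +
        (2⁻¹ * (1 : K) ^ 2) • br (Df K y) (br (Df K y) P) - P -
        (P + (-1 : K) • br (Df K y) P +
        (2⁻¹ * (-1 : K) ^ 2) • br (Df K y) (br (Df K y) P) - P)) = br (Df K y) P := by
      have h7 : P + (1 : K) • br (Df K y) P +
        (2⁻¹ * (1 : K) ^ 2) • br (Df K y) (br (Df K y) P) - P -
        (P + (-1 : K) • br (Df K y) P +
        (2⁻¹ * (-1 : K) ^ 2) • br (Df K y) (br (Df K y) P) - P) = (2 : K) • br (Df K y) P := by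
        rw [two_smul, neg_one_sq, one_pow, neg_smul, one_smul]
        abel
      rw [h7, smul_smul, inv_mul_cancel₀ h2, one_smul]
    rw [h6] at h5
    exact h5
  have key : ∀ (s : K) (d' : Rt C6), dg a d' = -1 →
      (xf y s v).2 d' = v.2 d' + v.2 (ng a) * (s * (k * P.2 d')) := by
    intro s d' hd'
    have hne := xda4_ne a d' hd'
    have h3 := (Gn_pos H (xda4_l a) (xda4_hl a) (hmem s)).2.1 (-2) _ hw
    have h4 := h3.1 d' (by rw [xda4_l_apply, hd']; norm_num)
    have h5 : (xf y s (v - v.2 (ng a) • pv K (ng a))).2 d' -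
        (v - v.2 (ng a) • pv K (ng a)).2 d' = 0 := h4
    rw [xda4_off a v hv d', if_neg hne, sub_eq_zero] at h5
    have h6 : xf y s v = xf y s (v - v.2 (ng a) • pv K (ng a)) +
        v.2 (ng a) • xf y s (pv K (ng a)) := by
      rw [map_sub, map_smul, sub_add_cancel]
    have h7 : xf y s (pv K (ng a)) = pv K (ng a) + s • k • P +
        (2⁻¹ * s ^ 2) • k • br (Df K y) P := by
      rw [xf_apply H, hP1, map_smul]
    have h8 : (br (Df K y) P).2 d' = 0 := hB.1 d' (by rw [xda4_l_apply, hd'])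
    have h9 : (xf y s (pv K (ng a))).2 d' = s * (k * P.2 d') := by
      rw [h7]
      show (pv K (ng a)).2 d' + s * (k * P.2 d') +
        (2⁻¹ * s ^ 2) * (k * (br (Df K y) P).2 d') = _
      rw [h8, pv_snd_ne hne]
      ring
    rw [h6]
    show (xf y s (v - v.2 (ng a) • pv K (ng a))).2 d' +
      v.2 (ng a) * (xf y s (pv K (ng a))).2 d' = _
    rw [h5, h9]
  refine ⟨-(v.2 d) / (v.2 (ng a) * k), ?_, fun d' hd' hne => ?_⟩
  · rw [key _ d hd, hP2]
    field_simp
    ring
  · rw [key _ d' hd', hP3 d' hne]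
    ring

open Classical in
private theorem xda4_main (H : HypW C6 K) (l : (Fin 6 → ℤ) →+ ℤ) (hl : ∀ x, l (sv x) = l x)
    (R : Set (Rt C6)) (hR : Cl4 R) (a : Rt C6) (haR : a ∈ R) (m : ℕ) :
    ∀ v : LL C6 K, v ∈ PF K a → v.2 (ng a) ≠ 0 → Sup l a v → v ∈ UR K R →
      (Finset.univ.filter (fun d : Rt C6 => dg a d = -1 ∧ v.2 d ≠ 0)).card = m →
      ∃ r ∈ Gn K {y | y ∈ R ∧ dg a y = 1 ∧ 0 < l y.1},
        ∀ d : Rt C6, dg a d = -1 → (r⁻¹ v).2 d = 0 := by
  induction m using Nat.strong_induction_on with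
  | _ m ih =>
  intro v hv hc hs hvR hm
  by_cases hall : ∀ d : Rt C6, dg a d = -1 → v.2 d = 0
  · exact ⟨1, Subgroup.one_mem _, by rw [inv_one]; exact hall⟩
  push Not at hall
  obtain ⟨d, hda, hd⟩ := hall
  have hne := xda4_ne a d hda
  obtain ⟨y, hy, -, -⟩ := sm_of_neg a d (by rw [hda]; norm_num) hne
  have hy1 : dg a y = 1 := by
    rw [sm_dg hy a, dg_self, hda]
    norm_num
  have hdR : d ∈ R := by
    by_contra h
    exact hd (hvR d h)
  have hyR : y ∈ R := hR.2 a haR d hdR y hy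
  have hly : 0 < l y.1 := by
    rw [sm_fun hy l hl]
    rcases hs.1 d hd with h | h
    · exact absurd h hne
    · have h1 : l (ng a).1 = -l a.1 := by
        show l (-a.1) = _
        rw [map_neg]
      omega
  obtain ⟨s, hs0, hs1⟩ := xda4_step H a v hv hc d hda hd y hy
  have hg1 : xf y s ∈ Gn K {y | 0 < l y.1} := Subgroup.subset_closure ⟨y, hly, s, rfl⟩
  have hg2 : xf y s ∈ Gn K R := Subgroup.subset_closure ⟨y, hyR, s, rfl⟩
  have hg3 : xf y s ∈ Gn K {y | y ∈ R ∧ dg a y = 1 ∧ 0 < l y.1} :=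
    Subgroup.subset_closure ⟨y, ⟨hyR, hy1, hly⟩, s, rfl⟩
  obtain ⟨k1, k2, k3⟩ := Sup_map H l hl a hv hs hg1
  have hlt : (Finset.univ.filter (fun r : Rt C6 => dg a r = -1 ∧
      (xf y s v).2 r ≠ 0)).card < m := by
    rw [← hm]
    apply Finset.card_lt_card
    rw [Finset.ssubset_iff_of_subset]
    · exact ⟨d, by simp [hda, hd], by simp [hs0]⟩
    · intro r hr
      simp only [Finset.mem_filter, Finset.mem_univ, true_and] at hr ⊢
      refine ⟨hr.1, ?_⟩
      by_cases hrd : Eq4 d r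
      · rcases hrd with hrd | hrd
        · rw [hrd]
          exact hd
        · rw [hrd]
          by_cases ha : sg a = a
          · simp only [PF, if_pos ha] at hv
            rw [((mem_LF' v).1 hv).2 d]
            exact hd
          · simp only [PF, if_neg ha] at hv
            rw [((mem_VF' v).1 hv).2 d]
            exact neg_ne_zero.2 hd
      · rw [← hs1 r hr.1 hrd]
        exact hr.2
  obtain ⟨r', hr', h2⟩ := ih _ hlt (xf y s v) k3 (by rw [k2]; exact hc) k1
    ((Gn_UR H hR hg2 v).2 hvR) rfl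
  refine ⟨(xf y s)⁻¹ * r', Subgroup.mul_mem _ (Subgroup.inv_mem _ hg3) hr', ?_⟩
  have h3 : ((xf y s)⁻¹ * r')⁻¹ v = r'⁻¹ (xf y s v) := by
    rw [mul_inv_rev, inv_inv, LinearEquiv.mul_apply]
  rw [h3]
  exact h2

theorem xd_step1_4 (H : HypW C6 K) (l : (Fin 6 → ℤ) →+ ℤ) (hl : ∀ x, l (sv x) = l x)
    (R : Set (Rt C6)) (hR : Cl4 R) (a : Rt C6) (haR : a ∈ R) (v : LL C6 K) (hv : v ∈ PF K a)
    (hc : v.2 (ng a) ≠ 0) (hs : Sup l a v) (hvR : v ∈ UR K R) :
    ∃ r ∈ Gn K {y | y ∈ R ∧ dg a y = 1 ∧ 0 < l y.1},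
      ∀ d : Rt C6, dg a d = -1 → (r⁻¹ v).2 d = 0 :=
  xda4_main H l hl R hR a haR _ v hv hc hs hvR rfl

end Pool.Agent.H31.F4
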