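import Pool.Agent.H31.F4.XDa4

/-!
# FF-19: decomposition of white vectors, step 2

`a` short, `w ∈ VF` white, `κ = w.2 (ng a) ≠ 0`, no coordinates of degree `-1`.
(i) For short `d` with `dg a d = 0`, `w.2 d ≠ 0`: `sm_of_orth a d` gives a long `y`, `Sm a d y`,
`dg a y = 2`, `y ∈ R`, `l y = l a + l d > 0`; `[Df y, wf (ng a)] = k wf d`; `xf y s = xr y s` changes
in degree `≤ 0` only the coordinates at `d`, `sg d` (`xr y s` raises the degree by 2).  Kill all of
them.  (ii) Toral part `w.1 = z`, `sv z = -z`.  If `z ≠ 0` then `l a > 0`.  `xf a s (wf (ng a)) =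
wf (ng a) - s hh (zk (a - sa)) + …` (`br_D_wng`), so with `s` suitable `(z, a) = 0`
(`fk_zz`: `fk (zk (a - sa)) (zk a) = 2`).
(iii) Now `w = κ wf (ng a) + hh z + w_1 + w_2`, `(z,a) = 0`.  `IsW` with `x = wf a`:
`fm w (wf a) = -2 κ`, so `[w,[w,wf a]] = 2 κ w`.  Degree 0 part: `κ [wf (ng a),[hh z, wf a]] +
κ [hh z, [wf (ng a), wf a]] = 2 κ hh z`; `[hh z, wf a] = (z,a) Df a = 0`, `[wf (ng a), wf a]` is toral:
so `hh z = 0`.
(iv) `w_1 = 0`: let `b` short, `dg a b = 1`, `w.2 b ≠ 0`; `dg a (ng b) = -1`: `c` with `Sm a (ng b) c`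
(short, `dg a c = 1`).  `IsW` with `x = wf c`: `fm w (wf c)` is a multiple of `w.2 (ng c)`, degree `-1`:
zero.  So `[w,[w,wf c]] = 0`; its toral part: degree 0 part is
`κ [wf (ng a),[w_1, wf c]] + κ [w_1,[wf (ng a), wf c]]`, and the toral part comes from the
component `β wf b` of `w_1` (`Sm b c a`): `[wf b, wf c] = k Df a`, `[wf (ng a), Df a] = ± hh (zk (a - sa))`,
`[wf (ng a), wf c] = k' Df (ng b)`, `[wf b, Df (ng b)] = -hh (zk (b - sb))`: total
`κ β (± k hh z_a ± k' hh z_b) = 0` with `k, k' ≠ 0`: by `zz_indep` (`dg a b = 1`) `β = 0`.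
(v) `w = κ wf (ng a) + μ wf a`, `fm w w = 0` (take `x = w`: `[w,w] = 0`, so `fm w w • w = 0`), `= -4 κ μ`: `μ = 0`.
As written below: (iii) gives `[w, wf a] = κ hh (zk (cv a))` exactly, so `[w,[w,wf a]] = 2 κ w` reads
`-κ dg a r w.2 r = 2 κ w.2 r` coordinatewise: this kills the toral part and the degree 2 part at once
(and `3 w_1 = 0`); for (iv) only the coefficient `k'` of `Df (ng b)` is needed, the element
`[w_1, wf c]` of degree 2 contributes a multiple of `z_a`.
-/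

namespace Pool.Agent.H31.F4

open Pool.Agent.H33.EL (ip cc eps Rt ng zk ek fk LL hh e brf fmf br fm IsExt exl ex xr hd L0 GG T1 TT NN SF cj wt)

variable {K : Type} [Field K]

/-- elements of degree greater than 2 vanish -/
theorem XDs4_fil3 (a : Rt C6) {x : LL C6 K} (hx : x ∈ Fil C6 K (cv a) 3) : x = 0 := by
  obtain ⟨h1, h2⟩ := hx
  refine Prod.ext (h2 (by norm_num)) (funext fun b => h1 b ?_)
  have h3 := (dg_range a b).2
  have h4 : dg a b = ip C6 (cv a) b.1 := rfl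
  omega

/-- everything has degree at least `-2` -/
theorem XDs4_fil_neg (a : Rt C6) (x : LL C6 K) : x ∈ Fil C6 K (cv a) (-2) := by
  refine ⟨fun b hb => ?_, fun h => absurd h (by norm_num)⟩
  have h3 := (dg_range a b).1
  have h4 : dg a b = ip C6 (cv a) b.1 := rfl
  omega

theorem XDs4_dg_Eq4 (a : Rt C6) {b c : Rt C6} (h : Eq4 b c) : dg a c = dg a b := by
  rcases h with h | h
  · rw [h]
  · rw [h, dg_sg_right]

theorem XDs4_Df_fil (a y : Rt C6) : Df K y ∈ Fil C6 K (cv a) (dg a y) := by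
  refine ⟨fun b hb => ?_, fun _ => Df_fst y⟩
  rw [Df_snd]
  refine if_neg fun h => ?_
  have h1 := XDs4_dg_Eq4 a h
  have h2 : dg a b = ip C6 (cv a) b.1 := rfl
  omega

theorem XDs4_wf_fil (a y : Rt C6) : wf K y ∈ Fil C6 K (cv a) (dg a y) := by
  refine ⟨fun b hb => ?_, fun _ => wf_fst y⟩
  refine wf_snd_ne fun h => ?_
  have h1 := XDs4_dg_Eq4 a h
  have h2 : dg a b = ip C6 (cv a) b.1 := rfl
  omega

/-- the properties preserved by the root elements of positive degree 2 -/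
def XDs4_P (l : (Fin 6 → ℤ) →+ ℤ) (R : Set (Rt C6)) (a : Rt C6) (κ : K) (w : LL C6 K) : Prop :=
  w ∈ VF K ∧ IsW w ∧ w.2 (ng a) = κ ∧ Sup l a w ∧ w ∈ UR K R ∧
    ∀ d : Rt C6, dg a d = -1 → w.2 d = 0

/-- the group used -/
abbrev XDs4_G (K : Type) [Field K] (l : (Fin 6 → ℤ) →+ ℤ) (R : Set (Rt C6)) (a : Rt C6) :
    Subgroup (LL C6 K ≃ₗ[K] LL C6 K) := Gn K {y | y ∈ R ∧ dg a y = 2 ∧ 0 < l y.1}

theorem XDs4_mem_Gn {Y : Set (Rt C6)} {y : Rt C6} (hy : y ∈ Y) (s : K) : xf y s ∈ Gn K Y :=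
  Subgroup.subset_closure ⟨y, hy, s, rfl⟩

theorem XDs4_sub (H : HypW C6 K) (a y : Rt C6) (hy : dg a y = 2) (s : K) (w : LL C6 K) :
    xf y s w - w ∈ Fil C6 K (cv a) 0 := by
  have h1 : Df K y ∈ Fil C6 K (cv a) 2 := by
    have := XDs4_Df_fil (K := K) a y
    rwa [hy] at this
  have h2 : br (Df K y) w ∈ Fil C6 K (cv a) 0 := FilA_br_fil h1 (XDs4_fil_neg a w)
  have h3 : br (Df K y) (br (Df K y) w) ∈ Fil C6 K (cv a) 2 := FilA_br_fil h1 h2
  have h4 : xf y s w - w = s • br (Df K y) w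
      + (2⁻¹ * s ^ 2) • br (Df K y) (br (Df K y) w) := by
    rw [xf_apply H]
    abel
  rw [h4]
  exact Submodule.add_mem _ (Submodule.smul_mem _ _ h2)
    (Submodule.smul_mem _ _ (FilA_anti (by norm_num) h3))

theorem XDs4_xf (H : HypW C6 K) (l : (Fin 6 → ℤ) →+ ℤ) (hl : ∀ x, l (sv x) = l x)
    (R : Set (Rt C6)) (hR : Cl4 R) (a : Rt C6) (ha : sg a ≠ a) {κ : K} {w : LL C6 K}
    (hP : XDs4_P l R a κ w) {y : Rt C6} (hyR : y ∈ R) (hy : dg a y = 2) (hly : 0 < l y.1)
    (s : K) : XDs4_P l R a κ (xf y s w) := by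
  obtain ⟨h1, h2, h3, h4, h5, h6⟩ := hP
  have hv : w ∈ PF K a := by
    unfold PF
    rw [if_neg ha]
    exact h1
  obtain ⟨h7, h8, h9⟩ := Sup_map H l hl a hv h4 (XDs4_mem_Gn (Y := {y | 0 < l y.1}) hly s)
  refine ⟨(GF_VF (xf_mem_GF H y s) w).2 h1, isW_map h2 (xf_mem_GF H y s), ?_, h7,
    (Gn_UR H hR (XDs4_mem_Gn hyR s) w).2 h5, fun d hd => ?_⟩
  · rw [h8, h3]
  · have h10 := (XDs4_sub H a y hy s w).1 d (by
      have h2 : dg a d = ip C6 (cv a) d.1 := rfl
      omega)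
    have h11 : (xf y s w).2 d - w.2 d = 0 := h10
    rw [sub_eq_zero.1 h11, h6 d hd]

theorem XDs4_VF_sg {w : LL C6 K} (hw : w ∈ VF K) (d : Rt C6) : w.2 (sg d) = -w.2 d :=
  ((mem_VF' w).1 hw).2 d

/-- killing one coordinate of degree 0 -/
theorem XDs4_one (H : HypW C6 K) (l : (Fin 6 → ℤ) →+ ℤ) (hl : ∀ x, l (sv x) = l x)
    (R : Set (Rt C6)) (hR : Cl4 R) (a : Rt C6) (ha : sg a ≠ a) (haR : a ∈ R) {κ : K}
    (hκ : κ ≠ 0) {w : LL C6 K} (hP : XDs4_P l R a κ w) {d : Rt C6} (hd : dg a d = 0)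
    (hwd : w.2 d ≠ 0) : ∃ (y : Rt C6) (s : K), y ∈ R ∧ dg a y = 2 ∧ 0 < l y.1 ∧
      (xf y s w).2 d = 0 ∧ ∀ d', dg a d' = 0 → w.2 d' = 0 → (xf y s w).2 d' = 0 := by
  obtain ⟨h1, h2, h3, h4, h5, h6⟩ := hP
  have hds : sg d ≠ d := fun h => hwd (VF_long H h1 h)
  obtain ⟨y, hSm, hyl, hcases⟩ := sm_of_orth a d ha hds hd
  have hdR : d ∈ R := by
    by_contra h
    exact hwd (h5 d h)
  have hyR : y ∈ R := hR.2 a haR d hdR y hSm
  have hay : dg a y = 2 := by
    rw [sm_dg hSm a, dg_self, hd]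
    norm_num
  have hly : 0 < l y.1 := by
    rw [sm_fun hSm l hl]
    rcases h4.1 d hwd with h | h
    · have h7 := XDs4_dg_Eq4 a h
      rw [hd, dg_ng_right, dg_self] at h7
      omega
    · rw [ng_val, map_neg] at h
      omega
  -- the root `d - y`
  obtain ⟨r0, hr0, hr0'⟩ : ∃ r0 : Rt C6, r0.1 = d.1 - y.1 ∧ Eq4 (ng a) r0 := by
    rcases hcases with h | h
    · refine ⟨ng a, ?_, Or.inl rfl⟩
      rw [h, ng_val]
      abel
    · refine ⟨sg (ng a), ?_, Or.inr rfl⟩
      have h7 : y.1 = (sg a).1 + d.1 := by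
        have h8 : (sg y).1 = sv (a.1 + (sg d).1) := by
          show sv y.1 = _
          rw [h]
        rw [hyl] at h8
        rw [h8]
        show sv a.1 + sv (sv d.1) = sv a.1 + d.1
        rw [sv_sv]
      rw [h7, sg_ng, ng_val]
      abel
  have hwr : w.2 r0 ≠ 0 := by
    rcases hr0' with h | h
    · rw [h, h3]
      exact hκ
    · rw [h, XDs4_VF_sg h1, h3]
      exact neg_ne_zero.2 hκ
  have hek : ek K C6 y.1 r0.1 * w.2 r0 ≠ 0 := mul_ne_zero (ek_ne_zero _ _) hwr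
  refine ⟨y, -(w.2 d / (ek K C6 y.1 r0.1 * w.2 r0)), hyR, hay, hly, ?_, ?_⟩
  · rw [xf_eq_xr hyl, xr_snd_one H y _ w d r0 hr0, mul_assoc, neg_mul, div_mul_cancel₀ _ hek]
    ring
  · intro d' hd' hwd'
    rw [xf_eq_xr hyl]
    by_cases h7 : ip C6 d'.1 y.1 = 1
    · have h8 := root_sub H h7
      have h9 : (⟨d'.1 - y.1, h8⟩ : Rt C6).1 = d'.1 - y.1 := rfl
      generalize (⟨d'.1 - y.1, h8⟩ : Rt C6) = r at h9
      rw [xr_snd_one H y _ w d' r h9, hwd']
      have h10 : dg a r = -2 := by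
        have h11 : dg a r = dg a d' - dg a y := by
          show ip C6 (cv a) r.1 = ip C6 (cv a) d'.1 - ip C6 (cv a) y.1
          rw [h9, ip_sub_right]
        rw [h11, hd', hay]
        norm_num
      have h12 : w.2 r = 0 := by
        by_cases hrs : sg r = r
        · exact VF_long H h1 hrs
        · exfalso
          have h13 := dg_neg_two a r h10 ⟨fun h => absurd h ha, fun h => absurd h hrs⟩
          have h14 : r = r0 ∨ r = sg r0 := by
            rcases hr0' with h | h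
            · rcases h13 with h' | h'
              · left; rw [h', h]
              · right; rw [h', h]
            · rcases h13 with h' | h'
              · right; rw [h', h, sg_sg]
              · left; rw [h', h]
          rcases h14 with h' | h'
          · apply hwd
            have h15 : d' = d := by
              apply Subtype.ext
              rw [h', hr0] at h9
              have h16 := congrArg (fun z => z + y.1) h9
              simp only [sub_add_cancel] at h16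
              exact h16.symm
            rw [← h15]
            exact hwd'
          · apply hwd
            have h15 : d' = sg d := by
              apply Subtype.ext
              have h16 : (sg r0).1 = (sg d).1 - (sg y).1 := by
                show sv r0.1 = sv d.1 - sv y.1
                rw [hr0]
                rfl
              rw [h', h16, hyl] at h9
              have h17 := congrArg (fun z => z + y.1) h9
              simp only [sub_add_cancel] at h17
              exact h17.symm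
            have h18 : w.2 d' = -w.2 d := by
              rw [h15]
              exact XDs4_VF_sg h1 d
            rw [hwd'] at h18
            exact neg_eq_zero.1 h18.symm
      rw [h12]
      ring
    · rw [xr_snd_other H y _ w d' h7 (fun h => by
        rw [h] at hd'
        omega)]
      exact hwd'

/-- killing all coordinates of degree 0 -/
theorem XDs4_kill (H : HypW C6 K) (l : (Fin 6 → ℤ) →+ ℤ) (hl : ∀ x, l (sv x) = l x)
    (R : Set (Rt C6)) (hR : Cl4 R) (a : Rt C6) (ha : sg a ≠ a) (haR : a ∈ R) {κ : K}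
    (hκ : κ ≠ 0) : ∀ (N : ℕ) (w : LL C6 K), XDs4_P l R a κ w →
      {d : Rt C6 | dg a d = 0 ∧ w.2 d ≠ 0}.ncard ≤ N →
      ∃ r ∈ XDs4_G K l R a, XDs4_P l R a κ (r w) ∧ ∀ d, dg a d = 0 → (r w).2 d = 0 := by
  intro N
  induction N with
  | zero =>
    intro w hP hc
    refine ⟨1, one_mem _, hP, fun d hd => ?_⟩
    by_contra h
    have h1 := (Set.ncard_eq_zero (Set.toFinite _)).1 (Nat.le_zero.1 hc)
    have h2 : d ∈ {d : Rt C6 | dg a d = 0 ∧ w.2 d ≠ 0} := ⟨hd, h⟩
    rw [h1] at h2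
    exact h2
  | succ N ih =>
    intro w hP hc
    by_cases h0 : ∀ d, dg a d = 0 → w.2 d = 0
    · exact ⟨1, one_mem _, hP, h0⟩
    · push Not at h0
      obtain ⟨d, hd, hwd⟩ := h0
      obtain ⟨y, s, hyR, hay, hly, h1, h2⟩ := XDs4_one H l hl R hR a ha haR hκ hP hd hwd
      have hP' := XDs4_xf H l hl R hR a ha hP hyR hay hly s
      have h3 : {d : Rt C6 | dg a d = 0 ∧ (xf y s w).2 d ≠ 0} ⊂
          {d : Rt C6 | dg a d = 0 ∧ w.2 d ≠ 0} := by
        refine ⟨fun d' hd' => ⟨hd'.1, fun h => hd'.2 (h2 d' hd'.1 h)⟩, fun h => ?_⟩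
        have h4 : d ∈ {d : Rt C6 | dg a d = 0 ∧ (xf y s w).2 d ≠ 0} := h ⟨hd, hwd⟩
        exact h4.2 h1
      have h5 := Set.ncard_lt_ncard h3 (Set.toFinite _)
      obtain ⟨r, hr, hr1, hr2⟩ := ih (xf y s w) hP' (by omega)
      refine ⟨r * xf y s, mul_mem hr
        (XDs4_mem_Gn (Y := {y | y ∈ R ∧ dg a y = 2 ∧ 0 < l y.1}) ⟨hyR, hay, hly⟩ s), ?_, ?_⟩
      · rw [LinearEquiv.mul_apply]
        exact hr1
      · intro d hd
        rw [LinearEquiv.mul_apply]
        exact hr2 d hd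

/-- the part of positive degree -/
theorem XDs4_rest (H : HypW C6 K) (a : Rt C6) (ha : sg a ≠ a) {w : LL C6 K}
    (hw : w ∈ VF K) (h1 : ∀ d : Rt C6, dg a d = -1 → w.2 d = 0)
    (h0 : ∀ d : Rt C6, dg a d = 0 → w.2 d = 0) :
    w - w.2 (ng a) • wf K (ng a) - hh C6 w.1 ∈ Fil C6 K (cv a) 1 := by
  have ha' : sg (ng a) ≠ ng a := fun h => ha ((sg_ng_iff a).1 h)
  constructor
  · intro b hb
    have hb' : dg a b < 1 := hb
    show w.2 b - w.2 (ng a) * (wf K (ng a)).2 b - (hh C6 w.1).2 b = 0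
    rw [hh_snd, sub_zero]
    by_cases hE : Eq4 (ng a) b
    · rcases hE with h | h
      · rw [h, (wf_snd_self ha').1]
        ring
      · rw [h, (wf_snd_self ha').2, XDs4_VF_sg hw]
        ring
    · rw [wf_snd_ne hE, mul_zero, sub_zero]
      by_cases hbs : sg b = b
      · exact VF_long H hw hbs
      · have h2 : dg a b ≠ -2 := fun h =>
          hE (dg_neg_two a b h ⟨fun h' => absurd h' ha, fun h' => absurd h' hbs⟩)
        have h3 := (dg_range a b).1
        have h4 : dg a b = -1 ∨ dg a b = 0 := by omega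
        rcases h4 with h4 | h4
        · exact h1 b h4
        · exact h0 b h4
  · intro _
    show w.1 - w.2 (ng a) • (wf K (ng a)).1 - (hh C6 w.1).1 = 0
    rw [wf_fst, hh_fst, smul_zero, sub_zero, sub_self]

/-- the toral part of `[Df b, x]` for short `b` -/
theorem XDs4_br_Df_fst (H : HypW C6 K) (b : Rt C6) (hb : sg b ≠ b) {x : LL C6 K}
    (hx : x ∈ VF K) : (br (Df K b) x).1 =
      (-x.2 (ng b)) • (zk (b.1 - (sg b).1) : Fin 6 → K) := by
  rw [Df_short hb, map_add, LinearMap.add_apply, Prod.fst_add, br_e_fst H, br_e_fst H, ← sg_ng,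
    XDs4_VF_sg hx, zk_sub]
  module

/-- the toral part of `[wf b, x]` for short `b` and invariant `x` -/
theorem XDs4_br_wf_fst (H : HypW C6 K) (b : Rt C6) {x : LL C6 K}
    (hx : x ∈ LF K) : (br (wf K b) x).1 =
      (-x.2 (ng b)) • (zk (b.1 - (sg b).1) : Fin 6 → K) := by
  have h1 : x.2 (ng (sg b)) = x.2 (ng b) := by
    rw [← sg_ng]
    exact ((mem_LF' x).1 hx).2 (ng b)
  show (br (e K b - e K (sg b)) x).1 = _
  rw [map_sub, LinearMap.sub_apply, Prod.fst_sub, br_e_fst H, br_e_fst H, h1, zk_sub, smul_sub]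

/-- step (ii): the toral part -/
theorem XDs4_tor (H : HypW C6 K) (l : (Fin 6 → ℤ) →+ ℤ) (hl : ∀ x, l (sv x) = l x)
    (R : Set (Rt C6)) (hR : Cl4 R) (a : Rt C6) (ha : sg a ≠ a) (haR : a ∈ R) {κ : K}
    (hκ : κ ≠ 0) {w : LL C6 K} (hP : XDs4_P l R a κ w) (h0 : ∀ d, dg a d = 0 → w.2 d = 0) :
    ∃ r ∈ XDs4_G K l R a, XDs4_P l R a κ (r w) ∧ (∀ d, dg a d = 0 → (r w).2 d = 0) ∧
      fk C6 (r w).1 (zk a.1) = 0 := by
  by_cases hw1 : w.1 = 0
  · refine ⟨1, one_mem _, hP, h0, ?_⟩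
    show fk C6 w.1 (zk a.1) = 0
    rw [hw1, fk_zero_left]
  · have hP0 := hP
    obtain ⟨h1, h2, h3, h4, h5, h6⟩ := hP0
    have hla : 0 < l a.1 := by
      have h7 := h4.2 hw1
      rw [ng_val, map_neg] at h7
      omega
    have h2' : (2 : K) ≠ 0 := two_ne H
    have haa : dg a a = 2 := dg_self a
    set s : K := fk C6 w.1 (zk a.1) / (κ * 2) with hs
    refine ⟨xf a s, XDs4_mem_Gn (Y := {y | y ∈ R ∧ dg a y = 2 ∧ 0 < l y.1})
      ⟨haR, haa, hla⟩ s, XDs4_xf H l hl R hR a ha hP haR haa hla s,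
      ?_, ?_⟩
    · intro d hd
      rw [xf_apply H, ad2_V H a ha h1]
      show w.2 d + s * (br (Df K a) w).2 d
        + (2⁻¹ * s ^ 2) * ((-fm (wf K a) w) * (wf K a).2 d) = 0
      have hE : ¬ Eq4 a d := fun h => by
        have h7 := XDs4_dg_Eq4 a h
        omega
      rw [wf_snd_ne hE, h0 d hd, mul_zero, mul_zero, add_zero, zero_add]
      have h8 : w = (w - w.2 (ng a) • wf K (ng a) - hh C6 w.1)
          + w.2 (ng a) • wf K (ng a) + hh C6 w.1 := by abel
      have h9 := XDs4_rest H a ha h1 h6 h0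
      have h10 : Df K a ∈ Fil C6 K (cv a) 2 := by
        have := XDs4_Df_fil (K := K) a a
        rwa [haa] at this
      have h11 : (br (Df K a) (w - w.2 (ng a) • wf K (ng a) - hh C6 w.1)).2 d = 0 :=
        (FilA_br_fil h10 h9).1 d (by
          have h2 : dg a d = ip C6 (cv a) d.1 := rfl
          omega)
      have h12 : (br (Df K a) (w.2 (ng a) • wf K (ng a))).2 d = 0 := by
        rw [map_smul, br_D_wng H a ha]
        show w.2 (ng a) * -(hh C6 _).2 d = 0
        rw [hh_snd, neg_zero, mul_zero]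
      have h13 : (br (Df K a) (hh C6 w.1)).2 d = 0 :=
        (FilA_br_fil h10 (FilA_grd_le _ _ (FilA_hh_grd (cv a) w.1))).1 d (by
          have h2 : dg a d = ip C6 (cv a) d.1 := rfl
          omega)
      rw [h8, map_add, map_add]
      show s * ((br (Df K a) (w - w.2 (ng a) • wf K (ng a) - hh C6 w.1)).2 d
        + (br (Df K a) (w.2 (ng a) • wf K (ng a))).2 d + (br (Df K a) (hh C6 w.1)).2 d) = 0
      rw [h11, h12, h13]
      ring
    · have h7 : (xf a s w).1 = w.1 + s • ((-w.2 (ng a)) • (zk (a.1 - (sg a).1) : Fin 6 → K)) := by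
        rw [xf_apply H, ad2_V H a ha h1]
        show w.1 + s • (br (Df K a) w).1 + (2⁻¹ * s ^ 2) • ((-fm (wf K a) w) • (wf K a).1) = _
        rw [wf_fst, smul_zero, smul_zero, add_zero, XDs4_br_Df_fst H a ha h1]
      rw [h7, fk_add_left, fk_smul_left, fk_smul_left, fk_zz H a ha, h3, hs]
      field_simp
      ring

/-- steps (iii), (iv), (v) -/
theorem XDs4_fin (H : HypW C6 K) (a : Rt C6) (ha : sg a ≠ a) {w : LL C6 K}
    (hw : w ∈ VF K) (hW : IsW w) (hκ : w.2 (ng a) ≠ 0)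
    (h1 : ∀ d : Rt C6, dg a d = -1 → w.2 d = 0) (h0 : ∀ d : Rt C6, dg a d = 0 → w.2 d = 0)
    (hz : fk C6 w.1 (zk a.1) = 0) : w = w.2 (ng a) • wf K (ng a) := by
  have ha' : sg (ng a) ≠ ng a := fun h => ha ((sg_ng_iff a).1 h)
  have h2 : (2 : K) ≠ 0 := two_ne H
  have hrest := XDs4_rest H a ha hw h1 h0
  have hwa : wf K a ∈ Fil C6 K (cv a) 2 := by
    have := XDs4_wf_fil (K := K) a a
    rwa [dg_self a] at this
  have hdec : w = (w - w.2 (ng a) • wf K (ng a) - hh C6 w.1)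
      + w.2 (ng a) • wf K (ng a) + hh C6 w.1 := by abel
  -- `[w, wf a] = κ hh (cv a)`
  have hbr : br w (wf K a) = w.2 (ng a) • hh C6 (zk (cv a)) := by
    have e1 : br (w - w.2 (ng a) • wf K (ng a) - hh C6 w.1) (wf K a) = 0 :=
      XDs4_fil3 a (FilA_br_fil hrest hwa)
    have e2 : br (wf K (ng a)) (wf K a) = hh C6 (zk (cv a)) := by
      have := br_w_wng H (ng a) ha'
      rwa [ng_ng, cv_ng, zk_neg, hh_neg, neg_neg] at this
    have e3 : br (hh C6 w.1) (wf K a) = 0 := by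
      rw [br_k_w w.1 ((mem_VF' w).1 hw).1 a ha, hz, zero_smul]
    calc br w (wf K a) = br ((w - w.2 (ng a) • wf K (ng a) - hh C6 w.1)
        + w.2 (ng a) • wf K (ng a) + hh C6 w.1) (wf K a) := by rw [← hdec]
      _ = w.2 (ng a) • hh C6 (zk (cv a)) := by
        rw [map_add, map_add, LinearMap.add_apply, LinearMap.add_apply, map_smul,
          LinearMap.smul_apply, e1, e2, e3, zero_add, add_zero]
  have hWa := hW (wf K a) (wf_mem a)
  rw [hbr, map_smul, br_skew H w, fm_comm H, fm_w H hw a ha] at hWa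
  -- toral part
  have hz0 : w.1 = 0 := by
    have h3 := congrArg Prod.fst hWa
    have h4 : w.2 (ng a) • -(br (hh C6 (zk (cv a))) w).1 = (-(-2 * w.2 (ng a))) • w.1 := h3
    rw [br_hh_fst, neg_zero, smul_zero] at h4
    have h5 := smul_eq_zero.1 h4.symm
    rcases h5 with h5 | h5
    · exfalso
      have h6 : 2 * w.2 (ng a) = 0 := by
        rw [← h5]
        ring
      rcases mul_eq_zero.1 h6 with h7 | h7
      · exact h2 h7
      · exact hκ h7
    · exact h5
  have hco : ∀ r : Rt C6, (dg a r + 2 : K) * w.2 r = 0 := by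
    intro r
    have h3 := congrFun (congrArg Prod.snd hWa) r
    have h4 : w.2 (ng a) * -(br (hh C6 (zk (cv a))) w).2 r = (-(-2 * w.2 (ng a))) * w.2 r := h3
    rw [br_hh_snd, fk_zk_zk] at h4
    have h5 : w.2 (ng a) * ((dg a r + 2 : K) * w.2 r) = 0 := by
      have h6 : ((ip C6 (cv a) r.1 : ℤ) : K) = (dg a r : K) := rfl
      rw [h6] at h4
      linear_combination -h4
    exact (mul_eq_zero.1 h5).resolve_left hκ
  have hd2 : ∀ r : Rt C6, dg a r = 2 → w.2 r = 0 := by
    intro r hr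
    have h3 := hco r
    rw [hr] at h3
    have h4 : (2 : K) * 2 * w.2 r = 0 := by
      rw [← h3]
      push_cast
      ring
    rcases mul_eq_zero.1 h4 with h5 | h5
    · rcases mul_eq_zero.1 h5 with h6 | h6
      · exact absurd h6 h2
      · exact absurd h6 h2
    · exact h5
  -- degree one
  have hd1 : ∀ b : Rt C6, dg a b = 1 → w.2 b = 0 := by
    intro b hb
    by_contra hwb
    have hbs : sg b ≠ b := fun h => hwb (VF_long H hw h)
    have hnb : sg (ng b) ≠ ng b := fun h => hbs ((sg_ng_iff b).1 h)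
    have hE : ¬ Eq4 (ng a) (ng b) := fun h => by
      have h3 := XDs4_dg_Eq4 a h
      rw [dg_ng_right, dg_ng_right, dg_self, hb] at h3
      omega
    obtain ⟨c, hSm, hclen, -⟩ := sm_of_neg a (ng b) (by rw [dg_ng_right, hb]; norm_num) hE
    have hcs : sg c ≠ c := fun h => ha (hclen.1 h).1
    have hac : dg a c = 1 := by
      rw [sm_dg hSm a, dg_self, dg_ng_right, hb]
      norm_num
    obtain ⟨k, hk, hkbr⟩ := br_ww (K := K) H (Sm_sub hSm) ha' hcs
    have hwc : wf K c ∈ Fil C6 K (cv a) 1 := by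
      have := XDs4_wf_fil (K := K) a c
      rwa [hac] at this
    have hrest' : w - w.2 (ng a) • wf K (ng a) ∈ Fil C6 K (cv a) 1 := by
      rw [hz0] at hrest
      have h3 : hh C6 (0 : Fin 6 → K) = 0 := rfl
      rwa [h3, sub_zero] at hrest
    have hy1 : w - w.2 (ng a) • wf K (ng a) ∈ VF K :=
      Submodule.sub_mem _ hw (Submodule.smul_mem _ _ (wf_mem (ng a)))
    set y1 := w - w.2 (ng a) • wf K (ng a) with hy1def
    have hdec' : w = w.2 (ng a) • wf K (ng a) + y1 := by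
      rw [hy1def]
      abel
    set u := br y1 (wf K c) with hu
    have hu2 : u ∈ Fil C6 K (cv a) 2 := FilA_br_fil hrest' hwc
    have huL : u ∈ LF K := br_VF_VF hy1 (wf_mem c)
    have hbrc : br w (wf K c) = (w.2 (ng a) * k) • Df K (ng b) + u := by
      calc br w (wf K c) = br (w.2 (ng a) • wf K (ng a) + y1) (wf K c) := by rw [← hdec']
        _ = _ := by
          rw [map_add, LinearMap.add_apply, map_smul, LinearMap.smul_apply, hkbr, smul_smul]
    have hfm : fm w (wf K c) = 0 := by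
      rw [fm_comm H, fm_w H hw c hcs, h1 (ng c) (by rw [dg_ng_right, hac]), mul_zero]
    have hWc := hW (wf K c) (wf_mem c)
    rw [hfm, neg_zero, zero_smul, hbrc, map_add, map_smul, br_skew H w (Df K (ng b))] at hWc
    have hwu : br w u = w.2 (ng a) • br (wf K (ng a)) u := by
      have e1 : br y1 u = 0 := XDs4_fil3 a (FilA_br_fil hrest' hu2)
      calc br w u = br (w.2 (ng a) • wf K (ng a) + y1) u := by rw [← hdec']
        _ = _ := by
          rw [map_add, LinearMap.add_apply, map_smul, LinearMap.smul_apply, e1, add_zero]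
    rw [hwu] at hWc
    have h3 := congrArg Prod.fst hWc
    have h4 : (w.2 (ng a) * k) • -(br (Df K (ng b)) w).1
        + w.2 (ng a) • (br (wf K (ng a)) u).1 = 0 := h3
    rw [XDs4_br_Df_fst H (ng b) hnb hw, XDs4_br_wf_fst H (ng a) huL, ng_ng, ng_ng] at h4
    have h5 : (zk ((ng b).1 - (sg (ng b)).1) : Fin 6 → K) = -zk (b.1 - (sg b).1) := by
      rw [← zk_neg, sg_ng]
      congr 1
      rw [ng_val, ng_val]
      abel
    have h6 : (zk ((ng a).1 - (sg (ng a)).1) : Fin 6 → K) = -zk (a.1 - (sg a).1) := by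
      rw [← zk_neg, sg_ng]
      congr 1
      rw [ng_val, ng_val]
      abel
    rw [h5, h6] at h4
    have h7 : (w.2 (ng a) * u.2 a) • (zk (a.1 - (sg a).1) : Fin 6 → K)
        + (-(w.2 (ng a) * k * w.2 b)) • zk (b.1 - (sg b).1) = 0 := by
      rw [← h4]
      module
    have h8 := (zz_indep a b ha hbs (Or.inl hb) _ _ h7).2
    have h9 : w.2 (ng a) * k * w.2 b = 0 := neg_eq_zero.1 h8
    exact (mul_ne_zero (mul_ne_zero hκ hk) hwb) h9
  -- conclusion
  refine Prod.ext ?_ (funext fun b => ?_)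
  · rw [hz0]
    show 0 = w.2 (ng a) • (wf K (ng a)).1
    rw [wf_fst, smul_zero]
  · show w.2 b = w.2 (ng a) * (wf K (ng a)).2 b
    by_cases hb : dg a b < 1
    · have h3 := hrest.1 b hb
      have h4 : w.2 b - w.2 (ng a) * (wf K (ng a)).2 b - (hh C6 w.1).2 b = 0 := h3
      rw [hh_snd, sub_zero] at h4
      exact sub_eq_zero.1 h4
    · have h3 := (dg_range a b).2
      have h4 : ¬ Eq4 (ng a) b := fun h => by
        have h5 := XDs4_dg_Eq4 a h
        rw [dg_ng_right, dg_self] at h5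
        omega
      rw [wf_snd_ne h4, mul_zero]
      have h5 : dg a b = 1 ∨ dg a b = 2 := by omega
      rcases h5 with h5 | h5
      · exact hd1 b h5
      · exact hd2 b h5

theorem xd_step2_s (H : HypW C6 K) (l : (Fin 6 → ℤ) →+ ℤ) (hl : ∀ x, l (sv x) = l x)
    (R : Set (Rt C6)) (hR : Cl4 R) (a : Rt C6) (ha : sg a ≠ a) (haR : a ∈ R) (w : LL C6 K)
    (hw : w ∈ VF K) (hW : IsW w) (hc : w.2 (ng a) ≠ 0) (hs : Sup l a w) (hwR : w ∈ UR K R)
    (h1 : ∀ d : Rt C6, dg a d = -1 → w.2 d = 0) :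
    ∃ r ∈ Gn K {y | y ∈ R ∧ dg a y = 2 ∧ 0 < l y.1}, w = w.2 (ng a) • r (wf K (ng a)) := by
  have hP : XDs4_P l R a (w.2 (ng a)) w := ⟨hw, hW, rfl, hs, hwR, h1⟩
  obtain ⟨r1, hr1, hP1, h01⟩ := XDs4_kill H l hl R hR a ha haR hc _ w hP le_rfl
  obtain ⟨r2, hr2, hP2, h02, hz⟩ := XDs4_tor H l hl R hR a ha haR hc hP1 h01
  obtain ⟨g1, g2, g3, g4, g5, g6⟩ := hP2
  have h3 := XDs4_fin H a ha g1 g2 (by rw [g3]; exact hc) g6 h02 hz
  rw [g3] at h3
  refine ⟨(r2 * r1)⁻¹, inv_mem (mul_mem hr2 hr1), ?_⟩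
  have h4 : (r2 * r1) w = w.2 (ng a) • wf K (ng a) := by
    rw [LinearEquiv.mul_apply]
    exact h3
  rw [← map_smul, ← h4]
  exact (nor_apply_inv (r2 * r1) w).symm

end Pool.Agent.H31.F4
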